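import Pool.Agent.helper450_im.Small

/-!
# Layers with more than `D r^(d-1)` elements for every `D < 1 / √d`
-/

namespace Pool.Agent.Helper450IM

open Finset Filter Topology

variable {d : ℕ}

lemma sum_odd (i : ℕ) : ∑ j ∈ Finset.range i, (2 * (j : ℝ) + 1) = (i : ℝ) ^ 2 := by
  induction i with
  | zero => simp
  | succ i ih => rw [Finset.sum_range_succ, ih]; push_cast; ring

/-- a pointwise lower bound for a square -/
lemma sum_ind_le_sq (x : ℝ) (J : ℕ) :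
    ∑ j ∈ Finset.range J, (if (j : ℝ) + 1 ≤ |x| then 2 * (j : ℝ) + 1 else 0) ≤ x ^ 2 := by
  rw [← sq_abs x]
  set y := |x| with hy
  have hy0 : 0 ≤ y := abs_nonneg x
  have h1 : ∑ j ∈ Finset.range J, (if (j : ℝ) + 1 ≤ y then 2 * (j : ℝ) + 1 else 0) ≤
      ∑ j ∈ Finset.range ⌊y⌋₊, (2 * (j : ℝ) + 1) := by
    rw [← Finset.sum_filter]
    apply Finset.sum_le_sum_of_subset_of_nonneg
    · intro j hj
      rw [Finset.mem_filter] at hj
      rw [Finset.mem_range]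
      have : j + 1 ≤ ⌊y⌋₊ := by
        rw [Nat.le_floor_iff hy0]
        push_cast
        exact hj.2
      omega
    · intro j _ _
      positivity
  rw [sum_odd] at h1
  refine h1.trans ?_
  exact pow_le_pow_left₀ (by positivity) (Nat.floor_le hy0) 2

lemma sum_poly (N m : ℝ) (J : ℕ) :
    ∑ j ∈ Finset.range J, (2 * (j : ℝ) + 1) * (N - (2 * ((j : ℝ) + 1) + 1) * m) =
      N * (J : ℝ) ^ 2 - m * ((4 / 3) * (J : ℝ) ^ 3 + 2 * (J : ℝ) ^ 2 - (J : ℝ) / 3) := by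
  induction J with
  | zero => simp
  | succ J ih => rw [Finset.sum_range_succ, ih]; push_cast; ring

/-- if all layers are small, the second moment is large -/
lemma moment_of_layers {r : ℕ} {M μ : ℝ} (hM : 0 ≤ M)
    (hlay : ∀ c : ℤ, (((box (fun _ : Fin d => r)).filter
      (fun b => ((∑ ℓ, b ℓ : ℕ) : ℤ) = c)).card : ℝ) ≤ M) (J : ℕ) :
    (r : ℝ) ^ d * (J : ℝ) ^ 2 - M * ((4 / 3) * (J : ℝ) ^ 3 + 2 * (J : ℝ) ^ 2 - (J : ℝ) / 3) ≤
      ∑ b ∈ box (fun _ : Fin d => r), (((∑ ℓ, b ℓ : ℕ) : ℝ) - μ) ^ 2 := by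
  classical
  set A := box (fun _ : Fin d => r) with hA
  have hAc : (A.card : ℝ) = (r : ℝ) ^ d := by
    rw [hA, card_box, Finset.prod_const, Finset.card_univ, Fintype.card_fin]
    push_cast
    rfl
  have hfar : ∀ j : ℕ, (r : ℝ) ^ d - (2 * ((j : ℝ) + 1) + 1) * M ≤
      ((A.filter (fun b => (j : ℝ) + 1 ≤ |((∑ ℓ, b ℓ : ℕ) : ℝ) - μ|)).card : ℝ) := by
    intro j
    set T : ℝ := (j : ℝ) + 1 with hT
    have hT0 : 0 < T := by positivity
    set G := A.filter (fun b => ¬ T ≤ |((∑ ℓ, b ℓ : ℕ) : ℝ) - μ|) with hG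
    have hsplit : ((A.filter (fun b => T ≤ |((∑ ℓ, b ℓ : ℕ) : ℝ) - μ|)).card : ℝ) + G.card =
        (r : ℝ) ^ d := by
      rw [← hAc]
      have := Finset.card_filter_add_card_filter_not (s := A)
        (fun b => T ≤ |((∑ ℓ, b ℓ : ℕ) : ℝ) - μ|)
      exact_mod_cast this
    have hGc : (G.card : ℝ) ≤ (2 * T + 1) * M := by
      have h1 : G.card = ∑ c ∈ Finset.Icc ⌈μ - T⌉ ⌊μ + T⌋, (G.filter
          (fun b => ((∑ ℓ, b ℓ : ℕ) : ℤ) = c)).card := by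
        apply Finset.card_eq_sum_card_fiberwise
        intro b hb
        have h2 := (Finset.mem_filter.1 (Finset.mem_coe.1 hb)).2
        rw [not_le, abs_lt] at h2
        rw [Finset.mem_coe, Finset.mem_Icc]
        constructor
        · rw [Int.ceil_le]
          push_cast at h2 ⊢
          linarith [h2.1]
        · rw [Int.le_floor]
          push_cast at h2 ⊢
          linarith [h2.2]
      have h3 : (G.card : ℝ) ≤ ∑ _c ∈ Finset.Icc ⌈μ - T⌉ ⌊μ + T⌋, M := by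
        rw [h1]
        push_cast
        apply Finset.sum_le_sum
        intro c _
        refine le_trans ?_ (hlay c)
        have : (G.filter (fun b => ((∑ ℓ, b ℓ : ℕ) : ℤ) = c)).card ≤ (A.filter
            (fun b => ((∑ ℓ, b ℓ : ℕ) : ℤ) = c)).card := by
          apply Finset.card_le_card
          intro b hb
          rw [Finset.mem_filter] at hb ⊢
          exact ⟨(Finset.mem_filter.1 hb.1).1, hb.2⟩
        push_cast at this ⊢
        exact_mod_cast this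
      refine h3.trans ?_
      rw [Finset.sum_const, nsmul_eq_mul, Int.card_Icc]
      apply mul_le_mul_of_nonneg_right _ hM
      have h4 : (⌊μ + T⌋ : ℝ) ≤ μ + T := Int.floor_le _
      have h5 : μ - T ≤ (⌈μ - T⌉ : ℝ) := Int.le_ceil _
      rcases le_or_gt 0 (⌊μ + T⌋ + 1 - ⌈μ - T⌉) with h6 | h6
      · have h7 : (((⌊μ + T⌋ + 1 - ⌈μ - T⌉).toNat : ℕ) : ℝ) =
            ((⌊μ + T⌋ + 1 - ⌈μ - T⌉ : ℤ) : ℝ) := by
          exact_mod_cast Int.toNat_of_nonneg h6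
        rw [h7]
        push_cast
        linarith
      · have h7 : (⌊μ + T⌋ + 1 - ⌈μ - T⌉).toNat = 0 := Int.toNat_of_nonpos h6.le
        rw [h7]
        push_cast
        positivity
    linarith
  calc (r : ℝ) ^ d * (J : ℝ) ^ 2 - M * ((4 / 3) * (J : ℝ) ^ 3 + 2 * (J : ℝ) ^ 2 - (J : ℝ) / 3)
      = ∑ j ∈ Finset.range J, (2 * (j : ℝ) + 1) * ((r : ℝ) ^ d - (2 * ((j : ℝ) + 1) + 1) * M) :=
        (sum_poly _ _ _).symm
    _ ≤ ∑ j ∈ Finset.range J, (2 * (j : ℝ) + 1) *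
        ((A.filter (fun b => (j : ℝ) + 1 ≤ |((∑ ℓ, b ℓ : ℕ) : ℝ) - μ|)).card : ℝ) := by
        apply Finset.sum_le_sum
        intro j _
        exact mul_le_mul_of_nonneg_left (hfar j) (by positivity)
    _ = ∑ j ∈ Finset.range J, ∑ b ∈ A,
        (if (j : ℝ) + 1 ≤ |((∑ ℓ, b ℓ : ℕ) : ℝ) - μ| then 2 * (j : ℝ) + 1 else 0) := by
        apply Finset.sum_congr rfl
        intro j _
        rw [← Finset.sum_filter, Finset.sum_const, nsmul_eq_mul, mul_comm]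
    _ = ∑ b ∈ A, ∑ j ∈ Finset.range J,
        (if (j : ℝ) + 1 ≤ |((∑ ℓ, b ℓ : ℕ) : ℝ) - μ| then 2 * (j : ℝ) + 1 else 0) :=
        Finset.sum_comm
    _ ≤ ∑ b ∈ A, (((∑ ℓ, b ℓ : ℕ) : ℝ) - μ) ^ 2 := by
        apply Finset.sum_le_sum
        intro b _
        exact sum_ind_le_sq _ J

/-- The density of antichains: every `D < 1 / √d`. -/
theorem antichainDensity_lt (hd : 0 < d) {D : ℝ} (hD : 0 < D) (hD' : D < 1 / √d) :
    AntichainDensity d D := by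
  classical
  have hdR : (0 : ℝ) < d := by exact_mod_cast hd
  have hs : 0 < √(d : ℝ) := Real.sqrt_pos.2 hdR
  have hs2 : √(d : ℝ) * √(d : ℝ) = d := Real.mul_self_sqrt hdR.le
  have hDs : D * √(d : ℝ) < 1 := by
    rwa [lt_div_iff₀ hs] at hD'
  have hDd : D ^ 2 * d < 1 := by
    rw [← hs2]
    have h0 : 0 ≤ D * √(d : ℝ) := by positivity
    nlinarith
  have hu : Tendsto (fun r : ℕ => (⌊1 / (2 * D) * (r : ℝ)⌋₊ : ℝ) / (r : ℝ)) atTop
      (𝓝 (1 / (2 * D))) :=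
    (tendsto_nat_floor_mul_div_atTop (R := ℝ) (a := 1 / (2 * D)) (by positivity)).comp
      tendsto_natCast_atTop_atTop
  have hinv : Tendsto (fun r : ℕ => 1 / (r : ℝ)) atTop (𝓝 0) :=
    tendsto_one_div_atTop_nhds_zero_nat
  have hF : Tendsto (fun r : ℕ => ((⌊1 / (2 * D) * (r : ℝ)⌋₊ : ℝ) / (r : ℝ)) ^ 2 -
      D * ((4 / 3) * ((⌊1 / (2 * D) * (r : ℝ)⌋₊ : ℝ) / (r : ℝ)) ^ 3 +
        2 * ((⌊1 / (2 * D) * (r : ℝ)⌋₊ : ℝ) / (r : ℝ)) ^ 2 * (1 / (r : ℝ)))) atTop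
      (𝓝 ((1 / (2 * D)) ^ 2 - D * ((4 / 3) * (1 / (2 * D)) ^ 3 +
        2 * (1 / (2 * D)) ^ 2 * 0))) :=
    (hu.pow 2).sub ((((hu.pow 3).const_mul (4 / 3)).add
      (((hu.pow 2).const_mul 2).mul hinv)).const_mul D)
  have hlim : (d : ℝ) / 12 < (1 / (2 * D)) ^ 2 - D * ((4 / 3) * (1 / (2 * D)) ^ 3 +
        2 * (1 / (2 * D)) ^ 2 * 0) := by
    have e : (1 / (2 * D)) ^ 2 - D * ((4 / 3) * (1 / (2 * D)) ^ 3 +
        2 * (1 / (2 * D)) ^ 2 * 0) = 1 / (12 * D ^ 2) := by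
      field_simp
      ring
    rw [e, div_lt_div_iff₀ (by norm_num) (by positivity)]
    nlinarith
  filter_upwards [hF.eventually (lt_mem_nhds hlim), eventually_ge_atTop 1] with r hr hr1
  have hrR : (1 : ℝ) ≤ r := by exact_mod_cast hr1
  have hr0 : (0 : ℝ) < r := by linarith
  obtain ⟨c, hc⟩ : ∃ c : ℤ, D * (r : ℝ) ^ (d - 1) ≤ (((box (fun _ : Fin d => r)).filter
      (fun b => ((∑ ℓ, b ℓ : ℕ) : ℤ) = c)).card : ℝ) := by
    by_contra hcon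
    push Not at hcon
    set J : ℕ := ⌊1 / (2 * D) * (r : ℝ)⌋₊ with hJ
    have hmom := moment_of_layers (d := d) (r := r) (M := D * (r : ℝ) ^ (d - 1))
      (μ := d * (((r : ℝ) - 1) / 2)) (by positivity) (fun c => (hcon c).le) J
    have hdev : ∀ b : Fin d → ℕ, ∑ ℓ, ((b ℓ : ℝ) - ((r : ℝ) - 1) / 2) =
        ((∑ ℓ, b ℓ : ℕ) : ℝ) - d * (((r : ℝ) - 1) / 2) := by
      intro b
      rw [Finset.sum_sub_distrib, Finset.sum_const, Finset.card_univ, Fintype.card_fin,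
        nsmul_eq_mul]
      push_cast
      rfl
    have hsq : ∑ b ∈ box (fun _ : Fin d => r),
        (((∑ ℓ, b ℓ : ℕ) : ℝ) - d * (((r : ℝ) - 1) / 2)) ^ 2 =
        d * ((r : ℝ) * ((r : ℝ) ^ 2 - 1) / 12 * (r : ℝ) ^ (d - 1)) := by
      rw [← sum_sq_box r]
      apply Finset.sum_congr rfl
      intro b _
      rw [hdev b]
    rw [hsq] at hmom
    have hpow : (r : ℝ) ^ d = r * (r : ℝ) ^ (d - 1) := by
      rw [← pow_succ']
      congr 1
      omega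
    rw [hpow] at hmom
    set q : ℝ := (r : ℝ) ^ (d - 1) with hq
    have hq0 : 0 < q := by positivity
    have h1 : (r : ℝ) * (J : ℝ) ^ 2 - D * ((4 / 3) * (J : ℝ) ^ 3 + 2 * (J : ℝ) ^ 2 - (J : ℝ) / 3) ≤
        d * ((r : ℝ) * ((r : ℝ) ^ 2 - 1) / 12) := by
      have e1 : ((r : ℝ) * (J : ℝ) ^ 2 -
          D * ((4 / 3) * (J : ℝ) ^ 3 + 2 * (J : ℝ) ^ 2 - (J : ℝ) / 3)) * q ≤
          (d * ((r : ℝ) * ((r : ℝ) ^ 2 - 1) / 12)) * q := by
        calc _ = (r : ℝ) * q * (J : ℝ) ^ 2 - D * q * ((4 / 3) * (J : ℝ) ^ 3 +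
              2 * (J : ℝ) ^ 2 - (J : ℝ) / 3) := by ring
          _ ≤ _ := hmom
          _ = _ := by ring
      exact le_of_mul_le_mul_right e1 hq0
    have h2 : (((J : ℝ) / (r : ℝ)) ^ 2 - D * ((4 / 3) * ((J : ℝ) / (r : ℝ)) ^ 3 +
        2 * ((J : ℝ) / (r : ℝ)) ^ 2 * (1 / (r : ℝ)))) * (r : ℝ) ^ 3 =
        (r : ℝ) * (J : ℝ) ^ 2 - D * ((4 / 3) * (J : ℝ) ^ 3 + 2 * (J : ℝ) ^ 2) := by
      field_simp
    have h3 : (d : ℝ) / 12 * (r : ℝ) ^ 3 < (r : ℝ) * (J : ℝ) ^ 2 -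
        D * ((4 / 3) * (J : ℝ) ^ 3 + 2 * (J : ℝ) ^ 2) := by
      rw [← h2]
      exact mul_lt_mul_of_pos_right hr (by positivity)
    have h4 : 0 ≤ D * ((J : ℝ) / 3) := by positivity
    have h5 : d * ((r : ℝ) * ((r : ℝ) ^ 2 - 1) / 12) ≤ (d : ℝ) / 12 * (r : ℝ) ^ 3 := by
      have : (d : ℝ) / 12 * (r : ℝ) ^ 3 - d * ((r : ℝ) * ((r : ℝ) ^ 2 - 1) / 12) =
          d * r / 12 := by ring
      have h0 : 0 ≤ (d : ℝ) * r / 12 := by positivity
      linarith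
    linarith
  refine ⟨_, Finset.filter_subset _ _, ?_, hc⟩
  intro b hb b' hb' hle
  have e1 := (Finset.mem_filter.1 hb).2
  have e2 := (Finset.mem_filter.1 hb').2
  have e3 : ∑ ℓ, b ℓ = ∑ ℓ, b' ℓ := by exact_mod_cast e1.trans e2.symm
  have h := (Finset.sum_eq_sum_iff_of_le (fun ℓ _ => hle ℓ)).1 e3
  funext ℓ
  exact h ℓ (Finset.mem_univ ℓ)

end Pool.Agent.Helper450IM
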