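import Pool.Agent.helper450_im.RandomPerm

/-!
# The number of tuples that are not pseudorandom
-/

namespace Pool.Agent.Helper450IM

open Finset

section

variable {d k : ℕ}

/-- positions close to the boundary -/
def bdry (k q : ℕ) : Finset (Fin k) := Finset.univ.filter (fun x => (x : ℕ) < q ∨ k ≤ (x : ℕ) + q)

/-- the first `q` positions -/
def loSeg (k q : ℕ) : Finset (Fin k) := Finset.univ.filter (fun x => (x : ℕ) < q)

/-- the last `q` positions -/
def hiSeg (k q : ℕ) : Finset (Fin k) := Finset.univ.filter (fun x => k ≤ (x : ℕ) + q)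

lemma card_interval {a b : ℕ} (hb : b ≤ k) :
    (Finset.univ.filter (fun x : Fin k => a ≤ (x : ℕ) ∧ (x : ℕ) < b)).card = b - a := by
  have h : (Finset.univ.filter (fun x : Fin k => a ≤ (x : ℕ) ∧ (x : ℕ) < b)).map
      Fin.valEmbedding = Finset.Ico a b := by
    ext x
    simp only [Finset.mem_map, Finset.mem_filter, Finset.mem_univ, true_and,
      Fin.valEmbedding_apply, Finset.mem_Ico]
    constructor
    · rintro ⟨y, hy, rfl⟩
      exact hy
    · intro hx
      exact ⟨⟨x, by omega⟩, hx, rfl⟩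
  rw [← Nat.card_Ico, ← h, Finset.card_map]

lemma card_loSeg {q : ℕ} (hq : q ≤ k) : (loSeg k q).card = q := by
  have h := card_interval (k := k) (a := 0) hq
  simpa [loSeg] using h

lemma card_hiSeg {q : ℕ} (hq : q ≤ k) : (hiSeg k q).card = q := by
  have h := card_interval (k := k) (a := k - q) (b := k) (le_refl k)
  have h2 : hiSeg k q = Finset.univ.filter (fun x : Fin k => k - q ≤ (x : ℕ) ∧ (x : ℕ) < k) := by
    ext x
    simp only [hiSeg, Finset.mem_filter, Finset.mem_univ, true_and]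
    have := x.2
    omega
  rw [h2, h]
  omega

lemma card_bdry {q : ℕ} (hq : q ≤ k) : (bdry k q).card ≤ 2 * q := by
  have h : bdry k q ⊆ loSeg k q ∪ hiSeg k q := by
    intro x hx
    simp only [bdry, loSeg, hiSeg, Finset.mem_union, Finset.mem_filter, Finset.mem_univ,
      true_and] at hx ⊢
    exact hx
  have h2 := (Finset.card_le_card h).trans (Finset.card_union_le _ _)
  rw [card_loSeg hq, card_hiSeg hq] at h2
  omega

open Classical in
lemma count_F_real (hk : 0 < k) (ℓ : Fin d) {j : ℕ} (hj : 4 * d * (j + 1) < k)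
    (V : Finset (Fin k)) (hV : V.card = j + 1) :
    ((Finset.univ.filter (fun σ : Fin d → Equiv.Perm (Fin k) =>
      ∀ i, σ ℓ i ∈ V → ∃ j', j' ≠ ℓ ∧ σ j' i ∈ bdry k (j + 1))).card : ℝ) ≤
      (2 * d / k) * ((j + 1) * (1 / 2) ^ j) * tot d k := by
  have hkR : (0 : ℝ) < k := by exact_mod_cast hk
  have hjk : j + 1 ≤ k := by
    have hd : 0 < d := lt_of_le_of_lt (Nat.zero_le _) ℓ.2
    have : 1 * (j + 1) ≤ 4 * d * (j + 1) := Nat.mul_le_mul_right _ (by omega)
    omega
  have h1 := count_F ℓ V (bdry k (j + 1))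
  rw [hV] at h1
  set N := (Finset.univ.filter (fun σ : Fin d → Equiv.Perm (Fin k) =>
      ∀ i, σ ℓ i ∈ V → ∃ j', j' ≠ ℓ ∧ σ j' i ∈ bdry k (j + 1))).card with hN
  have h2 : N * k ^ (j + 1) ≤ (d * (2 * (j + 1))) ^ (j + 1) * tot d k := by
    refine h1.trans (Nat.mul_le_mul_right _ (Nat.pow_le_pow_left ?_ _))
    exact Nat.mul_le_mul_left _ (card_bdry hjk)
  have h3 : (N : ℝ) * (k : ℝ) ^ (j + 1) ≤ ((d : ℝ) * (2 * (j + 1))) ^ (j + 1) * tot d k := by
    exact_mod_cast h2
  have h4 : (N : ℝ) ≤ ((d : ℝ) * (2 * (j + 1)) / k) ^ (j + 1) * tot d k := by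
    rw [div_pow, div_mul_eq_mul_div, le_div_iff₀ (by positivity)]
    exact h3
  have h5 : (d : ℝ) * (2 * (j + 1)) / k ≤ 1 / 2 := by
    rw [div_le_div_iff₀ hkR (by norm_num)]
    have : (4 * d * (j + 1) : ℝ) < k := by exact_mod_cast hj
    linarith
  have h6 : ((d : ℝ) * (2 * (j + 1)) / k) ^ (j + 1) ≤
      (2 * d / k) * ((j + 1) * (1 / 2) ^ j) := by
    rw [pow_succ]
    have h7 : ((d : ℝ) * (2 * (j + 1)) / k) ^ j ≤ (1 / 2) ^ j :=
      pow_le_pow_left₀ (by positivity) h5 j
    calc ((d : ℝ) * (2 * (j + 1)) / k) ^ j * ((d : ℝ) * (2 * (j + 1)) / k)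
        ≤ (1 / 2) ^ j * ((d : ℝ) * (2 * (j + 1)) / k) :=
          mul_le_mul_of_nonneg_right h7 (by positivity)
      _ = _ := by ring
  exact h4.trans (mul_le_mul_of_nonneg_right h6 (by positivity))

lemma sum_geom (n : ℕ) : ∑ j ∈ Finset.range n, ((j : ℝ) + 1) * (1 / 2) ^ j ≤ 4 := by
  have h : ∀ n : ℕ, ∑ j ∈ Finset.range n, ((j : ℝ) + 1) * (1 / 2) ^ j =
      4 - (2 * n + 4) * (1 / 2) ^ n := by
    intro n
    induction n with
    | zero => norm_num
    | succ n ih =>
      rw [Finset.sum_range_succ, ih, pow_succ]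
      push_cast
      ring
  rw [h n]
  have : 0 ≤ (2 * (n : ℝ) + 4) * (1 / 2) ^ n := by positivity
  linarith

open Classical in
lemma count_badZ (hd : 0 < d) (hk : 0 < k) :
    ((Finset.univ.filter (fun σ : Fin d → Equiv.Perm (Fin k) => ¬ PropZ σ)).card : ℝ) ≤
      (16 * d ^ 2 / k) * tot d k := by
  have hkR : (0 : ℝ) < k := by exact_mod_cast hk
  set F : Fin d → ℕ → Finset (Fin k) → Finset (Fin d → Equiv.Perm (Fin k)) := fun ℓ j V =>
    Finset.univ.filter (fun σ : Fin d → Equiv.Perm (Fin k) =>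
      ∀ i, σ ℓ i ∈ V → ∃ j', j' ≠ ℓ ∧ σ j' i ∈ bdry k (j + 1)) with hF
  set J := (Finset.range k).filter (fun j => 4 * d * (j + 1) < k) with hJ
  have hsub : Finset.univ.filter (fun σ : Fin d → Equiv.Perm (Fin k) => ¬ PropZ σ) ⊆
      (Finset.univ : Finset (Fin d)).biUnion (fun ℓ => J.biUnion (fun j =>
        F ℓ j (loSeg k (j + 1)) ∪ F ℓ j (hiSeg k (j + 1)))) := by
    intro σ hσ
    rw [Finset.mem_filter] at hσ
    have h1 := hσ.2
    unfold PropZ at h1
    push Not at h1
    obtain ⟨ℓ, q, hq1, hq2, h2⟩ := h1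
    rw [Finset.mem_biUnion]
    refine ⟨ℓ, Finset.mem_univ _, ?_⟩
    rw [Finset.mem_biUnion]
    obtain ⟨j, rfl⟩ : ∃ j, q = j + 1 := ⟨q - 1, by omega⟩
    have hjk : j < k := by
      have : 1 * (j + 1) ≤ 4 * d * (j + 1) := Nat.mul_le_mul_right _ (by omega)
      omega
    refine ⟨j, ?_, ?_⟩
    · rw [hJ, Finset.mem_filter, Finset.mem_range]
      exact ⟨hjk, hq2⟩
    · rw [Finset.mem_union, hF]
      simp only [Finset.mem_filter, Finset.mem_univ, true_and]
      by_cases c : ∃ i, ((σ ℓ i : ℕ) < j + 1 ∧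
          ∀ j', j' ≠ ℓ → j + 1 ≤ (σ j' i : ℕ) ∧ (σ j' i : ℕ) + (j + 1) < k)
      · right
        intro i hi
        simp only [hiSeg, Finset.mem_filter, Finset.mem_univ, true_and] at hi
        obtain ⟨j', hj', h3⟩ := h2 c i hi
        refine ⟨j', hj', ?_⟩
        simp only [bdry, Finset.mem_filter, Finset.mem_univ, true_and]
        by_cases c2 : j + 1 ≤ (σ j' i : ℕ)
        · right; exact h3 c2
        · left; omega
      · left
        intro i hi
        simp only [loSeg, Finset.mem_filter, Finset.mem_univ, true_and] at hi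
        push Not at c
        obtain ⟨j', hj', h3⟩ := c i hi
        refine ⟨j', hj', ?_⟩
        simp only [bdry, Finset.mem_filter, Finset.mem_univ, true_and]
        by_cases c2 : j + 1 ≤ (σ j' i : ℕ)
        · right; exact h3 c2
        · left; omega
  have h1 : ((Finset.univ.filter (fun σ : Fin d → Equiv.Perm (Fin k) => ¬ PropZ σ)).card : ℝ) ≤
      ∑ ℓ : Fin d, ∑ j ∈ J, (((F ℓ j (loSeg k (j + 1))).card : ℝ) +
        ((F ℓ j (hiSeg k (j + 1))).card : ℝ)) := by
    have h2 : (Finset.univ.filter (fun σ : Fin d → Equiv.Perm (Fin k) => ¬ PropZ σ)).card ≤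
        ∑ ℓ : Fin d, ∑ j ∈ J, ((F ℓ j (loSeg k (j + 1))).card +
          (F ℓ j (hiSeg k (j + 1))).card) := by
      refine (Finset.card_le_card hsub).trans (Finset.card_biUnion_le.trans ?_)
      apply Finset.sum_le_sum
      intro ℓ _
      refine Finset.card_biUnion_le.trans ?_
      apply Finset.sum_le_sum
      intro j _
      exact Finset.card_union_le _ _
    exact_mod_cast h2
  refine h1.trans ?_
  have h3 : ∀ ℓ : Fin d, ∑ j ∈ J, (((F ℓ j (loSeg k (j + 1))).card : ℝ) +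
        ((F ℓ j (hiSeg k (j + 1))).card : ℝ)) ≤ (16 * d / k) * tot d k := by
    intro ℓ
    calc _ ≤ ∑ j ∈ J, (2 * ((2 * d / k) * ((j + 1) * (1 / 2) ^ j) * tot d k) : ℝ) := by
          apply Finset.sum_le_sum
          intro j hj
          rw [hJ, Finset.mem_filter, Finset.mem_range] at hj
          have e1 := count_F_real hk ℓ hj.2 (loSeg k (j + 1)) (card_loSeg (by omega))
          have e2 := count_F_real hk ℓ hj.2 (hiSeg k (j + 1)) (card_hiSeg (by omega))
          rw [hF]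
          simp only
          linarith
      _ ≤ ∑ j ∈ Finset.range k, (2 * ((2 * d / k) * ((j + 1) * (1 / 2) ^ j) * tot d k) : ℝ) := by
          apply Finset.sum_le_sum_of_subset_of_nonneg (Finset.filter_subset _ _)
          intro j _ _
          positivity
      _ = (4 * d / k * tot d k) * ∑ j ∈ Finset.range k, (((j : ℝ) + 1) * (1 / 2) ^ j) := by
          rw [Finset.mul_sum]
          apply Finset.sum_congr rfl
          intro j _
          ring
      _ ≤ (4 * d / k * tot d k) * 4 :=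
          mul_le_mul_of_nonneg_left (sum_geom k) (by positivity)
      _ = _ := by ring
  calc _ ≤ ∑ _ℓ : Fin d, (16 * d / k) * (tot d k : ℝ) := Finset.sum_le_sum (fun ℓ _ => h3 ℓ)
    _ = _ := by
        rw [Finset.sum_const, Finset.card_univ, Fintype.card_fin, nsmul_eq_mul]
        ring

/-- a cell of the grid -/
def cell (k w c : ℕ) : Finset (Fin k) :=
  Finset.univ.filter (fun x => c * w ≤ (x : ℕ) ∧ (x : ℕ) < (c + 1) * w)

open Classical in
lemma count_badY (hd : 0 < d) (hk : 8 * d ≤ k) :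
    ((Finset.univ.filter (fun σ : Fin d → Equiv.Perm (Fin k) => ¬ PropY σ)).card : ℝ) ≤
      ((16 * d) ^ (2 * d) / k) * tot d k := by
  have hk0 : 0 < k := by omega
  have hkR : (0 : ℝ) < k := by exact_mod_cast hk0
  have hdR : (0 : ℝ) < d := by exact_mod_cast hd
  set w := k / (8 * d) with hw
  have hw1 : 1 ≤ w := (Nat.one_le_div_iff (by omega)).2 hk
  have hw2 : 8 * d * w ≤ k := Nat.mul_div_le k (8 * d)
  have hw3 : k ≤ 16 * d * w := by
    have h1 := Nat.div_add_mod k (8 * d)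
    have h2 := Nat.mod_lt k (show 0 < 8 * d by omega)
    rw [← hw] at h1
    have h3 : 8 * d ≤ 8 * d * w := Nat.le_mul_of_pos_right _ hw1
    have h4 : 16 * d * w = 8 * d * w + 8 * d * w := by ring
    omega
  set N : (Fin d → Fin (16 * d + 1)) → Finset (Fin d → Equiv.Perm (Fin k)) := fun c =>
    Finset.univ.filter (fun σ : Fin d → Equiv.Perm (Fin k) =>
      ¬ ∃ i, ∀ ℓ, σ ℓ i ∈ cell k w (c ℓ)) with hN
  set Cs := (Finset.univ : Finset (Fin d → Fin (16 * d))).filter
    (fun c => ∀ ℓ, ((c ℓ : ℕ) + 1) * w ≤ k) with hCs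
  have hsub : Finset.univ.filter (fun σ : Fin d → Equiv.Perm (Fin k) => ¬ PropY σ) ⊆
      Cs.biUnion (fun c => Finset.univ.filter (fun σ : Fin d → Equiv.Perm (Fin k) =>
      ¬ ∃ i, ∀ ℓ, σ ℓ i ∈ cell k w (c ℓ))) := by
    intro σ hσ
    rw [Finset.mem_filter] at hσ
    have h1 := hσ.2
    unfold PropY at h1
    push Not at h1
    obtain ⟨a, b, hab, h2⟩ := h1
    have hc : ∀ ℓ, ∃ c : Fin (16 * d), a ℓ ≤ (c : ℕ) * w ∧ ((c : ℕ) + 1) * w ≤ b ℓ := by
      intro ℓ
      have h3 := (hab ℓ).1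
      have h4 := (hab ℓ).2
      have h5 : 2 * w ≤ b ℓ - a ℓ := by
        have h6 : 4 * d * (2 * w) ≤ 4 * d * (b ℓ - a ℓ) := by
          calc 4 * d * (2 * w) = 8 * d * w := by ring
            _ ≤ k := hw2
            _ ≤ _ := h4
        exact Nat.le_of_mul_le_mul_left h6 (by omega)
      set c := (a ℓ + w - 1) / w with hcdef
      have h7 : a ℓ ≤ c * w := by
        have e1 := Nat.div_add_mod (a ℓ + w - 1) w
        have e2 := Nat.mod_lt (a ℓ + w - 1) (show 0 < w by omega)
        rw [← hcdef] at e1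
        have e3 : w * c = c * w := Nat.mul_comm _ _
        omega
      have h8 : c * w ≤ a ℓ + w - 1 := by
        have := Nat.div_mul_le_self (a ℓ + w - 1) w
        rwa [← hcdef] at this
      have h9 : (c + 1) * w ≤ b ℓ := by
        rw [Nat.add_mul, Nat.one_mul]
        omega
      have h10 : c < 16 * d := by
        by_contra hcon
        push Not at hcon
        have e1 : 16 * d * w ≤ c * w := Nat.mul_le_mul_right _ hcon
        rw [Nat.add_mul, Nat.one_mul] at h9
        omega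
      exact ⟨⟨c, h10⟩, h7, h9⟩
    choose c hc1 hc2 using hc
    rw [Finset.mem_biUnion]
    refine ⟨c, ?_, ?_⟩
    · rw [hCs, Finset.mem_filter]
      exact ⟨Finset.mem_univ _, fun ℓ => (hc2 ℓ).trans (hab ℓ).1⟩
    · rw [Finset.mem_filter]
      refine ⟨Finset.mem_univ _, ?_⟩
      rintro ⟨i, hi⟩
      obtain ⟨ℓ, hℓ⟩ := h2 i
      have h3 := hi ℓ
      simp only [cell, Finset.mem_filter, Finset.mem_univ, true_and] at h3
      have h4 := hc1 ℓ
      have h5 := hc2 ℓ
      have h6 := hℓ (by omega)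
      omega
  have hcell : ∀ c ∈ Cs, ((Finset.univ.filter (fun σ : Fin d → Equiv.Perm (Fin k) =>
      ¬ ∃ i, ∀ ℓ, σ ℓ i ∈ cell k w (c ℓ))).card : ℝ) ≤ ((16 * d) ^ d / k) * tot d k := by
    intro c hc
    rw [hCs, Finset.mem_filter] at hc
    have hG : ∀ ℓ, (cell k w (c ℓ)).card = w := by
      intro ℓ
      have h1 := card_interval (k := k) (a := (c ℓ : ℕ) * w) (hc.2 ℓ)
      rw [cell, h1, Nat.add_mul, Nat.one_mul]
      omega
    have h1 := second_moment hw1 hk0 (fun ℓ => cell k w (c ℓ)) hG hd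
    set M := ((Finset.univ.filter (fun σ : Fin d → Equiv.Perm (Fin k) =>
      ¬ ∃ i, ∀ ℓ, σ ℓ i ∈ cell k w (c ℓ))).card : ℝ) with hM
    have h2 : (1 / (16 * d) : ℝ) ≤ w / k := by
      rw [div_le_div_iff₀ (by positivity) hkR]
      have : (k : ℝ) ≤ 16 * d * w := by exact_mod_cast hw3
      linarith
    have h3 : (1 / (16 * d) : ℝ) ^ d ≤ (w / k : ℝ) ^ d := pow_le_pow_left₀ (by positivity) h2 d
    have h4 : M * (k * (1 / (16 * d) : ℝ) ^ d) ≤ tot d k := by
      refine le_trans ?_ h1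
      apply mul_le_mul_of_nonneg_left _ (by positivity)
      exact mul_le_mul_of_nonneg_left h3 hkR.le
    have h5 : (1 / (16 * d) : ℝ) ^ d = 1 / (16 * d) ^ d := by
      rw [div_pow, one_pow]
    rw [h5] at h4
    have h6 : (0 : ℝ) < (16 * d) ^ d := by positivity
    rw [div_mul_eq_mul_div, le_div_iff₀ hkR]
    calc M * k = (M * (k * (1 / (16 * d) ^ d))) * (16 * d) ^ d := by field_simp
      _ ≤ tot d k * (16 * d) ^ d := mul_le_mul_of_nonneg_right h4 h6.le
      _ = _ := by ring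
  have h1 : ((Finset.univ.filter (fun σ : Fin d → Equiv.Perm (Fin k) => ¬ PropY σ)).card : ℝ) ≤
      ∑ c ∈ Cs, ((Finset.univ.filter (fun σ : Fin d → Equiv.Perm (Fin k) =>
      ¬ ∃ i, ∀ ℓ, σ ℓ i ∈ cell k w (c ℓ))).card : ℝ) := by
    exact_mod_cast (Finset.card_le_card hsub).trans Finset.card_biUnion_le
  refine h1.trans ?_
  calc _ ≤ ∑ _c ∈ Cs, ((16 * d) ^ d / k) * (tot d k : ℝ) := Finset.sum_le_sum hcell
    _ = Cs.card * (((16 * d) ^ d / k) * (tot d k : ℝ)) := by
        rw [Finset.sum_const, nsmul_eq_mul]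
    _ ≤ ((16 * d) ^ d : ℝ) * (((16 * d) ^ d / k) * (tot d k : ℝ)) := by
        apply mul_le_mul_of_nonneg_right _ (by positivity)
        have h2 : Cs.card ≤ (16 * d) ^ d := by
          refine (Finset.card_filter_le _ _).trans ?_
          rw [Finset.card_univ, Fintype.card_fun, Fintype.card_fin, Fintype.card_fin]
        exact_mod_cast h2
    _ = _ := by
        rw [two_mul, pow_add]
        ring

open Classical in
theorem count_bad (hd : 0 < d) (hk : 8 * d ≤ k) :
    ((Finset.univ.filter (fun σ : Fin d → Equiv.Perm (Fin k) =>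
      ¬ (PropZ σ ∧ PropY σ))).card : ℝ) ≤
      ((16 * d ^ 2 + (16 * d) ^ (2 * d)) / k) * tot d k := by
  have hk0 : 0 < k := by omega
  have hsub : Finset.univ.filter (fun σ : Fin d → Equiv.Perm (Fin k) => ¬ (PropZ σ ∧ PropY σ)) ⊆
      Finset.univ.filter (fun σ : Fin d → Equiv.Perm (Fin k) => ¬ PropZ σ) ∪
      Finset.univ.filter (fun σ : Fin d → Equiv.Perm (Fin k) => ¬ PropY σ) := by
    intro σ hσ
    rw [Finset.mem_union, Finset.mem_filter, Finset.mem_filter]
    rw [Finset.mem_filter] at hσ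
    by_cases c : PropZ σ
    · exact Or.inr ⟨Finset.mem_univ _, fun h => hσ.2 ⟨c, h⟩⟩
    · exact Or.inl ⟨Finset.mem_univ _, c⟩
  have h1 : ((Finset.univ.filter (fun σ : Fin d → Equiv.Perm (Fin k) =>
      ¬ (PropZ σ ∧ PropY σ))).card : ℝ) ≤
      ((Finset.univ.filter (fun σ : Fin d → Equiv.Perm (Fin k) => ¬ PropZ σ)).card : ℝ) +
      ((Finset.univ.filter (fun σ : Fin d → Equiv.Perm (Fin k) => ¬ PropY σ)).card : ℝ) := by
    exact_mod_cast (Finset.card_le_card hsub).trans (Finset.card_union_le _ _)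
  have h2 := count_badZ hd hk0
  have h3 := count_badY hd hk
  calc _ ≤ _ := h1
    _ ≤ (16 * d ^ 2 / k) * tot d k + ((16 * d) ^ (2 * d) / k) * tot d k := add_le_add h2 h3
    _ = _ := by ring

end

end Pool.Agent.Helper450IM
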