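import Mathlib

/-!
# Interval minors of multidimensional 0-1 matrices: definitions and an equivalent description
-/

namespace Pool.Agent.Helper450IM

open Finset

/-- A `d`-dimensional 0-1 matrix of size `size 0 × ⋯ × size (d-1)`, given by the finite set
`ones` of the positions of its ones. Indices start at `0`, so that a position `x` satisfies
`x ℓ < size ℓ` for every coordinate `ℓ`. -/
structure Mat (d : ℕ) where
  /-- the side lengths -/
  size : Fin d → ℕ
  /-- the positions of the ones -/
  ones : Finset (Fin d → ℕ)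
  /-- every one lies in the box -/
  inBox : ∀ x ∈ ones, ∀ ℓ, x ℓ < size ℓ

/-- The new number of the cross section number `i` after the consecutive cross sections
number `a, a+1, …, b` have been merged into one. -/
def collapse (a b i : ℕ) : ℕ := if i < a then i else if i ≤ b then a else i - (b - a)

/-- `B` arises from `A` by one contraction: for some direction `ℓ`, the consecutive `ℓ`-cross
sections number `a, …, b` of `A` are replaced by a single one, an entry of which is a one exactly
when at least one of the corresponding entries of the merged cross sections is a one. -/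
def Contraction {d : ℕ} (A B : Mat d) : Prop :=
  ∃ (ℓ : Fin d) (a b : ℕ), a ≤ b ∧ b < A.size ℓ ∧
    B.size = Function.update A.size ℓ (A.size ℓ - (b - a)) ∧
    B.ones = A.ones.image (fun x => Function.update x ℓ (collapse a b (x ℓ)))

/-- `A` contains `P`: one can choose indices `f ℓ 0 < f ℓ 1 < ⋯ < f ℓ (P.size ℓ - 1)` of `A` in
every coordinate `ℓ` so that the submatrix of `A` on the chosen indices has a one wherever `P`
has a one. -/
def Contains {d : ℕ} (A P : Mat d) : Prop :=
  ∃ f : Fin d → ℕ → ℕ,
    (∀ ℓ i j, i < j → j < P.size ℓ → f ℓ i < f ℓ j) ∧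
    (∀ ℓ i, i < P.size ℓ → f ℓ i < A.size ℓ) ∧
    ∀ x ∈ P.ones, (fun ℓ => f ℓ (x ℓ)) ∈ A.ones

/-- `A` contains `P` as an interval minor: finitely many contractions transform `A` into a matrix
that contains `P`. -/
def ContainsMinor {d : ℕ} (A P : Mat d) : Prop :=
  ∃ B : Mat d, Relation.ReflTransGen Contraction A B ∧ Contains B P

/-- The largest number of ones in a 0-1 matrix of size `n 0 × ⋯ × n (d-1)` that avoids `P` as an
interval minor. -/
noncomputable def maxOnes {d : ℕ} (n : Fin d → ℕ) (P : Mat d) : ℕ :=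
  sSup {s | ∃ A : Mat d, A.size = n ∧ ¬ ContainsMinor A P ∧ A.ones.card = s}

/-- `m n P` is the largest number of ones in an `n × ⋯ × n` 0-1 matrix that avoids `P` as an
interval minor. -/
noncomputable def m {d : ℕ} (n : ℕ) (P : Mat d) : ℕ := maxOnes (fun _ => n) P

/-! ## Equivalent description by monotone surjections -/

/-- A monotone map from `{0,…,n-1}` onto `{0,…,k-1}`. -/
structure Onto (n k : ℕ) (φ : ℕ → ℕ) : Prop where
  mono : Monotone φ
  lt : ∀ i, i < n → φ i < k
  surj : ∀ j, j < k → ∃ i, i < n ∧ φ i = j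

/-- `S` in the box `n` has `P` in the box `k` as an interval minor, via monotone surjections. -/
def Emb {ι : Type*} (n k : ι → ℕ) (S P : Finset (ι → ℕ)) : Prop :=
  ∃ φ : ι → ℕ → ℕ, (∀ ℓ, Onto (n ℓ) (k ℓ) (φ ℓ)) ∧
    ∀ p ∈ P, ∃ s ∈ S, ∀ ℓ, φ ℓ (s ℓ) = p ℓ

lemma Onto.zero {n k : ℕ} {φ : ℕ → ℕ} (h : Onto n k φ) (hk : 0 < k) : φ 0 = 0 := by
  obtain ⟨i, _, hi⟩ := h.surj 0 hk
  have := h.mono (Nat.zero_le i)
  omega

lemma Onto.succ_le {n k : ℕ} {φ : ℕ → ℕ} (h : Onto n k φ) (i : ℕ) (hi : i + 1 < n) :
    φ (i + 1) ≤ φ i + 1 := by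
  by_contra hcon
  push Not at hcon
  have h1 : φ (i+1) < k := h.lt _ hi
  obtain ⟨j, hj, hj'⟩ := h.surj (φ i + 1) (by omega)
  rcases Nat.lt_or_ge i j with hij | hij
  · have := h.mono (show i + 1 ≤ j from hij)
    omega
  · have := h.mono hij
    omega

lemma Onto.le {n k : ℕ} {φ : ℕ → ℕ} (h : Onto n k φ) (i : ℕ) (hi : i < n) : φ i ≤ i := by
  induction i with
  | zero =>
    have hk : 0 < k := by have := h.lt 0 hi; omega
    rw [h.zero hk]
  | succ i ih =>
    have := h.succ_le i hi
    have := ih (by omega)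
    omega

lemma Onto.last {n k : ℕ} {φ : ℕ → ℕ} (h : Onto n k φ) (hn : 0 < n) : φ (n - 1) + 1 = k := by
  have h0 := h.lt (n-1) (by omega)
  obtain ⟨j, hj, hj'⟩ := h.surj (k - 1) (by omega)
  have := h.mono (show j ≤ n - 1 by omega)
  omega

lemma Onto.add_le {n k : ℕ} {φ : ℕ → ℕ} (h : Onto n k φ) (j : ℕ) (i : ℕ) (hi : i + j < n) :
    φ (i + j) ≤ φ i + j := by
  induction j with
  | zero => simp
  | succ j ih =>
    have h1 := ih (by omega)
    have h2 := h.succ_le (i + j) (by omega)
    have : i + (j + 1) = i + j + 1 := by ring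
    rw [this]
    omega

/-- There are at least `k - 1 - φ i` further indices after `i`. -/
lemma Onto.ge {n k : ℕ} {φ : ℕ → ℕ} (h : Onto n k φ) (i : ℕ) (hi : i < n) :
    i + k ≤ n + φ i := by
  have h1 := h.add_le (n - 1 - i) i (by omega)
  have h2 : i + (n - 1 - i) = n - 1 := by omega
  rw [h2] at h1
  have := h.last (by omega)
  omega

lemma Onto.k_le {n k : ℕ} {φ : ℕ → ℕ} (h : Onto n k φ) : k ≤ n := by
  rcases Nat.eq_zero_or_pos n with hn | hn
  · rcases Nat.eq_zero_or_pos k with hk | hk
    · omega
    · obtain ⟨i, hi, _⟩ := h.surj 0 hk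
      omega
  · have h1 := h.last hn
    have h2 := h.le (n-1) (by omega)
    omega

/-- If `n = k`, the map is the identity on `{0,…,n-1}`. -/
lemma Onto.eq_id {n : ℕ} {φ : ℕ → ℕ} (h : Onto n n φ) (i : ℕ) (hi : i < n) : φ i = i := by
  have h1 := h.le i hi
  have h2 := h.ge i hi
  omega

/-- If `k < n`, two consecutive indices have the same image. -/
lemma Onto.exists_eq {n k : ℕ} {φ : ℕ → ℕ} (h : Onto n k φ) (hkn : k < n) :
    ∃ i, i + 1 < n ∧ φ i = φ (i + 1) := by
  by_contra hcon
  push Not at hcon
  have key : ∀ i, i < n → φ i ≥ i := by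
    intro i
    induction i with
    | zero => intro _; omega
    | succ i ih =>
      intro hi
      have h1 := ih (by omega)
      have h2 := hcon i hi
      have h3 := h.mono (Nat.le_succ i)
      simp only [Nat.succ_eq_add_one] at h3
      omega
  have h1 := key (n-1) (by omega)
  have h2 := h.last (by omega)
  omega

lemma collapse_mono (a b : ℕ) (hab : a ≤ b) : Monotone (collapse a b) := by
  intro i j hij
  unfold collapse
  split_ifs <;> omega

lemma onto_collapse {n a b : ℕ} (hab : a ≤ b) (hb : b < n) :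
    Onto n (n - (b - a)) (collapse a b) where
  mono := collapse_mono a b hab
  lt := by
    intro i hi
    unfold collapse
    split_ifs <;> omega
  surj := by
    intro j hj
    by_cases h : j ≤ a
    · refine ⟨j, by omega, ?_⟩
      unfold collapse
      split_ifs <;> omega
    · refine ⟨j + (b - a), by omega, ?_⟩
      unfold collapse
      split_ifs <;> omega

lemma Onto.comp {n k r : ℕ} {φ ψ : ℕ → ℕ} (h : Onto n k φ) (h' : Onto k r ψ) :
    Onto n r (ψ ∘ φ) where
  mono := h'.mono.comp h.mono
  lt := fun i hi => h'.lt _ (h.lt i hi)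
  surj := by
    intro j hj
    obtain ⟨i, hi, hi'⟩ := h'.surj j hj
    obtain ⟨i2, hi2, hi2'⟩ := h.surj i hi
    exact ⟨i2, hi2, by simp [hi2', hi']⟩

lemma Onto.id (n : ℕ) : Onto n n (fun i => i) where
  mono := monotone_id
  lt := fun _ hi => hi
  surj := fun j hj => ⟨j, hj, rfl⟩

lemma Onto.congr {n k : ℕ} {φ : ℕ → ℕ} (h : Onto n k φ) {n' k' : ℕ} (hn : n = n') (hk : k = k') :
    Onto n' k' φ := by
  subst hn; subst hk; exact h

variable {d : ℕ}

/-- ordinary containment gives monotone surjections -/
lemma emb_of_contains {A P : Mat d} (hP : ∀ ℓ, 0 < P.size ℓ) (h : Contains A P) :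
    Emb A.size P.size A.ones P.ones := by
  obtain ⟨f, hf1, hf2, hf3⟩ := h
  refine ⟨fun ℓ i => ((Finset.Ico 1 (P.size ℓ)).filter (fun j => f ℓ j ≤ i)).card, ?_, ?_⟩
  · intro ℓ
    have key : ∀ j, j < P.size ℓ →
        ((Finset.Ico 1 (P.size ℓ)).filter (fun j' => f ℓ j' ≤ f ℓ j)).card = j := by
      intro j hj
      have : (Finset.Ico 1 (P.size ℓ)).filter (fun j' => f ℓ j' ≤ f ℓ j) = Finset.Ico 1 (j+1) := by
        ext j'
        simp only [Finset.mem_filter, Finset.mem_Ico]
        constructor
        · rintro ⟨⟨h1, h2⟩, h3⟩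
          refine ⟨h1, ?_⟩
          by_contra hcon
          have := hf1 ℓ j j' (by omega) h2
          omega
        · rintro ⟨h1, h2⟩
          refine ⟨⟨h1, by omega⟩, ?_⟩
          rcases Nat.lt_or_ge j' j with h3 | h3
          · exact (hf1 ℓ j' j h3 hj).le
          · have : j' = j := by omega
            rw [this]
      rw [this]
      simp
    refine ⟨?_, ?_, ?_⟩
    · intro i i' hii'
      apply Finset.card_le_card
      intro j hj
      simp only [Finset.mem_filter] at hj ⊢
      exact ⟨hj.1, hj.2.trans hii'⟩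
    · intro i _
      have h1 : ((Finset.Ico 1 (P.size ℓ)).filter (fun j => f ℓ j ≤ i)).card ≤
          (Finset.Ico 1 (P.size ℓ)).card := Finset.card_filter_le _ _
      rw [Nat.card_Ico] at h1
      have := hP ℓ
      change ((Finset.Ico 1 (P.size ℓ)).filter (fun j => f ℓ j ≤ i)).card < P.size ℓ
      omega
    · intro j hj
      exact ⟨f ℓ j, hf2 ℓ j hj, key j hj⟩
  · intro p hp
    refine ⟨_, hf3 p hp, ?_⟩
    intro ℓ
    have hj := P.inBox p hp ℓ
    have : (Finset.Ico 1 (P.size ℓ)).filter (fun j' => f ℓ j' ≤ f ℓ (p ℓ)) =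
        Finset.Ico 1 (p ℓ +1) := by
      ext j'
      simp only [Finset.mem_filter, Finset.mem_Ico]
      constructor
      · rintro ⟨⟨h1, h2⟩, h3⟩
        refine ⟨h1, ?_⟩
        by_contra hcon
        have := hf1 ℓ (p ℓ) j' (by omega) h2
        omega
      · rintro ⟨h1, h2⟩
        refine ⟨⟨h1, by omega⟩, ?_⟩
        rcases Nat.lt_or_ge j' (p ℓ) with h3 | h3
        · exact (hf1 ℓ j' (p ℓ) h3 hj).le
        · have : j' = p ℓ := by omega
          rw [this]
    show ((Finset.Ico 1 (P.size ℓ)).filter (fun j' => f ℓ j' ≤ f ℓ (p ℓ))).card = p ℓ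
    rw [this]
    simp

/-- pulling back along one contraction -/
lemma emb_of_contraction {A B : Mat d} {k : Fin d → ℕ} {P : Finset (Fin d → ℕ)}
    (h : Contraction A B) (hB : Emb B.size k B.ones P) : Emb A.size k A.ones P := by
  obtain ⟨ℓ, a, b, hab, hb, hsize, hones⟩ := h
  obtain ⟨φ, hφ, hP⟩ := hB
  refine ⟨fun j => if j = ℓ then φ j ∘ collapse a b else φ j, ?_, ?_⟩
  · intro j
    have hj := hφ j
    by_cases hjl : j = ℓ
    · subst hjl
      simp only [if_true]
      rw [hsize, Function.update_self] at hj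
      exact (onto_collapse hab hb).comp hj
    · simp only [hjl, if_false]
      rw [hsize, Function.update_of_ne hjl] at hj
      exact hj
  · intro p hp
    obtain ⟨s, hs, hs'⟩ := hP p hp
    rw [hones, Finset.mem_image] at hs
    obtain ⟨x, hx, hxs⟩ := hs
    refine ⟨x, hx, ?_⟩
    intro j
    rw [← hs' j, ← hxs]
    by_cases hjl : j = ℓ
    · subst hjl
      simp
    · simp [hjl]

lemma emb_of_containsMinor {A P : Mat d} (hP : ∀ ℓ, 0 < P.size ℓ) (h : ContainsMinor A P) :
    Emb A.size P.size A.ones P.ones := by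
  obtain ⟨B, hAB, hB⟩ := h
  have hB' := emb_of_contains hP hB
  induction hAB using Relation.ReflTransGen.head_induction_on with
  | refl => exact hB'
  | head h1 _ ih => exact emb_of_contraction h1 ih

/-- the matrix obtained by merging the cross sections `i, i+1` in direction `ℓ` -/
def merge (A : Mat d) (ℓ : Fin d) (i : ℕ) (hi : i + 1 < A.size ℓ) : Mat d where
  size := Function.update A.size ℓ (A.size ℓ - 1)
  ones := A.ones.image (fun x => Function.update x ℓ (collapse i (i+1) (x ℓ)))
  inBox := by
    intro x hx j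
    rw [Finset.mem_image] at hx
    obtain ⟨y, hy, rfl⟩ := hx
    by_cases hj : j = ℓ
    · subst hj
      simp only [Function.update_self]
      have := A.inBox y hy j
      unfold collapse
      split_ifs <;> omega
    · simp only [Function.update_of_ne hj]
      exact A.inBox y hy j

lemma contraction_merge (A : Mat d) (ℓ : Fin d) (i : ℕ) (hi : i + 1 < A.size ℓ) :
    Contraction A (merge A ℓ i hi) :=
  ⟨ℓ, i, i+1, by omega, hi, by simp [merge], by simp [merge]⟩

lemma containsMinor_of_emb_aux (N : ℕ) : ∀ (A P : Mat d), ∑ ℓ, A.size ℓ = N →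
    Emb A.size P.size A.ones P.ones → ContainsMinor A P := by
  induction N using Nat.strong_induction_on with
  | _ N ih =>
    intro A P hN hE
    obtain ⟨φ, hφ, hP⟩ := hE
    by_cases hcase : ∀ ℓ, A.size ℓ = P.size ℓ
    · -- identity
      refine ⟨A, Relation.ReflTransGen.refl, fun _ i => i, fun _ i j hij _ => hij, ?_, ?_⟩
      · intro ℓ i hi
        rw [hcase]; exact hi
      · intro x hx
        obtain ⟨s, hs, hs'⟩ := hP x hx
        have : (fun ℓ => x ℓ) = s := by
          funext ℓ
          have h1 : Onto (A.size ℓ) (A.size ℓ) (φ ℓ) := (hφ ℓ).congr rfl (hcase ℓ).symm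
          have h2 := h1.eq_id (s ℓ) (A.inBox s hs ℓ)
          rw [← hs' ℓ, h2]
        show (fun ℓ => x ℓ) ∈ A.ones
        rw [this]
        exact hs
    · push Not at hcase
      obtain ⟨ℓ, hℓ⟩ := hcase
      have hkn : P.size ℓ < A.size ℓ := lt_of_le_of_ne (hφ ℓ).k_le (Ne.symm hℓ)
      obtain ⟨i, hi, hi'⟩ := (hφ ℓ).exists_eq hkn
      have hlt : ∑ j, (merge A ℓ i hi).size j < N := by
        rw [← hN]
        apply Finset.sum_lt_sum
        · intro j _
          by_cases hj : j = ℓ
          · subst hj; simp [merge]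
          · simp [merge, Function.update_of_ne hj]
        · refine ⟨ℓ, Finset.mem_univ _, ?_⟩
          simp only [merge, Function.update_self]
          omega
      have hE' : Emb (merge A ℓ i hi).size P.size (merge A ℓ i hi).ones P.ones := by
        refine ⟨fun j => if j = ℓ then (fun t => φ ℓ (if t ≤ i then t else t + 1)) else φ j,
          ?_, ?_⟩
        · intro j
          by_cases hj : j = ℓ
          · subst hj
            simp only [if_true, merge, Function.update_self]
            refine ⟨?_, ?_, ?_⟩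
            · intro t t' htt'
              apply (hφ j).mono
              split_ifs <;> omega
            · intro t ht
              apply (hφ j).lt
              split_ifs <;> omega
            · intro v hv
              obtain ⟨t, ht, ht'⟩ := (hφ j).surj v hv
              by_cases h1 : t ≤ i
              · exact ⟨t, by omega, by simp [h1, ht']⟩
              · by_cases h2 : t = i + 1
                · refine ⟨i, by omega, ?_⟩
                  simp only [le_refl, if_true]
                  rw [hi', ← h2, ht']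
                · refine ⟨t - 1, by omega, ?_⟩
                  have : ¬ (t - 1 ≤ i) := by omega
                  simp only [this, if_false]
                  have h3 : t - 1 + 1 = t := by omega
                  rw [h3, ht']
          · simp only [hj, if_false, merge, Function.update_of_ne hj]
            exact hφ j
        · intro p hp
          obtain ⟨s, hs, hs'⟩ := hP p hp
          refine ⟨Function.update s ℓ (collapse i (i+1) (s ℓ)), ?_, ?_⟩
          · simp only [merge, Finset.mem_image]
            exact ⟨s, hs, rfl⟩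
          · intro j
            by_cases hj : j = ℓ
            · subst hj
              simp only [if_true, Function.update_self]
              rw [← hs' j]
              unfold collapse
              split_ifs with h1 h2 h3 h4 h5
              · rfl
              · omega
              · have h7 : s j = i ∨ s j = i + 1 := by omega
                rcases h7 with h7 | h7
                · rw [h7]
                · rw [h7, hi']
              · omega
              · omega
              · congr 1
                omega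
            · simp only [hj, if_false, Function.update_of_ne hj]
              exact hs' j
      obtain ⟨B, hB1, hB2⟩ := ih _ hlt (merge A ℓ i hi) P rfl hE'
      exact ⟨B, Relation.ReflTransGen.head (contraction_merge A ℓ i hi) hB1, hB2⟩

lemma containsMinor_of_emb {A P : Mat d} (h : Emb A.size P.size A.ones P.ones) :
    ContainsMinor A P :=
  containsMinor_of_emb_aux _ A P rfl h

theorem containsMinor_iff {A P : Mat d} (hP : ∀ ℓ, 0 < P.size ℓ) :
    ContainsMinor A P ↔ Emb A.size P.size A.ones P.ones :=
  ⟨emb_of_containsMinor hP, containsMinor_of_emb⟩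

lemma Mat.size_pos {P : Mat d} (hP : P.ones.Nonempty) (ℓ : Fin d) : 0 < P.size ℓ := by
  obtain ⟨x, hx⟩ := hP
  exact lt_of_le_of_lt (Nat.zero_le _) (P.inBox x hx ℓ)

/-- the box as a finset of functions to `ℕ` -/
def box {d : ℕ} (n : Fin d → ℕ) : Finset (Fin d → ℕ) := Fintype.piFinset (fun ℓ => Finset.range (n ℓ))

lemma mem_box {n : Fin d → ℕ} {x : Fin d → ℕ} : x ∈ box n ↔ ∀ ℓ, x ℓ < n ℓ := by
  simp [box]

lemma card_box (n : Fin d → ℕ) : (box n).card = ∏ ℓ, n ℓ := by
  simp [box]

lemma Mat.ones_subset (A : Mat d) : A.ones ⊆ box A.size := fun x hx => mem_box.2 (A.inBox x hx)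

lemma Mat.card_le (A : Mat d) : A.ones.card ≤ ∏ ℓ, A.size ℓ := by
  rw [← card_box]
  exact Finset.card_le_card A.ones_subset

/-- turning a subset of the box into a matrix -/
def toMat (n : Fin d → ℕ) (S : Finset (Fin d → ℕ)) (h : S ⊆ box n) : Mat d :=
  ⟨n, S, fun _ hx => mem_box.1 (h hx)⟩

/-- The set whose supremum is `maxOnes` is bounded. -/
lemma bddAbove_maxOnes (n : Fin d → ℕ) (P : Mat d) :
    BddAbove {s | ∃ A : Mat d, A.size = n ∧ ¬ ContainsMinor A P ∧ A.ones.card = s} := by
  refine ⟨∏ ℓ, n ℓ, ?_⟩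
  rintro s ⟨A, hA, _, rfl⟩
  rw [← hA]
  exact A.card_le

lemma card_le_maxOnes {n : Fin d → ℕ} {P : Mat d} (hP : P.ones.Nonempty)
    {S : Finset (Fin d → ℕ)} (hS : S ⊆ box n) (h : ¬ Emb n P.size S P.ones) :
    S.card ≤ maxOnes n P := by
  apply le_csSup (bddAbove_maxOnes n P)
  refine ⟨toMat n S hS, rfl, ?_, rfl⟩
  rw [containsMinor_iff (Mat.size_pos hP)]
  exact h

lemma maxOnes_le {n : Fin d → ℕ} {P : Mat d} (hP : P.ones.Nonempty) {M : ℕ}
    (h : ∀ S : Finset (Fin d → ℕ), S ⊆ box n → ¬ Emb n P.size S P.ones → S.card ≤ M) :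
    maxOnes n P ≤ M := by
  apply csSup_le'
  rintro s ⟨A, hA, hAP, rfl⟩
  subst hA
  rw [containsMinor_iff (Mat.size_pos hP)] at hAP
  exact h A.ones A.ones_subset hAP

lemma exists_maxOnes (n : Fin d → ℕ) {P : Mat d} (hP : P.ones.Nonempty) :
    ∃ S : Finset (Fin d → ℕ), S ⊆ box n ∧ ¬ Emb n P.size S P.ones ∧ S.card = maxOnes n P := by
  have hne : {s | ∃ A : Mat d, A.size = n ∧ ¬ ContainsMinor A P ∧ A.ones.card = s}.Nonempty := by
    refine ⟨0, toMat n ∅ (Finset.empty_subset _), rfl, ?_, rfl⟩
    rw [containsMinor_iff (Mat.size_pos hP)]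
    rintro ⟨φ, _, h⟩
    obtain ⟨p, hp⟩ := hP
    obtain ⟨s, hs, _⟩ := h p hp
    simp [toMat] at hs
  obtain ⟨A, hA, hAP, hcard⟩ := Nat.sSup_mem hne (bddAbove_maxOnes n P)
  subst hA
  rw [containsMinor_iff (Mat.size_pos hP)] at hAP
  exact ⟨A.ones, A.ones_subset, hAP, hcard⟩

end Pool.Agent.Helper450IM
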