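import Pool.Agent.helper450_im.Frame

/-!
# Rigid patterns and block constructions
-/

namespace Pool.Agent.Helper450IM

open Finset

section

variable {d : ℕ}

/-- `P` is rigid with respect to the set `B` of positions: every map `h` from (the ones of) `P`
to `B` which is monotone in every coordinate, in the sense that `p ℓ < q ℓ` implies
`h p ℓ ≤ h q ℓ`, is constant. -/
def Rigid (P B : Finset (Fin d → ℕ)) : Prop :=
  ∀ h : (Fin d → ℕ) → (Fin d → ℕ), (∀ p ∈ P, h p ∈ B) →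
    (∀ p ∈ P, ∀ q ∈ P, ∀ ℓ, p ℓ < q ℓ → h p ℓ ≤ h q ℓ) → ∀ p ∈ P, ∀ q ∈ P, h p = h q

/-- The first and the last cross section of `P` in every direction are nonzero. -/
def Spans (k : Fin d → ℕ) (P : Finset (Fin d → ℕ)) : Prop :=
  ∀ ℓ, (∃ p ∈ P, p ℓ = 0) ∧ ∃ p ∈ P, p ℓ + 1 = k ℓ

lemma exists_eq_of_steps {n : ℕ} {φ : ℕ → ℕ} (h0 : φ 0 = 0)
    (hstep : ∀ i, i + 1 < n → φ (i + 1) ≤ φ i + 1) (m : ℕ) (hm : m < n) (j : ℕ) (hj : j ≤ φ m) :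
    ∃ i, i ≤ m ∧ φ i = j := by
  induction m with
  | zero => exact ⟨0, le_refl _, by omega⟩
  | succ m ih =>
    by_cases h : j ≤ φ m
    · obtain ⟨i, hi, hi'⟩ := ih (by omega) h
      exact ⟨i, by omega, hi'⟩
    · have := hstep m hm
      exact ⟨m + 1, le_refl _, by omega⟩

lemma onto_of_steps {n k : ℕ} {φ : ℕ → ℕ} (hmono : Monotone φ) (h0 : φ 0 = 0)
    (hstep : ∀ i, i + 1 < n → φ (i + 1) ≤ φ i + 1) (hlast : ∃ i, i < n ∧ φ i + 1 = k)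
    (hlt : ∀ i, i < n → φ i < k) : Onto n k φ where
  mono := hmono
  lt := hlt
  surj := by
    intro j hj
    obtain ⟨m, hm, hm'⟩ := hlast
    obtain ⟨i, hi, hi'⟩ := exists_eq_of_steps h0 hstep m hm j (by omega)
    exact ⟨i, by omega, hi'⟩

lemma Spans.pos {k : Fin d → ℕ} {P : Finset (Fin d → ℕ)} (h : Spans k P) (ℓ : Fin d) :
    0 < k ℓ := by
  obtain ⟨p, _, hp⟩ := (h ℓ).2
  omega

/-- restricting an embedding to a smaller box -/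
lemma emb_mono {n n' k : Fin d → ℕ} {S P : Finset (Fin d → ℕ)} (hspan : Spans k P)
    (hS : S ⊆ box n) (hn : ∀ ℓ, n ℓ ≤ n' ℓ) (h : Emb n' k S P) : Emb n k S P := by
  obtain ⟨φ, hφ, hP⟩ := h
  refine ⟨φ, ?_, hP⟩
  intro ℓ
  refine onto_of_steps (hφ ℓ).mono ((hφ ℓ).zero (hspan.pos ℓ)) ?_ ?_ ?_
  · intro i hi
    exact (hφ ℓ).succ_le i (lt_of_lt_of_le hi (hn ℓ))
  · obtain ⟨p, hp, hp'⟩ := (hspan ℓ).2
    obtain ⟨s, hs, hs'⟩ := hP p hp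
    exact ⟨s ℓ, mem_box.1 (hS hs) ℓ, by rw [hs' ℓ, hp']⟩
  · intro i hi
    exact (hφ ℓ).lt i (lt_of_lt_of_le hi (hn ℓ))

lemma maxOnes_mono {n n' : Fin d → ℕ} {P : Mat d} (hP : P.ones.Nonempty)
    (hspan : Spans P.size P.ones) (hn : ∀ ℓ, n ℓ ≤ n' ℓ) : maxOnes n P ≤ maxOnes n' P := by
  obtain ⟨S, hS, hE, hc⟩ := exists_maxOnes n hP
  rw [← hc]
  apply card_le_maxOnes hP
  · intro x hx
    rw [mem_box]
    intro ℓ
    exact lt_of_lt_of_le (mem_box.1 (hS hx) ℓ) (hn ℓ)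
  · exact fun h => hE (emb_mono hspan hS hn h)

/-- the block construction -/
def blockSet (n : Fin d → ℕ) (B A : Finset (Fin d → ℕ)) : Finset (Fin d → ℕ) :=
  (B ×ˢ A).image (fun q => fun ℓ => n ℓ * q.1 ℓ + q.2 ℓ)

lemma card_blockSet {n : Fin d → ℕ} {B A : Finset (Fin d → ℕ)} (hA : A ⊆ box n) :
    (blockSet n B A).card = B.card * A.card := by
  rw [blockSet, Finset.card_image_of_injOn, Finset.card_product]
  rintro ⟨b, a⟩ hq ⟨b', a'⟩ hq' heq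
  simp only [Finset.coe_product, Set.mem_prod, Finset.mem_coe] at hq hq'
  simp only at heq
  have key : ∀ ℓ, b ℓ = b' ℓ ∧ a ℓ = a' ℓ := by
    intro ℓ
    have h1 := mem_box.1 (hA hq.2) ℓ
    have h2 := mem_box.1 (hA hq'.2) ℓ
    have h3 := congrFun heq ℓ
    have hn : 0 < n ℓ := by omega
    have e1 : (n ℓ * b ℓ + a ℓ) / n ℓ = b ℓ := by
      rw [Nat.mul_add_div hn, Nat.div_eq_of_lt h1, add_zero]
    have e2 : (n ℓ * b' ℓ + a' ℓ) / n ℓ = b' ℓ := by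
      rw [Nat.mul_add_div hn, Nat.div_eq_of_lt h2, add_zero]
    have e3 : b ℓ = b' ℓ := by rw [← e1, ← e2, h3]
    refine ⟨e3, ?_⟩
    rw [e3] at h3
    omega
  rw [Prod.mk.injEq]
  exact ⟨funext fun ℓ => (key ℓ).1, funext fun ℓ => (key ℓ).2⟩

lemma blockSet_subset {n s : Fin d → ℕ} {B A : Finset (Fin d → ℕ)} (hA : A ⊆ box n)
    (hB : B ⊆ box s) : blockSet n B A ⊆ box (fun ℓ => s ℓ * n ℓ) := by
  intro x hx
  simp only [blockSet, Finset.mem_image, Finset.mem_product] at hx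
  obtain ⟨⟨b, a⟩, ⟨hb, ha⟩, rfl⟩ := hx
  rw [mem_box]
  intro ℓ
  have h1 : a ℓ < n ℓ := mem_box.1 (hA ha) ℓ
  have h2 : b ℓ < s ℓ := mem_box.1 (hB hb) ℓ
  show n ℓ * b ℓ + a ℓ < s ℓ * n ℓ
  calc n ℓ * b ℓ + a ℓ < n ℓ * b ℓ + n ℓ := by omega
    _ = (b ℓ + 1) * n ℓ := by ring
    _ ≤ s ℓ * n ℓ := Nat.mul_le_mul_right _ h2

lemma block_avoids {n s k : Fin d → ℕ} {B A P : Finset (Fin d → ℕ)} (hA : A ⊆ box n)
    (hB : B ⊆ box s) (hspan : Spans k P) (hP : P.Nonempty) (hrig : Rigid P B)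
    (hE : ¬ Emb n k A P) : ¬ Emb (fun ℓ => s ℓ * n ℓ) k (blockSet n B A) P := by
  rintro ⟨φ, hφ, hemb⟩
  apply hE
  classical
  -- choose hosts
  have hch : ∀ p : Fin d → ℕ, ∃ q : (Fin d → ℕ) × (Fin d → ℕ), p ∈ P →
      (q.1 ∈ B ∧ q.2 ∈ A ∧ ∀ ℓ, φ ℓ (n ℓ * q.1 ℓ + q.2 ℓ) = p ℓ) := by
    intro p
    by_cases hp : p ∈ P
    · obtain ⟨s', hs', hs''⟩ := hemb p hp
      simp only [blockSet, Finset.mem_image, Finset.mem_product] at hs'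
      obtain ⟨⟨b, a⟩, ⟨hb, ha⟩, rfl⟩ := hs'
      exact ⟨(b, a), fun _ => ⟨hb, ha, hs''⟩⟩
    · exact ⟨(0, 0), fun h => absurd h hp⟩
  choose q hq using hch
  have hconst := hrig (fun p => (q p).1) (fun p hp => (hq p hp).1) (by
    intro p hp p' hp' ℓ hlt
    by_contra hcon
    push Not at hcon
    have h1 := (hq p hp).2.2 ℓ
    have h2 := (hq p' hp').2.2 ℓ
    have h3 := mem_box.1 (hA (hq p hp).2.1) ℓ
    have h4 := mem_box.1 (hA (hq p' hp').2.1) ℓ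
    have h5 : n ℓ * (q p').1 ℓ + (q p').2 ℓ ≤ n ℓ * (q p).1 ℓ + (q p).2 ℓ := by
      have : n ℓ * ((q p').1 ℓ + 1) ≤ n ℓ * (q p).1 ℓ := Nat.mul_le_mul_left _ hcon
      rw [Nat.mul_add, Nat.mul_one] at this
      omega
    have h6 := (hφ ℓ).mono h5
    rw [h1, h2] at h6
    omega)
  obtain ⟨p₀, hp₀⟩ := hP
  set b := (q p₀).1 with hb
  have hbb : ∀ p ∈ P, (q p).1 = b := fun p hp => hconst p hp p₀ hp₀
  have hbs : ∀ ℓ, b ℓ < s ℓ := mem_box.1 (hB (hq p₀ hp₀).1)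
  refine ⟨fun ℓ i => φ ℓ (n ℓ * b ℓ + i), ?_, ?_⟩
  · intro ℓ
    have hrange : ∀ i, i < n ℓ → n ℓ * b ℓ + i < s ℓ * n ℓ := by
      intro i hi
      calc n ℓ * b ℓ + i < n ℓ * b ℓ + n ℓ := by omega
        _ = (b ℓ + 1) * n ℓ := by ring
        _ ≤ s ℓ * n ℓ := Nat.mul_le_mul_right _ (hbs ℓ)
    refine onto_of_steps ?_ ?_ ?_ ?_ ?_
    · intro i j hij
      exact (hφ ℓ).mono (by omega)
    · obtain ⟨p, hp, hp'⟩ := (hspan ℓ).1
      have h1 := (hq p hp).2.2 ℓ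
      rw [hbb p hp, hp'] at h1
      have h2 := (hφ ℓ).mono (show n ℓ * b ℓ + 0 ≤ n ℓ * b ℓ + (q p).2 ℓ by omega)
      show φ ℓ (n ℓ * b ℓ + 0) = 0
      omega
    · intro i hi
      exact (hφ ℓ).succ_le (n ℓ * b ℓ + i) (hrange (i + 1) hi)
    · obtain ⟨p, hp, hp'⟩ := (hspan ℓ).2
      have h1 := (hq p hp).2.2 ℓ
      rw [hbb p hp] at h1
      refine ⟨(q p).2 ℓ, mem_box.1 (hA (hq p hp).2.1) ℓ, ?_⟩
      show φ ℓ (n ℓ * b ℓ + (q p).2 ℓ) + 1 = k ℓ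
      rw [h1, hp']
    · intro i hi
      exact (hφ ℓ).lt _ (hrange i hi)
  · intro p hp
    refine ⟨(q p).2, (hq p hp).2.1, ?_⟩
    intro ℓ
    have h1 := (hq p hp).2.2 ℓ
    rw [hbb p hp] at h1
    exact h1

/-- Super-homogeneity with respect to a rigid block structure. -/
theorem card_mul_maxOnes_le {n s : Fin d → ℕ} {B : Finset (Fin d → ℕ)} {P : Mat d}
    (hP : P.ones.Nonempty) (hspan : Spans P.size P.ones) (hB : B ⊆ box s)
    (hrig : Rigid P.ones B) : B.card * maxOnes n P ≤ maxOnes (fun ℓ => s ℓ * n ℓ) P := by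
  obtain ⟨S, hS, hE, hc⟩ := exists_maxOnes n hP
  rw [← hc, ← card_blockSet hS]
  exact card_le_maxOnes hP (blockSet_subset hS hB) (block_avoids hS hB hspan hP hrig hE)

end

end Pool.Agent.Helper450IM
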