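import Pool.Agent.helper450_im.Blocks

/-!
# The bound `m(n,P,d) = O(n^(d-1))`
-/

namespace Pool.Agent.Helper450IM

open Finset

section

variable {d : ℕ}

/-- side `N` in the directions of `D`, side `1` in the others -/
def nD (D : Finset (Fin d)) (N : ℕ) : Fin d → ℕ := fun ℓ => if ℓ ∈ D then N else 1

lemma nD_pos (D : Finset (Fin d)) {K : ℕ} (hK : 1 ≤ K) (ℓ : Fin d) : 0 < nD D K ℓ := by
  unfold nD; split_ifs <;> omega

lemma spans_box {k : Fin d → ℕ} (hk : ∀ ℓ, 0 < k ℓ) : Spans k (box k) := by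
  intro ℓ
  refine ⟨⟨fun _ => 0, mem_box.2 hk, rfl⟩, ⟨Function.update (fun _ => 0) ℓ (k ℓ - 1), ?_, ?_⟩⟩
  · rw [mem_box]
    intro j
    have := hk j
    by_cases hj : j = ℓ
    · subst hj
      rw [Function.update_self]
      omega
    · rw [Function.update_of_ne hj]
      exact hk j
  · have := hk ℓ
    rw [Function.update_self]
    omega

lemma onto_div (t N : ℕ) (ht : 0 < t) : Onto (t * N) N (fun i => i / t) where
  mono := fun _ _ hij => Nat.div_le_div_right hij
  lt := fun _ hi => Nat.div_lt_of_lt_mul hi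
  surj := fun j hj => ⟨t * j, Nat.mul_lt_mul_of_pos_left hj ht, Nat.mul_div_cancel_left j ht⟩

lemma onto_div_one (t : ℕ) : Onto 1 1 (fun i => i / t) where
  mono := fun _ _ hij => Nat.div_le_div_right hij
  lt := fun i hi => by
    have : i = 0 := by omega
    subst this; simp
  surj := fun j hj => ⟨0, by omega, by simp; omega⟩

lemma onto_nD_div (D : Finset (Fin d)) (t N : ℕ) (ht : 0 < t) (ℓ : Fin d) :
    Onto (nD D (t * N) ℓ) (nD D N ℓ) (fun i => i / t) := by
  unfold nD
  split_ifs
  · exact onto_div t N ht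
  · exact onto_div_one t

/-- the map counting the elements of a set of levels -/
lemma onto_count {n K : ℕ} {R : Finset ℕ} (hK : 1 ≤ K) (hR : ∀ r ∈ R, r < n)
    (hc : K ≤ R.card) :
    Onto n K (fun i => min (K - 1) (Nat.count (fun h => h ∈ R) i)) ∧
    ∀ j, j < K → ∃ r ∈ R, min (K - 1) (Nat.count (fun h => h ∈ R) r) = j := by
  have hex : ∀ j, j < K → ∃ r ∈ R, min (K - 1) (Nat.count (fun h => h ∈ R) r) = j := by
    intro j hj
    have hnth : Nat.nth (fun h => h ∈ R) j ∈ R ∧
        Nat.count (fun h => h ∈ R) (Nat.nth (fun h => h ∈ R) j) = j := by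
      refine ⟨Nat.nth_mem j (fun hf => ?_), Nat.count_nth (fun hf => ?_)⟩
      · have : hf.toFinset.card = R.card := by
          congr 1
          ext x
          simp
        omega
      · have : hf.toFinset.card = R.card := by
          congr 1
          ext x
          simp
        omega
    exact ⟨_, hnth.1, by rw [hnth.2]; omega⟩
  refine ⟨⟨?_, ?_, ?_⟩, hex⟩
  · intro i j hij
    have : Nat.count (fun h => h ∈ R) i ≤ Nat.count (fun h => h ∈ R) j :=
      Nat.count_monotone _ hij
    show min _ _ ≤ min _ _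
    omega
  · intro i _
    show min _ _ < _
    omega
  · intro j hj
    obtain ⟨r, hr, hr'⟩ := hex j hj
    exact ⟨r, hR r hr, hr'⟩

/-- the block containing a position -/
def blk (t : ℕ) (x : Fin d → ℕ) : Fin d → ℕ := fun ℓ => x ℓ / t

/-- contraction into blocks -/
lemma emb_of_blk {D : Finset (Fin d)} {t N K : ℕ} (ht : 0 < t) {S P : Finset (Fin d → ℕ)}
    (h : Emb (nD D N) (nD D K) (S.image (blk t)) P) : Emb (nD D (t * N)) (nD D K) S P := by
  obtain ⟨φ, hφ, hP⟩ := h
  refine ⟨fun ℓ => φ ℓ ∘ (fun i => i / t), fun ℓ => (onto_nD_div D t N ht ℓ).comp (hφ ℓ), ?_⟩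
  intro p hp
  obtain ⟨s, hs, hs'⟩ := hP p hp
  obtain ⟨x, hx, rfl⟩ := Finset.mem_image.1 hs
  exact ⟨x, hx, hs'⟩

lemma blk_image_subset {D : Finset (Fin d)} {t N : ℕ} (ht : 0 < t) {S : Finset (Fin d → ℕ)}
    (hS : S ⊆ box (nD D (t * N))) : S.image (blk t) ⊆ box (nD D N) := by
  intro x hx
  obtain ⟨y, hy, rfl⟩ := Finset.mem_image.1 hx
  rw [mem_box]
  intro ℓ
  exact (onto_nD_div D t N ht ℓ).lt _ (mem_box.1 (hS hy) ℓ)

/-- relative levels in direction `ℓ` of the elements of `S` in the block `b` -/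
def relLev (S : Finset (Fin d → ℕ)) (t : ℕ) (ℓ : Fin d) (b : Fin d → ℕ) : Finset ℕ :=
  (Finset.range t).filter (fun r => ∃ x ∈ S, blk t x = b ∧ x ℓ = t * b ℓ + r)

/-- the blocks with position `v` and relative level set `R` in direction `ℓ` -/
def wideClass (S : Finset (Fin d → ℕ)) (t : ℕ) (ℓ : Fin d) (v : ℕ) (R : Finset ℕ) :
    Finset (Fin d → ℕ) :=
  (S.image (blk t)).filter (fun b => b ℓ = v ∧ relLev S t ℓ b = R)

lemma wide_avoids {D : Finset (Fin d)} {t N K : ℕ} (ht : 0 < t) (hK : 1 ≤ K)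
    {S : Finset (Fin d → ℕ)}
    (hE : ¬ Emb (nD D (t * N)) (nD D K) S (box (nD D K))) {ℓ : Fin d} (hℓ : ℓ ∈ D) {v : ℕ}
    (hv : v < N) {R : Finset ℕ} (hR : R ⊆ Finset.range t) (hRc : K ≤ R.card) :
    ¬ Emb (nD (D.erase ℓ) N) (nD (D.erase ℓ) K) (proj ℓ (wideClass S t ℓ v R))
      (box (nD (D.erase ℓ) K)) := by
  rintro ⟨φ, hφ, hP⟩
  apply hE
  have hRR : ∀ r ∈ R.image (fun r => t * v + r), r < t * N := by
    intro r hr
    obtain ⟨r', hr', rfl⟩ := Finset.mem_image.1 hr
    have h1 := Finset.mem_range.1 (hR hr')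
    have h2 : t * (v + 1) ≤ t * N := Nat.mul_le_mul_left _ hv
    rw [Nat.mul_add, Nat.mul_one] at h2
    omega
  have hRc' : K ≤ (R.image (fun r => t * v + r)).card := by
    rw [Finset.card_image_of_injective _ (fun a b hab => by simpa using hab)]
    exact hRc
  obtain ⟨ho, hex⟩ := onto_count hK hRR hRc'
  have hnD : ∀ M j, j ≠ ℓ → nD (D.erase ℓ) M j = nD D M j := by
    intro M j hj
    unfold nD
    simp [hj]
  refine ⟨fun j => if j = ℓ then
      (fun i => min (K - 1) (Nat.count (fun h => h ∈ R.image (fun r => t * v + r)) i))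
      else φ j ∘ (fun i => i / t), ?_, ?_⟩
  · intro j
    by_cases hj : j = ℓ
    · subst hj
      simp only [if_true]
      have h1 : nD D (t * N) j = t * N := by simp [nD, hℓ]
      have h2 : nD D K j = K := by simp [nD, hℓ]
      rw [h1, h2]
      exact ho
    · simp only [hj, if_false]
      have h1 := hφ j
      rw [hnD N j hj, hnD K j hj] at h1
      exact (onto_nD_div D t N ht j).comp h1
  · intro p hp
    have hp' : Function.update p ℓ 0 ∈ box (nD (D.erase ℓ) K) := by
      rw [mem_box]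
      intro j
      by_cases hj : j = ℓ
      · subst hj
        rw [Function.update_self]
        exact nD_pos _ hK _
      · rw [Function.update_of_ne hj, hnD K j hj]
        exact mem_box.1 hp j
    obtain ⟨b', hb', hb''⟩ := hP _ hp'
    obtain ⟨b, hb, rfl⟩ := Finset.mem_image.1 hb'
    simp only [wideClass, Finset.mem_filter] at hb
    obtain ⟨_, hbv, hbR⟩ := hb
    have hpl : p ℓ < K := by
      have := mem_box.1 hp ℓ
      simpa [nD, hℓ] using this
    obtain ⟨r, hr, hr'⟩ := hex (p ℓ) hpl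
    obtain ⟨r', hr'R, rfl⟩ := Finset.mem_image.1 hr
    rw [← hbR] at hr'R
    simp only [relLev, Finset.mem_filter] at hr'R
    obtain ⟨_, x, hx, hxb, hxl⟩ := hr'R
    refine ⟨x, hx, ?_⟩
    intro j
    by_cases hj : j = ℓ
    · subst hj
      simp only [if_true]
      rw [hxl, hbv]
      exact hr'
    · simp only [hj, if_false, Function.comp]
      have h1 := hb'' j
      rw [Function.update_of_ne hj, Function.update_of_ne hj] at h1
      have h2 : x j / t = b j := congrFun hxb j
      rw [h2]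
      exact h1

lemma proj_wide_injOn (S : Finset (Fin d → ℕ)) (t : ℕ) (ℓ : Fin d) (v : ℕ) (R : Finset ℕ) :
    (proj ℓ (wideClass S t ℓ v R)).card = (wideClass S t ℓ v R).card := by
  apply Finset.card_image_of_injOn
  intro a ha b hb hab
  simp only [wideClass, Finset.coe_filter, Set.mem_ofPred_eq] at ha hb
  funext j
  by_cases hj : j = ℓ
  · subst hj
    rw [ha.2.1, hb.2.1]
  · have := congrFun hab j
    simpa [Function.update_of_ne hj] using this

lemma proj_wide_subset {D : Finset (Fin d)} {t N : ℕ} (ht : 0 < t)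
    {S : Finset (Fin d → ℕ)} (hS : S ⊆ box (nD D (t * N))) (ℓ : Fin d) (v : ℕ) (R : Finset ℕ) :
    proj ℓ (wideClass S t ℓ v R) ⊆ box (nD (D.erase ℓ) N) := by
  intro x hx
  obtain ⟨b, hb, rfl⟩ := Finset.mem_image.1 hx
  have hb' := blk_image_subset ht hS (Finset.mem_filter.1 hb).1
  rw [mem_box]
  intro j
  by_cases hj : j = ℓ
  · subst hj
    simp [nD]
  · rw [Function.update_of_ne hj]
    have := mem_box.1 hb' j
    simpa [nD, hj] using this

/-- number of wide blocks -/
lemma card_wide {D : Finset (Fin d)} {t N K C : ℕ} (ht : 0 < t) (hK : 1 ≤ K)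
    {S : Finset (Fin d → ℕ)} (hS : S ⊆ box (nD D (t * N)))
    (hE : ¬ Emb (nD D (t * N)) (nD D K) S (box (nD D K))) {ℓ : Fin d} (hℓ : ℓ ∈ D)
    (hC : ∀ T, T ⊆ box (nD (D.erase ℓ) N) →
      ¬ Emb (nD (D.erase ℓ) N) (nD (D.erase ℓ) K) T (box (nD (D.erase ℓ) K)) →
      T.card ≤ C) :
    ((S.image (blk t)).filter (fun b => K ≤ (relLev S t ℓ b).card)).card ≤
      N * 2 ^ t * C := by
  classical
  have hmaps : ∀ b ∈ (S.image (blk t)).filter (fun b => K ≤ (relLev S t ℓ b).card),
      (b ℓ, relLev S t ℓ b) ∈ Finset.range N ×ˢ (Finset.range t).powerset := by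
    intro b hb
    have hb' := blk_image_subset ht hS (Finset.mem_filter.1 hb).1
    rw [Finset.mem_product]
    constructor
    · have := mem_box.1 hb' ℓ
      simpa [nD, hℓ] using this
    · rw [Finset.mem_powerset]
      exact Finset.filter_subset _ _
  rw [Finset.card_eq_sum_card_fiberwise hmaps]
  have hle : ∀ vR ∈ Finset.range N ×ˢ (Finset.range t).powerset,
      (((S.image (blk t)).filter (fun b => K ≤ (relLev S t ℓ b).card)).filter
        (fun b => (b ℓ, relLev S t ℓ b) = vR)).card ≤ C := by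
    rintro ⟨v, R⟩ hvR
    rw [Finset.mem_product, Finset.mem_range, Finset.mem_powerset] at hvR
    by_cases hRc : K ≤ R.card
    · have h1 := hC _ (proj_wide_subset ht hS ℓ v R) (wide_avoids ht hK hE hℓ hvR.1 hvR.2 hRc)
      rw [proj_wide_injOn] at h1
      refine le_trans (Finset.card_le_card ?_) h1
      intro b hb
      simp only [Finset.mem_filter, Prod.mk.injEq] at hb
      simp only [wideClass, Finset.mem_filter]
      exact ⟨hb.1.1, hb.2⟩
    · have : (((S.image (blk t)).filter (fun b => K ≤ (relLev S t ℓ b).card)).filter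
        (fun b => (b ℓ, relLev S t ℓ b) = (v, R))) = ∅ := by
        rw [Finset.filter_eq_empty_iff]
        intro b hb heq
        simp only [Finset.mem_filter, Prod.mk.injEq] at hb heq
        apply hRc
        rw [← heq.2]
        exact hb.2
      rw [this]
      simp
  refine (Finset.sum_le_sum hle).trans ?_
  rw [Finset.sum_const, Finset.card_product, Finset.card_range, Finset.card_powerset,
    Finset.card_range, smul_eq_mul]

/-- a block without wide direction has few elements -/
lemma card_narrow {D : Finset (Fin d)} {t N K : ℕ} (ht : 0 < t)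
    {S : Finset (Fin d → ℕ)} (hS : S ⊆ box (nD D (t * N))) {b : Fin d → ℕ}
    (hb : ∀ ℓ ∈ D, (relLev S t ℓ b).card < K) :
    (S.filter (fun x => blk t x = b)).card ≤ (K - 1) ^ D.card := by
  classical
  have hsub : (S.filter (fun x => blk t x = b)).card ≤
      (Fintype.piFinset (fun ℓ => if ℓ ∈ D then relLev S t ℓ b else {0})).card := by
    apply Finset.card_le_card_of_injOn (fun x => fun ℓ => x ℓ - t * b ℓ)
    · intro x hx
      simp only [Finset.coe_filter, Set.mem_ofPred_eq] at hx
      simp only [Finset.mem_coe, Fintype.mem_piFinset]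
      intro ℓ
      have h1 : x ℓ / t = b ℓ := congrFun hx.2 ℓ
      have h2 : t * (x ℓ / t) + x ℓ % t = x ℓ := Nat.div_add_mod _ _
      have h3 : x ℓ % t < t := Nat.mod_lt _ ht
      rw [h1] at h2
      by_cases hℓ : ℓ ∈ D
      · simp only [hℓ, if_true, relLev, Finset.mem_filter, Finset.mem_range]
        exact ⟨by omega, x, hx.1, hx.2, by omega⟩
      · simp only [hℓ, if_false, Finset.mem_singleton]
        have := mem_box.1 (hS hx.1) ℓ
        simp only [nD, hℓ, if_false] at this
        omega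
    · intro x hx y hy hxy
      simp only [Finset.coe_filter, Set.mem_ofPred_eq] at hx hy
      funext ℓ
      have h0 := congrFun hxy ℓ
      simp only at h0
      have h1 : x ℓ / t = b ℓ := congrFun hx.2 ℓ
      have h2 : t * (x ℓ / t) + x ℓ % t = x ℓ := Nat.div_add_mod _ _
      rw [h1] at h2
      have h1' : y ℓ / t = b ℓ := congrFun hy.2 ℓ
      have h2' : t * (y ℓ / t) + y ℓ % t = y ℓ := Nat.div_add_mod _ _
      rw [h1'] at h2'
      omega
  refine hsub.trans ?_
  rw [Fintype.card_piFinset]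
  have : ∏ ℓ, (if ℓ ∈ D then relLev S t ℓ b else {0}).card ≤ ∏ ℓ, (if ℓ ∈ D then (K - 1) else 1) := by
    apply Finset.prod_le_prod'
    intro ℓ _
    by_cases hℓ : ℓ ∈ D
    · have := hb ℓ hℓ
      simp only [hℓ, if_true]
      omega
    · simp [hℓ]
  refine this.trans ?_
  rw [Finset.prod_ite_mem, Finset.univ_inter, Finset.prod_const]

/-- every block has at most `t ^ |D|` elements -/
lemma card_block_le {D : Finset (Fin d)} {t N : ℕ} (ht : 0 < t)
    {S : Finset (Fin d → ℕ)} (hS : S ⊆ box (nD D (t * N))) (b : Fin d → ℕ) :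
    (S.filter (fun x => blk t x = b)).card ≤ t ^ D.card := by
  have h := card_narrow (K := t + 1) ht hS (b := b) (by
    intro ℓ _
    have : (relLev S t ℓ b).card ≤ (Finset.range t).card := Finset.card_filter_le _ _
    rw [Finset.card_range] at this
    omega)
  simpa using h

/-- the recursion -/
lemma recursion {D : Finset (Fin d)} {t N K C : ℕ} (ht : 0 < t) (hK : 1 ≤ K)
    {S : Finset (Fin d → ℕ)} (hS : S ⊆ box (nD D (t * N)))
    (hE : ¬ Emb (nD D (t * N)) (nD D K) S (box (nD D K)))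
    (hC : ∀ ℓ ∈ D, ∀ T, T ⊆ box (nD (D.erase ℓ) N) →
      ¬ Emb (nD (D.erase ℓ) N) (nD (D.erase ℓ) K) T (box (nD (D.erase ℓ) K)) →
      T.card ≤ C) :
    S.card ≤ (K - 1) ^ D.card * (S.image (blk t)).card + t ^ D.card * (D.card * (N * 2 ^ t * C)) := by
  classical
  set S' := S.image (blk t) with hS'
  set W := S'.filter (fun b => ∃ ℓ ∈ D, K ≤ (relLev S t ℓ b).card) with hW
  have h1 : S.card = ∑ b ∈ S', (S.filter (fun x => blk t x = b)).card :=
    Finset.card_eq_sum_card_image _ _
  have h2 : ∑ b ∈ S', (S.filter (fun x => blk t x = b)).card =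
      ∑ b ∈ S'.filter (fun b => ∃ ℓ ∈ D, K ≤ (relLev S t ℓ b).card),
        (S.filter (fun x => blk t x = b)).card +
      ∑ b ∈ S'.filter (fun b => ¬ ∃ ℓ ∈ D, K ≤ (relLev S t ℓ b).card),
        (S.filter (fun x => blk t x = b)).card :=
    (Finset.sum_filter_add_sum_filter_not _ _ _).symm
  have h3 : ∑ b ∈ S'.filter (fun b => ¬ ∃ ℓ ∈ D, K ≤ (relLev S t ℓ b).card),
        (S.filter (fun x => blk t x = b)).card ≤ (K - 1) ^ D.card * S'.card := by
    calc _ ≤ ∑ b ∈ S'.filter (fun b => ¬ ∃ ℓ ∈ D, K ≤ (relLev S t ℓ b).card),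
        (K - 1) ^ D.card := by
          apply Finset.sum_le_sum
          intro b hb
          rw [Finset.mem_filter] at hb
          push Not at hb
          exact card_narrow ht hS hb.2
      _ = (S'.filter (fun b => ¬ ∃ ℓ ∈ D, K ≤ (relLev S t ℓ b).card)).card * (K - 1) ^ D.card := by
          rw [Finset.sum_const, smul_eq_mul]
      _ ≤ S'.card * (K - 1) ^ D.card := Nat.mul_le_mul_right _ (Finset.card_filter_le _ _)
      _ = _ := Nat.mul_comm _ _
  have h4 : W.card ≤ D.card * (N * 2 ^ t * C) := by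
    have hWsub : W ⊆ D.biUnion (fun ℓ => S'.filter (fun b => K ≤ (relLev S t ℓ b).card)) := by
      intro b hb
      rw [hW, Finset.mem_filter] at hb
      obtain ⟨hb1, ℓ, hℓ, hb2⟩ := hb
      rw [Finset.mem_biUnion]
      exact ⟨ℓ, hℓ, Finset.mem_filter.2 ⟨hb1, hb2⟩⟩
    refine (Finset.card_le_card hWsub).trans ?_
    refine Finset.card_biUnion_le.trans ?_
    calc _ ≤ ∑ _ℓ ∈ D, N * 2 ^ t * C := by
          apply Finset.sum_le_sum
          intro ℓ hℓ
          exact card_wide ht hK hS hE hℓ (hC ℓ hℓ)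
      _ = _ := by rw [Finset.sum_const, smul_eq_mul]
  have h5 : ∑ b ∈ W, (S.filter (fun x => blk t x = b)).card ≤
      t ^ D.card * (D.card * (N * 2 ^ t * C)) := by
    calc _ ≤ ∑ _b ∈ W, t ^ D.card := by
          apply Finset.sum_le_sum
          intro b _
          exact card_block_le ht hS b
      _ = W.card * t ^ D.card := by rw [Finset.sum_const, smul_eq_mul]
      _ ≤ (D.card * (N * 2 ^ t * C)) * t ^ D.card := Nat.mul_le_mul_right _ h4
      _ = _ := Nat.mul_comm _ _
  rw [h1, h2]
  rw [← hW]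
  omega

lemma box_nD_mono {D : Finset (Fin d)} {N N' : ℕ} (h : N ≤ N') (ℓ : Fin d) :
    nD D N ℓ ≤ nD D N' ℓ := by
  unfold nD; split_ifs <;> omega

lemma card_box_nD (D : Finset (Fin d)) (N : ℕ) : (box (nD D N)).card = N ^ D.card := by
  rw [card_box]
  unfold nD
  rw [Finset.prod_ite_mem, Finset.univ_inter, Finset.prod_const]

theorem linear_bound_aux (K : ℕ) (hK : 1 ≤ K) (e : ℕ) : ∀ D : Finset (Fin d), D.card = e + 1 →
    ∃ C : ℕ, ∀ N : ℕ, ∀ S : Finset (Fin d → ℕ), S ⊆ box (nD D N) →
      ¬ Emb (nD D N) (nD D K) S (box (nD D K)) → S.card ≤ C * N ^ e := by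
  induction e with
  | zero =>
    intro D hD
    obtain ⟨ℓ, rfl⟩ := Finset.card_eq_one.1 (by omega : D.card = 1)
    refine ⟨K, ?_⟩
    intro N S hS hE
    rw [pow_zero, mul_one]
    by_contra hcon
    push Not at hcon
    apply hE
    apply line_emb ℓ _ (nD_pos _ hK ℓ) hS (le_refl _)
    · have : nD {ℓ} K ℓ = K := by simp [nD]
      omega
    · intro j hj
      simp [nD, hj]
  | succ e ih =>
    intro D hD
    classical
    have hch : ∀ ℓ : Fin d, ∃ C : ℕ, ℓ ∈ D → ∀ N : ℕ, ∀ S : Finset (Fin d → ℕ),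
        S ⊆ box (nD (D.erase ℓ) N) →
        ¬ Emb (nD (D.erase ℓ) N) (nD (D.erase ℓ) K) S (box (nD (D.erase ℓ) K)) →
        S.card ≤ C * N ^ e := by
      intro ℓ
      by_cases hℓ : ℓ ∈ D
      · obtain ⟨C, hC⟩ := ih (D.erase ℓ) (by rw [Finset.card_erase_of_mem hℓ]; omega)
        exact ⟨C, fun _ => hC⟩
      · exact ⟨0, fun h => absurd h hℓ⟩
    choose Cf hCf using hch
    set C0 := ∑ ℓ, Cf ℓ with hC0
    have hC0' : ∀ ℓ, Cf ℓ ≤ C0 := fun ℓ =>
      Finset.single_le_sum (f := Cf) (fun _ _ => Nat.zero_le _) (Finset.mem_univ ℓ)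
    set t := 4 * K ^ 2 with ht
    have htpos : 4 ≤ t := by
      have : 1 ≤ K ^ 2 := Nat.one_le_pow _ _ hK
      omega
    set E := t ^ D.card * (D.card * (2 ^ t * C0)) with hE0
    refine ⟨E + t, ?_⟩
    intro N
    induction N using Nat.strong_induction_on with
    | _ N ihN =>
      intro S hS hE
      by_cases hNt : N < t
      · have h1 : S.card ≤ N ^ D.card := by
          rw [← card_box_nD]
          exact Finset.card_le_card hS
        rw [hD] at h1
        calc S.card ≤ N ^ (e + 1 + 1) := h1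
          _ = N * N ^ (e + 1) := by ring
          _ ≤ (E + t) * N ^ (e + 1) := Nat.mul_le_mul_right _ (by omega)
      · push Not at hNt
        set N' := N / t + 1 with hN'
        have h1 : N ≤ t * N' := by
          have := Nat.div_add_mod N t
          have := Nat.mod_lt N (show 0 < t by omega)
          rw [hN', Nat.mul_add, Nat.mul_one]
          omega
        have h2 : t * N' ≤ 2 * N := by
          have := Nat.mul_div_le N t
          rw [hN', Nat.mul_add, Nat.mul_one]
          omega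
        have h3 : N' < N := by
          have : 4 * N' ≤ t * N' := Nat.mul_le_mul_right _ htpos
          omega
        have hS2 : S ⊆ box (nD D (t * N')) := by
          intro x hx
          rw [mem_box]
          intro ℓ
          exact lt_of_lt_of_le (mem_box.1 (hS hx) ℓ) (box_nD_mono h1 ℓ)
        have hE2 : ¬ Emb (nD D (t * N')) (nD D K) S (box (nD D K)) := fun h =>
          hE (emb_mono (spans_box (nD_pos D hK)) hS (box_nD_mono h1) h)
        have hrec := recursion (C := C0 * N' ^ e) (by omega) hK hS2 hE2 (by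
          intro ℓ hℓ T hT hTE
          exact (hCf ℓ hℓ N' T hT hTE).trans (Nat.mul_le_mul_right _ (hC0' ℓ)))
        have hS' := ihN N' h3 (S.image (blk t)) (blk_image_subset (by omega) hS2)
          (fun h => hE2 (emb_of_blk (by omega) h))
        rw [hD] at hrec
        have h4 : t ^ (e + 1 + 1) * ((e + 1 + 1) * (N' * 2 ^ t * (C0 * N' ^ e))) =
            E * N' ^ (e + 1) := by
          rw [hE0, hD]; ring
        rw [h4] at hrec
        have h5 : (K - 1) ^ (e + 1 + 1) * (S.image (blk t)).card ≤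
            K ^ (e + 2) * ((E + t) * N' ^ (e + 1)) := by
          apply Nat.mul_le_mul _ hS'
          exact Nat.pow_le_pow_left (by omega) _
        have h6 : S.card ≤ (K ^ (e + 2) * (E + t) + E) * N' ^ (e + 1) := by
          calc S.card ≤ _ := hrec
            _ ≤ K ^ (e + 2) * ((E + t) * N' ^ (e + 1)) + E * N' ^ (e + 1) := by omega
            _ = _ := by ring
        have h7 : t ^ (e + 1) * S.card ≤ (K ^ (e + 2) * (E + t) + E) * (2 * N) ^ (e + 1) := by
          calc t ^ (e + 1) * S.card ≤ t ^ (e + 1) * ((K ^ (e + 2) * (E + t) + E) * N' ^ (e + 1)) :=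
                Nat.mul_le_mul_left _ h6
            _ = (K ^ (e + 2) * (E + t) + E) * (t * N') ^ (e + 1) := by ring
            _ ≤ _ := Nat.mul_le_mul_left _ (Nat.pow_le_pow_left h2 _)
        have h8 : (K ^ (e + 2) * (E + t) + E) ≤ (2 * K ^ 2) ^ (e + 1) * (E + t) := by
          have h9 : 2 * K ^ (e + 2) ≤ (2 * K ^ 2) ^ (e + 1) := by
            rw [Nat.mul_pow, ← Nat.pow_mul]
            apply Nat.mul_le_mul
            · calc 2 = 2 ^ 1 := by norm_num
                _ ≤ 2 ^ (e + 1) := Nat.pow_le_pow_right (by norm_num) (by omega)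
            · exact Nat.pow_le_pow_right hK (by omega)
          have h10 : 1 ≤ K ^ (e + 2) := Nat.one_le_pow _ _ hK
          calc K ^ (e + 2) * (E + t) + E ≤ K ^ (e + 2) * (E + t) + 1 * (E + t) := by omega
            _ ≤ K ^ (e + 2) * (E + t) + K ^ (e + 2) * (E + t) := by
                apply Nat.add_le_add_left
                exact Nat.mul_le_mul_right _ h10
            _ = 2 * K ^ (e + 2) * (E + t) := by ring
            _ ≤ _ := Nat.mul_le_mul_right _ h9
        have h11 : t ^ (e + 1) * S.card ≤ t ^ (e + 1) * ((E + t) * N ^ (e + 1)) := by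
          calc t ^ (e + 1) * S.card ≤ (K ^ (e + 2) * (E + t) + E) * (2 * N) ^ (e + 1) := h7
            _ ≤ ((2 * K ^ 2) ^ (e + 1) * (E + t)) * (2 * N) ^ (e + 1) :=
                Nat.mul_le_mul_right _ h8
            _ = ((2 * K ^ 2) ^ (e + 1) * 2 ^ (e + 1)) * ((E + t) * N ^ (e + 1)) := by
                rw [Nat.mul_pow 2 N]
                ring
            _ = (4 * K ^ 2) ^ (e + 1) * ((E + t) * N ^ (e + 1)) := by
                rw [← Nat.mul_pow, show 2 * K ^ 2 * 2 = 4 * K ^ 2 by ring]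
            _ = _ := by rw [ht]
        exact Nat.le_of_mul_le_mul_left h11 (by positivity)

/-- `m(n,P,d) = O(n^(d-1))` for every nonzero pattern -/
theorem exists_bound (hd : 0 < d) {P : Mat d} (hP : P.ones.Nonempty) :
    ∃ C : ℕ, ∀ N : ℕ, m N P ≤ C * N ^ (d - 1) := by
  obtain ⟨K, hK1, hK⟩ : ∃ K : ℕ, 1 ≤ K ∧ ∀ ℓ, P.size ℓ ≤ K := by
    refine ⟨1 + ∑ ℓ, P.size ℓ, by omega, ?_⟩
    intro ℓ
    have := Finset.single_le_sum (f := P.size) (fun _ _ => Nat.zero_le _) (Finset.mem_univ ℓ)
    omega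
  obtain ⟨C, hC⟩ := linear_bound_aux K hK1 (d - 1) (Finset.univ : Finset (Fin d)) (by
    rw [Finset.card_univ, Fintype.card_fin]; omega)
  refine ⟨C, ?_⟩
  intro N
  have hnN : ∀ M, nD (Finset.univ : Finset (Fin d)) M = fun _ => M := by
    intro M; funext ℓ; simp [nD]
  apply maxOnes_le hP
  intro S hS hE
  apply hC N S (by rw [hnN]; exact hS)
  rw [hnN, hnN]
  rintro ⟨φ, hφ, hemb⟩
  apply hE
  refine ⟨fun ℓ i => min (φ ℓ i) (P.size ℓ - 1), ?_, ?_⟩
  · intro ℓ
    have hpos := Mat.size_pos hP ℓ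
    have hkl := hK ℓ
    refine ⟨?_, ?_, ?_⟩
    · intro i j hij
      have := (hφ ℓ).mono hij
      show min _ _ ≤ min _ _
      omega
    · intro i _
      show min _ _ < _
      omega
    · intro j hj
      obtain ⟨i, hi, hi'⟩ := (hφ ℓ).surj j (show j < K by omega)
      exact ⟨i, hi, by show min _ _ = _; omega⟩
  · intro p hp
    have hpb : p ∈ box (fun _ : Fin d => K) := by
      rw [mem_box]
      intro ℓ
      exact lt_of_lt_of_le (P.inBox p hp ℓ) (hK ℓ)
    obtain ⟨s, hs, hs'⟩ := hemb p hpb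
    refine ⟨s, hs, ?_⟩
    intro ℓ
    have h1 := hs' ℓ
    have h2 := P.inBox p hp ℓ
    show min _ _ = _
    omega

end

end Pool.Agent.Helper450IM
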