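import Pool.Agent.helper450_im.LayerAll

/-!
# A layer with about `r^(d-1) / (2 √d)` elements
-/

namespace Pool.Agent.Helper450IM

open Finset Filter Topology

variable {d : ℕ}

lemma sum_dev (r : ℕ) : ∑ i ∈ Finset.range r, ((i : ℝ) - ((r : ℝ) - 1) / 2) = 0 := by
  rw [Finset.sum_sub_distrib, Finset.sum_const, Finset.card_range, nsmul_eq_mul]
  have h : ∀ n : ℕ, ∑ i ∈ Finset.range n, (i : ℝ) = (n : ℝ) * ((n : ℝ) - 1) / 2 := by
    intro n
    induction n with
    | zero => simp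
    | succ n ih => rw [Finset.sum_range_succ, ih]; push_cast; ring
  rw [h]
  ring

lemma sum_dev_sq (r : ℕ) :
    ∑ i ∈ Finset.range r, ((i : ℝ) - ((r : ℝ) - 1) / 2) ^ 2 = (r : ℝ) * ((r : ℝ) ^ 2 - 1) / 12 := by
  have h : ∀ (n : ℕ) (a : ℝ), ∑ i ∈ Finset.range n, ((i : ℝ) - a) ^ 2 =
      (n : ℝ) * ((n : ℝ) - 1) * (2 * n - 1) / 6 - a * ((n : ℝ) * ((n : ℝ) - 1)) + n * a ^ 2 := by
    intro n a
    induction n with
    | zero => simp
    | succ n ih => rw [Finset.sum_range_succ, ih]; push_cast; ring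
  rw [h]
  ring

/-- the second moment -/
lemma sum_sq_box (r : ℕ) :
    ∑ b ∈ box (fun _ : Fin d => r), (∑ ℓ, ((b ℓ : ℝ) - ((r : ℝ) - 1) / 2)) ^ 2 =
      d * ((r : ℝ) * ((r : ℝ) ^ 2 - 1) / 12 * (r : ℝ) ^ (d - 1)) := by
  classical
  set x : ℕ → ℝ := fun i => (i : ℝ) - ((r : ℝ) - 1) / 2 with hx
  have hpair : ∀ ℓ ℓ' : Fin d, ∑ b ∈ box (fun _ : Fin d => r), x (b ℓ) * x (b ℓ') =
      if ℓ = ℓ' then (r : ℝ) * ((r : ℝ) ^ 2 - 1) / 12 * (r : ℝ) ^ (d - 1) else 0 := by
    intro ℓ ℓ'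
    have h1 : ∀ b : Fin d → ℕ, x (b ℓ) * x (b ℓ') =
        ∏ j, (if j = ℓ then x (b j) else 1) * (if j = ℓ' then x (b j) else 1) := by
      intro b
      rw [Finset.prod_mul_distrib, Finset.prod_ite_eq' Finset.univ ℓ (fun j => x (b j)),
        Finset.prod_ite_eq' Finset.univ ℓ' (fun j => x (b j))]
      simp
    rw [Finset.sum_congr rfl (fun b _ => h1 b)]
    have h2 := (Finset.prod_univ_sum (fun _ : Fin d => Finset.range r)
      (fun (j : Fin d) (i : ℕ) => (if j = ℓ then x i else 1) * (if j = ℓ' then x i else 1))).symm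
    rw [box, h2]
    by_cases hl : ℓ = ℓ'
    · subst hl
      rw [if_pos rfl, ← Finset.mul_prod_erase Finset.univ _ (Finset.mem_univ ℓ)]
      congr 1
      · rw [← sum_dev_sq r]
        apply Finset.sum_congr rfl
        intro i _
        rw [if_pos rfl, hx]
        ring
      · have h3 : ∀ j ∈ Finset.univ.erase ℓ, ∑ i ∈ Finset.range r,
            ((if j = ℓ then x i else 1) * (if j = ℓ then x i else 1)) = (r : ℝ) := by
          intro j hj
          have hjl : j ≠ ℓ := Finset.ne_of_mem_erase hj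
          simp [hjl]
        rw [Finset.prod_congr rfl h3, Finset.prod_const, Finset.card_erase_of_mem
          (Finset.mem_univ ℓ), Finset.card_univ, Fintype.card_fin]
    · rw [if_neg hl]
      apply Finset.prod_eq_zero (Finset.mem_univ ℓ)
      rw [← sum_dev r]
      apply Finset.sum_congr rfl
      intro i _
      rw [if_pos rfl, if_neg hl, mul_one]
  have h4 : ∀ b : Fin d → ℕ, (∑ ℓ, ((b ℓ : ℝ) - ((r : ℝ) - 1) / 2)) ^ 2 =
      ∑ ℓ, ∑ ℓ', x (b ℓ) * x (b ℓ') := by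
    intro b
    rw [sq, Finset.sum_mul_sum]
  rw [Finset.sum_congr rfl (fun b _ => h4 b), Finset.sum_comm]
  have h5 : ∀ ℓ : Fin d, ∑ b ∈ box (fun _ : Fin d => r), ∑ ℓ', x (b ℓ) * x (b ℓ') =
      (r : ℝ) * ((r : ℝ) ^ 2 - 1) / 12 * (r : ℝ) ^ (d - 1) := by
    intro ℓ
    rw [Finset.sum_comm, Finset.sum_congr rfl (fun ℓ' _ => hpair ℓ ℓ')]
    rw [Finset.sum_ite_eq Finset.univ ℓ]
    simp
  rw [Finset.sum_congr rfl (fun ℓ _ => h5 ℓ), Finset.sum_const, Finset.card_univ,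
    Fintype.card_fin, nsmul_eq_mul]

lemma exists_layer_sqrt (hd : 0 < d) {r : ℕ} (hr : 4 ≤ r) :
    ∃ B : Finset (Fin d → ℕ), B ⊆ box (fun _ => r) ∧
      (∀ b ∈ B, ∀ c ∈ B, (∀ ℓ, b ℓ ≤ c ℓ) → b = c) ∧
      1 / (2 * √d) * (r : ℝ) ^ (d - 1) ≤ B.card := by
  classical
  have hdR : (0 : ℝ) < d := by exact_mod_cast hd
  have hd1 : (1 : ℝ) ≤ d := by exact_mod_cast hd
  have hrR : (4 : ℝ) ≤ r := by exact_mod_cast hr
  have hs : 0 < √(d : ℝ) := Real.sqrt_pos.2 hdR
  have hs2 : √(d : ℝ) * √(d : ℝ) = d := Real.mul_self_sqrt hdR.le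
  have hs1 : 1 ≤ √(d : ℝ) := Real.one_le_sqrt.2 hd1
  set L : ℤ → Finset (Fin d → ℕ) := fun c => (box (fun _ : Fin d => r)).filter
    (fun b => ((∑ ℓ, b ℓ : ℕ) : ℤ) = c) with hL
  set μ : ℝ := d * (((r : ℝ) - 1) / 2) with hμ
  set T : ℝ := r * √d / 2 with hT
  have hT0 : 0 < T := by positivity
  obtain ⟨c, hc⟩ : ∃ c, 1 / (2 * √d) * (r : ℝ) ^ (d - 1) ≤ (L c).card := by
    by_contra hcon
    push Not at hcon
    set G := (box (fun _ : Fin d => r)).filter
      (fun b => |((∑ ℓ, b ℓ : ℕ) : ℝ) - μ| < T) with hG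
    set H := (box (fun _ : Fin d => r)).filter
      (fun b => ¬ |((∑ ℓ, b ℓ : ℕ) : ℝ) - μ| < T) with hH
    have hGH : (G.card : ℝ) + H.card = (r : ℝ) ^ d := by
      have := Finset.card_filter_add_card_filter_not (s := box (fun _ : Fin d => r))
        (fun b => |((∑ ℓ, b ℓ : ℕ) : ℝ) - μ| < T)
      rw [card_box, Finset.prod_const, Finset.card_univ, Fintype.card_fin] at this
      exact_mod_cast this
    have hdev : ∀ b : Fin d → ℕ, ∑ ℓ, ((b ℓ : ℝ) - ((r : ℝ) - 1) / 2) =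
        ((∑ ℓ, b ℓ : ℕ) : ℝ) - μ := by
      intro b
      rw [Finset.sum_sub_distrib, Finset.sum_const, Finset.card_univ, Fintype.card_fin,
        nsmul_eq_mul, hμ]
      push_cast
      rfl
    have hHc : (H.card : ℝ) * T ^ 2 ≤ d * ((r : ℝ) * ((r : ℝ) ^ 2 - 1) / 12 *
        (r : ℝ) ^ (d - 1)) := by
      rw [← sum_sq_box r]
      calc (H.card : ℝ) * T ^ 2 = ∑ _b ∈ H, T ^ 2 := by
            rw [Finset.sum_const, nsmul_eq_mul]
        _ ≤ ∑ b ∈ H, (∑ ℓ, ((b ℓ : ℝ) - ((r : ℝ) - 1) / 2)) ^ 2 := by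
            apply Finset.sum_le_sum
            intro b hb
            have h1 := (Finset.mem_filter.1 hb).2
            rw [not_lt] at h1
            rw [hdev b, ← sq_abs (((∑ ℓ, b ℓ : ℕ) : ℝ) - μ)]
            exact pow_le_pow_left₀ hT0.le h1 2
        _ ≤ _ := by
            apply Finset.sum_le_sum_of_subset_of_nonneg (Finset.filter_subset _ _)
            intro b _ _
            positivity
    have hpow : (r : ℝ) ^ d = r * (r : ℝ) ^ (d - 1) := by
      rw [← pow_succ']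
      congr 1
      omega
    set q : ℝ := (r : ℝ) ^ (d - 1) with hq
    have hq0 : 0 < q := by positivity
    have hH3 : (H.card : ℝ) ≤ r * q / 3 := by
      have e1 : T ^ 2 = (r : ℝ) ^ 2 * d / 4 := by
        rw [hT, div_pow, mul_pow, sq (√(d : ℝ)), hs2]
        norm_num
      rw [e1] at hHc
      have e2 : (H.card : ℝ) * ((r : ℝ) ^ 2 * d / 4) ≤ (r * q / 3) * ((r : ℝ) ^ 2 * d / 4) := by
        refine hHc.trans ?_
        have : (r : ℝ) * q / 3 * ((r : ℝ) ^ 2 * d / 4) -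
            d * ((r : ℝ) * ((r : ℝ) ^ 2 - 1) / 12 * q) = d * r * q / 12 := by ring
        have h0 : 0 ≤ (d : ℝ) * r * q / 12 := by positivity
        linarith
      exact le_of_mul_le_mul_right e2 (by positivity)
    -- the good positions lie in few layers
    have hGc : (G.card : ℝ) ≤ (2 * T + 1) * (1 / (2 * √d) * q) := by
      have h1 : G.card = ∑ c ∈ Finset.Icc ⌈μ - T⌉ ⌊μ + T⌋, (G.filter
          (fun b => ((∑ ℓ, b ℓ : ℕ) : ℤ) = c)).card := by
        apply Finset.card_eq_sum_card_fiberwise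
        intro b hb
        have h2 := (Finset.mem_filter.1 (Finset.mem_coe.1 hb)).2
        rw [abs_lt] at h2
        rw [Finset.mem_coe, Finset.mem_Icc]
        constructor
        · rw [Int.ceil_le]
          push_cast at h2 ⊢
          linarith [h2.1]
        · rw [Int.le_floor]
          push_cast at h2 ⊢
          linarith [h2.2]
      have h3 : (G.card : ℝ) ≤ ∑ _c ∈ Finset.Icc ⌈μ - T⌉ ⌊μ + T⌋, (1 / (2 * √d) * q) := by
        rw [h1]
        push_cast
        apply Finset.sum_le_sum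
        intro c _
        refine le_trans ?_ (hcon c).le
        have : (G.filter (fun b => ((∑ ℓ, b ℓ : ℕ) : ℤ) = c)).card ≤ (L c).card := by
          apply Finset.card_le_card
          intro b hb
          rw [Finset.mem_filter] at hb
          rw [hL, Finset.mem_filter]
          exact ⟨(Finset.mem_filter.1 hb.1).1, hb.2⟩
        exact_mod_cast this
      refine h3.trans ?_
      rw [Finset.sum_const, nsmul_eq_mul, Int.card_Icc]
      apply mul_le_mul_of_nonneg_right _ (by positivity)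
      have h4 : (⌊μ + T⌋ : ℝ) ≤ μ + T := Int.floor_le _
      have h5 : μ - T ≤ (⌈μ - T⌉ : ℝ) := Int.le_ceil _
      rcases le_or_gt 0 (⌊μ + T⌋ + 1 - ⌈μ - T⌉) with h6 | h6
      · have h7 : (((⌊μ + T⌋ + 1 - ⌈μ - T⌉).toNat : ℕ) : ℝ) =
            ((⌊μ + T⌋ + 1 - ⌈μ - T⌉ : ℤ) : ℝ) := by
          exact_mod_cast Int.toNat_of_nonneg h6
        rw [h7]
        push_cast
        linarith
      · have h7 : (⌊μ + T⌋ + 1 - ⌈μ - T⌉).toNat = 0 := Int.toNat_of_nonpos h6.le
        rw [h7]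
        push_cast
        positivity
    have hfin : (2 * T + 1) * (1 / (2 * √d) * q) ≤ (r / 2 + 1 / 2) * q := by
      have e1 : (2 * T + 1) * (1 / (2 * √d) * q) = (r / 2 + 1 / (2 * √d)) * q := by
        rw [hT]
        field_simp
      rw [e1]
      apply mul_le_mul_of_nonneg_right _ hq0.le
      have : 1 / (2 * √(d : ℝ)) ≤ 1 / 2 := by
        apply one_div_le_one_div_of_le (by norm_num)
        linarith
      linarith
    rw [hpow] at hGH
    have h8 : (r : ℝ) * q ≤ (r / 2 + 1 / 2) * q + r * q / 3 := by linarith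
    nlinarith
  refine ⟨L c, Finset.filter_subset _ _, ?_, hc⟩
  intro b hb b' hb' hle
  have e1 := (Finset.mem_filter.1 hb).2
  have e2 := (Finset.mem_filter.1 hb').2
  have e3 : ∑ ℓ, b ℓ = ∑ ℓ, b' ℓ := by exact_mod_cast e1.trans e2.symm
  have h := (Finset.sum_eq_sum_iff_of_le (fun ℓ _ => hle ℓ)).1 e3
  funext ℓ
  exact h ℓ (Finset.mem_univ ℓ)

lemma antichainDensity_sqrt (hd : 0 < d) : AntichainDensity d (1 / (2 * √d)) := by
  filter_upwards [eventually_ge_atTop 4] with r hr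
  exact exists_layer_sqrt hd hr

end Pool.Agent.Helper450IM
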