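import Mathlib

/-!
# A limit lemma: monotone functions super-homogeneous at two independent scales
-/

namespace Pool.Agent.Helper450IM

open Filter Topology

/-- Two positive reals, not commensurable in the stated sense, have small positive integer
combinations of both signs. -/
lemma exists_small {α β : ℝ} (hα : 0 < α) (hβ : 0 < β)
    (hind : ∀ a b : ℕ, 0 < a → (a : ℝ) * α ≠ b * β) {δ : ℝ} (hδ : 0 < δ) :
    (∃ a b : ℕ, 0 < a * α - b * β ∧ a * α - b * β < δ) ∧
    (∃ a b : ℕ, 0 < b * β - a * α ∧ b * β - a * α < δ) := by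
  -- a small nonzero combination
  have h0 : ∃ a b : ℕ, 0 < a ∧ |(a : ℝ) * α - b * β| < min δ β := by
    obtain ⟨n, hn⟩ := exists_nat_gt (β / min δ β)
    have hmin : 0 < min δ β := lt_min hδ hβ
    have hnpos : 0 < n := by
      rcases Nat.eq_zero_or_pos n with h | h
      · subst h
        have : 0 < β / min δ β := div_pos hβ hmin
        simp at hn
        linarith
      · exact h
    obtain ⟨j, k, hk, _, hjk⟩ := Real.exists_int_int_abs_mul_sub_le (α / β) hnpos
    have hbound : |(k : ℝ) * α - j * β| < min δ β := by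
      have e1 : (k : ℝ) * α - j * β = (k * (α / β) - j) * β := by field_simp
      rw [e1, abs_mul, abs_of_pos hβ]
      have hn' : (0 : ℝ) < n := by exact_mod_cast hnpos
      calc |(k : ℝ) * (α / β) - j| * β ≤ 1 / (n + 1) * β := mul_le_mul_of_nonneg_right hjk hβ.le
        _ < min δ β := by
          rw [div_lt_iff₀ hmin] at hn
          rw [div_mul_eq_mul_div, one_mul, div_lt_iff₀ (by linarith)]
          nlinarith
    have hj : 0 ≤ j := by
      by_contra hcon
      push Not at hcon
      have h1 : (j : ℝ) ≤ -1 := by exact_mod_cast (by omega : j ≤ -1)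
      have h2 : (0 : ℝ) < k := by exact_mod_cast hk
      have h3 := (abs_lt.1 hbound).2
      have h4 := min_le_right δ β
      nlinarith [mul_pos h2 hα]
    refine ⟨k.toNat, j.toNat, by omega, ?_⟩
    have e1 : ((k.toNat : ℕ) : ℝ) = (k : ℝ) := by
      exact_mod_cast Int.toNat_of_nonneg hk.le
    have e2 : ((j.toNat : ℕ) : ℝ) = (j : ℝ) := by
      exact_mod_cast Int.toNat_of_nonneg hj
    rw [e1, e2]
    exact hbound
  obtain ⟨a, b, ha, hab⟩ := h0
  have hne : (a : ℝ) * α - b * β ≠ 0 := sub_ne_zero.2 (hind a b ha)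
  have habδ : |(a : ℝ) * α - b * β| < δ := lt_of_lt_of_le hab (min_le_left _ _)
  rcases lt_or_gt_of_ne hne with hneg | hpos
  · -- `bβ - aα` small positive
    have hx : 0 < b * β - a * α := by linarith
    have hx' : b * β - a * α < δ := by
      rw [abs_of_neg hneg] at habδ; linarith
    refine ⟨?_, ⟨a, b, hx, hx'⟩⟩
    set x := b * β - a * α with hxdef
    set m := ⌊α / x⌋₊ with hm
    have h1 : (m : ℝ) * x ≤ α := by
      have := Nat.floor_le (div_pos hα hx).le
      rwa [← hm, le_div_iff₀ hx] at this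
    have h2 : α < (m + 1) * x := by
      have := Nat.lt_floor_add_one (α / x)
      rwa [← hm, div_lt_iff₀ hx] at this
    refine ⟨1 + m * a, m * b, ?_, ?_⟩
    · have h3 : ((1 + m * a : ℕ) : ℝ) * α - ((m * b : ℕ) : ℝ) * β = α - m * x := by
        rw [hxdef]; push_cast; ring
      rw [h3]
      have h4 : α - m * x ≠ 0 := by
        rw [← h3]
        exact sub_ne_zero.2 (hind _ _ (by omega))
      have h5 : 0 ≤ α - m * x := by linarith
      exact lt_of_le_of_ne h5 (Ne.symm h4)
    · have h3 : ((1 + m * a : ℕ) : ℝ) * α - ((m * b : ℕ) : ℝ) * β = α - m * x := by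
        rw [hxdef]; push_cast; ring
      rw [h3]
      linarith
  · have hx : 0 < a * α - b * β := hpos
    have hx' : a * α - b * β < δ := by
      rw [abs_of_pos hpos] at habδ; exact habδ
    refine ⟨⟨a, b, hx, hx'⟩, ?_⟩
    set x := a * α - b * β with hxdef
    set m := ⌊β / x⌋₊ with hm
    have h1 : (m : ℝ) * x ≤ β := by
      have := Nat.floor_le (div_pos hβ hx).le
      rwa [← hm, le_div_iff₀ hx] at this
    have h2 : β < (m + 1) * x := by
      have := Nat.lt_floor_add_one (β / x)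
      rwa [← hm, div_lt_iff₀ hx] at this
    refine ⟨m * a, 1 + m * b, ?_, ?_⟩
    · have h3 : ((1 + m * b : ℕ) : ℝ) * β - ((m * a : ℕ) : ℝ) * α = β - m * x := by
        rw [hxdef]; push_cast; ring
      rw [h3]
      have h4 : β - m * x ≠ 0 := by
        rw [← h3]
        intro h5
        have h6 : ((m * a : ℕ) : ℝ) * α = ((1 + m * b : ℕ) : ℝ) * β := by linarith
        rcases Nat.eq_zero_or_pos (m * a) with h7 | h7
        · rw [h7] at h6
          have h8 : (0 : ℝ) < ((1 + m * b : ℕ) : ℝ) * β := by positivity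
          rw [Nat.cast_zero, zero_mul] at h6
          linarith
        · exact hind _ _ h7 h6
      have h5 : 0 ≤ β - m * x := by linarith
      exact lt_of_le_of_ne h5 (Ne.symm h4)
    · have h3 : ((1 + m * b : ℕ) : ℝ) * β - ((m * a : ℕ) : ℝ) * α = β - m * x := by
        rw [hxdef]; push_cast; ring
      rw [h3]
      linarith

/-- Numbers of the form `r^a s^b` have consecutive ratios tending to one. -/
lemma exists_next {r s : ℕ} (hr : 2 ≤ r) (hs : 2 ≤ s) (hind : ∀ a b : ℕ, 0 < a → r ^ a ≠ s ^ b)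
    {ε : ℝ} (hε : 0 < ε) : ∃ Q : ℕ, ∀ a b : ℕ, Q ≤ r ^ a * s ^ b →
      ∃ a' b' : ℕ, r ^ a * s ^ b < r ^ a' * s ^ b' ∧
        ((r ^ a' * s ^ b' : ℕ) : ℝ) ≤ (1 + ε) * ((r ^ a * s ^ b : ℕ) : ℝ) := by
  have hr' : (1 : ℝ) < r := by exact_mod_cast (by omega : 1 < r)
  have hs' : (1 : ℝ) < s := by exact_mod_cast (by omega : 1 < s)
  have hα : 0 < Real.log r := Real.log_pos hr'
  have hβ : 0 < Real.log s := Real.log_pos hs'
  have hr0 : (0 : ℝ) < r := by linarith
  have hs0 : (0 : ℝ) < s := by linarith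
  have hδ : 0 < Real.log (1 + ε) := Real.log_pos (by linarith)
  obtain ⟨⟨a1, b1, h1, h1'⟩, ⟨a2, b2, h2, h2'⟩⟩ := exists_small hα hβ (by
    intro a b ha heq
    apply hind a b ha
    have h3 : Real.log ((r : ℝ) ^ a) = Real.log ((s : ℝ) ^ b) := by
      rw [Real.log_pow, Real.log_pow, heq]
    have h4 : (r : ℝ) ^ a = (s : ℝ) ^ b :=
      Real.log_injOn_pos (Set.mem_Ioi.2 (by positivity)) (Set.mem_Ioi.2 (by positivity)) h3
    exact_mod_cast h4) hδ
  -- multiplicative forms
  have key1 : (s : ℝ) ^ b1 < (r : ℝ) ^ a1 ∧ (r : ℝ) ^ a1 ≤ (1 + ε) * (s : ℝ) ^ b1 := by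
    constructor
    · rw [← Real.log_lt_log_iff (by positivity) (by positivity), Real.log_pow, Real.log_pow]
      linarith
    · rw [← Real.log_le_log_iff (by positivity) (by positivity),
        Real.log_mul (by positivity) (by positivity), Real.log_pow, Real.log_pow]
      linarith
  have key2 : (r : ℝ) ^ a2 < (s : ℝ) ^ b2 ∧ (s : ℝ) ^ b2 ≤ (1 + ε) * (r : ℝ) ^ a2 := by
    constructor
    · rw [← Real.log_lt_log_iff (by positivity) (by positivity), Real.log_pow, Real.log_pow]
      linarith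
    · rw [← Real.log_le_log_iff (by positivity) (by positivity),
        Real.log_mul (by positivity) (by positivity), Real.log_pow, Real.log_pow]
      linarith
  refine ⟨r ^ a2 * s ^ b1, ?_⟩
  intro a b hQ
  by_cases hb : b1 ≤ b
  · obtain ⟨c, rfl⟩ := Nat.exists_eq_add_of_le hb
    refine ⟨a + a1, c, ?_, ?_⟩
    · have h3 : s ^ b1 < r ^ a1 := by exact_mod_cast key1.1
      calc r ^ a * s ^ (b1 + c) = (r ^ a * s ^ c) * s ^ b1 := by ring
        _ < (r ^ a * s ^ c) * r ^ a1 := by
            apply Nat.mul_lt_mul_of_pos_left h3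
            positivity
        _ = r ^ (a + a1) * s ^ c := by ring
    · push_cast
      have h3 : (0 : ℝ) < (r : ℝ) ^ a * (s : ℝ) ^ c := by positivity
      calc (r : ℝ) ^ (a + a1) * (s : ℝ) ^ c = ((r : ℝ) ^ a * (s : ℝ) ^ c) * (r : ℝ) ^ a1 := by ring
        _ ≤ ((r : ℝ) ^ a * (s : ℝ) ^ c) * ((1 + ε) * (s : ℝ) ^ b1) :=
            mul_le_mul_of_nonneg_left key1.2 h3.le
        _ = _ := by ring
  · have ha : a2 ≤ a := by
      by_contra hcon
      push Not at hcon hb
      have h3 : r ^ a ≤ r ^ a2 := Nat.pow_le_pow_right (by omega) hcon.le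
      have h4 : s ^ b < s ^ b1 := Nat.pow_lt_pow_right (by omega) hb
      have h5 : r ^ a * s ^ b < r ^ a2 * s ^ b1 :=
        lt_of_le_of_lt (Nat.mul_le_mul_right _ h3) (Nat.mul_lt_mul_of_pos_left h4 (by positivity))
      omega
    obtain ⟨c, rfl⟩ := Nat.exists_eq_add_of_le ha
    refine ⟨c, b + b2, ?_, ?_⟩
    · have h3 : r ^ a2 < s ^ b2 := by exact_mod_cast key2.1
      calc r ^ (a2 + c) * s ^ b = (r ^ c * s ^ b) * r ^ a2 := by ring
        _ < (r ^ c * s ^ b) * s ^ b2 := by
            apply Nat.mul_lt_mul_of_pos_left h3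
            positivity
        _ = r ^ c * s ^ (b + b2) := by ring
    · push_cast
      have h3 : (0 : ℝ) < (r : ℝ) ^ c * (s : ℝ) ^ b := by positivity
      calc (r : ℝ) ^ c * (s : ℝ) ^ (b + b2) = ((r : ℝ) ^ c * (s : ℝ) ^ b) * (s : ℝ) ^ b2 := by ring
        _ ≤ ((r : ℝ) ^ c * (s : ℝ) ^ b) * ((1 + ε) * (r : ℝ) ^ a2) :=
            mul_le_mul_of_nonneg_left key2.2 h3.le
        _ = _ := by ring

/-- The limit lemma. -/
theorem tendsto_of_superhomogeneous {f : ℕ → ℕ} (hmono : Monotone f) {e C r s : ℕ}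
    (hC : ∀ n, f n ≤ C * n ^ e) (hr : 2 ≤ r) (hs : 2 ≤ s)
    (hind : ∀ a b : ℕ, 0 < a → r ^ a ≠ s ^ b)
    (hfr : ∀ n, r ^ e * f n ≤ f (r * n)) (hfs : ∀ n, s ^ e * f n ≤ f (s * n)) :
    ∃ L : ℝ, Tendsto (fun n : ℕ => (f n : ℝ) / (n : ℝ) ^ e) atTop (𝓝 L) := by
  -- super-homogeneity for all products
  have hpow : ∀ a b n : ℕ, (r ^ a * s ^ b) ^ e * f n ≤ f (r ^ a * s ^ b * n) := by
    intro a
    induction a with
    | zero =>
      intro b
      induction b with
      | zero => intro n; simp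
      | succ b ih =>
        intro n
        calc (r ^ 0 * s ^ (b + 1)) ^ e * f n = s ^ e * ((r ^ 0 * s ^ b) ^ e * f n) := by
              simp only [pow_zero, one_mul]; rw [pow_succ, Nat.mul_pow]; ring
          _ ≤ s ^ e * f (r ^ 0 * s ^ b * n) := Nat.mul_le_mul_left _ (ih n)
          _ ≤ f (s * (r ^ 0 * s ^ b * n)) := hfs _
          _ = f (r ^ 0 * s ^ (b + 1) * n) := by congr 1; ring
    | succ a ih =>
      intro b n
      calc (r ^ (a + 1) * s ^ b) ^ e * f n = r ^ e * ((r ^ a * s ^ b) ^ e * f n) := by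
            rw [pow_succ, Nat.mul_pow, Nat.mul_pow, Nat.mul_pow]; ring
        _ ≤ r ^ e * f (r ^ a * s ^ b * n) := Nat.mul_le_mul_left _ (ih b n)
        _ ≤ f (r * (r ^ a * s ^ b * n)) := hfr _
        _ = f (r ^ (a + 1) * s ^ b * n) := by congr 1; ring
  set g : ℕ → ℝ := fun n => (f n : ℝ) / (n : ℝ) ^ e with hg
  have hbdd : BddAbove (g '' Set.Ioi 0) := by
    refine ⟨C, ?_⟩
    rintro x ⟨n, hn, rfl⟩
    have hn' : (0 : ℝ) < (n : ℝ) := by exact_mod_cast hn
    rw [hg]
    simp only
    rw [div_le_iff₀ (by positivity)]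
    exact_mod_cast hC n
  refine ⟨sSup (g '' Set.Ioi 0), ?_⟩
  rw [tendsto_order]
  constructor
  · intro a ha
    obtain ⟨x, ⟨t, ht, rfl⟩, hx⟩ := exists_lt_of_lt_csSup (Set.Nonempty.image _ ⟨1, by simp⟩) ha
    have ht' : 0 < t := ht
    have htR : (0 : ℝ) < t := by exact_mod_cast ht'
    -- choose ε
    have hcont : Tendsto (fun ε : ℝ => g t / (1 + ε) ^ e) (𝓝[>] 0) (𝓝 (g t / (1 + 0) ^ e)) := by
      have : ContinuousAt (fun ε : ℝ => g t / (1 + ε) ^ e) 0 := by
        apply ContinuousAt.div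
        · exact continuousAt_const
        · fun_prop
        · simp
      exact this.tendsto.mono_left nhdsWithin_le_nhds
    have hlt : a < g t / (1 + 0) ^ e := by simpa using hx
    obtain ⟨ε, hε1, hε2⟩ := ((hcont.eventually (lt_mem_nhds hlt)).and self_mem_nhdsWithin).exists
    have hε : 0 < ε := hε2
    obtain ⟨Q, hQ⟩ := exists_next hr hs hind hε
    -- a starting element
    have hstart : Q ≤ r ^ Q * s ^ 0 := by
      rw [pow_zero, mul_one]
      exact (Nat.lt_pow_self (by omega : 1 < r)).le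
    filter_upwards [eventually_ge_atTop (t * r ^ Q)] with n hn
    set n1 := n / t with hn1
    have hn1Q : r ^ Q ≤ n1 := by
      rw [hn1, Nat.le_div_iff_mul_le ht', Nat.mul_comm]
      exact hn
    -- greatest element of the semigroup below `n1`
    classical
    set G : ℕ → Prop := fun q => ∃ a b : ℕ, q = r ^ a * s ^ b with hG
    set q := Nat.findGreatest G n1 with hq
    have hGQ : G (r ^ Q) := ⟨Q, 0, by simp⟩
    have hqG : G q := Nat.findGreatest_spec hn1Q hGQ
    have hqle : q ≤ n1 := Nat.findGreatest_le n1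
    have hqge : r ^ Q ≤ q := Nat.le_findGreatest hn1Q hGQ
    obtain ⟨a', b', hab⟩ := hqG
    obtain ⟨a'', b'', hlt', hle'⟩ := hQ a' b' (by
      rw [← hab]
      rw [pow_zero, mul_one] at hstart
      exact hstart.trans hqge)
    rw [← hab] at hlt' hle'
    set q' := r ^ a'' * s ^ b'' with hq'
    have hq'n : n1 < q' := by
      by_contra hcon
      push Not at hcon
      have : q' ≤ q := Nat.le_findGreatest hcon ⟨a'', b'', rfl⟩
      omega
    have hnlt : n < q' * t := by
      have h1 : n < (n1 + 1) * t := by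
        have h2 := Nat.div_add_mod n t
        have h3 := Nat.mod_lt n ht'
        calc n = t * n1 + n % t := h2.symm
          _ < t * n1 + t := by omega
          _ = (n1 + 1) * t := by ring
      exact lt_of_lt_of_le h1 (Nat.mul_le_mul_right _ hq'n)
    have hqt : q * t ≤ n := (Nat.le_div_iff_mul_le ht').1 hqle
    have hf1 : q ^ e * f t ≤ f n := by
      calc q ^ e * f t ≤ f (q * t) := by rw [hab]; exact hpow a' b' t
        _ ≤ f n := hmono hqt
    have hqpos : 0 < q := lt_of_lt_of_le (by positivity) hqge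
    have hqR : (0 : ℝ) < q := by exact_mod_cast hqpos
    have hnpos : (0 : ℝ) < n := by
      have : 0 < q * t := Nat.mul_pos hqpos ht'
      exact_mod_cast lt_of_lt_of_le this hqt
    have hnR : (n : ℝ) ≤ (1 + ε) * q * t := by
      have h1 : (n : ℝ) ≤ (q' : ℝ) * t := by exact_mod_cast hnlt.le
      calc (n : ℝ) ≤ (q' : ℝ) * t := h1
        _ ≤ (1 + ε) * q * t := mul_le_mul_of_nonneg_right hle' htR.le
    calc a < g t / (1 + ε) ^ e := hε1
      _ = ((q : ℝ) ^ e * f t) / ((1 + ε) * q * t) ^ e := by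
          rw [hg]
          simp only
          rw [mul_pow, mul_pow]
          field_simp
      _ ≤ (f n : ℝ) / ((1 + ε) * q * t) ^ e := by
          apply div_le_div_of_nonneg_right _ (by positivity)
          exact_mod_cast hf1
      _ ≤ (f n : ℝ) / (n : ℝ) ^ e := by
          apply div_le_div_of_nonneg_left (by positivity) (by positivity)
          exact pow_le_pow_left₀ hnpos.le hnR e
  · intro a ha
    filter_upwards [eventually_gt_atTop 0] with n hn
    exact lt_of_le_of_lt (le_csSup hbdd ⟨n, hn, rfl⟩) ha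

end Pool.Agent.Helper450IM
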