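import Pool.Agent.helper450_im.Bound
import Pool.Agent.helper450_im.Limit

/-!
# The rigidity criterion, and Latin block structures
-/

namespace Pool.Agent.Helper450IM

open Finset Filter Topology

section

variable {d : ℕ}

/-- rigidity with respect to two full structures of multiplicatively independent orders gives
convergence (spanning patterns) -/
theorem tendsto_of_rigid_spans (hd : 0 < d) {P : Mat d} (hP : P.ones.Nonempty)
    (hspan : Spans P.size P.ones) {r s : ℕ} (hr : 2 ≤ r) (hs : 2 ≤ s)
    (hind : ∀ a b : ℕ, 0 < a → r ^ a ≠ s ^ b) {B C : Finset (Fin d → ℕ)}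
    (hB : B ⊆ box (fun _ => r)) (hBc : B.card = r ^ (d - 1)) (hBr : Rigid P.ones B)
    (hC : C ⊆ box (fun _ => s)) (hCc : C.card = s ^ (d - 1)) (hCr : Rigid P.ones C) :
    ∃ L : ℝ, Tendsto (fun n : ℕ => (m n P : ℝ) / (n : ℝ) ^ (d - 1)) atTop (𝓝 L) := by
  obtain ⟨K, hK⟩ := exists_bound hd hP
  apply tendsto_of_superhomogeneous (f := fun n => m n P) _ hK hr hs hind
  · intro n
    have h := card_mul_maxOnes_le (n := fun _ => n) hP hspan hB hBr
    rw [hBc] at h
    exact h
  · intro n
    have h := card_mul_maxOnes_le (n := fun _ => n) hP hspan hC hCr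
    rw [hCc] at h
    exact h
  · intro a b hab
    exact maxOnes_mono hP hspan (fun _ => hab)

/-- the sum-zero Latin hypercube -/
def latin (d s : ℕ) : Finset (Fin d → ℕ) :=
  (box (fun _ : Fin d => s)).filter (fun x => s ∣ ∑ ℓ, x ℓ)

lemma latin_subset (d s : ℕ) : latin d s ⊆ box (fun _ : Fin d => s) := Finset.filter_subset _ _

/-- Two elements differing in at most one coordinate are equal. -/
def IsLatin (B : Finset (Fin d → ℕ)) : Prop :=
  ∀ b ∈ B, ∀ b' ∈ B, ∀ ℓ, (∀ j, j ≠ ℓ → b j = b' j) → b = b'

lemma isLatin_latin (d s : ℕ) : IsLatin (latin d s) := by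
  intro b hb b' hb' ℓ h
  rw [latin, Finset.mem_filter, mem_box] at hb hb'
  have h1 : ∑ j, b j = b ℓ + ∑ j ∈ Finset.univ.erase ℓ, b j :=
    (Finset.add_sum_erase _ _ (Finset.mem_univ ℓ)).symm
  have h2 : ∑ j, b' j = b' ℓ + ∑ j ∈ Finset.univ.erase ℓ, b' j :=
    (Finset.add_sum_erase _ _ (Finset.mem_univ ℓ)).symm
  have h3 : ∑ j ∈ Finset.univ.erase ℓ, b j = ∑ j ∈ Finset.univ.erase ℓ, b' j :=
    Finset.sum_congr rfl (fun j hj => h j (Finset.ne_of_mem_erase hj))
  have h4 := hb.2
  have h5 := hb'.2
  rw [h1] at h4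
  rw [h2, ← h3] at h5
  set T := ∑ j ∈ Finset.univ.erase ℓ, b j
  have h6 : b ℓ ≡ b' ℓ [MOD s] := by
    have h7 : b ℓ + T ≡ b' ℓ + T [MOD s] :=
      ((Nat.modEq_zero_iff_dvd.2 h4).trans (Nat.modEq_zero_iff_dvd.2 h5).symm)
    exact Nat.ModEq.add_right_cancel' T h7
  have h8 : b ℓ = b' ℓ := Nat.ModEq.eq_of_lt_of_lt h6 (hb.1 ℓ) (hb'.1 ℓ)
  funext j
  by_cases hj : j = ℓ
  · rw [hj]; exact h8
  · exact h j hj

lemma card_latin (hd : 0 < d) {s : ℕ} (hs : 0 < s) : (latin d s).card = s ^ (d - 1) := by
  classical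
  let ℓ : Fin d := ⟨0, hd⟩
  -- all residue classes have the same size
  have hfib : ∀ c ∈ Finset.range s,
      ((box (fun _ : Fin d => s)).filter (fun x => (∑ j, x j) % s = c)).card =
        (latin d s).card := by
    intro c hc
    rw [Finset.mem_range] at hc
    symm
    -- x ↦ update x ℓ ((x ℓ + c) % s)
    apply Finset.card_bij (fun x _ => Function.update x ℓ ((x ℓ + c) % s))
    · intro x hx
      rw [latin, Finset.mem_filter, mem_box] at hx
      rw [Finset.mem_filter, mem_box]
      constructor
      · intro j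
        by_cases hj : j = ℓ
        · subst hj
          rw [Function.update_self]
          exact Nat.mod_lt _ hs
        · rw [Function.update_of_ne hj]
          exact hx.1 j
      · rw [Finset.sum_update_of_mem (Finset.mem_univ ℓ), Finset.sdiff_singleton_eq_erase]
        have h1 : ∑ j, x j = x ℓ + ∑ j ∈ Finset.univ.erase ℓ, x j :=
          (Finset.add_sum_erase _ _ (Finset.mem_univ ℓ)).symm
        have h2 := hx.2
        rw [h1] at h2
        set T := ∑ j ∈ Finset.univ.erase ℓ, x j
        have h3 : ((x ℓ + c) % s + T) % s = ((x ℓ + T) + c) % s := by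
          rw [Nat.mod_add_mod]; congr 1; ring
        rw [h3, Nat.add_mod, Nat.mod_eq_zero_of_dvd h2, zero_add, Nat.mod_mod, Nat.mod_eq_of_lt hc]
    · intro x hx y hy hxy
      rw [latin, Finset.mem_filter, mem_box] at hx hy
      have hne : ∀ j, j ≠ ℓ → x j = y j := by
        intro j hj
        have := congrFun hxy j
        simpa [Function.update_of_ne hj] using this
      exact isLatin_latin d s x (by rw [latin, Finset.mem_filter, mem_box]; exact hx) y
        (by rw [latin, Finset.mem_filter, mem_box]; exact hy) ℓ hne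
    · intro y hy
      rw [Finset.mem_filter, mem_box] at hy
      refine ⟨Function.update y ℓ ((y ℓ + (s - c)) % s), ?_, ?_⟩
      · rw [latin, Finset.mem_filter, mem_box]
        constructor
        · intro j
          by_cases hj : j = ℓ
          · subst hj
            rw [Function.update_self]
            exact Nat.mod_lt _ hs
          · rw [Function.update_of_ne hj]
            exact hy.1 j
        · rw [Finset.sum_update_of_mem (Finset.mem_univ ℓ), Finset.sdiff_singleton_eq_erase]
          have h1 : ∑ j, y j = y ℓ + ∑ j ∈ Finset.univ.erase ℓ, y j :=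
            (Finset.add_sum_erase _ _ (Finset.mem_univ ℓ)).symm
          have h2 := hy.2
          rw [h1] at h2
          set T := ∑ j ∈ Finset.univ.erase ℓ, y j
          apply Nat.dvd_of_mod_eq_zero
          have h3 : ((y ℓ + (s - c)) % s + T) % s = ((y ℓ + T) + (s - c)) % s := by
            rw [Nat.mod_add_mod]; congr 1; ring
          rw [h3, Nat.add_mod, h2]
          rw [Nat.add_mod_mod]
          have : c + (s - c) = s := by omega
          rw [this, Nat.mod_self]
      · rw [Function.update_self, Function.update_idem]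
        have : ((y ℓ + (s - c)) % s + c) % s = y ℓ := by
          rw [Nat.mod_add_mod]
          have h4 : y ℓ + (s - c) + c = y ℓ + s := by omega
          rw [h4, Nat.add_mod_right, Nat.mod_eq_of_lt (hy.1 ℓ)]
        rw [this, Function.update_eq_self]
  have hsum : (box (fun _ : Fin d => s)).card =
      ∑ c ∈ Finset.range s, ((box (fun _ : Fin d => s)).filter (fun x => (∑ j, x j) % s = c)).card :=
    Finset.card_eq_sum_card_fiberwise (fun x _ => by
      simp only [Finset.coe_range, Set.mem_Iio]
      exact Nat.mod_lt _ hs)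
  rw [Finset.sum_congr rfl hfib, Finset.sum_const, Finset.card_range, smul_eq_mul, card_box,
    Finset.prod_const, Finset.card_univ, Fintype.card_fin] at hsum
  obtain ⟨e, rfl⟩ : ∃ e, d = e + 1 := ⟨d - 1, by omega⟩
  simp only [Nat.add_sub_cancel]
  rw [pow_succ, mul_comm] at hsum
  exact (Nat.eq_of_mul_eq_mul_left hs hsum).symm

lemma two_three_independent : ∀ a b : ℕ, 0 < a → 2 ^ a ≠ 3 ^ b := by
  intro a b ha h
  have h1 : 2 ∣ 3 ^ b := by
    rw [← h]
    exact dvd_pow_self 2 (by omega)
  have h2 := Nat.prime_two.dvd_of_dvd_pow h1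
  omega

/-- rigidity with respect to the Latin hypercubes of orders two and three -/
theorem tendsto_of_rigid_latin (hd : 0 < d) {P : Mat d} (hP : P.ones.Nonempty)
    (hspan : Spans P.size P.ones) (h2 : Rigid P.ones (latin d 2)) (h3 : Rigid P.ones (latin d 3)) :
    ∃ L : ℝ, Tendsto (fun n : ℕ => (m n P : ℝ) / (n : ℝ) ^ (d - 1)) atTop (𝓝 L) :=
  tendsto_of_rigid_spans hd hP hspan (le_refl 2) (by norm_num) two_three_independent
    (latin_subset d 2) (card_latin hd (by norm_num)) h2
    (latin_subset d 3) (card_latin hd (by norm_num)) h3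

end

end Pool.Agent.Helper450IM
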