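import Pool.Agent.helper450_im.TwoDim

/-!
# Cutting two-dimensional matrices along rectangles spanned by ones
-/

namespace Pool.Agent.Helper450IM

open Finset Filter Topology

/-! ## Rectangles -/

lemma M2_anti {t w k l : ℕ} {P Q : Finset (ℕ × ℕ)} (h : Q ⊆ P) :
    M2 t w k l Q ≤ M2 t w k l P :=
  M2_le (fun _ hS hE => le_M2 hS (fun ⟨φ, ψ, hφ, hψ, hP⟩ =>
    hE ⟨φ, ψ, hφ, hψ, fun p hp => hP p (h hp)⟩))

/-- the part of `S` in a rectangle -/
def rect (S : Finset (ℕ × ℕ)) (x₁ x₂ y₁ y₂ : ℕ) : Finset (ℕ × ℕ) :=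
  S.filter (fun s => (x₁ ≤ s.1 ∧ s.1 ≤ x₂) ∧ (y₁ ≤ s.2 ∧ s.2 ≤ y₂))

lemma mem_rect {S : Finset (ℕ × ℕ)} {x₁ x₂ y₁ y₂ : ℕ} {s : ℕ × ℕ} :
    s ∈ rect S x₁ x₂ y₁ y₂ ↔ s ∈ S ∧ (x₁ ≤ s.1 ∧ s.1 ≤ x₂) ∧ (y₁ ≤ s.2 ∧ s.2 ≤ y₂) := by
  rw [rect, Finset.mem_filter]

lemma onto_window {t k x₁ x₂ : ℕ} {φ : ℕ → ℕ} (h : Onto (x₂ - x₁ + 1) k φ) (hx : x₁ ≤ x₂)
    (hxt : x₂ < t) : Onto t k (fun i => φ (min (i - x₁) (x₂ - x₁))) where
  mono := by
    intro i j hij
    apply h.mono
    omega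
  lt := by
    intro i _
    apply h.lt
    omega
  surj := by
    intro j hj
    obtain ⟨i, hi, hi'⟩ := h.surj j hj
    refine ⟨i + x₁, by omega, ?_⟩
    have : min (i + x₁ - x₁) (x₂ - x₁) = i := by omega
    show φ (min (i + x₁ - x₁) (x₂ - x₁)) = j
    rw [this, hi']

/-- The part of a matrix avoiding `P` in a rectangle avoids the pattern obtained from `P` by
deleting those corner ones that have a host beyond the corresponding corner of the rectangle. -/
lemma rect_card_le {t w k l x₁ x₂ y₁ y₂ : ℕ} {S P Q : Finset (ℕ × ℕ)}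
    (hE : ¬ Emb2 t w k l S P) (hx : x₁ ≤ x₂) (hxt : x₂ < t) (hy : y₁ ≤ y₂) (hyw : y₂ < w)
    (hw : ∀ p ∈ P, p ∉ Q → ∃ s ∈ S, ((s.1 ≤ x₁ ∧ p.1 = 0) ∨ (x₂ ≤ s.1 ∧ p.1 + 1 = k)) ∧
      ((s.2 ≤ y₁ ∧ p.2 = 0) ∨ (y₂ ≤ s.2 ∧ p.2 + 1 = l))) :
    (rect S x₁ x₂ y₁ y₂).card ≤ M2 (x₂ - x₁ + 1) (y₂ - y₁ + 1) k l Q := by
  classical
  have hcard : ((rect S x₁ x₂ y₁ y₂).image (fun s => (s.1 - x₁, s.2 - y₁))).card =
      (rect S x₁ x₂ y₁ y₂).card := by
    apply Finset.card_image_of_injOn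
    intro a ha b hb hab
    rw [Finset.mem_coe, mem_rect] at ha hb
    simp only [Prod.mk.injEq] at hab
    ext <;> omega
  rw [← hcard]
  apply le_M2
  · intro x hx'
    obtain ⟨s, hs, rfl⟩ := Finset.mem_image.1 hx'
    rw [mem_rect] at hs
    rw [mem_box2]
    show s.1 - x₁ < x₂ - x₁ + 1 ∧ s.2 - y₁ < y₂ - y₁ + 1
    omega
  · rintro ⟨φ, ψ, hφ, hψ, hQ⟩
    apply hE
    have hk : 0 < k := by have := hφ.lt 0 (by omega); omega
    have hl : 0 < l := by have := hψ.lt 0 (by omega); omega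
    refine ⟨_, _, onto_window hφ hx hxt, onto_window hψ hy hyw, ?_⟩
    intro p hp
    by_cases hpQ : p ∈ Q
    · obtain ⟨s', hs', h1, h2⟩ := hQ p hpQ
      obtain ⟨s, hs, rfl⟩ := Finset.mem_image.1 hs'
      rw [mem_rect] at hs
      refine ⟨s, hs.1, ?_, ?_⟩
      · have : min (s.1 - x₁) (x₂ - x₁) = s.1 - x₁ := by omega
        show φ (min (s.1 - x₁) (x₂ - x₁)) = p.1
        rw [this]
        exact h1
      · have : min (s.2 - y₁) (y₂ - y₁) = s.2 - y₁ := by omega
        show ψ (min (s.2 - y₁) (y₂ - y₁)) = p.2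
        rw [this]
        exact h2
    · obtain ⟨s, hs, h1, h2⟩ := hw p hp hpQ
      refine ⟨s, hs, ?_, ?_⟩
      · show φ (min (s.1 - x₁) (x₂ - x₁)) = p.1
        rcases h1 with ⟨h1, h3⟩ | ⟨h1, h3⟩
        · have : min (s.1 - x₁) (x₂ - x₁) = 0 := by omega
          rw [this, hφ.zero hk, h3]
        · have : min (s.1 - x₁) (x₂ - x₁) = x₂ - x₁ := by omega
          rw [this]
          have h4 := hφ.last (by omega)
          have h5 : x₂ - x₁ + 1 - 1 = x₂ - x₁ := by omega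
          rw [h5] at h4
          omega
      · show ψ (min (s.2 - y₁) (y₂ - y₁)) = p.2
        rcases h2 with ⟨h1, h3⟩ | ⟨h1, h3⟩
        · have : min (s.2 - y₁) (y₂ - y₁) = 0 := by omega
          rw [this, hψ.zero hl, h3]
        · have : min (s.2 - y₁) (y₂ - y₁) = y₂ - y₁ := by omega
          rw [this]
          have h4 := hψ.last (by omega)
          have h5 : y₂ - y₁ + 1 - 1 = y₂ - y₁ := by omega
          rw [h5] at h4
          omega

/-! ## Superadditivity for indecomposable patterns -/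

lemma emb2_shift {t w t' w' a b k l : ℕ} {S P : Finset (ℕ × ℕ)} (hsp : Spans2 k l P)
    (hS : S ⊆ box2 t w) (ht : t' = a + t) (hw : w' = b + w)
    (h : Emb2 t' w' k l (S.image (fun s => (a + s.1, b + s.2))) P) :
    Emb2 t w k l S P := by
  obtain ⟨φ, ψ, hφ, hψ, hP⟩ := h
  have hk : 0 < k := by obtain ⟨p, _, hp⟩ := hsp.bot; omega
  have hl : 0 < l := by obtain ⟨p, _, hp⟩ := hsp.right; omega
  have hφa : φ a = 0 := by
    obtain ⟨p, hp, hp'⟩ := hsp.top
    obtain ⟨s, hs, hs1, hs2⟩ := hP p hp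
    obtain ⟨x, hx, rfl⟩ := Finset.mem_image.1 hs
    have := hφ.mono (show a ≤ a + x.1 by omega)
    simp only at hs1
    omega
  have hψb : ψ b = 0 := by
    obtain ⟨p, hp, hp'⟩ := hsp.left
    obtain ⟨s, hs, hs1, hs2⟩ := hP p hp
    obtain ⟨x, hx, rfl⟩ := Finset.mem_image.1 hs
    have := hψ.mono (show b ≤ b + x.2 by omega)
    simp only at hs2
    omega
  refine ⟨fun i => φ (a + i), fun j => ψ (b + j), ?_, ?_, ?_⟩
  · refine onto_of_steps ?_ hφa ?_ ?_ ?_
    · intro i j hij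
      apply hφ.mono
      omega
    · intro i hi
      exact hφ.succ_le (a + i) (by omega)
    · obtain ⟨p, hp, hp'⟩ := hsp.bot
      obtain ⟨s, hs, hs1, hs2⟩ := hP p hp
      obtain ⟨x, hx, rfl⟩ := Finset.mem_image.1 hs
      refine ⟨x.1, (mem_box2.1 (hS hx)).1, ?_⟩
      simp only at hs1
      omega
    · intro i hi
      exact hφ.lt (a + i) (by omega)
  · refine onto_of_steps ?_ hψb ?_ ?_ ?_
    · intro i j hij
      apply hψ.mono
      omega
    · intro i hi
      exact hψ.succ_le (b + i) (by omega)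
    · obtain ⟨p, hp, hp'⟩ := hsp.right
      obtain ⟨s, hs, hs1, hs2⟩ := hP p hp
      obtain ⟨x, hx, rfl⟩ := Finset.mem_image.1 hs
      refine ⟨x.2, (mem_box2.1 (hS hx)).2, ?_⟩
      simp only at hs2
      omega
    · intro i hi
      exact hψ.lt (b + i) (by omega)
  · intro p hp
    obtain ⟨s, hs, hs1, hs2⟩ := hP p hp
    obtain ⟨x, hx, rfl⟩ := Finset.mem_image.1 hs
    exact ⟨x, hx, hs1, hs2⟩

/-- Block diagonal matrices: the extremal function of an indecomposable pattern is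
superadditive. -/
lemma M2_super {t w t' w' k l : ℕ} {P : Finset (ℕ × ℕ)} (hsp : Spans2 k l P) (hI : Indec P) :
    M2 t w k l P + M2 t' w' k l P ≤ M2 (t + t') (w + w') k l P := by
  classical
  obtain ⟨S, hS, hE, hc⟩ := exists_M2 t w k l hsp.nonempty
  obtain ⟨S', hS', hE', hc'⟩ := exists_M2 t' w' k l hsp.nonempty
  have hinj : Function.Injective (fun s : ℕ × ℕ => (t + s.1, w + s.2)) := by
    intro a b hab
    simp only [Prod.mk.injEq] at hab
    ext <;> omega
  have hdisj : Disjoint S (S'.image (fun s => (t + s.1, w + s.2))) := by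
    rw [Finset.disjoint_left]
    intro x hx hx'
    obtain ⟨y, hy, rfl⟩ := Finset.mem_image.1 hx'
    have := mem_box2.1 (hS hx)
    simp only at this
    omega
  have hcard : (S ∪ S'.image (fun s => (t + s.1, w + s.2))).card =
      M2 t w k l P + M2 t' w' k l P := by
    rw [Finset.card_union_of_disjoint hdisj, Finset.card_image_of_injective _ hinj, hc, hc']
  rw [← hcard]
  apply le_M2
  · apply Finset.union_subset
    · exact hS.trans (box2_mono (by omega) (by omega))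
    · intro x hx
      obtain ⟨y, hy, rfl⟩ := Finset.mem_image.1 hx
      have := mem_box2.1 (hS' hy)
      rw [mem_box2]
      show t + y.1 < t + t' ∧ w + y.2 < w + w'
      omega
  · rintro ⟨φ, ψ, hφ, hψ, hP⟩
    -- the ones hosted by the first block
    set P₁ := P.filter (fun p => ∃ s ∈ S, φ s.1 = p.1 ∧ ψ s.2 = p.2) with hP₁
    set P₂ := P.filter (fun p => ¬ ∃ s ∈ S, φ s.1 = p.1 ∧ ψ s.2 = p.2) with hP₂
    have hU : P₁ ∪ P₂ = P := Finset.filter_union_filter_not_eq _ _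
    have h2 : ∀ p ∈ P₂, ∃ s ∈ S', φ (t + s.1) = p.1 ∧ ψ (w + s.2) = p.2 := by
      intro p hp
      rw [hP₂, Finset.mem_filter] at hp
      obtain ⟨s, hs, h⟩ := hP p hp.1
      rcases Finset.mem_union.1 hs with hs | hs
      · exact absurd ⟨s, hs, h⟩ hp.2
      · obtain ⟨y, hy, rfl⟩ := Finset.mem_image.1 hs
        exact ⟨y, hy, h⟩
    by_cases hne1 : P₁.Nonempty
    · by_cases hne2 : P₂.Nonempty
      · refine hI P₁ P₂ hU hne1 hne2 ?_
        intro y hy x hx
        rw [hP₁, Finset.mem_filter] at hy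
        obtain ⟨_, s, hs, hs1, hs2⟩ := hy
        obtain ⟨s', hs', hs1', hs2'⟩ := h2 x hx
        have h3 := mem_box2.1 (hS hs)
        have h4 := hφ.mono (show s.1 ≤ t + s'.1 by omega)
        have h5 := hψ.mono (show s.2 ≤ w + s'.2 by omega)
        omega
      · rw [Finset.not_nonempty_iff_eq_empty] at hne2
        rw [hne2, Finset.union_empty] at hU
        apply hE
        apply emb2_mono (t' := t + t') (w' := w + w') hsp hS (by omega) (by omega)
        refine ⟨φ, ψ, hφ, hψ, ?_⟩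
        intro p hp
        rw [← hU, hP₁, Finset.mem_filter] at hp
        exact hp.2
    · rw [Finset.not_nonempty_iff_eq_empty] at hne1
      rw [hne1, Finset.empty_union] at hU
      apply hE'
      refine emb2_shift (a := t) (b := w) hsp hS' rfl rfl ⟨φ, ψ, hφ, hψ, ?_⟩
      intro p hp
      rw [← hU] at hp
      obtain ⟨s, hs, hs1, hs2⟩ := h2 p hp
      exact ⟨_, Finset.mem_image_of_mem _ hs, hs1, hs2⟩

/-- a superadditive sequence lies below its limiting slope -/
lemma le_slope {u : ℕ → ℕ} (hsup : ∀ a b, u a + u b ≤ u (a + b)) {L : ℝ}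
    (hL : Tendsto (fun n : ℕ => (u n : ℝ) / n) atTop (𝓝 L)) (n : ℕ) : (u n : ℝ) ≤ L * n := by
  rcases Nat.eq_zero_or_pos n with h0 | h0
  · subst h0
    have : u 0 = 0 := by have := hsup 0 0; simp only [Nat.add_zero] at this; omega
    rw [this]
    simp
  · have hnR : (0 : ℝ) < n := by exact_mod_cast h0
    have hmul : ∀ j : ℕ, j * u n ≤ u (j * n) := by
      intro j
      induction j with
      | zero => simp
      | succ j ih =>
        have h1 := hsup (j * n) n
        have h2 : (j + 1) * n = j * n + n := by ring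
        have h3 : (j + 1) * u n = j * u n + u n := by ring
        rw [h2, h3]
        omega
    rw [← div_le_iff₀ hnR]
    have htop : Tendsto (fun j : ℕ => (j + 1) * n) atTop atTop :=
      tendsto_atTop_mono (fun j => by show j ≤ (j + 1) * n; nlinarith) tendsto_id
    have hL' := hL.comp htop
    refine ge_of_tendsto' hL' (fun j => ?_)
    show (u n : ℝ) / n ≤ (u ((j + 1) * n) : ℝ) / (((j + 1) * n : ℕ) : ℝ)
    have hpos : (0 : ℝ) < (((j + 1) * n : ℕ) : ℝ) := by
      have : 0 < (j + 1) * n := by positivity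
      exact_mod_cast this
    rw [div_le_div_iff₀ hnR hpos]
    have h1 : (((j + 1) * u n : ℕ) : ℝ) ≤ (u ((j + 1) * n) : ℝ) := by exact_mod_cast hmul (j + 1)
    push_cast at h1 ⊢
    nlinarith

end Pool.Agent.Helper450IM
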