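import Pool.Agent.helper450_im.CutOsc

/-!
# The oscillation bound for all two-dimensional patterns
-/

namespace Pool.Agent.Helper450IM

open Finset Filter Topology

/-- Three corner ones, the upper right one being absent. -/
theorem osc_three_NE {k l : ℕ} {P : Finset (ℕ × ℕ)} (hP : P ⊆ box2 k l) (hk : 2 ≤ k)
    (hl : 2 ≤ l) (hNW : ∃ p ∈ P, p.1 = 0 ∧ p.2 = 0) (hNE : ∀ p ∈ P, p.1 = 0 → p.2 + 1 ≠ l)
    (hSW : ∃ p ∈ P, p.1 + 1 = k ∧ p.2 = 0) (hSE : ∃ p ∈ P, p.1 + 1 = k ∧ p.2 + 1 = l) :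
    Osc2 2 k l P := by
  apply Osc2.of_flp hP
  apply osc_three (flp_subset hP) hk hl
  · obtain ⟨p, hp, h1, h2⟩ := hSW
    refine ⟨_, Finset.mem_image_of_mem _ hp, ?_, h2⟩
    show k - 1 - p.1 = 0
    omega
  · obtain ⟨p, hp, h1, h2⟩ := hSE
    refine ⟨_, Finset.mem_image_of_mem _ hp, ?_, h2⟩
    show k - 1 - p.1 = 0
    omega
  · obtain ⟨p, hp, h1, h2⟩ := hNW
    refine ⟨_, Finset.mem_image_of_mem _ hp, ?_, h2⟩
    show k - 1 - p.1 + 1 = k
    omega
  · intro p hp h1 h2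
    obtain ⟨q, hq, rfl⟩ := Finset.mem_image.1 hp
    have := mem_box2.1 (hP hq)
    simp only at h1 h2
    exact hNE q hq (by omega) h2

/-- Three corner ones, the lower left one being absent. -/
theorem osc_three_SW {k l : ℕ} {P : Finset (ℕ × ℕ)} (hP : P ⊆ box2 k l) (hk : 2 ≤ k)
    (hl : 2 ≤ l) (hNW : ∃ p ∈ P, p.1 = 0 ∧ p.2 = 0) (hNE : ∃ p ∈ P, p.1 = 0 ∧ p.2 + 1 = l)
    (hSW : ∀ p ∈ P, p.1 + 1 = k → p.2 ≠ 0) (hSE : ∃ p ∈ P, p.1 + 1 = k ∧ p.2 + 1 = l) :
    Osc2 2 k l P := by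
  apply Osc2.of_swp
  apply osc_three_NE (swp_subset hP) hl hk
  · obtain ⟨p, hp, h1, h2⟩ := hNW
    exact ⟨p.swap, mem_swp.2 (by rwa [Prod.swap_swap]), h2, h1⟩
  · intro p hp h1 h2
    exact hSW p.swap (mem_swp.1 hp) h2 h1
  · obtain ⟨p, hp, h1, h2⟩ := hNE
    exact ⟨p.swap, mem_swp.2 (by rwa [Prod.swap_swap]), h2, h1⟩
  · obtain ⟨p, hp, h1, h2⟩ := hSE
    exact ⟨p.swap, mem_swp.2 (by rwa [Prod.swap_swap]), h2, h1⟩

/-- Three corner ones, the upper left one being absent. -/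
theorem osc_three_NW {k l : ℕ} {P : Finset (ℕ × ℕ)} (hP : P ⊆ box2 k l) (hk : 2 ≤ k)
    (hl : 2 ≤ l) (hNW : ∀ p ∈ P, p.1 = 0 → p.2 ≠ 0) (hNE : ∃ p ∈ P, p.1 = 0 ∧ p.2 + 1 = l)
    (hSW : ∃ p ∈ P, p.1 + 1 = k ∧ p.2 = 0) (hSE : ∃ p ∈ P, p.1 + 1 = k ∧ p.2 + 1 = l) :
    Osc2 2 k l P := by
  apply Osc2.of_flp hP
  apply osc_three_SW (flp_subset hP) hk hl
  · obtain ⟨p, hp, h1, h2⟩ := hSW
    refine ⟨_, Finset.mem_image_of_mem _ hp, ?_, h2⟩
    show k - 1 - p.1 = 0
    omega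
  · obtain ⟨p, hp, h1, h2⟩ := hSE
    refine ⟨_, Finset.mem_image_of_mem _ hp, ?_, h2⟩
    show k - 1 - p.1 = 0
    omega
  · intro p hp h1 h2
    obtain ⟨q, hq, rfl⟩ := Finset.mem_image.1 hp
    have := mem_box2.1 (hP hq)
    simp only at h1 h2
    exact hNW q hq (by omega) h2
  · obtain ⟨p, hp, h1, h2⟩ := hNE
    refine ⟨_, Finset.mem_image_of_mem _ hp, ?_, h2⟩
    show k - 1 - p.1 + 1 = k
    omega

/-- different corner positions that are ones give different corner ones -/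
lemma card_le_corners {P : Mat 2} {F : Finset (ℕ × ℕ)}
    (h : ∀ p ∈ F, ∃ x, IsCornerOne P x ∧ pr x = p) :
    F.card ≤ {x | IsCornerOne P x}.ncard := by
  have hfin : {x | IsCornerOne P x}.Finite := P.ones.finite_toSet.subset (fun x hx => hx.1)
  have h1 : (F : Set (ℕ × ℕ)) ⊆ pr '' {x | IsCornerOne P x} := by
    intro p hp
    obtain ⟨x, hx, hx'⟩ := h p hp
    exact ⟨x, hx, hx'⟩
  have h2 := Set.ncard_le_ncard h1 (hfin.image _)
  rw [Set.ncard_coe_finset] at h2
  exact h2.trans (Set.ncard_image_le hfin)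

/-- Spanning patterns. -/
theorem osc_spans {P : Mat 2} (hP : P.ones.Nonempty) (hsp : Spans P.size P.ones) {K : ℝ}
    (hK : ((max 1 ({x | IsCornerOne P x}.ncard - 1) : ℕ) : ℝ) ≤ K) :
    OscSeq K (fun n => m n P) := by
  classical
  have hK1 : (1 : ℝ) ≤ K := by
    refine le_trans ?_ hK
    exact_mod_cast le_max_left 1 ({x | IsCornerOne P x}.ncard - 1)
  by_cases hdeg : P.size 0 ≤ 1 ∨ P.size 1 ≤ 1
  · have key : ∀ ℓ₀ ℓ₁ : Fin 2, ℓ₀ ≠ ℓ₁ → P.size ℓ₁ ≤ 1 → OscSeq K (fun n => m n P) := by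
      intro ℓ₀ ℓ₁ hne h1
      have h3 : ∀ ℓ, ℓ ≠ ℓ₀ → (P.ones.image (fun x => x ℓ)).card ≤ 3 := by
        intro ℓ hℓ
        have hℓ1 : ℓ = ℓ₁ := by omega
        subst hℓ1
        have h4 : P.ones.image (fun x => x ℓ) ⊆ {0} := by
          intro v hv
          obtain ⟨x, hx, rfl⟩ := Finset.mem_image.1 hv
          have := P.inBox x hx ℓ
          rw [Finset.mem_singleton]
          omega
        have h5 := Finset.card_le_card h4
        rw [Finset.card_singleton] at h5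
        omega
      apply OscSeq.mono _ hK1
      have h := tendsto_frame (by norm_num : 0 < 2) P.size (Mat.size_pos hP)
      apply oscSeq_of_tendsto (L := ∑ ℓ, ((P.size ℓ : ℝ) - 1))
      refine h.congr ?_
      intro n
      rw [m, maxOnes_eq hP ℓ₀ h3]
      norm_num
    rcases hdeg with h | h
    · exact key 1 0 (by decide) h
    · exact key 0 1 (by decide) h
  push Not at hdeg
  obtain ⟨hk, hl⟩ := hdeg
  have hfun : (fun n => m n P) = fun n => M2 n n (P.size 0) (P.size 1) (P.ones.image pr) := by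
    funext n
    rw [m, maxOnes_eq_M2 hP]
  rw [hfun]
  show Osc2 K (P.size 0) (P.size 1) (P.ones.image pr)
  set k := P.size 0 with hkdef
  set l := P.size 1 with hldef
  set Q := P.ones.image pr with hQdef
  have hQ : Q ⊆ box2 k l := image_pr_subset P.ones_subset
  have hsp2 : Spans2 k l Q := by
    refine ⟨?_, ?_, ?_, ?_⟩
    · obtain ⟨p, hp, hp'⟩ := (hsp 0).1
      exact ⟨_, Finset.mem_image_of_mem _ hp, hp'⟩
    · obtain ⟨p, hp, hp'⟩ := (hsp 0).2
      exact ⟨_, Finset.mem_image_of_mem _ hp, hp'⟩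
    · obtain ⟨p, hp, hp'⟩ := (hsp 1).1
      exact ⟨_, Finset.mem_image_of_mem _ hp, hp'⟩
    · obtain ⟨p, hp, hp'⟩ := (hsp 1).2
      exact ⟨_, Finset.mem_image_of_mem _ hp, hp'⟩
  -- corner ones from elements of `Q`
  have hcorner : ∀ p ∈ Q, (p.1 = 0 ∨ p.1 + 1 = k) → (p.2 = 0 ∨ p.2 + 1 = l) →
      ∃ x, IsCornerOne P x ∧ pr x = p := by
    intro p hp h1 h2
    obtain ⟨x, hx, rfl⟩ := Finset.mem_image.1 hp
    refine ⟨x, ⟨hx, ?_⟩, rfl⟩
    intro ℓ
    fin_cases ℓ
    · rcases h1 with h1 | h1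
      · left
        intro y _
        show x 0 ≤ y 0
        have : x 0 = 0 := h1
        omega
      · right
        intro y hy
        show y 0 ≤ x 0
        have h3 : x 0 + 1 = k := h1
        have h4 := P.inBox y hy 0
        omega
    · rcases h2 with h2 | h2
      · left
        intro y _
        show x 1 ≤ y 1
        have : x 1 = 0 := h2
        omega
      · right
        intro y hy
        show y 1 ≤ x 1
        have h3 : x 1 + 1 = l := h2
        have h4 := P.inBox y hy 1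
        omega
  have hthree : ∀ p₁ ∈ Q, ∀ p₂ ∈ Q, ∀ p₃ ∈ Q, (p₁.1 = 0 ∨ p₁.1 + 1 = k) →
      (p₁.2 = 0 ∨ p₁.2 + 1 = l) → (p₂.1 = 0 ∨ p₂.1 + 1 = k) → (p₂.2 = 0 ∨ p₂.2 + 1 = l) →
      (p₃.1 = 0 ∨ p₃.1 + 1 = k) → (p₃.2 = 0 ∨ p₃.2 + 1 = l) →
      p₁ ≠ p₂ → p₁ ≠ p₃ → p₂ ≠ p₃ → (2 : ℝ) ≤ K := by
    intro p₁ h1 p₂ h2 p₃ h3 a1 b1 a2 b2 a3 b3 n12 n13 n23
    have h4 : ({p₁, p₂, p₃} : Finset (ℕ × ℕ)).card ≤ {x | IsCornerOne P x}.ncard := by
      apply card_le_corners
      intro p hp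
      simp only [Finset.mem_insert, Finset.mem_singleton] at hp
      rcases hp with rfl | rfl | rfl
      · exact hcorner _ h1 a1 b1
      · exact hcorner _ h2 a2 b2
      · exact hcorner _ h3 a3 b3
    rw [Finset.card_eq_three.2 ⟨p₁, p₂, p₃, n12, n13, n23, rfl⟩] at h4
    refine le_trans ?_ hK
    have h5 : 2 ≤ max 1 ({x | IsCornerOne P x}.ncard - 1) := le_max_of_le_right (by omega)
    exact_mod_cast h5
  have nNW : (¬ ∃ p ∈ Q, p.1 = 0 ∧ p.2 = 0) → ∀ p ∈ Q, p.1 = 0 → p.2 ≠ 0 :=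
    fun h p hp h1 h2 => h ⟨p, hp, h1, h2⟩
  have nNE : (¬ ∃ p ∈ Q, p.1 = 0 ∧ p.2 + 1 = l) → ∀ p ∈ Q, p.1 = 0 → p.2 + 1 ≠ l :=
    fun h p hp h1 h2 => h ⟨p, hp, h1, h2⟩
  have nSW : (¬ ∃ p ∈ Q, p.1 + 1 = k ∧ p.2 = 0) → ∀ p ∈ Q, p.1 + 1 = k → p.2 ≠ 0 :=
    fun h p hp h1 h2 => h ⟨p, hp, h1, h2⟩
  have nSE : (¬ ∃ p ∈ Q, p.1 + 1 = k ∧ p.2 + 1 = l) → ∀ p ∈ Q, p.1 + 1 = k → p.2 + 1 ≠ l :=
    fun h p hp h1 h2 => h ⟨p, hp, h1, h2⟩
  have hconv : Conv2 k l Q → Osc2 K k l Q := fun h => h.osc.mono hK1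
  by_cases cNW : ∃ p ∈ Q, p.1 = 0 ∧ p.2 = 0
  · by_cases cNE : ∃ p ∈ Q, p.1 = 0 ∧ p.2 + 1 = l
    · by_cases cSW : ∃ p ∈ Q, p.1 + 1 = k ∧ p.2 = 0
      · by_cases cSE : ∃ p ∈ Q, p.1 + 1 = k ∧ p.2 + 1 = l
        · -- four corner ones
          refine (osc_four ⟨hQ, by omega, by omega, cNW, cNE, cSW, cSE⟩).mono ?_
          obtain ⟨p₁, h1, a1, b1⟩ := cNW
          obtain ⟨p₂, h2, a2, b2⟩ := cNE
          obtain ⟨p₃, h3, a3, b3⟩ := cSW
          obtain ⟨p₄, h4, a4, b4⟩ := cSE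
          have h5 : ({p₁, p₂, p₃, p₄} : Finset (ℕ × ℕ)).card ≤ {x | IsCornerOne P x}.ncard := by
            apply card_le_corners
            intro p hp
            simp only [Finset.mem_insert, Finset.mem_singleton] at hp
            rcases hp with rfl | rfl | rfl | rfl
            · exact hcorner _ h1 (Or.inl a1) (Or.inl b1)
            · exact hcorner _ h2 (Or.inl a2) (Or.inr b2)
            · exact hcorner _ h3 (Or.inr a3) (Or.inl b3)
            · exact hcorner _ h4 (Or.inr a4) (Or.inr b4)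
          have h6 : ({p₁, p₂, p₃, p₄} : Finset (ℕ × ℕ)).card = 4 := by
            rw [Finset.card_insert_of_notMem, Finset.card_eq_three.2 ⟨p₂, p₃, p₄, ?_, ?_, ?_, rfl⟩]
            · rintro rfl; omega
            · rintro rfl; omega
            · rintro rfl; omega
            · simp only [Finset.mem_insert, Finset.mem_singleton]
              rintro (rfl | rfl | rfl) <;> omega
          rw [h6] at h5
          refine le_trans ?_ hK
          have h7 : 3 ≤ max 1 ({x | IsCornerOne P x}.ncard - 1) :=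
            le_max_of_le_right (by omega)
          exact_mod_cast h7
        · refine (osc_three hQ (by omega) (by omega) cNW cNE cSW (nSE cSE)).mono ?_
          obtain ⟨p₁, h1, a1, b1⟩ := cNW
          obtain ⟨p₂, h2, a2, b2⟩ := cNE
          obtain ⟨p₃, h3, a3, b3⟩ := cSW
          refine hthree p₁ h1 p₂ h2 p₃ h3 (Or.inl a1) (Or.inl b1) (Or.inl a2) (Or.inr b2)
            (Or.inr a3) (Or.inl b3) ?_ ?_ ?_
          · rintro rfl; omega
          · rintro rfl; omega
          · rintro rfl; omega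
      · by_cases cSE : ∃ p ∈ Q, p.1 + 1 = k ∧ p.2 + 1 = l
        · refine (osc_three_SW hQ (by omega) (by omega) cNW cNE (nSW cSW) cSE).mono ?_
          obtain ⟨p₁, h1, a1, b1⟩ := cNW
          obtain ⟨p₂, h2, a2, b2⟩ := cNE
          obtain ⟨p₃, h3, a3, b3⟩ := cSE
          refine hthree p₁ h1 p₂ h2 p₃ h3 (Or.inl a1) (Or.inl b1) (Or.inl a2) (Or.inr b2)
            (Or.inr a3) (Or.inr b3) ?_ ?_ ?_
          · rintro rfl; omega
          · rintro rfl; omega
          · rintro rfl; omega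
        · exact hconv (conv2_NW_NE hQ hsp2 cNW cNE (nSW cSW) (nSE cSE))
    · by_cases cSW : ∃ p ∈ Q, p.1 + 1 = k ∧ p.2 = 0
      · by_cases cSE : ∃ p ∈ Q, p.1 + 1 = k ∧ p.2 + 1 = l
        · refine (osc_three_NE hQ (by omega) (by omega) cNW (nNE cNE) cSW cSE).mono ?_
          obtain ⟨p₁, h1, a1, b1⟩ := cNW
          obtain ⟨p₂, h2, a2, b2⟩ := cSW
          obtain ⟨p₃, h3, a3, b3⟩ := cSE
          refine hthree p₁ h1 p₂ h2 p₃ h3 (Or.inl a1) (Or.inl b1) (Or.inr a2) (Or.inl b2)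
            (Or.inr a3) (Or.inr b3) ?_ ?_ ?_
          · rintro rfl; omega
          · rintro rfl; omega
          · rintro rfl; omega
        · exact hconv (conv2_NW_SW hQ hsp2 cNW cSW (nNE cNE) (nSE cSE))
      · exact hconv (conv2_of_anti hQ hsp2 (nNE cNE) (nSW cSW))
  · by_cases cSE : ∃ p ∈ Q, p.1 + 1 = k ∧ p.2 + 1 = l
    · by_cases cNE : ∃ p ∈ Q, p.1 = 0 ∧ p.2 + 1 = l
      · by_cases cSW : ∃ p ∈ Q, p.1 + 1 = k ∧ p.2 = 0
        · refine (osc_three_NW hQ (by omega) (by omega) (nNW cNW) cNE cSW cSE).mono ?_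
          obtain ⟨p₁, h1, a1, b1⟩ := cNE
          obtain ⟨p₂, h2, a2, b2⟩ := cSW
          obtain ⟨p₃, h3, a3, b3⟩ := cSE
          refine hthree p₁ h1 p₂ h2 p₃ h3 (Or.inl a1) (Or.inr b1) (Or.inr a2) (Or.inl b2)
            (Or.inr a3) (Or.inr b3) ?_ ?_ ?_
          · rintro rfl; omega
          · rintro rfl; omega
          · rintro rfl; omega
        · exact hconv (conv2_NE_SE hQ hsp2 cNE cSE (nNW cNW) (nSW cSW))
      · by_cases cSW : ∃ p ∈ Q, p.1 + 1 = k ∧ p.2 = 0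
        · exact hconv (conv2_SW_SE hQ hsp2 cSW cSE (nNW cNW) (nNE cNE))
        · exact hconv (conv2_of_anti hQ hsp2 (nNE cNE) (nSW cSW))
    · exact hconv (conv2_of_diag hQ hsp2 (nNW cNW) (nSE cSE))

/-- adding a linear term to a sequence, up to bounded changes -/
lemma OscSeq.pad {K : ℝ} (hK : 1 ≤ K) {u v : ℕ → ℕ} {σ R A : ℕ} (h : OscSeq K u)
    (h1 : ∀ n, R ≤ n → v n ≤ σ * n + u n)
    (h2 : ∀ n, R ≤ n → σ * n + u (n - R) ≤ v n + A) : OscSeq K v := by
  obtain ⟨C, hC, hlo, hhi⟩ := h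
  refine ⟨C + σ, by positivity, ?_, ?_⟩
  · intro ε hε
    have e1 := (tendsto_sub_atTop_nat R).eventually (hlo (ε / 3) (by linarith))
    have e2 : ∀ᶠ n : ℕ in atTop, (C * R) / (n : ℝ) < ε / 3 :=
      (tendsto_const_div_atTop_nhds_zero_nat (C * R)).eventually
        (gt_mem_nhds (show (0 : ℝ) < ε / 3 by linarith))
    have e3 : ∀ᶠ n : ℕ in atTop, (A : ℝ) / (n : ℝ) < ε / 3 :=
      (tendsto_const_div_atTop_nhds_zero_nat (A : ℝ)).eventually
        (gt_mem_nhds (show (0 : ℝ) < ε / 3 by linarith))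
    filter_upwards [e1, e2, e3, eventually_gt_atTop R] with n g1 g2 g3 hn
    have hnR : (0 : ℝ) < n := by
      have : 0 < n := by omega
      exact_mod_cast this
    have hnR' : (0 : ℝ) < ((n - R : ℕ) : ℝ) := by
      have : 0 < n - R := by omega
      exact_mod_cast this
    have h3 : (σ : ℝ) * n + (u (n - R) : ℝ) ≤ (v n : ℝ) + A := by exact_mod_cast h2 n hn.le
    rw [div_lt_iff₀ hnR] at g2 g3
    rw [le_div_iff₀ hnR] at *
    rw [le_div_iff₀ hnR'] at g1
    rw [Nat.cast_sub hn.le] at g1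
    have hR0 : (0 : ℝ) ≤ R := by positivity
    nlinarith
  · intro ε hε
    filter_upwards [hhi ε hε, eventually_gt_atTop 0, eventually_ge_atTop R] with n g1 hn hnR'
    have hnR : (0 : ℝ) < n := by exact_mod_cast hn
    have h3 : (v n : ℝ) ≤ (σ : ℝ) * n + u n := by exact_mod_cast h1 n hnR'
    rw [div_le_iff₀ hnR] at g1 ⊢
    have hσ : (0 : ℝ) ≤ (σ : ℝ) * n := by positivity
    nlinarith

/-- The oscillation bound for all two-dimensional patterns. -/
theorem osc_all (P : Mat 2) :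
    OscSeq ((max 1 ({x | IsCornerOne P x}.ncard - 1) : ℕ) : ℝ) (fun n => m n P) := by
  classical
  set K : ℝ := ((max 1 ({x | IsCornerOne P x}.ncard - 1) : ℕ) : ℝ) with hKdef
  have hK1 : (1 : ℝ) ≤ K := by
    rw [hKdef]
    exact_mod_cast le_max_left 1 ({x | IsCornerOne P x}.ncard - 1)
  by_cases hP : P.ones.Nonempty
  · obtain ⟨a, b, P₀, h0, hspan, hsize, hones⟩ := exists_trim hP
    have hPeq : P = Helper450IM.pad a b P₀ := by
      cases P
      simp only at hsize hones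
      subst hsize
      subst hones
      rfl
    have hosc : OscSeq K (fun n => m n P₀) := by
      apply osc_spans h0 hspan
      rw [hKdef]
      have hle : {x | IsCornerOne P₀ x}.ncard ≤ {x | IsCornerOne P x}.ncard := by
        have hfin : {x | IsCornerOne P x}.Finite :=
          P.ones.finite_toSet.subset (fun x hx => hx.1)
        refine Set.ncard_le_ncard_of_injOn (fun x => fun ℓ => x ℓ + a ℓ) ?_ ?_ hfin
        · rintro x ⟨hx, hx'⟩
          rw [hPeq]
          refine ⟨Finset.mem_image_of_mem _ hx, ?_⟩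
          intro ℓ
          rcases hx' ℓ with h | h
          · left
            intro y hy
            obtain ⟨z, hz, rfl⟩ := Finset.mem_image.1 hy
            have := h z hz
            show x ℓ + a ℓ ≤ z ℓ + a ℓ
            omega
          · right
            intro y hy
            obtain ⟨z, hz, rfl⟩ := Finset.mem_image.1 hy
            have := h z hz
            show z ℓ + a ℓ ≤ x ℓ + a ℓ
            omega
        · intro x _ y _ hxy
          funext ℓ
          have := congrFun hxy ℓ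
          simp only at this
          omega
      have hle2 : max 1 ({x | IsCornerOne P₀ x}.ncard - 1) ≤
          max 1 ({x | IsCornerOne P x}.ncard - 1) := max_le_max le_rfl (by omega)
      exact_mod_cast hle2
    set α := a 0 + b 0 with hα
    set β := a 1 + b 1 with hβ
    have hform : ∀ n, α + β ≤ n → m n P + (n - α) * (n - β) =
        n * n + maxOnes ![n - α, n - β] P₀ := by
      intro n hn
      have h1 := maxOnes_pad (n := ![n - α, n - β]) (a := a) (b := b) h0 hspan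
      have h2 : (fun ℓ => a ℓ + (![n - α, n - β] : Fin 2 → ℕ) ℓ + b ℓ) =
          (fun _ => n : Fin 2 → ℕ) := by
        funext ℓ
        fin_cases ℓ
        · show a 0 + (n - α) + b 0 = n
          omega
        · show a 1 + (n - β) + b 1 = n
          omega
      have h3 : ∏ _ℓ : Fin 2, n = n * n := by
        rw [Fin.prod_univ_two]
      have h5 : ∏ ℓ, (![n - α, n - β] : Fin 2 → ℕ) ℓ = (n - α) * (n - β) := by
        simp [Fin.prod_univ_two]
      rw [h2, h3, h5, ← hPeq] at h1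
      exact h1
    have hprod : ∀ n, α + β ≤ n → (n - α) * (n - β) + (α + β) * n = n * n + α * β := by
      intro n hn
      obtain ⟨r, rfl⟩ : ∃ r, n = α + β + r := ⟨n - (α + β), by omega⟩
      have e1 : α + β + r - α = β + r := by omega
      have e2 : α + β + r - β = α + r := by omega
      rw [e1, e2]
      ring
    refine OscSeq.pad hK1 (σ := α + β) (R := α + β) (A := α * β) hosc ?_ ?_
    · intro n hn
      have h1 := hform n hn
      have h2 := hprod n hn
      have h3 : maxOnes ![n - α, n - β] P₀ ≤ m n P₀ := by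
        apply maxOnes_mono h0 hspan
        intro ℓ
        fin_cases ℓ
        · show n - α ≤ n
          omega
        · show n - β ≤ n
          omega
      show m n P ≤ (α + β) * n + m n P₀
      omega
    · intro n hn
      have h1 := hform n hn
      have h2 := hprod n hn
      have h3 : m (n - (α + β)) P₀ ≤ maxOnes ![n - α, n - β] P₀ := by
        apply maxOnes_mono h0 hspan
        intro ℓ
        fin_cases ℓ
        · show n - (α + β) ≤ n - α
          omega
        · show n - (α + β) ≤ n - β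
          omega
      show (α + β) * n + m (n - (α + β)) P₀ ≤ m n P + α * β
      omega
  · apply OscSeq.mono _ hK1
    apply oscSeq_of_tendsto (L := 0)
    refine tendsto_const_nhds.congr' ?_
    filter_upwards [eventually_ge_atTop (∑ ℓ, P.size ℓ)] with n hn
    rw [m_zero_pattern hP (fun ℓ => (Finset.single_le_sum (f := P.size)
      (fun _ _ => Nat.zero_le _) (Finset.mem_univ ℓ)).trans hn)]
    simp

end Pool.Agent.Helper450IM
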