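import Pool.Agent.helper450_im.Cut

/-!
# Patterns with four corner ones
-/

namespace Pool.Agent.Helper450IM

open Finset Filter Topology

/-- Covering a matrix by rectangles spanned by extreme ones. -/
lemma cover_four {n : ℕ} {S : Finset (ℕ × ℕ)} {f g : ℕ → ℕ → ℕ} {ρ : ℝ} (hρ : 0 ≤ ρ)
    (fmono : ∀ a b a' b', a ≤ a' → b ≤ b' → f a b ≤ f a' b')
    (gmono : ∀ a b a' b', a ≤ a' → b ≤ b' → g a b ≤ g a' b')
    (fsup : ∀ a b a' b', f a b + f a' b' ≤ f (a + a') (b + b'))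
    (gsup : ∀ a b a' b', g a b + g a' b' ≤ g (a + a') (b + b'))
    (hf : ∀ N, (f N N : ℝ) ≤ ρ * N) (hg : ∀ N, (g N N : ℝ) ≤ ρ * N)
    (Hf : ∀ x₁ x₂ y₁ y₂, x₁ ≤ x₂ → x₂ < n → y₁ ≤ y₂ → y₂ < n →
      (∃ u ∈ S, u.1 ≤ x₁ ∧ u.2 ≤ y₁) → (∃ v ∈ S, x₂ ≤ v.1 ∧ y₂ ≤ v.2) →
      (rect S x₁ x₂ y₁ y₂).card ≤ f (x₂ - x₁ + 1) (y₂ - y₁ + 1))
    (Hg : ∀ x₁ x₂ y₁ y₂, x₁ ≤ x₂ → x₂ < n → y₁ ≤ y₂ → y₂ < n →
      (∃ u ∈ S, u.1 ≤ x₁ ∧ y₂ ≤ u.2) → (∃ v ∈ S, x₂ ≤ v.1 ∧ v.2 ≤ y₁) →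
      (rect S x₁ x₂ y₁ y₂).card ≤ g (x₂ - x₁ + 1) (y₂ - y₁ + 1))
    (hS : S ⊆ box2 n n) {T B L R : ℕ × ℕ} (hT : T ∈ S) (hB : B ∈ S) (hL : L ∈ S) (hR : R ∈ S)
    (eT : ∀ s ∈ S, T.1 ≤ s.1) (eB : ∀ s ∈ S, s.1 ≤ B.1) (eL : ∀ s ∈ S, L.2 ≤ s.2)
    (eR : ∀ s ∈ S, s.2 ≤ R.2) (hLR : L.1 ≤ R.1) : (S.card : ℝ) ≤ ρ * (3 * n + 3) := by
  classical
  have bT := mem_box2.1 (hS hT)
  have bB := mem_box2.1 (hS hB)
  have bL := mem_box2.1 (hS hL)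
  have bR := mem_box2.1 (hS hR)
  have TL := eT L hL
  have TR := eT R hR
  have TB := eT B hB
  have BL := eB L hL
  have BR := eB R hR
  have LT := eL T hT
  have LB := eL B hB
  have LR := eL R hR
  have RT := eR T hT
  have RB := eR B hB
  by_cases hTB : T.2 ≤ B.2
  · -- four rectangles
    have h1 := Hg T.1 L.1 L.2 T.2 TL bL.1 LT bT.2 ⟨T, hT, le_rfl, le_rfl⟩ ⟨L, hL, le_rfl, le_rfl⟩
    have h2 := Hf T.1 R.1 T.2 R.2 TR bR.1 RT bR.2 ⟨T, hT, le_rfl, le_rfl⟩ ⟨R, hR, le_rfl, le_rfl⟩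
    have h3 := Hf L.1 B.1 L.2 B.2 BL bB.1 LB bB.2 ⟨L, hL, le_rfl, le_rfl⟩ ⟨B, hB, le_rfl, le_rfl⟩
    have h4 := Hg R.1 B.1 B.2 R.2 BR bB.1 RB bR.2 ⟨R, hR, le_rfl, le_rfl⟩ ⟨B, hB, le_rfl, le_rfl⟩
    have hcov : S ⊆ ((rect S T.1 L.1 L.2 T.2 ∪ rect S R.1 B.1 B.2 R.2) ∪
        rect S T.1 R.1 T.2 R.2) ∪ rect S L.1 B.1 L.2 B.2 := by
      intro s hs
      have e1 := eT s hs
      have e2 := eB s hs
      have e3 := eL s hs
      have e4 := eR s hs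
      simp only [Finset.mem_union, mem_rect, hs, true_and]
      omega
    have hc := Finset.card_le_card hcov
    have c1 := Finset.card_union_le ((rect S T.1 L.1 L.2 T.2 ∪ rect S R.1 B.1 B.2 R.2) ∪
        rect S T.1 R.1 T.2 R.2) (rect S L.1 B.1 L.2 B.2)
    have c2 := Finset.card_union_le (rect S T.1 L.1 L.2 T.2 ∪ rect S R.1 B.1 B.2 R.2)
        (rect S T.1 R.1 T.2 R.2)
    have c3 := Finset.card_union_le (rect S T.1 L.1 L.2 T.2) (rect S R.1 B.1 B.2 R.2)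
    have s1 := gsup (L.1 - T.1 + 1) (T.2 - L.2 + 1) (B.1 - R.1 + 1) (R.2 - B.2 + 1)
    have s2 := gmono (L.1 - T.1 + 1 + (B.1 - R.1 + 1)) (T.2 - L.2 + 1 + (R.2 - B.2 + 1))
      (n + 1) (n + 1) (by omega) (by omega)
    have s3 := fmono (R.1 - T.1 + 1) (R.2 - T.2 + 1) n n (by omega) (by omega)
    have s4 := fmono (B.1 - L.1 + 1) (B.2 - L.2 + 1) n n (by omega) (by omega)
    have htot : S.card ≤ g (n + 1) (n + 1) + 2 * f n n := by omega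
    have h5 : (S.card : ℝ) ≤ g (n + 1) (n + 1) + 2 * f n n := by exact_mod_cast htot
    have h6 := hf n
    have h7 := hg (n + 1)
    push_cast at h7
    nlinarith
  · push Not at hTB
    have h1 := Hg T.1 L.1 L.2 T.2 TL bL.1 LT bT.2 ⟨T, hT, le_rfl, le_rfl⟩ ⟨L, hL, le_rfl, le_rfl⟩
    have h2 := Hf T.1 L.1 T.2 R.2 TL bL.1 RT bR.2 ⟨T, hT, le_rfl, le_rfl⟩ ⟨R, hR, hLR, le_rfl⟩
    have h3 := Hf L.1 R.1 L.2 R.2 hLR bR.1 LR bR.2 ⟨L, hL, le_rfl, le_rfl⟩ ⟨R, hR, le_rfl, le_rfl⟩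
    have h4 := Hf R.1 B.1 L.2 B.2 BR bB.1 LB bB.2 ⟨L, hL, hLR, le_rfl⟩ ⟨B, hB, le_rfl, le_rfl⟩
    have h5 := Hg R.1 B.1 B.2 R.2 BR bB.1 RB bR.2 ⟨R, hR, le_rfl, le_rfl⟩ ⟨B, hB, le_rfl, le_rfl⟩
    have hcov : S ⊆ (((rect S T.1 L.1 L.2 T.2 ∪ rect S R.1 B.1 B.2 R.2) ∪
        rect S T.1 L.1 T.2 R.2) ∪ rect S L.1 R.1 L.2 R.2) ∪ rect S R.1 B.1 L.2 B.2 := by
      intro s hs
      have e1 := eT s hs
      have e2 := eB s hs
      have e3 := eL s hs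
      have e4 := eR s hs
      simp only [Finset.mem_union, mem_rect, hs, true_and]
      omega
    have hc := Finset.card_le_card hcov
    have c0 := Finset.card_union_le (((rect S T.1 L.1 L.2 T.2 ∪ rect S R.1 B.1 B.2 R.2) ∪
        rect S T.1 L.1 T.2 R.2) ∪ rect S L.1 R.1 L.2 R.2) (rect S R.1 B.1 L.2 B.2)
    have c1 := Finset.card_union_le ((rect S T.1 L.1 L.2 T.2 ∪ rect S R.1 B.1 B.2 R.2) ∪
        rect S T.1 L.1 T.2 R.2) (rect S L.1 R.1 L.2 R.2)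
    have c2 := Finset.card_union_le (rect S T.1 L.1 L.2 T.2 ∪ rect S R.1 B.1 B.2 R.2)
        (rect S T.1 L.1 T.2 R.2)
    have c3 := Finset.card_union_le (rect S T.1 L.1 L.2 T.2) (rect S R.1 B.1 B.2 R.2)
    have s1 := gsup (L.1 - T.1 + 1) (T.2 - L.2 + 1) (B.1 - R.1 + 1) (R.2 - B.2 + 1)
    have s2 := gmono (L.1 - T.1 + 1 + (B.1 - R.1 + 1)) (T.2 - L.2 + 1 + (R.2 - B.2 + 1))
      (n + 1 + (T.2 - B.2)) (n + 1 + (T.2 - B.2)) (by omega) (by omega)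
    have s3 := fsup (L.1 - T.1 + 1) (R.2 - T.2 + 1) (R.1 - L.1 + 1) (R.2 - L.2 + 1)
    have s4 := fsup (L.1 - T.1 + 1 + (R.1 - L.1 + 1)) (R.2 - T.2 + 1 + (R.2 - L.2 + 1))
      (B.1 - R.1 + 1) (B.2 - L.2 + 1)
    have s5 := fmono (L.1 - T.1 + 1 + (R.1 - L.1 + 1) + (B.1 - R.1 + 1))
      (R.2 - T.2 + 1 + (R.2 - L.2 + 1) + (B.2 - L.2 + 1))
      (2 * n + 2 - (T.2 - B.2)) (2 * n + 2 - (T.2 - B.2)) (by omega) (by omega)
    have htot : S.card ≤ g (n + 1 + (T.2 - B.2)) (n + 1 + (T.2 - B.2)) +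
      f (2 * n + 2 - (T.2 - B.2)) (2 * n + 2 - (T.2 - B.2)) := by omega
    have h6 : (S.card : ℝ) ≤ (g (n + 1 + (T.2 - B.2)) (n + 1 + (T.2 - B.2)) : ℝ) +
      f (2 * n + 2 - (T.2 - B.2)) (2 * n + 2 - (T.2 - B.2)) := by exact_mod_cast htot
    have h7 := hf (2 * n + 2 - (T.2 - B.2))
    have h8 := hg (n + 1 + (T.2 - B.2))
    have h9 : ((n + 1 + (T.2 - B.2) : ℕ) : ℝ) + ((2 * n + 2 - (T.2 - B.2) : ℕ) : ℝ) =
        3 * n + 3 := by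
      have : n + 1 + (T.2 - B.2) + (2 * n + 2 - (T.2 - B.2)) = 3 * n + 3 := by omega
      exact_mod_cast this
    calc (S.card : ℝ) ≤ ρ * ((n + 1 + (T.2 - B.2) : ℕ) : ℝ) +
          ρ * ((2 * n + 2 - (T.2 - B.2) : ℕ) : ℝ) := by linarith
      _ = ρ * (3 * n + 3) := by rw [← mul_add, h9]

/-- the pattern without its upper left and lower right corner ones -/
def dropD (k l : ℕ) (P : Finset (ℕ × ℕ)) : Finset (ℕ × ℕ) :=
  P.filter (fun p => ¬ (p.1 = 0 ∧ p.2 = 0) ∧ ¬ (p.1 + 1 = k ∧ p.2 + 1 = l))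

/-- the pattern without its upper right and lower left corner ones -/
def dropA (k l : ℕ) (P : Finset (ℕ × ℕ)) : Finset (ℕ × ℕ) :=
  P.filter (fun p => ¬ (p.1 = 0 ∧ p.2 + 1 = l) ∧ ¬ (p.1 + 1 = k ∧ p.2 = 0))

lemma flp_dropA {k l : ℕ} {P : Finset (ℕ × ℕ)} (hP : P ⊆ box2 k l) :
    flp k (dropA k l P) = dropD k l (flp k P) := by
  ext x
  simp only [flp, dropA, dropD, Finset.mem_image, Finset.mem_filter]
  constructor
  · rintro ⟨y, ⟨hy, h1, h2⟩, rfl⟩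
    have := mem_box2.1 (hP hy)
    refine ⟨⟨y, hy, rfl⟩, ?_, ?_⟩
    · show ¬ (k - 1 - y.1 = 0 ∧ y.2 = 0)
      omega
    · show ¬ (k - 1 - y.1 + 1 = k ∧ y.2 + 1 = l)
      omega
  · rintro ⟨⟨y, hy, rfl⟩, h1, h2⟩
    have := mem_box2.1 (hP hy)
    simp only at h1 h2
    refine ⟨y, ⟨hy, ?_, ?_⟩, rfl⟩
    · omega
    · omega

lemma flp_dropD {k l : ℕ} {P : Finset (ℕ × ℕ)} (hP : P ⊆ box2 k l) :
    flp k (dropD k l P) = dropA k l (flp k P) := by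
  ext x
  simp only [flp, dropA, dropD, Finset.mem_image, Finset.mem_filter]
  constructor
  · rintro ⟨y, ⟨hy, h1, h2⟩, rfl⟩
    have := mem_box2.1 (hP hy)
    refine ⟨⟨y, hy, rfl⟩, ?_, ?_⟩
    · show ¬ (k - 1 - y.1 = 0 ∧ y.2 + 1 = l)
      omega
    · show ¬ (k - 1 - y.1 + 1 = k ∧ y.2 = 0)
      omega
  · rintro ⟨⟨y, hy, rfl⟩, h1, h2⟩
    have := mem_box2.1 (hP hy)
    simp only at h1 h2
    refine ⟨y, ⟨hy, ?_, ?_⟩, rfl⟩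
    · omega
    · omega

/-- all four corner ones are present -/
structure Four (k l : ℕ) (P : Finset (ℕ × ℕ)) : Prop where
  sub : P ⊆ box2 k l
  hk : 2 ≤ k
  hl : 2 ≤ l
  nw : ∃ p ∈ P, p.1 = 0 ∧ p.2 = 0
  ne : ∃ p ∈ P, p.1 = 0 ∧ p.2 + 1 = l
  sw : ∃ p ∈ P, p.1 + 1 = k ∧ p.2 = 0
  se : ∃ p ∈ P, p.1 + 1 = k ∧ p.2 + 1 = l

lemma Four.flp {k l : ℕ} {P : Finset (ℕ × ℕ)} (h : Four k l P) : Four k l (flp k P) where
  sub := flp_subset h.sub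
  hk := h.hk
  hl := h.hl
  nw := by
    obtain ⟨p, hp, h1, h2⟩ := h.sw
    refine ⟨_, Finset.mem_image_of_mem _ hp, ?_, h2⟩
    show k - 1 - p.1 = 0
    omega
  ne := by
    obtain ⟨p, hp, h1, h2⟩ := h.se
    refine ⟨_, Finset.mem_image_of_mem _ hp, ?_, h2⟩
    show k - 1 - p.1 = 0
    omega
  sw := by
    obtain ⟨p, hp, h1, h2⟩ := h.nw
    have := h.hk
    refine ⟨_, Finset.mem_image_of_mem _ hp, ?_, h2⟩
    show k - 1 - p.1 + 1 = k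
    omega
  se := by
    obtain ⟨p, hp, h1, h2⟩ := h.ne
    have := h.hk
    refine ⟨_, Finset.mem_image_of_mem _ hp, ?_, h2⟩
    show k - 1 - p.1 + 1 = k
    omega

lemma Four.dropD_sub {k l : ℕ} {P : Finset (ℕ × ℕ)} (h : Four k l P) :
    dropD k l P ⊆ box2 k l := (Finset.filter_subset _ _).trans h.sub

lemma Four.dropA_sub {k l : ℕ} {P : Finset (ℕ × ℕ)} (h : Four k l P) :
    dropA k l P ⊆ box2 k l := (Finset.filter_subset _ _).trans h.sub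

lemma Four.spans {k l : ℕ} {P : Finset (ℕ × ℕ)} (h : Four k l P) :
    Spans2 k l (dropD k l P) := by
  have hk := h.hk
  have hl := h.hl
  obtain ⟨p, hp, p1, p2⟩ := h.ne
  obtain ⟨q, hq, q1, q2⟩ := h.sw
  have hp' : p ∈ dropD k l P := by
    rw [dropD, Finset.mem_filter]
    refine ⟨hp, ?_, ?_⟩ <;> omega
  have hq' : q ∈ dropD k l P := by
    rw [dropD, Finset.mem_filter]
    refine ⟨hq, ?_, ?_⟩ <;> omega
  exact ⟨⟨p, hp', p1⟩, ⟨q, hq', q1⟩, ⟨q, hq', q2⟩, ⟨p, hp', p2⟩⟩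

lemma Four.indec {k l : ℕ} {P : Finset (ℕ × ℕ)} (h : Four k l P) : Indec (dropD k l P) := by
  by_contra hI
  have hk := h.hk
  have hl := h.hl
  obtain ⟨p, hp, p1, p2⟩ := h.ne
  have hp' : p ∈ dropD k l P := by
    rw [dropD, Finset.mem_filter]
    refine ⟨hp, ?_, ?_⟩ <;> omega
  have hno := no_corner h.dropD_sub h.spans (by
    intro q hq h1 h2
    rw [dropD, Finset.mem_filter] at hq
    exact hq.2.1 ⟨h1, h2⟩) (by
    intro q hq h1 h2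
    rw [dropD, Finset.mem_filter] at hq
    exact hq.2.2 ⟨h1, h2⟩) hI
  exact hno.1 p hp' p1 p2

lemma Four.superD {k l : ℕ} {P : Finset (ℕ × ℕ)} (h : Four k l P) (a b a' b' : ℕ) :
    M2 a b k l (dropD k l P) + M2 a' b' k l (dropD k l P) ≤
      M2 (a + a') (b + b') k l (dropD k l P) :=
  M2_super h.spans h.indec

lemma Four.M2A {k l : ℕ} {P : Finset (ℕ × ℕ)} (h : Four k l P) (a b : ℕ) :
    M2 a b k l (dropA k l P) = M2 a b k l (dropD k l (Helper450IM.flp k P)) := by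
  rw [← flp_dropA h.sub, M2_flp h.dropA_sub]

lemma Four.superA {k l : ℕ} {P : Finset (ℕ × ℕ)} (h : Four k l P) (a b a' b' : ℕ) :
    M2 a b k l (dropA k l P) + M2 a' b' k l (dropA k l P) ≤
      M2 (a + a') (b + b') k l (dropA k l P) := by
  rw [h.M2A, h.M2A, h.M2A]
  exact h.flp.superD a b a' b'

lemma Four.monoD {k l : ℕ} {P : Finset (ℕ × ℕ)} (h : Four k l P) (a b a' b' : ℕ)
    (ha : a ≤ a') (hb : b ≤ b') : M2 a b k l (dropD k l P) ≤ M2 a' b' k l (dropD k l P) :=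
  M2_mono h.spans ha hb

lemma Four.monoA {k l : ℕ} {P : Finset (ℕ × ℕ)} (h : Four k l P) (a b a' b' : ℕ)
    (ha : a ≤ a') (hb : b ≤ b') : M2 a b k l (dropA k l P) ≤ M2 a' b' k l (dropA k l P) := by
  rw [h.M2A, h.M2A]
  exact h.flp.monoD a b a' b' ha hb

lemma Four.convD {k l : ℕ} {P : Finset (ℕ × ℕ)} (h : Four k l P) :
    Conv2 k l (dropD k l P) :=
  conv2_of_indec h.dropD_sub h.spans h.indec

lemma Four.convA {k l : ℕ} {P : Finset (ℕ × ℕ)} (h : Four k l P) :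
    Conv2 k l (dropA k l P) := by
  apply Conv2.of_flp h.dropA_sub
  rw [flp_dropA h.sub]
  exact h.flp.convD

/-- The main estimate for a matrix whose leftmost one is above its rightmost one. -/
lemma four_bound_aux {k l n : ℕ} {P S : Finset (ℕ × ℕ)} (h : Four k l P) {ρ : ℝ} (hρ : 0 ≤ ρ)
    (hf : ∀ N, (M2 N N k l (dropD k l P) : ℝ) ≤ ρ * N)
    (hg : ∀ N, (M2 N N k l (dropA k l P) : ℝ) ≤ ρ * N)
    (hS : S ⊆ box2 n n) (hE : ¬ Emb2 n n k l S P)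
    {T B L R : ℕ × ℕ} (hT : T ∈ S) (hB : B ∈ S) (hL : L ∈ S) (hR : R ∈ S)
    (eT : ∀ s ∈ S, T.1 ≤ s.1) (eB : ∀ s ∈ S, s.1 ≤ B.1) (eL : ∀ s ∈ S, L.2 ≤ s.2)
    (eR : ∀ s ∈ S, s.2 ≤ R.2) (hLR : L.1 ≤ R.1) : (S.card : ℝ) ≤ ρ * (3 * n + 3) := by
  refine cover_four hρ h.monoD h.monoA h.superD h.superA hf hg ?_ ?_ hS hT hB hL hR eT eB eL eR
    hLR
  · intro x₁ x₂ y₁ y₂ hx hxn hy hyn hu hv
    apply rect_card_le hE hx hxn hy hyn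
    intro p hp hpD
    rw [dropD, Finset.mem_filter] at hpD
    by_cases h1 : p.1 = 0 ∧ p.2 = 0
    · obtain ⟨u, hu, u1, u2⟩ := hu
      exact ⟨u, hu, Or.inl ⟨u1, h1.1⟩, Or.inl ⟨u2, h1.2⟩⟩
    · by_cases h2 : p.1 + 1 = k ∧ p.2 + 1 = l
      · obtain ⟨u, hu, u1, u2⟩ := hv
        exact ⟨u, hu, Or.inr ⟨u1, h2.1⟩, Or.inr ⟨u2, h2.2⟩⟩
      · exact absurd ⟨hp, h1, h2⟩ hpD
  · intro x₁ x₂ y₁ y₂ hx hxn hy hyn hu hv
    apply rect_card_le hE hx hxn hy hyn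
    intro p hp hpD
    rw [dropA, Finset.mem_filter] at hpD
    by_cases h1 : p.1 = 0 ∧ p.2 + 1 = l
    · obtain ⟨u, hu, u1, u2⟩ := hu
      exact ⟨u, hu, Or.inl ⟨u1, h1.1⟩, Or.inr ⟨u2, h1.2⟩⟩
    · by_cases h2 : p.1 + 1 = k ∧ p.2 = 0
      · obtain ⟨u, hu, u1, u2⟩ := hv
        exact ⟨u, hu, Or.inr ⟨u1, h2.1⟩, Or.inl ⟨u2, h2.2⟩⟩
      · exact absurd ⟨hp, h1, h2⟩ hpD

/-- the extreme ones of a nonempty matrix -/
lemma exists_extremes {S : Finset (ℕ × ℕ)} (h : S.Nonempty) :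
    ∃ T ∈ S, ∃ B ∈ S, ∃ L ∈ S, ∃ R ∈ S, (∀ s ∈ S, T.1 ≤ s.1) ∧ (∀ s ∈ S, s.1 ≤ B.1) ∧
      (∀ s ∈ S, L.2 ≤ s.2) ∧ (∀ s ∈ S, s.2 ≤ R.2) := by
  obtain ⟨T, hT, eT⟩ := Finset.exists_min_image S Prod.fst h
  obtain ⟨B, hB, eB⟩ := Finset.exists_max_image S Prod.fst h
  obtain ⟨L, hL, eL⟩ := Finset.exists_min_image S Prod.snd h
  obtain ⟨R, hR, eR⟩ := Finset.exists_max_image S Prod.snd h
  exact ⟨T, hT, B, hB, L, hL, R, hR, eT, eB, eL, eR⟩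

/-- The main estimate for patterns with four corner ones. -/
lemma four_bound {k l n : ℕ} {P S : Finset (ℕ × ℕ)} (h : Four k l P) {ρ : ℝ} (hρ : 0 ≤ ρ)
    (hf : ∀ N, (M2 N N k l (dropD k l P) : ℝ) ≤ ρ * N)
    (hg : ∀ N, (M2 N N k l (dropA k l P) : ℝ) ≤ ρ * N)
    (hS : S ⊆ box2 n n) (hE : ¬ Emb2 n n k l S P) : (S.card : ℝ) ≤ ρ * (3 * n + 3) := by
  classical
  rcases S.eq_empty_or_nonempty with h0 | h0
  · subst h0
    rw [Finset.card_empty, Nat.cast_zero]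
    positivity
  obtain ⟨T, hT, B, hB, L, hL, R, hR, eT, eB, eL, eR⟩ := exists_extremes h0
  rcases le_total L.1 R.1 with hLR | hLR
  · exact four_bound_aux h hρ hf hg hS hE hT hB hL hR eT eB eL eR hLR
  · rw [← card_flp hS]
    have hmem : ∀ s ∈ S, (n - 1 - s.1, s.2) ∈ flp n S := fun s hs =>
      Finset.mem_image_of_mem _ hs
    have hfl : ∀ s ∈ flp n S, ∃ s' ∈ S, s = (n - 1 - s'.1, s'.2) := by
      intro s hs
      obtain ⟨s', hs', rfl⟩ := Finset.mem_image.1 hs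
      exact ⟨s', hs', rfl⟩
    refine four_bound_aux h.flp hρ ?_ ?_ (flp_subset hS) ?_ (hmem B hB) (hmem T hT) (hmem L hL)
      (hmem R hR) ?_ ?_ ?_ ?_ ?_
    · intro N
      rw [← h.M2A]
      exact hg N
    · intro N
      rw [← flp_dropD h.sub, M2_flp h.dropD_sub]
      exact hf N
    · intro hcon
      apply hE
      have := emb2_flp (flp_subset hS) hcon
      rwa [flp_flp hS, flp_flp h.sub] at this
    · intro s hs
      obtain ⟨s', hs', rfl⟩ := hfl s hs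
      have := eB s' hs'
      show n - 1 - B.1 ≤ n - 1 - s'.1
      omega
    · intro s hs
      obtain ⟨s', hs', rfl⟩ := hfl s hs
      have := eT s' hs'
      show n - 1 - s'.1 ≤ n - 1 - T.1
      omega
    · intro s hs
      obtain ⟨s', hs', rfl⟩ := hfl s hs
      exact eL s' hs'
    · intro s hs
      obtain ⟨s', hs', rfl⟩ := hfl s hs
      exact eR s' hs'
    · show n - 1 - L.1 ≤ n - 1 - R.1
      omega

end Pool.Agent.Helper450IM
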