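import Pool.Agent.helper450_im.CutThree
import Pool.Agent.helper450_im.CutFour

/-!
# Bounds for the oscillation
-/

namespace Pool.Agent.Helper450IM

open Finset Filter Topology

/-- the sequence `u n / n` oscillates at most by the factor `K` in the limit -/
def OscSeq (K : ℝ) (u : ℕ → ℕ) : Prop :=
  ∃ C : ℝ, 0 ≤ C ∧ (∀ ε > 0, ∀ᶠ n : ℕ in atTop, C - ε ≤ (u n : ℝ) / n) ∧
    (∀ ε > 0, ∀ᶠ n : ℕ in atTop, (u n : ℝ) / n ≤ K * C + ε)

lemma OscSeq.mono {K K' : ℝ} {u : ℕ → ℕ} (h : OscSeq K u) (hK : K ≤ K') : OscSeq K' u := by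
  obtain ⟨C, hC, h1, h2⟩ := h
  refine ⟨C, hC, h1, fun ε hε => ?_⟩
  filter_upwards [h2 ε hε] with n hn
  have := mul_le_mul_of_nonneg_right hK hC
  linarith

lemma oscSeq_of_tendsto {u : ℕ → ℕ} {L : ℝ}
    (h : Tendsto (fun n : ℕ => (u n : ℝ) / n) atTop (𝓝 L)) : OscSeq 1 u := by
  refine ⟨L, ge_of_tendsto' h (fun n => by positivity), ?_, ?_⟩
  · intro ε hε
    filter_upwards [h.eventually (lt_mem_nhds (show L - ε < L by linarith))] with n hn
    exact hn.le
  · intro ε hε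
    filter_upwards [h.eventually (gt_mem_nhds (show L < 1 * L + ε by linarith))] with n hn
    exact hn.le

/-- oscillation in terms of sets of pairs -/
def Osc2 (K : ℝ) (k l : ℕ) (P : Finset (ℕ × ℕ)) : Prop := OscSeq K (fun n => M2 n n k l P)

lemma Osc2.of_swp {K : ℝ} {k l : ℕ} {P : Finset (ℕ × ℕ)} (h : Osc2 K l k (swp P)) :
    Osc2 K k l P := by
  have : (fun n => M2 n n l k (swp P)) = (fun n => M2 n n k l P) := by
    funext n
    rw [M2_swp]
  rw [Osc2, this] at h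
  exact h

lemma Osc2.of_flp {K : ℝ} {k l : ℕ} {P : Finset (ℕ × ℕ)} (hP : P ⊆ box2 k l)
    (h : Osc2 K k l (flp k P)) : Osc2 K k l P := by
  have : (fun n => M2 n n k l (flp k P)) = (fun n => M2 n n k l P) := by
    funext n
    rw [M2_flp hP]
  rw [Osc2, this] at h
  exact h

lemma Conv2.osc {k l : ℕ} {P : Finset (ℕ × ℕ)} (h : Conv2 k l P) : Osc2 1 k l P := by
  obtain ⟨L, hL⟩ := h
  exact oscSeq_of_tendsto hL

lemma tendsto_shift {q : ℕ → ℕ} {L : ℝ} (τ : ℕ)
    (h : Tendsto (fun n : ℕ => (q n : ℝ) / n) atTop (𝓝 L)) :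
    Tendsto (fun n : ℕ => (q (n - τ) : ℝ) / n) atTop (𝓝 L) := by
  have hratio : Tendsto (fun n : ℕ => (((n - τ : ℕ) : ℝ) / n)) atTop (𝓝 1) := by
    have h1 : Tendsto (fun n : ℕ => 1 - (τ : ℝ) / n) atTop (𝓝 (1 - 0)) :=
      tendsto_const_nhds.sub (tendsto_const_div_atTop_nhds_zero_nat _)
    rw [sub_zero] at h1
    refine h1.congr' ?_
    filter_upwards [eventually_gt_atTop 0, eventually_ge_atTop τ] with n hn hnR
    have hn' : (n : ℝ) ≠ 0 := by positivity
    rw [Nat.cast_sub hnR]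
    field_simp
  have h1 : Tendsto (fun n : ℕ => (q (n - τ) : ℝ) / ((n - τ : ℕ) : ℝ)) atTop (𝓝 L) :=
    h.comp (tendsto_sub_atTop_nat τ)
  have h2 := h1.mul hratio
  rw [mul_one] at h2
  refine h2.congr' ?_
  filter_upwards [eventually_gt_atTop τ] with n hn
  have hn2 : (((n - τ : ℕ)) : ℝ) ≠ 0 := by
    have : 0 < n - τ := by omega
    positivity
  field_simp

/-- the case in which all rows but the first `k'` have ones only in the first column -/
theorem osc_three_row {k l k' : ℕ} {P : Finset (ℕ × ℕ)} (hP : P ⊆ box2 k l) (hk' : 2 ≤ k')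
    (hkk : k' ≤ k) (hl : 2 ≤ l) (hNW : ∃ p ∈ P, p.1 = 0 ∧ p.2 = 0)
    (hNE : ∃ p ∈ P, p.1 = 0 ∧ p.2 + 1 = l) (hSW : ∃ p ∈ P, p.1 + 1 = k ∧ p.2 = 0)
    (hSE : ∀ p ∈ P, p.1 + 1 = k → p.2 + 1 ≠ l) (htail : ∀ p ∈ P, k' ≤ p.1 → p.2 = 0)
    (hrow : ∃ p ∈ P, p.1 + 1 = k' ∧ p.2 ≠ 0) (hSE' : ∀ p ∈ P, p.1 + 1 = k' → p.2 + 1 ≠ l) :
    Osc2 2 k l P := by
  classical
  obtain ⟨a, ha, a1, a2⟩ := hNW
  obtain ⟨b, hb, b1, b2⟩ := hNE
  obtain ⟨c, hc, c1, c2⟩ := hSW
  obtain ⟨e, he, e1, e2⟩ := hrow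
  have haQ : a ∈ top' k' P := by
    rw [top', Finset.mem_filter]
    refine ⟨ha, ?_, ?_⟩ <;> omega
  have hbQ : b ∈ top' k' P := by
    rw [top', Finset.mem_filter]
    refine ⟨hb, ?_, ?_⟩ <;> omega
  have heQ : e ∈ top' k' P := by
    rw [top', Finset.mem_filter]
    refine ⟨he, ?_, ?_⟩ <;> omega
  have hbD : b ∈ dropNW P := by
    rw [dropNW, Finset.mem_filter]
    refine ⟨hb, ?_⟩
    omega
  have hcD : c ∈ dropNW P := by
    rw [dropNW, Finset.mem_filter]
    refine ⟨hc, ?_⟩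
    omega
  have hQ : Spans2 k' l (top' k' P) :=
    ⟨⟨a, haQ, a1⟩, ⟨e, heQ, e1⟩, ⟨a, haQ, a2⟩, ⟨b, hbQ, b2⟩⟩
  have hD : Spans2 k l (dropNW P) :=
    ⟨⟨b, hbD, b1⟩, ⟨c, hcD, c1⟩, ⟨c, hcD, c2⟩, ⟨b, hbD, b2⟩⟩
  have hQbox : top' k' P ⊆ box2 k' l := by
    intro p hp
    rw [top', Finset.mem_filter] at hp
    have := mem_box2.1 (hP hp.1)
    rw [mem_box2]
    exact ⟨hp.2.1, this.2⟩
  have hDP : dropNW P ⊆ P := Finset.filter_subset _ _
  obtain ⟨LQ, hLQ⟩ : Conv2 k' l (top' k' P) := by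
    have ha0 : a = (0, 0) := by ext <;> assumption
    rw [ha0] at haQ
    refine conv2_top hQ hQbox haQ ⟨b, hbQ, b1, b2⟩ ?_ ?_
    · intro p hp h1 h2
      rw [top', Finset.mem_filter] at hp
      exact hp.2.2 ⟨h1, h2⟩
    · intro p hp
      rw [top', Finset.mem_filter] at hp
      exact hSE' p hp.1
  obtain ⟨LD, hLD⟩ : Conv2 k l (dropNW P) := by
    refine conv2_of_diag (hDP.trans hP) hD ?_ (fun p hp => hSE p (hDP hp))
    intro p hp h1 h2
    rw [dropNW, Finset.mem_filter] at hp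
    exact hp.2 ⟨h1, h2⟩
  set τ := k - k' with hτ
  have hupper : ∀ n, M2 n n k l P ≤
      τ * n + M2 n n k' l (top' k' P) + M2 n n k l (dropNW P) := by
    intro n
    apply M2_le
    intro S hS hE
    exact three_bound hS hE (by omega) hkk hP htail hQ hD
  have hlow1 : ∀ n, M2 n n k l (dropNW P) ≤ M2 n n k l P := fun n => M2_anti hDP
  have hlow2 : ∀ n, τ ≤ n → τ * n + M2 (n - τ) (n - τ) k' l (top' k' P) ≤ M2 n n k l P := by
    intro n hn
    have h1 := add_rows (t := n - τ) (w := n) (k' := k') (l := l) (τ := τ) (P := P)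
      (Q := top' k' P) (by omega) (by
        intro q hq
        rw [top', Finset.mem_filter] at hq
        exact ⟨hq.1, hq.2.1⟩) ⟨a, haQ⟩
    have h2 : M2 (n - τ) (n - τ) k' l (top' k' P) ≤ M2 (n - τ) n k' l (top' k' P) :=
      M2_mono hQ le_rfl (by omega)
    have h3 : n - τ + τ = n := by omega
    have h4 : k' + τ = k := by omega
    rw [h3, h4] at h1
    omega
  have hLQ0 : 0 ≤ LQ := ge_of_tendsto' hLQ (fun n => by positivity)
  refine ⟨max LD (τ + LQ), le_max_of_le_right (by positivity), ?_, ?_⟩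
  · intro ε hε
    have hshift := tendsto_shift τ hLQ
    filter_upwards [hLD.eventually (lt_mem_nhds (show LD - ε < LD by linarith)),
      hshift.eventually (lt_mem_nhds (show LQ - ε < LQ by linarith)),
      eventually_gt_atTop 0, eventually_ge_atTop τ] with n h1 h2 hn hnτ
    have hnR : (0 : ℝ) < n := by exact_mod_cast hn
    rw [sub_le_iff_le_add]
    apply max_le
    · have h3 : (M2 n n k l (dropNW P) : ℝ) / n ≤ (M2 n n k l P : ℝ) / n := by
        apply div_le_div_of_nonneg_right _ hnR.le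
        exact_mod_cast hlow1 n
      linarith
    · have h3 : (τ : ℝ) + (M2 (n - τ) (n - τ) k' l (top' k' P) : ℝ) / n ≤
          (M2 n n k l P : ℝ) / n := by
        rw [le_div_iff₀ hnR, add_mul, div_mul_cancel₀ _ hnR.ne']
        exact_mod_cast hlow2 n hnτ
      linarith
  · intro ε hε
    filter_upwards [hLD.eventually (gt_mem_nhds (show LD < LD + ε / 2 by linarith)),
      hLQ.eventually (gt_mem_nhds (show LQ < LQ + ε / 2 by linarith)),
      eventually_gt_atTop 0] with n h1 h2 hn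
    have hnR : (0 : ℝ) < n := by exact_mod_cast hn
    have h3 : (M2 n n k l P : ℝ) / n ≤ τ + (M2 n n k' l (top' k' P) : ℝ) / n +
        (M2 n n k l (dropNW P) : ℝ) / n := by
      rw [div_le_iff₀ hnR, add_mul, add_mul, div_mul_cancel₀ _ hnR.ne',
        div_mul_cancel₀ _ hnR.ne']
      exact_mod_cast hupper n
    have h4 := le_max_left LD ((τ : ℝ) + LQ)
    have h5 := le_max_right LD ((τ : ℝ) + LQ)
    linarith

/-- Patterns with three corner ones, the lower right one being absent. -/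
theorem osc_three {k l : ℕ} {P : Finset (ℕ × ℕ)} (hP : P ⊆ box2 k l) (hk : 2 ≤ k) (hl : 2 ≤ l)
    (hNW : ∃ p ∈ P, p.1 = 0 ∧ p.2 = 0) (hNE : ∃ p ∈ P, p.1 = 0 ∧ p.2 + 1 = l)
    (hSW : ∃ p ∈ P, p.1 + 1 = k ∧ p.2 = 0) (hSE : ∀ p ∈ P, p.1 + 1 = k → p.2 + 1 ≠ l) :
    Osc2 2 k l P := by
  classical
  obtain ⟨a, ha, a1, a2⟩ := id hNW
  obtain ⟨b, hb, b1, b2⟩ := id hNE
  obtain ⟨c, hc, c1, c2⟩ := id hSW
  have hne : (P.filter (fun p => p.2 ≠ 0)).Nonempty :=
    ⟨b, Finset.mem_filter.2 ⟨hb, by omega⟩⟩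
  obtain ⟨q, hq, hqmax⟩ := Finset.exists_max_image _ Prod.fst hne
  rw [Finset.mem_filter] at hq
  have hmax : ∀ p ∈ P, q.1 < p.1 → p.2 = 0 := by
    intro p hp h1
    by_contra h2
    have := hqmax p (Finset.mem_filter.2 ⟨hp, h2⟩)
    omega
  have hqk := mem_box2.1 (hP hq.1)
  rcases Nat.eq_zero_or_pos q.1 with h0 | h0
  · -- a hook
    apply OscSeq.mono _ (by norm_num : (1 : ℝ) ≤ 2)
    apply Conv2.osc
    apply conv2_of_cross (a := 0) (b := 0) hP ⟨⟨a, ha, a1⟩, ⟨c, hc, c1⟩, ⟨a, ha, a2⟩,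
      ⟨b, hb, b2⟩⟩ (by omega) (by omega)
    intro x hx
    by_cases h1 : x.1 = 0
    · exact Or.inl h1
    · exact Or.inr (hmax x hx (by omega))
  · by_cases hse : ∃ p ∈ P, p.1 = q.1 ∧ p.2 + 1 = l
    · obtain ⟨r, hr, r1, r2⟩ := hse
      apply Osc2.of_swp
      refine osc_three_row (k' := l) (swp_subset hP) hl le_rfl hk ?_ ?_ ?_ ?_ ?_ ?_ ?_
      · exact ⟨a.swap, mem_swp.2 (by rwa [Prod.swap_swap]), a2, a1⟩
      · exact ⟨c.swap, mem_swp.2 (by rwa [Prod.swap_swap]), c2, c1⟩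
      · exact ⟨b.swap, mem_swp.2 (by rwa [Prod.swap_swap]), b2, b1⟩
      · intro p hp h1 h2
        exact hSE p.swap (mem_swp.1 hp) h2 h1
      · intro p hp h1
        exfalso
        have := mem_box2.1 (swp_subset hP hp)
        omega
      · refine ⟨r.swap, mem_swp.2 (by rwa [Prod.swap_swap]), r2, ?_⟩
        show r.1 ≠ 0
        omega
      · intro p hp h1 h2
        exact hSE p.swap (mem_swp.1 hp) h2 h1
    · refine osc_three_row (k' := q.1 + 1) hP (by omega) (by omega) hl hNW hNE hSW hSE ?_ ?_ ?_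
      · intro p hp h1
        exact hmax p hp (by omega)
      · exact ⟨q, hq.1, rfl, hq.2⟩
      · intro p hp h1 h2
        exact hse ⟨p, hp, by omega, h2⟩

/-- Patterns with four corner ones. -/
theorem osc_four {k l : ℕ} {P : Finset (ℕ × ℕ)} (h : Four k l P) : Osc2 3 k l P := by
  obtain ⟨LD, hLD⟩ := h.convD
  obtain ⟨LA, hLA⟩ := h.convA
  have hLD0 : 0 ≤ LD := ge_of_tendsto' hLD (fun n => by positivity)
  have hDP : dropD k l P ⊆ P := Finset.filter_subset _ _
  have hAP : dropA k l P ⊆ P := Finset.filter_subset _ _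
  have hρ : 0 ≤ max LD LA := le_max_of_le_left hLD0
  have hf : ∀ N, (M2 N N k l (dropD k l P) : ℝ) ≤ max LD LA * N := by
    intro N
    have h1 := le_slope (u := fun n => M2 n n k l (dropD k l P))
      (fun a b => h.superD a a b b) hLD N
    refine h1.trans ?_
    exact mul_le_mul_of_nonneg_right (le_max_left _ _) (by positivity)
  have hg : ∀ N, (M2 N N k l (dropA k l P) : ℝ) ≤ max LD LA * N := by
    intro N
    have h1 := le_slope (u := fun n => M2 n n k l (dropA k l P))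
      (fun a b => h.superA a a b b) hLA N
    refine h1.trans ?_
    exact mul_le_mul_of_nonneg_right (le_max_right _ _) (by positivity)
  obtain ⟨a, ha, _, _⟩ := h.nw
  have hupper : ∀ n, (M2 n n k l P : ℝ) ≤ max LD LA * (3 * n + 3) := by
    intro n
    obtain ⟨S, hS, hE, hc⟩ := exists_M2 n n k l ⟨a, ha⟩
    rw [← hc]
    exact four_bound h hρ hf hg hS hE
  refine ⟨max LD LA, hρ, ?_, ?_⟩
  · intro ε hε
    filter_upwards [hLD.eventually (lt_mem_nhds (show LD - ε < LD by linarith)),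
      hLA.eventually (lt_mem_nhds (show LA - ε < LA by linarith))] with n h1 h2
    have h3 : (M2 n n k l (dropD k l P) : ℝ) / n ≤ (M2 n n k l P : ℝ) / n := by
      apply div_le_div_of_nonneg_right _ (by positivity)
      exact_mod_cast M2_anti hDP
    have h4 : (M2 n n k l (dropA k l P) : ℝ) / n ≤ (M2 n n k l P : ℝ) / n := by
      apply div_le_div_of_nonneg_right _ (by positivity)
      exact_mod_cast M2_anti hAP
    rw [sub_le_iff_le_add]
    apply max_le
    · linarith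
    · linarith
  · intro ε hε
    obtain ⟨N, hN⟩ := exists_nat_gt (3 * max LD LA / ε)
    filter_upwards [eventually_gt_atTop N] with n hn
    have hnR : (0 : ℝ) < n := by
      have : 0 < n := by omega
      exact_mod_cast this
    have h1 := hupper n
    rw [div_le_iff₀ hnR]
    have h2 : (N : ℝ) < n := by exact_mod_cast hn
    rw [div_lt_iff₀ hε] at hN
    nlinarith

end Pool.Agent.Helper450IM
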