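import Pool.Agent.helper450_im.Cut

/-!
# Patterns with three corner ones
-/

namespace Pool.Agent.Helper450IM

open Finset Filter Topology

/-- the `τ`-th largest element -/
lemma exists_rank (τ : ℕ) : ∀ R : Finset ℕ, τ < R.card →
    ∃ r ∈ R, (R.filter (fun i => r < i)).card = τ := by
  classical
  induction τ with
  | zero =>
    intro R hR
    have hne : R.Nonempty := Finset.card_pos.1 hR
    refine ⟨R.max' hne, Finset.max'_mem _ _, ?_⟩
    rw [Finset.card_eq_zero, Finset.filter_eq_empty_iff]
    intro i hi
    have := Finset.le_max' R i hi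
    omega
  | succ τ ih =>
    intro R hR
    have hne : R.Nonempty := Finset.card_pos.1 (by omega)
    have hmax := Finset.max'_mem R hne
    have hc : (R.erase (R.max' hne)).card = R.card - 1 := Finset.card_erase_of_mem hmax
    obtain ⟨r, hr, hr'⟩ := ih (R.erase (R.max' hne)) (by omega)
    rw [Finset.mem_erase] at hr
    refine ⟨r, hr.2, ?_⟩
    have hlt : r < R.max' hne := lt_of_le_of_ne (Finset.le_max' R r hr.2) hr.1
    have : R.filter (fun i => r < i) =
        insert (R.max' hne) ((R.erase (R.max' hne)).filter (fun i => r < i)) := by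
      ext i
      simp only [Finset.mem_filter, Finset.mem_insert, Finset.mem_erase]
      constructor
      · rintro ⟨h1, h2⟩
        by_cases h3 : i = R.max' hne
        · exact Or.inl h3
        · exact Or.inr ⟨⟨h3, h1⟩, h2⟩
      · rintro (h1 | h1)
        · rw [h1]
          exact ⟨hmax, hlt⟩
        · exact ⟨h1.1.2, h1.2⟩
    rw [this, Finset.card_insert_of_notMem, hr']
    simp

/-- the first `k'` rows of the pattern without the one in their lower left corner -/
def top' (k' : ℕ) (P : Finset (ℕ × ℕ)) : Finset (ℕ × ℕ) :=
  P.filter (fun p => p.1 < k' ∧ ¬ (p.1 + 1 = k' ∧ p.2 = 0))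

/-- the pattern without its upper left corner one -/
def dropNW (P : Finset (ℕ × ℕ)) : Finset (ℕ × ℕ) := P.filter (fun p => ¬ (p.1 = 0 ∧ p.2 = 0))

/-- Upper bound for patterns whose last rows have ones only in the first column. -/
theorem three_bound {t w k k' l : ℕ} {S P : Finset (ℕ × ℕ)} (hS : S ⊆ box2 t w)
    (hE : ¬ Emb2 t w k l S P) (hk' : 0 < k') (hkk : k' ≤ k) (hP : P ⊆ box2 k l)
    (htail : ∀ p ∈ P, k' ≤ p.1 → p.2 = 0) (hQ : Spans2 k' l (top' k' P))
    (hD : Spans2 k l (dropNW P)) :
    S.card ≤ (k - k') * w + M2 t w k' l (top' k' P) + M2 t w k l (dropNW P) := by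
  classical
  set τ := k - k' with hτ
  set rows : ℕ → Finset ℕ := fun c => (S.filter (fun s => s.2 ≤ c)).image Prod.fst with hrows
  have hmemrows : ∀ c i, i ∈ rows c ↔ ∃ s ∈ S, s.2 ≤ c ∧ s.1 = i := by
    intro c i
    rw [hrows]
    simp only [Finset.mem_image, Finset.mem_filter]
    constructor
    · rintro ⟨s, ⟨h1, h2⟩, h3⟩
      exact ⟨s, h1, h2, h3⟩
    · rintro ⟨s, h1, h2, h3⟩
      exact ⟨s, ⟨h1, h2⟩, h3⟩
  -- few nonempty rows
  have hfew : ∀ c, (rows c).card ≤ τ → (S.filter (fun s => s.2 < c + 1)).card ≤ τ * (c + 1) := by
    intro c hc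
    have h1 : S.filter (fun s => s.2 < c + 1) ⊆ rows c ×ˢ Finset.range (c + 1) := by
      intro s hs
      rw [Finset.mem_filter] at hs
      rw [Finset.mem_product, hmemrows, Finset.mem_range]
      exact ⟨⟨s, hs.1, by omega, rfl⟩, hs.2⟩
    refine (Finset.card_le_card h1).trans ?_
    rw [Finset.card_product, Finset.card_range]
    exact Nat.mul_le_mul_right _ hc
  by_cases hsmall : ∀ c, (rows c).card ≤ τ
  · rcases Nat.eq_zero_or_pos w with hw | hw
    · have : S = ∅ := by
        rw [Finset.eq_empty_iff_forall_notMem]
        intro s hs
        have := mem_box2.1 (hS hs)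
        omega
      rw [this]
      simp
    · have h1 := hfew (w - 1) (hsmall _)
      have h2 : w - 1 + 1 = w := by omega
      rw [h2] at h1
      have h3 : S.filter (fun s => s.2 < w) = S := by
        rw [Finset.filter_eq_self]
        intro s hs
        exact (mem_box2.1 (hS hs)).2
      rw [h3] at h1
      omega
  push Not at hsmall
  -- the first column index with more than `τ` nonempty rows to the left of it
  set c := Nat.find hsmall with hc
  have hc1 : τ < (rows c).card := Nat.find_spec hsmall
  have hcmin : ∀ j, j < c → (rows j).card ≤ τ := by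
    intro j hj
    have := Nat.find_min hsmall hj
    push Not at this
    exact this
  obtain ⟨r, hr, hrank⟩ := exists_rank τ (rows c) hc1
  obtain ⟨e, he, he2, he1⟩ := (hmemrows c r).1 hr
  have hrt : r < t := by rw [← he1]; exact (mem_box2.1 (hS he)).1
  have hcw : c < w := by
    by_contra hcon
    push Not at hcon
    rcases Nat.eq_zero_or_pos c with h0 | h0
    · have := (mem_box2.1 (hS he)).2
      omega
    · have h1 : rows (c - 1) = rows c := by
        ext i
        rw [hmemrows, hmemrows]
        constructor
        · rintro ⟨s, h1, h2, h3⟩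
          exact ⟨s, h1, by omega, h3⟩
        · rintro ⟨s, h1, h2, h3⟩
          have := (mem_box2.1 (hS h1)).2
          exact ⟨s, h1, by omega, h3⟩
      have h2 := hcmin (c - 1) (by omega)
      rw [h1] at h2
      omega
  -- the strip to the left of column `c`
  have hstrip : (S.filter (fun s => s.2 < c)).card ≤ τ * w := by
    rcases Nat.eq_zero_or_pos c with h0 | h0
    · have : S.filter (fun s => s.2 < c) = ∅ := by
        rw [Finset.filter_eq_empty_iff]
        intro s _
        omega
      rw [this]
      simp
    · have h1 := hfew (c - 1) (hcmin _ (by omega))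
      have h2 : c - 1 + 1 = c := by omega
      rw [h2] at h1
      exact h1.trans (Nat.mul_le_mul_left _ hcw.le)
  -- the lower part
  have hlow : (rect S r (t - 1) c (w - 1)).card ≤ M2 t w k l (dropNW P) := by
    have h1 := rect_card_le (Q := dropNW P) (x₁ := r) (x₂ := t - 1) (y₁ := c) (y₂ := w - 1) hE
      (by omega) (by omega) (by omega) (by omega) (by
        intro p hp hpD
        rw [dropNW, Finset.mem_filter] at hpD
        have h2 : p.1 = 0 ∧ p.2 = 0 := by
          by_contra hcon
          exact hpD ⟨hp, hcon⟩
        exact ⟨e, he, Or.inl ⟨by omega, h2.1⟩, Or.inl ⟨by omega, h2.2⟩⟩)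
    exact h1.trans (M2_mono hD (by omega) (by omega))
  -- the upper part
  have hupp : (rect S 0 r c (w - 1)).card ≤ M2 t w k' l (top' k' P) := by
    have hcard : ((rect S 0 r c (w - 1)).image (fun s => (s.1, s.2 - c))).card =
        (rect S 0 r c (w - 1)).card := by
      apply Finset.card_image_of_injOn
      intro a ha b hb hab
      rw [Finset.mem_coe, mem_rect] at ha hb
      simp only [Prod.mk.injEq] at hab
      ext <;> omega
    rw [← hcard]
    refine le_trans (le_M2 (t := r + 1) (w := w - c) ?_ ?_) (M2_mono hQ (by omega) (by omega))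
    · intro x hx'
      obtain ⟨s, hs, rfl⟩ := Finset.mem_image.1 hx'
      rw [mem_rect] at hs
      rw [mem_box2]
      show s.1 < r + 1 ∧ s.2 - c < w - c
      omega
    · rintro ⟨φ, ψ, hφ, hψ, hemb⟩
      apply hE
      have hl : 0 < l := by have := hψ.lt 0 (by omega); omega
      set cnt : ℕ → Finset ℕ := fun i => (rows c).filter (fun ρ => r < ρ ∧ ρ ≤ i) with hcnt
      have hcntmono : ∀ i j, i ≤ j → (cnt i).card ≤ (cnt j).card := by
        intro i j hij
        apply Finset.card_le_card
        intro ρ hρ
        rw [hcnt, Finset.mem_filter] at hρ ⊢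
        exact ⟨hρ.1, hρ.2.1, by omega⟩
      have hcnt0 : ∀ i, i ≤ r → (cnt i).card = 0 := by
        intro i hi
        rw [Finset.card_eq_zero, hcnt, Finset.filter_eq_empty_iff]
        intro ρ _
        omega
      have hcntstep : ∀ i, (cnt (i + 1)).card ≤ (cnt i).card + 1 := by
        intro i
        have h1 : cnt (i + 1) ⊆ insert (i + 1) (cnt i) := by
          intro ρ hρ
          rw [hcnt, Finset.mem_filter] at hρ
          rw [Finset.mem_insert, hcnt, Finset.mem_filter]
          by_cases h2 : ρ = i + 1
          · exact Or.inl h2
          · exact Or.inr ⟨hρ.1, hρ.2.1, by omega⟩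
        exact (Finset.card_le_card h1).trans (Finset.card_insert_le _ _)
      have hcntlast : (cnt (t - 1)).card = τ := by
        rw [← hrank, hcnt]
        congr 1
        apply Finset.filter_congr
        intro ρ hρ
        obtain ⟨s, hs, _, hs1⟩ := (hmemrows c ρ).1 hρ
        have := (mem_box2.1 (hS hs)).1
        constructor
        · exact fun h => h.1
        · intro h
          exact ⟨h, by omega⟩
      have hφr : φ r + 1 = k' := by
        have := hφ.last (by omega)
        have h2 : r + 1 - 1 = r := by omega
        rwa [h2] at this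
      have honto : Onto t k (fun i => φ (min i r) + (cnt i).card) := by
        have hmono : Monotone (fun i => φ (min i r) + (cnt i).card) := by
          intro i j hij
          have h1 := hφ.mono (show min i r ≤ min j r by omega)
          have h2 := hcntmono i j hij
          show φ (min i r) + (cnt i).card ≤ φ (min j r) + (cnt j).card
          omega
        have hlast : φ (min (t - 1) r) + (cnt (t - 1)).card + 1 = k := by
          have : min (t - 1) r = r := by omega
          rw [this, hcntlast]
          omega
        refine onto_of_steps hmono ?_ ?_ ⟨t - 1, by omega, hlast⟩ ?_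
        · show φ (min 0 r) + (cnt 0).card = 0
          rw [hcnt0 0 (Nat.zero_le _), Nat.zero_min, hφ.zero hk']
        · intro i hi
          show φ (min (i + 1) r) + (cnt (i + 1)).card ≤ φ (min i r) + (cnt i).card + 1
          rcases Nat.lt_or_ge i r with h1 | h1
          · have h2 : min (i + 1) r = i + 1 := by omega
            have h3 : min i r = i := by omega
            rw [h2, h3, hcnt0 (i + 1) (by omega)]
            have := hφ.succ_le i (by omega)
            omega
          · have h2 : min (i + 1) r = r := by omega
            have h3 : min i r = r := by omega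
            rw [h2, h3]
            have := hcntstep i
            omega
        · intro i hi
          have h1 : φ (min i r) + (cnt i).card ≤ φ (min (t - 1) r) + (cnt (t - 1)).card :=
            hmono (show i ≤ t - 1 by omega)
          show φ (min i r) + (cnt i).card < k
          omega
      refine ⟨_, _, honto, onto_window (x₁ := c) (x₂ := w - 1) (t := w) (k := l) (φ := ψ)
        (hψ.congr (by omega) rfl) (by omega) (by omega), ?_⟩
      intro p hp
      -- ones in the first column
      have hcol : ∀ ρ ∈ rows c, φ (min ρ r) + (cnt ρ).card = p.1 → p.2 = 0 →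
          ∃ s ∈ S, φ (min s.1 r) + (cnt s.1).card = p.1 ∧
            ψ (min (s.2 - c) (w - 1 - c)) = p.2 := by
        intro ρ hρ h1 h2
        obtain ⟨s, hs, hs2, hs1⟩ := (hmemrows c ρ).1 hρ
        refine ⟨s, hs, by rw [hs1]; exact h1, ?_⟩
        have : min (s.2 - c) (w - 1 - c) = 0 := by omega
        rw [this, hψ.zero hl, h2]
      by_cases hpQ : p ∈ top' k' P
      · obtain ⟨s', hs', h1, h2⟩ := hemb p hpQ
        obtain ⟨s, hs, rfl⟩ := Finset.mem_image.1 hs'
        rw [mem_rect] at hs
        refine ⟨s, hs.1, ?_, ?_⟩
        · show φ (min s.1 r) + (cnt s.1).card = p.1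
          have h3 : min s.1 r = s.1 := by omega
          rw [h3, hcnt0 s.1 (by omega)]
          exact h1
        · show ψ (min (s.2 - c) (w - 1 - c)) = p.2
          have h3 : min (s.2 - c) (w - 1 - c) = s.2 - c := by omega
          rw [h3]
          exact h2
      · rw [top', Finset.mem_filter] at hpQ
        rcases Nat.lt_or_ge p.1 k' with hlt | hge
        · have h1 : p.1 + 1 = k' ∧ p.2 = 0 := by
            by_contra hcon
            exact hpQ ⟨hp, hlt, hcon⟩
          apply hcol r hr _ h1.2
          have h3 : min r r = r := by omega
          rw [h3, hcnt0 r le_rfl]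
          omega
        · have hp2 := htail p hp hge
          have hpk := (mem_box2.1 (hP hp)).1
          obtain ⟨i, hi, hi'⟩ := honto.surj p.1 hpk
          have hir : r < i := by
            by_contra hcon
            push Not at hcon
            rw [hcnt0 i hcon] at hi'
            have h4 := hφ.mono (show min i r ≤ r by omega)
            omega
          have h5 : min i r = r := by omega
          have hne : (cnt i).Nonempty := by
            rw [← Finset.card_pos]
            rw [h5] at hi'
            omega
          have hmax := Finset.max'_mem (cnt i) hne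
          set ρ := (cnt i).max' hne with hρdef
          have hρ' := hmax
          rw [hcnt, Finset.mem_filter] at hρ'
          have heq : cnt ρ = cnt i := by
            ext σ
            constructor
            · intro hσ
              rw [hcnt, Finset.mem_filter] at hσ ⊢
              exact ⟨hσ.1, hσ.2.1, by omega⟩
            · intro hσ
              have h6 := Finset.le_max' (cnt i) σ hσ
              rw [← hρdef] at h6
              rw [hcnt, Finset.mem_filter] at hσ ⊢
              exact ⟨hσ.1, hσ.2.1, h6⟩
          apply hcol ρ hρ'.1 _ hp2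
          have h7 : min ρ r = r := by omega
          rw [h7, heq]
          rw [h5] at hi'
          exact hi'
  -- summing up
  have hcov : S ⊆ (S.filter (fun s => s.2 < c) ∪ rect S 0 r c (w - 1)) ∪
      rect S r (t - 1) c (w - 1) := by
    intro s hs
    have := mem_box2.1 (hS hs)
    simp only [Finset.mem_union, mem_rect, Finset.mem_filter, hs, true_and]
    omega
  have h1 := Finset.card_le_card hcov
  have h2 := Finset.card_union_le (S.filter (fun s => s.2 < c) ∪ rect S 0 r c (w - 1))
    (rect S r (t - 1) c (w - 1))
  have h3 := Finset.card_union_le (S.filter (fun s => s.2 < c)) (rect S 0 r c (w - 1))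
  omega

/-- adding full rows at the bottom -/
theorem add_rows {t w k' l τ : ℕ} {P Q : Finset (ℕ × ℕ)} (hk' : 0 < k')
    (hQP : ∀ q ∈ Q, q ∈ P ∧ q.1 < k') (hQ : Q.Nonempty) :
    τ * w + M2 t w k' l Q ≤ M2 (t + τ) w (k' + τ) l P := by
  classical
  obtain ⟨S, hS, hE, hc⟩ := exists_M2 t w k' l hQ
  set F := (box2 (t + τ) w).filter (fun s => t ≤ s.1) with hF
  have hFcard : F.card = τ * w := by
    have : F = (Finset.Ico t (t + τ)) ×ˢ Finset.range w := by
      ext s
      rw [hF, Finset.mem_filter, mem_box2, Finset.mem_product, Finset.mem_Ico, Finset.mem_range]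
      omega
    rw [this, Finset.card_product, Nat.card_Ico, Finset.card_range]
    congr 1
    omega
  have hdisj : Disjoint F S := by
    rw [Finset.disjoint_left]
    intro s hs hs'
    rw [hF, Finset.mem_filter] at hs
    have := mem_box2.1 (hS hs')
    omega
  rw [← hc, ← hFcard, ← Finset.card_union_of_disjoint hdisj]
  apply le_M2
  · apply Finset.union_subset
    · exact Finset.filter_subset _ _
    · exact hS.trans (box2_mono (by omega) (by omega))
  · rintro ⟨φ, ψ, hφ, hψ, hP⟩
    apply hE
    have hpos : 0 < t := by
      rcases Nat.eq_zero_or_pos t with h0 | h0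
      · exfalso
        have := hφ.k_le
        omega
      · exact h0
    have hlast := hφ.last (by omega)
    have hadd : ∀ i, i < t + τ → k' + i ≤ φ i + t := by
      intro i hi
      have := hφ.ge i hi
      omega
    refine ⟨fun i => min (φ i) (k' - 1), ψ, ⟨?_, ?_, ?_⟩, hψ, ?_⟩
    · intro i j hij
      have := hφ.mono hij
      show min (φ i) (k' - 1) ≤ min (φ j) (k' - 1)
      omega
    · intro i _
      show min (φ i) (k' - 1) < k'
      omega
    · intro j hj
      obtain ⟨i, hi, hi'⟩ := hφ.surj j (by omega)
      have h1 := hadd i hi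
      refine ⟨i, by omega, ?_⟩
      show min (φ i) (k' - 1) = j
      omega
    · intro q hq
      obtain ⟨hqP, hqk⟩ := hQP q hq
      obtain ⟨s, hs, hs1, hs2⟩ := hP q hqP
      rcases Finset.mem_union.1 hs with hs | hs
      · exfalso
        rw [hF, Finset.mem_filter, mem_box2] at hs
        have h1 := hadd s.1 hs.1.1
        omega
      · refine ⟨s, hs, ?_, hs2⟩
        show min (φ s.1) (k' - 1) = q.1
        omega

end Pool.Agent.Helper450IM
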