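import Pool.Agent.helper450_im.Peel

/-!
# The frame value: lower bound for every nonzero pattern, upper bound for three-level patterns
-/

namespace Pool.Agent.Helper450IM

open Finset

section

variable {d : ℕ}

/-! ## Lower bound -/

/-- the inner box removed from the full box -/
def inner (n k p : Fin d → ℕ) : Finset (Fin d → ℕ) :=
  Fintype.piFinset (fun ℓ => Finset.Ico (p ℓ) (n ℓ + 1 + p ℓ - k ℓ))

lemma card_inner (n k p : Fin d → ℕ) :
    (inner n k p).card = ∏ ℓ, (n ℓ + 1 - k ℓ) := by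
  simp only [inner, Fintype.card_piFinset, Nat.card_Ico]
  apply Finset.prod_congr rfl
  intro ℓ _
  omega

lemma inner_subset {n k p : Fin d → ℕ} (hp : ∀ ℓ, p ℓ < k ℓ) : inner n k p ⊆ box n := by
  intro x hx
  simp only [inner, Fintype.mem_piFinset, Finset.mem_Ico] at hx
  rw [mem_box]
  intro ℓ
  have := hx ℓ
  have := hp ℓ
  omega

lemma frame_avoids {n k p : Fin d → ℕ} {P : Finset (Fin d → ℕ)} (hp : p ∈ P) :
    ¬ Emb n k (box n \ inner n k p) P := by
  rintro ⟨φ, hφ, h⟩
  obtain ⟨s, hs, hs'⟩ := h p hp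
  rw [Finset.mem_sdiff] at hs
  apply hs.2
  simp only [inner, Fintype.mem_piFinset, Finset.mem_Ico]
  intro ℓ
  have h1 := mem_box.1 hs.1 ℓ
  have h2 := (hφ ℓ).le _ h1
  have h3 := (hφ ℓ).ge _ h1
  rw [hs' ℓ] at h2 h3
  omega

lemma frame_le {n : Fin d → ℕ} {P : Mat d} (hP : P.ones.Nonempty) :
    ∏ ℓ, n ℓ - ∏ ℓ, (n ℓ + 1 - P.size ℓ) ≤ maxOnes n P := by
  obtain ⟨p, hp⟩ := hP
  have h1 := card_le_maxOnes (n := n) ⟨p, hp⟩ Finset.sdiff_subset
    (frame_avoids (n := n) (k := P.size) hp)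
  rw [Finset.card_sdiff_of_subset (inner_subset (P.inBox p hp)), card_box, card_inner] at h1
  exact h1

/-! ## Upper bound -/

/-- one-dimensional case: enough elements on a line contain everything -/
lemma line_emb {n k : Fin d → ℕ} {S P : Finset (Fin d → ℕ)} (ℓ₀ : Fin d)
    (h1 : ∀ ℓ, ℓ ≠ ℓ₀ → n ℓ = 1 ∧ k ℓ = 1) (hk : 0 < k ℓ₀) (hS : S ⊆ box n) (hP : P ⊆ box k)
    (hcard : k ℓ₀ ≤ S.card) : Emb n k S P := by
  classical
  set X : Finset ℕ := S.image (fun s => s ℓ₀) with hX
  have hinj : Set.InjOn (fun s : Fin d → ℕ => s ℓ₀) S := by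
    intro s hs s' hs' heq
    funext j
    by_cases hj : j = ℓ₀
    · rw [hj]; exact heq
    · have e1 := mem_box.1 (hS hs) j
      have e2 := mem_box.1 (hS hs') j
      have e3 := (h1 j hj).1
      omega
  have hXcard : X.card = S.card := Finset.card_image_of_injOn hinj
  have hnth : ∀ j, j < k ℓ₀ → Nat.nth (fun h => h ∈ X) j ∈ X ∧
      Nat.count (fun h => h ∈ X) (Nat.nth (fun h => h ∈ X) j) = j := by
    intro j hj
    refine ⟨Nat.nth_mem j (fun hf => ?_), Nat.count_nth (fun hf => ?_)⟩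
    · have : hf.toFinset.card = X.card := by
        congr 1
        ext x
        simp
      omega
    · have : hf.toFinset.card = X.card := by
        congr 1
        ext x
        simp
      omega
  have hex : ∀ j, j < k ℓ₀ → ∃ s ∈ S, min (k ℓ₀ - 1) (Nat.count (fun h => h ∈ X) (s ℓ₀)) = j := by
    intro j hj
    obtain ⟨e1, e2⟩ := hnth j hj
    rw [hX, Finset.mem_image] at e1
    obtain ⟨s, hs, hs'⟩ := e1
    refine ⟨s, hs, ?_⟩
    have : s ℓ₀ = Nat.nth (fun h => h ∈ X) j := hs'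
    rw [this, e2]
    omega
  refine ⟨fun ℓ i => if ℓ = ℓ₀ then min (k ℓ₀ - 1) (Nat.count (fun h => h ∈ X) i) else i, ?_, ?_⟩
  · intro ℓ
    by_cases hℓ : ℓ = ℓ₀
    · subst hℓ
      simp only [if_true]
      refine ⟨?_, ?_, ?_⟩
      · intro i j hij
        have : Nat.count (fun h => h ∈ X) i ≤ Nat.count (fun h => h ∈ X) j :=
          Nat.count_monotone _ hij
        show min _ _ ≤ min _ _
        omega
      · intro i _
        omega
      · intro j hj
        obtain ⟨s, hs, hs'⟩ := hex j hj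
        exact ⟨s ℓ, mem_box.1 (hS hs) ℓ, hs'⟩
    · simp only [hℓ, if_false]
      rw [(h1 ℓ hℓ).1, (h1 ℓ hℓ).2]
      exact Onto.id 1
  · intro p hp
    obtain ⟨s, hs, hs'⟩ := hex (p ℓ₀) (mem_box.1 (hP hp) ℓ₀)
    refine ⟨s, hs, ?_⟩
    intro ℓ
    by_cases hℓ : ℓ = ℓ₀
    · subst hℓ
      simpa using hs'
    · simp only [hℓ, if_false]
      have e1 := mem_box.1 (hS hs) ℓ
      have e2 := mem_box.1 (hP hp) ℓ
      have e3 := h1 ℓ hℓ
      omega

lemma three_levels {L : Finset ℕ} (hne : L.Nonempty) (h : L.card ≤ 3) :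
    ∃ v1 v v3, v1 ≤ v ∧ v ≤ v3 ∧ v1 ∈ L ∧ v ∈ L ∧ v3 ∈ L ∧ ∀ x ∈ L, x = v1 ∨ x = v ∨ x = v3 := by
  by_cases hex : ∃ v ∈ L, v ≠ L.min' hne ∧ v ≠ L.max' hne
  · obtain ⟨v, hv, h1, h3⟩ := hex
    have e1 : L.min' hne ≤ v := L.min'_le v hv
    have e3 : v ≤ L.max' hne := L.le_max' v hv
    refine ⟨L.min' hne, v, L.max' hne, e1, e3, L.min'_mem hne, hv, L.max'_mem hne, ?_⟩
    have hsub : ({L.min' hne, v, L.max' hne} : Finset ℕ) ⊆ L := by
      intro x hx
      simp only [Finset.mem_insert, Finset.mem_singleton] at hx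
      rcases hx with rfl | rfl | rfl
      · exact L.min'_mem hne
      · exact hv
      · exact L.max'_mem hne
    have hc : ({L.min' hne, v, L.max' hne} : Finset ℕ).card = 3 := by
      rw [Finset.card_eq_three]
      exact ⟨_, _, _, fun e => h1 e.symm, by omega, h3, rfl⟩
    have heq := Finset.eq_of_subset_of_card_le hsub (by omega)
    intro x hx
    rw [← heq] at hx
    simpa using hx
  · push Not at hex
    refine ⟨L.min' hne, L.min' hne, L.max' hne, le_refl _, L.min'_le _ (L.max'_mem hne),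
      L.min'_mem hne, L.min'_mem hne, L.max'_mem hne, ?_⟩
    intro x hx
    by_cases h1 : x = L.min' hne
    · exact Or.inl h1
    · exact Or.inr (Or.inr (hex x hx h1))

lemma prod_update (n : Fin d → ℕ) (ℓ : Fin d) :
    ∏ j, n j = n ℓ * ∏ j, Function.update n ℓ 1 j := by
  rw [Finset.prod_update_of_mem (Finset.mem_univ ℓ), one_mul,
    ← Finset.mul_prod_erase Finset.univ n (Finset.mem_univ ℓ), Finset.sdiff_singleton_eq_erase]

lemma prod_update' (n k : Fin d → ℕ) (ℓ : Fin d) :
    ∏ j, (n j + 1 - k j) = (n ℓ + 1 - k ℓ) *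
      ∏ j, (Function.update n ℓ 1 j + 1 - Function.update k ℓ 1 j) := by
  have h := prod_update (fun j => n j + 1 - k j) ℓ
  rw [h]
  congr 1
  apply Finset.prod_congr rfl
  intro j _
  by_cases hj : j = ℓ
  · subst hj; simp
  · simp [Function.update_of_ne hj]

/-- The upper bound. -/
lemma upper (ℓ₀ : Fin d) (D : Finset (Fin d)) : ∀ (n k : Fin d → ℕ) (P S : Finset (Fin d → ℕ)),
    P.Nonempty → P ⊆ box k → (∀ ℓ, ℓ ≠ ℓ₀ → (P.image (fun x => x ℓ)).card ≤ 3) →
    (∀ ℓ, ℓ ≠ ℓ₀ → ℓ ∉ D → n ℓ = 1 ∧ k ℓ = 1) → S ⊆ box n → ¬ Emb n k S P →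
    S.card + ∏ ℓ, (n ℓ + 1 - k ℓ) ≤ ∏ ℓ, n ℓ := by
  classical
  induction D using Finset.induction_on with
  | empty =>
    intro n k P S hP0 hPk _ hD hS hE
    have hk : 0 < k ℓ₀ := by
      obtain ⟨p, hp⟩ := hP0
      have := mem_box.1 (hPk hp) ℓ₀
      omega
    have h1 : S.card < k ℓ₀ := by
      by_contra hcon
      push Not at hcon
      exact hE (line_emb ℓ₀ (fun ℓ hℓ => hD ℓ hℓ (by simp)) hk hS hPk hcon)
    have h2 : S.card ≤ ∏ ℓ, n ℓ := by
      rw [← card_box]
      exact Finset.card_le_card hS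
    have h3 : ∏ ℓ, n ℓ = n ℓ₀ := by
      apply Finset.prod_eq_single_of_mem ℓ₀ (Finset.mem_univ _)
      intro j _ hj
      exact (hD j hj (by simp)).1
    have h4 : ∏ ℓ, (n ℓ + 1 - k ℓ) = n ℓ₀ + 1 - k ℓ₀ := by
      apply Finset.prod_eq_single_of_mem ℓ₀ (Finset.mem_univ _)
      intro j _ hj
      have := hD j hj (by simp)
      omega
    rw [h3] at h2 ⊢
    rw [h4]
    omega
  | insert ℓ D hℓD ih =>
    intro n k P S hP0 hPk h3 hD hS hE
    by_cases hℓ0 : ℓ = ℓ₀
    · apply ih n k P S hP0 hPk h3 _ hS hE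
      intro j hj hjD
      apply hD j hj
      rw [Finset.mem_insert]
      push Not
      exact ⟨by rw [hℓ0]; exact hj, hjD⟩
    · -- choose the levels
      have hne : (P.image (fun x => x ℓ)).Nonempty := hP0.image _
      obtain ⟨v1, v, v3, hv1, hv3, m1, m, m3, hall⟩ := three_levels hne (h3 ℓ hℓ0)
      have hlt : ∀ w ∈ P.image (fun x => x ℓ), w < k ℓ := by
        intro w hw
        obtain ⟨p, hp, rfl⟩ := Finset.mem_image.1 hw
        exact mem_box.1 (hPk hp) ℓ
      have hQ0 : (proj ℓ P).Nonempty := hP0.image _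
      set n' := Function.update n ℓ 1 with hn'
      set k' := Function.update k ℓ 1 with hk'
      have hlev : ∀ x, (lev S (n ℓ) ℓ (k ℓ) v x).card + ∏ j, (n' j + 1 - k' j) ≤ ∏ j, n' j := by
        intro x
        rw [← card_proj_lev]
        apply ih n' k' (proj ℓ P) (proj ℓ (lev S (n ℓ) ℓ (k ℓ) v x)) hQ0 (proj_subset hPk ℓ)
        · intro j hj
          by_cases hjl : j = ℓ
          · subst hjl
            have : (proj j P).image (fun x => x j) ⊆ {0} := by
              intro w hw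
              obtain ⟨q, hq, rfl⟩ := Finset.mem_image.1 hw
              obtain ⟨p, hp, rfl⟩ := Finset.mem_image.1 hq
              simp
            have := Finset.card_le_card this
            simp at this
            omega
          · have : (proj ℓ P).image (fun x => x j) = P.image (fun x => x j) := by
              rw [proj, Finset.image_image]
              apply Finset.image_congr
              intro x _
              simp [Function.update_of_ne hjl]
            rw [this]
            exact h3 j hj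
        · intro j hj hjD
          by_cases hjl : j = ℓ
          · subst hjl; simp [hn', hk']
          · simp only [hn', hk', Function.update_of_ne hjl]
            apply hD j hj
            rw [Finset.mem_insert]
            push Not
            exact ⟨hjl, hjD⟩
        · apply proj_subset
          exact (Finset.filter_subset _ _).trans hS
        · intro hE'
          apply hE
          apply peel_emb hS ℓ hv1 hv3 (hlt v3 m3) hP0 _ hE'
          intro p hp
          exact hall _ (Finset.mem_image_of_mem _ hp)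
      have hpc := peel_card (M := ∏ j, n' j - ∏ j, (n' j + 1 - k' j)) hS ℓ (hlt v m)
        (fun x => by have := hlev x; omega)
      have hle : ∏ j, (n' j + 1 - k' j) ≤ ∏ j, n' j := by
        have := hlev 0
        omega
      rw [prod_update n ℓ, prod_update' n k ℓ]
      rw [← hn'] at hpc ⊢
      rw [← hk']
      set A := ∏ j, n' j
      set B := ∏ j, (n' j + 1 - k' j)
      obtain ⟨C, hC⟩ := Nat.exists_eq_add_of_le hle
      have hAB : A - B = C := by omega
      rw [hAB] at hpc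
      have hkpos : 0 < k ℓ := lt_of_le_of_lt (Nat.zero_le _) (hlt v m)
      by_cases hnk : k ℓ ≤ n ℓ + 1
      · obtain ⟨e, he⟩ := Nat.exists_eq_add_of_le hnk
        have he' : n ℓ + 1 - k ℓ = e := by omega
        rw [he'] at hpc ⊢
        have hn2 : n ℓ = (k ℓ - 1) + e := by omega
        calc S.card + e * B ≤ A * (k ℓ - 1) + e * C + e * B := by omega
          _ = A * (k ℓ - 1) + e * A := by rw [hC]; ring
          _ = n ℓ * A := by rw [hn2]; ring
      · have he' : n ℓ + 1 - k ℓ = 0 := by omega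
        rw [he']
        have h2 : S.card ≤ ∏ ℓ, n ℓ := by
          rw [← card_box]
          exact Finset.card_le_card hS
        rw [prod_update n ℓ, ← hn'] at h2
        rw [Nat.zero_mul, Nat.add_zero]
        exact h2

theorem maxOnes_eq {n : Fin d → ℕ} {P : Mat d} (hP : P.ones.Nonempty) (ℓ₀ : Fin d)
    (h3 : ∀ ℓ, ℓ ≠ ℓ₀ → (P.ones.image (fun x => x ℓ)).card ≤ 3) :
    maxOnes n P = ∏ ℓ, n ℓ - ∏ ℓ, (n ℓ + 1 - P.size ℓ) := by
  apply le_antisymm _ (frame_le hP)
  apply maxOnes_le hP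
  intro S hS hE
  have := upper ℓ₀ Finset.univ n P.size P.ones S hP P.ones_subset h3 (by simp) hS hE
  omega

end

/-! ## The limit -/

open Filter Topology

lemma tendsto_frame_aux {ι : Type*} [DecidableEq ι] (s : Finset ι) (a : ι → ℝ) :
    Tendsto (fun n : ℕ => (n : ℝ) * (1 - ∏ i ∈ s, (1 - a i / n))) atTop (𝓝 (∑ i ∈ s, a i)) ∧
    Tendsto (fun n : ℕ => ∏ i ∈ s, (1 - a i / n)) atTop (𝓝 1) := by
  induction s using Finset.induction_on with
  | empty => simp
  | insert j s hj ih =>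
    have h0 : Tendsto (fun n : ℕ => a j / n) atTop (𝓝 0) := tendsto_const_div_atTop_nhds_zero_nat _
    constructor
    · rw [Finset.sum_insert hj]
      have h1 : Tendsto (fun n : ℕ => a j * ∏ i ∈ s, (1 - a i / n) +
          (n : ℝ) * (1 - ∏ i ∈ s, (1 - a i / n))) atTop (𝓝 (a j * 1 + ∑ i ∈ s, a i)) :=
        (ih.2.const_mul (a j)).add ih.1
      rw [mul_one] at h1
      refine h1.congr' ?_
      filter_upwards [eventually_gt_atTop 0] with n hn
      have hn' : (n : ℝ) ≠ 0 := by positivity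
      rw [Finset.prod_insert hj]
      field_simp
      ring
    · have h1 : Tendsto (fun n : ℕ => (1 - a j / n) * ∏ i ∈ s, (1 - a i / n)) atTop
          (𝓝 ((1 - 0) * 1)) := (tendsto_const_nhds.sub h0).mul ih.2
      simp only [sub_zero, mul_one] at h1
      refine h1.congr ?_
      intro n
      rw [Finset.prod_insert hj]

lemma tendsto_frame {d : ℕ} (hd : 0 < d) (k : Fin d → ℕ) (hk : ∀ ℓ, 0 < k ℓ) :
    Tendsto (fun n : ℕ => ((∏ _ℓ : Fin d, n - ∏ ℓ, (n + 1 - k ℓ) : ℕ) : ℝ) / (n : ℝ) ^ (d - 1))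
      atTop (𝓝 (∑ ℓ, ((k ℓ : ℝ) - 1))) := by
  have h := (tendsto_frame_aux (Finset.univ : Finset (Fin d)) (fun ℓ => ((k ℓ : ℝ) - 1))).1
  refine h.congr' ?_
  filter_upwards [eventually_gt_atTop 0, eventually_ge_atTop (∑ ℓ, k ℓ)] with n hn hnk
  have hn' : (n : ℝ) ≠ 0 := by positivity
  have hkn : ∀ ℓ, k ℓ ≤ n := fun ℓ =>
    (Finset.single_le_sum (f := k) (fun _ _ => Nat.zero_le _) (Finset.mem_univ ℓ)).trans hnk
  have hle : ∏ ℓ, (n + 1 - k ℓ) ≤ ∏ _ℓ : Fin d, n := by
    apply Finset.prod_le_prod'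
    intro ℓ _
    have := hk ℓ
    omega
  rw [Nat.cast_sub hle]
  push_cast
  have hprod : ∏ ℓ, (((n + 1 - k ℓ : ℕ) : ℝ)) = (n : ℝ) ^ d * ∏ ℓ, (1 - ((k ℓ : ℝ) - 1) / n) := by
    have : (n : ℝ) ^ d = ∏ _ℓ : Fin d, (n : ℝ) := by simp
    rw [this, ← Finset.prod_mul_distrib]
    apply Finset.prod_congr rfl
    intro ℓ _
    have h1 := hkn ℓ
    rw [Nat.cast_sub (by omega)]
    push_cast
    field_simp
    ring
  rw [hprod]
  simp only [Finset.prod_const, Finset.card_univ, Fintype.card_fin]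
  obtain ⟨e, rfl⟩ : ∃ e, d = e + 1 := ⟨d - 1, by omega⟩
  simp only [Nat.add_sub_cancel]
  field_simp
  ring

end Pool.Agent.Helper450IM
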