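import Pool.Agent.helper450_im.Scal

/-!
# Row windows and column windows
-/

namespace Pool.Agent.Helper450IM

open Finset Filter Topology

/-! ## Weights -/

lemma weights_good {n κ X1 X2 X3 Y1 Y2 Y3 r1 r2 r3 c1 c2 c3 : ℝ} (hn : 1 < n)
    (hr : r1 + r2 + r3 = n + 2) (hc : c1 + c2 + c3 = n + 2)
    (h11 : (n - c1) * X1 + (n - r1) * Y1 ≤ κ * ((n - c1) * r1 + (n - r1) * n))
    (h12 : (n - c2) * X1 + (n - r1) * Y2 ≤ κ * ((n - c2) * r1 + (n - r1) * n))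
    (h13 : (n - c3) * X1 + (n - r1) * Y3 ≤ κ * ((n - c3) * r1 + (n - r1) * n))
    (h21 : (n - c1) * X2 + (n - r2) * Y1 ≤ κ * ((n - c1) * r2 + (n - r2) * n))
    (h22 : (n - c2) * X2 + (n - r2) * Y2 ≤ κ * ((n - c2) * r2 + (n - r2) * n))
    (h23 : (n - c3) * X2 + (n - r2) * Y3 ≤ κ * ((n - c3) * r2 + (n - r2) * n))
    (h31 : (n - c1) * X3 + (n - r3) * Y1 ≤ κ * ((n - c1) * r3 + (n - r3) * n))
    (h32 : (n - c2) * X3 + (n - r3) * Y2 ≤ κ * ((n - c2) * r3 + (n - r3) * n))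
    (h33 : (n - c3) * X3 + (n - r3) * Y3 ≤ κ * ((n - c3) * r3 + (n - r3) * n)) :
    X1 + X2 + X3 + Y1 + Y2 + Y3 ≤ κ * (4 * n + 2) := by
  have e1 : r3 = n + 2 - r1 - r2 := by linarith
  have e2 : c3 = n + 2 - c1 - c2 := by linarith
  subst e1 e2
  have key : (2 * n - 2) * (X1 + X2 + X3 + Y1 + Y2 + Y3) ≤ (2 * n - 2) * (κ * (4 * n + 2)) := by
    linarith
  exact le_of_mul_le_mul_left key (by linarith)

lemma weights_bad {n κ X1 X2 X3 Y1 Y2 Y3 r1 r2 r3 c1 c2 c3 : ℝ} (hn : 1 < n)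
    (hr : r1 + r2 + r3 = n + 2) (hc : c1 + c2 + c3 = n + 2) (hr2 : 1 ≤ r2) (hc2 : 1 ≤ c2)
    (h11 : (n - c1) * X1 + (n - r1) * Y1 ≤ κ * ((n - c1) * r1 + (n - r1) * n))
    (h12 : (n - c2) * X1 + (n - r1) * Y2 ≤ κ * ((n - c2) * r1 + (n - r1) * n))
    (h13 : (n - c3) * X1 + (n - r1) * Y3 ≤ κ * ((n - c3) * r1 + (n - r1) * n))
    (h21 : (n - c1) * X2 + (n - r2) * Y1 ≤ κ * ((n - c1) * r2 + (n - r2) * n))
    (h23 : (n - c3) * X2 + (n - r2) * Y3 ≤ κ * ((n - c3) * r2 + (n - r2) * n))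
    (h31 : (n - c1) * X3 + (n - r3) * Y1 ≤ κ * ((n - c1) * r3 + (n - r3) * n))
    (h32 : (n - c2) * X3 + (n - r3) * Y2 ≤ κ * ((n - c2) * r3 + (n - r3) * n))
    (h33 : (n - c3) * X3 + (n - r3) * Y3 ≤ κ * ((n - c3) * r3 + (n - r3) * n)) :
    X1 + X2 + X3 + Y1 + Y2 + Y3 ≤ κ * (4 * n + 2) := by
  have e1 : r3 = n + 2 - r1 - r2 := by linarith
  have e2 : c3 = n + 2 - c1 - c2 := by linarith
  subst e1 e2
  have w1 : 0 < n - 2 + r2 := by linarith
  have w2 : 0 < n - 2 + c2 := by linarith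
  have w3 : 0 ≤ r2 + c2 - 2 := by linarith
  have a11 := mul_le_mul_of_nonneg_left h11 w3
  have a13 := mul_le_mul_of_nonneg_left h13 w3
  have a31 := mul_le_mul_of_nonneg_left h31 w3
  have a33 := mul_le_mul_of_nonneg_left h33 w3
  have a21 := mul_le_mul_of_nonneg_left h21 w1.le
  have a23 := mul_le_mul_of_nonneg_left h23 w1.le
  have a12 := mul_le_mul_of_nonneg_left h12 w2.le
  have a32 := mul_le_mul_of_nonneg_left h32 w2.le
  have key : ((n - 2 + r2) * (n - 2 + c2)) * (X1 + X2 + X3 + Y1 + Y2 + Y3) ≤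
      ((n - 2 + r2) * (n - 2 + c2)) * (κ * (4 * n + 2)) := by
    linarith
  exact le_of_mul_le_mul_left key (by positivity)

lemma weights_three {n κ X1 X2 Y1 Y2 r1 r2 c1 c2 : ℝ} (hn : 1 < n)
    (hr : r1 + r2 = n + 1) (hc : c1 + c2 = n + 1)
    (h11 : (n - c1) * X1 + (n - r1) * Y1 ≤ κ * ((n - c1) * r1 + (n - r1) * n))
    (h12 : (n - c2) * X1 + (n - r1) * Y2 ≤ κ * ((n - c2) * r1 + (n - r1) * n))
    (h21 : (n - c1) * X2 + (n - r2) * Y1 ≤ κ * ((n - c1) * r2 + (n - r2) * n))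
    (h22 : (n - c2) * X2 + (n - r2) * Y2 ≤ κ * ((n - c2) * r2 + (n - r2) * n)) :
    X1 + X2 + Y1 + Y2 ≤ κ * (3 * n + 1) := by
  have e1 : r2 = n + 1 - r1 := by linarith
  have e2 : c2 = n + 1 - c1 := by linarith
  subst e1 e2
  have key : (n - 1) * (X1 + X2 + Y1 + Y2) ≤ (n - 1) * (κ * (3 * n + 1)) := by
    linarith
  exact le_of_mul_le_mul_left key (by linarith)

/-! ## The pair inequality for a row window and a column window -/

/-- the pair inequality -/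
def PI (k l : ℕ) (X Y : Finset (ℕ × ℕ)) (q : ℕ) (lam : ℝ) (C : ℕ) : Prop :=
  ∀ n r c : ℕ, 1 ≤ n → 1 ≤ r → r ≤ n → c ≤ n →
    ((n : ℝ) - c) * (((q : ℝ) - 1) * ((M2 r n k l X : ℝ) - C)) +
      ((n : ℝ) - r) * (((q : ℝ) - 1) * ((M2 n c k l Y : ℝ) - C)) ≤
        q * lam * (((n : ℝ) - c) * r + ((n : ℝ) - r) * n)

lemma PI.mono {k l : ℕ} {X Y : Finset (ℕ × ℕ)} {q : ℕ} (hq : 1 ≤ q) {lam : ℝ} {C C' : ℕ}
    (h : PI k l X Y q lam C) (hC : C ≤ C') : PI k l X Y q lam C' := by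
  intro n r c hn hr hrn hcn
  refine le_trans ?_ (h n r c hn hr hrn hcn)
  have hqR : (0 : ℝ) ≤ (q : ℝ) - 1 := by
    have : (1 : ℝ) ≤ q := by exact_mod_cast hq
    linarith
  have hc0 : (0 : ℝ) ≤ (n : ℝ) - c := by
    have : (c : ℝ) ≤ n := by exact_mod_cast hcn
    linarith
  have hr0 : (0 : ℝ) ≤ (n : ℝ) - r := by
    have : (r : ℝ) ≤ n := by exact_mod_cast hrn
    linarith
  have hCR : (C : ℝ) ≤ C' := by exact_mod_cast hC
  apply add_le_add
  · apply mul_le_mul_of_nonneg_left _ hc0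
    exact mul_le_mul_of_nonneg_left (by linarith) hqR
  · apply mul_le_mul_of_nonneg_left _ hr0
    exact mul_le_mul_of_nonneg_left (by linarith) hqR

theorem exists_PI {k l : ℕ} {X Y P : Finset (ℕ × ℕ)} (hsp : Spans2 k l P) (hX : Scal k l X)
    (hY : Scal k l Y) (hpair : PairOK k l X Y P) {lam : ℝ} (hlam : 0 ≤ lam)
    (hfreq : ∀ ε > 0, ∃ᶠ n : ℕ in atTop, (M2 n n k l P : ℝ) / n < lam + ε) {q : ℕ}
    (hq : 1 ≤ q) : ∃ C, PI k l X Y q lam C := by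
  obtain ⟨C, hC⟩ := pair_ineq hsp hX hY hpair hlam hfreq hq
  refine ⟨C, fun n r c hn hr hrn hcn => ?_⟩
  obtain ⟨a, rfl⟩ : ∃ a, n = c + a := ⟨n - c, by omega⟩
  obtain ⟨b, hb⟩ : ∃ b, c + a = r + b := ⟨c + a - r, by omega⟩
  have ha' : (((c + a : ℕ) : ℝ)) - c = a := by push_cast; ring
  have hb' : (((c + a : ℕ) : ℝ)) - r = b := by rw [hb]; push_cast; ring
  rw [ha', hb']
  rcases Nat.eq_zero_or_pos (a * r + b * (c + a)) with h0 | h0
  · have ha0 : a = 0 := by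
      rcases Nat.eq_zero_or_pos a with h | h
      · exact h
      · exfalso
        have : 0 < a * r := Nat.mul_pos h hr
        omega
    have hb0 : b = 0 := by
      rcases Nat.eq_zero_or_pos b with h | h
      · exact h
      · exfalso
        have : 0 < b * (c + a) := Nat.mul_pos h hn
        omega
    rw [ha0, hb0]
    simp
  · have h1 := hC r (c + a) (c + a) c a b (a * r + b * (c + a)) h0 le_rfl (by
      have e1 : a * (c + a) + b * c = a * (r + b) + b * c := by rw [hb]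
      have e2 : a * r + b * (c + a) = a * r + b * a + b * c := by ring
      rw [e1, e2]
      apply le_of_eq
      ring)
    push_cast at h1 ⊢
    linarith

end Pool.Agent.Helper450IM
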