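import Pool.Agent.helper450_im.HalfThree
import Pool.Agent.helper450_im.CutAll

/-!
# The improved oscillation bound for two-dimensional patterns with inner boundary ones
-/

namespace Pool.Agent.Helper450IM

open Finset Filter Topology

/-- Three corner ones, the upper right one being absent. -/
theorem osc_half_NE {k l : ℕ} {P : Finset (ℕ × ℕ)} (hP : P ⊆ box2 k l) (hk : 2 ≤ k)
    (hl : 2 ≤ l) (hNW : ∃ p ∈ P, p.1 = 0 ∧ p.2 = 0) (hNE : ∀ p ∈ P, p.1 = 0 → p.2 + 1 ≠ l)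
    (hSW : ∃ p ∈ P, p.1 + 1 = k ∧ p.2 = 0) (hSE : ∃ p ∈ P, p.1 + 1 = k ∧ p.2 + 1 = l)
    (hnd : Nondeg k l P) : Osc2 (3 / 2) k l P := by
  apply Osc2.of_flp hP
  apply osc_three_half
  refine ⟨flp_subset hP, hk, hl, ?_, ?_, ?_, ?_, hnd.flp hP⟩
  · obtain ⟨p, hp, h1, h2⟩ := hSW
    refine ⟨_, Finset.mem_image_of_mem _ hp, ?_, h2⟩
    show k - 1 - p.1 = 0
    omega
  · obtain ⟨p, hp, h1, h2⟩ := hSE
    refine ⟨_, Finset.mem_image_of_mem _ hp, ?_, h2⟩
    show k - 1 - p.1 = 0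
    omega
  · obtain ⟨p, hp, h1, h2⟩ := hNW
    refine ⟨_, Finset.mem_image_of_mem _ hp, ?_, h2⟩
    show k - 1 - p.1 + 1 = k
    omega
  · intro p hp h1 h2
    obtain ⟨q, hq, rfl⟩ := Finset.mem_image.1 hp
    have := mem_box2.1 (hP hq)
    simp only at h1 h2
    exact hNE q hq (by omega) h2

/-- Three corner ones, the lower left one being absent. -/
theorem osc_half_SW {k l : ℕ} {P : Finset (ℕ × ℕ)} (hP : P ⊆ box2 k l) (hk : 2 ≤ k)
    (hl : 2 ≤ l) (hNW : ∃ p ∈ P, p.1 = 0 ∧ p.2 = 0) (hNE : ∃ p ∈ P, p.1 = 0 ∧ p.2 + 1 = l)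
    (hSW : ∀ p ∈ P, p.1 + 1 = k → p.2 ≠ 0) (hSE : ∃ p ∈ P, p.1 + 1 = k ∧ p.2 + 1 = l)
    (hnd : Nondeg k l P) : Osc2 (3 / 2) k l P := by
  apply Osc2.of_swp
  refine osc_half_NE (swp_subset hP) hl hk ?_ ?_ ?_ ?_ hnd.swp
  · obtain ⟨p, hp, h1, h2⟩ := hNW
    exact ⟨p.swap, mem_swp.2 (by rwa [Prod.swap_swap]), h2, h1⟩
  · intro p hp h1 h2
    exact hSW p.swap (mem_swp.1 hp) h2 h1
  · obtain ⟨p, hp, h1, h2⟩ := hNE
    exact ⟨p.swap, mem_swp.2 (by rwa [Prod.swap_swap]), h2, h1⟩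
  · obtain ⟨p, hp, h1, h2⟩ := hSE
    exact ⟨p.swap, mem_swp.2 (by rwa [Prod.swap_swap]), h2, h1⟩

/-- Three corner ones, the upper left one being absent. -/
theorem osc_half_NW {k l : ℕ} {P : Finset (ℕ × ℕ)} (hP : P ⊆ box2 k l) (hk : 2 ≤ k)
    (hl : 2 ≤ l) (hNW : ∀ p ∈ P, p.1 = 0 → p.2 ≠ 0) (hNE : ∃ p ∈ P, p.1 = 0 ∧ p.2 + 1 = l)
    (hSW : ∃ p ∈ P, p.1 + 1 = k ∧ p.2 = 0) (hSE : ∃ p ∈ P, p.1 + 1 = k ∧ p.2 + 1 = l)
    (hnd : Nondeg k l P) : Osc2 (3 / 2) k l P := by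
  apply Osc2.of_flp hP
  refine osc_half_SW (flp_subset hP) hk hl ?_ ?_ ?_ ?_ (hnd.flp hP)
  · obtain ⟨p, hp, h1, h2⟩ := hSW
    refine ⟨_, Finset.mem_image_of_mem _ hp, ?_, h2⟩
    show k - 1 - p.1 = 0
    omega
  · obtain ⟨p, hp, h1, h2⟩ := hSE
    refine ⟨_, Finset.mem_image_of_mem _ hp, ?_, h2⟩
    show k - 1 - p.1 = 0
    omega
  · intro p hp h1 h2
    obtain ⟨q, hq, rfl⟩ := Finset.mem_image.1 hp
    have := mem_box2.1 (hP hq)
    simp only at h1 h2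
    exact hNW q hq (by omega) h2
  · obtain ⟨p, hp, h1, h2⟩ := hNE
    refine ⟨_, Finset.mem_image_of_mem _ hp, ?_, h2⟩
    show k - 1 - p.1 + 1 = k
    omega

/-- `P` has inner boundary ones: the first and the last row containing a one and the first and
the last column containing a one each contain a one that is not a corner one. -/
def HasInnerOnes (P : Mat 2) : Prop :=
  ∀ ℓ, (∃ x ∈ P.ones, ¬ IsCornerOne P x ∧ ∀ y ∈ P.ones, x ℓ ≤ y ℓ) ∧
    (∃ x ∈ P.ones, ¬ IsCornerOne P x ∧ ∀ y ∈ P.ones, y ℓ ≤ x ℓ)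

/-- in a spanning pattern, inner boundary ones are inner in the sense of positions -/
lemma HasInnerOnes.nondeg {P : Mat 2} (h : HasInnerOnes P) (hsp : Spans P.size P.ones) :
    Nondeg (P.size 0) (P.size 1) (P.ones.image pr) := by
  have hlow : ∀ x : Fin 2 → ℕ, ∀ ℓ, x ℓ = 0 → ∀ y ∈ P.ones, x ℓ ≤ y ℓ := by
    intro x ℓ hx y _
    omega
  have hhigh : ∀ x : Fin 2 → ℕ, ∀ ℓ, x ℓ + 1 = P.size ℓ → ∀ y ∈ P.ones, y ℓ ≤ x ℓ := by
    intro x ℓ hx y hy
    have := P.inBox y hy ℓ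
    omega
  have hzero : ∀ x : Fin 2 → ℕ, ∀ ℓ, (∀ y ∈ P.ones, x ℓ ≤ y ℓ) → x ℓ = 0 := by
    intro x ℓ hx
    obtain ⟨p, hp, hp'⟩ := (hsp ℓ).1
    have := hx p hp
    omega
  have hlast : ∀ x ∈ P.ones, ∀ ℓ, (∀ y ∈ P.ones, y ℓ ≤ x ℓ) → x ℓ + 1 = P.size ℓ := by
    intro x hxP ℓ hx
    obtain ⟨p, hp, hp'⟩ := (hsp ℓ).2
    have h1 := hx p hp
    have h2 := P.inBox x hxP ℓ
    omega
  have hinner : ∀ x ∈ P.ones, ¬ IsCornerOne P x → ∀ ℓ ℓ' : Fin 2, ℓ ≠ ℓ' →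
      (x ℓ = 0 ∨ x ℓ + 1 = P.size ℓ) → x ℓ' ≠ 0 ∧ x ℓ' + 1 ≠ P.size ℓ' := by
    intro x hx hc ℓ ℓ' hne h1
    have h1' : (∀ y ∈ P.ones, x ℓ ≤ y ℓ) ∨ (∀ y ∈ P.ones, y ℓ ≤ x ℓ) := by
      rcases h1 with h1 | h1
      · exact Or.inl (hlow x ℓ h1)
      · exact Or.inr (hhigh x ℓ h1)
    have key : ¬ ((∀ y ∈ P.ones, x ℓ' ≤ y ℓ') ∨ (∀ y ∈ P.ones, y ℓ' ≤ x ℓ')) := by
      intro h2
      refine hc ⟨hx, fun j => ?_⟩
      rcases eq_or_ne j ℓ with rfl | hj
      · exact h1'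
      · have : j = ℓ' := by omega
        subst this
        exact h2
    constructor
    · intro h2
      exact key (Or.inl (hlow x ℓ' h2))
    · intro h2
      exact key (Or.inr (hhigh x ℓ' h2))
  obtain ⟨⟨t, ht, tc, tt⟩, ⟨b, hb, bc, bb⟩⟩ := h 0
  obtain ⟨⟨u, hu, uc, uu⟩, ⟨v, hv, vc, vv⟩⟩ := h 1
  have t0 := hzero t 0 tt
  have b0 := hlast b hb 0 bb
  have u0 := hzero u 1 uu
  have v0 := hlast v hv 1 vv
  exact ⟨⟨_, Finset.mem_image_of_mem _ ht, t0, hinner t ht tc 0 1 (by decide) (Or.inl t0)⟩,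
    ⟨_, Finset.mem_image_of_mem _ hb, b0, hinner b hb bc 0 1 (by decide) (Or.inr b0)⟩,
    ⟨_, Finset.mem_image_of_mem _ hu, u0, hinner u hu uc 1 0 (by decide) (Or.inl u0)⟩,
    ⟨_, Finset.mem_image_of_mem _ hv, v0, hinner v hv vc 1 0 (by decide) (Or.inr v0)⟩⟩

/-- Spanning patterns with inner boundary ones. -/
theorem osc_spans_inner {P : Mat 2} (hP : P.ones.Nonempty) (hsp : Spans P.size P.ones)
    (hin : HasInnerOnes P) {K : ℝ}
    (hK : max 1 (({x | IsCornerOne P x}.ncard : ℝ) / 2) ≤ K) :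
    OscSeq K (fun n => m n P) := by
  classical
  have hK1 : (1 : ℝ) ≤ K := le_trans (le_max_left _ _) hK
  have hK2 : ({x | IsCornerOne P x}.ncard : ℝ) / 2 ≤ K := le_trans (le_max_right _ _) hK
  have hnd := hin.nondeg hsp
  have hfun : (fun n => m n P) = fun n => M2 n n (P.size 0) (P.size 1) (P.ones.image pr) := by
    funext n
    rw [m, maxOnes_eq_M2 hP]
  rw [hfun]
  show Osc2 K (P.size 0) (P.size 1) (P.ones.image pr)
  set k := P.size 0 with hkdef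
  set l := P.size 1 with hldef
  set Q := P.ones.image pr with hQdef
  have hQ : Q ⊆ box2 k l := image_pr_subset P.ones_subset
  have hk : 2 ≤ k := by
    obtain ⟨u, hu, _, u1, u2⟩ := hnd.lft
    have := mem_box2.1 (hQ hu)
    omega
  have hl : 2 ≤ l := by
    obtain ⟨u, hu, _, u1, u2⟩ := hnd.t
    have := mem_box2.1 (hQ hu)
    omega
  have hsp2 : Spans2 k l Q := by
    refine ⟨?_, ?_, ?_, ?_⟩
    · obtain ⟨p, hp, hp'⟩ := (hsp 0).1
      exact ⟨_, Finset.mem_image_of_mem _ hp, hp'⟩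
    · obtain ⟨p, hp, hp'⟩ := (hsp 0).2
      exact ⟨_, Finset.mem_image_of_mem _ hp, hp'⟩
    · obtain ⟨p, hp, hp'⟩ := (hsp 1).1
      exact ⟨_, Finset.mem_image_of_mem _ hp, hp'⟩
    · obtain ⟨p, hp, hp'⟩ := (hsp 1).2
      exact ⟨_, Finset.mem_image_of_mem _ hp, hp'⟩
  -- corner ones from elements of `Q`
  have hcorner : ∀ p ∈ Q, (p.1 = 0 ∨ p.1 + 1 = k) → (p.2 = 0 ∨ p.2 + 1 = l) →
      ∃ x, IsCornerOne P x ∧ pr x = p := by
    intro p hp h1 h2
    obtain ⟨x, hx, rfl⟩ := Finset.mem_image.1 hp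
    refine ⟨x, ⟨hx, ?_⟩, rfl⟩
    intro ℓ
    fin_cases ℓ
    · rcases h1 with h1 | h1
      · left
        intro y _
        show x 0 ≤ y 0
        have : x 0 = 0 := h1
        omega
      · right
        intro y hy
        show y 0 ≤ x 0
        have h3 : x 0 + 1 = k := h1
        have h4 := P.inBox y hy 0
        omega
    · rcases h2 with h2 | h2
      · left
        intro y _
        show x 1 ≤ y 1
        have : x 1 = 0 := h2
        omega
      · right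
        intro y hy
        show y 1 ≤ x 1
        have h3 : x 1 + 1 = l := h2
        have h4 := P.inBox y hy 1
        omega
  have hthree : ∀ p₁ ∈ Q, ∀ p₂ ∈ Q, ∀ p₃ ∈ Q, (p₁.1 = 0 ∨ p₁.1 + 1 = k) →
      (p₁.2 = 0 ∨ p₁.2 + 1 = l) → (p₂.1 = 0 ∨ p₂.1 + 1 = k) → (p₂.2 = 0 ∨ p₂.2 + 1 = l) →
      (p₃.1 = 0 ∨ p₃.1 + 1 = k) → (p₃.2 = 0 ∨ p₃.2 + 1 = l) →
      p₁ ≠ p₂ → p₁ ≠ p₃ → p₂ ≠ p₃ → (3 / 2 : ℝ) ≤ K := by
    intro p₁ h1 p₂ h2 p₃ h3 a1 b1 a2 b2 a3 b3 n12 n13 n23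
    have h4 : ({p₁, p₂, p₃} : Finset (ℕ × ℕ)).card ≤ {x | IsCornerOne P x}.ncard := by
      apply card_le_corners
      intro p hp
      simp only [Finset.mem_insert, Finset.mem_singleton] at hp
      rcases hp with rfl | rfl | rfl
      · exact hcorner _ h1 a1 b1
      · exact hcorner _ h2 a2 b2
      · exact hcorner _ h3 a3 b3
    rw [Finset.card_eq_three.2 ⟨p₁, p₂, p₃, n12, n13, n23, rfl⟩] at h4
    have h5 : (3 : ℝ) ≤ ({x | IsCornerOne P x}.ncard : ℝ) := by exact_mod_cast h4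
    linarith
  have nNW : (¬ ∃ p ∈ Q, p.1 = 0 ∧ p.2 = 0) → ∀ p ∈ Q, p.1 = 0 → p.2 ≠ 0 :=
    fun h p hp h1 h2 => h ⟨p, hp, h1, h2⟩
  have nNE : (¬ ∃ p ∈ Q, p.1 = 0 ∧ p.2 + 1 = l) → ∀ p ∈ Q, p.1 = 0 → p.2 + 1 ≠ l :=
    fun h p hp h1 h2 => h ⟨p, hp, h1, h2⟩
  have nSW : (¬ ∃ p ∈ Q, p.1 + 1 = k ∧ p.2 = 0) → ∀ p ∈ Q, p.1 + 1 = k → p.2 ≠ 0 :=
    fun h p hp h1 h2 => h ⟨p, hp, h1, h2⟩
  have nSE : (¬ ∃ p ∈ Q, p.1 + 1 = k ∧ p.2 + 1 = l) → ∀ p ∈ Q, p.1 + 1 = k → p.2 + 1 ≠ l :=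
    fun h p hp h1 h2 => h ⟨p, hp, h1, h2⟩
  have hconv : Conv2 k l Q → Osc2 K k l Q := fun h => h.osc.mono hK1
  by_cases cNW : ∃ p ∈ Q, p.1 = 0 ∧ p.2 = 0
  · by_cases cNE : ∃ p ∈ Q, p.1 = 0 ∧ p.2 + 1 = l
    · by_cases cSW : ∃ p ∈ Q, p.1 + 1 = k ∧ p.2 = 0
      · by_cases cSE : ∃ p ∈ Q, p.1 + 1 = k ∧ p.2 + 1 = l
        · -- four corner ones
          refine (osc_four_half ⟨hQ, hk, hl, cNW, cNE, cSW, cSE⟩ hnd).mono ?_
          obtain ⟨p₁, h1, a1, b1⟩ := cNW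
          obtain ⟨p₂, h2, a2, b2⟩ := cNE
          obtain ⟨p₃, h3, a3, b3⟩ := cSW
          obtain ⟨p₄, h4, a4, b4⟩ := cSE
          have h5 : ({p₁, p₂, p₃, p₄} : Finset (ℕ × ℕ)).card ≤ {x | IsCornerOne P x}.ncard := by
            apply card_le_corners
            intro p hp
            simp only [Finset.mem_insert, Finset.mem_singleton] at hp
            rcases hp with rfl | rfl | rfl | rfl
            · exact hcorner _ h1 (Or.inl a1) (Or.inl b1)
            · exact hcorner _ h2 (Or.inl a2) (Or.inr b2)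
            · exact hcorner _ h3 (Or.inr a3) (Or.inl b3)
            · exact hcorner _ h4 (Or.inr a4) (Or.inr b4)
          have h6 : ({p₁, p₂, p₃, p₄} : Finset (ℕ × ℕ)).card = 4 := by
            rw [Finset.card_insert_of_notMem, Finset.card_eq_three.2 ⟨p₂, p₃, p₄, ?_, ?_, ?_, rfl⟩]
            · rintro rfl; omega
            · rintro rfl; omega
            · rintro rfl; omega
            · simp only [Finset.mem_insert, Finset.mem_singleton]
              rintro (rfl | rfl | rfl) <;> omega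
          rw [h6] at h5
          have h7 : (4 : ℝ) ≤ ({x | IsCornerOne P x}.ncard : ℝ) := by exact_mod_cast h5
          linarith
        · refine (osc_three_half ⟨hQ, hk, hl, cNW, cNE, cSW, nSE cSE, hnd⟩).mono ?_
          obtain ⟨p₁, h1, a1, b1⟩ := cNW
          obtain ⟨p₂, h2, a2, b2⟩ := cNE
          obtain ⟨p₃, h3, a3, b3⟩ := cSW
          refine hthree p₁ h1 p₂ h2 p₃ h3 (Or.inl a1) (Or.inl b1) (Or.inl a2) (Or.inr b2)
            (Or.inr a3) (Or.inl b3) ?_ ?_ ?_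
          · rintro rfl; omega
          · rintro rfl; omega
          · rintro rfl; omega
      · by_cases cSE : ∃ p ∈ Q, p.1 + 1 = k ∧ p.2 + 1 = l
        · refine (osc_half_SW hQ hk hl cNW cNE (nSW cSW) cSE hnd).mono ?_
          obtain ⟨p₁, h1, a1, b1⟩ := cNW
          obtain ⟨p₂, h2, a2, b2⟩ := cNE
          obtain ⟨p₃, h3, a3, b3⟩ := cSE
          refine hthree p₁ h1 p₂ h2 p₃ h3 (Or.inl a1) (Or.inl b1) (Or.inl a2) (Or.inr b2)
            (Or.inr a3) (Or.inr b3) ?_ ?_ ?_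
          · rintro rfl; omega
          · rintro rfl; omega
          · rintro rfl; omega
        · exact hconv (conv2_NW_NE hQ hsp2 cNW cNE (nSW cSW) (nSE cSE))
    · by_cases cSW : ∃ p ∈ Q, p.1 + 1 = k ∧ p.2 = 0
      · by_cases cSE : ∃ p ∈ Q, p.1 + 1 = k ∧ p.2 + 1 = l
        · refine (osc_half_NE hQ hk hl cNW (nNE cNE) cSW cSE hnd).mono ?_
          obtain ⟨p₁, h1, a1, b1⟩ := cNW
          obtain ⟨p₂, h2, a2, b2⟩ := cSW
          obtain ⟨p₃, h3, a3, b3⟩ := cSE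
          refine hthree p₁ h1 p₂ h2 p₃ h3 (Or.inl a1) (Or.inl b1) (Or.inr a2) (Or.inl b2)
            (Or.inr a3) (Or.inr b3) ?_ ?_ ?_
          · rintro rfl; omega
          · rintro rfl; omega
          · rintro rfl; omega
        · exact hconv (conv2_NW_SW hQ hsp2 cNW cSW (nNE cNE) (nSE cSE))
      · exact hconv (conv2_of_anti hQ hsp2 (nNE cNE) (nSW cSW))
  · by_cases cSE : ∃ p ∈ Q, p.1 + 1 = k ∧ p.2 + 1 = l
    · by_cases cNE : ∃ p ∈ Q, p.1 = 0 ∧ p.2 + 1 = l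
      · by_cases cSW : ∃ p ∈ Q, p.1 + 1 = k ∧ p.2 = 0
        · refine (osc_half_NW hQ hk hl (nNW cNW) cNE cSW cSE hnd).mono ?_
          obtain ⟨p₁, h1, a1, b1⟩ := cNE
          obtain ⟨p₂, h2, a2, b2⟩ := cSW
          obtain ⟨p₃, h3, a3, b3⟩ := cSE
          refine hthree p₁ h1 p₂ h2 p₃ h3 (Or.inl a1) (Or.inr b1) (Or.inr a2) (Or.inl b2)
            (Or.inr a3) (Or.inr b3) ?_ ?_ ?_
          · rintro rfl; omega
          · rintro rfl; omega
          · rintro rfl; omega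
        · exact hconv (conv2_NE_SE hQ hsp2 cNE cSE (nNW cNW) (nSW cSW))
      · by_cases cSW : ∃ p ∈ Q, p.1 + 1 = k ∧ p.2 = 0
        · exact hconv (conv2_SW_SE hQ hsp2 cSW cSE (nNW cNW) (nNE cNE))
        · exact hconv (conv2_of_anti hQ hsp2 (nNE cNE) (nSW cSW))
    · exact hconv (conv2_of_diag hQ hsp2 (nNW cNW) (nSE cSE))

/-- reduction to the spanning case -/
theorem osc_trim {P : Mat 2} (hP : P.ones.Nonempty) {K : ℝ} (hK1 : 1 ≤ K)
    (h : ∀ (a b : Fin 2 → ℕ) (P₀ : Mat 2), P₀.ones.Nonempty → Spans P₀.size P₀.ones →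
      P = Helper450IM.pad a b P₀ → OscSeq K (fun n => m n P₀)) :
    OscSeq K (fun n => m n P) := by
  classical
  obtain ⟨a, b, P₀, h0, hspan, hsize, hones⟩ := exists_trim hP
  have hPeq : P = Helper450IM.pad a b P₀ := by
    cases P
    simp only at hsize hones
    subst hsize
    subst hones
    rfl
  have hosc : OscSeq K (fun n => m n P₀) := h a b P₀ h0 hspan hPeq
  set α := a 0 + b 0 with hα
  set β := a 1 + b 1 with hβ
  have hform : ∀ n, α + β ≤ n → m n P + (n - α) * (n - β) =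
      n * n + maxOnes ![n - α, n - β] P₀ := by
    intro n hn
    have h1 := maxOnes_pad (n := ![n - α, n - β]) (a := a) (b := b) h0 hspan
    have h2 : (fun ℓ => a ℓ + (![n - α, n - β] : Fin 2 → ℕ) ℓ + b ℓ) =
        (fun _ => n : Fin 2 → ℕ) := by
      funext ℓ
      fin_cases ℓ
      · show a 0 + (n - α) + b 0 = n
        omega
      · show a 1 + (n - β) + b 1 = n
        omega
    have h3 : ∏ _ℓ : Fin 2, n = n * n := by
      rw [Fin.prod_univ_two]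
    have h5 : ∏ ℓ, (![n - α, n - β] : Fin 2 → ℕ) ℓ = (n - α) * (n - β) := by
      simp [Fin.prod_univ_two]
    rw [h2, h3, h5, ← hPeq] at h1
    exact h1
  have hprod : ∀ n, α + β ≤ n → (n - α) * (n - β) + (α + β) * n = n * n + α * β := by
    intro n hn
    obtain ⟨r, rfl⟩ : ∃ r, n = α + β + r := ⟨n - (α + β), by omega⟩
    have e1 : α + β + r - α = β + r := by omega
    have e2 : α + β + r - β = α + r := by omega
    rw [e1, e2]
    ring
  refine OscSeq.pad hK1 (σ := α + β) (R := α + β) (A := α * β) hosc ?_ ?_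
  · intro n hn
    have h1 := hform n hn
    have h2 := hprod n hn
    have h3 : maxOnes ![n - α, n - β] P₀ ≤ m n P₀ := by
      apply maxOnes_mono h0 hspan
      intro ℓ
      fin_cases ℓ
      · show n - α ≤ n
        omega
      · show n - β ≤ n
        omega
    show m n P ≤ (α + β) * n + m n P₀
    omega
  · intro n hn
    have h1 := hform n hn
    have h2 := hprod n hn
    have h3 : m (n - (α + β)) P₀ ≤ maxOnes ![n - α, n - β] P₀ := by
      apply maxOnes_mono h0 hspan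
      intro ℓ
      fin_cases ℓ
      · show n - (α + β) ≤ n - α
        omega
      · show n - (α + β) ≤ n - β
        omega
    show (α + β) * n + m (n - (α + β)) P₀ ≤ m n P + α * β
    omega

/-- corner ones of a padded pattern -/
lemma isCornerOne_pad {a b : Fin 2 → ℕ} {P₀ : Mat 2} {x : Fin 2 → ℕ} :
    IsCornerOne (Helper450IM.pad a b P₀) (fun ℓ => x ℓ + a ℓ) ↔ IsCornerOne P₀ x := by
  constructor
  · rintro ⟨hx, hx'⟩
    obtain ⟨z, hz, hzx⟩ := Finset.mem_image.1 hx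
    have : z = x := by
      funext ℓ
      have : z ℓ + a ℓ = x ℓ + a ℓ := congrFun hzx ℓ
      omega
    subst this
    refine ⟨hz, fun ℓ => ?_⟩
    rcases hx' ℓ with h | h
    · left
      intro y hy
      have h1 : z ℓ + a ℓ ≤ y ℓ + a ℓ := h _ (Finset.mem_image_of_mem _ hy)
      omega
    · right
      intro y hy
      have h1 : y ℓ + a ℓ ≤ z ℓ + a ℓ := h _ (Finset.mem_image_of_mem _ hy)
      omega
  · rintro ⟨hx, hx'⟩
    refine ⟨Finset.mem_image_of_mem _ hx, fun ℓ => ?_⟩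
    rcases hx' ℓ with h | h
    · left
      intro y hy
      obtain ⟨z, hz, rfl⟩ := Finset.mem_image.1 hy
      have := h z hz
      show x ℓ + a ℓ ≤ z ℓ + a ℓ
      omega
    · right
      intro y hy
      obtain ⟨z, hz, rfl⟩ := Finset.mem_image.1 hy
      have := h z hz
      show z ℓ + a ℓ ≤ x ℓ + a ℓ
      omega

lemma ncard_pad_le {a b : Fin 2 → ℕ} {P₀ : Mat 2} :
    {x | IsCornerOne P₀ x}.ncard ≤ {x | IsCornerOne (Helper450IM.pad a b P₀) x}.ncard := by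
  have hfin : {x | IsCornerOne (Helper450IM.pad a b P₀) x}.Finite :=
    (Helper450IM.pad a b P₀).ones.finite_toSet.subset (fun x hx => hx.1)
  refine Set.ncard_le_ncard_of_injOn (fun x => fun ℓ => x ℓ + a ℓ) ?_ ?_ hfin
  · intro x hx
    exact isCornerOne_pad.2 hx
  · intro x _ y _ hxy
    funext ℓ
    have : x ℓ + a ℓ = y ℓ + a ℓ := congrFun hxy ℓ
    omega

lemma HasInnerOnes.of_pad {a b : Fin 2 → ℕ} {P₀ : Mat 2}
    (h : HasInnerOnes (Helper450IM.pad a b P₀)) : HasInnerOnes P₀ := by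
  intro ℓ
  obtain ⟨⟨x, hx, hxc, hx'⟩, ⟨y, hy, hyc, hy'⟩⟩ := h ℓ
  obtain ⟨u, hu, rfl⟩ := Finset.mem_image.1 hx
  obtain ⟨v, hv, rfl⟩ := Finset.mem_image.1 hy
  refine ⟨⟨u, hu, fun hc => hxc (isCornerOne_pad.2 hc), fun z hz => ?_⟩,
    ⟨v, hv, fun hc => hyc (isCornerOne_pad.2 hc), fun z hz => ?_⟩⟩
  · have h1 : u ℓ + a ℓ ≤ z ℓ + a ℓ := hx' _ (Finset.mem_image_of_mem _ hz)
    omega
  · have h1 : z ℓ + a ℓ ≤ v ℓ + a ℓ := hy' _ (Finset.mem_image_of_mem _ hz)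
    omega

/-- The oscillation bound for two-dimensional patterns with inner boundary ones. -/
theorem osc_all_inner {P : Mat 2} (hin : HasInnerOnes P) :
    OscSeq (max 1 (({x | IsCornerOne P x}.ncard : ℝ) / 2)) (fun n => m n P) := by
  have hP : P.ones.Nonempty := by
    obtain ⟨⟨x, hx, _⟩, _⟩ := hin 0
    exact ⟨x, hx⟩
  refine osc_trim hP (le_max_left _ _) ?_
  intro a b P₀ h0 hspan hPeq
  subst hPeq
  apply osc_spans_inner h0 hspan hin.of_pad
  apply max_le_max le_rfl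
  have h1 : ({x | IsCornerOne P₀ x}.ncard : ℝ) ≤
      ({x | IsCornerOne (Helper450IM.pad a b P₀) x}.ncard : ℝ) := by
    exact_mod_cast ncard_pad_le
  linarith

open Classical in
/-- the oscillation factor: `max(1, c/2)` if `P` has inner boundary ones and `max(1, c - 1)`
otherwise, where `c` is the number of corner ones -/
noncomputable def oscFactor (P : Mat 2) : ℝ :=
  if HasInnerOnes P then max 1 (({x | IsCornerOne P x}.ncard : ℝ) / 2)
    else max 1 (({x | IsCornerOne P x}.ncard : ℝ) - 1)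

/-- The oscillation bound for all two-dimensional patterns, improved form. -/
theorem osc_factor (P : Mat 2) : OscSeq (oscFactor P) (fun n => m n P) := by
  classical
  by_cases h : HasInnerOnes P
  · have e : oscFactor P = max 1 (({x | IsCornerOne P x}.ncard : ℝ) / 2) := by
      rw [oscFactor, if_pos h]
    rw [e]
    exact osc_all_inner h
  · have e : oscFactor P = max 1 (({x | IsCornerOne P x}.ncard : ℝ) - 1) := by
      rw [oscFactor, if_neg h]
    rw [e]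
    apply (osc_all P).mono
    rw [Nat.cast_max, Nat.cast_one]
    refine max_le (le_max_left _ _) ?_
    rcases Nat.eq_zero_or_pos {x | IsCornerOne P x}.ncard with h0 | h0
    · rw [h0]
      exact le_trans (by norm_num) (le_max_left _ _)
    · rw [Nat.cast_sub h0, Nat.cast_one]
      exact le_max_right _ _

end Pool.Agent.Helper450IM
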