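import Pool.Agent.helper450_im.Half

/-!
# Four corner ones: the factor two
-/

namespace Pool.Agent.Helper450IM

open Finset Filter Topology

/-- every boundary row and column contains a one that is not a corner one -/
structure Nondeg (k l : ℕ) (P : Finset (ℕ × ℕ)) : Prop where
  t : ∃ p ∈ P, p.1 = 0 ∧ p.2 ≠ 0 ∧ p.2 + 1 ≠ l
  b : ∃ p ∈ P, p.1 + 1 = k ∧ p.2 ≠ 0 ∧ p.2 + 1 ≠ l
  lft : ∃ p ∈ P, p.2 = 0 ∧ p.1 ≠ 0 ∧ p.1 + 1 ≠ k
  rgt : ∃ p ∈ P, p.2 + 1 = l ∧ p.1 ≠ 0 ∧ p.1 + 1 ≠ k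

lemma Nondeg.swp {k l : ℕ} {P : Finset (ℕ × ℕ)} (h : Nondeg k l P) : Nondeg l k (swp P) where
  t := by
    obtain ⟨p, hp, h1⟩ := h.lft
    exact ⟨p.swap, mem_swp.2 (by rwa [Prod.swap_swap]), h1⟩
  b := by
    obtain ⟨p, hp, h1⟩ := h.rgt
    exact ⟨p.swap, mem_swp.2 (by rwa [Prod.swap_swap]), h1⟩
  lft := by
    obtain ⟨p, hp, h1⟩ := h.t
    exact ⟨p.swap, mem_swp.2 (by rwa [Prod.swap_swap]), h1⟩
  rgt := by
    obtain ⟨p, hp, h1⟩ := h.b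
    exact ⟨p.swap, mem_swp.2 (by rwa [Prod.swap_swap]), h1⟩

lemma Nondeg.flp {k l : ℕ} {P : Finset (ℕ × ℕ)} (hP : P ⊆ box2 k l) (h : Nondeg k l P) :
    Nondeg k l (flp k P) where
  t := by
    obtain ⟨p, hp, h1, h2, h3⟩ := h.b
    refine ⟨_, Finset.mem_image_of_mem _ hp, ?_, h2, h3⟩
    show k - 1 - p.1 = 0
    omega
  b := by
    obtain ⟨p, hp, h1, h2, h3⟩ := h.t
    have := mem_box2.1 (hP hp)
    refine ⟨_, Finset.mem_image_of_mem _ hp, ?_, h2, h3⟩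
    show k - 1 - p.1 + 1 = k
    omega
  lft := by
    obtain ⟨p, hp, h1, h2, h3⟩ := h.lft
    have := mem_box2.1 (hP hp)
    refine ⟨_, Finset.mem_image_of_mem _ hp, h1, ?_, ?_⟩
    · show k - 1 - p.1 ≠ 0
      omega
    · show k - 1 - p.1 + 1 ≠ k
      omega
  rgt := by
    obtain ⟨p, hp, h1, h2, h3⟩ := h.rgt
    have := mem_box2.1 (hP hp)
    refine ⟨_, Finset.mem_image_of_mem _ hp, h1, ?_, ?_⟩
    · show k - 1 - p.1 ≠ 0
      omega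
    · show k - 1 - p.1 + 1 ≠ k
      omega

lemma Four.swp {k l : ℕ} {P : Finset (ℕ × ℕ)} (h : Four k l P) : Four l k (swp P) where
  sub := swp_subset h.sub
  hk := h.hl
  hl := h.hk
  nw := by
    obtain ⟨p, hp, h1, h2⟩ := h.nw
    exact ⟨p.swap, mem_swp.2 (by rwa [Prod.swap_swap]), h2, h1⟩
  ne := by
    obtain ⟨p, hp, h1, h2⟩ := h.sw
    exact ⟨p.swap, mem_swp.2 (by rwa [Prod.swap_swap]), h2, h1⟩
  sw := by
    obtain ⟨p, hp, h1, h2⟩ := h.ne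
    exact ⟨p.swap, mem_swp.2 (by rwa [Prod.swap_swap]), h2, h1⟩
  se := by
    obtain ⟨p, hp, h1, h2⟩ := h.se
    exact ⟨p.swap, mem_swp.2 (by rwa [Prod.swap_swap]), h2, h1⟩

/-- without the two lower corner ones -/
def pA (k l : ℕ) (P : Finset (ℕ × ℕ)) : Finset (ℕ × ℕ) :=
  P.filter (fun p => ¬ (p.1 + 1 = k ∧ p.2 = 0) ∧ ¬ (p.1 + 1 = k ∧ p.2 + 1 = l))

/-- without the two upper corner ones -/
def pB (l : ℕ) (P : Finset (ℕ × ℕ)) : Finset (ℕ × ℕ) :=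
  P.filter (fun p => ¬ (p.1 = 0 ∧ p.2 = 0) ∧ ¬ (p.1 = 0 ∧ p.2 + 1 = l))

/-- without the two left corner ones -/
def pL (k : ℕ) (P : Finset (ℕ × ℕ)) : Finset (ℕ × ℕ) :=
  P.filter (fun p => ¬ (p.1 = 0 ∧ p.2 = 0) ∧ ¬ (p.1 + 1 = k ∧ p.2 = 0))

/-- without the two right corner ones -/
def pR (k l : ℕ) (P : Finset (ℕ × ℕ)) : Finset (ℕ × ℕ) :=
  P.filter (fun p => ¬ (p.1 = 0 ∧ p.2 + 1 = l) ∧ ¬ (p.1 + 1 = k ∧ p.2 + 1 = l))

lemma flp_pB {k l : ℕ} {P : Finset (ℕ × ℕ)} (hP : P ⊆ box2 k l) :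
    flp k (pB l P) = pA k l (flp k P) := by
  ext x
  simp only [flp, pA, pB, Finset.mem_image, Finset.mem_filter]
  constructor
  · rintro ⟨y, ⟨hy, h1, h2⟩, rfl⟩
    have := mem_box2.1 (hP hy)
    refine ⟨⟨y, hy, rfl⟩, ?_, ?_⟩
    · show ¬ (k - 1 - y.1 + 1 = k ∧ y.2 = 0)
      omega
    · show ¬ (k - 1 - y.1 + 1 = k ∧ y.2 + 1 = l)
      omega
  · rintro ⟨⟨y, hy, rfl⟩, h1, h2⟩
    have := mem_box2.1 (hP hy)
    simp only at h1 h2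
    refine ⟨y, ⟨hy, ?_, ?_⟩, rfl⟩
    · omega
    · omega

lemma swp_pR {k l : ℕ} {P : Finset (ℕ × ℕ)} : swp (pR k l P) = pA l k (swp P) := by
  ext x
  simp only [mem_swp, pA, pR, Finset.mem_filter, Prod.fst_swap, Prod.snd_swap]
  tauto

lemma swp_pL {k : ℕ} {P : Finset (ℕ × ℕ)} : swp (pL k P) = pB k (swp P) := by
  ext x
  simp only [mem_swp, pB, pL, Finset.mem_filter, Prod.fst_swap, Prod.snd_swap]
  tauto

section

variable {k l : ℕ} {P : Finset (ℕ × ℕ)}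

lemma spansA (h : Four k l P) (hn : Nondeg k l P) : Spans2 k l (pA k l P) := by
  have hk := h.hk
  have hl := h.hl
  obtain ⟨a, ha, a1, a2⟩ := h.nw
  obtain ⟨b, hb, b1, b2⟩ := h.ne
  obtain ⟨c, hc, c1, c2, c3⟩ := hn.b
  have ha' : a ∈ pA k l P := by
    rw [pA, Finset.mem_filter]; refine ⟨ha, ?_, ?_⟩ <;> omega
  have hb' : b ∈ pA k l P := by
    rw [pA, Finset.mem_filter]; refine ⟨hb, ?_, ?_⟩ <;> omega
  have hc' : c ∈ pA k l P := by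
    rw [pA, Finset.mem_filter]; refine ⟨hc, ?_, ?_⟩ <;> omega
  exact ⟨⟨a, ha', a1⟩, ⟨c, hc', c1⟩, ⟨a, ha', a2⟩, ⟨b, hb', b2⟩⟩

lemma spansB (h : Four k l P) (hn : Nondeg k l P) : Spans2 k l (pB l P) := by
  have hk := h.hk
  have hl := h.hl
  obtain ⟨a, ha, a1, a2⟩ := h.sw
  obtain ⟨b, hb, b1, b2⟩ := h.se
  obtain ⟨c, hc, c1, c2, c3⟩ := hn.t
  have ha' : a ∈ pB l P := by
    rw [pB, Finset.mem_filter]; refine ⟨ha, ?_, ?_⟩ <;> omega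
  have hb' : b ∈ pB l P := by
    rw [pB, Finset.mem_filter]; refine ⟨hb, ?_, ?_⟩ <;> omega
  have hc' : c ∈ pB l P := by
    rw [pB, Finset.mem_filter]; refine ⟨hc, ?_, ?_⟩ <;> omega
  exact ⟨⟨c, hc', c1⟩, ⟨a, ha', a1⟩, ⟨a, ha', a2⟩, ⟨b, hb', b2⟩⟩

lemma spansL (h : Four k l P) (hn : Nondeg k l P) : Spans2 k l (pL k P) := by
  have hk := h.hk
  have hl := h.hl
  obtain ⟨a, ha, a1, a2⟩ := h.ne
  obtain ⟨b, hb, b1, b2⟩ := h.se
  obtain ⟨c, hc, c1, c2, c3⟩ := hn.lft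
  have ha' : a ∈ pL k P := by
    rw [pL, Finset.mem_filter]; refine ⟨ha, ?_, ?_⟩ <;> omega
  have hb' : b ∈ pL k P := by
    rw [pL, Finset.mem_filter]; refine ⟨hb, ?_, ?_⟩ <;> omega
  have hc' : c ∈ pL k P := by
    rw [pL, Finset.mem_filter]; refine ⟨hc, ?_, ?_⟩ <;> omega
  exact ⟨⟨a, ha', a1⟩, ⟨b, hb', b1⟩, ⟨c, hc', c1⟩, ⟨a, ha', a2⟩⟩

lemma spansR (h : Four k l P) (hn : Nondeg k l P) : Spans2 k l (pR k l P) := by
  have hk := h.hk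
  have hl := h.hl
  obtain ⟨a, ha, a1, a2⟩ := h.nw
  obtain ⟨b, hb, b1, b2⟩ := h.sw
  obtain ⟨c, hc, c1, c2, c3⟩ := hn.rgt
  have ha' : a ∈ pR k l P := by
    rw [pR, Finset.mem_filter]; refine ⟨ha, ?_, ?_⟩ <;> omega
  have hb' : b ∈ pR k l P := by
    rw [pR, Finset.mem_filter]; refine ⟨hb, ?_, ?_⟩ <;> omega
  have hc' : c ∈ pR k l P := by
    rw [pR, Finset.mem_filter]; refine ⟨hc, ?_, ?_⟩ <;> omega
  exact ⟨⟨a, ha', a1⟩, ⟨b, hb', b1⟩, ⟨a, ha', a2⟩, ⟨c, hc', c1⟩⟩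

lemma spansG (h : Four k l P) : Spans2 k l (dropA k l P) := by
  have hk := h.hk
  have hl := h.hl
  obtain ⟨p, hp, p1, p2⟩ := h.nw
  obtain ⟨q, hq, q1, q2⟩ := h.se
  have hp' : p ∈ dropA k l P := by
    rw [dropA, Finset.mem_filter]
    refine ⟨hp, ?_, ?_⟩ <;> omega
  have hq' : q ∈ dropA k l P := by
    rw [dropA, Finset.mem_filter]
    refine ⟨hq, ?_, ?_⟩ <;> omega
  exact ⟨⟨p, hp', p1⟩, ⟨q, hq', q1⟩, ⟨p, hp', p2⟩, ⟨q, hq', q2⟩⟩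

lemma scalA (h : Four k l P) (hn : Nondeg k l P) : Scal k l (pA k l P) := by
  have hk := h.hk
  have hl := h.hl
  apply scal_top (spansA h hn) ((Finset.filter_subset _ _).trans h.sub)
  · obtain ⟨a, ha, a1, a2⟩ := h.nw
    refine ⟨a, ?_, a1, a2⟩
    rw [pA, Finset.mem_filter]; refine ⟨ha, ?_, ?_⟩ <;> omega
  · obtain ⟨b, hb, b1, b2⟩ := h.ne
    refine ⟨b, ?_, b1, b2⟩
    rw [pA, Finset.mem_filter]; refine ⟨hb, ?_, ?_⟩ <;> omega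
  · intro p hp h1 h2
    rw [pA, Finset.mem_filter] at hp
    exact hp.2.1 ⟨h1, h2⟩
  · intro p hp h1 h2
    rw [pA, Finset.mem_filter] at hp
    exact hp.2.2 ⟨h1, h2⟩

lemma scalB (h : Four k l P) (hn : Nondeg k l P) : Scal k l (pB l P) := by
  apply Scal.of_flp (X := pB l P) ((Finset.filter_subset _ _).trans h.sub)
  rw [flp_pB h.sub]
  exact scalA h.flp (hn.flp h.sub)

lemma scalR (h : Four k l P) (hn : Nondeg k l P) : Scal k l (pR k l P) := by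
  apply Scal.of_swp
  rw [swp_pR]
  exact scalA h.swp hn.swp

lemma scalL (h : Four k l P) (hn : Nondeg k l P) : Scal k l (pL k P) := by
  apply Scal.of_swp
  rw [swp_pL]
  exact scalB h.swp hn.swp

lemma scalD (h : Four k l P) : Scal k l (dropD k l P) := scal_of_indec h.spans h.indec

lemma scalG (h : Four k l P) : Scal k l (dropA k l P) := by
  apply Scal.of_flp h.dropA_sub
  rw [flp_dropA h.sub]
  exact scalD h.flp

/-! ## Pairs -/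

/-- the pattern without its upper right corner one -/
def dropNE (l : ℕ) (P : Finset (ℕ × ℕ)) : Finset (ℕ × ℕ) :=
  P.filter (fun p => ¬ (p.1 = 0 ∧ p.2 + 1 = l))

/-- the pattern without its lower left corner one -/
def dropSW (k : ℕ) (P : Finset (ℕ × ℕ)) : Finset (ℕ × ℕ) :=
  P.filter (fun p => ¬ (p.1 + 1 = k ∧ p.2 = 0))

/-- combination along the diagonal -/
lemma diag_of {X Y : Finset (ℕ × ℕ)} (hP : P ⊆ box2 k l) (hk : 2 ≤ k) (hl : 2 ≤ l)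
    (hne : ∃ p ∈ P, p.1 = 0 ∧ p.2 + 1 = l) (hsw : ∃ p ∈ P, p.1 + 1 = k ∧ p.2 = 0)
    (hX : X ⊆ dropSE k l P) (hY : Y ⊆ dropNW P) : PairOK k l X Y P := by
  obtain ⟨b, hb, b1, b2⟩ := hne
  obtain ⟨c, hc, c1, c2⟩ := hsw
  have hb1 : b ∈ dropSE k l P := by
    rw [dropSE, Finset.mem_filter]; refine ⟨hb, ?_⟩; omega
  have hc1 : c ∈ dropSE k l P := by
    rw [dropSE, Finset.mem_filter]; refine ⟨hc, ?_⟩; omega
  have hb2 : b ∈ dropNW P := by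
    rw [dropNW, Finset.mem_filter]; refine ⟨hb, ?_⟩; omega
  have hc2 : c ∈ dropNW P := by
    rw [dropNW, Finset.mem_filter]; refine ⟨hc, ?_⟩; omega
  refine pair_diag ⟨⟨b, hb, b1⟩, ⟨c, hc, c1⟩, ⟨c, hc, c2⟩, ⟨b, hb, b2⟩⟩
    ⟨⟨b, hb1, b1⟩, ⟨c, hc1, c1⟩, ⟨c, hc1, c2⟩, ⟨b, hb1, b2⟩⟩
    ⟨⟨b, hb2, b1⟩, ⟨c, hc2, c1⟩, ⟨c, hc2, c2⟩, ⟨b, hb2, b2⟩⟩ ?_ hX hY
  intro P₁ P₂ hU hne1 hne2 hle
  have hb' : b ∈ P₁ ∪ P₂ := by rw [hU]; exact hb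
  have hc' : c ∈ P₁ ∪ P₂ := by rw [hU]; exact hc
  rcases Finset.mem_union.1 hb' with hb3 | hb3
  · rcases Finset.mem_union.1 hc' with hc3 | hc3
    · left
      intro x hx
      have h1 := hle b hb3 x hx
      have h2 := hle c hc3 x hx
      have h3 := mem_box2.1 (hP (by rw [← hU]; exact Finset.mem_union_right _ hx : x ∈ P))
      omega
    · exfalso
      have h1 := hle b hb3 c hc3
      omega
  · rcases Finset.mem_union.1 hc' with hc3 | hc3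
    · exfalso
      have h1 := hle c hc3 b hb3
      omega
    · right
      intro y hy
      have h1 := hle y hy b hb3
      have h2 := hle y hy c hc3
      omega

lemma flp_sub_dropSE {X : Finset (ℕ × ℕ)} (hP : P ⊆ box2 k l) (hX : X ⊆ dropNE l P) :
    flp k X ⊆ dropSE k l (flp k P) := by
  intro x hx
  obtain ⟨y, hy, rfl⟩ := Finset.mem_image.1 hx
  have hy' := hX hy
  rw [dropNE, Finset.mem_filter] at hy'
  have := mem_box2.1 (hP hy'.1)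
  rw [dropSE, Finset.mem_filter]
  refine ⟨Finset.mem_image_of_mem _ hy'.1, ?_⟩
  show ¬ (k - 1 - y.1 + 1 = k ∧ y.2 + 1 = l)
  omega

lemma flp_sub_dropNW {Y : Finset (ℕ × ℕ)} (hP : P ⊆ box2 k l) (hY : Y ⊆ dropSW k P) :
    flp k Y ⊆ dropNW (flp k P) := by
  intro x hx
  obtain ⟨y, hy, rfl⟩ := Finset.mem_image.1 hx
  have hy' := hY hy
  rw [dropSW, Finset.mem_filter] at hy'
  have := mem_box2.1 (hP hy'.1)
  rw [dropNW, Finset.mem_filter]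
  refine ⟨Finset.mem_image_of_mem _ hy'.1, ?_⟩
  show ¬ (k - 1 - y.1 = 0 ∧ y.2 = 0)
  omega

lemma Four.diag {X Y : Finset (ℕ × ℕ)} (h : Four k l P) (hX : X ⊆ dropSE k l P)
    (hY : Y ⊆ dropNW P) : PairOK k l X Y P :=
  diag_of h.sub h.hk h.hl h.ne h.sw hX hY

lemma Four.anti {X Y : Finset (ℕ × ℕ)} (h : Four k l P) (hX : X ⊆ dropNE l P)
    (hY : Y ⊆ dropSW k P) : PairOK k l X Y P := by
  refine PairOK.of_flp ((hX.trans (Finset.filter_subset _ _)).trans h.sub)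
    ((hY.trans (Finset.filter_subset _ _)).trans h.sub) h.sub ?_
  exact h.flp.diag (flp_sub_dropSE h.sub hX) (flp_sub_dropNW h.sub hY)

lemma filter_sub_filter {p q : ℕ × ℕ → Prop} [DecidablePred p] [DecidablePred q]
    (h : ∀ x, p x → q x) : P.filter p ⊆ P.filter q := by
  intro x hx
  rw [Finset.mem_filter] at hx ⊢
  exact ⟨hx.1, h x hx.2⟩

lemma A_SE : pA k l P ⊆ dropSE k l P := filter_sub_filter (fun _ h => h.2)
lemma A_SW : pA k l P ⊆ dropSW k P := filter_sub_filter (fun _ h => h.1)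
lemma B_NW : pB l P ⊆ dropNW P := filter_sub_filter (fun _ h => h.1)
lemma B_NE : pB l P ⊆ dropNE l P := filter_sub_filter (fun _ h => h.2)
lemma L_NW : pL k P ⊆ dropNW P := filter_sub_filter (fun _ h => h.1)
lemma L_SW : pL k P ⊆ dropSW k P := filter_sub_filter (fun _ h => h.2)
lemma R_NE : pR k l P ⊆ dropNE l P := filter_sub_filter (fun _ h => h.1)
lemma R_SE : pR k l P ⊆ dropSE k l P := filter_sub_filter (fun _ h => h.2)
lemma D_NW : dropD k l P ⊆ dropNW P := filter_sub_filter (fun _ h => h.1)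
lemma D_SE : dropD k l P ⊆ dropSE k l P := filter_sub_filter (fun _ h => h.2)
lemma G_NE : dropA k l P ⊆ dropNE l P := filter_sub_filter (fun _ h => h.1)
lemma G_SW : dropA k l P ⊆ dropSW k P := filter_sub_filter (fun _ h => h.2)

/-! ## Windows -/

lemma rows_windows {n : ℕ} {S : Finset (ℕ × ℕ)} (h : Four k l P) (hn : Nondeg k l P)
    (hS : S ⊆ box2 n n) (hE : ¬ Emb2 n n k l S P)
    {T B L R : ℕ × ℕ} (hB : B ∈ S) (hL : L ∈ S) (hR : R ∈ S)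
    (eT : ∀ s ∈ S, T.1 ≤ s.1) (eB : ∀ s ∈ S, s.1 ≤ B.1) (eL : ∀ s ∈ S, L.2 ≤ s.2)
    (eR : ∀ s ∈ S, s.2 ≤ R.2) (hLR : L.1 ≤ R.1) :
    S.card ≤ M2 (L.1 + 1) n k l (pA k l P) + M2 (R.1 - L.1 + 1) n k l (dropD k l P) +
      M2 (n - R.1) n k l (pB l P) := by
  classical
  have bB := mem_box2.1 (hS hB)
  have bL := mem_box2.1 (hS hL)
  have bR := mem_box2.1 (hS hR)
  have TL := eT L hL
  have BR := eB R hR
  have LR := eL R hR
  have h1 : (rect S T.1 L.1 L.2 R.2).card ≤ M2 (L.1 + 1) n k l (pA k l P) := by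
    refine (rect_card_le (Q := pA k l P) hE TL bL.1 LR bR.2 ?_).trans
      (M2_mono (spansA h hn) (by omega) (by omega))
    intro p hp hpQ
    rw [pA, Finset.mem_filter] at hpQ
    by_cases g1 : p.1 + 1 = k ∧ p.2 = 0
    · exact ⟨L, hL, Or.inr ⟨le_rfl, g1.1⟩, Or.inl ⟨le_rfl, g1.2⟩⟩
    · by_cases g2 : p.1 + 1 = k ∧ p.2 + 1 = l
      · exact ⟨R, hR, Or.inr ⟨hLR, g2.1⟩, Or.inr ⟨le_rfl, g2.2⟩⟩
      · exact absurd ⟨hp, g1, g2⟩ hpQ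
  have h2 : (rect S L.1 R.1 L.2 R.2).card ≤ M2 (R.1 - L.1 + 1) n k l (dropD k l P) := by
    refine (rect_card_le (Q := dropD k l P) hE hLR bR.1 LR bR.2 ?_).trans
      (M2_mono h.spans (by omega) (by omega))
    intro p hp hpQ
    rw [dropD, Finset.mem_filter] at hpQ
    by_cases g1 : p.1 = 0 ∧ p.2 = 0
    · exact ⟨L, hL, Or.inl ⟨le_rfl, g1.1⟩, Or.inl ⟨le_rfl, g1.2⟩⟩
    · by_cases g2 : p.1 + 1 = k ∧ p.2 + 1 = l
      · exact ⟨R, hR, Or.inr ⟨le_rfl, g2.1⟩, Or.inr ⟨le_rfl, g2.2⟩⟩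
      · exact absurd ⟨hp, g1, g2⟩ hpQ
  have h3 : (rect S R.1 B.1 L.2 R.2).card ≤ M2 (n - R.1) n k l (pB l P) := by
    refine (rect_card_le (Q := pB l P) hE BR bB.1 LR bR.2 ?_).trans
      (M2_mono (spansB h hn) (by omega) (by omega))
    intro p hp hpQ
    rw [pB, Finset.mem_filter] at hpQ
    by_cases g1 : p.1 = 0 ∧ p.2 = 0
    · exact ⟨L, hL, Or.inl ⟨hLR, g1.1⟩, Or.inl ⟨le_rfl, g1.2⟩⟩
    · by_cases g2 : p.1 = 0 ∧ p.2 + 1 = l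
      · exact ⟨R, hR, Or.inl ⟨le_rfl, g2.1⟩, Or.inr ⟨le_rfl, g2.2⟩⟩
      · exact absurd ⟨hp, g1, g2⟩ hpQ
  have hcov : S ⊆ (rect S T.1 L.1 L.2 R.2 ∪ rect S L.1 R.1 L.2 R.2) ∪
      rect S R.1 B.1 L.2 R.2 := by
    intro s hs
    have e1 := eT s hs
    have e2 := eB s hs
    have e3 := eL s hs
    have e4 := eR s hs
    simp only [Finset.mem_union, mem_rect, hs, true_and]
    omega
  have c0 := Finset.card_le_card hcov
  have c1 := Finset.card_union_le (rect S T.1 L.1 L.2 R.2 ∪ rect S L.1 R.1 L.2 R.2)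
    (rect S R.1 B.1 L.2 R.2)
  have c2 := Finset.card_union_le (rect S T.1 L.1 L.2 R.2) (rect S L.1 R.1 L.2 R.2)
  omega

lemma cols_windows_diag {n : ℕ} {S : Finset (ℕ × ℕ)} (h : Four k l P) (hn : Nondeg k l P)
    (hS : S ⊆ box2 n n) (hE : ¬ Emb2 n n k l S P)
    {T B L R : ℕ × ℕ} (hT : T ∈ S) (hB : B ∈ S) (hR : R ∈ S)
    (eT : ∀ s ∈ S, T.1 ≤ s.1) (eB : ∀ s ∈ S, s.1 ≤ B.1) (eL : ∀ s ∈ S, L.2 ≤ s.2)
    (eR : ∀ s ∈ S, s.2 ≤ R.2) (hTB : T.2 ≤ B.2) :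
    S.card ≤ M2 n (T.2 + 1) k l (pR k l P) + M2 n (B.2 - T.2 + 1) k l (dropD k l P) +
      M2 n (n - B.2) k l (pL k P) := by
  classical
  have bB := mem_box2.1 (hS hB)
  have bT := mem_box2.1 (hS hT)
  have bR := mem_box2.1 (hS hR)
  have LT := eL T hT
  have RB := eR B hB
  have TB := eT B hB
  have h1 : (rect S T.1 B.1 L.2 T.2).card ≤ M2 n (T.2 + 1) k l (pR k l P) := by
    refine (rect_card_le (Q := pR k l P) hE TB bB.1 LT bT.2 ?_).trans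
      (M2_mono (spansR h hn) (by omega) (by omega))
    intro p hp hpQ
    rw [pR, Finset.mem_filter] at hpQ
    by_cases g1 : p.1 = 0 ∧ p.2 + 1 = l
    · exact ⟨T, hT, Or.inl ⟨le_rfl, g1.1⟩, Or.inr ⟨le_rfl, g1.2⟩⟩
    · by_cases g2 : p.1 + 1 = k ∧ p.2 + 1 = l
      · exact ⟨B, hB, Or.inr ⟨le_rfl, g2.1⟩, Or.inr ⟨hTB, g2.2⟩⟩
      · exact absurd ⟨hp, g1, g2⟩ hpQ
  have h2 : (rect S T.1 B.1 T.2 B.2).card ≤ M2 n (B.2 - T.2 + 1) k l (dropD k l P) := by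
    refine (rect_card_le (Q := dropD k l P) hE TB bB.1 hTB bB.2 ?_).trans
      (M2_mono h.spans (by omega) (by omega))
    intro p hp hpQ
    rw [dropD, Finset.mem_filter] at hpQ
    by_cases g1 : p.1 = 0 ∧ p.2 = 0
    · exact ⟨T, hT, Or.inl ⟨le_rfl, g1.1⟩, Or.inl ⟨le_rfl, g1.2⟩⟩
    · by_cases g2 : p.1 + 1 = k ∧ p.2 + 1 = l
      · exact ⟨B, hB, Or.inr ⟨le_rfl, g2.1⟩, Or.inr ⟨le_rfl, g2.2⟩⟩
      · exact absurd ⟨hp, g1, g2⟩ hpQ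
  have h3 : (rect S T.1 B.1 B.2 R.2).card ≤ M2 n (n - B.2) k l (pL k P) := by
    refine (rect_card_le (Q := pL k P) hE TB bB.1 RB bR.2 ?_).trans
      (M2_mono (spansL h hn) (by omega) (by omega))
    intro p hp hpQ
    rw [pL, Finset.mem_filter] at hpQ
    by_cases g1 : p.1 = 0 ∧ p.2 = 0
    · exact ⟨T, hT, Or.inl ⟨le_rfl, g1.1⟩, Or.inl ⟨hTB, g1.2⟩⟩
    · by_cases g2 : p.1 + 1 = k ∧ p.2 = 0
      · exact ⟨B, hB, Or.inr ⟨le_rfl, g2.1⟩, Or.inl ⟨le_rfl, g2.2⟩⟩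
      · exact absurd ⟨hp, g1, g2⟩ hpQ
  have hcov : S ⊆ (rect S T.1 B.1 L.2 T.2 ∪ rect S T.1 B.1 T.2 B.2) ∪
      rect S T.1 B.1 B.2 R.2 := by
    intro s hs
    have e1 := eT s hs
    have e2 := eB s hs
    have e3 := eL s hs
    have e4 := eR s hs
    simp only [Finset.mem_union, mem_rect, hs, true_and]
    omega
  have c0 := Finset.card_le_card hcov
  have c1 := Finset.card_union_le (rect S T.1 B.1 L.2 T.2 ∪ rect S T.1 B.1 T.2 B.2)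
    (rect S T.1 B.1 B.2 R.2)
  have c2 := Finset.card_union_le (rect S T.1 B.1 L.2 T.2) (rect S T.1 B.1 T.2 B.2)
  omega

lemma cols_windows_anti {n : ℕ} {S : Finset (ℕ × ℕ)} (h : Four k l P) (hn : Nondeg k l P)
    (hS : S ⊆ box2 n n) (hE : ¬ Emb2 n n k l S P)
    {T B L R : ℕ × ℕ} (hT : T ∈ S) (hB : B ∈ S) (hR : R ∈ S)
    (eT : ∀ s ∈ S, T.1 ≤ s.1) (eB : ∀ s ∈ S, s.1 ≤ B.1) (eL : ∀ s ∈ S, L.2 ≤ s.2)
    (eR : ∀ s ∈ S, s.2 ≤ R.2) (hBT : B.2 ≤ T.2) :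
    S.card ≤ M2 n (B.2 + 1) k l (pR k l P) + M2 n (T.2 - B.2 + 1) k l (dropA k l P) +
      M2 n (n - T.2) k l (pL k P) := by
  classical
  have bB := mem_box2.1 (hS hB)
  have bT := mem_box2.1 (hS hT)
  have bR := mem_box2.1 (hS hR)
  have LB := eL B hB
  have RT := eR T hT
  have TB := eT B hB
  have h1 : (rect S T.1 B.1 L.2 B.2).card ≤ M2 n (B.2 + 1) k l (pR k l P) := by
    refine (rect_card_le (Q := pR k l P) hE TB bB.1 LB bB.2 ?_).trans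
      (M2_mono (spansR h hn) (by omega) (by omega))
    intro p hp hpQ
    rw [pR, Finset.mem_filter] at hpQ
    by_cases g1 : p.1 = 0 ∧ p.2 + 1 = l
    · exact ⟨T, hT, Or.inl ⟨le_rfl, g1.1⟩, Or.inr ⟨hBT, g1.2⟩⟩
    · by_cases g2 : p.1 + 1 = k ∧ p.2 + 1 = l
      · exact ⟨B, hB, Or.inr ⟨le_rfl, g2.1⟩, Or.inr ⟨le_rfl, g2.2⟩⟩
      · exact absurd ⟨hp, g1, g2⟩ hpQ
  have h2 : (rect S T.1 B.1 B.2 T.2).card ≤ M2 n (T.2 - B.2 + 1) k l (dropA k l P) := by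
    refine (rect_card_le (Q := dropA k l P) hE TB bB.1 hBT bT.2 ?_).trans
      (M2_mono (spansG h) (by omega) (by omega))
    intro p hp hpQ
    rw [dropA, Finset.mem_filter] at hpQ
    by_cases g1 : p.1 = 0 ∧ p.2 + 1 = l
    · exact ⟨T, hT, Or.inl ⟨le_rfl, g1.1⟩, Or.inr ⟨le_rfl, g1.2⟩⟩
    · by_cases g2 : p.1 + 1 = k ∧ p.2 = 0
      · exact ⟨B, hB, Or.inr ⟨le_rfl, g2.1⟩, Or.inl ⟨le_rfl, g2.2⟩⟩
      · exact absurd ⟨hp, g1, g2⟩ hpQ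
  have h3 : (rect S T.1 B.1 T.2 R.2).card ≤ M2 n (n - T.2) k l (pL k P) := by
    refine (rect_card_le (Q := pL k P) hE TB bB.1 RT bR.2 ?_).trans
      (M2_mono (spansL h hn) (by omega) (by omega))
    intro p hp hpQ
    rw [pL, Finset.mem_filter] at hpQ
    by_cases g1 : p.1 = 0 ∧ p.2 = 0
    · exact ⟨T, hT, Or.inl ⟨le_rfl, g1.1⟩, Or.inl ⟨le_rfl, g1.2⟩⟩
    · by_cases g2 : p.1 + 1 = k ∧ p.2 = 0
      · exact ⟨B, hB, Or.inr ⟨le_rfl, g2.1⟩, Or.inl ⟨hBT, g2.2⟩⟩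
      · exact absurd ⟨hp, g1, g2⟩ hpQ
  have hcov : S ⊆ (rect S T.1 B.1 L.2 B.2 ∪ rect S T.1 B.1 B.2 T.2) ∪
      rect S T.1 B.1 T.2 R.2 := by
    intro s hs
    have e1 := eT s hs
    have e2 := eB s hs
    have e3 := eL s hs
    have e4 := eR s hs
    simp only [Finset.mem_union, mem_rect, hs, true_and]
    omega
  have c0 := Finset.card_le_card hcov
  have c1 := Finset.card_union_le (rect S T.1 B.1 L.2 B.2 ∪ rect S T.1 B.1 B.2 T.2)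
    (rect S T.1 B.1 T.2 R.2)
  have c2 := Finset.card_union_le (rect S T.1 B.1 L.2 B.2) (rect S T.1 B.1 B.2 T.2)
  omega

end

end Pool.Agent.Helper450IM
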