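import Pool.Agent.helper450_im.HalfFour

/-!
# The factors two and three halves
-/

namespace Pool.Agent.Helper450IM

open Finset Filter Topology

variable {k l : ℕ} {P : Finset (ℕ × ℕ)}

/-- The estimate for four corner ones when the leftmost one is above the rightmost one. -/
lemma four_half_aux (h : Four k l P) (hn : Nondeg k l P) {lam : ℝ} (hlam : 0 ≤ lam)
    (hfreq : ∀ ε > 0, ∃ᶠ n : ℕ in atTop, (M2 n n k l P : ℝ) / n < lam + ε) {q : ℕ}
    (hq : 1 ≤ q) :
    ∃ C : ℕ, ∀ n : ℕ, 2 ≤ n → ∀ S ⊆ box2 n n, ¬ Emb2 n n k l S P →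
      ∀ T ∈ S, ∀ B ∈ S, ∀ L ∈ S, ∀ R ∈ S, (∀ s ∈ S, T.1 ≤ s.1) → (∀ s ∈ S, s.1 ≤ B.1) →
        (∀ s ∈ S, L.2 ≤ s.2) → (∀ s ∈ S, s.2 ≤ R.2) → L.1 ≤ R.1 →
        ((q : ℝ) - 1) * (2 * (S.card : ℝ) - 6 * C) ≤ q * lam * (4 * n + 2) := by
  have hsp : Spans2 k l P := by
    obtain ⟨a, ha, a1, a2⟩ := h.nw
    obtain ⟨b, hb, b1, b2⟩ := h.se
    exact ⟨⟨a, ha, a1⟩, ⟨b, hb, b1⟩, ⟨a, ha, a2⟩, ⟨b, hb, b2⟩⟩
  obtain ⟨C11, Q11⟩ := exists_PI hsp (scalA h hn) (scalR h hn) ((h.anti R_NE A_SW).symm)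
    hlam hfreq hq
  obtain ⟨C12, Q12⟩ := exists_PI hsp (scalA h hn) (scalD h) (h.diag A_SE D_NW) hlam hfreq hq
  obtain ⟨C13, Q13⟩ := exists_PI hsp (scalA h hn) (scalL h hn) (h.diag A_SE L_NW) hlam hfreq hq
  obtain ⟨C21, Q21⟩ := exists_PI hsp (scalD h) (scalR h hn) ((h.diag R_SE D_NW).symm)
    hlam hfreq hq
  obtain ⟨C22, Q22⟩ := exists_PI hsp (scalD h) (scalD h) (h.diag D_SE D_NW) hlam hfreq hq
  obtain ⟨C23, Q23⟩ := exists_PI hsp (scalD h) (scalL h hn) (h.diag D_SE L_NW) hlam hfreq hq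
  obtain ⟨C31, Q31⟩ := exists_PI hsp (scalB h hn) (scalR h hn) ((h.diag R_SE B_NW).symm)
    hlam hfreq hq
  obtain ⟨C32, Q32⟩ := exists_PI hsp (scalB h hn) (scalD h) ((h.diag D_SE B_NW).symm)
    hlam hfreq hq
  obtain ⟨C33, Q33⟩ := exists_PI hsp (scalB h hn) (scalL h hn) (h.anti B_NE L_SW)
    hlam hfreq hq
  obtain ⟨C14, Q14⟩ := exists_PI hsp (scalA h hn) (scalG h) ((h.anti G_NE A_SW).symm)
    hlam hfreq hq
  obtain ⟨C34, Q34⟩ := exists_PI hsp (scalB h hn) (scalG h) (h.anti B_NE G_SW) hlam hfreq hq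
  set C := C11 + C12 + C13 + C21 + C22 + C23 + C31 + C32 + C33 + C14 + C34 with hC
  replace Q11 := Q11.mono hq (C' := C) (by omega)
  replace Q12 := Q12.mono hq (C' := C) (by omega)
  replace Q13 := Q13.mono hq (C' := C) (by omega)
  replace Q21 := Q21.mono hq (C' := C) (by omega)
  replace Q22 := Q22.mono hq (C' := C) (by omega)
  replace Q23 := Q23.mono hq (C' := C) (by omega)
  replace Q31 := Q31.mono hq (C' := C) (by omega)
  replace Q32 := Q32.mono hq (C' := C) (by omega)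
  replace Q33 := Q33.mono hq (C' := C) (by omega)
  replace Q14 := Q14.mono hq (C' := C) (by omega)
  replace Q34 := Q34.mono hq (C' := C) (by omega)
  refine ⟨C, fun n hn2 S hS hE T hT B hB L hL R hR eT eB eL eR hLR => ?_⟩
  have bT := mem_box2.1 (hS hT)
  have bB := mem_box2.1 (hS hB)
  have bL := mem_box2.1 (hS hL)
  have bR := mem_box2.1 (hS hR)
  have hq1 : (0 : ℝ) ≤ (q : ℝ) - 1 := by
    have : (1 : ℝ) ≤ q := by exact_mod_cast hq
    linarith
  have hnR : (1 : ℝ) < n := by exact_mod_cast hn2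
  have hrows := rows_windows h hn hS hE hB hL hR eT eB eL eR hLR
  obtain ⟨r1, hr1⟩ : ∃ r, r = L.1 + 1 := ⟨_, rfl⟩
  obtain ⟨r2, hr2⟩ : ∃ r, r = R.1 - L.1 + 1 := ⟨_, rfl⟩
  obtain ⟨r3, hr3⟩ : ∃ r, r = n - R.1 := ⟨_, rfl⟩
  rw [← hr1, ← hr2, ← hr3] at hrows
  have hrsum : (r1 : ℝ) + r2 + r3 = n + 2 := by
    have : r1 + r2 + r3 = n + 2 := by omega
    exact_mod_cast this
  have hrowsR : (S.card : ℝ) ≤ (M2 r1 n k l (pA k l P) : ℝ) + M2 r2 n k l (dropD k l P) +
      M2 r3 n k l (pB l P) := by exact_mod_cast hrows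
  rcases le_total T.2 B.2 with hTB | hTB
  · have hcols := cols_windows_diag h hn hS hE hT hB hR eT eB eL eR hTB
    obtain ⟨c1, hc1⟩ : ∃ c, c = T.2 + 1 := ⟨_, rfl⟩
    obtain ⟨c2, hc2⟩ : ∃ c, c = B.2 - T.2 + 1 := ⟨_, rfl⟩
    obtain ⟨c3, hc3⟩ : ∃ c, c = n - B.2 := ⟨_, rfl⟩
    rw [← hc1, ← hc2, ← hc3] at hcols
    have hcsum : (c1 : ℝ) + c2 + c3 = n + 2 := by
      have : c1 + c2 + c3 = n + 2 := by omega
      exact_mod_cast this
    have hcolsR : (S.card : ℝ) ≤ (M2 n c1 k l (pR k l P) : ℝ) + M2 n c2 k l (dropD k l P) +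
        M2 n c3 k l (pL k P) := by exact_mod_cast hcols
    have key := weights_good hnR hrsum hcsum
      (Q11 n r1 c1 (by omega) (by omega) (by omega) (by omega))
      (Q12 n r1 c2 (by omega) (by omega) (by omega) (by omega))
      (Q13 n r1 c3 (by omega) (by omega) (by omega) (by omega))
      (Q21 n r2 c1 (by omega) (by omega) (by omega) (by omega))
      (Q22 n r2 c2 (by omega) (by omega) (by omega) (by omega))
      (Q23 n r2 c3 (by omega) (by omega) (by omega) (by omega))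
      (Q31 n r3 c1 (by omega) (by omega) (by omega) (by omega))
      (Q32 n r3 c2 (by omega) (by omega) (by omega) (by omega))
      (Q33 n r3 c3 (by omega) (by omega) (by omega) (by omega))
    refine le_trans ?_ key
    have h1 := mul_le_mul_of_nonneg_left (add_le_add hrowsR hcolsR) hq1
    linarith
  · have hcols := cols_windows_anti h hn hS hE hT hB hR eT eB eL eR hTB
    obtain ⟨c1, hc1⟩ : ∃ c, c = B.2 + 1 := ⟨_, rfl⟩
    obtain ⟨c2, hc2⟩ : ∃ c, c = T.2 - B.2 + 1 := ⟨_, rfl⟩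
    obtain ⟨c3, hc3⟩ : ∃ c, c = n - T.2 := ⟨_, rfl⟩
    rw [← hc1, ← hc2, ← hc3] at hcols
    have hcsum : (c1 : ℝ) + c2 + c3 = n + 2 := by
      have : c1 + c2 + c3 = n + 2 := by omega
      exact_mod_cast this
    have hcolsR : (S.card : ℝ) ≤ (M2 n c1 k l (pR k l P) : ℝ) + M2 n c2 k l (dropA k l P) +
        M2 n c3 k l (pL k P) := by exact_mod_cast hcols
    have hr2' : (1 : ℝ) ≤ r2 := by exact_mod_cast (by omega : 1 ≤ r2)
    have hc2' : (1 : ℝ) ≤ c2 := by exact_mod_cast (by omega : 1 ≤ c2)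
    have key := weights_bad hnR hrsum hcsum hr2' hc2'
      (Q11 n r1 c1 (by omega) (by omega) (by omega) (by omega))
      (Q14 n r1 c2 (by omega) (by omega) (by omega) (by omega))
      (Q13 n r1 c3 (by omega) (by omega) (by omega) (by omega))
      (Q21 n r2 c1 (by omega) (by omega) (by omega) (by omega))
      (Q23 n r2 c3 (by omega) (by omega) (by omega) (by omega))
      (Q31 n r3 c1 (by omega) (by omega) (by omega) (by omega))
      (Q34 n r3 c2 (by omega) (by omega) (by omega) (by omega))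
      (Q33 n r3 c3 (by omega) (by omega) (by omega) (by omega))
    refine le_trans ?_ key
    have h1 := mul_le_mul_of_nonneg_left (add_le_add hrowsR hcolsR) hq1
    linarith

/-- A bound for `m(n)/n` in terms of its lower limit gives a bound for the oscillation. -/
lemma osc_of_liminf {u : ℕ → ℕ} {K : ℝ} (hK : 0 ≤ K) {B : ℕ} (hB : ∀ n, u n ≤ B * n)
    (h : ∀ lam : ℝ, 0 ≤ lam → (∀ ε > 0, ∃ᶠ n : ℕ in atTop, (u n : ℝ) / n < lam + ε) →
      ∀ q : ℕ, 1 ≤ q → ∃ C : ℝ, ∀ n : ℕ, 2 ≤ n →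
        ((q : ℝ) - 1) * ((u n : ℝ) - C) ≤ q * lam * (K * n + 1)) : OscSeq K u := by
  set g : ℕ → ℝ := fun n => (u n : ℝ) / n with hg
  have hg0 : ∀ n, 0 ≤ g n := fun n => by rw [hg]; positivity
  have hgB : ∀ n, g n ≤ B := by
    intro n
    rcases Nat.eq_zero_or_pos n with h0 | h0
    · rw [hg]; subst h0; simp
    · have : (0 : ℝ) < n := by exact_mod_cast h0
      rw [hg]
      simp only
      rw [div_le_iff₀ this]
      exact_mod_cast hB n
  have hbb : IsBoundedUnder (· ≥ ·) atTop g := isBoundedUnder_of ⟨0, hg0⟩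
  have hbc : IsCoboundedUnder (· ≥ ·) atTop g :=
    (isBoundedUnder_of ⟨(B : ℝ), hgB⟩ : IsBoundedUnder (· ≤ ·) atTop g).isCoboundedUnder_ge
  set lam := liminf g atTop with hlamdef
  have hlam : 0 ≤ lam := le_liminf_of_le hbc (Eventually.of_forall hg0)
  have hfreq : ∀ ε > 0, ∃ᶠ n : ℕ in atTop, (u n : ℝ) / n < lam + ε := by
    intro ε hε
    exact frequently_lt_of_liminf_lt hbc (show liminf g atTop < lam + ε by linarith)
  refine ⟨lam, hlam, ?_, ?_⟩
  · intro ε hε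
    filter_upwards [eventually_lt_of_lt_liminf (show lam - ε < liminf g atTop by linarith) hbb]
      with n hn
    exact hn.le
  · intro ε hε
    -- choose `q`
    obtain ⟨q, hq⟩ := exists_nat_gt (2 * (K * lam) / ε + 2)
    have hKl : 0 ≤ K * lam := mul_nonneg hK hlam
    have hq2 : (2 : ℝ) < q := by
      have : 0 ≤ 2 * (K * lam) / ε := by positivity
      linarith
    have hq2' : 2 < q := by exact_mod_cast hq2
    have hqε : 2 * (K * lam) < (q - 1) * ε := by
      have h1 : 2 * (K * lam) / ε < (q : ℝ) - 1 := by linarith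
      rwa [div_lt_iff₀ hε] at h1
    obtain ⟨C, hC⟩ := h lam hlam hfreq q (by omega)
    obtain ⟨n₀, hn₀⟩ := exists_nat_gt (2 * ((q * lam) / (q - 1) + |C|) / ε)
    filter_upwards [eventually_ge_atTop (n₀ + 2)] with n hn
    have h1 := hC n (by omega)
    have hnR : (0 : ℝ) < n := by
      have : 0 < n := by omega
      exact_mod_cast this
    have hq1 : (0 : ℝ) < (q : ℝ) - 1 := by linarith
    rw [div_le_iff₀ hnR]
    -- divide by `q - 1`
    have h2 : (u n : ℝ) ≤ q * lam * (K * n + 1) / (q - 1) + C := by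
      rw [← sub_le_iff_le_add, le_div_iff₀ hq1]
      linarith
    have h3 : q * lam * (K * n + 1) / (q - 1) = (K * lam) * n + (K * lam) * n / (q - 1) +
        (q * lam) / (q - 1) := by
      field_simp
      ring
    have h4 : (K * lam) * n / (q - 1) ≤ ε / 2 * n := by
      rw [div_le_iff₀ hq1]
      nlinarith
    have h5 : (q * lam) / (q - 1) + C ≤ ε / 2 * n := by
      rw [div_lt_iff₀ hε] at hn₀
      have h6 : (n₀ : ℝ) ≤ n := by exact_mod_cast (by omega : n₀ ≤ n)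
      have h7 := le_abs_self C
      nlinarith
    rw [h3] at h2
    linarith

/-- Four corner ones and no degenerate boundary line: the factor two. -/
theorem osc_four_half (h : Four k l P) (hn : Nondeg k l P) : Osc2 2 k l P := by
  obtain ⟨a, ha, _⟩ := h.nw
  obtain ⟨B₀, hB₀⟩ := exists_bound2 h.sub ⟨a, ha⟩
  apply osc_of_liminf (by norm_num) hB₀
  intro lam hlam hfreq q hq
  obtain ⟨C₁, hC₁⟩ := four_half_aux h hn hlam hfreq hq
  have hfreq' : ∀ ε > 0, ∃ᶠ n : ℕ in atTop, (M2 n n k l (flp k P) : ℝ) / n < lam + ε := by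
    intro ε hε
    refine (hfreq ε hε).mono ?_
    intro n hn
    rw [M2_flp h.sub]
    exact hn
  obtain ⟨C₂, hC₂⟩ := four_half_aux h.flp (hn.flp h.sub) hlam hfreq' hq
  refine ⟨3 * ((C₁ + C₂ : ℕ) : ℝ), fun n hn2 => ?_⟩
  have hq1 : (0 : ℝ) ≤ (q : ℝ) - 1 := by
    have : (1 : ℝ) ≤ q := by exact_mod_cast hq
    linarith
  obtain ⟨S, hS, hE, hc⟩ := exists_M2 n n k l ⟨a, ha⟩
  rw [← hc]
  have hCpos : (0 : ℝ) ≤ ((C₁ + C₂ : ℕ) : ℝ) := by positivity
  rcases S.eq_empty_or_nonempty with h0 | h0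
  · subst h0
    rw [Finset.card_empty, Nat.cast_zero]
    have h1 : 0 ≤ (q : ℝ) * lam * (2 * n + 1) := by positivity
    nlinarith
  obtain ⟨T, hT, B, hB, L, hL, R, hR, eT, eB, eL, eR⟩ := exists_extremes h0
  rcases le_total L.1 R.1 with hLR | hLR
  · have h1 := hC₁ n hn2 S hS hE T hT B hB L hL R hR eT eB eL eR hLR
    have h2 : (C₁ : ℝ) ≤ ((C₁ + C₂ : ℕ) : ℝ) := by exact_mod_cast (by omega : C₁ ≤ C₁ + C₂)
    have h3 := mul_le_mul_of_nonneg_left h2 hq1
    linarith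
  · have hfl : ∀ s ∈ flp n S, ∃ s' ∈ S, s = (n - 1 - s'.1, s'.2) := by
      intro s hs
      obtain ⟨s', hs', rfl⟩ := Finset.mem_image.1 hs
      exact ⟨s', hs', rfl⟩
    have hmem : ∀ s ∈ S, (n - 1 - s.1, s.2) ∈ flp n S := fun s hs =>
      Finset.mem_image_of_mem _ hs
    have h1 := hC₂ n hn2 (flp n S) (flp_subset hS) (by
      intro hcon
      apply hE
      have := emb2_flp (flp_subset hS) hcon
      rwa [flp_flp hS, flp_flp h.sub] at this) _ (hmem B hB) _ (hmem T hT) _ (hmem L hL) _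
      (hmem R hR) (by
        intro s hs
        obtain ⟨s', hs', rfl⟩ := hfl s hs
        have := eB s' hs'
        show n - 1 - B.1 ≤ n - 1 - s'.1
        omega) (by
        intro s hs
        obtain ⟨s', hs', rfl⟩ := hfl s hs
        have := eT s' hs'
        show n - 1 - s'.1 ≤ n - 1 - T.1
        omega) (by
        intro s hs
        obtain ⟨s', hs', rfl⟩ := hfl s hs
        exact eL s' hs') (by
        intro s hs
        obtain ⟨s', hs', rfl⟩ := hfl s hs
        exact eR s' hs') (by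
        show n - 1 - L.1 ≤ n - 1 - R.1
        omega)
    rw [card_flp hS] at h1
    have h2 : (C₂ : ℝ) ≤ ((C₁ + C₂ : ℕ) : ℝ) := by exact_mod_cast (by omega : C₂ ≤ C₁ + C₂)
    have h3 := mul_le_mul_of_nonneg_left h2 hq1
    linarith

end Pool.Agent.Helper450IM
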