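import Pool.Agent.helper450_im.HalfMain

/-!
# Three corner ones: the factor three halves
-/

namespace Pool.Agent.Helper450IM

open Finset Filter Topology

/-- the three corners NW, NE, SW are ones, SE is not, and no boundary line is degenerate -/
structure Three (k l : ℕ) (P : Finset (ℕ × ℕ)) : Prop where
  sub : P ⊆ box2 k l
  hk : 2 ≤ k
  hl : 2 ≤ l
  nw : ∃ p ∈ P, p.1 = 0 ∧ p.2 = 0
  ne : ∃ p ∈ P, p.1 = 0 ∧ p.2 + 1 = l
  sw : ∃ p ∈ P, p.1 + 1 = k ∧ p.2 = 0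
  se : ∀ p ∈ P, p.1 + 1 = k → p.2 + 1 ≠ l
  nd : Nondeg k l P

variable {k l : ℕ} {P : Finset (ℕ × ℕ)}

lemma Three.swp (h : Three k l P) : Three l k (swp P) where
  sub := swp_subset h.sub
  hk := h.hl
  hl := h.hk
  nw := by
    obtain ⟨p, hp, h1, h2⟩ := h.nw
    exact ⟨p.swap, mem_swp.2 (by rwa [Prod.swap_swap]), h2, h1⟩
  ne := by
    obtain ⟨p, hp, h1, h2⟩ := h.sw
    exact ⟨p.swap, mem_swp.2 (by rwa [Prod.swap_swap]), h2, h1⟩
  sw := by
    obtain ⟨p, hp, h1, h2⟩ := h.ne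
    exact ⟨p.swap, mem_swp.2 (by rwa [Prod.swap_swap]), h2, h1⟩
  se := by
    intro p hp h1 h2
    exact h.se p.swap (mem_swp.1 hp) h2 h1
  nd := h.nd.swp

lemma swp_dropNE : swp (dropNE l P) = dropSW l (swp P) := by
  ext x
  simp only [mem_swp, dropNE, dropSW, Finset.mem_filter, Prod.fst_swap, Prod.snd_swap]
  tauto

lemma Three.spansSW (h : Three k l P) : Spans2 k l (dropSW k P) := by
  have hk := h.hk
  have hl := h.hl
  obtain ⟨a, ha, a1, a2⟩ := h.nw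
  obtain ⟨b, hb, b1, b2⟩ := h.ne
  obtain ⟨c, hc, c1, c2, c3⟩ := h.nd.b
  have ha' : a ∈ dropSW k P := by
    rw [dropSW, Finset.mem_filter]; refine ⟨ha, ?_⟩; omega
  have hb' : b ∈ dropSW k P := by
    rw [dropSW, Finset.mem_filter]; refine ⟨hb, ?_⟩; omega
  have hc' : c ∈ dropSW k P := by
    rw [dropSW, Finset.mem_filter]; refine ⟨hc, ?_⟩; omega
  exact ⟨⟨a, ha', a1⟩, ⟨c, hc', c1⟩, ⟨a, ha', a2⟩, ⟨b, hb', b2⟩⟩

lemma Three.spansNE (h : Three k l P) : Spans2 k l (dropNE l P) := by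
  have h1 := h.swp.spansSW
  rw [← swp_dropNE] at h1
  have h2 := h1.swp
  rwa [swp_swp] at h2

lemma Three.spansNW (h : Three k l P) : Spans2 k l (dropNW P) := by
  have hk := h.hk
  have hl := h.hl
  obtain ⟨b, hb, b1, b2⟩ := h.ne
  obtain ⟨c, hc, c1, c2⟩ := h.sw
  have hb' : b ∈ dropNW P := by
    rw [dropNW, Finset.mem_filter]; refine ⟨hb, ?_⟩; omega
  have hc' : c ∈ dropNW P := by
    rw [dropNW, Finset.mem_filter]; refine ⟨hc, ?_⟩; omega
  exact ⟨⟨b, hb', b1⟩, ⟨c, hc', c1⟩, ⟨c, hc', c2⟩, ⟨b, hb', b2⟩⟩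

lemma Three.scalSW (h : Three k l P) : Scal k l (dropSW k P) := by
  have hk := h.hk
  have hl := h.hl
  apply scal_top h.spansSW ((Finset.filter_subset _ _).trans h.sub)
  · obtain ⟨a, ha, a1, a2⟩ := h.nw
    refine ⟨a, ?_, a1, a2⟩
    rw [dropSW, Finset.mem_filter]; refine ⟨ha, ?_⟩; omega
  · obtain ⟨b, hb, b1, b2⟩ := h.ne
    refine ⟨b, ?_, b1, b2⟩
    rw [dropSW, Finset.mem_filter]; refine ⟨hb, ?_⟩; omega
  · intro p hp h1 h2
    rw [dropSW, Finset.mem_filter] at hp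
    exact hp.2 ⟨h1, h2⟩
  · intro p hp
    rw [dropSW, Finset.mem_filter] at hp
    exact h.se p hp.1

lemma Three.scalNE (h : Three k l P) : Scal k l (dropNE l P) := by
  apply Scal.of_swp
  rw [swp_dropNE]
  exact h.swp.scalSW

lemma Three.scalNW (h : Three k l P) : Scal k l (dropNW P) := by
  have hk := h.hk
  have hl := h.hl
  apply scal_of_indec h.spansNW
  by_contra hI
  obtain ⟨b, hb, b1, b2⟩ := h.ne
  have hb' : b ∈ dropNW P := by
    rw [dropNW, Finset.mem_filter]; refine ⟨hb, ?_⟩; omega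
  have hsub : dropNW P ⊆ box2 k l := (Finset.filter_subset _ _).trans h.sub
  have hnwN : ∀ p ∈ dropNW P, p.1 = 0 → p.2 ≠ 0 := by
    intro p hp h1 h2
    rw [dropNW, Finset.mem_filter] at hp
    exact hp.2 ⟨h1, h2⟩
  have hseN : ∀ p ∈ dropNW P, p.1 + 1 = k → p.2 + 1 ≠ l := by
    intro p hp
    rw [dropNW, Finset.mem_filter] at hp
    exact h.se p hp.1
  have hno := no_corner hsub h.spansNW hnwN hseN hI
  exact hno.1 b hb' b1 b2

lemma Three.sub_dropSE (h : Three k l P) {X : Finset (ℕ × ℕ)} (hX : X ⊆ P) :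
    X ⊆ dropSE k l P := by
  intro x hx
  rw [dropSE, Finset.mem_filter]
  exact ⟨hX hx, fun h1 => h.se x (hX hx) h1.1 h1.2⟩

lemma Three.diag (h : Three k l P) {X Y : Finset (ℕ × ℕ)} (hX : X ⊆ P)
    (hY : Y ⊆ dropNW P) : PairOK k l X Y P :=
  diag_of h.sub h.hk h.hl h.ne h.sw (h.sub_dropSE hX) hY

/-- combination along the other diagonal -/
lemma Three.anti (h : Three k l P) : PairOK k l (dropNE l P) (dropSW k P) P := by
  have hk := h.hk
  have hl := h.hl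
  refine PairOK.of_flp ((Finset.filter_subset _ _).trans h.sub)
    ((Finset.filter_subset _ _).trans h.sub) h.sub ?_
  have hF := flp_subset h.sub
  have hnd := h.nd.flp h.sub
  -- elements of the flipped pattern
  obtain ⟨a, ha, a1, a2⟩ : ∃ p ∈ flp k P, p.1 = 0 ∧ p.2 = 0 := by
    obtain ⟨p, hp, h1, h2⟩ := h.sw
    refine ⟨_, Finset.mem_image_of_mem _ hp, ?_, h2⟩
    show k - 1 - p.1 = 0
    omega
  obtain ⟨c, hc, c1, c2⟩ : ∃ p ∈ flp k P, p.1 + 1 = k ∧ p.2 = 0 := by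
    obtain ⟨p, hp, h1, h2⟩ := h.nw
    refine ⟨_, Finset.mem_image_of_mem _ hp, ?_, h2⟩
    show k - 1 - p.1 + 1 = k
    omega
  obtain ⟨d, hd, d1, d2, d3⟩ := hnd.rgt
  obtain ⟨e, he, e1, e2, e3⟩ := hnd.t
  have hc1 : c ∈ dropSE k l (flp k P) := by
    rw [dropSE, Finset.mem_filter]; refine ⟨hc, ?_⟩; omega
  have ha1 : a ∈ dropSE k l (flp k P) := by
    rw [dropSE, Finset.mem_filter]; refine ⟨ha, ?_⟩; omega
  have hd1 : d ∈ dropSE k l (flp k P) := by
    rw [dropSE, Finset.mem_filter]; refine ⟨hd, ?_⟩; omega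
  have hc2 : c ∈ dropNW (flp k P) := by
    rw [dropNW, Finset.mem_filter]; refine ⟨hc, ?_⟩; omega
  have hd2 : d ∈ dropNW (flp k P) := by
    rw [dropNW, Finset.mem_filter]; refine ⟨hd, ?_⟩; omega
  have he2 : e ∈ dropNW (flp k P) := by
    rw [dropNW, Finset.mem_filter]; refine ⟨he, ?_⟩; omega
  refine pair_diag ⟨⟨a, ha, a1⟩, ⟨c, hc, c1⟩, ⟨a, ha, a2⟩, ⟨d, hd, d1⟩⟩
    ⟨⟨a, ha1, a1⟩, ⟨c, hc1, c1⟩, ⟨a, ha1, a2⟩, ⟨d, hd1, d1⟩⟩
    ⟨⟨e, he2, e1⟩, ⟨c, hc2, c1⟩, ⟨c, hc2, c2⟩, ⟨d, hd2, d1⟩⟩ ?_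
    (flp_sub_dropSE h.sub (Finset.Subset.refl _)) (flp_sub_dropNW h.sub (Finset.Subset.refl _))
  intro P₁ P₂ hU hne1 hne2 hle
  have hmem : ∀ p ∈ flp k P, p ∈ P₁ ∨ p ∈ P₂ := by
    intro p hp
    rw [← hU, Finset.mem_union] at hp
    exact hp
  rcases hmem c hc with hc3 | hc3
  · left
    intro x hx
    have h3 := mem_box2.1 (hF (by rw [← hU]; exact Finset.mem_union_right _ hx : x ∈ flp k P))
    have h1 := hle c hc3 x hx
    rcases hmem d hd with hd3 | hd3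
    · have h2 := hle d hd3 x hx
      omega
    · exfalso
      have h2 := hle c hc3 d hd3
      have h4 := mem_box2.1 (hF hd)
      omega
  · right
    intro y hy
    have h1 := hle y hy c hc3
    rcases hmem e he with he3 | he3
    · exfalso
      have h2 := hle e he3 c hc3
      omega
    · have h2 := hle y hy e he3
      omega

/-- Three corner ones and no degenerate boundary line: the factor three halves. -/
theorem osc_three_half (h : Three k l P) : Osc2 (3 / 2) k l P := by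
  classical
  obtain ⟨a, ha, a1, a2⟩ := id h.nw
  obtain ⟨b, hb, b1, b2⟩ := id h.ne
  obtain ⟨c, hc, c1, c2⟩ := id h.sw
  have hsp : Spans2 k l P := ⟨⟨a, ha, a1⟩, ⟨c, hc, c1⟩, ⟨a, ha, a2⟩, ⟨b, hb, b2⟩⟩
  obtain ⟨B₀, hB₀⟩ := exists_bound2 h.sub ⟨a, ha⟩
  apply osc_of_liminf (by norm_num) hB₀
  intro lam hlam hfreq q hq
  have hSWP : dropSW k P ⊆ P := Finset.filter_subset _ _
  have hNEP : dropNE l P ⊆ P := Finset.filter_subset _ _
  have hNWP : dropNW P ⊆ P := Finset.filter_subset _ _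
  obtain ⟨C11, Q11⟩ := exists_PI hsp h.scalSW h.scalNE h.anti.symm hlam hfreq hq
  obtain ⟨C12, Q12⟩ := exists_PI hsp h.scalSW h.scalNW (h.diag hSWP (Finset.Subset.refl _))
    hlam hfreq hq
  obtain ⟨C21, Q21⟩ := exists_PI hsp h.scalNW h.scalNE
    (h.diag hNEP (Finset.Subset.refl _)).symm hlam hfreq hq
  obtain ⟨C22, Q22⟩ := exists_PI hsp h.scalNW h.scalNW (h.diag hNWP (Finset.Subset.refl _))
    hlam hfreq hq
  set C := C11 + C12 + C21 + C22 with hC
  replace Q11 := Q11.mono hq (C' := C) (by omega)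
  replace Q12 := Q12.mono hq (C' := C) (by omega)
  replace Q21 := Q21.mono hq (C' := C) (by omega)
  replace Q22 := Q22.mono hq (C' := C) (by omega)
  refine ⟨2 * (C : ℝ), fun n hn2 => ?_⟩
  have hq1 : (0 : ℝ) ≤ (q : ℝ) - 1 := by
    have : (1 : ℝ) ≤ q := by exact_mod_cast hq
    linarith
  obtain ⟨S, hS, hE, hcS⟩ := exists_M2 n n k l ⟨a, ha⟩
  rw [← hcS]
  have hCpos : (0 : ℝ) ≤ (C : ℝ) := by positivity
  have hql : 0 ≤ (q : ℝ) * lam := by positivity
  rcases S.eq_empty_or_nonempty with h0 | h0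
  · subst h0
    rw [Finset.card_empty, Nat.cast_zero]
    have h1 : 0 ≤ (q : ℝ) * lam * (3 / 2 * n + 1) := by positivity
    nlinarith
  obtain ⟨T, hT, B, hB, L, hL, R, hR, eT, eB, eL, eR⟩ := exists_extremes h0
  have bT := mem_box2.1 (hS hT)
  have bB := mem_box2.1 (hS hB)
  have bL := mem_box2.1 (hS hL)
  have bR := mem_box2.1 (hS hR)
  have TL := eT L hL
  have BL := eB L hL
  have LR := eL R hR
  have LT := eL T hT
  have RT := eR T hT
  have TB := eT B hB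
  -- row windows
  have h1 : (rect S T.1 L.1 L.2 R.2).card ≤ M2 (L.1 + 1) n k l (dropSW k P) := by
    refine (rect_card_le (Q := dropSW k P) hE TL bL.1 LR bR.2 ?_).trans
      (M2_mono h.spansSW (by omega) (by omega))
    intro p hp hpQ
    rw [dropSW, Finset.mem_filter] at hpQ
    have g1 : p.1 + 1 = k ∧ p.2 = 0 := by
      by_contra hcon
      exact hpQ ⟨hp, hcon⟩
    exact ⟨L, hL, Or.inr ⟨le_rfl, g1.1⟩, Or.inl ⟨le_rfl, g1.2⟩⟩
  have h2 : (rect S L.1 B.1 L.2 R.2).card ≤ M2 (n - L.1) n k l (dropNW P) := by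
    refine (rect_card_le (Q := dropNW P) hE BL bB.1 LR bR.2 ?_).trans
      (M2_mono h.spansNW (by omega) (by omega))
    intro p hp hpQ
    rw [dropNW, Finset.mem_filter] at hpQ
    have g1 : p.1 = 0 ∧ p.2 = 0 := by
      by_contra hcon
      exact hpQ ⟨hp, hcon⟩
    exact ⟨L, hL, Or.inl ⟨le_rfl, g1.1⟩, Or.inl ⟨le_rfl, g1.2⟩⟩
  have h3 : (rect S T.1 B.1 L.2 T.2).card ≤ M2 n (T.2 + 1) k l (dropNE l P) := by
    refine (rect_card_le (Q := dropNE l P) hE TB bB.1 LT bT.2 ?_).trans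
      (M2_mono h.spansNE (by omega) (by omega))
    intro p hp hpQ
    rw [dropNE, Finset.mem_filter] at hpQ
    have g1 : p.1 = 0 ∧ p.2 + 1 = l := by
      by_contra hcon
      exact hpQ ⟨hp, hcon⟩
    exact ⟨T, hT, Or.inl ⟨le_rfl, g1.1⟩, Or.inr ⟨le_rfl, g1.2⟩⟩
  have h4 : (rect S T.1 B.1 T.2 R.2).card ≤ M2 n (n - T.2) k l (dropNW P) := by
    refine (rect_card_le (Q := dropNW P) hE TB bB.1 RT bR.2 ?_).trans
      (M2_mono h.spansNW (by omega) (by omega))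
    intro p hp hpQ
    rw [dropNW, Finset.mem_filter] at hpQ
    have g1 : p.1 = 0 ∧ p.2 = 0 := by
      by_contra hcon
      exact hpQ ⟨hp, hcon⟩
    exact ⟨T, hT, Or.inl ⟨le_rfl, g1.1⟩, Or.inl ⟨le_rfl, g1.2⟩⟩
  have hcov : S ⊆ rect S T.1 L.1 L.2 R.2 ∪ rect S L.1 B.1 L.2 R.2 := by
    intro s hs
    have e1 := eT s hs
    have e2 := eB s hs
    have e3 := eL s hs
    have e4 := eR s hs
    simp only [Finset.mem_union, mem_rect, hs, true_and]
    omega
  have hcov' : S ⊆ rect S T.1 B.1 L.2 T.2 ∪ rect S T.1 B.1 T.2 R.2 := by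
    intro s hs
    have e1 := eT s hs
    have e2 := eB s hs
    have e3 := eL s hs
    have e4 := eR s hs
    simp only [Finset.mem_union, mem_rect, hs, true_and]
    omega
  have d1 := Finset.card_le_card hcov
  have d2 := Finset.card_union_le (rect S T.1 L.1 L.2 R.2) (rect S L.1 B.1 L.2 R.2)
  have d3 := Finset.card_le_card hcov'
  have d4 := Finset.card_union_le (rect S T.1 B.1 L.2 T.2) (rect S T.1 B.1 T.2 R.2)
  have hrows : S.card ≤ M2 (L.1 + 1) n k l (dropSW k P) + M2 (n - L.1) n k l (dropNW P) := by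
    omega
  have hcols : S.card ≤ M2 n (T.2 + 1) k l (dropNE l P) + M2 n (n - T.2) k l (dropNW P) := by
    omega
  obtain ⟨r1, hr1⟩ : ∃ r, r = L.1 + 1 := ⟨_, rfl⟩
  obtain ⟨r2, hr2⟩ : ∃ r, r = n - L.1 := ⟨_, rfl⟩
  obtain ⟨c1', hc1'⟩ : ∃ c, c = T.2 + 1 := ⟨_, rfl⟩
  obtain ⟨c2', hc2'⟩ : ∃ c, c = n - T.2 := ⟨_, rfl⟩
  rw [← hr1, ← hr2] at hrows
  rw [← hc1', ← hc2'] at hcols
  have hrsum : (r1 : ℝ) + r2 = n + 1 := by
    have : r1 + r2 = n + 1 := by omega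
    exact_mod_cast this
  have hcsum : (c1' : ℝ) + c2' = n + 1 := by
    have : c1' + c2' = n + 1 := by omega
    exact_mod_cast this
  have hrowsR : (S.card : ℝ) ≤ (M2 r1 n k l (dropSW k P) : ℝ) + M2 r2 n k l (dropNW P) := by
    exact_mod_cast hrows
  have hcolsR : (S.card : ℝ) ≤ (M2 n c1' k l (dropNE l P) : ℝ) + M2 n c2' k l (dropNW P) := by
    exact_mod_cast hcols
  have hnR : (1 : ℝ) < n := by exact_mod_cast hn2
  have key := weights_three hnR hrsum hcsum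
    (Q11 n r1 c1' (by omega) (by omega) (by omega) (by omega))
    (Q12 n r1 c2' (by omega) (by omega) (by omega) (by omega))
    (Q21 n r2 c1' (by omega) (by omega) (by omega) (by omega))
    (Q22 n r2 c2' (by omega) (by omega) (by omega) (by omega))
  have h5 := mul_le_mul_of_nonneg_left (add_le_add hrowsR hcolsR) hq1
  linarith

end Pool.Agent.Helper450IM
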