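import Pool.Agent.helper450_im.TwoBase

/-!
# Inserting a matrix above another one, in the middle of a zone of top ones

The pattern has ones in its two upper corners and zeros in its two lower corners. `M` and `N`
avoid it; all ones of `M` in the columns `c, …, c + z - 1` are in the top row, and there are at
least `l` of them. Then `N` can be put above `M`, its columns being inserted before column `c`.
-/

namespace Pool.Agent.Helper450IM

open Finset

/-- position of the column `j` of `M` after `w'` columns have been inserted before column `c` -/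
def shf (c w' j : ℕ) : ℕ := if j < c then j else j + w'

lemma shf_inj (c w' : ℕ) : Function.Injective (shf c w') := by
  intro i j h
  unfold shf at h
  split_ifs at h <;> omega

/-- `N` put above `M` -/
def ins (t' w' c : ℕ) (M N : Finset (ℕ × ℕ)) : Finset (ℕ × ℕ) :=
  N.image (fun x => (x.1, x.2 + c)) ∪ M.image (fun x => (x.1 + t', shf c w' x.2))

lemma mem_ins {t' w' c : ℕ} {M N : Finset (ℕ × ℕ)} {y : ℕ × ℕ} :
    y ∈ ins t' w' c M N ↔ (∃ x ∈ N, (x.1, x.2 + c) = y) ∨
      ∃ x ∈ M, (x.1 + t', shf c w' x.2) = y := by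
  simp only [ins, Finset.mem_union, Finset.mem_image]

lemma ins_subset {t w t' w' c : ℕ} {M N : Finset (ℕ × ℕ)} (hc : c ≤ w) (hM : M ⊆ box2 t w)
    (hN : N ⊆ box2 t' w') : ins t' w' c M N ⊆ box2 (t' + t) (w' + w) := by
  intro y hy
  rw [mem_ins] at hy
  rcases hy with ⟨x, hx, rfl⟩ | ⟨x, hx, rfl⟩
  · have := mem_box2.1 (hN hx)
    rw [mem_box2]
    show x.1 < t' + t ∧ x.2 + c < w' + w
    omega
  · have := mem_box2.1 (hM hx)
    rw [mem_box2]
    show x.1 + t' < t' + t ∧ shf c w' x.2 < w' + w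
    unfold shf
    split_ifs <;> omega

lemma card_ins {t' w' c : ℕ} {M N : Finset (ℕ × ℕ)} (hN : N ⊆ box2 t' w') :
    (ins t' w' c M N).card = N.card + M.card := by
  rw [ins, Finset.card_union_of_disjoint, Finset.card_image_of_injective,
    Finset.card_image_of_injective]
  · intro x y h
    simp only [Prod.mk.injEq] at h
    ext
    · omega
    · exact shf_inj _ _ h.2
  · intro x y h
    simp only [Prod.mk.injEq] at h
    ext <;> omega
  · rw [Finset.disjoint_left]
    intro y hy hy'
    obtain ⟨x, hx, rfl⟩ := Finset.mem_image.1 hy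
    obtain ⟨x', hx', h⟩ := Finset.mem_image.1 hy'
    simp only [Prod.mk.injEq] at h
    have := (mem_box2.1 (hN hx)).1
    omega

/-- the number of top ones in the columns `c, …, j - 1` -/
def cntTop (M : Finset (ℕ × ℕ)) (c j : ℕ) : ℕ :=
  ((Finset.range j).filter (fun i => c ≤ i ∧ ((0, i) : ℕ × ℕ) ∈ M)).card

lemma cntTop_mono (M : Finset (ℕ × ℕ)) (c : ℕ) : Monotone (cntTop M c) := by
  intro i j hij
  apply Finset.card_le_card
  intro x hx
  rw [Finset.mem_filter, Finset.mem_range] at hx ⊢
  exact ⟨by omega, hx.2⟩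

lemma cntTop_succ_le (M : Finset (ℕ × ℕ)) (c j : ℕ) :
    cntTop M c (j + 1) ≤ cntTop M c j + 1 := by
  unfold cntTop
  rw [Finset.range_add_one, Finset.filter_insert]
  split_ifs
  · exact Finset.card_insert_le _ _
  · omega

lemma cntTop_succ_of_mem {M : Finset (ℕ × ℕ)} {c j : ℕ} (hcj : c ≤ j)
    (h : ((0, j) : ℕ × ℕ) ∈ M) : cntTop M c (j + 1) = cntTop M c j + 1 := by
  unfold cntTop
  rw [Finset.range_add_one, Finset.filter_insert, if_pos ⟨hcj, h⟩, Finset.card_insert_of_notMem]
  simp

lemma cntTop_succ_of_not_mem {M : Finset (ℕ × ℕ)} {c j : ℕ}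
    (h : ¬ (c ≤ j ∧ ((0, j) : ℕ × ℕ) ∈ M)) : cntTop M c (j + 1) = cntTop M c j := by
  unfold cntTop
  rw [Finset.range_add_one, Finset.filter_insert, if_neg h]

lemma cntTop_self (M : Finset (ℕ × ℕ)) (c : ℕ) : cntTop M c c = 0 := by
  unfold cntTop
  rw [Finset.card_eq_zero, Finset.filter_eq_empty_iff]
  intro x hx
  rw [Finset.mem_range] at hx
  omega

/-- every value below the total number is attained at a top one -/
lemma exists_cntTop {M : Finset (ℕ × ℕ)} {c z e : ℕ} (he : e < cntTop M c (c + z)) :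
    ∃ j, c ≤ j ∧ j < c + z ∧ ((0, j) : ℕ × ℕ) ∈ M ∧ cntTop M c j = e := by
  induction z with
  | zero =>
    rw [add_zero, cntTop_self] at he
    omega
  | succ z ih =>
    by_cases h : e < cntTop M c (c + z)
    · obtain ⟨j, h1, h2, h3, h4⟩ := ih h
      exact ⟨j, h1, by omega, h3, h4⟩
    · have h1 : c + (z + 1) = c + z + 1 := by ring
      rw [h1] at he
      by_cases h2 : c ≤ c + z ∧ ((0, c + z) : ℕ × ℕ) ∈ M
      · rw [cntTop_succ_of_mem h2.1 h2.2] at he
        exact ⟨c + z, h2.1, by omega, h2.2, by omega⟩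
      · rw [cntTop_succ_of_not_mem h2] at he
        omega

/-- The insertion lemma. -/
theorem ins_avoids {t w t' w' k l c z : ℕ} {M N P : Finset (ℕ × ℕ)} (hM : M ⊆ box2 t w)
    (hN : N ⊆ box2 t' w') (hz : c + z ≤ w)
    (hzone : ∀ x ∈ M, c ≤ x.2 → x.2 < c + z → x.1 = 0)
    (hcnt : l ≤ cntTop M c (c + z))
    (hP : P ⊆ box2 k l)
    (hNW : ((0, 0) : ℕ × ℕ) ∈ P) (hNE : ∃ p ∈ P, p.1 = 0 ∧ p.2 + 1 = l)
    (hlast : ∃ p ∈ P, p.1 + 1 = k) (hSW : ∀ p ∈ P, p.1 + 1 = k → p.2 ≠ 0)
    (hSE : ∀ p ∈ P, p.1 + 1 = k → p.2 + 1 ≠ l)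
    (hMP : ¬ Emb2 t w k l M P) (hNP : ¬ Emb2 t' w' k l N P) :
    ¬ Emb2 (t' + t) (w' + w) k l (ins t' w' c M N) P := by
  rintro ⟨φ, ψ, hφ, hψ, hemb⟩
  have hhost : ∀ p ∈ P, (∃ x ∈ N, φ x.1 = p.1 ∧ ψ (x.2 + c) = p.2) ∨
      ∃ x ∈ M, φ (x.1 + t') = p.1 ∧ ψ (shf c w' x.2) = p.2 := by
    intro p hp
    obtain ⟨y, hy, hy1, hy2⟩ := hemb p hp
    rw [mem_ins] at hy
    rcases hy with ⟨x, hx, rfl⟩ | ⟨x, hx, rfl⟩
    · exact Or.inl ⟨x, hx, hy1, hy2⟩
    · exact Or.inr ⟨x, hx, hy1, hy2⟩
  have hk : 0 < k := by have := (mem_box2.1 (hP hNW)).1; omega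
  have hl : 0 < l := by have := (mem_box2.1 (hP hNW)).2; omega
  have hφ0 := hφ.zero hk
  have hψ0 := hψ.zero hl
  by_cases hA : ∃ x ∈ M, φ (x.1 + t') = 0
  · -- some element of `M` is in the first row interval
    obtain ⟨x0, hx0, hx0'⟩ := hA
    have hx0b := mem_box2.1 (hM hx0)
    have hφt : φ t' = 0 := by
      have := hφ.mono (show t' ≤ x0.1 + t' by omega)
      omega
    have hNrow : ∀ x ∈ N, φ x.1 = 0 := by
      intro x hx
      have h1 := (mem_box2.1 (hN hx)).1
      have := hφ.mono h1.le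
      omega
    apply hMP
    have hz0 : 0 < z := by
      rcases Nat.eq_zero_or_pos z with h | h
      · rw [h, add_zero, cntTop_self] at hcnt
        omega
      · exact h
    set ζ₁ := ψ c with hζ₁
    set ζ₂ := ψ (c + w' + z - 1) with hζ₂
    have hζ₂l : ζ₂ < l := hψ.lt _ (by omega)
    have hζ : ζ₁ ≤ ζ₂ := hψ.mono (by omega)
    -- a top one for every value between `ζ₁` and `ζ₂`
    have htop : ∀ v, ζ₁ ≤ v → v ≤ ζ₂ → ∃ j, c ≤ j ∧ j < c + z ∧ ((0, j) : ℕ × ℕ) ∈ M ∧
        min (ζ₁ + cntTop M c j) ζ₂ = v := by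
      intro v hv1 hv2
      obtain ⟨j, h1, h2, h3, h4⟩ := exists_cntTop (M := M) (c := c) (z := z) (e := v - ζ₁)
        (by omega)
      exact ⟨j, h1, h2, h3, by omega⟩
    set χ : ℕ → ℕ := fun j => if j < c then ψ j else if j < c + z then
      min (ζ₁ + cntTop M c j) ζ₂ else ψ (j + w') with hχ
    have hχ1 : ∀ j, j < c → χ j = ψ j := by
      intro j hj
      rw [hχ]; simp only [hj, if_true]
    have hχ2 : ∀ j, c ≤ j → j < c + z → χ j = min (ζ₁ + cntTop M c j) ζ₂ := by
      intro j hj hj'
      rw [hχ]; simp only [show ¬ j < c by omega, if_false, hj', if_true]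
    have hχ3 : ∀ j, c + z ≤ j → χ j = ψ (j + w') := by
      intro j hj
      rw [hχ]; simp only [show ¬ j < c by omega, if_false, show ¬ j < c + z by omega]
    refine ⟨fun i => φ (i + t'), χ, ⟨?_, ?_, ?_⟩, ⟨?_, ?_, ?_⟩, ?_⟩
    · intro i j hij
      exact hφ.mono (by omega)
    · intro i hi
      exact hφ.lt _ (by omega)
    · intro j hj
      obtain ⟨i, hi, hi'⟩ := hφ.surj j hj
      by_cases hit : i < t'
      · refine ⟨0, by omega, ?_⟩
        have := hφ.mono hit.le
        show φ (0 + t') = j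
        rw [zero_add]
        omega
      · refine ⟨i - t', by omega, ?_⟩
        show φ (i - t' + t') = j
        rw [show i - t' + t' = i by omega, hi']
    · intro i j hij
      by_cases hi1 : i < c
      · rw [hχ1 i hi1]
        by_cases hj1 : j < c
        · rw [hχ1 j hj1]; exact hψ.mono hij
        · have h1 : ψ i ≤ ζ₁ := hψ.mono (by omega)
          by_cases hj2 : j < c + z
          · rw [hχ2 j (by omega) hj2]; omega
          · rw [hχ3 j (by omega)]; exact hψ.mono (by omega)
      · by_cases hi2 : i < c + z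
        · rw [hχ2 i (by omega) hi2]
          by_cases hj2 : j < c + z
          · rw [hχ2 j (by omega) hj2]
            have := cntTop_mono M c hij
            omega
          · rw [hχ3 j (by omega)]
            have h1 : ζ₂ ≤ ψ (j + w') := hψ.mono (by omega)
            omega
        · rw [hχ3 i (by omega), hχ3 j (by omega)]
          exact hψ.mono (by omega)
    · intro j hj
      by_cases hj1 : j < c
      · rw [hχ1 j hj1]; exact hψ.lt _ (by omega)
      · by_cases hj2 : j < c + z
        · rw [hχ2 j (by omega) hj2]; omega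
        · rw [hχ3 j (by omega)]; exact hψ.lt _ (by omega)
    · intro v hv
      obtain ⟨i, hi, hi'⟩ := hψ.surj v hv
      by_cases h1 : i < c
      · exact ⟨i, by omega, by rw [hχ1 i h1, hi']⟩
      · by_cases h2 : i < c + w' + z
        · have e1 : ζ₁ ≤ v := by rw [← hi']; exact hψ.mono (by omega)
          have e2 : v ≤ ζ₂ := by rw [← hi']; exact hψ.mono (by omega)
          obtain ⟨j, h3, h4, _, h6⟩ := htop v e1 e2
          exact ⟨j, by omega, by rw [hχ2 j h3 h4, h6]⟩
        · refine ⟨i - w', by omega, ?_⟩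
          rw [hχ3 _ (by omega), show i - w' + w' = i by omega, hi']
    · intro p hp
      rcases hhost p hp with ⟨x, hx, hx1, hx2⟩ | ⟨x, hx, hx1, hx2⟩
      · have hxb := mem_box2.1 (hN hx)
        have e0 : p.1 = 0 := by rw [← hx1]; exact hNrow x hx
        have e1 : ζ₁ ≤ p.2 := by rw [← hx2]; exact hψ.mono (by omega)
        have e2 : p.2 ≤ ζ₂ := by rw [← hx2]; exact hψ.mono (by omega)
        obtain ⟨j, h3, h4, h5, h6⟩ := htop p.2 e1 e2
        refine ⟨(0, j), h5, ?_, ?_⟩
        · show φ (0 + t') = p.1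
          rw [zero_add, hφt, e0]
        · show χ j = p.2
          rw [hχ2 j h3 h4, h6]
      · have hxb := mem_box2.1 (hM hx)
        by_cases h1 : x.2 < c
        · refine ⟨x, hx, hx1, ?_⟩
          rw [hχ1 _ h1, ← hx2, shf, if_pos h1]
        · rw [shf, if_neg h1] at hx2
          by_cases h2 : x.2 < c + z
          · have h3 := hzone x hx (by omega) h2
            have e0 : p.1 = 0 := by
              rw [← hx1, h3, zero_add, hφt]
            have e1 : ζ₁ ≤ p.2 := by rw [← hx2]; exact hψ.mono (by omega)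
            have e2 : p.2 ≤ ζ₂ := by rw [← hx2]; exact hψ.mono (by omega)
            obtain ⟨j, h3, h4, h5, h6⟩ := htop p.2 e1 e2
            refine ⟨(0, j), h5, ?_, ?_⟩
            · show φ (0 + t') = p.1
              rw [zero_add, hφt, e0]
            · show χ j = p.2
              rw [hχ2 j h3 h4, h6]
          · refine ⟨x, hx, hx1, ?_⟩
            rw [hχ3 _ (by omega), hx2]
  · -- the first row of the pattern is hosted by `N`
    push Not at hA
    have hrow0 : ∀ p ∈ P, p.1 = 0 → ∃ x ∈ N, φ x.1 = p.1 ∧ ψ (x.2 + c) = p.2 := by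
      intro p hp hp0
      rcases hhost p hp with h | ⟨x, hx, hx1, _⟩
      · exact h
      · exact absurd (hx1.trans hp0) (hA x hx)
    obtain ⟨x, hx, hx1, hx2⟩ := hrow0 _ hNW rfl
    obtain ⟨pe, hpe, hpe0, hpel⟩ := hNE
    obtain ⟨y, hy, hy1, hy2⟩ := hrow0 pe hpe hpe0
    have hxb := mem_box2.1 (hN hx)
    have hyb := mem_box2.1 (hN hy)
    have hleft : ∀ j, j ≤ c → ψ j = 0 := by
      intro j hj
      have := hψ.mono (show j ≤ x.2 + c by omega)
      simp only at hx2
      omega
    have hright : ∀ j, c + w' ≤ j → j < w' + w → ψ j + 1 = l := by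
      intro j hj hj'
      have h1 := hψ.mono (show y.2 + c ≤ j by omega)
      have h2 := hψ.lt j hj'
      omega
    -- elements hosted by `M` are in the first or in the last column
    have hMcol : ∀ x ∈ M, ψ (shf c w' x.2) = 0 ∨ ψ (shf c w' x.2) + 1 = l := by
      intro x hx
      have hxb := mem_box2.1 (hM hx)
      unfold shf
      split_ifs with h
      · left; exact hleft _ h.le
      · right; exact hright _ (by omega) (by omega)
    obtain ⟨q, hq, hqk⟩ := hlast
    obtain ⟨u, hu, hu1, hu2⟩ : ∃ x ∈ N, φ x.1 = q.1 ∧ ψ (x.2 + c) = q.2 := by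
      rcases hhost q hq with h | ⟨x, hx, hx1, hx2⟩
      · exact h
      · exfalso
        rcases hMcol x hx with h | h
        · exact hSW q hq hqk (by omega)
        · exact hSE q hq hqk (by omega)
    have hub := mem_box2.1 (hN hu)
    have hbelow : ∀ i, t' ≤ i → i < t' + t → φ i + 1 = k := by
      intro i hi hi'
      have h1 := hφ.mono (show u.1 ≤ i by omega)
      have h2 := hφ.lt i hi'
      omega
    have hallN : ∀ p ∈ P, ∃ x ∈ N, φ x.1 = p.1 ∧ ψ (x.2 + c) = p.2 := by
      intro p hp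
      rcases hhost p hp with h | ⟨x, hx, hx1, hx2⟩
      · exact h
      · exfalso
        have hxb := mem_box2.1 (hM hx)
        have h1 := hbelow (x.1 + t') (by omega) (by omega)
        rcases hMcol x hx with h | h
        · exact hSW p hp (by omega) (by omega)
        · exact hSE p hp (by omega) (by omega)
    apply hNP
    refine ⟨φ, fun j => ψ (j + c), ⟨hφ.mono, fun i hi => hφ.lt i (by omega), ?_⟩,
      ⟨?_, ?_, ?_⟩, hallN⟩
    · intro v hv
      obtain ⟨i, hi, hi'⟩ := hφ.surj v hv
      by_cases h : i < t'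
      · exact ⟨i, h, hi'⟩
      · refine ⟨u.1, hub.1, ?_⟩
        have := hbelow i (by omega) hi
        omega
    · intro i j hij
      exact hψ.mono (by omega)
    · intro j hj
      by_cases h : j + c < w' + w
      · exact hψ.lt _ h
      · exfalso
        omega
    · intro v hv
      obtain ⟨i, hi, hi'⟩ := hψ.surj v hv
      by_cases h1 : i < c
      · refine ⟨x.2, hxb.2, ?_⟩
        show ψ (x.2 + c) = v
        rw [hx2, ← hi', hleft i h1.le]
      · by_cases h2 : i < c + w'
        · refine ⟨i - c, by omega, ?_⟩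
          show ψ (i - c + c) = v
          rw [show i - c + c = i by omega, hi']
        · refine ⟨y.2, hyb.2, ?_⟩
          show ψ (y.2 + c) = v
          have := hright i (by omega) hi
          omega

end Pool.Agent.Helper450IM
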