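import Pool.Agent.helper450_im.Sandwich

/-!
# Antichains of blocks and bounded oscillation
-/

namespace Pool.Agent.Helper450IM

open Finset Filter Topology

variable {d : ℕ}

/-! ## Reversing directions -/

/-- reversing the directions `ℓ` with `ε ℓ = false` in the box with all sides `r` -/
def rev (ε : Fin d → Bool) (r : ℕ) (b : Fin d → ℕ) : Fin d → ℕ :=
  fun ℓ => if ε ℓ = true then b ℓ else r - 1 - b ℓ

lemma rev_rev {ε : Fin d → Bool} {r : ℕ} {b : Fin d → ℕ} (hb : b ∈ box (fun _ => r)) :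
    rev ε r (rev ε r b) = b := by
  funext ℓ
  have := mem_box.1 hb ℓ
  unfold rev
  split_ifs
  · rfl
  · omega

lemma rev_mem {ε : Fin d → Bool} {r : ℕ} {b : Fin d → ℕ} (hb : b ∈ box (fun _ => r)) :
    rev ε r b ∈ box (fun _ : Fin d => r) := by
  rw [mem_box]
  intro ℓ
  have := mem_box.1 hb ℓ
  unfold rev
  split_ifs
  · exact this
  · omega

lemma card_image_rev {ε : Fin d → Bool} {r : ℕ} {B : Finset (Fin d → ℕ)}
    (hB : B ⊆ box (fun _ => r)) : (B.image (rev ε r)).card = B.card := by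
  apply Finset.card_image_of_injOn
  intro x hx y hy hxy
  rw [← rev_rev (ε := ε) (hB hx), ← rev_rev (ε := ε) (hB hy)]
  rw [hxy]

/-- `x` is strictly below `y` in every direction, after reversing the directions `ℓ` with
`ε ℓ = false` -/
def Below (ε : Fin d → Bool) (x y : Fin d → ℕ) : Prop :=
  ∀ ℓ, if ε ℓ = true then x ℓ < y ℓ else y ℓ < x ℓ

/-- the graph on `P` in which two positions are adjacent if one is strictly below the other in
every direction (after reversing) is connected -/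
def CompConnected (ε : Fin d → Bool) (P : Finset (Fin d → ℕ)) : Prop :=
  ∀ p ∈ P, ∀ q ∈ P, Relation.ReflTransGen
    (fun x y => x ∈ P ∧ y ∈ P ∧ (Below ε x y ∨ Below ε y x)) p q

/-- connected patterns are rigid with respect to (reversed) antichains -/
lemma rigid_of_compConnected {ε : Fin d → Bool} {P : Finset (Fin d → ℕ)}
    (h : CompConnected ε P) {r : ℕ} {B : Finset (Fin d → ℕ)} (hB : B ⊆ box (fun _ => r))
    (hanti : ∀ b ∈ B, ∀ c ∈ B, (∀ ℓ, b ℓ ≤ c ℓ) → b = c) : Rigid P (B.image (rev ε r)) := by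
  intro f hf hm p hp q hq
  have edge : ∀ x ∈ P, ∀ y ∈ P, Below ε x y → f x = f y := by
    intro x hx y hy hxy
    obtain ⟨b, hb, hbx⟩ := Finset.mem_image.1 (hf x hx)
    obtain ⟨c, hc, hcy⟩ := Finset.mem_image.1 (hf y hy)
    have hbc : b = c := by
      apply hanti b hb c hc
      intro ℓ
      have h1 := hxy ℓ
      have h2 := congrFun hbx ℓ
      have h3 := congrFun hcy ℓ
      have h4 := mem_box.1 (hB hb) ℓ
      have h5 := mem_box.1 (hB hc) ℓ
      unfold rev at h2 h3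
      by_cases hε : ε ℓ = true
      · rw [if_pos hε] at h1 h2 h3
        have := hm x hx y hy ℓ h1
        omega
      · rw [if_neg hε] at h1 h2 h3
        have := hm y hy x hx ℓ h1
        omega
    rw [← hbx, ← hcy, hbc]
  have key : ∀ q, Relation.ReflTransGen
      (fun x y => x ∈ P ∧ y ∈ P ∧ (Below ε x y ∨ Below ε y x)) p q → f p = f q := by
    intro q hpq
    induction hpq with
    | refl => rfl
    | tail _ hbc ih =>
      obtain ⟨hb, hc, h1 | h1⟩ := hbc
      · rw [ih, edge _ hb _ hc h1]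
      · rw [ih, edge _ hc _ hb h1]
  exact key q (h p hp q hq)

/-! ## A large layer -/

lemma exists_layer (hd : 0 < d) {r : ℕ} (hr : 1 ≤ r) :
    ∃ B : Finset (Fin d → ℕ), B ⊆ box (fun _ => r) ∧
      (∀ b ∈ B, ∀ c ∈ B, (∀ ℓ, b ℓ ≤ c ℓ) → b = c) ∧ r ^ (d - 1) ≤ d * B.card := by
  classical
  set L : ℕ → Finset (Fin d → ℕ) := fun c => (box (fun _ : Fin d => r)).filter
    (fun b => ∑ ℓ, b ℓ = c) with hL
  obtain ⟨c, hc⟩ : ∃ c, r ^ (d - 1) ≤ d * (L c).card := by
    by_contra hcon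
    push Not at hcon
    have h1 : (box (fun _ : Fin d => r)).card =
        ∑ c ∈ Finset.range (d * r), (L c).card := by
      apply Finset.card_eq_sum_card_fiberwise
      intro b hb
      rw [Finset.mem_coe, Finset.mem_range]
      have h2 : ∑ ℓ, b ℓ < ∑ _ℓ : Fin d, r := by
        apply Finset.sum_lt_sum_of_nonempty ⟨⟨0, hd⟩, Finset.mem_univ _⟩
        intro ℓ _
        exact mem_box.1 hb ℓ
      simpa using h2
    rw [card_box, Finset.prod_const, Finset.card_univ, Fintype.card_fin] at h1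
    have h3 : d * r ^ d < d * r * r ^ (d - 1) := by
      calc d * r ^ d = ∑ c ∈ Finset.range (d * r), d * (L c).card := by
            rw [h1, Finset.mul_sum]
        _ < ∑ _c ∈ Finset.range (d * r), r ^ (d - 1) := by
            apply Finset.sum_lt_sum_of_nonempty
            · rw [Finset.nonempty_range_iff]
              positivity
            · intro c _
              exact hcon c
        _ = d * r * r ^ (d - 1) := by rw [Finset.sum_const, Finset.card_range, smul_eq_mul]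
    have h4 : r ^ d = r * r ^ (d - 1) := by
      rw [← pow_succ']
      congr 1
      omega
    rw [h4, ← mul_assoc] at h3
    exact lt_irrefl _ h3
  refine ⟨L c, Finset.filter_subset _ _, ?_, hc⟩
  intro b hb b' hb' hle
  have e1 := (Finset.mem_filter.1 hb).2
  have e2 := (Finset.mem_filter.1 hb').2
  have h := (Finset.sum_eq_sum_iff_of_le (fun ℓ _ => hle ℓ)).1 (e1.trans e2.symm)
  funext ℓ
  exact h ℓ (Finset.mem_univ ℓ)

/-! ## The limit lemma -/

theorem osc_of_super {f : ℕ → ℕ} (hmono : Monotone f) {e C : ℕ} (hC : ∀ n, f n ≤ C * n ^ e)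
    {δ : ℝ} (hδ : 0 < δ)
    (h : ∀ᶠ r : ℕ in atTop, ∀ n, δ * (r : ℝ) ^ e * f n ≤ f (r * n)) :
    ∃ L : ℝ, 0 ≤ L ∧ (∀ η > 0, ∀ᶠ n : ℕ in atTop, L - η ≤ (f n : ℝ) / (n : ℝ) ^ e) ∧
      ∀ n : ℕ, 0 < n → δ * ((f n : ℝ) / (n : ℝ) ^ e) ≤ L := by
  set g : ℕ → ℝ := fun n => (f n : ℝ) / (n : ℝ) ^ e with hg
  have hbdd : BddAbove (g '' Set.Ioi 0) := by
    refine ⟨C, ?_⟩
    rintro x ⟨n, hn, rfl⟩
    have hn' : (0 : ℝ) < (n : ℝ) := by exact_mod_cast hn
    rw [hg]
    simp only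
    rw [div_le_iff₀ (by positivity)]
    exact_mod_cast hC n
  have hg0 : ∀ n, 0 ≤ g n := fun n => by positivity
  have hsup : ∀ n : ℕ, 0 < n → g n ≤ sSup (g '' Set.Ioi 0) := fun n hn =>
    le_csSup hbdd ⟨n, hn, rfl⟩
  refine ⟨δ * sSup (g '' Set.Ioi 0), ?_, ?_, ?_⟩
  · exact mul_nonneg hδ.le ((hg0 1).trans (hsup 1 one_pos))
  · intro η hη
    obtain ⟨x, ⟨n₀, hn₀, rfl⟩, hx⟩ := exists_lt_of_lt_csSup (s := g '' Set.Ioi 0)
      (b := sSup (g '' Set.Ioi 0) - η / (2 * δ)) ⟨g 1, 1, by simp, rfl⟩ (by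
        have : 0 < η / (2 * δ) := by positivity
        linarith)
    have hn₀' : 0 < n₀ := hn₀
    have hn₀R : (0 : ℝ) < n₀ := by exact_mod_cast hn₀'
    have hx' : δ * sSup (g '' Set.Ioi 0) - η / 2 < δ * g n₀ := by
      have := mul_lt_mul_of_pos_left hx hδ
      have e1 : δ * (sSup (g '' Set.Ioi 0) - η / (2 * δ)) = δ * sSup (g '' Set.Ioi 0) - η / 2 := by
        field_simp
      linarith
    have ht : Tendsto (fun N : ℕ => δ * g n₀ * (1 - (n₀ : ℝ) / N) ^ e) atTop
        (𝓝 (δ * g n₀ * (1 - 0) ^ e)) := by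
      apply Tendsto.const_mul
      apply Tendsto.pow
      exact tendsto_const_nhds.sub (tendsto_const_div_atTop_nhds_zero_nat (n₀ : ℝ))
    have hlim : δ * sSup (g '' Set.Ioi 0) - η < δ * g n₀ * (1 - 0) ^ e := by
      rw [sub_zero, one_pow, mul_one]
      linarith
    obtain ⟨r₀, hr₀⟩ := eventually_atTop.1 h
    filter_upwards [ht.eventually (lt_mem_nhds hlim), eventually_ge_atTop (n₀ * (r₀ + 1))]
      with N h1 h2
    have hN0 : n₀ ≤ N := le_trans (Nat.le_mul_of_pos_right _ (by omega)) h2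
    have hNR : (0 : ℝ) < N := by
      have : 0 < N := by omega
      exact_mod_cast this
    set r := N / n₀ with hr
    have hr1 : r₀ ≤ r := by
      rw [hr, Nat.le_div_iff_mul_le hn₀']
      calc r₀ * n₀ ≤ (r₀ + 1) * n₀ := Nat.mul_le_mul_right _ (Nat.le_succ _)
        _ = n₀ * (r₀ + 1) := Nat.mul_comm _ _
        _ ≤ N := h2
    have hrN : r * n₀ ≤ N := Nat.div_mul_le_self N n₀
    have hNr : N < r * n₀ + n₀ := by
      have := Nat.lt_div_mul_add (a := N) hn₀'
      rw [hr]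
      exact this
    have h3 := hr₀ r hr1 n₀
    have h4 : (f (r * n₀) : ℝ) ≤ f N := by exact_mod_cast hmono hrN
    have h5 : (1 - (n₀ : ℝ) / N) * N ≤ r * n₀ := by
      have e1 : (1 - (n₀ : ℝ) / N) * N = N - n₀ := by field_simp
      rw [e1]
      have : (N : ℝ) < r * n₀ + n₀ := by exact_mod_cast hNr
      linarith
    have h6 : (0 : ℝ) ≤ 1 - (n₀ : ℝ) / N := by
      rw [sub_nonneg, div_le_one hNR]
      exact_mod_cast hN0
    have h7 : ((1 - (n₀ : ℝ) / N) * N) ^ e ≤ ((r : ℝ) * n₀) ^ e :=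
      pow_le_pow_left₀ (mul_nonneg h6 hNR.le) h5 e
    rw [mul_pow, mul_pow] at h7
    refine h1.le.trans ?_
    show δ * g n₀ * (1 - (n₀ : ℝ) / N) ^ e ≤ (f N : ℝ) / (N : ℝ) ^ e
    rw [le_div_iff₀ (by positivity)]
    have h8 : g n₀ * (n₀ : ℝ) ^ e = f n₀ := by
      rw [hg]
      simp only
      field_simp
    calc δ * g n₀ * (1 - (n₀ : ℝ) / N) ^ e * (N : ℝ) ^ e
        = δ * g n₀ * ((1 - (n₀ : ℝ) / N) ^ e * (N : ℝ) ^ e) := by ring
      _ ≤ δ * g n₀ * ((r : ℝ) ^ e * (n₀ : ℝ) ^ e) :=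
          mul_le_mul_of_nonneg_left h7 (mul_nonneg hδ.le (hg0 n₀))
      _ = δ * (r : ℝ) ^ e * (g n₀ * (n₀ : ℝ) ^ e) := by ring
      _ = δ * (r : ℝ) ^ e * f n₀ := by rw [h8]
      _ ≤ _ := h3.trans h4
  · intro n hn
    exact mul_le_mul_of_nonneg_left (hsup n hn) hδ.le

end Pool.Agent.Helper450IM
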