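import Pool.Agent.helper450_im.Layer

/-!
# Bounded oscillation for connected patterns, and all-ones matrices
-/

namespace Pool.Agent.Helper450IM

open Finset Filter Topology

variable {d : ℕ}

/-- for all large `r` the box `[r]^d` has an antichain with at least `δ r^(d-1)` elements -/
def AntichainDensity (d : ℕ) (δ : ℝ) : Prop :=
  ∀ᶠ r : ℕ in atTop, ∃ B : Finset (Fin d → ℕ), B ⊆ box (fun _ => r) ∧
    (∀ b ∈ B, ∀ c ∈ B, (∀ ℓ, b ℓ ≤ c ℓ) → b = c) ∧ δ * (r : ℝ) ^ (d - 1) ≤ B.card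

lemma antichainDensity_one_div (hd : 0 < d) : AntichainDensity d (1 / d) := by
  filter_upwards [eventually_ge_atTop 1] with r hr
  obtain ⟨B, hB, hanti, hcard⟩ := exists_layer hd hr
  refine ⟨B, hB, hanti, ?_⟩
  have hdR : (0 : ℝ) < d := by exact_mod_cast hd
  have h1 : ((r : ℝ)) ^ (d - 1) ≤ d * B.card := by exact_mod_cast hcard
  rw [one_div, inv_mul_le_iff₀ hdR]
  exact h1

/-- Bounded oscillation for connected spanning patterns. -/
theorem osc_connected (hd : 0 < d) {P : Mat d} (hP : P.ones.Nonempty)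
    (hspan : Spans P.size P.ones) {ε : Fin d → Bool} (hconn : CompConnected ε P.ones) {δ : ℝ}
    (hδ : 0 < δ) (hdens : AntichainDensity d δ) :
    ∃ L : ℝ, 0 ≤ L ∧ (∀ η > 0, ∀ᶠ n : ℕ in atTop, L - η ≤ (m n P : ℝ) / (n : ℝ) ^ (d - 1)) ∧
      ∀ n : ℕ, 0 < n → δ * ((m n P : ℝ) / (n : ℝ) ^ (d - 1)) ≤ L := by
  obtain ⟨K, hK⟩ := exists_bound hd hP
  apply osc_of_super (f := fun n => m n P) _ hK hδ
  · filter_upwards [hdens] with r hr
    intro n
    obtain ⟨B, hB, hanti, hcard⟩ := hr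
    have hsub : B.image (rev ε r) ⊆ box (fun _ : Fin d => r) := by
      intro x hx
      obtain ⟨b, hb, rfl⟩ := Finset.mem_image.1 hx
      exact rev_mem (hB hb)
    have h := card_mul_maxOnes_le (n := fun _ => n) hP hspan hsub
      (rigid_of_compConnected hconn hB hanti)
    rw [card_image_rev hB] at h
    have h1 : (B.card : ℝ) * (m n P : ℝ) ≤ (m (r * n) P : ℝ) := by exact_mod_cast h
    calc δ * (r : ℝ) ^ (d - 1) * (m n P : ℝ) ≤ (B.card : ℝ) * (m n P : ℝ) :=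
          mul_le_mul_of_nonneg_right hcard (by positivity)
      _ ≤ _ := h1
  · intro a b hab
    exact maxOnes_mono hP hspan (fun _ => hab)

/-- zero cross sections at the boundary do not matter -/
theorem osc_pad (hd : 0 < d) {a b : Fin d → ℕ} {P₀ : Mat d} (h0 : P₀.ones.Nonempty)
    (hspan : Spans P₀.size P₀.ones) {δ : ℝ} (hδ : 0 < δ) (hδ1 : δ ≤ 1)
    (h : ∃ L : ℝ, 0 ≤ L ∧
      (∀ η > 0, ∀ᶠ n : ℕ in atTop, L - η ≤ (m n P₀ : ℝ) / (n : ℝ) ^ (d - 1)) ∧
      ∀ n : ℕ, 0 < n → δ * ((m n P₀ : ℝ) / (n : ℝ) ^ (d - 1)) ≤ L) :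
    ∃ L : ℝ, 0 ≤ L ∧
      (∀ η > 0, ∀ᶠ n : ℕ in atTop, L - η ≤ (m n (pad a b P₀) : ℝ) / (n : ℝ) ^ (d - 1)) ∧
      ∀ η > 0, ∀ᶠ n : ℕ in atTop, δ * ((m n (pad a b P₀) : ℝ) / (n : ℝ) ^ (d - 1)) ≤ L + η := by
  obtain ⟨L, hL0, hlo, hhi⟩ := h
  obtain ⟨R, hR⟩ : ∃ R, ∀ ℓ, a ℓ + b ℓ ≤ R := by
    refine ⟨∑ ℓ, (a ℓ + b ℓ), ?_⟩
    intro ℓ
    exact Finset.single_le_sum (f := fun ℓ => a ℓ + b ℓ) (fun _ _ => Nat.zero_le _)
      (Finset.mem_univ ℓ)
  -- the main formula for large `n`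
  have hform : ∀ n, R ≤ n → (m n (pad a b P₀) : ℝ) =
      ((n : ℝ) ^ d - ∏ ℓ, ((n : ℝ) - ((a ℓ + b ℓ : ℕ) : ℝ))) +
        (maxOnes (fun ℓ => n - (a ℓ + b ℓ)) P₀ : ℝ) := by
    intro n hn
    have h1 := maxOnes_pad (n := fun ℓ => n - (a ℓ + b ℓ)) (a := a) (b := b) h0 hspan
    have h2 : (fun ℓ => a ℓ + (n - (a ℓ + b ℓ)) + b ℓ) = (fun _ => n : Fin d → ℕ) := by
      funext ℓ
      have := hR ℓ
      omega
    rw [h2] at h1
    have h3 : ∏ _ℓ : Fin d, n = n ^ d := by simp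
    rw [h3] at h1
    have h4 : ((maxOnes (fun _ => n) (pad a b P₀) : ℕ) : ℝ) +
        ∏ ℓ, (((n - (a ℓ + b ℓ) : ℕ)) : ℝ) =
        (n : ℝ) ^ d + (maxOnes (fun ℓ => n - (a ℓ + b ℓ)) P₀ : ℝ) := by
      exact_mod_cast h1
    have h5 : ∏ ℓ, (((n - (a ℓ + b ℓ) : ℕ)) : ℝ) = ∏ ℓ, ((n : ℝ) - ((a ℓ + b ℓ : ℕ) : ℝ)) := by
      apply Finset.prod_congr rfl
      intro ℓ _
      rw [Nat.cast_sub ((hR ℓ).trans hn)]
    rw [h5] at h4
    rw [m]
    linarith
  -- the first summand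
  set σ : ℝ := ∑ ℓ, ((a ℓ + b ℓ : ℕ) : ℝ) with hσ
  have hσ0 : 0 ≤ σ := Finset.sum_nonneg (fun ℓ _ => Nat.cast_nonneg _)
  have hfirst : Tendsto (fun n : ℕ => ((n : ℝ) ^ d - ∏ ℓ, ((n : ℝ) - ((a ℓ + b ℓ : ℕ) : ℝ))) /
      (n : ℝ) ^ (d - 1)) atTop (𝓝 σ) := by
    have h := (tendsto_frame_aux (Finset.univ : Finset (Fin d))
      (fun ℓ => ((a ℓ + b ℓ : ℕ) : ℝ))).1
    refine h.congr' ?_
    filter_upwards [eventually_gt_atTop 0] with n hn
    have hn' : (n : ℝ) ≠ 0 := by positivity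
    have hprod : ∏ ℓ, ((n : ℝ) - ((a ℓ + b ℓ : ℕ) : ℝ)) =
        (n : ℝ) ^ d * ∏ ℓ, (1 - ((a ℓ + b ℓ : ℕ) : ℝ) / n) := by
      have : (n : ℝ) ^ d = ∏ _ℓ : Fin d, (n : ℝ) := by simp
      rw [this, ← Finset.prod_mul_distrib]
      apply Finset.prod_congr rfl
      intro ℓ _
      field_simp
    rw [hprod]
    obtain ⟨e, rfl⟩ : ∃ e, d = e + 1 := ⟨d - 1, by omega⟩
    simp only [Nat.add_sub_cancel]
    generalize (∏ ℓ, (1 - ((a ℓ + b ℓ : ℕ) : ℝ) / n)) = t
    field_simp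
    ring
  refine ⟨L + σ, by positivity, ?_, ?_⟩
  · intro η hη
    set c : ℝ := max (L - η / 4) 0 with hc
    have hc0 : 0 ≤ c := le_max_right _ _
    have hc1 : L - η / 4 ≤ c := le_max_left _ _
    have hratio : Tendsto (fun n : ℕ => c * (1 - (R : ℝ) / n) ^ (d - 1)) atTop
        (𝓝 (c * (1 - 0) ^ (d - 1))) := by
      apply Tendsto.const_mul
      apply Tendsto.pow
      exact tendsto_const_nhds.sub (tendsto_const_div_atTop_nhds_zero_nat _)
    have hlim : c - η / 4 < c * (1 - 0) ^ (d - 1) := by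
      rw [sub_zero, one_pow, mul_one]
      linarith
    filter_upwards [hratio.eventually (lt_mem_nhds hlim),
      hfirst.eventually (lt_mem_nhds (show σ - η / 4 < σ by linarith)),
      (tendsto_sub_atTop_nat R).eventually (hlo (η / 4) (by linarith)),
      eventually_gt_atTop R] with n g1 g2 g3 hn
    have hnR : (0 : ℝ) < n := by
      have : 0 < n := by omega
      exact_mod_cast this
    have hnR' : (0 : ℝ) < ((n - R : ℕ) : ℝ) := by
      have : 0 < n - R := by omega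
      exact_mod_cast this
    rw [hform n hn.le, add_div]
    have h1 : (m (n - R) P₀ : ℝ) ≤ (maxOnes (fun ℓ => n - (a ℓ + b ℓ)) P₀ : ℝ) := by
      have : m (n - R) P₀ ≤ maxOnes (fun ℓ => n - (a ℓ + b ℓ)) P₀ := by
        apply maxOnes_mono h0 hspan
        intro ℓ
        have := hR ℓ
        omega
      exact_mod_cast this
    have h2 : c ≤ (m (n - R) P₀ : ℝ) / (((n - R : ℕ)) : ℝ) ^ (d - 1) := by
      apply max_le g3
      positivity
    have h3 : c * (1 - (R : ℝ) / n) ^ (d - 1) ≤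
        (maxOnes (fun ℓ => n - (a ℓ + b ℓ)) P₀ : ℝ) / (n : ℝ) ^ (d - 1) := by
      rw [le_div_iff₀ (by positivity)]
      rw [le_div_iff₀ (by positivity)] at h2
      have e1 : (1 - (R : ℝ) / n) ^ (d - 1) * (n : ℝ) ^ (d - 1) =
          (((n - R : ℕ)) : ℝ) ^ (d - 1) := by
        rw [← mul_pow]
        congr 1
        rw [Nat.cast_sub hn.le]
        field_simp
      rw [mul_assoc, e1]
      exact h2.trans h1
    linarith
  · intro η hη
    have h1 : Tendsto (fun n : ℕ => δ * (((n : ℝ) ^ d - ∏ ℓ, ((n : ℝ) - ((a ℓ + b ℓ : ℕ) : ℝ))) /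
      (n : ℝ) ^ (d - 1))) atTop (𝓝 (δ * σ)) := hfirst.const_mul δ
    have h2 : δ * σ < σ + η := by nlinarith
    filter_upwards [h1.eventually (gt_mem_nhds h2), eventually_gt_atTop R] with n g1 hn
    have hn0 : 0 < n := by omega
    have hnR : (0 : ℝ) < n := by exact_mod_cast hn0
    rw [hform n hn.le, add_div, mul_add]
    have h3 : (maxOnes (fun ℓ => n - (a ℓ + b ℓ)) P₀ : ℝ) ≤ (m n P₀ : ℝ) := by
      have : maxOnes (fun ℓ => n - (a ℓ + b ℓ)) P₀ ≤ m n P₀ := by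
        apply maxOnes_mono h0 hspan
        intro ℓ
        show n - (a ℓ + b ℓ) ≤ n
        omega
      exact_mod_cast this
    have h4 : δ * ((maxOnes (fun ℓ => n - (a ℓ + b ℓ)) P₀ : ℝ) / (n : ℝ) ^ (d - 1)) ≤
        δ * ((m n P₀ : ℝ) / (n : ℝ) ^ (d - 1)) := by
      apply mul_le_mul_of_nonneg_left _ hδ.le
      gcongr
    have h5 := hhi n hn0
    linarith

lemma rtg_symm {α : Type*} {R : α → α → Prop} (hR : ∀ x y, R x y → R y x) {x y : α}
    (h : Relation.ReflTransGen R x y) : Relation.ReflTransGen R y x := by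
  induction h with
  | refl => exact Relation.ReflTransGen.refl
  | tail _ h1 h2 => exact h2.head (hR _ _ h1)

lemma CompConnected.of_shift {ε : Fin d → Bool} {a : Fin d → ℕ} {P : Finset (Fin d → ℕ)}
    (h : CompConnected ε (shift a P)) : CompConnected ε P := by
  intro p hp q hq
  have h1 := h _ (Finset.mem_image_of_mem _ hp) _ (Finset.mem_image_of_mem _ hq)
  have e : ∀ u : Fin d → ℕ, (fun ℓ => (u ℓ + a ℓ) - a ℓ) = u := by
    intro u
    funext ℓ
    omega
  have key : ∀ z, Relation.ReflTransGen (fun x y => x ∈ shift a P ∧ y ∈ shift a P ∧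
      (Below ε x y ∨ Below ε y x)) (fun ℓ => p ℓ + a ℓ) z →
      Relation.ReflTransGen (fun x y => x ∈ P ∧ y ∈ P ∧ (Below ε x y ∨ Below ε y x)) p
        (fun ℓ => z ℓ - a ℓ) := by
    intro z hz
    induction hz with
    | refl => rw [e p]
    | tail _ hbc ih =>
      refine ih.tail ?_
      obtain ⟨hx, hy, hxy⟩ := hbc
      obtain ⟨x', hx', rfl⟩ := Finset.mem_image.1 hx
      obtain ⟨y', hy', rfl⟩ := Finset.mem_image.1 hy
      rw [e x', e y']
      refine ⟨hx', hy', ?_⟩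
      have key : ∀ u v : Fin d → ℕ, Below ε (fun ℓ => u ℓ + a ℓ) (fun ℓ => v ℓ + a ℓ) →
          Below ε u v := by
        intro u v huv ℓ
        have h3 := huv ℓ
        split_ifs at h3 ⊢
        · exact Nat.lt_of_add_lt_add_right h3
        · exact Nat.lt_of_add_lt_add_right h3
      rcases hxy with h3 | h3
      · exact Or.inl (key _ _ h3)
      · exact Or.inr (key _ _ h3)
  have h2 := key _ h1
  rw [e q] at h2
  exact h2

/-- Bounded oscillation for connected patterns. -/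
theorem osc_connected_all (hd : 0 < d) {P : Mat d} (hP : P.ones.Nonempty)
    {ε : Fin d → Bool} (hconn : CompConnected ε P.ones) {δ : ℝ}
    (hδ : 0 < δ) (hδ1 : δ ≤ 1) (hdens : AntichainDensity d δ) :
    ∃ L : ℝ, 0 ≤ L ∧ (∀ η > 0, ∀ᶠ n : ℕ in atTop, L - η ≤ (m n P : ℝ) / (n : ℝ) ^ (d - 1)) ∧
      ∀ η > 0, ∀ᶠ n : ℕ in atTop, δ * ((m n P : ℝ) / (n : ℝ) ^ (d - 1)) ≤ L + η := by
  obtain ⟨a, b, P₀, h0, hspan, hsize, hones⟩ := exists_trim hP
  have hPeq : P = pad a b P₀ := by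
    cases P
    simp only at hsize hones
    subst hsize
    subst hones
    rfl
  have hconn0 : CompConnected ε P₀.ones := by
    apply CompConnected.of_shift (a := a)
    have : P.ones = shift a P₀.ones := hones
    rw [← this]
    exact hconn
  rw [hPeq]
  exact osc_pad hd h0 hspan hδ hδ1 (osc_connected hd h0 hspan hconn0 hδ hdens)

/-- All-ones matrices: sides smaller by one. -/
theorem allOnes_osc (hd : 0 < d) {Q Q' : Mat d} (hk : ∀ ℓ, 2 ≤ Q.size ℓ)
    (hQ : Q.ones = box Q.size) (hs : ∀ ℓ, Q'.size ℓ + 1 = Q.size ℓ)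
    (hQ' : Q'.ones = box Q'.size) {δ : ℝ} (hδ : 0 < δ) (hdens : AntichainDensity d δ) :
    ∃ L : ℝ, (∀ η > 0, ∀ᶠ n : ℕ in atTop, L - η ≤ (m n Q : ℝ) / (n : ℝ) ^ (d - 1)) ∧
      ∀ n : ℕ, 0 < n → δ * ((m n Q' : ℝ) / (n : ℝ) ^ (d - 1)) ≤ L := by
  classical
  set S : Finset (Fin d → ℕ) := (box Q.size).filter
    (fun x => (∀ ℓ, x ℓ ≠ 0) ∨ ∀ ℓ, x ℓ + 1 ≠ Q.size ℓ) with hS
  have hSb : S ⊆ box Q.size := Finset.filter_subset _ _
  have hz : (fun _ => 0 : Fin d → ℕ) ∈ S := by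
    rw [hS, Finset.mem_filter, mem_box]
    refine ⟨fun ℓ => ?_, Or.inr fun ℓ => ?_⟩
    · have := hk ℓ
      show 0 < Q.size ℓ
      omega
    · have := hk ℓ
      show 0 + 1 ≠ Q.size ℓ
      omega
  have ht : (fun ℓ => Q.size ℓ - 1 : Fin d → ℕ) ∈ S := by
    rw [hS, Finset.mem_filter, mem_box]
    refine ⟨fun ℓ => ?_, Or.inl fun ℓ => ?_⟩
    · have := hk ℓ
      show Q.size ℓ - 1 < Q.size ℓ
      omega
    · have := hk ℓ
      show Q.size ℓ - 1 ≠ 0
      omega
  set P : Mat d := toMat Q.size S hSb with hPdef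
  have hPones : P.ones = S := rfl
  have hPsize : P.size = Q.size := rfl
  have hP : P.ones.Nonempty := ⟨_, hz⟩
  have hspan : Spans P.size P.ones := by
    intro ℓ
    refine ⟨⟨_, hz, rfl⟩, ⟨_, ht, ?_⟩⟩
    have := hk ℓ
    show Q.size ℓ - 1 + 1 = Q.size ℓ
    omega
  have hconn : CompConnected (fun _ => true) P.ones := by
    -- everything is connected to the last position
    have h1 : ∀ x ∈ S, Relation.ReflTransGen (fun x y => x ∈ S ∧ y ∈ S ∧
        (Below (fun _ => true) x y ∨ Below (fun _ => true) y x)) x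
        (fun ℓ => Q.size ℓ - 1) := by
      intro x hx
      have hx' := (Finset.mem_filter.1 hx).2
      have hxb := mem_box.1 (hSb hx)
      have hzt : Below (fun _ => true) (fun _ => 0 : Fin d → ℕ) (fun ℓ => Q.size ℓ - 1) := by
        intro ℓ
        rw [if_pos rfl]
        have := hk ℓ
        show 0 < Q.size ℓ - 1
        omega
      rcases hx' with h2 | h2
      · refine (Relation.ReflTransGen.single ⟨hx, hz, Or.inr ?_⟩).tail
          ⟨hz, ht, Or.inl hzt⟩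
        intro ℓ
        rw [if_pos rfl]
        exact Nat.pos_of_ne_zero (h2 ℓ)
      · refine Relation.ReflTransGen.single ⟨hx, ht, Or.inl ?_⟩
        intro ℓ
        rw [if_pos rfl]
        have h3 := h2 ℓ
        have h4 := hxb ℓ
        show x ℓ < Q.size ℓ - 1
        omega
    intro p hp q hq
    refine (h1 p hp).trans ?_
    refine rtg_symm ?_ (h1 q hq)
    rintro x y ⟨hx, hy, h⟩
    exact ⟨hy, hx, h.symm⟩
  obtain ⟨L, _, hlo, hhi⟩ := osc_connected hd hP hspan hconn hδ hdens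
  refine ⟨L, ?_, ?_⟩
  · intro η hη
    filter_upwards [hlo η hη] with n hn
    refine hn.trans ?_
    have : m n P ≤ m n Q := by
      apply m_le_of_subset (Q := Q) hP rfl
      rw [hQ]
      exact hSb
    gcongr
  · intro n hn
    refine le_trans ?_ (hhi n hn)
    apply mul_le_mul_of_nonneg_left _ hδ.le
    have : m n Q' ≤ m n P := by
      have hne : Q'.ones.Nonempty := by
        rw [hQ']
        apply box_nonempty
        intro ℓ
        have := hk ℓ
        have := hs ℓ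
        omega
      apply maxOnes_le_of_emb hP hne
      refine ⟨fun _ i => i - 1, ?_, ?_⟩
      · intro ℓ
        have h1 := hs ℓ
        have h2 := hk ℓ
        refine ⟨fun i j hij => Nat.sub_le_sub_right hij 1, fun i hi => ?_, fun j hj => ?_⟩
        · have h3 : i < Q.size ℓ := hi
          show i - 1 < Q'.size ℓ
          omega
        · refine ⟨j + 1, ?_, ?_⟩
          · show j + 1 < Q.size ℓ
            omega
          · show j + 1 - 1 = j
            omega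
      · intro p hp
        have hpb := Q'.inBox p hp
        refine ⟨fun ℓ => p ℓ + 1, ?_, fun ℓ => ?_⟩
        · rw [hPones, hS, Finset.mem_filter, mem_box]
          refine ⟨fun ℓ => ?_, Or.inl fun ℓ => ?_⟩
          · have h1 := hs ℓ
            have h2 := hpb ℓ
            show p ℓ + 1 < Q.size ℓ
            omega
          · show p ℓ + 1 ≠ 0
            omega
        · show p ℓ + 1 - 1 = p ℓ
          omega
    gcongr

end Pool.Agent.Helper450IM
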