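import Pool.Agent.helper450_im.Basic

/-!
# Peeling off a direction
-/

namespace Pool.Agent.Helper450IM

open Finset

section

variable {d : ℕ}

/-- project away the coordinate `ℓ` (set it to `0`) -/
def proj (ℓ : Fin d) (P : Finset (Fin d → ℕ)) : Finset (Fin d → ℕ) :=
  P.image (fun x => Function.update x ℓ 0)

/-- the levels below `t` on its `ℓ`-line that belong to `S` -/
def below (S : Finset (Fin d → ℕ)) (ℓ : Fin d) (t : Fin d → ℕ) : Finset ℕ :=
  (Finset.range (t ℓ)).filter (fun h => Function.update t ℓ h ∈ S)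

/-- the levels above `t` on its `ℓ`-line that belong to `S` -/
def above (S : Finset (Fin d → ℕ)) (N : ℕ) (ℓ : Fin d) (t : Fin d → ℕ) : Finset ℕ :=
  (Finset.Ioo (t ℓ) N).filter (fun h => Function.update t ℓ h ∈ S)

/-- the piecewise map used in the peeling -/
def psi (n k v1 v v3 x i : ℕ) : ℕ :=
  if i ≤ x then max (min i v1) (v - (x - i)) else min (v + (i - x)) (max v3 (k + i - n))

lemma onto_psi {n k v1 v v3 x : ℕ} (h1 : v1 ≤ v) (h3 : v ≤ v3) (hk : v3 < k) (hx : v ≤ x)
    (hn : x + k < n + 1 + v) : Onto n k (psi n k v1 v v3 x) where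
  mono := by
    intro i j hij
    unfold psi
    split_ifs <;> omega
  lt := by
    intro i hi
    unfold psi
    split_ifs <;> omega
  surj := by
    intro j hj
    by_cases c1 : j < v1
    · refine ⟨j, by omega, ?_⟩
      unfold psi
      split_ifs <;> omega
    · by_cases c2 : j ≤ v
      · refine ⟨x - (v - j), by omega, ?_⟩
        unfold psi
        split_ifs <;> omega
      · by_cases c3 : j ≤ v3
        · refine ⟨x + (j - v), by omega, ?_⟩
          unfold psi
          split_ifs <;> omega
        · refine ⟨n + j - k, by omega, ?_⟩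
          unfold psi
          split_ifs <;> omega

lemma exists_below {S : Finset (Fin d → ℕ)} {ℓ : Fin d} {t : Fin d → ℕ} {v1 v : ℕ}
    (h1 : v1 < v) (hv : v ≤ (below S ℓ t).card) :
    ∃ h, v1 ≤ h ∧ h + v ≤ t ℓ + v1 ∧ Function.update t ℓ h ∈ S := by
  by_contra hcon
  push Not at hcon
  have h4 : (below S ℓ t).card ≤ t ℓ := by
    refine (Finset.card_filter_le _ _).trans ?_
    simp
  have hsub : below S ℓ t ⊆ Finset.range v1 ∪ Finset.Ioo (t ℓ + v1 - v) (t ℓ) := by
    intro h hh
    simp only [below, Finset.mem_filter, Finset.mem_range] at hh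
    simp only [Finset.mem_union, Finset.mem_range, Finset.mem_Ioo]
    by_contra hc
    push Not at hc
    by_cases c : t ℓ + v1 - v < h
    · have := hc.2 c
      omega
    · by_cases c' : h + v ≤ t ℓ + v1
      · exact hcon h hc.1 c' hh.2
      · omega
  have h2 := Finset.card_le_card hsub
  have h3 := Finset.card_union_le (Finset.range v1) (Finset.Ioo (t ℓ + v1 - v) (t ℓ))
  rw [Finset.card_range, Nat.card_Ioo] at h3
  omega

lemma exists_above {S : Finset (Fin d → ℕ)} {N : ℕ} {ℓ : Fin d} {t : Fin d → ℕ} {v v3 k : ℕ}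
    (h1 : v < v3) (h3k : v3 < k) (hx : t ℓ < N)
    (hv : k ≤ (above S N ℓ t).card + 1 + v) :
    ∃ h, t ℓ + v3 ≤ h + v ∧ h + k ≤ N + v3 ∧ h < N ∧ Function.update t ℓ h ∈ S := by
  by_contra hcon
  push Not at hcon
  have hsub : above S N ℓ t ⊆ Finset.Ioo (t ℓ) (t ℓ + v3 - v) ∪ Finset.Ioo (N + v3 - k) N := by
    intro h hh
    simp only [above, Finset.mem_filter, Finset.mem_Ioo] at hh
    simp only [Finset.mem_union, Finset.mem_Ioo]
    by_contra hc
    push Not at hc
    have c1 := hc.1 hh.1.1
    by_cases c : N + v3 - k < h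
    · have := hc.2 c
      omega
    · by_cases c' : h + k ≤ N + v3
      · exact hcon h (by omega) c' hh.1.2 hh.2
      · omega
  have h2 := Finset.card_le_card hsub
  have h3 := Finset.card_union_le (Finset.Ioo (t ℓ) (t ℓ + v3 - v)) (Finset.Ioo (N + v3 - k) N)
  rw [Nat.card_Ioo, Nat.card_Ioo] at h3
  have h4 : (above S N ℓ t).card ≤ N - t ℓ - 1 := by
    refine (Finset.card_filter_le _ _).trans ?_
    simp
  omega

/-- The elements of `S` on level `x` having at least `v` elements of `S` below and at least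
`k - 1 - v` above. -/
def lev (S : Finset (Fin d → ℕ)) (N : ℕ) (ℓ : Fin d) (k v x : ℕ) : Finset (Fin d → ℕ) :=
  S.filter (fun t => t ℓ = x ∧ v ≤ (below S ℓ t).card ∧ k ≤ (above S N ℓ t).card + 1 + v)

lemma peel_emb {n k : Fin d → ℕ} {S P : Finset (Fin d → ℕ)} (hS : S ⊆ box n) (ℓ : Fin d)
    {v1 v v3 x : ℕ} (h1 : v1 ≤ v) (h3 : v ≤ v3) (hk : v3 < k ℓ) (hP0 : P.Nonempty)
    (hlev : ∀ p ∈ P, p ℓ = v1 ∨ p ℓ = v ∨ p ℓ = v3)
    (hE : Emb (Function.update n ℓ 1) (Function.update k ℓ 1)
      (proj ℓ (lev S (n ℓ) ℓ (k ℓ) v x)) (proj ℓ P)) :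
    Emb n k S P := by
  obtain ⟨φ, hφ, hP⟩ := hE
  have hT : ∃ t, t ∈ lev S (n ℓ) ℓ (k ℓ) v x := by
    obtain ⟨p, hp⟩ := hP0
    obtain ⟨s, hs, _⟩ := hP (Function.update p ℓ 0) (Finset.mem_image_of_mem _ hp)
    obtain ⟨t, ht, _⟩ := Finset.mem_image.1 hs
    exact ⟨t, ht⟩
  have hx : v ≤ x ∧ x + k ℓ < n ℓ + 1 + v := by
    obtain ⟨t, ht⟩ := hT
    simp only [lev, Finset.mem_filter] at ht
    obtain ⟨htS, htx, hb, ha⟩ := ht
    have h4 : (below S ℓ t).card ≤ t ℓ := by
      refine (Finset.card_filter_le _ _).trans ?_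
      simp
    have h5 : (above S (n ℓ) ℓ t).card ≤ n ℓ - t ℓ - 1 := by
      refine (Finset.card_filter_le _ _).trans ?_
      simp
    have h6 := mem_box.1 (hS htS) ℓ
    omega
  refine ⟨fun j => if j = ℓ then psi (n ℓ) (k ℓ) v1 v v3 x else φ j, ?_, ?_⟩
  · intro j
    by_cases hj : j = ℓ
    · subst hj
      simp only [if_true]
      exact onto_psi h1 h3 hk hx.1 hx.2
    · simp only [hj, if_false]
      exact (hφ j).congr (Function.update_of_ne hj _ _) (Function.update_of_ne hj _ _)
  · intro p hp
    obtain ⟨s, hs, hs'⟩ := hP (Function.update p ℓ 0) (Finset.mem_image_of_mem _ hp)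
    obtain ⟨t, ht, rfl⟩ := Finset.mem_image.1 hs
    have hts : ∀ j, j ≠ ℓ → φ j (t j) = p j := by
      intro j hj
      have := hs' j
      simpa [Function.update_of_ne hj] using this
    simp only [lev, Finset.mem_filter] at ht
    obtain ⟨htS, htx, hb, ha⟩ := ht
    have main : ∀ h, Function.update t ℓ h ∈ S →
        psi (n ℓ) (k ℓ) v1 v v3 x h = p ℓ → ∃ s ∈ S, ∀ j,
          (if j = ℓ then psi (n ℓ) (k ℓ) v1 v v3 x else φ j) (s j) = p j := by
      intro h hh hpsi
      refine ⟨_, hh, ?_⟩
      intro j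
      by_cases hj : j = ℓ
      · subst hj
        simp [hpsi]
      · simp [hj, hts j hj]
    by_cases c2 : p ℓ = v
    · apply main x
      · rw [← htx, Function.update_eq_self]
        exact htS
      · rw [c2]
        unfold psi
        split_ifs <;> omega
    · rcases hlev p hp with c | c | c
      · have hlt : v1 < v := by omega
        obtain ⟨h, e1, e2, e3⟩ := exists_below hlt hb
        apply main h e3
        rw [c]
        unfold psi
        split_ifs <;> omega
      · exact absurd c c2
      · have hlt : v < v3 := by omega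
        have h6 := mem_box.1 (hS htS) ℓ
        obtain ⟨h, e1, e2, e3, e4⟩ := exists_above hlt hk h6 ha
        apply main h e4
        rw [c]
        unfold psi
        split_ifs <;> omega

lemma card_few_below {n : Fin d → ℕ} {S : Finset (Fin d → ℕ)} (hS : S ⊆ box n) (ℓ : Fin d)
    (v : ℕ) : (S.filter (fun t => (below S ℓ t).card < v)).card ≤
      (∏ j, Function.update n ℓ 1 j) * v := by
  have hcard : (box (Function.update n ℓ 1) ×ˢ Finset.range v).card =
      (∏ j, Function.update n ℓ 1 j) * v := by
    rw [Finset.card_product, card_box, Finset.card_range]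
  rw [← hcard]
  apply Finset.card_le_card_of_injOn
    (fun t => (Function.update t ℓ 0, (below S ℓ t).card))
  · intro t ht
    simp only [Finset.coe_filter, Set.mem_ofPred_eq] at ht
    simp only [Finset.coe_product, Set.mem_prod, Finset.mem_coe, Finset.mem_range]
    refine ⟨?_, ht.2⟩
    rw [mem_box]
    intro j
    by_cases hj : j = ℓ
    · subst hj; simp
    · simp only [Function.update_of_ne hj]
      exact mem_box.1 (hS ht.1) j
  · intro t ht t' ht' heq
    simp only [Finset.coe_filter, Set.mem_ofPred_eq] at ht ht'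
    simp only [Prod.mk.injEq] at heq
    obtain ⟨e1, e2⟩ := heq
    have hj : ∀ j, j ≠ ℓ → t j = t' j := by
      intro j hj
      have := congrFun e1 j
      simpa [Function.update_of_ne hj] using this
    have hup : ∀ h, Function.update t ℓ h = Function.update t' ℓ h := by
      intro h
      funext j
      by_cases hjl : j = ℓ
      · subst hjl; simp
      · simp [Function.update_of_ne hjl, hj j hjl]
    -- a strict inclusion when the levels differ
    have key : ∀ a b : Fin d → ℕ, a ∈ S → (∀ h, Function.update a ℓ h = Function.update b ℓ h) →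
        a ℓ < b ℓ → (below S ℓ a).card < (below S ℓ b).card := by
      intro a b haS hab hlt
      apply Finset.card_lt_card
      rw [Finset.ssubset_iff_of_subset]
      · refine ⟨a ℓ, ?_, ?_⟩
        · simp only [below, Finset.mem_filter, Finset.mem_range]
          refine ⟨hlt, ?_⟩
          rw [← hab, Function.update_eq_self]
          exact haS
        · simp [below]
      · intro h hh
        simp only [below, Finset.mem_filter, Finset.mem_range] at hh ⊢
        refine ⟨by omega, ?_⟩
        rw [← hab]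
        exact hh.2
    have hℓ : t ℓ = t' ℓ := by
      rcases Nat.lt_trichotomy (t ℓ) (t' ℓ) with h | h | h
      · have := key t t' ht.1 hup h
        omega
      · exact h
      · have := key t' t ht'.1 (fun h => (hup h).symm) h
        omega
    funext j
    by_cases hjl : j = ℓ
    · rw [hjl]; exact hℓ
    · exact hj j hjl

lemma card_few_above {n : Fin d → ℕ} {S : Finset (Fin d → ℕ)} (hS : S ⊆ box n) (ℓ : Fin d)
    (v : ℕ) : (S.filter (fun t => (above S (n ℓ) ℓ t).card < v)).card ≤
      (∏ j, Function.update n ℓ 1 j) * v := by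
  have hcard : (box (Function.update n ℓ 1) ×ˢ Finset.range v).card =
      (∏ j, Function.update n ℓ 1 j) * v := by
    rw [Finset.card_product, card_box, Finset.card_range]
  rw [← hcard]
  apply Finset.card_le_card_of_injOn
    (fun t => (Function.update t ℓ 0, (above S (n ℓ) ℓ t).card))
  · intro t ht
    simp only [Finset.coe_filter, Set.mem_ofPred_eq] at ht
    simp only [Finset.coe_product, Set.mem_prod, Finset.mem_coe, Finset.mem_range]
    refine ⟨?_, ht.2⟩
    rw [mem_box]
    intro j
    by_cases hj : j = ℓ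
    · subst hj; simp
    · simp only [Function.update_of_ne hj]
      exact mem_box.1 (hS ht.1) j
  · intro t ht t' ht' heq
    simp only [Finset.coe_filter, Set.mem_ofPred_eq] at ht ht'
    simp only [Prod.mk.injEq] at heq
    obtain ⟨e1, e2⟩ := heq
    have hj : ∀ j, j ≠ ℓ → t j = t' j := by
      intro j hj
      have := congrFun e1 j
      simpa [Function.update_of_ne hj] using this
    have hup : ∀ h, Function.update t ℓ h = Function.update t' ℓ h := by
      intro h
      funext j
      by_cases hjl : j = ℓ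
      · subst hjl; simp
      · simp [Function.update_of_ne hjl, hj j hjl]
    have key : ∀ a b : Fin d → ℕ, b ∈ S → (∀ h, Function.update a ℓ h = Function.update b ℓ h) →
        a ℓ < b ℓ → (above S (n ℓ) ℓ b).card < (above S (n ℓ) ℓ a).card := by
      intro a b hbS hab hlt
      apply Finset.card_lt_card
      rw [Finset.ssubset_iff_of_subset]
      · refine ⟨b ℓ, ?_, ?_⟩
        · simp only [above, Finset.mem_filter, Finset.mem_Ioo]
          refine ⟨⟨hlt, mem_box.1 (hS hbS) ℓ⟩, ?_⟩
          rw [hab, Function.update_eq_self]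
          exact hbS
        · simp [above]
      · intro h hh
        simp only [above, Finset.mem_filter, Finset.mem_Ioo] at hh ⊢
        refine ⟨by omega, ?_⟩
        rw [hab]
        exact hh.2
    have hℓ : t ℓ = t' ℓ := by
      rcases Nat.lt_trichotomy (t ℓ) (t' ℓ) with h | h | h
      · have := key t t' ht'.1 hup h
        omega
      · exact h
      · have := key t' t ht.1 (fun h => (hup h).symm) h
        omega
    funext j
    by_cases hjl : j = ℓ
    · rw [hjl]; exact hℓ
    · exact hj j hjl

lemma card_proj_lev {S : Finset (Fin d → ℕ)} {N : ℕ} {ℓ : Fin d} {k v x : ℕ} :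
    (proj ℓ (lev S N ℓ k v x)).card = (lev S N ℓ k v x).card := by
  apply Finset.card_image_of_injOn
  intro t ht t' ht' heq
  simp only [lev, Finset.coe_filter, Set.mem_ofPred_eq] at ht ht'
  funext j
  by_cases hj : j = ℓ
  · subst hj; omega
  · have := congrFun heq j
    simpa [Function.update_of_ne hj] using this

lemma proj_subset {n : Fin d → ℕ} {S : Finset (Fin d → ℕ)} (hS : S ⊆ box n) (ℓ : Fin d) :
    proj ℓ S ⊆ box (Function.update n ℓ 1) := by
  intro t ht
  obtain ⟨s, hs, rfl⟩ := Finset.mem_image.1 ht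
  rw [mem_box]
  intro j
  by_cases hj : j = ℓ
  · subst hj; simp
  · simp only [Function.update_of_ne hj]
    exact mem_box.1 (hS hs) j

/-- The counting step of the peeling: if every level of the rest has at most `M` elements. -/
lemma peel_card {n k : Fin d → ℕ} {S : Finset (Fin d → ℕ)} (hS : S ⊆ box n) (ℓ : Fin d)
    {v M : ℕ} (hv : v < k ℓ)
    (hM : ∀ x, (lev S (n ℓ) ℓ (k ℓ) v x).card ≤ M) :
    S.card ≤ (∏ j, Function.update n ℓ 1 j) * (k ℓ - 1) + (n ℓ + 1 - k ℓ) * M := by
  set R := S.filter (fun t => v ≤ (below S ℓ t).card ∧ k ℓ ≤ (above S (n ℓ) ℓ t).card + 1 + v)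
    with hR
  have hunion : S ⊆ (S.filter (fun t => (below S ℓ t).card < v) ∪
      S.filter (fun t => (above S (n ℓ) ℓ t).card < k ℓ - 1 - v)) ∪ R := by
    intro t ht
    simp only [hR, Finset.mem_union, Finset.mem_filter]
    by_cases c1 : (below S ℓ t).card < v
    · exact Or.inl (Or.inl ⟨ht, c1⟩)
    · by_cases c2 : (above S (n ℓ) ℓ t).card < k ℓ - 1 - v
      · exact Or.inl (Or.inr ⟨ht, c2⟩)
      · exact Or.inr ⟨ht, by omega, by omega⟩
  have h1 := Finset.card_le_card hunion
  have h2 := Finset.card_union_le (S.filter (fun t => (below S ℓ t).card < v) ∪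
      S.filter (fun t => (above S (n ℓ) ℓ t).card < k ℓ - 1 - v)) R
  have h3 := Finset.card_union_le (S.filter (fun t => (below S ℓ t).card < v))
      (S.filter (fun t => (above S (n ℓ) ℓ t).card < k ℓ - 1 - v))
  have h4 := card_few_below hS ℓ v
  have h5 := card_few_above hS ℓ (k ℓ - 1 - v)
  have h6 : R.card ≤ (n ℓ + 1 - k ℓ) * M := by
    have hmaps : ∀ t ∈ R, t ℓ ∈ Finset.Ico v (n ℓ + 1 + v - k ℓ) := by
      intro t ht
      simp only [hR, Finset.mem_filter] at ht
      obtain ⟨htS, hb, ha⟩ := ht
      have h4 : (below S ℓ t).card ≤ t ℓ := by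
        refine (Finset.card_filter_le _ _).trans ?_
        simp
      have h5 : (above S (n ℓ) ℓ t).card ≤ n ℓ - t ℓ - 1 := by
        refine (Finset.card_filter_le _ _).trans ?_
        simp
      have h6 := mem_box.1 (hS htS) ℓ
      rw [Finset.mem_Ico]
      omega
    rw [Finset.card_eq_sum_card_fiberwise hmaps]
    have : ∀ x ∈ Finset.Ico v (n ℓ + 1 + v - k ℓ), (R.filter (fun t => t ℓ = x)).card ≤ M := by
      intro x _
      refine le_trans (Finset.card_le_card ?_) (hM x)
      intro t ht
      simp only [hR, lev, Finset.mem_filter] at ht ⊢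
      exact ⟨ht.1.1, ht.2, ht.1.2⟩
    refine (Finset.sum_le_sum this).trans ?_
    rw [Finset.sum_const, Nat.card_Ico, smul_eq_mul]
    apply Nat.mul_le_mul_right
    omega
  have h7 : (∏ j, Function.update n ℓ 1 j) * (k ℓ - 1) =
      (∏ j, Function.update n ℓ 1 j) * v + (∏ j, Function.update n ℓ 1 j) * (k ℓ - 1 - v) := by
    rw [← Nat.mul_add]
    congr 1
    omega
  omega

end

end Pool.Agent.Helper450IM
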