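import Mathlib

/-!
# Counting permutations with constraints
-/

namespace Pool.Agent.Helper450IM

open Finset

section

variable {k : ℕ}

/-- permutations mapping `V` into `B` -/
def mapsInto (V B : Finset (Fin k)) : Finset (Equiv.Perm (Fin k)) :=
  Finset.univ.filter (fun ρ => ∀ v ∈ V, ρ v ∈ B)

lemma mem_mapsInto {V B : Finset (Fin k)} {ρ : Equiv.Perm (Fin k)} :
    ρ ∈ mapsInto V B ↔ ∀ v ∈ V, ρ v ∈ B := by
  simp [mapsInto]

lemma card_mapsInto_insert (V B : Finset (Fin k)) {i : Fin k} (hi : i ∉ V) :
    (k - V.card) * (mapsInto (insert i V) B).card = (B.card - V.card) * (mapsInto V B).card := by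
  classical
  have h1 : ∀ ρ ∈ mapsInto V B, ((Finset.univ \ V).filter (fun j => ρ j ∈ B)).card =
      B.card - V.card := by
    intro ρ hρ
    rw [mem_mapsInto] at hρ
    have e1 : (Finset.univ \ V).filter (fun j => ρ j ∈ B) =
        (Finset.univ.filter (fun j => ρ j ∈ B)) \ V := by
      ext j
      simp only [Finset.mem_filter, Finset.mem_sdiff, Finset.mem_univ, true_and]
      tauto
    have e2 : (Finset.univ.filter (fun j => ρ j ∈ B)).card = B.card := by
      have : Finset.univ.filter (fun j => ρ j ∈ B) = B.map ρ.symm.toEmbedding := by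
        ext j
        simp only [Finset.mem_filter, Finset.mem_univ, true_and, Finset.mem_map_equiv]
        rfl
      rw [this, Finset.card_map]
    rw [e1, Finset.card_sdiff_of_subset, e2]
    intro v hv
    simp [hρ v hv]
  have h2 : ∑ ρ ∈ mapsInto V B, ((Finset.univ \ V).filter (fun j => ρ j ∈ B)).card =
      ∑ j ∈ Finset.univ \ V, ((mapsInto V B).filter (fun ρ => ρ j ∈ B)).card := by
    simp only [Finset.card_filter]
    exact Finset.sum_comm
  have h3 : ∀ j ∈ Finset.univ \ V, ((mapsInto V B).filter (fun ρ => ρ j ∈ B)).card =
      (mapsInto (insert i V) B).card := by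
    intro j hj
    simp only [Finset.mem_sdiff, Finset.mem_univ, true_and] at hj
    apply Finset.card_bij (fun ρ _ => ρ * Equiv.swap i j)
    · intro ρ hρ
      rw [Finset.mem_filter, mem_mapsInto] at hρ
      rw [mem_mapsInto]
      intro v hv
      rw [Finset.mem_insert] at hv
      rcases hv with rfl | hv
      · simp [hρ.2]
      · have hvi : v ≠ i := fun h => hi (h ▸ hv)
        have hvj : v ≠ j := fun h => hj (h ▸ hv)
        rw [Equiv.Perm.mul_apply, Equiv.swap_apply_of_ne_of_ne hvi hvj]
        exact hρ.1 v hv
    · intro ρ _ ρ' _ h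
      exact mul_right_cancel h
    · intro ρ hρ
      rw [mem_mapsInto] at hρ
      refine ⟨ρ * Equiv.swap i j, ?_, ?_⟩
      · rw [Finset.mem_filter, mem_mapsInto]
        constructor
        · intro v hv
          have hvi : v ≠ i := fun h => hi (h ▸ hv)
          have hvj : v ≠ j := fun h => hj (h ▸ hv)
          rw [Equiv.Perm.mul_apply, Equiv.swap_apply_of_ne_of_ne hvi hvj]
          exact hρ v (Finset.mem_insert_of_mem hv)
        · rw [Equiv.Perm.mul_apply, Equiv.swap_apply_right]
          exact hρ i (Finset.mem_insert_self _ _)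
      · rw [mul_assoc, Equiv.swap_mul_self, mul_one]
  rw [Finset.sum_congr rfl h1, Finset.sum_congr rfl h3, Finset.sum_const, Finset.sum_const,
    smul_eq_mul, smul_eq_mul, Finset.card_sdiff_of_subset (Finset.subset_univ _),
    Finset.card_univ, Fintype.card_fin] at h2
  rw [← h2, mul_comm]

lemma card_mapsInto_empty (B : Finset (Fin k)) : (mapsInto ∅ B).card = k.factorial := by
  simp [mapsInto, Fintype.card_perm]

lemma card_mapsInto_mul_le (V B : Finset (Fin k)) :
    (mapsInto V B).card * k ^ V.card ≤ B.card ^ V.card * k.factorial := by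
  classical
  induction V using Finset.induction_on with
  | empty => simp [card_mapsInto_empty]
  | insert i V hi ih =>
    have h0 := card_mapsInto_insert V B hi
    have hVk : V.card < k := by
      have h1 : (insert i V).card ≤ k := by
        have := Finset.card_le_univ (insert i V)
        simpa using this
      rw [Finset.card_insert_of_notMem hi] at h1
      omega
    have hBk : B.card ≤ k := by simpa using Finset.card_le_univ B
    have h2 : (B.card - V.card) * k ≤ B.card * (k - V.card) := by
      rcases Nat.le_total B.card V.card with h | h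
      · rw [Nat.sub_eq_zero_of_le h]; simp
      · obtain ⟨b, hb⟩ := Nat.exists_eq_add_of_le h
        obtain ⟨c, hc⟩ := Nat.exists_eq_add_of_le hVk.le
        have e1 : B.card - V.card = b := by omega
        have e2 : k - V.card = c := by omega
        rw [e1, e2, hb]
        have hbc : b ≤ c := by omega
        calc b * k = b * (V.card + c) := by rw [← hc]
          _ = V.card * b + b * c := by ring
          _ ≤ V.card * c + b * c := by
              apply Nat.add_le_add_right
              exact Nat.mul_le_mul_left _ hbc
          _ = (V.card + b) * c := by ring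
    have h3 : (mapsInto (insert i V) B).card * k ≤ B.card * (mapsInto V B).card := by
      have hpos : 0 < k - V.card := by omega
      apply Nat.le_of_mul_le_mul_left _ hpos
      calc (k - V.card) * ((mapsInto (insert i V) B).card * k)
          = ((k - V.card) * (mapsInto (insert i V) B).card) * k := by ring
        _ = ((B.card - V.card) * k) * (mapsInto V B).card := by rw [h0]; ring
        _ ≤ (B.card * (k - V.card)) * (mapsInto V B).card := Nat.mul_le_mul_right _ h2
        _ = _ := by ring
    rw [Finset.card_insert_of_notMem hi]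
    calc (mapsInto (insert i V) B).card * k ^ (V.card + 1)
        = ((mapsInto (insert i V) B).card * k) * k ^ V.card := by ring
      _ ≤ (B.card * (mapsInto V B).card) * k ^ V.card := Nat.mul_le_mul_right _ h3
      _ = B.card * ((mapsInto V B).card * k ^ V.card) := by ring
      _ ≤ B.card * (B.card ^ V.card * k.factorial) := Nat.mul_le_mul_left _ ih
      _ = _ := by ring

lemma card_mapsInto_one (B : Finset (Fin k)) (i : Fin k) :
    k * (mapsInto {i} B).card = B.card * k.factorial := by
  have h := card_mapsInto_insert ∅ B (i := i) (by simp)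
  simpa [card_mapsInto_empty] using h

lemma card_mapsInto_two (B : Finset (Fin k)) {i j : Fin k} (hij : i ≠ j) :
    (k * (k - 1)) * (mapsInto {i, j} B).card = (B.card * (B.card - 1)) * k.factorial := by
  have h := card_mapsInto_insert {j} B (i := i) (by simpa using hij)
  have h1 := card_mapsInto_one B j
  rw [Finset.card_singleton] at h
  calc (k * (k - 1)) * (mapsInto {i, j} B).card = k * ((k - 1) * (mapsInto {i, j} B).card) := by
        ring
    _ = (B.card - 1) * (k * (mapsInto {j} B).card) := by
        rw [h]; ring
    _ = _ := by rw [h1]; ring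

variable {d : ℕ}

/-- families of permutations with constraints, one for each coordinate -/
lemma card_family (V B : Fin d → Finset (Fin k)) :
    (Finset.univ.filter (fun ρ : Fin d → Equiv.Perm (Fin k) =>
      ∀ j, ∀ v ∈ V j, ρ j v ∈ B j)).card = ∏ j, (mapsInto (V j) (B j)).card := by
  rw [← Fintype.card_piFinset]
  congr 1
  ext ρ
  simp [Fintype.mem_piFinset, mem_mapsInto]

lemma card_all : Fintype.card (Fin d → Equiv.Perm (Fin k)) = k.factorial ^ d := by
  simp [Fintype.card_perm]

/-- passing to permutations relative to the coordinate `ℓ` -/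
lemma card_relative (ℓ : Fin d) (E : (Fin d → Equiv.Perm (Fin k)) → Prop) [DecidablePred E]
    [DecidablePred (fun σ : Fin d → Equiv.Perm (Fin k) =>
      E (fun j => if j = ℓ then σ ℓ else σ j * (σ ℓ)⁻¹))] :
    (Finset.univ.filter (fun σ : Fin d → Equiv.Perm (Fin k) =>
      E (fun j => if j = ℓ then σ ℓ else σ j * (σ ℓ)⁻¹))).card =
    (Finset.univ.filter E).card := by
  apply Finset.card_bij (fun σ _ => fun j => if j = ℓ then σ ℓ else σ j * (σ ℓ)⁻¹)
  · intro σ hσ
    simpa using hσ
  · intro σ _ σ' _ h
    have h1 : σ ℓ = σ' ℓ := by simpa using congrFun h ℓ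
    funext j
    by_cases hj : j = ℓ
    · subst hj; exact h1
    · have h2 := congrFun h j
      simp only [hj, if_false] at h2
      rw [h1] at h2
      exact mul_right_cancel h2
  · intro ρ hρ
    refine ⟨fun j => if j = ℓ then ρ ℓ else ρ j * ρ ℓ, ?_, ?_⟩
    · rw [Finset.mem_filter]
      refine ⟨Finset.mem_univ _, ?_⟩
      have : (fun j => if j = ℓ then (fun j => if j = ℓ then ρ ℓ else ρ j * ρ ℓ) ℓ
          else (fun j => if j = ℓ then ρ ℓ else ρ j * ρ ℓ) j *
            ((fun j => if j = ℓ then ρ ℓ else ρ j * ρ ℓ) ℓ)⁻¹) = ρ := by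
        funext j
        by_cases hj : j = ℓ
        · subst hj; simp
        · simp [hj]
      rw [this]
      simpa using hρ
    · funext j
      by_cases hj : j = ℓ
      · subst hj; simp
      · simp [hj]

end

end Pool.Agent.Helper450IM
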