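import Pool.Agent.helper450_im.BadCount

/-!
# Permutation matrices in `d` dimensions
-/

namespace Pool.Agent.Helper450IM

open Finset Filter Topology

section

variable {d k : ℕ}

/-- `P` is a `d`-dimensional `k × ⋯ × k` permutation matrix: every cross section in every
direction contains exactly one one. -/
def IsPermMatrix {d : ℕ} (k : ℕ) (P : Mat d) : Prop :=
  P.size = (fun _ => k) ∧ ∀ (ℓ : Fin d) (i : ℕ), i < k → ∃! x, x ∈ P.ones ∧ x ℓ = i

/-- the sequence `m(n,P,d) / n^(d-1)` converges -/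
def Converges {d : ℕ} (P : Mat d) : Prop :=
  ∃ L : ℝ, Tendsto (fun n : ℕ => (m n P : ℝ) / (n : ℝ) ^ (d - 1)) atTop (𝓝 L)

lemma Mat.ext' {P Q : Mat d} (h1 : P.size = Q.size) (h2 : P.ones = Q.ones) : P = Q := by
  obtain ⟨s, o, h⟩ := P
  obtain ⟨s', o', h'⟩ := Q
  simp only at h1 h2
  subst h1; subst h2
  rfl

lemma isPermMatrix_permMat (σ : Fin d → Equiv.Perm (Fin k)) : IsPermMatrix k (permMat σ) := by
  refine ⟨rfl, ?_⟩
  intro ℓ i hi
  refine ⟨pt σ ((σ ℓ).symm ⟨i, hi⟩), ⟨Finset.mem_image_of_mem _ (Finset.mem_univ _), ?_⟩, ?_⟩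
  · simp [pt]
  · rintro y ⟨hy, hy'⟩
    obtain ⟨j, _, rfl⟩ := Finset.mem_image.1 hy
    have : σ ℓ j = ⟨i, hi⟩ := Fin.ext hy'
    rw [← this, Equiv.symm_apply_apply]

lemma exists_permMat (hd : 0 < d) {P : Mat d} (hP : IsPermMatrix k P) :
    ∃ σ : Fin d → Equiv.Perm (Fin k), permMat σ = P := by
  obtain ⟨hsize, huniq⟩ := hP
  let ℓ₀ : Fin d := ⟨0, hd⟩
  have hx : ∀ i : Fin k, ∃ x, x ∈ P.ones ∧ x ℓ₀ = (i : ℕ) := fun i =>
    (huniq ℓ₀ i i.2).exists
  choose x hx1 hx2 using hx
  have hlt : ∀ i ℓ, x i ℓ < k := by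
    intro i ℓ
    have := P.inBox (x i) (hx1 i) ℓ
    rw [hsize] at this
    exact this
  have hinj : ∀ ℓ, Function.Injective (fun i : Fin k => (⟨x i ℓ, hlt i ℓ⟩ : Fin k)) := by
    intro ℓ i j hij
    have h1 : x i ℓ = x j ℓ := congrArg Fin.val hij
    have h2 : x i = x j := (huniq ℓ (x j ℓ) (hlt j ℓ)).unique ⟨hx1 i, h1⟩ ⟨hx1 j, rfl⟩
    apply Fin.ext
    rw [← hx2 i, ← hx2 j, h2]
  refine ⟨fun ℓ => Equiv.ofBijective _ ((Finite.injective_iff_bijective).1 (hinj ℓ)), ?_⟩
  apply Mat.ext'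
  · rw [hsize]; rfl
  · show Finset.univ.image (pt _) = P.ones
    ext y
    rw [Finset.mem_image]
    constructor
    · rintro ⟨i, _, rfl⟩
      have : pt (fun ℓ => Equiv.ofBijective _ ((Finite.injective_iff_bijective).1 (hinj ℓ))) i =
          x i := by
        funext ℓ
        rfl
      rw [this]
      exact hx1 i
    · intro hy
      have hyk : y ℓ₀ < k := by
        have := P.inBox y hy ℓ₀
        rw [hsize] at this
        exact this
      refine ⟨⟨y ℓ₀, hyk⟩, Finset.mem_univ _, ?_⟩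
      have : x ⟨y ℓ₀, hyk⟩ = y :=
        (huniq ℓ₀ (y ℓ₀) hyk).unique ⟨hx1 _, hx2 _⟩ ⟨hy, rfl⟩
      funext ℓ
      show x ⟨y ℓ₀, hyk⟩ ℓ = y ℓ
      rw [this]

open Classical in
lemma card_fiber (hd : 0 < d) (σ₀ : Fin d → Equiv.Perm (Fin k)) :
    (Finset.univ.filter (fun σ : Fin d → Equiv.Perm (Fin k) => permMat σ = permMat σ₀)).card =
      k.factorial := by
  let ℓ₀ : Fin d := ⟨0, hd⟩
  have hperm : (Finset.univ : Finset (Equiv.Perm (Fin k))).card = k.factorial := by
    rw [Finset.card_univ, Fintype.card_perm, Fintype.card_fin]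
  rw [← hperm]
  symm
  apply Finset.card_bij (fun τ _ => fun ℓ => σ₀ ℓ * τ)
  · intro τ _
    rw [Finset.mem_filter]
    refine ⟨Finset.mem_univ _, ?_⟩
    refine Mat.ext' (P := permMat (fun ℓ => σ₀ ℓ * τ)) (Q := permMat σ₀) rfl ?_
    show Finset.univ.image (pt _) = Finset.univ.image (pt _)
    ext y
    simp only [Finset.mem_image, Finset.mem_univ, true_and]
    constructor
    · rintro ⟨i, rfl⟩
      exact ⟨τ i, rfl⟩
    · rintro ⟨i, rfl⟩
      refine ⟨τ.symm i, ?_⟩
      funext ℓ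
      simp [pt]
  · intro τ _ τ' _ h
    have := congrFun h ℓ₀
    exact mul_left_cancel this
  · intro σ hσ
    rw [Finset.mem_filter] at hσ
    have hones : (permMat σ).ones = (permMat σ₀).ones := by rw [hσ.2]
    refine ⟨(σ₀ ℓ₀)⁻¹ * σ ℓ₀, Finset.mem_univ _, ?_⟩
    funext ℓ
    apply Equiv.ext
    intro i
    have h1 : pt σ i ∈ (permMat σ₀).ones := by
      rw [← hones]
      exact Finset.mem_image_of_mem _ (Finset.mem_univ i)
    obtain ⟨j, _, hj⟩ := Finset.mem_image.1 h1
    have h2 : ∀ ℓ, σ₀ ℓ j = σ ℓ i := fun ℓ => Fin.ext (congrFun hj ℓ)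
    have h3 : ((σ₀ ℓ₀)⁻¹ * σ ℓ₀) i = j := by
      rw [Equiv.Perm.mul_apply, ← h2 ℓ₀]
      simp
    rw [Equiv.Perm.mul_apply, h3, h2 ℓ]

lemma spans_permMat (hk : 0 < k) (σ : Fin d → Equiv.Perm (Fin k)) :
    Spans (permMat σ).size (permMat σ).ones := by
  intro ℓ
  constructor
  · refine ⟨pt σ ((σ ℓ).symm ⟨0, hk⟩), Finset.mem_image_of_mem _ (Finset.mem_univ _), ?_⟩
    simp [pt]
  · refine ⟨pt σ ((σ ℓ).symm ⟨k - 1, by omega⟩), Finset.mem_image_of_mem _ (Finset.mem_univ _), ?_⟩
    simp only [pt, Equiv.apply_symm_apply]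
    show k - 1 + 1 = k
    omega

lemma converges_of_props (hd : 0 < d) (hk : 0 < k) {σ : Fin d → Equiv.Perm (Fin k)}
    (h : PropZ σ ∧ PropY σ) : Converges (permMat σ) := by
  have hne : (permMat σ).ones.Nonempty :=
    ⟨pt σ ⟨0, hk⟩, Finset.mem_image_of_mem _ (Finset.mem_univ _)⟩
  exact tendsto_of_rigid_latin hd hne (spans_permMat hk σ)
    (rigid_of_props hd h.1 h.2 (by norm_num) (by omega) (latin_subset d 2) (isLatin_latin d 2))
    (rigid_of_props hd h.1 h.2 (by norm_num) (by omega) (latin_subset d 3) (isLatin_latin d 3))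

open Classical in
/-- The quantitative count. -/
theorem count_nonconvergent (hd : 0 < d) (hk : 8 * d ≤ k) :
    {P : Mat d | IsPermMatrix k P}.Finite ∧ 0 < {P : Mat d | IsPermMatrix k P}.ncard ∧
    ({P : Mat d | IsPermMatrix k P ∧ ¬ Converges P}.ncard : ℝ) ≤
      ((16 * d ^ 2 + (16 * d) ^ (2 * d)) / k) * {P : Mat d | IsPermMatrix k P}.ncard := by
  have hk0 : 0 < k := by omega
  set Pm : Finset (Mat d) := Finset.univ.image (permMat (d := d) (k := k)) with hPm
  have hset : {P : Mat d | IsPermMatrix k P} = ↑Pm := by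
    ext P
    simp only [Set.mem_ofPred_eq, hPm, Finset.coe_image, Finset.coe_univ, Set.image_univ,
      Set.mem_range]
    constructor
    · intro h
      exact exists_permMat hd h
    · rintro ⟨σ, rfl⟩
      exact isPermMatrix_permMat σ
  have hsetb : {P : Mat d | IsPermMatrix k P ∧ ¬ Converges P} =
      ↑(Pm.filter (fun P => ¬ Converges P)) := by
    ext P
    have : IsPermMatrix k P ↔ P ∈ Pm := by
      have := congrArg (fun s => P ∈ s) hset
      simpa using this
    simp only [Set.mem_ofPred_eq, Finset.coe_filter, this]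
  rw [hsetb, hset, Set.ncard_coe_finset, Set.ncard_coe_finset]
  have hne : Pm.Nonempty := Finset.univ_nonempty.image _
  refine ⟨Pm.finite_toSet, hne.card_pos, ?_⟩
  have hfib : ∀ P ∈ Pm, (Finset.univ.filter
      (fun σ : Fin d → Equiv.Perm (Fin k) => permMat σ = P)).card = k.factorial := by
    intro P hP
    obtain ⟨σ₀, _, rfl⟩ := Finset.mem_image.1 hP
    exact card_fiber hd σ₀
  have htot : tot d k = k.factorial * Pm.card := by
    have h1 : (Finset.univ : Finset (Fin d → Equiv.Perm (Fin k))).card =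
        ∑ P ∈ Pm, (Finset.univ.filter (fun σ => permMat σ = P)).card :=
      Finset.card_eq_sum_card_fiberwise (fun σ _ => by
        rw [hPm]; exact Finset.mem_coe.2 (Finset.mem_image_of_mem _ (Finset.mem_univ σ)))
    rw [Finset.sum_congr rfl hfib, Finset.sum_const, Finset.card_univ, card_all, smul_eq_mul] at h1
    rw [tot, h1, mul_comm]
  have hbad : k.factorial * (Pm.filter (fun P => ¬ Converges P)).card ≤
      (Finset.univ.filter (fun σ : Fin d → Equiv.Perm (Fin k) => ¬ (PropZ σ ∧ PropY σ))).card := by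
    have h1 : (Finset.univ.filter
        (fun σ : Fin d → Equiv.Perm (Fin k) => ¬ Converges (permMat σ))).card =
        ∑ P ∈ Pm.filter (fun P => ¬ Converges P), ((Finset.univ.filter
          (fun σ : Fin d → Equiv.Perm (Fin k) => ¬ Converges (permMat σ))).filter
            (fun σ => permMat σ = P)).card := by
      apply Finset.card_eq_sum_card_fiberwise
      intro σ hσ
      simp only [Finset.coe_filter, Finset.mem_univ, true_and, Set.mem_ofPred_eq] at hσ ⊢
      exact ⟨by rw [hPm]; exact Finset.mem_image_of_mem _ (Finset.mem_univ σ), hσ⟩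
    have h2 : ∀ P ∈ Pm.filter (fun P => ¬ Converges P), ((Finset.univ.filter
          (fun σ : Fin d → Equiv.Perm (Fin k) => ¬ Converges (permMat σ))).filter
            (fun σ => permMat σ = P)).card = k.factorial := by
      intro P hP
      rw [Finset.mem_filter] at hP
      rw [← hfib P hP.1]
      congr 1
      ext σ
      simp only [Finset.mem_filter, Finset.mem_univ, true_and]
      constructor
      · exact fun h => h.2
      · intro h
        exact ⟨by rw [h]; exact hP.2, h⟩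
    rw [Finset.sum_congr rfl h2, Finset.sum_const, smul_eq_mul] at h1
    rw [mul_comm, ← h1]
    apply Finset.card_le_card
    intro σ hσ
    rw [Finset.mem_filter] at hσ ⊢
    exact ⟨Finset.mem_univ _, fun h => hσ.2 (converges_of_props hd hk0 h)⟩
  have h1 := count_bad (d := d) (k := k) hd hk
  rw [htot] at h1
  have h2 : ((k.factorial * (Pm.filter (fun P => ¬ Converges P)).card : ℕ) : ℝ) ≤
      ((16 * d ^ 2 + (16 * d) ^ (2 * d)) / k) * ((k.factorial * Pm.card : ℕ) : ℝ) :=
    le_trans (by exact_mod_cast hbad) h1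
  push_cast at h2
  have hfac : (0 : ℝ) < (k.factorial : ℝ) := by exact_mod_cast Nat.factorial_pos k
  have h3 : (k.factorial : ℝ) * ((Pm.filter (fun P => ¬ Converges P)).card : ℝ) ≤
      (k.factorial : ℝ) * (((16 * d ^ 2 + (16 * d) ^ (2 * d)) / k) * (Pm.card : ℝ)) := by
    linarith
  exact le_of_mul_le_mul_left h3 hfac

/-- Almost all permutation matrices. -/
theorem tendsto_ratio (hd : 0 < d) :
    Tendsto (fun k : ℕ => ({P : Mat d | IsPermMatrix k P ∧ Converges P}.ncard : ℝ) /
      ({P : Mat d | IsPermMatrix k P}.ncard : ℝ)) atTop (𝓝 1) := by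
  have hlow : Tendsto (fun k : ℕ => 1 - ((16 * (d : ℝ) ^ 2 + (16 * d) ^ (2 * d)) / k)) atTop
      (𝓝 (1 - 0)) := tendsto_const_nhds.sub (tendsto_const_div_atTop_nhds_zero_nat _)
  rw [sub_zero] at hlow
  refine tendsto_of_tendsto_of_tendsto_of_le_of_le' hlow tendsto_const_nhds ?_ ?_
  · filter_upwards [eventually_ge_atTop (8 * d)] with k hk
    obtain ⟨hfin, hpos, h1⟩ := count_nonconvergent hd hk
    have h2 : {P : Mat d | IsPermMatrix k P}.ncard =
        {P : Mat d | IsPermMatrix k P ∧ Converges P}.ncard +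
        {P : Mat d | IsPermMatrix k P ∧ ¬ Converges P}.ncard := by
      have hd' : Disjoint {P : Mat d | IsPermMatrix k P ∧ Converges P}
          {P : Mat d | IsPermMatrix k P ∧ ¬ Converges P} := by
        rw [Set.disjoint_left]
        rintro P ⟨_, h3⟩ ⟨_, h4⟩
        exact h4 h3
      rw [← Set.ncard_union_eq hd' (hfin.subset (fun P hP => hP.1))
        (hfin.subset (fun P hP => hP.1))]
      congr 1
      ext P
      simp only [Set.mem_ofPred_eq, Set.mem_union]
      tauto
    have hposR : (0 : ℝ) < ({P : Mat d | IsPermMatrix k P}.ncard : ℝ) := by exact_mod_cast hpos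
    rw [le_div_iff₀ hposR]
    have h3 : ({P : Mat d | IsPermMatrix k P}.ncard : ℝ) =
        ({P : Mat d | IsPermMatrix k P ∧ Converges P}.ncard : ℝ) +
        ({P : Mat d | IsPermMatrix k P ∧ ¬ Converges P}.ncard : ℝ) := by exact_mod_cast h2
    linarith
  · filter_upwards [eventually_ge_atTop (8 * d)] with k hk
    obtain ⟨hfin, hpos, _⟩ := count_nonconvergent hd hk
    have hposR : (0 : ℝ) < ({P : Mat d | IsPermMatrix k P}.ncard : ℝ) := by exact_mod_cast hpos
    rw [div_le_one hposR]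
    have : {P : Mat d | IsPermMatrix k P ∧ Converges P}.ncard ≤
        {P : Mat d | IsPermMatrix k P}.ncard :=
      Set.ncard_le_ncard (fun P hP => hP.1) hfin
    exact_mod_cast this

end

end Pool.Agent.Helper450IM
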