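import Pool.Agent.helper450_im.Criterion
import Pool.Agent.helper450_im.PermCount

/-!
# A pseudorandomness condition on a tuple of permutations implying rigidity
-/

namespace Pool.Agent.Helper450IM

open Finset

section

variable {d k : ℕ}

/-- the point number `i` of the permutation matrix given by `σ` -/
def pt (σ : Fin d → Equiv.Perm (Fin k)) (i : Fin k) : Fin d → ℕ := fun ℓ => (σ ℓ i : ℕ)

/-- the permutation matrix given by a tuple of permutations -/
def permMat (σ : Fin d → Equiv.Perm (Fin k)) : Mat d where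
  size := fun _ => k
  ones := Finset.univ.image (pt σ)
  inBox := by
    intro x hx ℓ
    obtain ⟨i, _, rfl⟩ := Finset.mem_image.1 hx
    exact (σ ℓ i).2

/-- extreme points are not all extreme in a further direction -/
def PropZ (σ : Fin d → Equiv.Perm (Fin k)) : Prop :=
  ∀ (ℓ : Fin d) (q : ℕ), 1 ≤ q → 4 * d * q < k →
    (∃ i, ((σ ℓ i : ℕ) < q ∧ ∀ j, j ≠ ℓ → q ≤ (σ j i : ℕ) ∧ (σ j i : ℕ) + q < k)) ∧
    (∃ i, (k ≤ (σ ℓ i : ℕ) + q ∧ ∀ j, j ≠ ℓ → q ≤ (σ j i : ℕ) ∧ (σ j i : ℕ) + q < k))

/-- large boxes contain points -/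
def PropY (σ : Fin d → Equiv.Perm (Fin k)) : Prop :=
  ∀ a b : Fin d → ℕ, (∀ ℓ, b ℓ ≤ k ∧ k ≤ 4 * d * (b ℓ - a ℓ)) →
    ∃ i, ∀ ℓ, a ℓ ≤ (σ ℓ i : ℕ) ∧ (σ ℓ i : ℕ) < b ℓ

lemma mem_iff_lt_card {I : Finset (Fin k)} (hI : ∀ x y, x ≤ y → y ∈ I → x ∈ I) (x : Fin k) :
    x ∈ I ↔ (x : ℕ) < I.card := by
  constructor
  · intro hx
    have hsub : (Finset.univ.filter (fun y : Fin k => y ≤ x)) ⊆ I := by
      intro y hy
      rw [Finset.mem_filter] at hy
      exact hI y x hy.2 hx
    have h1 := Finset.card_le_card hsub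
    have h2 : (Finset.univ.filter (fun y : Fin k => y ≤ x)).card = x + 1 := by
      have : Finset.univ.filter (fun y : Fin k => y ≤ x) = Finset.Iic x := by
        ext y; simp
      rw [this, Fin.card_Iic]
    omega
  · intro hx
    by_contra hcon
    have hsub : I ⊆ Finset.univ.filter (fun y : Fin k => y < x) := by
      intro y hy
      rw [Finset.mem_filter]
      refine ⟨Finset.mem_univ _, ?_⟩
      by_contra h
      push Not at h
      exact hcon (hI x y h hy)
    have h1 := Finset.card_le_card hsub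
    have h2 : (Finset.univ.filter (fun y : Fin k => y < x)).card = x := by
      have : Finset.univ.filter (fun y : Fin k => y < x) = Finset.Iio x := by
        ext y; simp
      rw [this, Fin.card_Iio]
    omega

/-- for a monotone map to `{0,…,s-1}`, some value is taken at least `k / s` times -/
lemma exists_major {s : ℕ} (hs : 0 < s) (H : Fin k → ℕ) (hH : ∀ v, H v < s) :
    ∃ c, c < s ∧ k ≤ s * (Finset.univ.filter (fun v => H v = c)).card := by
  by_contra hcon
  push Not at hcon
  have h1 : ∑ c ∈ Finset.range s, (Finset.univ.filter (fun v => H v = c)).card = k := by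
    have := Finset.card_eq_sum_card_fiberwise (s := (Finset.univ : Finset (Fin k)))
      (t := Finset.range s) (f := H) (fun v _ => by simpa using hH v)
    rw [← this, Finset.card_univ, Fintype.card_fin]
  have h2 : ∑ c ∈ Finset.range s, s * (Finset.univ.filter (fun v => H v = c)).card <
      ∑ _c ∈ Finset.range s, k := by
    apply Finset.sum_lt_sum_of_nonempty
    · exact ⟨0, by simpa using hs⟩
    · intro c hc
      exact hcon c (by simpa using hc)
  rw [← Finset.mul_sum, h1, Finset.sum_const, Finset.card_range, smul_eq_mul] at h2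
  omega

/-- The deterministic part. -/
theorem rigid_of_props (hd : 0 < d) {σ : Fin d → Equiv.Perm (Fin k)}
    (hZ : PropZ σ) (hY : PropY σ) {s : ℕ} (hs0 : 0 < s) (hs : s ≤ 4 * d)
    {B : Finset (Fin d → ℕ)} (hB : B ⊆ box (fun _ => s)) (hL : IsLatin B) :
    Rigid (permMat σ).ones B := by
  intro h hhB hmono
  have hpt : ∀ i, pt σ i ∈ (permMat σ).ones := fun i => Finset.mem_image_of_mem _ (Finset.mem_univ i)
  -- the induced monotone maps
  set H : Fin d → Fin k → ℕ := fun ℓ v => h (pt σ ((σ ℓ).symm v)) ℓ with hH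
  have hHpt : ∀ ℓ i, H ℓ (σ ℓ i) = h (pt σ i) ℓ := by
    intro ℓ i
    simp [hH]
  have hHlt : ∀ ℓ v, H ℓ v < s := fun ℓ v => mem_box.1 (hB (hhB _ (hpt _))) ℓ
  have hHmono : ∀ ℓ v v', v ≤ v' → H ℓ v ≤ H ℓ v' := by
    intro ℓ v v' hvv'
    rcases eq_or_lt_of_le hvv' with rfl | hlt
    · exact le_refl _
    · apply hmono _ (hpt _) _ (hpt _)
      simpa [pt] using hlt
  -- majority values
  have hmaj : ∀ ℓ, ∃ c, c < s ∧ k ≤ s * (Finset.univ.filter (fun v => H ℓ v = c)).card :=
    fun ℓ => exists_major hs0 (H ℓ) (hHlt ℓ)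
  choose v hv1 hv2 using hmaj
  set a : Fin d → ℕ := fun ℓ => (Finset.univ.filter (fun x => H ℓ x < v ℓ)).card with ha
  set b : Fin d → ℕ := fun ℓ => (Finset.univ.filter (fun x => H ℓ x ≤ v ℓ)).card with hb
  have hmema : ∀ ℓ (x : Fin k), H ℓ x < v ℓ ↔ (x : ℕ) < a ℓ := by
    intro ℓ x
    have := mem_iff_lt_card (I := Finset.univ.filter (fun x => H ℓ x < v ℓ)) (by
      intro x y hxy hy
      rw [Finset.mem_filter] at hy ⊢
      exact ⟨Finset.mem_univ _, lt_of_le_of_lt (hHmono ℓ x y hxy) hy.2⟩) x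
    rw [Finset.mem_filter] at this
    simpa using this
  have hmemb : ∀ ℓ (x : Fin k), H ℓ x ≤ v ℓ ↔ (x : ℕ) < b ℓ := by
    intro ℓ x
    have := mem_iff_lt_card (I := Finset.univ.filter (fun x => H ℓ x ≤ v ℓ)) (by
      intro x y hxy hy
      rw [Finset.mem_filter] at hy ⊢
      exact ⟨Finset.mem_univ _, (hHmono ℓ x y hxy).trans hy.2⟩) x
    rw [Finset.mem_filter] at this
    simpa using this
  have hmid : ∀ ℓ (x : Fin k), H ℓ x = v ℓ ↔ a ℓ ≤ (x : ℕ) ∧ (x : ℕ) < b ℓ := by
    intro ℓ x
    have h1 := hmema ℓ x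
    have h2 := hmemb ℓ x
    omega
  have hbk : ∀ ℓ, b ℓ ≤ k := by
    intro ℓ
    have := Finset.card_le_univ (Finset.univ.filter (fun x => H ℓ x ≤ v ℓ))
    simpa using this
  have hab : ∀ ℓ, a ℓ + (Finset.univ.filter (fun x => H ℓ x = v ℓ)).card = b ℓ := by
    intro ℓ
    rw [ha, hb]
    simp only
    rw [← Finset.card_union_of_disjoint]
    · congr 1
      ext x
      simp only [Finset.mem_union, Finset.mem_filter, Finset.mem_univ, true_and]
      omega
    · rw [Finset.disjoint_filter]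
      intro x _ h1 h2
      omega
  have hlen : ∀ ℓ, k ≤ 4 * d * (b ℓ - a ℓ) := by
    intro ℓ
    have h1 := hab ℓ
    have h2 := hv2 ℓ
    have h3 : b ℓ - a ℓ = (Finset.univ.filter (fun x => H ℓ x = v ℓ)).card := by omega
    rw [h3]
    exact h2.trans (Nat.mul_le_mul_right _ hs)
  -- a point in the main box
  obtain ⟨i₀, hi₀⟩ := hY a b (fun ℓ => ⟨hbk ℓ, hlen ℓ⟩)
  have hmain : h (pt σ i₀) = v := by
    funext ℓ
    rw [← hHpt, hmid]
    exact hi₀ ℓ
  -- if a point differs in exactly one coordinate we get a contradiction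
  have hno : ∀ (ℓ : Fin d) (i : Fin k), h (pt σ i) ℓ ≠ v ℓ →
      (∀ j, j ≠ ℓ → a j ≤ (σ j i : ℕ) ∧ (σ j i : ℕ) < b j) → False := by
    intro ℓ i h1 h2
    apply h1
    have h3 : h (pt σ i) = h (pt σ i₀) := by
      apply hL _ (hhB _ (hpt i)) _ (hhB _ (hpt i₀)) ℓ
      intro j hj
      rw [hmain, ← hHpt, hmid]
      exact h2 j hj
    rw [h3, hmain]
  -- the largest deviation
  have hex : ∃ ℓ₁ : Fin d, ∀ ℓ, max (a ℓ) (k - b ℓ) ≤ max (a ℓ₁) (k - b ℓ₁) := by
    obtain ⟨ℓ₁, _, h1⟩ := Finset.exists_max_image (Finset.univ : Finset (Fin d))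
      (fun ℓ => max (a ℓ) (k - b ℓ)) ⟨⟨0, hd⟩, Finset.mem_univ _⟩
    exact ⟨ℓ₁, fun ℓ => h1 ℓ (Finset.mem_univ _)⟩
  obtain ⟨ℓ₁, hℓ₁⟩ := hex
  set q := max (a ℓ₁) (k - b ℓ₁) with hq
  have hq0 : q = 0 := by
    by_contra hne
    have hq1 : 1 ≤ q := by omega
    rcases le_total (k - b ℓ₁) (a ℓ₁) with hc | hc
    · have hqa : q = a ℓ₁ := by omega
      by_cases hsm : 4 * d * q < k
      · obtain ⟨⟨i, hi1, hi2⟩, _⟩ := hZ ℓ₁ q hq1 hsm
        apply hno ℓ₁ i
        · rw [← hHpt]
          have := (hmema ℓ₁ (σ ℓ₁ i)).2 (by omega)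
          omega
        · intro j hj
          have h1 := hi2 j hj
          have h2 := hℓ₁ j
          have h3 := hbk j
          omega
      · push Not at hsm
        obtain ⟨i, hi⟩ := hY (Function.update a ℓ₁ 0) (Function.update b ℓ₁ (a ℓ₁)) (by
          intro ℓ
          by_cases hℓ : ℓ = ℓ₁
          · subst hℓ
            rw [Function.update_self, Function.update_self]
            have h1 := hab ℓ
            have h2 := hbk ℓ
            refine ⟨by omega, ?_⟩
            rw [Nat.sub_zero, ← hqa]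
            exact hsm
          · rw [Function.update_of_ne hℓ, Function.update_of_ne hℓ]
            exact ⟨hbk ℓ, hlen ℓ⟩)
        apply hno ℓ₁ i
        · rw [← hHpt]
          have h1 := hi ℓ₁
          rw [Function.update_self, Function.update_self] at h1
          have := (hmema ℓ₁ (σ ℓ₁ i)).2 h1.2
          omega
        · intro j hj
          have h1 := hi j
          rw [Function.update_of_ne hj, Function.update_of_ne hj] at h1
          exact h1
    · have hqa : q = k - b ℓ₁ := by omega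
      have hbk1 := hbk ℓ₁
      by_cases hsm : 4 * d * q < k
      · obtain ⟨_, ⟨i, hi1, hi2⟩⟩ := hZ ℓ₁ q hq1 hsm
        apply hno ℓ₁ i
        · rw [← hHpt]
          intro heq
          have := (hmemb ℓ₁ (σ ℓ₁ i)).1 heq.le
          omega
        · intro j hj
          have h1 := hi2 j hj
          have h2 := hℓ₁ j
          have h3 := hbk j
          omega
      · push Not at hsm
        obtain ⟨i, hi⟩ := hY (Function.update a ℓ₁ (b ℓ₁)) (Function.update b ℓ₁ k) (by
          intro ℓ
          by_cases hℓ : ℓ = ℓ₁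
          · subst hℓ
            rw [Function.update_self, Function.update_self]
            refine ⟨le_refl _, ?_⟩
            rw [← hqa]
            exact hsm
          · rw [Function.update_of_ne hℓ, Function.update_of_ne hℓ]
            exact ⟨hbk ℓ, hlen ℓ⟩)
        apply hno ℓ₁ i
        · rw [← hHpt]
          intro heq
          have h1 := hi ℓ₁
          rw [Function.update_self, Function.update_self] at h1
          have := (hmemb ℓ₁ (σ ℓ₁ i)).1 heq.le
          omega
        · intro j hj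
          have h1 := hi j
          rw [Function.update_of_ne hj, Function.update_of_ne hj] at h1
          exact h1
  have hall : ∀ i, h (pt σ i) = v := by
    intro i
    funext ℓ
    rw [← hHpt, hmid]
    have h1 := hℓ₁ ℓ
    have h2 := hbk ℓ
    have h3 := (σ ℓ i).2
    omega
  intro p hp p' hp'
  obtain ⟨i, _, rfl⟩ := Finset.mem_image.1 hp
  obtain ⟨i', _, rfl⟩ := Finset.mem_image.1 hp'
  rw [hall i, hall i']

end

end Pool.Agent.Helper450IM
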