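import Pool.Agent.helper450_im.PermRigid

/-!
# Almost all tuples of permutations are pseudorandom
-/

namespace Pool.Agent.Helper450IM

open Finset

section

variable {d k : ℕ}

/-- the number of `d`-tuples of permutations -/
def tot (d k : ℕ) : ℕ := k.factorial ^ d

open Classical in
lemma count_assign (V B : Finset (Fin k)) (c : {v // v ∈ V} → Fin d) :
    (Finset.univ.filter (fun ρ : Fin d → Equiv.Perm (Fin k) =>
      ∀ v : {v // v ∈ V}, ρ (c v) v ∈ B)).card * k ^ V.card ≤ B.card ^ V.card * tot d k := by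
  set W : Fin d → Finset (Fin k) := fun j =>
    (Finset.univ.filter (fun v : {v // v ∈ V} => c v = j)).map (Function.Embedding.subtype _)
    with hW
  have h1 : (Finset.univ.filter (fun ρ : Fin d → Equiv.Perm (Fin k) =>
      ∀ v : {v // v ∈ V}, ρ (c v) v ∈ B)) =
      Finset.univ.filter (fun ρ : Fin d → Equiv.Perm (Fin k) =>
      ∀ j, ∀ v ∈ W j, ρ j v ∈ B) := by
    ext ρ
    simp only [Finset.mem_filter, Finset.mem_univ, true_and, hW, Finset.mem_map,
      Function.Embedding.coe_subtype]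
    constructor
    · rintro h j v ⟨w, hw, rfl⟩
      rw [← hw]
      exact h w
    · intro h v
      exact h (c v) v ⟨v, rfl, rfl⟩
  have h2 : ∑ j, (W j).card = V.card := by
    simp only [hW, Finset.card_map]
    rw [← Finset.card_eq_sum_card_fiberwise (s := (Finset.univ : Finset {v // v ∈ V}))
      (t := (Finset.univ : Finset (Fin d))) (f := c) (fun v _ => by simp)]
    simp
  rw [h1, card_family W (fun _ => B), ← h2, ← Finset.prod_pow_eq_pow_sum,
    ← Finset.prod_pow_eq_pow_sum, ← Finset.prod_mul_distrib]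
  calc ∏ j, ((mapsInto (W j) B).card * k ^ (W j).card)
      ≤ ∏ j, (B.card ^ (W j).card * k.factorial) :=
        Finset.prod_le_prod' (fun j _ => card_mapsInto_mul_le (W j) B)
    _ = (∏ j, B.card ^ (W j).card) * tot d k := by
        rw [Finset.prod_mul_distrib, tot]
        simp

open Classical in
lemma count_union (V B : Finset (Fin k)) :
    (Finset.univ.filter (fun ρ : Fin d → Equiv.Perm (Fin k) =>
      ∀ v ∈ V, ∃ j, ρ j v ∈ B)).card * k ^ V.card ≤ (d * B.card) ^ V.card * tot d k := by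
  have hsub : (Finset.univ.filter (fun ρ : Fin d → Equiv.Perm (Fin k) =>
      ∀ v ∈ V, ∃ j, ρ j v ∈ B)) ⊆
      (Finset.univ : Finset ({v // v ∈ V} → Fin d)).biUnion (fun c =>
        Finset.univ.filter (fun ρ : Fin d → Equiv.Perm (Fin k) =>
          ∀ v : {v // v ∈ V}, ρ (c v) v ∈ B)) := by
    intro ρ hρ
    rw [Finset.mem_filter] at hρ
    rw [Finset.mem_biUnion]
    choose c hc using fun v : {v // v ∈ V} => hρ.2 v v.2
    exact ⟨c, Finset.mem_univ _, Finset.mem_filter.2 ⟨Finset.mem_univ _, hc⟩⟩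
  have h1 := (Finset.card_le_card hsub).trans Finset.card_biUnion_le
  calc _ ≤ (∑ c : ({v // v ∈ V} → Fin d), (Finset.univ.filter
        (fun ρ : Fin d → Equiv.Perm (Fin k) => ∀ v : {v // v ∈ V}, ρ (c v) v ∈ B)).card) *
          k ^ V.card := Nat.mul_le_mul_right _ h1
    _ = ∑ c : ({v // v ∈ V} → Fin d), (Finset.univ.filter
        (fun ρ : Fin d → Equiv.Perm (Fin k) => ∀ v : {v // v ∈ V}, ρ (c v) v ∈ B)).card *
          k ^ V.card := by rw [Finset.sum_mul]
    _ ≤ ∑ _c : ({v // v ∈ V} → Fin d), B.card ^ V.card * tot d k :=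
        Finset.sum_le_sum (fun c _ => count_assign V B c)
    _ = _ := by
        rw [Finset.sum_const, Finset.card_univ, smul_eq_mul, Fintype.card_fun, Fintype.card_fin,
          Fintype.card_coe, Nat.mul_pow]
        ring

open Classical in
lemma count_F (ℓ : Fin d) (V B : Finset (Fin k)) :
    (Finset.univ.filter (fun σ : Fin d → Equiv.Perm (Fin k) =>
      ∀ i, σ ℓ i ∈ V → ∃ j, j ≠ ℓ ∧ σ j i ∈ B)).card * k ^ V.card ≤
      (d * B.card) ^ V.card * tot d k := by
  refine le_trans (Nat.mul_le_mul_right _ ?_) (count_union V B)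
  rw [← card_relative ℓ (fun ρ : Fin d → Equiv.Perm (Fin k) => ∀ v ∈ V, ∃ j, ρ j v ∈ B)]
  apply Finset.card_le_card
  intro σ hσ
  rw [Finset.mem_filter] at hσ ⊢
  refine ⟨Finset.mem_univ _, ?_⟩
  intro v hv
  obtain ⟨j, hj, hj'⟩ := hσ.2 ((σ ℓ).symm v) (by simpa using hv)
  refine ⟨j, ?_⟩
  simp only [hj, if_false]
  exact hj'

/-- second moment bound -/
lemma second_moment {w : ℕ} (hw : 0 < w) (hk : 0 < k) (G : Fin d → Finset (Fin k))
    (hG : ∀ ℓ, (G ℓ).card = w) (hd : 0 < d) :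
    ((Finset.univ.filter (fun σ : Fin d → Equiv.Perm (Fin k) =>
      ¬ ∃ i, ∀ ℓ, σ ℓ i ∈ G ℓ)).card : ℝ) * (k * (w / k : ℝ) ^ d) ≤ tot d k := by
  classical
  have hkR : (0 : ℝ) < k := by exact_mod_cast hk
  have hwR : (0 : ℝ) < w := by exact_mod_cast hw
  have hwk : w ≤ k := by
    rw [← hG ⟨0, hd⟩]
    simpa using Finset.card_le_univ (G ⟨0, hd⟩)
  set Ω := (Finset.univ : Finset (Fin d → Equiv.Perm (Fin k))) with hΩ
  set T : ℝ := (tot d k : ℝ) with hT
  have hTcard : (Ω.card : ℝ) = T := by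
    rw [hT, hΩ, Finset.card_univ, card_all, tot]
  set I : (Fin d → Equiv.Perm (Fin k)) → Fin k → ℝ :=
    fun σ i => if ∀ ℓ, σ ℓ i ∈ G ℓ then 1 else 0 with hI
  set X : (Fin d → Equiv.Perm (Fin k)) → ℝ := fun σ => ∑ i, I σ i with hX
  set μ : ℝ := k * (w / k : ℝ) ^ d with hμ
  have hμpos : 0 < μ := by positivity
  -- first moment
  have hone : ∀ i, ∑ σ ∈ Ω, I σ i = (w / k : ℝ) ^ d * T := by
    intro i
    have h1 : ∑ σ ∈ Ω, I σ i = ((Finset.univ.filter (fun ρ : Fin d → Equiv.Perm (Fin k) =>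
      ∀ j, ∀ v ∈ ({i} : Finset (Fin k)), ρ j v ∈ G j)).card : ℝ) := by
      rw [hI, Finset.card_filter]
      push_cast
      apply Finset.sum_congr rfl
      intro σ _
      simp
    rw [h1, card_family (fun _ => {i}) G]
    push_cast
    have h2 : ∀ j, ((mapsInto {i} (G j)).card : ℝ) = w / k * k.factorial := by
      intro j
      have h3 := card_mapsInto_one (G j) i
      rw [hG j] at h3
      have h4 : (k : ℝ) * (mapsInto {i} (G j)).card = w * k.factorial := by exact_mod_cast h3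
      field_simp
      linarith
    rw [Finset.prod_congr rfl (fun j _ => h2 j), Finset.prod_const, Finset.card_univ,
      Fintype.card_fin, mul_pow, hT, tot]
    push_cast
    ring
  have hEX : ∑ σ ∈ Ω, X σ = μ * T := by
    rw [hX, Finset.sum_comm, Finset.sum_congr rfl (fun i _ => hone i), Finset.sum_const,
      Finset.card_univ, Fintype.card_fin, nsmul_eq_mul, hμ]
    ring
  -- second moment
  have htwo : ∀ i i', i ≠ i' → ∑ σ ∈ Ω, I σ i * I σ i' ≤ ((w / k : ℝ) ^ d) ^ 2 * T := by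
    intro i i' hii'
    have h1 : ∑ σ ∈ Ω, I σ i * I σ i' =
      ((Finset.univ.filter (fun ρ : Fin d → Equiv.Perm (Fin k) =>
      ∀ j, ∀ v ∈ ({i, i'} : Finset (Fin k)), ρ j v ∈ G j)).card : ℝ) := by
      rw [hI, Finset.card_filter]
      push_cast
      apply Finset.sum_congr rfl
      intro σ _
      simp only [Finset.mem_insert, Finset.mem_singleton, forall_eq_or_imp, forall_eq]
      by_cases c1 : ∀ ℓ, σ ℓ i ∈ G ℓ
      · by_cases c2 : ∀ ℓ, σ ℓ i' ∈ G ℓ
        · simp [c1, c2]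
        · have c3 : ¬ ∀ j, σ j i ∈ G j ∧ σ j i' ∈ G j := fun h => c2 (fun ℓ => (h ℓ).2)
          simp [c2, c3]
      · have c3 : ¬ ∀ j, σ j i ∈ G j ∧ σ j i' ∈ G j := fun h => c1 (fun ℓ => (h ℓ).1)
        simp [c1, c3]
    rw [h1, card_family (fun _ => {i, i'}) G]
    push_cast
    have h2 : ∀ j, ((mapsInto {i, i'} (G j)).card : ℝ) ≤ (w / k : ℝ) ^ 2 * k.factorial := by
      intro j
      have h3 := card_mapsInto_two (G j) hii'
      rw [hG j] at h3
      have hk2 : 2 ≤ k := by
        have := i.2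
        have := i'.2
        have : (i : ℕ) ≠ i' := fun h => hii' (Fin.ext h)
        omega
      obtain ⟨K, rfl⟩ : ∃ K, k = K + 2 := ⟨k - 2, by omega⟩
      obtain ⟨W, rfl⟩ : ∃ W, w = W + 1 := ⟨w - 1, by omega⟩
      have e1 : K + 2 - 1 = K + 1 := by omega
      have e2 : W + 1 - 1 = W := by omega
      rw [e1, e2] at h3
      have h4 : (((K : ℝ) + 2) * (K + 1)) * (mapsInto {i, i'} (G j)).card =
          (((W : ℝ) + 1) * W) * (K + 2).factorial := by exact_mod_cast h3
      have h5 : ((mapsInto {i, i'} (G j)).card : ℝ) =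
          (((W : ℝ) + 1) * W) * (K + 2).factorial / (((K : ℝ) + 2) * (K + 1)) := by
        rw [eq_div_iff (by positivity)]
        linarith
      rw [h5]
      push_cast
      rw [div_pow, div_mul_eq_mul_div, div_le_div_iff₀ (by positivity) (by positivity)]
      have hWK : (W : ℝ) ≤ K + 1 := by
        have : W + 1 ≤ K + 2 := hwk
        exact_mod_cast (by omega : W ≤ K + 1)
      have hfac : (0 : ℝ) ≤ ((K + 2).factorial : ℝ) := by positivity
      have hkey : ((W : ℝ) + 1) * W * ((K : ℝ) + 2) ^ 2 ≤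
          ((W : ℝ) + 1) ^ 2 * (((K : ℝ) + 2) * (K + 1)) := by
        have : (W : ℝ) * (K + 2) ≤ (W + 1) * (K + 1) := by nlinarith
        have h6 : 0 ≤ ((W : ℝ) + 1) * (K + 2) := by positivity
        calc ((W : ℝ) + 1) * W * ((K : ℝ) + 2) ^ 2 =
            (((W : ℝ) + 1) * (K + 2)) * (W * (K + 2)) := by ring
          _ ≤ (((W : ℝ) + 1) * (K + 2)) * ((W + 1) * (K + 1)) :=
              mul_le_mul_of_nonneg_left this h6
          _ = _ := by ring
      calc ((W : ℝ) + 1) * W * ((K + 2).factorial : ℝ) * ((K : ℝ) + 2) ^ 2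
          = (((W : ℝ) + 1) * W * ((K : ℝ) + 2) ^ 2) * ((K + 2).factorial : ℝ) := by ring
        _ ≤ (((W : ℝ) + 1) ^ 2 * (((K : ℝ) + 2) * (K + 1))) * ((K + 2).factorial : ℝ) :=
            mul_le_mul_of_nonneg_right hkey hfac
        _ = _ := by ring
    calc ∏ j, ((mapsInto {i, i'} (G j)).card : ℝ)
        ≤ ∏ _j : Fin d, ((w / k : ℝ) ^ 2 * k.factorial) :=
          Finset.prod_le_prod (fun j _ => by positivity) (fun j _ => h2 j)
      _ = ((w / k : ℝ) ^ d) ^ 2 * T := by
          rw [Finset.prod_const, Finset.card_univ, Fintype.card_fin, mul_pow, hT, tot]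
          push_cast
          rw [← pow_mul, ← pow_mul, mul_comm 2 d]
  have hII : ∀ σ i, I σ i * I σ i = I σ i := by
    intro σ i
    rw [hI]
    simp only
    split_ifs <;> simp
  have hEX2 : ∑ σ ∈ Ω, X σ ^ 2 ≤ μ * T + μ ^ 2 * T := by
    have h1 : ∑ σ ∈ Ω, X σ ^ 2 = ∑ i, ∑ i', ∑ σ ∈ Ω, I σ i * I σ i' := by
      rw [hX]
      simp only [sq, Finset.sum_mul_sum]
      rw [Finset.sum_comm]
      apply Finset.sum_congr rfl
      intro i _
      rw [Finset.sum_comm]
    rw [h1]
    have h2 : ∀ i : Fin k, ∑ i', ∑ σ ∈ Ω, I σ i * I σ i' ≤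
        (w / k : ℝ) ^ d * T + k * (((w / k : ℝ) ^ d) ^ 2 * T) := by
      intro i
      rw [← Finset.add_sum_erase _ _ (Finset.mem_univ i)]
      apply add_le_add
      · rw [← hone i]
        exact (Finset.sum_congr rfl (fun σ _ => hII σ i)).le
      · calc ∑ i' ∈ Finset.univ.erase i, ∑ σ ∈ Ω, I σ i * I σ i'
            ≤ ∑ _i' ∈ Finset.univ.erase i, ((w / k : ℝ) ^ d) ^ 2 * T := by
              apply Finset.sum_le_sum
              intro i' hi'
              exact htwo i i' (Finset.ne_of_mem_erase hi').symm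
          _ ≤ k * (((w / k : ℝ) ^ d) ^ 2 * T) := by
              rw [Finset.sum_const, nsmul_eq_mul]
              apply mul_le_mul_of_nonneg_right _ (by positivity)
              have h3 : (Finset.univ.erase i).card ≤ k := by
                simpa using Finset.card_le_univ (Finset.univ.erase i)
              exact_mod_cast h3
    calc ∑ i, ∑ i', ∑ σ ∈ Ω, I σ i * I σ i'
        ≤ ∑ _i : Fin k, ((w / k : ℝ) ^ d * T + k * (((w / k : ℝ) ^ d) ^ 2 * T)) :=
          Finset.sum_le_sum (fun i _ => h2 i)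
      _ = μ * T + μ ^ 2 * T := by
          rw [Finset.sum_const, Finset.card_univ, Fintype.card_fin, nsmul_eq_mul, hμ]
          ring
  -- Chebyshev
  have hvar : ∑ σ ∈ Ω, (X σ - μ) ^ 2 ≤ μ * T := by
    have h1 : ∑ σ ∈ Ω, (X σ - μ) ^ 2 = ∑ σ ∈ Ω, X σ ^ 2 - 2 * μ * ∑ σ ∈ Ω, X σ + μ ^ 2 * T := by
      rw [← hTcard]
      simp only [sub_sq, Finset.sum_add_distrib, Finset.sum_sub_distrib, Finset.sum_const,
        nsmul_eq_mul, Finset.mul_sum]
      congr 1
      · congr 1
        apply Finset.sum_congr rfl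
        intro σ _
        ring
      · ring
    rw [h1, hEX]
    nlinarith [hEX2]
  set N := Finset.univ.filter (fun σ : Fin d → Equiv.Perm (Fin k) =>
      ¬ ∃ i, ∀ ℓ, σ ℓ i ∈ G ℓ) with hN
  have hlow : (N.card : ℝ) * μ ^ 2 ≤ ∑ σ ∈ Ω, (X σ - μ) ^ 2 := by
    calc (N.card : ℝ) * μ ^ 2 = ∑ _σ ∈ N, μ ^ 2 := by rw [Finset.sum_const, nsmul_eq_mul]
      _ = ∑ σ ∈ N, (X σ - μ) ^ 2 := by
          apply Finset.sum_congr rfl
          intro σ hσ
          rw [hN, Finset.mem_filter] at hσ
          have h1 : X σ = 0 := by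
            rw [hX]
            simp only
            apply Finset.sum_eq_zero
            intro i _
            rw [hI]
            simp only
            rw [if_neg]
            intro h2
            exact hσ.2 ⟨i, h2⟩
          rw [h1]
          ring
      _ ≤ _ := Finset.sum_le_sum_of_subset_of_nonneg (Finset.filter_subset _ _)
          (fun σ _ _ => sq_nonneg _)
  have h9 : ((N.card : ℝ) * μ) * μ ≤ T * μ := by
    calc ((N.card : ℝ) * μ) * μ = (N.card : ℝ) * μ ^ 2 := by ring
      _ ≤ μ * T := hlow.trans hvar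
      _ = T * μ := by ring
  exact le_of_mul_le_mul_right h9 hμpos

end

end Pool.Agent.Helper450IM
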