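import Pool.Agent.helper450_im.Star
import Pool.Agent.helper450_im.Bound

/-!
# Reduction of the directions with at most three nonzero cross sections
-/

namespace Pool.Agent.Helper450IM

open Finset Filter Topology

section

variable {d t : ℕ}

/-- the directions that are not in the image of `e` -/
def outside (e : Fin t → Fin d) : Finset (Fin d) :=
  Finset.univ.filter (fun ℓ => ∀ i, e i ≠ ℓ)

lemma mem_outside {e : Fin t → Fin d} {ℓ : Fin d} : ℓ ∈ outside e ↔ ∀ i, e i ≠ ℓ := by
  simp [outside]

lemma prod_split {M : Type*} [CommMonoid M] {e : Fin t → Fin d} (he : Function.Injective e)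
    (f : Fin d → M) : ∏ ℓ, f ℓ = (∏ ℓ ∈ outside e, f ℓ) * ∏ i, f (e i) := by
  classical
  rw [← Finset.prod_filter_mul_prod_filter_not Finset.univ (fun ℓ => ∀ i, e i ≠ ℓ) f]
  congr 1
  have : Finset.univ.filter (fun ℓ => ¬ ∀ i, e i ≠ ℓ) = Finset.univ.image e := by
    ext ℓ
    simp
  rw [this, Finset.prod_image (fun i _ j _ h => he h)]

lemma emb_of_comp {e : Fin t → Fin d} (he : Function.Injective e) {n k : Fin d → ℕ}
    {S P : Finset (Fin d → ℕ)} (hn : ∀ ℓ ∈ outside e, n ℓ = 1 ∧ k ℓ = 1)
    (hS : S ⊆ box n) (hP : P ⊆ box k)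
    (h : Emb (fun i => n (e i)) (fun i => k (e i)) (S.image (fun s i => s (e i)))
      (P.image (fun p i => p (e i)))) : Emb n k S P := by
  classical
  obtain ⟨φ, hφ, hemb⟩ := h
  have hval : ∀ i, (if h : ∃ j, e j = e i then φ (Classical.choose h) else fun x => x) = φ i := by
    intro i
    have hex : ∃ j, e j = e i := ⟨i, rfl⟩
    rw [dif_pos hex]
    have := Classical.choose_spec hex
    rw [he this]
  refine ⟨fun ℓ => if h : ∃ j, e j = ℓ then φ (Classical.choose h) else fun x => x, ?_, ?_⟩
  · intro ℓ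
    by_cases hℓ : ∃ i, e i = ℓ
    · obtain ⟨i, rfl⟩ := hℓ
      show Onto (n (e i)) (k (e i))
        (if h : ∃ j, e j = e i then φ (Classical.choose h) else fun x => x)
      rw [hval i]
      exact hφ i
    · show Onto (n ℓ) (k ℓ)
        (if h : ∃ j, e j = ℓ then φ (Classical.choose h) else fun x => x)
      rw [dif_neg hℓ]
      have h1 := hn ℓ (mem_outside.2 (fun i hi => hℓ ⟨i, hi⟩))
      rw [h1.1, h1.2]
      exact Onto.id 1
  · intro p hp
    obtain ⟨s', hs', hs''⟩ := hemb _ (Finset.mem_image_of_mem _ hp)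
    obtain ⟨s, hs, rfl⟩ := Finset.mem_image.1 hs'
    refine ⟨s, hs, ?_⟩
    intro ℓ
    by_cases hℓ : ∃ i, e i = ℓ
    · obtain ⟨i, rfl⟩ := hℓ
      have h1 := hs'' i
      have h2 := congrFun (hval i) (s (e i))
      simp only at h1
      show (if h : ∃ j, e j = e i then φ (Classical.choose h) else fun x => x) (s (e i)) = _
      rw [h2, h1]
    · have h1 := hn ℓ (mem_outside.2 (fun i hi => hℓ ⟨i, hi⟩))
      have h2 := mem_box.1 (hS hs) ℓ
      have h3 := mem_box.1 (hP hp) ℓ
      show (if h : ∃ j, e j = ℓ then φ (Classical.choose h) else fun x => x) (s ℓ) = _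
      rw [dif_neg hℓ]
      show s ℓ = p ℓ
      omega

lemma image_comp_box {e : Fin t → Fin d} {n : Fin d → ℕ} {S : Finset (Fin d → ℕ)}
    (hS : S ⊆ box n) : S.image (fun s i => s (e i)) ⊆ box (fun i => n (e i)) := by
  intro y hy
  obtain ⟨s, hs, rfl⟩ := Finset.mem_image.1 hy
  rw [mem_box]
  intro i
  exact mem_box.1 (hS hs) (e i)

/-- The upper bound. -/
lemma upperT {e : Fin t → Fin d} (he : Function.Injective e) (M : ℕ) (D : Finset (Fin d)) :
    ∀ (n k : Fin d → ℕ) (P S : Finset (Fin d → ℕ)),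
    P.Nonempty → P ⊆ box k → (∀ ℓ ∈ outside e, (P.image (fun x => x ℓ)).card ≤ 3) →
    (∀ ℓ ∈ outside e, ℓ ∉ D → n ℓ = 1 ∧ k ℓ = 1) → S ⊆ box n → ¬ Emb n k S P →
    (∀ S' ⊆ box (fun i => n (e i)), ¬ Emb (fun i => n (e i)) (fun i => k (e i)) S'
      (P.image (fun p i => p (e i))) → S'.card ≤ M) →
    S.card + (∏ ℓ ∈ outside e, (n ℓ + 1 - k ℓ)) * (∏ i, n (e i) - M) ≤ ∏ ℓ, n ℓ := by
  classical
  induction D using Finset.induction_on with
  | empty =>
    intro n k P S hP0 hPk _ hD hS hE hM
    have hD' : ∀ ℓ ∈ outside e, n ℓ = 1 ∧ k ℓ = 1 := fun ℓ hℓ => hD ℓ hℓ (by simp)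
    have h1 : (S.image (fun s i => s (e i))).card ≤ M := by
      apply hM _ (image_comp_box hS)
      intro hcon
      exact hE (emb_of_comp he hD' hS hPk hcon)
    have h2 : (S.image (fun (s : Fin d → ℕ) (i : Fin t) => s (e i))).card = S.card := by
      apply Finset.card_image_of_injOn
      intro s hs s' hs' hss
      funext ℓ
      by_cases hℓ : ∃ i, e i = ℓ
      · obtain ⟨i, rfl⟩ := hℓ
        exact congrFun hss i
      · have e1 := hD' ℓ (mem_outside.2 (fun i hi => hℓ ⟨i, hi⟩))
        have e2 := mem_box.1 (hS hs) ℓ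
        have e3 := mem_box.1 (hS hs') ℓ
        omega
    have h3 : S.card ≤ ∏ ℓ, n ℓ := by
      rw [← card_box]
      exact Finset.card_le_card hS
    have h4 : ∏ ℓ ∈ outside e, (n ℓ + 1 - k ℓ) = 1 := by
      apply Finset.prod_eq_one
      intro ℓ hℓ
      have := hD' ℓ hℓ
      omega
    have h5 : ∏ ℓ, n ℓ = ∏ i, n (e i) := by
      rw [prod_split he n]
      have : ∏ ℓ ∈ outside e, n ℓ = 1 := Finset.prod_eq_one (fun ℓ hℓ => (hD' ℓ hℓ).1)
      rw [this, one_mul]
    rw [h4, one_mul, h5]
    rw [h5] at h3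
    omega
  | insert ℓ D hℓD ih =>
    intro n k P S hP0 hPk h3 hD hS hE hM
    by_cases hℓ0 : ℓ ∈ outside e
    swap
    · apply ih n k P S hP0 hPk h3 _ hS hE hM
      intro j hj hjD
      apply hD j hj
      rw [Finset.mem_insert]
      push Not
      exact ⟨fun h => hℓ0 (h ▸ hj), hjD⟩
    · have hout := mem_outside.1 hℓ0
      -- choose the levels
      have hne : (P.image (fun x => x ℓ)).Nonempty := hP0.image _
      obtain ⟨v1, v, v3, hv1, hv3, m1, m, m3, hall⟩ := three_levels hne (h3 ℓ hℓ0)
      have hlt : ∀ w ∈ P.image (fun x => x ℓ), w < k ℓ := by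
        intro w hw
        obtain ⟨p, hp, rfl⟩ := Finset.mem_image.1 hw
        exact mem_box.1 (hPk hp) ℓ
      have hQ0 : (proj ℓ P).Nonempty := hP0.image _
      set n' := Function.update n ℓ 1 with hn'
      set k' := Function.update k ℓ 1 with hk'
      have hne' : (fun i => n' (e i)) = (fun i => n (e i)) := by
        funext i
        rw [hn', Function.update_of_ne (hout i)]
      have hke' : (fun i => k' (e i)) = (fun i => k (e i)) := by
        funext i
        rw [hk', Function.update_of_ne (hout i)]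
      have hPe' : (proj ℓ P).image (fun (p : Fin d → ℕ) (i : Fin t) => p (e i)) =
          P.image (fun (p : Fin d → ℕ) (i : Fin t) => p (e i)) := by
        rw [proj, Finset.image_image]
        apply Finset.image_congr
        intro x _
        funext i
        simp [Function.update_of_ne (hout i)]
      have hprodne : ∏ i, n' (e i) = ∏ i, n (e i) :=
        Finset.prod_congr rfl (fun i _ => congrFun hne' i)
      have hlev : ∀ x, (lev S (n ℓ) ℓ (k ℓ) v x).card +
          (∏ j ∈ outside e, (n' j + 1 - k' j)) * (∏ i, n (e i) - M) ≤ ∏ j, n' j := by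
        intro x
        rw [← card_proj_lev, ← hprodne]
        apply ih n' k' (proj ℓ P) (proj ℓ (lev S (n ℓ) ℓ (k ℓ) v x)) hQ0 (proj_subset hPk ℓ)
        · intro j hj
          by_cases hjl : j = ℓ
          · subst hjl
            have : (proj j P).image (fun x => x j) ⊆ {0} := by
              intro w hw
              obtain ⟨q, hq, rfl⟩ := Finset.mem_image.1 hw
              obtain ⟨p, hp, rfl⟩ := Finset.mem_image.1 hq
              simp
            have := Finset.card_le_card this
            simp at this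
            omega
          · have : (proj ℓ P).image (fun x => x j) = P.image (fun x => x j) := by
              rw [proj, Finset.image_image]
              apply Finset.image_congr
              intro x _
              simp [Function.update_of_ne hjl]
            rw [this]
            exact h3 j hj
        · intro j hj hjD
          by_cases hjl : j = ℓ
          · subst hjl; simp [hn', hk']
          · simp only [hn', hk', Function.update_of_ne hjl]
            apply hD j hj
            rw [Finset.mem_insert]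
            push Not
            exact ⟨hjl, hjD⟩
        · apply proj_subset
          exact (Finset.filter_subset _ _).trans hS
        · intro hE'
          apply hE
          apply peel_emb hS ℓ hv1 hv3 (hlt v3 m3) hP0 _ hE'
          intro p hp
          exact hall _ (Finset.mem_image_of_mem _ hp)
        · rw [hne', hke', hPe']
          exact hM
      have hpc := peel_card (M := ∏ j, n' j -
          (∏ j ∈ outside e, (n' j + 1 - k' j)) * (∏ i, n (e i) - M)) hS ℓ (hlt v m)
        (fun x => by have := hlev x; omega)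
      have hle : (∏ j ∈ outside e, (n' j + 1 - k' j)) * (∏ i, n (e i) - M) ≤ ∏ j, n' j := by
        have := hlev 0
        omega
      have hsplit : ∏ j ∈ outside e, (n j + 1 - k j) =
          (n ℓ + 1 - k ℓ) * ∏ j ∈ outside e, (n' j + 1 - k' j) := by
        rw [← Finset.mul_prod_erase (outside e) (fun j => n j + 1 - k j) hℓ0,
          ← Finset.mul_prod_erase (outside e) (fun j => n' j + 1 - k' j) hℓ0]
        have e1 : n' ℓ + 1 - k' ℓ = 1 := by simp [hn', hk']
        rw [e1, one_mul]
        congr 1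
        apply Finset.prod_congr rfl
        intro j hj
        have hjl : j ≠ ℓ := Finset.ne_of_mem_erase hj
        simp [hn', hk', Function.update_of_ne hjl]
      rw [prod_update n ℓ, hsplit, Nat.mul_assoc]
      rw [← hn'] at hpc ⊢
      set A := ∏ j, n' j
      set B := (∏ j ∈ outside e, (n' j + 1 - k' j)) * (∏ i, n (e i) - M)
      obtain ⟨C, hC⟩ := Nat.exists_eq_add_of_le hle
      have hAB : A - B = C := by omega
      rw [hAB] at hpc
      have hkpos : 0 < k ℓ := lt_of_le_of_lt (Nat.zero_le _) (hlt v m)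
      by_cases hnk : k ℓ ≤ n ℓ + 1
      · obtain ⟨f, hf⟩ := Nat.exists_eq_add_of_le hnk
        have hf' : n ℓ + 1 - k ℓ = f := by omega
        rw [hf'] at hpc ⊢
        have hn2 : n ℓ = (k ℓ - 1) + f := by omega
        calc S.card + f * B ≤ A * (k ℓ - 1) + f * C + f * B := by omega
          _ = A * (k ℓ - 1) + f * A := by rw [hC]; ring
          _ = n ℓ * A := by rw [hn2]; ring
      · have hf' : n ℓ + 1 - k ℓ = 0 := by omega
        rw [hf']
        have h2 : S.card ≤ ∏ ℓ, n ℓ := by
          rw [← card_box]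
          exact Finset.card_le_card hS
        rw [prod_update n ℓ, ← hn'] at h2
        rw [Nat.zero_mul, Nat.add_zero]
        exact h2

/-- The upper bound for the extremal function. -/
theorem maxOnes_upperT {e : Fin t → Fin d} (he : Function.Injective e) {P : Mat d} {R : Mat t}
    (hP : P.ones.Nonempty) (hsize : ∀ i, R.size i = P.size (e i))
    (hones : R.ones = P.ones.image (fun p i => p (e i)))
    (h3 : ∀ ℓ ∈ outside e, (P.ones.image (fun x => x ℓ)).card ≤ 3) (n : Fin d → ℕ) :
    maxOnes n P + (∏ ℓ ∈ outside e, (n ℓ + 1 - P.size ℓ)) *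
      (∏ i, n (e i) - maxOnes (fun i => n (e i)) R) ≤ ∏ ℓ, n ℓ := by
  obtain ⟨S, hS, hE, hcard⟩ := exists_maxOnes n hP
  rw [← hcard]
  have hR : R.ones.Nonempty := by
    rw [hones]
    exact hP.image _
  have hsz : R.size = fun i => P.size (e i) := funext hsize
  apply upperT he _ Finset.univ n P.size P.ones S hP P.ones_subset h3 (by simp) hS hE
  intro S' hS' hE'
  apply card_le_maxOnes hR hS'
  rw [hsz, hones]
  exact hE'

/-- The lower bound for the extremal function. -/
theorem maxOnes_lowerT {e : Fin t → Fin d} (he : Function.Injective e) {P : Mat d} {R : Mat t}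
    (hP : P.ones.Nonempty) (hR : R.ones.Nonempty) (hsize : ∀ i, R.size i = P.size (e i))
    {c : Fin d → ℕ} (hcore : ∀ r ∈ R.ones, ∃ q ∈ P.ones, (∀ i, q (e i) = r i) ∧
      ∀ ℓ ∈ outside e, q ℓ = c ℓ) (n : Fin d → ℕ) :
    ∏ ℓ, n ℓ ≤ maxOnes n P + (∏ ℓ ∈ outside e, (n ℓ + 1 - P.size ℓ)) *
      (∏ i, n (e i) - maxOnes (fun i => n (e i)) R) := by
  classical
  obtain ⟨S, hS, hE, hcard⟩ := exists_maxOnes (fun i => n (e i)) hR
  rw [← hcard]
  have hc : ∀ ℓ ∈ outside e, c ℓ < P.size ℓ := by
    intro ℓ hℓ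
    obtain ⟨r, hr⟩ := hR
    obtain ⟨q, hq, _, h2⟩ := hcore r hr
    rw [← h2 ℓ hℓ]
    exact P.inBox q hq ℓ
  -- the zeros
  set Z : Finset (Fin d → ℕ) := (box (fun i => n (e i)) \ S).biUnion (fun y =>
    Fintype.piFinset (fun ℓ => if h : ∃ i, e i = ℓ then ({y (Classical.choose h)} : Finset ℕ)
      else Finset.Ico (c ℓ) (n ℓ + 1 + c ℓ - P.size ℓ))) with hZ
  have hval : ∀ (y : Fin t → ℕ) i, (if h : ∃ j, e j = e i then
      ({y (Classical.choose h)} : Finset ℕ)
      else Finset.Ico (c (e i)) (n (e i) + 1 + c (e i) - P.size (e i))) = {y i} := by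
    intro y i
    have hex : ∃ j, e j = e i := ⟨i, rfl⟩
    rw [dif_pos hex]
    have := Classical.choose_spec hex
    rw [he this]
  have hmemZ : ∀ x, x ∈ Z ↔ (fun i => x (e i)) ∈ box (fun i => n (e i)) \ S ∧
      ∀ ℓ ∈ outside e, x ℓ ∈ Finset.Ico (c ℓ) (n ℓ + 1 + c ℓ - P.size ℓ) := by
    intro x
    rw [hZ, Finset.mem_biUnion]
    constructor
    · rintro ⟨y, hy, hx⟩
      rw [Fintype.mem_piFinset] at hx
      have hxy : (fun i => x (e i)) = y := by
        funext i
        have h1 := hx (e i)
        rw [hval y i, Finset.mem_singleton] at h1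
        exact h1
      rw [hxy]
      refine ⟨hy, ?_⟩
      intro ℓ hℓ
      have h1 := hx ℓ
      rw [dif_neg (fun ⟨i, hi⟩ => mem_outside.1 hℓ i hi)] at h1
      exact h1
    · rintro ⟨h1, h2⟩
      refine ⟨_, h1, ?_⟩
      rw [Fintype.mem_piFinset]
      intro ℓ
      by_cases hℓ : ∃ i, e i = ℓ
      · obtain ⟨i, rfl⟩ := hℓ
        have h3 := hval (fun i => x (e i)) i
        rw [h3, Finset.mem_singleton]
      · rw [dif_neg hℓ]
        exact h2 ℓ (mem_outside.2 (fun i hi => hℓ ⟨i, hi⟩))
  have hZcard : Z.card ≤ (∏ ℓ ∈ outside e, (n ℓ + 1 - P.size ℓ)) *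
      (∏ i, n (e i) - S.card) := by
    have h1 : (box (fun i => n (e i)) \ S).card = ∏ i, n (e i) - S.card := by
      rw [Finset.card_sdiff_of_subset hS, card_box]
    rw [← h1, Nat.mul_comm]
    apply Finset.card_biUnion_le_card_mul
    intro y _
    rw [Fintype.card_piFinset, prod_split he]
    have h2 : ∏ i, (if h : ∃ j, e j = e i then
      ({y (Classical.choose h)} : Finset ℕ)
      else Finset.Ico (c (e i)) (n (e i) + 1 + c (e i) - P.size (e i))).card = 1 := by
      apply Finset.prod_eq_one
      intro i _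
      rw [hval y i, Finset.card_singleton]
    rw [h2, mul_one]
    apply le_of_eq
    apply Finset.prod_congr rfl
    intro ℓ hℓ
    rw [dif_neg (fun ⟨i, hi⟩ => mem_outside.1 hℓ i hi), Nat.card_Ico]
    have := hc ℓ hℓ
    omega
  have hav : ¬ Emb n P.size (box n \ Z) P.ones := by
    rintro ⟨φ, hφ, hemb⟩
    apply hE
    refine ⟨fun i => φ (e i), fun i => ?_, ?_⟩
    · rw [hsize i]
      exact hφ (e i)
    · intro r hr
      obtain ⟨q, hq, hq1, hq2⟩ := hcore r hr
      obtain ⟨s, hs, hs'⟩ := hemb q hq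
      rw [Finset.mem_sdiff] at hs
      have hsb := mem_box.1 hs.1
      refine ⟨fun i => s (e i), ?_, ?_⟩
      · by_contra hcon
        apply hs.2
        rw [hmemZ]
        refine ⟨Finset.mem_sdiff.2 ⟨mem_box.2 (fun i => hsb (e i)), hcon⟩, ?_⟩
        intro ℓ hℓ
        have h2 := (hφ ℓ).le _ (hsb ℓ)
        have h3 := (hφ ℓ).ge _ (hsb ℓ)
        rw [hs' ℓ, hq2 ℓ hℓ] at h2 h3
        have h4 := hsb ℓ
        rw [Finset.mem_Ico]
        omega
      · intro i
        show φ (e i) (s (e i)) = r i
        rw [hs', hq1]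
  have h5 := card_le_maxOnes hP (Finset.sdiff_subset : box n \ Z ⊆ box n) hav
  have h6 : (box n).card ≤ (box n \ Z).card + Z.card := by
    exact Finset.card_le_card_sdiff_add_card (s := box n) (t := Z)
  rw [card_box] at h6
  omega

end

end Pool.Agent.Helper450IM
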