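import Pool.Agent.helper450_im.Reduce

/-!
# The limit in the reduction
-/

namespace Pool.Agent.Helper450IM

open Finset Filter Topology

section

variable {d t : ℕ}

lemma card_outside {e : Fin t → Fin d} (he : Function.Injective e) :
    (outside e).card + t = d := by
  have h := prod_split he (fun _ => (2 : ℕ))
  simp only [Finset.prod_const, Finset.card_univ, Fintype.card_fin] at h
  rw [← pow_add] at h
  exact (Nat.pow_right_injective (le_refl 2) h).symm

lemma maxOnes_le_prod {n : Fin d → ℕ} {P : Mat d} (hP : P.ones.Nonempty) :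
    maxOnes n P ≤ ∏ ℓ, n ℓ := by
  apply maxOnes_le hP
  intro S hS _
  rw [← card_box]
  exact Finset.card_le_card hS

/-- the comparison value -/
noncomputable def cmpVal (e : Fin t → Fin d) (P : Mat d) (R : Mat t) (n : ℕ) : ℝ :=
  (n : ℝ) * (1 - ∏ ℓ ∈ outside e, (1 - ((P.size ℓ : ℝ) - 1) / n)) +
    (∏ ℓ ∈ outside e, (1 - ((P.size ℓ : ℝ) - 1) / n)) * ((m n R : ℝ) / (n : ℝ) ^ (t - 1))

lemma cmpVal_sub {e : Fin t → Fin d} (ht : 0 < t) (P : Mat d) {R : Mat t}
    (hR : R.ones.Nonempty) :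
    Tendsto (fun n : ℕ => cmpVal e P R n - (m n R : ℝ) / (n : ℝ) ^ (t - 1)) atTop
      (𝓝 (∑ ℓ ∈ outside e, ((P.size ℓ : ℝ) - 1))) := by
  obtain ⟨h1, h2⟩ := tendsto_frame_aux (outside e) (fun ℓ => ((P.size ℓ : ℝ) - 1))
  obtain ⟨C, hC⟩ := exists_bound ht hR
  have h3 : Tendsto (fun n : ℕ => (∏ ℓ ∈ outside e, (1 - ((P.size ℓ : ℝ) - 1) / n) - 1) *
      ((m n R : ℝ) / (n : ℝ) ^ (t - 1))) atTop (𝓝 0) := by
    have h4 : Tendsto (fun n : ℕ => ∏ ℓ ∈ outside e, (1 - ((P.size ℓ : ℝ) - 1) / n) - 1) atTop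
        (𝓝 0) := by
      have := h2.sub_const 1
      rw [sub_self] at this
      exact this
    apply squeeze_zero_norm' (a := fun n : ℕ =>
      ‖∏ ℓ ∈ outside e, (1 - ((P.size ℓ : ℝ) - 1) / n) - 1‖ * C) _
    · have := h4.norm.mul_const (C : ℝ)
      rw [norm_zero, zero_mul] at this
      exact this
    · filter_upwards [eventually_gt_atTop 0] with n hn
      rw [norm_mul]
      apply mul_le_mul_of_nonneg_left _ (norm_nonneg _)
      rw [Real.norm_of_nonneg (by positivity)]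
      have hn' : (0 : ℝ) < n := by exact_mod_cast hn
      rw [div_le_iff₀ (by positivity)]
      exact_mod_cast hC n
  have h5 := h1.add h3
  rw [add_zero] at h5
  refine h5.congr ?_
  intro n
  rw [cmpVal]
  ring

lemma cmpVal_eq {e : Fin t → Fin d} (ht : 0 < t) (he : Function.Injective e) {P : Mat d}
    {R : Mat t} (hR : R.ones.Nonempty) {n : ℕ} (hn : 0 < n)
    (hk : ∀ ℓ ∈ outside e, P.size ℓ ≤ n) :
    cmpVal e P R n * (n : ℝ) ^ (d - 1) =
      (n : ℝ) ^ d - (((∏ ℓ ∈ outside e, (n + 1 - P.size ℓ)) *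
        (∏ _i : Fin t, n - maxOnes (fun _ : Fin t => n) R) : ℕ) : ℝ) := by
  have hn' : (n : ℝ) ≠ 0 := by positivity
  have h1 : maxOnes (fun _ : Fin t => n) R ≤ ∏ _i : Fin t, n := maxOnes_le_prod hR
  rw [Nat.cast_mul, Nat.cast_sub h1]
  push_cast
  have hprod : ∏ ℓ ∈ outside e, (((n + 1 - P.size ℓ : ℕ)) : ℝ) =
      (n : ℝ) ^ (outside e).card * ∏ ℓ ∈ outside e, (1 - ((P.size ℓ : ℝ) - 1) / n) := by
    rw [← Finset.prod_const, ← Finset.prod_mul_distrib]
    apply Finset.prod_congr rfl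
    intro ℓ hℓ
    have h1 := hk ℓ hℓ
    rw [Nat.cast_sub (by omega)]
    push_cast
    field_simp
    ring
  rw [hprod, cmpVal]
  simp only [Finset.prod_const, Finset.card_univ, Fintype.card_fin]
  have hc := card_outside he
  set s := (outside e).card
  set W := ∏ ℓ ∈ outside e, (1 - ((P.size ℓ : ℝ) - 1) / n)
  have hm : (maxOnes (fun _ : Fin t => n) R : ℝ) = (m n R : ℝ) := rfl
  rw [hm]
  obtain ⟨u, rfl⟩ : ∃ u, t = u + 1 := ⟨t - 1, by omega⟩
  have hd : d = s + u + 1 := by omega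
  have hd1 : d - 1 = s + u := by omega
  rw [hd1, hd]
  simp only [Nat.add_sub_cancel]
  field_simp
  ring

lemma eventually_size_le (P : Mat d) : ∀ᶠ n : ℕ in atTop, ∀ ℓ, P.size ℓ ≤ n := by
  filter_upwards [eventually_ge_atTop (∑ ℓ, P.size ℓ)] with n hn ℓ
  exact (Finset.single_le_sum (f := P.size) (fun _ _ => Nat.zero_le _)
    (Finset.mem_univ ℓ)).trans hn

theorem reduce_le {e : Fin t → Fin d} (ht : 0 < t) (he : Function.Injective e) {P : Mat d}
    {R : Mat t} (hP : P.ones.Nonempty) (hsize : ∀ i, R.size i = P.size (e i))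
    (hones : R.ones = P.ones.image (fun p i => p (e i)))
    (h3 : ∀ ℓ ∈ outside e, (P.ones.image (fun x => x ℓ)).card ≤ 3) :
    ∀ᶠ n : ℕ in atTop, (m n P : ℝ) / (n : ℝ) ^ (d - 1) ≤ cmpVal e P R n := by
  have hR : R.ones.Nonempty := by
    rw [hones]
    exact hP.image _
  filter_upwards [eventually_gt_atTop 0, eventually_size_le P] with n hn hk
  have hn' : (0 : ℝ) < n := by exact_mod_cast hn
  have h1 := maxOnes_upperT he hP hsize hones h3 (fun _ => n)
  have h2 := cmpVal_eq ht he hR hn (fun ℓ _ => hk ℓ)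
  rw [div_le_iff₀ (by positivity), h2]
  have h4 : ∏ _ℓ : Fin d, n = n ^ d := by simp
  rw [h4] at h1
  have h5 : ((maxOnes (fun _ : Fin d => n) P : ℕ) : ℝ) +
      (((∏ ℓ ∈ outside e, (n + 1 - P.size ℓ)) *
        (∏ _i : Fin t, n - maxOnes (fun _ : Fin t => n) R) : ℕ) : ℝ) ≤ (n : ℝ) ^ d := by
    exact_mod_cast h1
  have hm : (maxOnes (fun _ : Fin d => n) P : ℝ) = (m n P : ℝ) := rfl
  rw [hm] at h5
  linarith

theorem le_reduce {e : Fin t → Fin d} (ht : 0 < t) (he : Function.Injective e) {P : Mat d}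
    {R : Mat t} (hP : P.ones.Nonempty) (hR : R.ones.Nonempty)
    (hsize : ∀ i, R.size i = P.size (e i)) {c : Fin d → ℕ}
    (hcore : ∀ r ∈ R.ones, ∃ q ∈ P.ones, (∀ i, q (e i) = r i) ∧
      ∀ ℓ ∈ outside e, q ℓ = c ℓ) :
    ∀ᶠ n : ℕ in atTop, cmpVal e P R n ≤ (m n P : ℝ) / (n : ℝ) ^ (d - 1) := by
  filter_upwards [eventually_gt_atTop 0, eventually_size_le P] with n hn hk
  have hn' : (0 : ℝ) < n := by exact_mod_cast hn
  have h1 := maxOnes_lowerT he hP hR hsize hcore (fun _ => n)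
  have h2 := cmpVal_eq ht he hR hn (fun ℓ _ => hk ℓ)
  rw [le_div_iff₀ (by positivity), h2]
  have h4 : ∏ _ℓ : Fin d, n = n ^ d := by simp
  rw [h4] at h1
  have h5 : (n : ℝ) ^ d ≤ ((maxOnes (fun _ : Fin d => n) P : ℕ) : ℝ) +
      (((∏ ℓ ∈ outside e, (n + 1 - P.size ℓ)) *
        (∏ _i : Fin t, n - maxOnes (fun _ : Fin t => n) R) : ℕ) : ℝ) := by
    exact_mod_cast h1
  have hm : (maxOnes (fun _ : Fin d => n) P : ℝ) = (m n P : ℝ) := rfl
  rw [hm] at h5
  linarith

/-- the reduction: the difference of the normalised functions converges -/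
theorem reduce_tendsto {e : Fin t → Fin d} (ht : 0 < t) (he : Function.Injective e) {P : Mat d}
    {R : Mat t} (hP : P.ones.Nonempty) (hsize : ∀ i, R.size i = P.size (e i))
    (hones : R.ones = P.ones.image (fun p i => p (e i)))
    (h3 : ∀ ℓ ∈ outside e, (P.ones.image (fun x => x ℓ)).card ≤ 3) {c : Fin d → ℕ}
    (hcore : ∀ p ∈ P.ones, ∃ q ∈ P.ones, (∀ i, q (e i) = p (e i)) ∧
      ∀ ℓ ∈ outside e, q ℓ = c ℓ) :
    Tendsto (fun n : ℕ => (m n P : ℝ) / (n : ℝ) ^ (d - 1) - (m n R : ℝ) / (n : ℝ) ^ (t - 1))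
      atTop (𝓝 (∑ ℓ ∈ outside e, ((P.size ℓ : ℝ) - 1))) := by
  have hR : R.ones.Nonempty := by
    rw [hones]
    exact hP.image _
  have hcore' : ∀ r ∈ R.ones, ∃ q ∈ P.ones, (∀ i, q (e i) = r i) ∧
      ∀ ℓ ∈ outside e, q ℓ = c ℓ := by
    intro r hr
    rw [hones, Finset.mem_image] at hr
    obtain ⟨p, hp, rfl⟩ := hr
    exact hcore p hp
  refine (cmpVal_sub ht P hR).congr' ?_
  filter_upwards [reduce_le ht he hP hsize hones h3, le_reduce ht he hP hR hsize hcore']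
    with n h1 h2
  have : cmpVal e P R n = (m n P : ℝ) / (n : ℝ) ^ (d - 1) := le_antisymm h2 h1
  rw [this]

/-- `R` is the projection of `P` to the directions in the image of the injective map `e`; in every
other direction `P` has at most three nonzero cross sections, and for some position `c` every one
of `P` can be moved to `c` outside the image of `e` and stays a one. -/
structure Reduction (e : Fin t → Fin d) (P : Mat d) (R : Mat t) : Prop where
  inj : Function.Injective e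
  size_eq : ∀ i, R.size i = P.size (e i)
  ones_eq : R.ones = P.ones.image (fun p i => p (e i))
  levels : ∀ ℓ ∈ outside e, (P.ones.image (fun x => x ℓ)).card ≤ 3
  core : ∃ c : Fin d → ℕ, ∀ p ∈ P.ones, ∃ q ∈ P.ones, (∀ i, q (e i) = p (e i)) ∧
    ∀ ℓ ∈ outside e, q ℓ = c ℓ

/-- the exact form of the reduction -/
theorem reduce_exact {e : Fin t → Fin d} (he : Function.Injective e) {P : Mat d}
    {R : Mat t} (hP : P.ones.Nonempty) (hsize : ∀ i, R.size i = P.size (e i))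
    (hones : R.ones = P.ones.image (fun p i => p (e i)))
    (h3 : ∀ ℓ ∈ outside e, (P.ones.image (fun x => x ℓ)).card ≤ 3) {c : Fin d → ℕ}
    (hcore : ∀ p ∈ P.ones, ∃ q ∈ P.ones, (∀ i, q (e i) = p (e i)) ∧
      ∀ ℓ ∈ outside e, q ℓ = c ℓ) (n : Fin d → ℕ) :
    maxOnes n P + (∏ ℓ ∈ outside e, (n ℓ + 1 - P.size ℓ)) *
      (∏ i, n (e i) - maxOnes (fun i => n (e i)) R) = ∏ ℓ, n ℓ := by
  have hR : R.ones.Nonempty := by
    rw [hones]
    exact hP.image _
  have hcore' : ∀ r ∈ R.ones, ∃ q ∈ P.ones, (∀ i, q (e i) = r i) ∧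
      ∀ ℓ ∈ outside e, q ℓ = c ℓ := by
    intro r hr
    rw [hones, Finset.mem_image] at hr
    obtain ⟨p, hp, rfl⟩ := hr
    exact hcore p hp
  exact le_antisymm (maxOnes_upperT he hP hsize hones h3 n) (maxOnes_lowerT he hP hR hsize hcore' n)

/-- patterns with star-shaped projection -/
theorem reduce_star {e : Fin t → Fin d} (ht : 0 < t) (he : Function.Injective e) {P : Mat d}
    (hP : P.ones.Nonempty)
    (h3 : ∀ ℓ ∈ outside e, (P.ones.image (fun x => x ℓ)).card ≤ 3) {c : Fin t → ℕ}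
    (hc : ∀ i, c i < P.size (e i))
    (hstar : ∀ p ∈ P.ones, ∃ i, ∀ j, j ≠ i → p (e j) = c j) :
    Tendsto (fun n : ℕ => (m n P : ℝ) / (n : ℝ) ^ (d - 1)) atTop
      (𝓝 (∑ ℓ, ((P.size ℓ : ℝ) - 1))) := by
  classical
  have hd : 0 < d := lt_of_le_of_lt (Nat.zero_le _) (e ⟨0, ht⟩).2
  set R : Mat t := ⟨fun i => P.size (e i), P.ones.image (fun p i => p (e i)), by
    intro x hx i
    obtain ⟨p, hp, rfl⟩ := Finset.mem_image.1 hx
    exact P.inBox p hp (e i)⟩ with hRdef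
  have hR : R.ones.Nonempty := hP.image _
  have hRlim : Tendsto (fun n : ℕ => (m n R : ℝ) / (n : ℝ) ^ (t - 1)) atTop
      (𝓝 (∑ i, ((R.size i : ℝ) - 1))) := by
    apply star_tendsto ht hR (c := c) hc
    intro r hr
    obtain ⟨p, hp, rfl⟩ := Finset.mem_image.1 hr
    exact hstar p hp
  have hcmp : Tendsto (fun n : ℕ => cmpVal e P R n) atTop (𝓝 (∑ ℓ, ((P.size ℓ : ℝ) - 1))) := by
    have h := (cmpVal_sub (e := e) ht P hR).add hRlim
    have hsum : ∑ ℓ ∈ outside e, ((P.size ℓ : ℝ) - 1) + ∑ i, ((R.size i : ℝ) - 1) =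
        ∑ ℓ, ((P.size ℓ : ℝ) - 1) := by
      rw [← Finset.sum_filter_add_sum_filter_not Finset.univ (fun ℓ => ∀ i, e i ≠ ℓ)
        (fun ℓ => ((P.size ℓ : ℝ) - 1))]
      congr 1
      have : Finset.univ.filter (fun ℓ => ¬ ∀ i, e i ≠ ℓ) = Finset.univ.image e := by
        ext ℓ
        simp
      rw [this, Finset.sum_image (fun i _ j _ h => he h)]
    rw [hsum] at h
    refine h.congr ?_
    intro n
    ring
  refine tendsto_of_tendsto_of_tendsto_of_le_of_le'
    (tendsto_frame hd P.size (Mat.size_pos hP)) hcmp ?_ ?_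
  · filter_upwards with n
    apply div_le_div_of_nonneg_right _ (by positivity)
    exact_mod_cast frame_le (n := fun _ => n) hP
  · exact reduce_le (R := R) ht he hP (fun _ => rfl) rfl h3

end

end Pool.Agent.Helper450IM
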