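import Pool.Agent.helper450_im.Frame

/-!
# Star-shaped patterns

All ones of `P` differ from a fixed position `c` in at most one coordinate.
-/

namespace Pool.Agent.Helper450IM

open Finset Filter Topology

section

variable {d : ℕ}

/-- the coordinates of the elements of `S` on the `ℓ`-line through `s` -/
def lineX (S : Finset (Fin d → ℕ)) (ℓ : Fin d) (s : Fin d → ℕ) : Finset ℕ :=
  (S.filter (fun t => ∀ j, j ≠ ℓ → t j = s j)).image (fun t => t ℓ)

lemma mem_lineX {S : Finset (Fin d → ℕ)} {ℓ : Fin d} {s : Fin d → ℕ} {x : ℕ} :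
    x ∈ lineX S ℓ s ↔ Function.update s ℓ x ∈ S := by
  classical
  rw [lineX, Finset.mem_image]
  constructor
  · rintro ⟨t, ht, rfl⟩
    rw [Finset.mem_filter] at ht
    have : Function.update s ℓ (t ℓ) = t := by
      funext j
      by_cases hj : j = ℓ
      · subst hj; simp
      · rw [Function.update_of_ne hj, ht.2 j hj]
    rw [this]
    exact ht.1
  · intro h
    refine ⟨_, Finset.mem_filter.2 ⟨h, fun j hj => Function.update_of_ne hj _ _⟩, ?_⟩
    exact Function.update_self _ _ _

lemma lineX_update (S : Finset (Fin d → ℕ)) (ℓ : Fin d) (s : Fin d → ℕ) (x : ℕ) :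
    lineX S ℓ (Function.update s ℓ x) = lineX S ℓ s := by
  ext y
  rw [mem_lineX, mem_lineX, Function.update_idem]

/-- number of elements below `s` on its `ℓ`-line -/
def lowC (S : Finset (Fin d → ℕ)) (ℓ : Fin d) (s : Fin d → ℕ) : ℕ :=
  ((lineX S ℓ s).filter (fun x => x < s ℓ)).card

/-- number of elements above `s` on its `ℓ`-line -/
def highC (S : Finset (Fin d → ℕ)) (ℓ : Fin d) (s : Fin d → ℕ) : ℕ :=
  ((lineX S ℓ s).filter (fun x => s ℓ < x)).card

lemma eq_of_line {ℓ : Fin d} {s s' : Fin d → ℕ} (h : ∀ j, j ≠ ℓ → s j = s' j) (h' : s ℓ = s' ℓ) :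
    s = s' := by
  funext j
  by_cases hj : j = ℓ
  · rw [hj]; exact h'
  · exact h j hj

lemma lineX_congr (S : Finset (Fin d → ℕ)) {ℓ : Fin d} {s s' : Fin d → ℕ}
    (h : ∀ j, j ≠ ℓ → s j = s' j) : lineX S ℓ s = lineX S ℓ s' := by
  have : s = Function.update s' ℓ (s ℓ) := by
    funext j
    by_cases hj : j = ℓ
    · subst hj; simp
    · rw [Function.update_of_ne hj, h j hj]
  rw [this, lineX_update]

lemma card_low {n : Fin d → ℕ} {S : Finset (Fin d → ℕ)} (hS : S ⊆ box n) (ℓ : Fin d) (a : ℕ) :
    (S.filter (fun s => lowC S ℓ s < a)).card ≤ ∏ j, Function.update n ℓ a j := by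
  classical
  rw [← card_box]
  apply Finset.card_le_card_of_injOn (fun s => Function.update s ℓ (lowC S ℓ s))
  · intro s hs
    rw [Finset.mem_coe, Finset.mem_filter] at hs
    rw [Finset.mem_coe, mem_box]
    intro j
    by_cases hj : j = ℓ
    · subst hj
      simp only [Function.update_self]
      exact hs.2
    · simp only [Function.update_of_ne hj]
      exact mem_box.1 (hS hs.1) j
  · intro s hs s' hs' hss
    rw [Finset.mem_coe, Finset.mem_filter] at hs hs'
    have hne : ∀ j, j ≠ ℓ → s j = s' j := by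
      intro j hj
      have := congrFun hss j
      simpa [Function.update_of_ne hj] using this
    have hlow : lowC S ℓ s = lowC S ℓ s' := by
      have := congrFun hss ℓ
      simpa using this
    have hX := lineX_congr S hne
    apply eq_of_line hne
    by_contra hcon
    -- strict monotonicity on the line
    have key : ∀ u v : Fin d → ℕ, u ∈ S → lineX S ℓ u = lineX S ℓ v → u ℓ < v ℓ →
        lowC S ℓ u < lowC S ℓ v := by
      intro u v hu huv hlt
      unfold lowC
      rw [← huv]
      apply Finset.card_lt_card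
      rw [Finset.ssubset_iff_of_subset]
      · refine ⟨u ℓ, ?_, ?_⟩
        · rw [Finset.mem_filter, mem_lineX, Function.update_eq_self]
          exact ⟨hu, hlt⟩
        · rw [Finset.mem_filter]
          intro h
          exact lt_irrefl _ h.2
      · intro x hx
        rw [Finset.mem_filter] at hx ⊢
        exact ⟨hx.1, lt_trans hx.2 hlt⟩
    rcases lt_or_gt_of_ne hcon with h | h
    · have := key s s' hs.1 hX h
      omega
    · have := key s' s hs'.1 hX.symm h
      omega

lemma card_high {n : Fin d → ℕ} {S : Finset (Fin d → ℕ)} (hS : S ⊆ box n) (ℓ : Fin d) (a : ℕ) :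
    (S.filter (fun s => highC S ℓ s < a)).card ≤ ∏ j, Function.update n ℓ a j := by
  classical
  rw [← card_box]
  apply Finset.card_le_card_of_injOn (fun s => Function.update s ℓ (highC S ℓ s))
  · intro s hs
    rw [Finset.mem_coe, Finset.mem_filter] at hs
    rw [Finset.mem_coe, mem_box]
    intro j
    by_cases hj : j = ℓ
    · subst hj
      simp only [Function.update_self]
      exact hs.2
    · simp only [Function.update_of_ne hj]
      exact mem_box.1 (hS hs.1) j
  · intro s hs s' hs' hss
    rw [Finset.mem_coe, Finset.mem_filter] at hs hs'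
    have hne : ∀ j, j ≠ ℓ → s j = s' j := by
      intro j hj
      have := congrFun hss j
      simpa [Function.update_of_ne hj] using this
    have hhigh : highC S ℓ s = highC S ℓ s' := by
      have := congrFun hss ℓ
      simpa using this
    have hX := lineX_congr S hne
    apply eq_of_line hne
    by_contra hcon
    have key : ∀ u v : Fin d → ℕ, v ∈ S → lineX S ℓ u = lineX S ℓ v → u ℓ < v ℓ →
        highC S ℓ v < highC S ℓ u := by
      intro u v hv huv hlt
      unfold highC
      rw [huv]
      apply Finset.card_lt_card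
      rw [Finset.ssubset_iff_of_subset]
      · refine ⟨v ℓ, ?_, ?_⟩
        · rw [Finset.mem_filter, mem_lineX, Function.update_eq_self]
          exact ⟨hv, hlt⟩
        · rw [Finset.mem_filter]
          intro h
          exact lt_irrefl _ h.2
      · intro x hx
        rw [Finset.mem_filter] at hx ⊢
        exact ⟨hx.1, lt_trans hlt hx.2⟩
    rcases lt_or_gt_of_ne hcon with h | h
    · have := key s s' hs'.1 hX h
      omega
    · have := key s' s hs.1 hX.symm h
      omega

/-- an element with enough elements on both sides on all its lines -/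
lemma star_emb {n k c : Fin d → ℕ} {S P : Finset (Fin d → ℕ)} (hS : S ⊆ box n) (hP : P ⊆ box k)
    (hc : ∀ ℓ, c ℓ < k ℓ) (hstar : ∀ p ∈ P, ∃ ℓ, ∀ j, j ≠ ℓ → p j = c j) {s : Fin d → ℕ}
    (hs : s ∈ S) (hlow : ∀ ℓ, c ℓ ≤ lowC S ℓ s) (hhigh : ∀ ℓ, k ℓ - 1 - c ℓ ≤ highC S ℓ s) :
    Emb n k S P := by
  classical
  -- the number of elements of the line
  have hcard : ∀ ℓ, lowC S ℓ s + highC S ℓ s + 1 = (lineX S ℓ s).card := by
    intro ℓ
    have h1 : s ℓ ∈ lineX S ℓ s := by
      rw [mem_lineX, Function.update_eq_self]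
      exact hs
    have h2 : lineX S ℓ s = (lineX S ℓ s).filter (fun x => x < s ℓ) ∪
        (lineX S ℓ s).filter (fun x => s ℓ < x) ∪ {s ℓ} := by
      ext x
      simp only [Finset.mem_union, Finset.mem_filter, Finset.mem_singleton]
      constructor
      · intro hx
        rcases lt_trichotomy x (s ℓ) with h | h | h
        · exact Or.inl (Or.inl ⟨hx, h⟩)
        · exact Or.inr h
        · exact Or.inl (Or.inr ⟨hx, h⟩)
      · rintro ((h | h) | h)
        · exact h.1
        · exact h.1
        · rw [h]; exact h1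
    have h3 : Disjoint ((lineX S ℓ s).filter (fun x => x < s ℓ))
        ((lineX S ℓ s).filter (fun x => s ℓ < x)) := by
      rw [Finset.disjoint_left]
      intro x hx hx'
      have := (Finset.mem_filter.1 hx).2
      have := (Finset.mem_filter.1 hx').2
      omega
    have h4 : Disjoint ((lineX S ℓ s).filter (fun x => x < s ℓ) ∪
        (lineX S ℓ s).filter (fun x => s ℓ < x)) {s ℓ} := by
      rw [Finset.disjoint_singleton_right, Finset.mem_union, Finset.mem_filter, Finset.mem_filter]
      rintro (h | h)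
      · exact lt_irrefl _ h.2
      · exact lt_irrefl _ h.2
    conv_rhs => rw [h2]
    rw [Finset.card_union_of_disjoint h4, Finset.card_union_of_disjoint h3,
      Finset.card_singleton]
    rfl
  have hcnt : ∀ ℓ, Nat.count (fun x => x ∈ lineX S ℓ s) (s ℓ) = lowC S ℓ s := by
    intro ℓ
    rw [Nat.count_eq_card_filter_range, lowC]
    congr 1
    ext x
    simp only [Finset.mem_filter, Finset.mem_range]
    tauto
  set φ : Fin d → ℕ → ℕ := fun ℓ i =>
    min (k ℓ - 1) (Nat.count (fun x => x ∈ lineX S ℓ s) i - (lowC S ℓ s - c ℓ)) with hφ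
  have hattain : ∀ ℓ j, j < k ℓ → ∃ x ∈ lineX S ℓ s, φ ℓ x = j := by
    intro ℓ j hj
    have h1 := hcard ℓ
    have h2 := hlow ℓ
    have h3 := hhigh ℓ
    have h4 := hc ℓ
    have h5 : j + (lowC S ℓ s - c ℓ) < (lineX S ℓ s).card := by omega
    refine ⟨Nat.nth (fun x => x ∈ lineX S ℓ s) (j + (lowC S ℓ s - c ℓ)), ?_, ?_⟩
    · apply Nat.nth_mem
      intro hf
      have : hf.toFinset.card = (lineX S ℓ s).card := by
        congr 1
        ext x
        simp
      omega
    · have h6 : Nat.count (fun x => x ∈ lineX S ℓ s)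
          (Nat.nth (fun x => x ∈ lineX S ℓ s) (j + (lowC S ℓ s - c ℓ))) =
          j + (lowC S ℓ s - c ℓ) := by
        apply Nat.count_nth
        intro hf
        have : hf.toFinset.card = (lineX S ℓ s).card := by
          congr 1
          ext x
          simp
        omega
      rw [hφ]
      show min (k ℓ - 1) (Nat.count (fun x => x ∈ lineX S ℓ s)
        (Nat.nth (fun x => x ∈ lineX S ℓ s) (j + (lowC S ℓ s - c ℓ))) - (lowC S ℓ s - c ℓ)) = j
      rw [h6]
      omega
  have hφs : ∀ ℓ, φ ℓ (s ℓ) = c ℓ := by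
    intro ℓ
    have h2 := hlow ℓ
    have h4 := hc ℓ
    rw [hφ]
    show min (k ℓ - 1) (Nat.count (fun x => x ∈ lineX S ℓ s) (s ℓ) - (lowC S ℓ s - c ℓ)) = c ℓ
    rw [hcnt]
    omega
  refine ⟨φ, ?_, ?_⟩
  · intro ℓ
    refine ⟨?_, ?_, ?_⟩
    · intro i j hij
      have : Nat.count (fun x => x ∈ lineX S ℓ s) i ≤ Nat.count (fun x => x ∈ lineX S ℓ s) j :=
        Nat.count_monotone _ hij
      show min _ _ ≤ min _ _
      omega
    · intro i _
      have := hc ℓ
      show min _ _ < _
      omega
    · intro j hj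
      obtain ⟨x, hx, hx'⟩ := hattain ℓ j hj
      refine ⟨x, ?_, hx'⟩
      rw [mem_lineX] at hx
      have := mem_box.1 (hS hx) ℓ
      rwa [Function.update_self] at this
  · intro p hp
    obtain ⟨ℓ, hℓ⟩ := hstar p hp
    obtain ⟨x, hx, hx'⟩ := hattain ℓ (p ℓ) (mem_box.1 (hP hp) ℓ)
    refine ⟨_, mem_lineX.1 hx, ?_⟩
    intro j
    by_cases hj : j = ℓ
    · subst hj
      rw [Function.update_self, hx']
    · rw [Function.update_of_ne hj, hφs, hℓ j hj]

/-- The upper bound for star-shaped patterns. -/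
theorem star_upper {n : Fin d → ℕ} {P : Mat d} (hP : P.ones.Nonempty) {c : Fin d → ℕ}
    (hc : ∀ ℓ, c ℓ < P.size ℓ) (hstar : ∀ p ∈ P.ones, ∃ ℓ, ∀ j, j ≠ ℓ → p j = c j) :
    maxOnes n P ≤ ∑ ℓ, ∏ j, Function.update n ℓ (P.size ℓ - 1) j := by
  classical
  apply maxOnes_le hP
  intro S hS hE
  have hcover : S ⊆ (Finset.univ : Finset (Fin d)).biUnion (fun ℓ =>
      S.filter (fun s => lowC S ℓ s < c ℓ) ∪
        S.filter (fun s => highC S ℓ s < P.size ℓ - 1 - c ℓ)) := by
    intro s hs
    by_contra hcon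
    apply hE
    simp only [Finset.mem_biUnion, Finset.mem_univ, true_and, Finset.mem_union, Finset.mem_filter,
      not_exists, not_or, not_and, not_lt] at hcon
    exact star_emb hS P.ones_subset hc hstar hs (fun ℓ => (hcon ℓ).1 hs) (fun ℓ => (hcon ℓ).2 hs)
  refine (Finset.card_le_card hcover).trans (Finset.card_biUnion_le.trans ?_)
  apply Finset.sum_le_sum
  intro ℓ _
  have h1 := card_low hS ℓ (c ℓ)
  have h2 := card_high hS ℓ (P.size ℓ - 1 - c ℓ)
  refine (Finset.card_union_le _ _).trans ((Nat.add_le_add h1 h2).trans ?_)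
  rw [Finset.prod_update_of_mem (Finset.mem_univ ℓ), Finset.prod_update_of_mem (Finset.mem_univ ℓ),
    Finset.prod_update_of_mem (Finset.mem_univ ℓ), ← Nat.add_mul]
  apply Nat.mul_le_mul_right
  have := hc ℓ
  omega

/-- The limit for star-shaped patterns. -/
theorem star_tendsto {P : Mat d} (hd : 0 < d) (hP : P.ones.Nonempty) {c : Fin d → ℕ}
    (hc : ∀ ℓ, c ℓ < P.size ℓ) (hstar : ∀ p ∈ P.ones, ∃ ℓ, ∀ j, j ≠ ℓ → p j = c j) :
    Tendsto (fun n : ℕ => (m n P : ℝ) / (n : ℝ) ^ (d - 1)) atTop
      (𝓝 (∑ ℓ, ((P.size ℓ : ℝ) - 1))) := by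
  refine tendsto_of_tendsto_of_tendsto_of_le_of_le'
    (tendsto_frame hd P.size (Mat.size_pos hP)) tendsto_const_nhds ?_ ?_
  · filter_upwards with n
    apply div_le_div_of_nonneg_right _ (by positivity)
    exact_mod_cast frame_le (n := fun _ => n) hP
  · filter_upwards [eventually_gt_atTop 0] with n hn
    have hn' : (0 : ℝ) < n := by exact_mod_cast hn
    rw [div_le_iff₀ (by positivity)]
    have h1 := star_upper (n := fun _ => n) hP hc hstar
    have h2 : ((m n P : ℕ) : ℝ) ≤
        ((∑ ℓ, ∏ j, Function.update (fun _ : Fin d => n) ℓ (P.size ℓ - 1) j : ℕ) : ℝ) := by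
      exact_mod_cast h1
    refine h2.trans (le_of_eq ?_)
    rw [Nat.cast_sum, Finset.sum_mul]
    apply Finset.sum_congr rfl
    intro ℓ _
    have h3 := Mat.size_pos hP ℓ
    rw [Finset.prod_update_of_mem (Finset.mem_univ ℓ), Finset.prod_const,
      Finset.sdiff_singleton_eq_erase, Finset.card_erase_of_mem (Finset.mem_univ ℓ),
      Finset.card_univ, Fintype.card_fin]
    push_cast [Nat.cast_sub h3]
    ring

end

end Pool.Agent.Helper450IM
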