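import Pool.Agent.helper450_im.Trim
import Pool.Agent.helper450_im.Star

/-!
# The rigidity criterion for arbitrary nonzero patterns, and a class of rigid patterns
-/

namespace Pool.Agent.Helper450IM

open Finset Filter Topology

section

variable {d : ℕ}

lemma rigid_of_shift {a : Fin d → ℕ} {P B : Finset (Fin d → ℕ)} (h : Rigid (shift a P) B) :
    Rigid P B := by
  intro f hf hmono
  have key := h (fun x => f (fun ℓ => x ℓ - a ℓ)) ?_ ?_
  · intro p hp q hq
    have h1 := key _ (Finset.mem_image_of_mem _ hp) _ (Finset.mem_image_of_mem _ hq)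
    have e1 : (fun ℓ => (fun ℓ => p ℓ + a ℓ) ℓ - a ℓ) = p := by
      funext ℓ
      show p ℓ + a ℓ - a ℓ = p ℓ
      omega
    have e2 : (fun ℓ => (fun ℓ => q ℓ + a ℓ) ℓ - a ℓ) = q := by
      funext ℓ
      show q ℓ + a ℓ - a ℓ = q ℓ
      omega
    rw [e1, e2] at h1
    exact h1
  · intro p hp
    obtain ⟨x, hx, rfl⟩ := Finset.mem_image.1 hp
    have e1 : (fun ℓ => (fun ℓ => x ℓ + a ℓ) ℓ - a ℓ) = x := by
      funext ℓ
      show x ℓ + a ℓ - a ℓ = x ℓ
      omega
    rw [e1]
    exact hf x hx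
  · intro p hp q hq ℓ hlt
    obtain ⟨x, hx, rfl⟩ := Finset.mem_image.1 hp
    obtain ⟨y, hy, rfl⟩ := Finset.mem_image.1 hq
    have e1 : (fun ℓ => (fun ℓ => x ℓ + a ℓ) ℓ - a ℓ) = x := by
      funext ℓ
      show x ℓ + a ℓ - a ℓ = x ℓ
      omega
    have e2 : (fun ℓ => (fun ℓ => y ℓ + a ℓ) ℓ - a ℓ) = y := by
      funext ℓ
      show y ℓ + a ℓ - a ℓ = y ℓ
      omega
    rw [e1, e2]
    apply hmono x hx y hy
    simp only at hlt
    omega

lemma Rigid.mono_right {P B B' : Finset (Fin d → ℕ)} (h : Rigid P B) (hB : B' ⊆ B) :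
    Rigid P B' :=
  fun f hf hm => h f (fun p hp => hB (hf p hp)) hm

/-- The rigidity criterion for arbitrary nonzero patterns. -/
theorem conv_of_rigid (hd : 0 < d) {P : Mat d} (hP : P.ones.Nonempty) {r s : ℕ} (hr : 2 ≤ r)
    (hs : 2 ≤ s) (hind : ∀ a b : ℕ, 0 < a → r ^ a ≠ s ^ b) {B C : Finset (Fin d → ℕ)}
    (hB : B ⊆ box (fun _ => r)) (hBc : r ^ (d - 1) ≤ B.card) (hBr : Rigid P.ones B)
    (hC : C ⊆ box (fun _ => s)) (hCc : s ^ (d - 1) ≤ C.card) (hCr : Rigid P.ones C) : Conv P := by
  obtain ⟨B', hB', hBc'⟩ := Finset.exists_subset_card_eq hBc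
  obtain ⟨C', hC', hCc'⟩ := Finset.exists_subset_card_eq hCc
  obtain ⟨a, b, P₀, h0, hspan, hsize, hones⟩ := exists_trim hP
  have hPeq : P = pad a b P₀ := by
    cases P
    simp only at hsize hones
    subst hsize
    subst hones
    rfl
  have hB0 : Rigid P₀.ones B' := by
    apply rigid_of_shift (a := a)
    have : P.ones = shift a P₀.ones := hones
    rw [← this]
    exact hBr.mono_right hB'
  have hC0 : Rigid P₀.ones C' := by
    apply rigid_of_shift (a := a)
    have : P.ones = shift a P₀.ones := hones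
    rw [← this]
    exact hCr.mono_right hC'
  rw [hPeq]
  exact converges_pad hd h0 hspan (tendsto_of_rigid_spans hd h0 hspan hr hs hind
    (hB'.trans hB) hBc' hB0 (hC'.trans hC) hCc' hC0)

/-- A coordinate of `x` is extreme if it is the first or the last one of the box `k`. -/
def Extreme (k : Fin d → ℕ) (x : Fin d → ℕ) (ℓ : Fin d) : Prop := x ℓ = 0 ∨ x ℓ + 1 = k ℓ

/-- For every direction `ℓ` and all sets `T j` of at most two indices, some line in direction `ℓ`
whose other coordinates are neither extreme nor in `T j` has both of its end positions in `P`. -/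
def Rich (k : Fin d → ℕ) (P : Finset (Fin d → ℕ)) : Prop :=
  ∀ (ℓ : Fin d) (T : Fin d → Finset ℕ), (∀ j, (T j).card ≤ 2) →
    ∃ y : Fin d → ℕ, (∀ j, j ≠ ℓ → ¬ Extreme k y j ∧ y j ∉ T j) ∧
      Function.update y ℓ 0 ∈ P ∧ Function.update y ℓ (k ℓ - 1) ∈ P

/-- the levels in direction `ℓ` on which `f` takes several values in coordinate `ℓ` -/
lemma mixed_card {k : Fin d → ℕ} {s : ℕ} (hs : s ≤ 3) {P : Finset (Fin d → ℕ)}
    {f : (Fin d → ℕ) → (Fin d → ℕ)} (hf : ∀ p ∈ P, ∀ ℓ, f p ℓ < s)
    (hmono : ∀ p ∈ P, ∀ q ∈ P, ∀ ℓ, p ℓ < q ℓ → f p ℓ ≤ f q ℓ) (ℓ : Fin d) :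
    ∃ T : Finset ℕ, T.card ≤ 2 ∧ ∀ t, t < k ℓ → t ∉ T →
      ∀ p ∈ P, ∀ q ∈ P, p ℓ = t → q ℓ = t → f p ℓ = f q ℓ := by
  classical
  set T := (Finset.range (k ℓ)).filter
    (fun t => ∃ p ∈ P, ∃ q ∈ P, p ℓ = t ∧ q ℓ = t ∧ f p ℓ < f q ℓ) with hT
  refine ⟨T, ?_, ?_⟩
  · set g : ℕ → ℕ := fun t => (P.filter (fun p => p ℓ = t)).sup (fun p => f p ℓ) with hg
    have hle : ∀ t, ∀ p ∈ P, p ℓ = t → f p ℓ ≤ g t := by
      intro t p hp hpt
      exact Finset.le_sup (f := fun p => f p ℓ) (Finset.mem_filter.2 ⟨hp, hpt⟩)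
    have hlt : ∀ t ∈ T, ∀ t' ∈ T, t < t' → g t < g t' := by
      intro t _ t' ht' htt'
      obtain ⟨_, p, hp, q, hq, hpt, hqt, hpq⟩ := by
        rw [hT, Finset.mem_filter] at ht'
        exact ht'
      have h1 : g t ≤ f p ℓ := by
        apply Finset.sup_le
        intro u hu
        rw [Finset.mem_filter] at hu
        exact hmono u hu.1 p hp ℓ (by omega)
      have h2 := hle t' q hq hqt
      omega
    have hpos : ∀ t ∈ T, 1 ≤ g t ∧ g t < s := by
      intro t ht
      obtain ⟨_, p, hp, q, hq, hpt, hqt, hpq⟩ := by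
        rw [hT, Finset.mem_filter] at ht
        exact ht
      have h2 := hle t q hq hqt
      refine ⟨by omega, ?_⟩
      have h3 : 0 < s := by have := hf p hp ℓ; omega
      rw [hg]
      simp only
      rw [Finset.sup_lt_iff (by simpa using h3)]
      intro u hu
      rw [Finset.mem_filter] at hu
      exact hf u hu.1 ℓ
    have h4 : T.card ≤ (Finset.Ico 1 s).card := by
      apply Finset.card_le_card_of_injOn g
      · intro t ht
        have := hpos t ht
        rw [Finset.mem_coe, Finset.mem_Ico]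
        exact this
      · intro t ht t' ht' heq
        by_contra hne
        rcases lt_or_gt_of_ne hne with h | h
        · have := hlt t ht t' ht' h
          omega
        · have := hlt t' ht' t ht h
          omega
    rw [Nat.card_Ico] at h4
    omega
  · intro t ht htT p hp q hq hpt hqt
    rw [hT, Finset.mem_filter] at htT
    push Not at htT
    have h1 := htT (Finset.mem_range.2 ht)
    have h2 := h1 p hp q hq hpt hqt
    have h3 := h1 q hq p hp hqt hpt
    omega

/-- Rich patterns in which no one has two extreme coordinates are rigid with respect to Latin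
hypercubes of order at most three. -/
theorem rigid_of_rich {k : Fin d → ℕ} {P : Finset (Fin d → ℕ)} (hP : P ⊆ box k)
    (hface : ∀ p ∈ P, ∀ i j, i ≠ j → ¬ (Extreme k p i ∧ Extreme k p j)) (hrich : Rich k P)
    {s : ℕ} (hs : s ≤ 3) {B : Finset (Fin d → ℕ)} (hB : B ⊆ box (fun _ => s))
    (hL : IsLatin B) : Rigid P B := by
  classical
  intro f hf hmono
  have hfs : ∀ p ∈ P, ∀ ℓ, f p ℓ < s := fun p hp ℓ => mem_box.1 (hB (hf p hp)) ℓ
  choose T hTc hT using fun ℓ => mixed_card (k := k) hs hfs hmono ℓ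
  -- for every direction, a common value at both ends
  have hends : ∀ ℓ, ∃ y : Fin d → ℕ, (∀ j, j ≠ ℓ → ¬ Extreme k y j) ∧
      Function.update y ℓ 0 ∈ P ∧ Function.update y ℓ (k ℓ - 1) ∈ P ∧
      f (Function.update y ℓ 0) = f (Function.update y ℓ (k ℓ - 1)) := by
    intro ℓ
    obtain ⟨y, hy, h0, h1⟩ := hrich ℓ T hTc
    refine ⟨y, fun j hj => (hy j hj).1, h0, h1, ?_⟩
    apply hL _ (hf _ h0) _ (hf _ h1) ℓ
    intro j hj
    have e0 : Function.update y ℓ 0 j = y j := Function.update_of_ne hj _ _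
    have e1 : Function.update y ℓ (k ℓ - 1) j = y j := Function.update_of_ne hj _ _
    have h2 : y j < k j := by
      have := mem_box.1 (hP h0) j
      rwa [e0] at this
    exact hT j (y j) h2 (hy j hj).2 _ h0 _ h1 e0 e1
  choose y hy h0 h1 heq using hends
  set v : Fin d → ℕ := fun ℓ => f (Function.update (y ℓ) ℓ 0) ℓ with hv
  -- non-extreme coordinates have the value `v`
  have hval : ∀ p ∈ P, ∀ ℓ, ¬ Extreme k p ℓ → f p ℓ = v ℓ := by
    intro p hp ℓ hext
    have hb := mem_box.1 (hP hp) ℓ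
    unfold Extreme at hext
    push Not at hext
    have g1 : f (Function.update (y ℓ) ℓ 0) ℓ ≤ f p ℓ := by
      apply hmono _ (h0 ℓ) _ hp
      rw [Function.update_self]
      omega
    have g2 : f p ℓ ≤ f (Function.update (y ℓ) ℓ (k ℓ - 1)) ℓ := by
      apply hmono _ hp _ (h1 ℓ)
      rw [Function.update_self]
      omega
    rw [← heq ℓ] at g2
    show f p ℓ = f (Function.update (y ℓ) ℓ 0) ℓ
    omega
  -- a reference value
  have hall : ∀ p ∈ P, f p = v := by
    intro p hp
    by_cases hex : ∃ i, Extreme k p i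
    · obtain ⟨i, hi⟩ := hex
      -- compare with the end of the line in direction `i`
      have href : f (Function.update (y i) i 0) = v := by
        funext j
        by_cases hj : j = i
        · rw [hj]
        · apply hval _ (h0 i)
          have := hy i j hj
          unfold Extreme at this ⊢
          rw [Function.update_of_ne hj]
          exact this
      rw [← href]
      apply hL _ (hf _ hp) _ (hf _ (h0 i)) i
      intro j hj
      rw [href]
      apply hval p hp
      intro hj'
      exact hface p hp i j (Ne.symm hj) ⟨hi, hj'⟩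
    · push Not at hex
      funext j
      exact hval p hp j (hex j)
  intro p hp q hq
  rw [hall p hp, hall q hq]

/-- Rich patterns in which no one has two extreme coordinates converge. -/
theorem conv_of_rich (hd : 0 < d) {P : Mat d} (hP : P.ones.Nonempty)
    (hface : ∀ p ∈ P.ones, ∀ i j, i ≠ j → ¬ (Extreme P.size p i ∧ Extreme P.size p j))
    (hrich : Rich P.size P.ones) : Conv P :=
  conv_of_rigid hd hP (le_refl 2) (by norm_num : 2 ≤ 3) two_three_independent
    (latin_subset d 2) (card_latin hd (by norm_num)).ge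
    (rigid_of_rich P.ones_subset hface hrich (by norm_num) (latin_subset d 2) (isLatin_latin d 2))
    (latin_subset d 3) (card_latin hd (by norm_num)).ge
    (rigid_of_rich P.ones_subset hface hrich (by norm_num) (latin_subset d 3) (isLatin_latin d 3))

/-- `2d - 1` lines in every direction, pairwise without common coordinates, are enough. -/
lemma rich_of_lines {k : Fin d → ℕ} {P : Finset (Fin d → ℕ)}
    (h : ∀ ℓ : Fin d, ∃ y : Fin (2 * d - 1) → Fin d → ℕ,
      (∀ a, ∀ j, j ≠ ℓ → ¬ Extreme k (y a) j) ∧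
      (∀ a b, a ≠ b → ∀ j, j ≠ ℓ → y a j ≠ y b j) ∧
      ∀ a, Function.update (y a) ℓ 0 ∈ P ∧ Function.update (y a) ℓ (k ℓ - 1) ∈ P) :
    Rich k P := by
  classical
  intro ℓ T hT
  obtain ⟨y, hy1, hy2, hy3⟩ := h ℓ
  -- the bad lines
  have hbad : ∀ j, j ≠ ℓ → ((Finset.univ : Finset (Fin (2 * d - 1))).filter
      (fun a => y a j ∈ T j)).card ≤ 2 := by
    intro j hj
    refine le_trans ?_ (hT j)
    apply Finset.card_le_card_of_injOn (fun a => y a j)
    · intro a ha
      exact (Finset.mem_filter.1 ha).2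
    · intro a _ b _ hab
      by_contra hne
      exact hy2 a b hne j hj hab
  have hcard : ((Finset.univ.erase ℓ).biUnion (fun j =>
      (Finset.univ : Finset (Fin (2 * d - 1))).filter (fun a => y a j ∈ T j))).card <
      (Finset.univ : Finset (Fin (2 * d - 1))).card := by
    have h1 : ((Finset.univ.erase ℓ).biUnion (fun j =>
        (Finset.univ : Finset (Fin (2 * d - 1))).filter (fun a => y a j ∈ T j))).card ≤
        ∑ j ∈ (Finset.univ.erase ℓ), 2 := by
      refine Finset.card_biUnion_le.trans (Finset.sum_le_sum ?_)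
      intro j hj
      exact hbad j (Finset.ne_of_mem_erase hj)
    rw [Finset.sum_const, Finset.card_erase_of_mem (Finset.mem_univ ℓ), Finset.card_univ,
      Fintype.card_fin, smul_eq_mul] at h1
    rw [Finset.card_univ, Fintype.card_fin]
    have := ℓ.2
    omega
  obtain ⟨a, _, ha⟩ := Finset.exists_mem_notMem_of_card_lt_card hcard
  refine ⟨y a, ?_, hy3 a⟩
  intro j hj
  refine ⟨hy1 a j hj, ?_⟩
  intro hcon
  apply ha
  rw [Finset.mem_biUnion]
  exact ⟨j, Finset.mem_erase.2 ⟨hj, Finset.mem_univ j⟩, Finset.mem_filter.2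
    ⟨Finset.mem_univ a, hcon⟩⟩

/-- The full matrix without the positions having two extreme coordinates. -/
lemma lines_of_full {k : Fin d → ℕ} {P : Finset (Fin d → ℕ)} (hk : ∀ ℓ, 2 * d + 1 ≤ k ℓ)
    (hfull : ∀ x ∈ box k, (∀ i j, i ≠ j → ¬ (Extreme k x i ∧ Extreme k x j)) → x ∈ P) :
    ∀ ℓ : Fin d, ∃ y : Fin (2 * d - 1) → Fin d → ℕ,
      (∀ a, ∀ j, j ≠ ℓ → ¬ Extreme k (y a) j) ∧
      (∀ a b, a ≠ b → ∀ j, j ≠ ℓ → y a j ≠ y b j) ∧
      ∀ a, Function.update (y a) ℓ 0 ∈ P ∧ Function.update (y a) ℓ (k ℓ - 1) ∈ P := by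
  intro ℓ
  have hext : ∀ (a : Fin (2 * d - 1)) (j : Fin d), ¬ Extreme k (fun _ => a.val + 1) j := by
    intro a j
    have := hk j
    have := a.2
    show ¬ (a.val + 1 = 0 ∨ a.val + 1 + 1 = k j)
    omega
  have hupd : ∀ (a : Fin (2 * d - 1)) (v : ℕ), v < k ℓ →
      Function.update (fun _ : Fin d => a.val + 1) ℓ v ∈ P := by
    intro a v hv
    apply hfull
    · rw [mem_box]
      intro j
      by_cases hj : j = ℓ
      · subst hj; rw [Function.update_self]; exact hv
      · rw [Function.update_of_ne hj]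
        have := hk j
        have := a.2
        omega
    · intro i j hij
      rintro ⟨h1, h2⟩
      by_cases hi : i = ℓ
      · have hj : j ≠ ℓ := fun h => hij (hi.trans h.symm)
        unfold Extreme at h2
        rw [Function.update_of_ne hj] at h2
        exact hext a j h2
      · unfold Extreme at h1
        rw [Function.update_of_ne hi] at h1
        exact hext a i h1
  refine ⟨fun a _ => a.val + 1, fun a j _ => hext a j, ?_, ?_⟩
  · intro a b hab j _ heq
    apply hab
    ext
    have : a.val + 1 = b.val + 1 := heq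
    omega
  · intro a
    have := hk ℓ
    exact ⟨hupd a 0 (by omega), hupd a (k ℓ - 1) (by omega)⟩

end

end Pool.Agent.Helper450IM
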