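import Pool.Agent.helper450_im.Rich

/-!
# Full facets without the faces of codimension two, all sides at least five
-/

namespace Pool.Agent.Helper450IM

open Finset Filter Topology

variable {d : ℕ}

lemma rich_of_facets {k : Fin d → ℕ} {P : Finset (Fin d → ℕ)} (hk : ∀ ℓ, 5 ≤ k ℓ)
    (hfull : ∀ x ∈ box k, (∃ i, Extreme k x i) →
      (∀ i j, i ≠ j → ¬ (Extreme k x i ∧ Extreme k x j)) → x ∈ P) :
    Rich k P := by
  classical
  intro ℓ T hT
  have hex : ∀ j, ∃ u, u ∈ Finset.Icc 1 (k j - 2) ∧ u ∉ T j := by
    intro j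
    apply Finset.exists_mem_notMem_of_card_lt_card
    have h1 := hT j
    have h2 := hk j
    rw [Nat.card_Icc]
    omega
  choose y hy hyT using hex
  have hy' : ∀ j, 1 ≤ y j ∧ y j ≤ k j - 2 := fun j => Finset.mem_Icc.1 (hy j)
  have hext : ∀ j, ¬ Extreme k y j := by
    intro j
    have h1 := hy' j
    have h2 := hk j
    show ¬ (y j = 0 ∨ y j + 1 = k j)
    omega
  have hupd : ∀ v, v < k ℓ → (v = 0 ∨ v + 1 = k ℓ) → Function.update y ℓ v ∈ P := by
    intro v hv hv'
    apply hfull
    · rw [mem_box]
      intro j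
      by_cases hj : j = ℓ
      · subst hj; rw [Function.update_self]; exact hv
      · rw [Function.update_of_ne hj]
        have h1 := hy' j
        have h2 := hk j
        omega
    · refine ⟨ℓ, ?_⟩
      unfold Extreme
      rw [Function.update_self]
      exact hv'
    · intro i j hij
      rintro ⟨h1, h2⟩
      by_cases hi : i = ℓ
      · have hj : j ≠ ℓ := fun h => hij (hi.trans h.symm)
        unfold Extreme at h2
        rw [Function.update_of_ne hj] at h2
        exact hext j h2
      · unfold Extreme at h1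
        rw [Function.update_of_ne hi] at h1
        exact hext i h1
  refine ⟨y, fun j _ => ⟨hext j, hyT j⟩, hupd 0 ?_ (Or.inl rfl), hupd _ ?_ (Or.inr ?_)⟩
  · have := hk ℓ
    omega
  · have := hk ℓ
    omega
  · have := hk ℓ
    omega

end Pool.Agent.Helper450IM
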