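import Pool.Agent.helper450_im.Rich

/-!
# The all-ones matrix between matrices without faces of codimension two
-/

namespace Pool.Agent.Helper450IM

open Finset

variable {d : ℕ}

/-- interval minors of interval minors -/
lemma emb_trans {n k r : Fin d → ℕ} {S P Q : Finset (Fin d → ℕ)} (h1 : Emb n k S P)
    (h2 : Emb k r P Q) : Emb n r S Q := by
  obtain ⟨φ, hφ, hP⟩ := h1
  obtain ⟨ψ, hψ, hQ⟩ := h2
  refine ⟨fun ℓ => ψ ℓ ∘ φ ℓ, fun ℓ => (hφ ℓ).comp (hψ ℓ), ?_⟩
  intro q hq
  obtain ⟨p, hp, hpq⟩ := hQ q hq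
  obtain ⟨s, hs, hsp⟩ := hP p hp
  refine ⟨s, hs, fun ℓ => ?_⟩
  show ψ ℓ (φ ℓ (s ℓ)) = q ℓ
  rw [hsp ℓ, hpq ℓ]

lemma maxOnes_le_of_emb {P Q : Mat d} (hP : P.ones.Nonempty) (hQ : Q.ones.Nonempty)
    (h : Emb P.size Q.size P.ones Q.ones) (n : Fin d → ℕ) : maxOnes n Q ≤ maxOnes n P := by
  obtain ⟨S, hS, hE, hc⟩ := exists_maxOnes n hQ
  rw [← hc]
  exact card_le_maxOnes hP hS (fun h' => hE (emb_trans h' h))

/-- a submatrix of the same size -/
lemma m_le_of_subset {P Q : Mat d} (hP : P.ones.Nonempty) (hsize : Q.size = P.size)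
    (hsub : P.ones ⊆ Q.ones) (n : ℕ) : m n P ≤ m n Q := by
  have hQ : Q.ones.Nonempty := hP.mono hsub
  apply maxOnes_le_of_emb hQ hP
  refine ⟨fun _ i => i, fun ℓ => (Onto.id (Q.size ℓ)).congr rfl (by rw [hsize]), ?_⟩
  intro p hp
  exact ⟨p, hsub hp, fun _ => rfl⟩

/-- merging the first two and the last two of `k` indices -/
lemma onto_shrink {k : ℕ} (hk : 3 ≤ k) : Onto k (k - 2) (fun i => min (i - 1) (k - 3)) where
  mono := by
    intro i j hij
    show min (i - 1) (k - 3) ≤ min (j - 1) (k - 3)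
    omega
  lt := by
    intro i _
    show min (i - 1) (k - 3) < k - 2
    omega
  surj := by
    intro j hj
    refine ⟨j + 1, by omega, ?_⟩
    show min (j + 1 - 1) (k - 3) = j
    omega

/-- The all-ones matrix whose sides, except one, are smaller by two is an interval minor of the
matrix whose ones are the positions with at most one extreme index. -/
lemma m_allOnes_le {P Q : Mat d} (hP : P.ones.Nonempty) (hQ : Q.ones.Nonempty) (ℓ₀ : Fin d)
    (hk : ∀ ℓ, 3 ≤ P.size ℓ)
    (hfull : ∀ x ∈ box P.size, (∀ i j, i ≠ j → ¬ (Extreme P.size x i ∧ Extreme P.size x j)) →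
      x ∈ P.ones)
    (h0 : Q.size ℓ₀ = P.size ℓ₀) (hs : ∀ ℓ, ℓ ≠ ℓ₀ → Q.size ℓ + 2 = P.size ℓ) (n : ℕ) :
    m n Q ≤ m n P := by
  classical
  apply maxOnes_le_of_emb hP hQ
  refine ⟨fun ℓ => if ℓ = ℓ₀ then (fun i => i) else (fun i => min (i - 1) (P.size ℓ - 3)),
    ?_, ?_⟩
  · intro ℓ
    by_cases h : ℓ = ℓ₀
    · simp only [if_pos h]
      subst h
      exact (Onto.id (P.size ℓ)).congr rfl h0.symm
    · simp only [if_neg h]
      have h1 := hs ℓ h
      exact (onto_shrink (hk ℓ)).congr rfl (by omega)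
  · intro q hq
    have hqb := Q.inBox q hq
    refine ⟨fun ℓ => if ℓ = ℓ₀ then q ℓ else q ℓ + 1, ?_, ?_⟩
    · apply hfull
      · rw [mem_box]
        intro ℓ
        have h2 := hqb ℓ
        by_cases h : ℓ = ℓ₀
        · subst h
          simp only [if_true]
          omega
        · simp only [if_neg h]
          have := hs ℓ h
          omega
      · rintro i j hij ⟨hi, hj⟩
        have key : ∀ ℓ, Extreme P.size (fun ℓ => if ℓ = ℓ₀ then q ℓ else q ℓ + 1) ℓ →
            ℓ = ℓ₀ := by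
          intro ℓ hℓ
          by_contra h
          unfold Extreme at hℓ
          simp only [if_neg h] at hℓ
          have h1 := hs ℓ h
          have h2 := hqb ℓ
          omega
        exact hij ((key i hi).trans (key j hj).symm)
    · intro ℓ
      by_cases h : ℓ = ℓ₀
      · simp only [if_pos h]
      · simp only [if_neg h]
        have h1 := hs ℓ h
        have h2 := hqb ℓ
        omega

lemma box_nonempty {k : Fin d → ℕ} (hk : ∀ ℓ, 0 < k ℓ) : (box k).Nonempty :=
  ⟨fun _ => 0, mem_box.2 hk⟩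

end Pool.Agent.Helper450IM
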