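import Pool.Agent.helper450_im.CutAll

/-!
# Transferring matrices between scales
-/

namespace Pool.Agent.Helper450IM

open Finset Filter Topology

/-- almost homogeneous superadditivity -/
def Scal (k l : ℕ) (X : Finset (ℕ × ℕ)) : Prop :=
  ∀ q, 1 ≤ q → ∃ C, ∀ t w j, j * ((q - 1) * (M2 t w k l X - C)) ≤
    q * M2 (j * t + (k + l)) (j * w + (k + l)) k l X

lemma Scal.of_swp {k l : ℕ} {X : Finset (ℕ × ℕ)} (h : Scal l k (swp X)) : Scal k l X := by
  intro q hq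
  obtain ⟨C, hC⟩ := h q hq
  refine ⟨C, fun t w j => ?_⟩
  have h1 := hC w t j
  rw [M2_swp, M2_swp, Nat.add_comm l k] at h1
  exact h1

lemma Scal.of_flp {k l : ℕ} {X : Finset (ℕ × ℕ)} (hX : X ⊆ box2 k l)
    (h : Scal k l (flp k X)) : Scal k l X := by
  intro q hq
  obtain ⟨C, hC⟩ := h q hq
  refine ⟨C, fun t w j => ?_⟩
  have h1 := hC t w j
  rw [M2_flp hX, M2_flp hX] at h1
  exact h1

lemma scal_of_indec {k l : ℕ} {X : Finset (ℕ × ℕ)} (hsp : Spans2 k l X) (hI : Indec X) :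
    Scal k l X := by
  intro q hq
  refine ⟨0, fun t w j => ?_⟩
  have h1 : j * M2 t w k l X ≤ M2 (j * t) (j * w) k l X := by
    induction j with
    | zero => simp
    | succ j ih =>
      have h2 := M2_super (t := j * t) (w := j * w) (t' := t) (w' := w) hsp hI
      have h3 : (j + 1) * t = j * t + t := by ring
      have h4 : (j + 1) * w = j * w + w := by ring
      have h5 : (j + 1) * M2 t w k l X = j * M2 t w k l X + M2 t w k l X := by ring
      rw [h3, h4, h5]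
      omega
  have h2 : M2 (j * t) (j * w) k l X ≤ M2 (j * t + (k + l)) (j * w + (k + l)) k l X :=
    M2_mono hsp (by omega) (by omega)
  calc j * ((q - 1) * (M2 t w k l X - 0)) = (q - 1) * (j * M2 t w k l X) := by
        rw [Nat.sub_zero]; ring
    _ ≤ q * (j * M2 t w k l X) := Nat.mul_le_mul_right _ (by omega)
    _ ≤ _ := Nat.mul_le_mul_left _ (h1.trans h2)

lemma scal_top {k l : ℕ} {X : Finset (ℕ × ℕ)} (hsp : Spans2 k l X) (hX : X ⊆ box2 k l)
    (hNW : ∃ p ∈ X, p.1 = 0 ∧ p.2 = 0) (hNE : ∃ p ∈ X, p.1 = 0 ∧ p.2 + 1 = l)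
    (hSW : ∀ p ∈ X, p.1 + 1 = k → p.2 ≠ 0) (hSE : ∀ p ∈ X, p.1 + 1 = k → p.2 + 1 ≠ l) :
    Scal k l X := by
  intro q hq
  obtain ⟨a, ha, a1, a2⟩ := hNW
  have ha0 : a = (0, 0) := by ext <;> assumption
  rw [ha0] at ha
  refine ⟨k * 2 ^ (l * q) * (l * q), fun t w j => ?_⟩
  obtain ⟨S, hS, hE, hc⟩ := exists_M2 t w k l hsp.nonempty
  have h1 := main_estimate hsp hX ha hNE hsp.bot hSW hSE hS hE hq j
  rw [hc] at h1
  refine h1.trans (Nat.mul_le_mul_left _ ?_)
  exact M2_mono hsp (by omega) (by omega)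

/-- matrices avoiding `X` and `Y` can be combined to a matrix avoiding `P` -/
def PairOK (k l : ℕ) (X Y P : Finset (ℕ × ℕ)) : Prop :=
  ∀ t w t' w', M2 t w k l X + M2 t' w' k l Y ≤ M2 (t + t') (w + w') k l P

lemma PairOK.symm {k l : ℕ} {X Y P : Finset (ℕ × ℕ)} (h : PairOK k l X Y P) :
    PairOK k l Y X P := by
  intro t w t' w'
  have := h t' w' t w
  rw [Nat.add_comm t t', Nat.add_comm w w']
  omega

lemma PairOK.of_flp {k l : ℕ} {X Y P : Finset (ℕ × ℕ)} (hX : X ⊆ box2 k l)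
    (hY : Y ⊆ box2 k l) (hP : P ⊆ box2 k l) (h : PairOK k l (flp k X) (flp k Y) (flp k P)) :
    PairOK k l X Y P := by
  intro t w t' w'
  have := h t w t' w'
  rwa [M2_flp hX, M2_flp hY, M2_flp hP] at this

/-- the pattern without its lower right corner one -/
def dropSE (k l : ℕ) (P : Finset (ℕ × ℕ)) : Finset (ℕ × ℕ) :=
  P.filter (fun p => ¬ (p.1 + 1 = k ∧ p.2 + 1 = l))

/-- Combination along the diagonal. -/
lemma pair_diag {k l : ℕ} {P X Y : Finset (ℕ × ℕ)} (hsp : Spans2 k l P)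
    (h1 : Spans2 k l (dropSE k l P)) (h2 : Spans2 k l (dropNW P))
    (hc : ∀ P₁ P₂ : Finset (ℕ × ℕ), P₁ ∪ P₂ = P → P₁.Nonempty → P₂.Nonempty →
      (∀ y ∈ P₁, ∀ x ∈ P₂, y.1 ≤ x.1 ∧ y.2 ≤ x.2) →
      (∀ x ∈ P₂, x.1 + 1 = k ∧ x.2 + 1 = l) ∨ (∀ y ∈ P₁, y.1 = 0 ∧ y.2 = 0))
    (hX : X ⊆ dropSE k l P) (hY : Y ⊆ dropNW P) : PairOK k l X Y P := by
  classical
  intro t w t' w'
  refine le_trans (Nat.add_le_add (M2_anti hX) (M2_anti hY)) ?_
  obtain ⟨S, hS, hE, hcS⟩ := exists_M2 t w k l h1.nonempty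
  obtain ⟨S', hS', hE', hcS'⟩ := exists_M2 t' w' k l h2.nonempty
  have hinj : Function.Injective (fun s : ℕ × ℕ => (t + s.1, w + s.2)) := by
    intro a b hab
    simp only [Prod.mk.injEq] at hab
    ext <;> omega
  have hdisj : Disjoint S (S'.image (fun s => (t + s.1, w + s.2))) := by
    rw [Finset.disjoint_left]
    intro x hx hx'
    obtain ⟨y, hy, rfl⟩ := Finset.mem_image.1 hx'
    have := mem_box2.1 (hS hx)
    simp only at this
    omega
  have hcard : (S ∪ S'.image (fun s => (t + s.1, w + s.2))).card =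
      M2 t w k l (dropSE k l P) + M2 t' w' k l (dropNW P) := by
    rw [Finset.card_union_of_disjoint hdisj, Finset.card_image_of_injective _ hinj, hcS, hcS']
  rw [← hcard]
  apply le_M2
  · apply Finset.union_subset
    · exact hS.trans (box2_mono (by omega) (by omega))
    · intro x hx
      obtain ⟨y, hy, rfl⟩ := Finset.mem_image.1 hx
      have := mem_box2.1 (hS' hy)
      rw [mem_box2]
      show t + y.1 < t + t' ∧ w + y.2 < w + w'
      omega
  · rintro ⟨φ, ψ, hφ, hψ, hP⟩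
    set P₁ := P.filter (fun p => ∃ s ∈ S, φ s.1 = p.1 ∧ ψ s.2 = p.2) with hP₁
    set P₂ := P.filter (fun p => ¬ ∃ s ∈ S, φ s.1 = p.1 ∧ ψ s.2 = p.2) with hP₂
    have hU : P₁ ∪ P₂ = P := Finset.filter_union_filter_not_eq _ _
    have hh1 : ∀ p ∈ P₁, ∃ s ∈ S, φ s.1 = p.1 ∧ ψ s.2 = p.2 := by
      intro p hp
      rw [hP₁, Finset.mem_filter] at hp
      exact hp.2
    have hh2 : ∀ p ∈ P₂, ∃ s ∈ S', φ (t + s.1) = p.1 ∧ ψ (w + s.2) = p.2 := by
      intro p hp
      rw [hP₂, Finset.mem_filter] at hp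
      obtain ⟨s, hs, h⟩ := hP p hp.1
      rcases Finset.mem_union.1 hs with hs | hs
      · exact absurd ⟨s, hs, h⟩ hp.2
      · obtain ⟨y, hy, rfl⟩ := Finset.mem_image.1 hs
        exact ⟨y, hy, h⟩
    have hfirst : (∀ x ∈ P₂, x.1 + 1 = k ∧ x.2 + 1 = l) → False := by
      intro h
      apply hE
      apply emb2_mono (t' := t + t') (w' := w + w') h1 hS (by omega) (by omega)
      refine ⟨φ, ψ, hφ, hψ, ?_⟩
      intro p hp
      rw [dropSE, Finset.mem_filter] at hp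
      have hp' : p ∈ P₁ ∪ P₂ := by rw [hU]; exact hp.1
      rcases Finset.mem_union.1 hp' with h3 | h3
      · exact hh1 p h3
      · exact absurd (h p h3) hp.2
    have hsecond : (∀ y ∈ P₁, y.1 = 0 ∧ y.2 = 0) → False := by
      intro h
      apply hE'
      refine emb2_shift (a := t) (b := w) h2 hS' rfl rfl ⟨φ, ψ, hφ, hψ, ?_⟩
      intro p hp
      rw [dropNW, Finset.mem_filter] at hp
      have hp' : p ∈ P₁ ∪ P₂ := by rw [hU]; exact hp.1
      rcases Finset.mem_union.1 hp' with h3 | h3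
      · exact absurd (h p h3) hp.2
      · obtain ⟨s, hs, hs1, hs2⟩ := hh2 p h3
        exact ⟨_, Finset.mem_image_of_mem _ hs, hs1, hs2⟩
    by_cases hne1 : P₁.Nonempty
    · by_cases hne2 : P₂.Nonempty
      · have hord : ∀ y ∈ P₁, ∀ x ∈ P₂, y.1 ≤ x.1 ∧ y.2 ≤ x.2 := by
          intro y hy x hx
          obtain ⟨s, hs, hs1, hs2⟩ := hh1 y hy
          obtain ⟨s', hs', hs1', hs2'⟩ := hh2 x hx
          have h3 := mem_box2.1 (hS hs)
          have h4 := hφ.mono (show s.1 ≤ t + s'.1 by omega)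
          have h5 := hψ.mono (show s.2 ≤ w + s'.2 by omega)
          omega
        rcases hc P₁ P₂ hU hne1 hne2 hord with h | h
        · exact hfirst h
        · exact hsecond h
      · apply hfirst
        intro x hx
        exact absurd ⟨x, hx⟩ hne2
    · apply hsecond
      intro x hx
      exact absurd ⟨x, hx⟩ hne1

/-- The inequality for a pair of types that can be combined. -/
theorem pair_ineq {k l : ℕ} {X Y P : Finset (ℕ × ℕ)} (hsp : Spans2 k l P) (hX : Scal k l X)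
    (hY : Scal k l Y) (hpair : PairOK k l X Y P) {lam : ℝ} (hlam : 0 ≤ lam)
    (hfreq : ∀ ε > 0, ∃ᶠ n : ℕ in atTop, (M2 n n k l P : ℝ) / n < lam + ε) {q : ℕ}
    (hq : 1 ≤ q) :
    ∃ C : ℕ, ∀ t w t' w' a b N₀ : ℕ, 1 ≤ N₀ → a * t + b * t' ≤ N₀ → a * w + b * w' ≤ N₀ →
      ((q : ℝ) - 1) * (a * ((M2 t w k l X : ℝ) - C) + b * ((M2 t' w' k l Y : ℝ) - C)) ≤
        q * lam * N₀ := by
  obtain ⟨C₁, hC₁⟩ := hX q hq
  obtain ⟨C₂, hC₂⟩ := hY q hq
  refine ⟨C₁ + C₂, fun t w t' w' a b N₀ hN₀ hrow hcol => ?_⟩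
  set Z : ℕ := (q - 1) * (a * (M2 t w k l X - C₁) + b * (M2 t' w' k l Y - C₂)) with hZ
  have hqR : (1 : ℝ) ≤ q := by exact_mod_cast hq
  -- the left hand side is at most `Z`
  have hle : ((q : ℝ) - 1) * (a * ((M2 t w k l X : ℝ) - ((C₁ + C₂ : ℕ) : ℝ)) +
      b * ((M2 t' w' k l Y : ℝ) - ((C₁ + C₂ : ℕ) : ℝ))) ≤ (Z : ℝ) := by
    have e1 : ((M2 t w k l X : ℝ) - ((C₁ + C₂ : ℕ) : ℝ)) ≤ ((M2 t w k l X - C₁ : ℕ) : ℝ) := by
      rw [sub_le_iff_le_add]
      exact_mod_cast (by omega : M2 t w k l X ≤ M2 t w k l X - C₁ + (C₁ + C₂))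
    have e2 : ((M2 t' w' k l Y : ℝ) - ((C₁ + C₂ : ℕ) : ℝ)) ≤
        ((M2 t' w' k l Y - C₂ : ℕ) : ℝ) := by
      rw [sub_le_iff_le_add]
      exact_mod_cast (by omega : M2 t' w' k l Y ≤ M2 t' w' k l Y - C₂ + (C₁ + C₂))
    have e3 : (Z : ℝ) = ((q : ℝ) - 1) * (a * ((M2 t w k l X - C₁ : ℕ) : ℝ) +
        b * ((M2 t' w' k l Y - C₂ : ℕ) : ℝ)) := by
      rw [hZ]
      push_cast [Nat.cast_sub hq]
      ring
    rw [e3]
    apply mul_le_mul_of_nonneg_left _ (by linarith)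
    apply add_le_add
    · exact mul_le_mul_of_nonneg_left e1 (by positivity)
    · exact mul_le_mul_of_nonneg_left e2 (by positivity)
  refine hle.trans ?_
  set s := 2 * (k + l) with hs
  -- many copies
  have hcopies : ∀ j, j * Z ≤ q * M2 (j * N₀ + s) (j * N₀ + s) k l P := by
    intro j
    have h1 := hC₁ t w (j * a)
    have h2 := hC₂ t' w' (j * b)
    have h3 := hpair (j * a * t + (k + l)) (j * a * w + (k + l)) (j * b * t' + (k + l))
      (j * b * w' + (k + l))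
    have h4 : M2 (j * a * t + (k + l) + (j * b * t' + (k + l)))
        (j * a * w + (k + l) + (j * b * w' + (k + l))) k l P ≤
        M2 (j * N₀ + s) (j * N₀ + s) k l P := by
      apply M2_mono hsp
      · have : j * a * t + j * b * t' = j * (a * t + b * t') := by ring
        have h5 := Nat.mul_le_mul_left j hrow
        omega
      · have : j * a * w + j * b * w' = j * (a * w + b * w') := by ring
        have h5 := Nat.mul_le_mul_left j hcol
        omega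
    calc j * Z = j * a * ((q - 1) * (M2 t w k l X - C₁)) +
          j * b * ((q - 1) * (M2 t' w' k l Y - C₂)) := by rw [hZ]; ring
      _ ≤ q * M2 (j * a * t + (k + l)) (j * a * w + (k + l)) k l X +
          q * M2 (j * b * t' + (k + l)) (j * b * w' + (k + l)) k l Y := Nat.add_le_add h1 h2
      _ = q * (M2 (j * a * t + (k + l)) (j * a * w + (k + l)) k l X +
          M2 (j * b * t' + (k + l)) (j * b * w' + (k + l)) k l Y) := by ring
      _ ≤ _ := Nat.mul_le_mul_left _ (h3.trans h4)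
  by_contra hcon
  push Not at hcon
  have hN₀R : (0 : ℝ) < N₀ := by exact_mod_cast hN₀
  have hq0 : (0 : ℝ) < q := by linarith
  -- choose `ε`
  obtain ⟨ε, hε, hεZ⟩ : ∃ ε : ℝ, 0 < ε ∧ (q : ℝ) * (lam + 2 * ε) * N₀ ≤ Z := by
    refine ⟨(Z - q * lam * N₀) / (2 * q * N₀), by apply div_pos <;> [linarith; positivity], ?_⟩
    have : (q : ℝ) * (lam + 2 * ((Z - q * lam * N₀) / (2 * q * N₀))) * N₀ = Z := by
      field_simp
      ring
    linarith
  obtain ⟨n₁, hn₁⟩ := exists_nat_gt ((lam + 2 * ε) * (s + N₀) / ε)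
  obtain ⟨n, hn, hn'⟩ := ((hfreq ε hε).and_eventually
    (eventually_ge_atTop (n₁ + s + N₀ + 1))).exists
  have hn0 : (0 : ℝ) < n := by
    have : 0 < n := by omega
    exact_mod_cast this
  rw [div_lt_iff₀ hn0] at hn
  set j := (n - s) / N₀ with hj
  have hjn : j * N₀ ≤ n - s := Nat.div_mul_le_self _ _
  have hjn' : n - s < j * N₀ + N₀ := by
    have h1 := Nat.div_add_mod (n - s) N₀
    have h2 := Nat.mod_lt (n - s) hN₀
    rw [← hj] at h1
    have h3 : N₀ * j = j * N₀ := Nat.mul_comm _ _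
    omega
  have hmono : M2 (j * N₀ + s) (j * N₀ + s) k l P ≤ M2 n n k l P :=
    M2_mono hsp (by omega) (by omega)
  have h1 : (j : ℝ) * Z ≤ q * ((lam + ε) * n) := by
    have h2 : ((j * Z : ℕ) : ℝ) ≤ ((q * M2 n n k l P : ℕ) : ℝ) := by
      exact_mod_cast (hcopies j).trans (Nat.mul_le_mul_left _ hmono)
    push_cast at h2
    have h3 := mul_le_mul_of_nonneg_left hn.le hq0.le
    linarith
  have h2 : (j : ℝ) * (q * (lam + 2 * ε) * N₀) ≤ j * Z :=
    mul_le_mul_of_nonneg_left hεZ (by positivity)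
  have h3 : ((lam + 2 * ε) * (j * N₀) : ℝ) ≤ (lam + ε) * n := by
    have h4 : (q : ℝ) * ((lam + 2 * ε) * (j * N₀)) ≤ q * ((lam + ε) * n) := by
      calc (q : ℝ) * ((lam + 2 * ε) * (j * N₀)) = (j : ℝ) * (q * (lam + 2 * ε) * N₀) := by ring
        _ ≤ _ := h2.trans h1
    exact le_of_mul_le_mul_left h4 hq0
  have h4 : (n : ℝ) - s - N₀ ≤ j * N₀ := by
    have h5 : (n : ℝ) ≤ ((j * N₀ + N₀ + s : ℕ) : ℝ) := by exact_mod_cast (by omega)
    push_cast at h5 ⊢
    linarith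
  have h5 : (lam + 2 * ε) * ((n : ℝ) - s - N₀) ≤ (lam + 2 * ε) * (j * N₀) :=
    mul_le_mul_of_nonneg_left h4 (by linarith)
  rw [div_lt_iff₀ hε] at hn₁
  have h6 : (n₁ : ℝ) ≤ n := by exact_mod_cast (by omega : n₁ ≤ n)
  nlinarith

end Pool.Agent.Helper450IM
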