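import Pool.Agent.helper450_im.Cheb

/-!
# Large antichains in dimensions two and three
-/

namespace Pool.Agent.Helper450IM

open Finset Filter Topology

lemma antichain_of_sum {d r s : ℕ} :
    ∀ b ∈ (box (fun _ : Fin d => r)).filter (fun b => ∑ ℓ, b ℓ = s),
    ∀ c ∈ (box (fun _ : Fin d => r)).filter (fun b => ∑ ℓ, b ℓ = s),
      (∀ ℓ, b ℓ ≤ c ℓ) → b = c := by
  intro b hb c hc hle
  have e1 := (Finset.mem_filter.1 hb).2
  have e2 := (Finset.mem_filter.1 hc).2
  have h := (Finset.sum_eq_sum_iff_of_le (fun ℓ _ => hle ℓ)).1 (e1.trans e2.symm)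
  funext ℓ
  exact h ℓ (Finset.mem_univ ℓ)

lemma antichainDensity_two : AntichainDensity 2 1 := by
  filter_upwards [eventually_ge_atTop 1] with r hr
  refine ⟨(box (fun _ : Fin 2 => r)).filter (fun b => ∑ ℓ, b ℓ = r - 1),
    Finset.filter_subset _ _, antichain_of_sum, ?_⟩
  have h : r ≤ ((box (fun _ : Fin 2 => r)).filter (fun b => ∑ ℓ, b ℓ = r - 1)).card := by
    have h1 : (Finset.range r).card ≤
        ((box (fun _ : Fin 2 => r)).filter (fun b => ∑ ℓ, b ℓ = r - 1)).card := by
      apply Finset.card_le_card_of_injOn (fun i => ![i, r - 1 - i])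
      · intro i hi
        rw [Finset.mem_coe, Finset.mem_range] at hi
        rw [Finset.mem_coe, Finset.mem_filter, mem_box]
        refine ⟨?_, ?_⟩
        · intro ℓ
          fin_cases ℓ
          · exact hi
          · show r - 1 - i < r
            omega
        · rw [Fin.sum_univ_two]
          show i + (r - 1 - i) = r - 1
          omega
      · intro i _ j _ hij
        exact congrFun hij 0
    rwa [Finset.card_range] at h1
  have h2 : (r : ℝ) ≤ (((box (fun _ : Fin 2 => r)).filter (fun b => ∑ ℓ, b ℓ = r - 1)).card : ℝ) := by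
    exact_mod_cast h
  simpa using h2

lemma sum_sub_le (L : ℕ) : ∀ r : ℕ, 2 * ∑ x ∈ Finset.range r, (L - x) ≤ L * (L + 1) := by
  intro r
  by_cases h : r ≤ L
  · have : 2 * ∑ x ∈ Finset.range r, (L - x) + (L - r) * (L - r + 1) = L * (L + 1) := by
      induction r with
      | zero => simp
      | succ r ih =>
        have h1 := ih (by omega)
        rw [Finset.sum_range_succ]
        obtain ⟨t, ht⟩ := Nat.exists_eq_add_of_le h
        have e1 : L - r = t + 1 := by omega
        have e2 : L - (r + 1) = t := by omega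
        rw [e1] at h1 ⊢
        rw [e2]
        nlinarith
    omega
  · push Not at h
    have h1 : ∑ x ∈ Finset.range r, (L - x) = ∑ x ∈ Finset.range L, (L - x) := by
      symm
      apply Finset.sum_subset
      · intro x hx
        rw [Finset.mem_range] at hx ⊢
        omega
      · intro x _ hx
        rw [Finset.mem_range] at hx
        omega
    rw [h1]
    have : ∀ M, 2 * ∑ x ∈ Finset.range M, (M - x) = M * (M + 1) := by
      intro M
      have e : ∑ x ∈ Finset.range M, (M - x) = ∑ x ∈ Finset.range M, (x + 1) := by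
        rw [← Finset.sum_range_reflect]
        apply Finset.sum_congr rfl
        intro x hx
        rw [Finset.mem_range] at hx
        omega
      rw [e]
      clear e
      induction M with
      | zero => simp
      | succ M ih => rw [Finset.sum_range_succ, Nat.mul_add, ih]; ring
    rw [this L]

/-- the number of pairs with small sum -/
lemma card_small_sum (r L : ℕ) :
    2 * ((Finset.range r ×ˢ Finset.range r).filter (fun x => x.1 + x.2 < L)).card ≤
      L * (L + 1) := by
  refine le_trans ?_ (sum_sub_le L r)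
  apply Nat.mul_le_mul_left
  rw [Finset.card_eq_sum_card_fiberwise (f := fun x => x.1) (t := Finset.range r)]
  · apply Finset.sum_le_sum
    intro x _
    have h1 : (((Finset.range r ×ˢ Finset.range r).filter (fun x => x.1 + x.2 < L)).filter
        (fun y => y.1 = x)).card ≤ (Finset.range (L - x)).card := by
      apply Finset.card_le_card_of_injOn (fun y => y.2)
      · intro y hy
        rw [Finset.mem_coe, Finset.mem_filter, Finset.mem_filter] at hy
        rw [Finset.mem_coe, Finset.mem_range]
        obtain ⟨⟨_, h2⟩, h3⟩ := hy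
        show y.2 < L - x
        omega
      · intro y hy z hz hyz
        rw [Finset.mem_coe, Finset.mem_filter] at hy hz
        exact Prod.ext (hy.2.trans hz.2.symm) hyz
    rwa [Finset.card_range] at h1
  · intro x hx
    rw [Finset.mem_coe, Finset.mem_filter, Finset.mem_product] at hx
    exact hx.1.1

lemma exists_middle_layer (r : ℕ) (hr : 1 ≤ r) :
    ∃ s, 3 * (r * r) ≤ 4 * ((box (fun _ : Fin 3 => r)).filter (fun b => ∑ ℓ, b ℓ = s)).card := by
  classical
  -- `s` and the bounds for `x + y`
  obtain ⟨s, L, H, hs, hH, hcount⟩ : ∃ s L H : ℕ, L + r = s + 1 ∧ H + s + 1 = 2 * r - 1 ∧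
      3 * (r * r) + 2 * (L * (L + 1) + H * (H + 1)) ≤ 4 * (r * r) := by
    rcases Nat.even_or_odd' r with ⟨q, rfl | rfl⟩
    · obtain ⟨p, rfl⟩ : ∃ p, q = p + 1 := ⟨q - 1, by omega⟩
      refine ⟨3 * p + 1, p, p + 1, by omega, by omega, ?_⟩
      nlinarith
    · refine ⟨3 * q, q, q, by omega, by omega, ?_⟩
      nlinarith
  refine ⟨s, ?_⟩
  set A := Finset.range r ×ˢ Finset.range r with hA
  have hAc : A.card = r * r := by rw [hA, Finset.card_product, Finset.card_range]
  have h1 : (A.filter (fun x => L ≤ x.1 + x.2 ∧ x.1 + x.2 ≤ s)).card ≤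
      ((box (fun _ : Fin 3 => r)).filter (fun b => ∑ ℓ, b ℓ = s)).card := by
    apply Finset.card_le_card_of_injOn (fun x => ![x.1, x.2, s - (x.1 + x.2)])
    · intro x hx
      rw [Finset.mem_coe, Finset.mem_filter, hA, Finset.mem_product, Finset.mem_range,
        Finset.mem_range] at hx
      rw [Finset.mem_coe, Finset.mem_filter, mem_box]
      refine ⟨?_, ?_⟩
      · intro ℓ
        fin_cases ℓ
        · exact hx.1.1
        · exact hx.1.2
        · show s - (x.1 + x.2) < r
          omega
      · rw [Fin.sum_univ_three]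
        show x.1 + x.2 + (s - (x.1 + x.2)) = s
        omega
    · intro x _ y _ hxy
      exact Prod.ext (congrFun hxy 0) (congrFun hxy 1)
  have h2 : A.card ≤ (A.filter (fun x => L ≤ x.1 + x.2 ∧ x.1 + x.2 ≤ s)).card +
      ((A.filter (fun x => x.1 + x.2 < L)).card + (A.filter (fun x => s < x.1 + x.2)).card) := by
    have hsub : A ⊆ A.filter (fun x => L ≤ x.1 + x.2 ∧ x.1 + x.2 ≤ s) ∪
        (A.filter (fun x => x.1 + x.2 < L) ∪ A.filter (fun x => s < x.1 + x.2)) := by
      intro x hx
      simp only [Finset.mem_union, Finset.mem_filter]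
      by_cases c1 : x.1 + x.2 < L
      · exact Or.inr (Or.inl ⟨hx, c1⟩)
      · by_cases c2 : s < x.1 + x.2
        · exact Or.inr (Or.inr ⟨hx, c2⟩)
        · exact Or.inl ⟨hx, by omega, by omega⟩
    refine (Finset.card_le_card hsub).trans ((Finset.card_union_le _ _).trans ?_)
    exact Nat.add_le_add_left (Finset.card_union_le _ _) _
  have h3 := card_small_sum r L
  have h4 : (A.filter (fun x => s < x.1 + x.2)).card ≤
      ((Finset.range r ×ˢ Finset.range r).filter (fun x => x.1 + x.2 < H)).card := by
    apply Finset.card_le_card_of_injOn (fun x => (r - 1 - x.1, r - 1 - x.2))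
    · intro x hx
      rw [Finset.mem_coe, Finset.mem_filter, hA, Finset.mem_product, Finset.mem_range,
        Finset.mem_range] at hx
      rw [Finset.mem_coe, Finset.mem_filter, Finset.mem_product, Finset.mem_range,
        Finset.mem_range]
      refine ⟨⟨?_, ?_⟩, ?_⟩
      · show r - 1 - x.1 < r
        omega
      · show r - 1 - x.2 < r
        omega
      · show r - 1 - x.1 + (r - 1 - x.2) < H
        omega
    · intro x hx y hy hxy
      rw [Finset.mem_coe, Finset.mem_filter, hA, Finset.mem_product, Finset.mem_range,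
        Finset.mem_range] at hx hy
      simp only [Prod.mk.injEq] at hxy
      exact Prod.ext (by omega) (by omega)
  have h5 := card_small_sum r H
  rw [← hA] at h3 h5
  rw [hAc] at h2
  rw [← hA] at h4
  omega

lemma antichainDensity_three : AntichainDensity 3 (3 / 4) := by
  filter_upwards [eventually_ge_atTop 1] with r hr
  obtain ⟨s, hs⟩ := exists_middle_layer r hr
  refine ⟨(box (fun _ : Fin 3 => r)).filter (fun b => ∑ ℓ, b ℓ = s),
    Finset.filter_subset _ _, antichain_of_sum, ?_⟩
  have h : 3 * ((r : ℝ) * r) ≤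
      4 * (((box (fun _ : Fin 3 => r)).filter (fun b => ∑ ℓ, b ℓ = s)).card : ℝ) := by
    exact_mod_cast hs
  have e : ((r : ℝ)) ^ (3 - 1) = r * r := by norm_num; ring
  rw [e]
  linarith

end Pool.Agent.Helper450IM
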