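import Pool.Agent.helper450_im.Reduce

/-!
# Thin directions
-/

namespace Pool.Agent.Helper450IM

open Finset Filter Topology

/-! ## Half maps -/

structure HalfLow (x v : ℕ) (f : ℕ → ℕ) : Prop where
  mono : Monotone f
  top : f x = v
  surj : ∀ j, j ≤ v → ∃ i, i ≤ x ∧ f i = j

structure HalfHigh (x v N K : ℕ) (g : ℕ → ℕ) : Prop where
  mono : Monotone g
  ge : ∀ i, x < i → v ≤ g i
  lt : ∀ i, i < N → g i < K
  surj : ∀ j, v < j → j < K → ∃ i, x < i ∧ i < N ∧ g i = j

lemma onto_glue {x v N K : ℕ} {f g : ℕ → ℕ} (hf : HalfLow x v f) (hg : HalfHigh x v N K g)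
    (hx : x < N) (hv : v < K) : Onto N K (fun i => if i ≤ x then f i else g i) where
  mono := by
    intro i j hij
    show (if i ≤ x then f i else g i) ≤ (if j ≤ x then f j else g j)
    by_cases h1 : i ≤ x
    · rw [if_pos h1]
      by_cases h2 : j ≤ x
      · rw [if_pos h2]
        exact hf.mono hij
      · rw [if_neg h2]
        have e1 := hf.mono h1
        rw [hf.top] at e1
        exact e1.trans (hg.ge j (by omega))
    · have h2 : ¬ j ≤ x := by omega
      rw [if_neg h1, if_neg h2]
      exact hg.mono hij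
  lt := by
    intro i hi
    show (if i ≤ x then f i else g i) < K
    by_cases h1 : i ≤ x
    · rw [if_pos h1]
      have e1 := hf.mono h1
      rw [hf.top] at e1
      omega
    · rw [if_neg h1]
      exact hg.lt i hi
  surj := by
    intro j hj
    by_cases h1 : j ≤ v
    · obtain ⟨i, hi, hij⟩ := hf.surj j h1
      refine ⟨i, by omega, ?_⟩
      show (if i ≤ x then f i else g i) = j
      rw [if_pos hi]
      exact hij
    · obtain ⟨i, hi, hiN, hij⟩ := hg.surj j (by omega) hj
      refine ⟨i, hiN, ?_⟩
      show (if i ≤ x then f i else g i) = j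
      rw [if_neg (by omega)]
      exact hij

lemma halfLow_level {x v a : ℕ} (ha : a < v) (hx : v ≤ x) :
    HalfLow x v (fun i => max (min i a) (v - (x - i))) where
  mono := by
    intro i j hij
    show max (min i a) (v - (x - i)) ≤ max (min j a) (v - (x - j))
    omega
  top := by
    show max (min x a) (v - (x - x)) = v
    omega
  surj := by
    intro j hj
    by_cases c : j ≤ a
    · refine ⟨j, by omega, ?_⟩
      show max (min j a) (v - (x - j)) = j
      omega
    · refine ⟨x - (v - j), by omega, ?_⟩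
      show max (min (x - (v - j)) a) (v - (x - (x - (v - j)))) = j
      omega

lemma exists_count_ge {X : Finset ℕ} : ∀ c : ℕ, 1 ≤ c → c ≤ X.card →
    ∃ h ∈ X, (X.filter (fun y => h ≤ y)).card = c := by
  classical
  induction X using Finset.induction_on_min with
  | empty =>
    intro c h1 h2
    simp at h2
    omega
  | insert a s ha ih =>
    intro c h1 h2
    have has : a ∉ s := fun h => lt_irrefl _ (ha a h)
    rw [Finset.card_insert_of_notMem has] at h2
    by_cases hc : c ≤ s.card
    · obtain ⟨h, hs, hcount⟩ := ih c h1 hc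
      refine ⟨h, Finset.mem_insert_of_mem hs, ?_⟩
      rw [Finset.filter_insert, if_neg (by have := ha h hs; omega)]
      exact hcount
    · refine ⟨a, Finset.mem_insert_self _ _, ?_⟩
      rw [Finset.filter_insert, if_pos (le_refl a), Finset.filter_true_of_mem
        (fun y hy => (ha y hy).le), Finset.card_insert_of_notMem has]
      omega

lemma exists_count_le {X : Finset ℕ} : ∀ c : ℕ, 1 ≤ c → c ≤ X.card →
    ∃ h ∈ X, (X.filter (fun y => y ≤ h)).card = c := by
  classical
  induction X using Finset.induction_on_max with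
  | empty =>
    intro c h1 h2
    simp at h2
    omega
  | insert a s ha ih =>
    intro c h1 h2
    have has : a ∉ s := fun h => lt_irrefl _ (ha a h)
    rw [Finset.card_insert_of_notMem has] at h2
    by_cases hc : c ≤ s.card
    · obtain ⟨h, hs, hcount⟩ := ih c h1 hc
      refine ⟨h, Finset.mem_insert_of_mem hs, ?_⟩
      rw [Finset.filter_insert, if_neg (by have := ha h hs; omega)]
      exact hcount
    · refine ⟨a, Finset.mem_insert_self _ _, ?_⟩
      rw [Finset.filter_insert, if_pos (le_refl a), Finset.filter_true_of_mem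
        (fun y hy => (ha y hy).le), Finset.card_insert_of_notMem has]
      omega

lemma hit_low {v : ℕ} {X : Finset ℕ} (hc : v ≤ X.card) {j : ℕ} (hj : j < v) :
    ∃ h ∈ X, v - (X.filter (fun y => h ≤ y)).card = j := by
  obtain ⟨h, hh, hcount⟩ := exists_count_ge (X := X) (v - j) (by omega) (by omega)
  exact ⟨h, hh, by omega⟩

lemma halfLow_line {x v : ℕ} {X : Finset ℕ} (hX : ∀ y ∈ X, y < x) (hc : v ≤ X.card) :
    HalfLow x v (fun i => v - (X.filter (fun y => i ≤ y)).card) where
  mono := by
    intro i j hij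
    show v - (X.filter (fun y => i ≤ y)).card ≤ v - (X.filter (fun y => j ≤ y)).card
    have : (X.filter (fun y => j ≤ y)).card ≤ (X.filter (fun y => i ≤ y)).card := by
      apply Finset.card_le_card
      intro y hy
      rw [Finset.mem_filter] at hy ⊢
      exact ⟨hy.1, hij.trans hy.2⟩
    omega
  top := by
    show v - (X.filter (fun y => x ≤ y)).card = v
    have : X.filter (fun y => x ≤ y) = ∅ := by
      rw [Finset.filter_eq_empty_iff]
      intro y hy
      have := hX y hy
      omega
    rw [this, Finset.card_empty]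
    rfl
  surj := by
    intro j hj
    by_cases c : j = v
    · refine ⟨x, le_refl x, ?_⟩
      show v - (X.filter (fun y => x ≤ y)).card = j
      have : X.filter (fun y => x ≤ y) = ∅ := by
        rw [Finset.filter_eq_empty_iff]
        intro y hy
        have := hX y hy
        omega
      rw [this, Finset.card_empty, c]
      rfl
    · obtain ⟨h, hh, hcount⟩ := hit_low hc (show j < v by omega)
      exact ⟨h, (hX h hh).le, hcount⟩

lemma halfHigh_level {x v a N K : ℕ} (ha : v < a) (haK : a < K) (hx : x + K < N + 1 + v) :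
    HalfHigh x v N K (fun i => min (v + (i - x)) (max a (K + i - N))) where
  mono := by
    intro i j hij
    show min (v + (i - x)) (max a (K + i - N)) ≤ min (v + (j - x)) (max a (K + j - N))
    omega
  ge := by
    intro i hi
    show v ≤ min (v + (i - x)) (max a (K + i - N))
    omega
  lt := by
    intro i hi
    show min (v + (i - x)) (max a (K + i - N)) < K
    omega
  surj := by
    intro j hj hjK
    by_cases c : j ≤ a
    · refine ⟨x + (j - v), by omega, by omega, ?_⟩
      show min (v + (x + (j - v) - x)) (max a (K + (x + (j - v)) - N)) = j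
      omega
    · refine ⟨N + j - K, by omega, by omega, ?_⟩
      show min (v + (N + j - K - x)) (max a (K + (N + j - K) - N)) = j
      omega

lemma hit_high {v K : ℕ} {Y : Finset ℕ} (hc : K ≤ Y.card + 1 + v) {j : ℕ} (hj : v < j)
    (hjK : j < K) : ∃ h ∈ Y, min (K - 1) (v + (Y.filter (fun y => y ≤ h)).card) = j := by
  obtain ⟨h, hh, hcount⟩ := exists_count_le (X := Y) (j - v) (by omega) (by omega)
  exact ⟨h, hh, by omega⟩

lemma halfHigh_line {x v N K : ℕ} {Y : Finset ℕ} (hv : v < K) (hY : ∀ y ∈ Y, x < y ∧ y < N)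
    (hc : K ≤ Y.card + 1 + v) :
    HalfHigh x v N K (fun i => min (K - 1) (v + (Y.filter (fun y => y ≤ i)).card)) where
  mono := by
    intro i j hij
    show min (K - 1) (v + (Y.filter (fun y => y ≤ i)).card) ≤
      min (K - 1) (v + (Y.filter (fun y => y ≤ j)).card)
    have : (Y.filter (fun y => y ≤ i)).card ≤ (Y.filter (fun y => y ≤ j)).card := by
      apply Finset.card_le_card
      intro y hy
      rw [Finset.mem_filter] at hy ⊢
      exact ⟨hy.1, hy.2.trans hij⟩
    omega
  ge := by
    intro i _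
    show v ≤ min (K - 1) (v + (Y.filter (fun y => y ≤ i)).card)
    omega
  lt := by
    intro i _
    show min (K - 1) (v + (Y.filter (fun y => y ≤ i)).card) < K
    omega
  surj := by
    intro j hj hjK
    obtain ⟨h, hh, hcount⟩ := hit_high hc hj hjK
    exact ⟨h, (hY h hh).1, (hY h hh).2, hcount⟩

/-! ## Thin directions -/

section

variable {d t : ℕ}

/-- all elements of `A` lie in one `ℓ`-cross section, or all lie on one line in direction `ℓ` -/
def LevelOrLine (ℓ : Fin d) (A : Finset (Fin d → ℕ)) : Prop :=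
  (∀ p ∈ A, ∀ q ∈ A, p ℓ = q ℓ) ∨ ∀ p ∈ A, ∀ q ∈ A, ∀ j, j ≠ ℓ → p j = q j

/-- some `ℓ`-cross section containing an element of `P` is such that the elements of `P` before it
lie in one `ℓ`-cross section or on one line in direction `ℓ`, and so do the elements after it -/
def Thin (ℓ : Fin d) (P : Finset (Fin d → ℕ)) : Prop :=
  ∃ p₀ ∈ P, LevelOrLine ℓ (P.filter (fun p => p ℓ < p₀ ℓ)) ∧
    LevelOrLine ℓ (P.filter (fun p => p₀ ℓ < p ℓ))

/-- the directions in the list can be removed one after the other, each being thin for the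
projection reached so far -/
def ThinSeq : List (Fin d) → Finset (Fin d → ℕ) → Prop
  | [], _ => True
  | ℓ :: L, P => Thin ℓ P ∧ ThinSeq L (proj ℓ P)

lemma peel_emb_thin {n k : Fin d → ℕ} {S P : Finset (Fin d → ℕ)} (hS : S ⊆ box n)
    (hPk : P ⊆ box k) (ℓ : Fin d) {p₀ : Fin d → ℕ} (hp₀ : p₀ ∈ P) {x : ℕ}
    (hlow : LevelOrLine ℓ (P.filter (fun p => p ℓ < p₀ ℓ)))
    (hhigh : LevelOrLine ℓ (P.filter (fun p => p₀ ℓ < p ℓ)))
    (hE : Emb (Function.update n ℓ 1) (Function.update k ℓ 1)
      (proj ℓ (lev S (n ℓ) ℓ (k ℓ) (p₀ ℓ) x)) (proj ℓ P)) :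
    Emb n k S P := by
  classical
  obtain ⟨φ, hφ, hP⟩ := hE
  set v := p₀ ℓ with hv
  have hvK : v < k ℓ := mem_box.1 (hPk hp₀) ℓ
  have hline : ∀ p ∈ P, ∃ t ∈ lev S (n ℓ) ℓ (k ℓ) v x, ∀ j, j ≠ ℓ → φ j (t j) = p j := by
    intro p hp
    obtain ⟨s, hs, hs'⟩ := hP (Function.update p ℓ 0) (Finset.mem_image_of_mem _ hp)
    obtain ⟨t, ht, rfl⟩ := Finset.mem_image.1 hs
    refine ⟨t, ht, ?_⟩
    intro j hj
    have := hs' j
    simpa [Function.update_of_ne hj] using this
  have hlevel : ∀ t ∈ lev S (n ℓ) ℓ (k ℓ) v x, t ∈ S ∧ t ℓ = x ∧ v ≤ (below S ℓ t).card ∧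
      k ℓ ≤ (above S (n ℓ) ℓ t).card + 1 + v := by
    intro t ht
    simp only [lev, Finset.mem_filter] at ht
    exact ht
  have hx : v ≤ x ∧ x + k ℓ < n ℓ + 1 + v ∧ x < n ℓ := by
    obtain ⟨t, ht, _⟩ := hline p₀ hp₀
    obtain ⟨htS, htx, hb, ha⟩ := hlevel t ht
    have h4 : (below S ℓ t).card ≤ t ℓ := by
      refine (Finset.card_filter_le _ _).trans ?_
      simp
    have h5 : (above S (n ℓ) ℓ t).card ≤ n ℓ - t ℓ - 1 := by
      refine (Finset.card_filter_le _ _).trans ?_
      simp
    have h6 := mem_box.1 (hS htS) ℓ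
    omega
  -- the lower half
  have hL : ∃ f, HalfLow x v f ∧ ∀ p ∈ P, p ℓ < v → ∃ s ∈ S, s ℓ ≤ x ∧ f (s ℓ) = p ℓ ∧
      ∀ j, j ≠ ℓ → φ j (s j) = p j := by
    by_cases hex : ∃ q ∈ P, q ℓ < v
    swap
    · push Not at hex
      obtain ⟨t, ht, _⟩ := hline p₀ hp₀
      obtain ⟨htS, htx, hb, ha⟩ := hlevel t ht
      refine ⟨_, halfLow_line (X := below S ℓ t) ?_ hb, ?_⟩
      · intro y hy
        simp only [below, Finset.mem_filter, Finset.mem_range] at hy
        omega
      · intro p hp hpv
        have := hex p hp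
        omega
    · obtain ⟨q, hq, hqv⟩ := hex
      rcases hlow with hlow | hlow
      · have ha : ∀ p ∈ P, p ℓ < v → p ℓ = q ℓ := fun p hp hpv =>
          hlow p (Finset.mem_filter.2 ⟨hp, hpv⟩) q (Finset.mem_filter.2 ⟨hq, hqv⟩)
        refine ⟨_, halfLow_level hqv hx.1, ?_⟩
        intro p hp hpv
        obtain ⟨t, ht, htj⟩ := hline p hp
        obtain ⟨htS, htx, hb, _⟩ := hlevel t ht
        obtain ⟨h, e1, e2, e3⟩ := exists_below hqv hb
        refine ⟨_, e3, ?_, ?_, ?_⟩
        · rw [Function.update_self]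
          omega
        · rw [Function.update_self, ha p hp hpv]
          show max (min h (q ℓ)) (v - (x - h)) = q ℓ
          omega
        · intro j hj
          rw [Function.update_of_ne hj, htj j hj]
      · have ha : ∀ p ∈ P, p ℓ < v → ∀ j, j ≠ ℓ → p j = q j := fun p hp hpv =>
          hlow p (Finset.mem_filter.2 ⟨hp, hpv⟩) q (Finset.mem_filter.2 ⟨hq, hqv⟩)
        obtain ⟨t, ht, htj⟩ := hline q hq
        obtain ⟨htS, htx, hb, _⟩ := hlevel t ht
        refine ⟨_, halfLow_line (X := below S ℓ t) ?_ hb, ?_⟩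
        · intro y hy
          simp only [below, Finset.mem_filter, Finset.mem_range] at hy
          omega
        · intro p hp hpv
          obtain ⟨h, hh, hcount⟩ := hit_low hb hpv
          simp only [below, Finset.mem_filter, Finset.mem_range] at hh
          refine ⟨_, hh.2, ?_, ?_, ?_⟩
          · rw [Function.update_self]
            omega
          · rw [Function.update_self]
            exact hcount
          · intro j hj
            rw [Function.update_of_ne hj, htj j hj, ha p hp hpv j hj]
  -- the upper half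
  have hU : ∃ g, HalfHigh x v (n ℓ) (k ℓ) g ∧ ∀ p ∈ P, v < p ℓ → ∃ s ∈ S, x < s ℓ ∧
      g (s ℓ) = p ℓ ∧ ∀ j, j ≠ ℓ → φ j (s j) = p j := by
    by_cases hex : ∃ q ∈ P, v < q ℓ
    swap
    · push Not at hex
      obtain ⟨t, ht, _⟩ := hline p₀ hp₀
      obtain ⟨htS, htx, hb, ha⟩ := hlevel t ht
      refine ⟨_, halfHigh_line (Y := above S (n ℓ) ℓ t) hvK ?_ ha, ?_⟩
      · intro y hy
        simp only [above, Finset.mem_filter, Finset.mem_Ioo] at hy
        omega
      · intro p hp hpv
        have := hex p hp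
        omega
    · obtain ⟨q, hq, hqv⟩ := hex
      have hqK : q ℓ < k ℓ := mem_box.1 (hPk hq) ℓ
      rcases hhigh with hhigh | hhigh
      · have ha : ∀ p ∈ P, v < p ℓ → p ℓ = q ℓ := fun p hp hpv =>
          hhigh p (Finset.mem_filter.2 ⟨hp, hpv⟩) q (Finset.mem_filter.2 ⟨hq, hqv⟩)
        refine ⟨_, halfHigh_level hqv hqK hx.2.1, ?_⟩
        intro p hp hpv
        obtain ⟨t, ht, htj⟩ := hline p hp
        obtain ⟨htS, htx, _, hab⟩ := hlevel t ht
        have h6 := mem_box.1 (hS htS) ℓ
        obtain ⟨h, e1, e2, e3, e4⟩ := exists_above hqv hqK h6 hab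
        refine ⟨_, e4, ?_, ?_, ?_⟩
        · rw [Function.update_self]
          omega
        · rw [Function.update_self, ha p hp hpv]
          show min (v + (h - x)) (max (q ℓ) (k ℓ + h - n ℓ)) = q ℓ
          omega
        · intro j hj
          rw [Function.update_of_ne hj, htj j hj]
      · have ha : ∀ p ∈ P, v < p ℓ → ∀ j, j ≠ ℓ → p j = q j := fun p hp hpv =>
          hhigh p (Finset.mem_filter.2 ⟨hp, hpv⟩) q (Finset.mem_filter.2 ⟨hq, hqv⟩)
        obtain ⟨t, ht, htj⟩ := hline q hq
        obtain ⟨htS, htx, _, hab⟩ := hlevel t ht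
        refine ⟨_, halfHigh_line (Y := above S (n ℓ) ℓ t) hvK ?_ hab, ?_⟩
        · intro y hy
          simp only [above, Finset.mem_filter, Finset.mem_Ioo] at hy
          omega
        · intro p hp hpv
          obtain ⟨h, hh, hcount⟩ := hit_high hab hpv (mem_box.1 (hPk hp) ℓ)
          simp only [above, Finset.mem_filter, Finset.mem_Ioo] at hh
          refine ⟨_, hh.2, ?_, ?_, ?_⟩
          · rw [Function.update_self]
            omega
          · rw [Function.update_self]
            exact hcount
          · intro j hj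
            rw [Function.update_of_ne hj, htj j hj, ha p hp hpv j hj]
  obtain ⟨f, hf, hfhit⟩ := hL
  obtain ⟨g, hg, hghit⟩ := hU
  refine ⟨fun j => if j = ℓ then (fun i => if i ≤ x then f i else g i) else φ j, ?_, ?_⟩
  · intro j
    by_cases hj : j = ℓ
    · subst hj
      simp only [if_true]
      exact onto_glue hf hg hx.2.2 hvK
    · simp only [hj, if_false]
      exact (hφ j).congr (Function.update_of_ne hj _ _) (Function.update_of_ne hj _ _)
  · intro p hp
    have main : ∀ s ∈ S, (if s ℓ ≤ x then f (s ℓ) else g (s ℓ)) = p ℓ →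
        (∀ j, j ≠ ℓ → φ j (s j) = p j) → ∃ s ∈ S, ∀ j,
          (if j = ℓ then (fun i => if i ≤ x then f i else g i) else φ j) (s j) = p j := by
      intro s hs h1 h2
      refine ⟨s, hs, ?_⟩
      intro j
      by_cases hj : j = ℓ
      · subst hj
        simp only [if_true]
        exact h1
      · simp only [hj, if_false]
        exact h2 j hj
    rcases Nat.lt_trichotomy (p ℓ) v with c | c | c
    · obtain ⟨s, hs, h1, h2, h3⟩ := hfhit p hp c
      apply main s hs _ h3
      rw [if_pos h1]
      exact h2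
    · obtain ⟨t, ht, htj⟩ := hline p hp
      obtain ⟨htS, htx, _, _⟩ := hlevel t ht
      apply main t htS _ htj
      rw [htx, if_pos (le_refl x), hf.top, c]
    · obtain ⟨s, hs, h1, h2, h3⟩ := hghit p hp c
      apply main s hs _ h3
      rw [if_neg (by omega)]
      exact h2

end

end Pool.Agent.Helper450IM
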