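import Pool.Agent.helper450_im.ThinReduce
import Pool.Agent.helper450_im.HalfAll

/-!
# Oscillation bound for patterns with a two-dimensional reduction
-/

namespace Pool.Agent.Helper450IM

open Finset Filter Topology

lemma one_le_oscFactor (R : Mat 2) : 1 ≤ oscFactor R := by
  unfold oscFactor
  split_ifs
  · exact le_max_left _ _
  · exact le_max_left _ _

theorem thin_osc {d : ℕ} {e : Fin 2 → Fin d} {P : Mat d} {R : Mat 2} (h : ThinReduction e P R)
    (hP : P.ones.Nonempty) :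
    ∃ C : ℝ, ∀ ε > 0, ∀ᶠ n : ℕ in atTop, C - ε ≤ (m n P : ℝ) / (n : ℝ) ^ (d - 1) ∧
      (m n P : ℝ) / (n : ℝ) ^ (d - 1) ≤ oscFactor R * C + ε := by
  obtain ⟨C, hC, h1, h2⟩ := osc_factor R
  have hK := one_le_oscFactor R
  have ht := thin_tendsto (by norm_num) h hP
  set σ := ∑ ℓ ∈ outside e, ((P.size ℓ : ℝ) - 1) with hσ
  have hσ0 : 0 ≤ σ := by
    apply Finset.sum_nonneg
    intro ℓ _
    have : (1 : ℝ) ≤ P.size ℓ := by exact_mod_cast Mat.size_pos hP ℓ
    linarith
  refine ⟨C + σ, fun ε hε => ?_⟩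
  filter_upwards [h1 (ε / 2) (by linarith), h2 (ε / 2) (by linarith),
    ht.eventually (lt_mem_nhds (show σ - ε / 2 < σ by linarith)),
    ht.eventually (gt_mem_nhds (show σ < σ + ε / 2 by linarith))] with n g1 g2 g3 g4
  have e1 : (n : ℝ) ^ (2 - 1) = n := by norm_num
  rw [e1] at g3 g4
  constructor
  · linarith
  · nlinarith

end Pool.Agent.Helper450IM
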