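import Pool.Agent.helper450_im.Thin
import Pool.Agent.helper450_im.ReduceLimit

/-!
# Reduction along thin directions
-/

namespace Pool.Agent.Helper450IM

open Finset Filter Topology

section

variable {d t : ℕ}

/-- The upper bound. -/
lemma upperL {e : Fin t → Fin d} (he : Function.Injective e) (M : ℕ) (L : List (Fin d)) :
    ∀ (n k : Fin d → ℕ) (P S : Finset (Fin d → ℕ)),
    P.Nonempty → P ⊆ box k → ThinSeq L P → (∀ ℓ ∈ L, ℓ ∈ outside e) →
    (∀ ℓ ∈ outside e, ℓ ∉ L → n ℓ = 1 ∧ k ℓ = 1) → S ⊆ box n → ¬ Emb n k S P →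
    (∀ S' ⊆ box (fun i => n (e i)), ¬ Emb (fun i => n (e i)) (fun i => k (e i)) S'
      (P.image (fun p i => p (e i))) → S'.card ≤ M) →
    S.card + (∏ ℓ ∈ outside e, (n ℓ + 1 - k ℓ)) * (∏ i, n (e i) - M) ≤ ∏ ℓ, n ℓ := by
  classical
  induction L with
  | nil =>
    intro n k P S hP0 hPk _ _ hD hS hE hM
    have hD' : ∀ ℓ ∈ outside e, n ℓ = 1 ∧ k ℓ = 1 := fun ℓ hℓ => hD ℓ hℓ (by simp)
    have h1 : (S.image (fun s i => s (e i))).card ≤ M := by
      apply hM _ (image_comp_box hS)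
      intro hcon
      exact hE (emb_of_comp he hD' hS hPk hcon)
    have h2 : (S.image (fun (s : Fin d → ℕ) (i : Fin t) => s (e i))).card = S.card := by
      apply Finset.card_image_of_injOn
      intro s hs s' hs' hss
      funext ℓ
      by_cases hℓ : ∃ i, e i = ℓ
      · obtain ⟨i, rfl⟩ := hℓ
        exact congrFun hss i
      · have e1 := hD' ℓ (mem_outside.2 (fun i hi => hℓ ⟨i, hi⟩))
        have e2 := mem_box.1 (hS hs) ℓ
        have e3 := mem_box.1 (hS hs') ℓ
        omega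
    have h3 : S.card ≤ ∏ ℓ, n ℓ := by
      rw [← card_box]
      exact Finset.card_le_card hS
    have h4 : ∏ ℓ ∈ outside e, (n ℓ + 1 - k ℓ) = 1 := by
      apply Finset.prod_eq_one
      intro ℓ hℓ
      have := hD' ℓ hℓ
      omega
    have h5 : ∏ ℓ, n ℓ = ∏ i, n (e i) := by
      rw [prod_split he n]
      have : ∏ ℓ ∈ outside e, n ℓ = 1 := Finset.prod_eq_one (fun ℓ hℓ => (hD' ℓ hℓ).1)
      rw [this, one_mul]
    rw [h4, one_mul, h5]
    rw [h5] at h3
    omega
  | cons ℓ L ih =>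
    intro n k P S hP0 hPk hthin hout hD hS hE hM
    obtain ⟨⟨p₀, hp₀, hlow, hhigh⟩, hseq⟩ := hthin
    have hℓ0 : ℓ ∈ outside e := hout ℓ (by simp)
    have hℓe := mem_outside.1 hℓ0
    set v := p₀ ℓ with hv
    have hvk : v < k ℓ := mem_box.1 (hPk hp₀) ℓ
    have hQ0 : (proj ℓ P).Nonempty := hP0.image _
    set n' := Function.update n ℓ 1 with hn'
    set k' := Function.update k ℓ 1 with hk'
    have hne' : (fun i => n' (e i)) = (fun i => n (e i)) := by
      funext i
      rw [hn', Function.update_of_ne (hℓe i)]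
    have hke' : (fun i => k' (e i)) = (fun i => k (e i)) := by
      funext i
      rw [hk', Function.update_of_ne (hℓe i)]
    have hPe' : (proj ℓ P).image (fun (p : Fin d → ℕ) (i : Fin t) => p (e i)) =
        P.image (fun (p : Fin d → ℕ) (i : Fin t) => p (e i)) := by
      rw [proj, Finset.image_image]
      apply Finset.image_congr
      intro x _
      funext i
      simp [Function.update_of_ne (hℓe i)]
    have hprodne : ∏ i, n' (e i) = ∏ i, n (e i) :=
      Finset.prod_congr rfl (fun i _ => congrFun hne' i)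
    have hlev : ∀ x, (lev S (n ℓ) ℓ (k ℓ) v x).card +
        (∏ j ∈ outside e, (n' j + 1 - k' j)) * (∏ i, n (e i) - M) ≤ ∏ j, n' j := by
      intro x
      rw [← card_proj_lev, ← hprodne]
      apply ih n' k' (proj ℓ P) (proj ℓ (lev S (n ℓ) ℓ (k ℓ) v x)) hQ0 (proj_subset hPk ℓ) hseq
      · intro j hj
        exact hout j (List.mem_cons_of_mem _ hj)
      · intro j hj hjL
        by_cases hjl : j = ℓ
        · subst hjl; simp [hn', hk']
        · simp only [hn', hk', Function.update_of_ne hjl]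
          apply hD j hj
          rw [List.mem_cons]
          push Not
          exact ⟨hjl, hjL⟩
      · apply proj_subset
        exact (Finset.filter_subset _ _).trans hS
      · intro hE'
        exact hE (peel_emb_thin hS hPk ℓ hp₀ hlow hhigh hE')
      · rw [hne', hke', hPe']
        exact hM
    have hpc := peel_card (M := ∏ j, n' j -
        (∏ j ∈ outside e, (n' j + 1 - k' j)) * (∏ i, n (e i) - M)) hS ℓ hvk
      (fun x => by have := hlev x; omega)
    have hle : (∏ j ∈ outside e, (n' j + 1 - k' j)) * (∏ i, n (e i) - M) ≤ ∏ j, n' j := by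
      have := hlev 0
      omega
    have hsplit : ∏ j ∈ outside e, (n j + 1 - k j) =
        (n ℓ + 1 - k ℓ) * ∏ j ∈ outside e, (n' j + 1 - k' j) := by
      rw [← Finset.mul_prod_erase (outside e) (fun j => n j + 1 - k j) hℓ0,
        ← Finset.mul_prod_erase (outside e) (fun j => n' j + 1 - k' j) hℓ0]
      have e1 : n' ℓ + 1 - k' ℓ = 1 := by simp [hn', hk']
      rw [e1, one_mul]
      congr 1
      apply Finset.prod_congr rfl
      intro j hj
      have hjl : j ≠ ℓ := Finset.ne_of_mem_erase hj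
      simp [hn', hk', Function.update_of_ne hjl]
    rw [prod_update n ℓ, hsplit, Nat.mul_assoc]
    rw [← hn'] at hpc ⊢
    set A := ∏ j, n' j
    set B := (∏ j ∈ outside e, (n' j + 1 - k' j)) * (∏ i, n (e i) - M)
    obtain ⟨C, hC⟩ := Nat.exists_eq_add_of_le hle
    have hAB : A - B = C := by omega
    rw [hAB] at hpc
    have hkpos : 0 < k ℓ := lt_of_le_of_lt (Nat.zero_le _) hvk
    by_cases hnk : k ℓ ≤ n ℓ + 1
    · obtain ⟨f, hf⟩ := Nat.exists_eq_add_of_le hnk
      have hf' : n ℓ + 1 - k ℓ = f := by omega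
      rw [hf'] at hpc ⊢
      have hn2 : n ℓ = (k ℓ - 1) + f := by omega
      calc S.card + f * B ≤ A * (k ℓ - 1) + f * C + f * B := by omega
        _ = A * (k ℓ - 1) + f * A := by rw [hC]; ring
        _ = n ℓ * A := by rw [hn2]; ring
    · have hf' : n ℓ + 1 - k ℓ = 0 := by omega
      rw [hf']
      have h2 : S.card ≤ ∏ ℓ, n ℓ := by
        rw [← card_box]
        exact Finset.card_le_card hS
      rw [prod_update n ℓ, ← hn'] at h2
      rw [Nat.zero_mul, Nat.add_zero]
      exact h2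

/-- The upper bound for the extremal function. -/
theorem maxOnes_upperL {e : Fin t → Fin d} (he : Function.Injective e) {P : Mat d} {R : Mat t}
    (hP : P.ones.Nonempty) (hsize : ∀ i, R.size i = P.size (e i))
    (hones : R.ones = P.ones.image (fun p i => p (e i)))
    {L : List (Fin d)} (hL : ∀ ℓ, ℓ ∈ L ↔ ℓ ∈ outside e) (hthin : ThinSeq L P.ones)
    (n : Fin d → ℕ) :
    maxOnes n P + (∏ ℓ ∈ outside e, (n ℓ + 1 - P.size ℓ)) *
      (∏ i, n (e i) - maxOnes (fun i => n (e i)) R) ≤ ∏ ℓ, n ℓ := by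
  obtain ⟨S, hS, hE, hcard⟩ := exists_maxOnes n hP
  rw [← hcard]
  have hR : R.ones.Nonempty := by
    rw [hones]
    exact hP.image _
  have hsz : R.size = fun i => P.size (e i) := funext hsize
  apply upperL he _ L n P.size P.ones S hP P.ones_subset hthin (fun ℓ hℓ => (hL ℓ).1 hℓ)
    (fun ℓ hℓ hn => absurd ((hL ℓ).2 hℓ) hn) hS hE
  intro S' hS' hE'
  apply card_le_maxOnes hR hS'
  rw [hsz, hones]
  exact hE'

/-- `R` is the projection of `P` to the directions in the image of the injective map `e`; the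
other directions can be listed so that each is thin for the projection of `P` that forgets the
earlier ones; and for some position `c` every one of `P` can be moved to `c` outside the image of
`e` and stays a one. -/
structure ThinReduction (e : Fin t → Fin d) (P : Mat d) (R : Mat t) : Prop where
  inj : Function.Injective e
  size_eq : ∀ i, R.size i = P.size (e i)
  ones_eq : R.ones = P.ones.image (fun p i => p (e i))
  thin : ∃ L : List (Fin d), (∀ ℓ, ℓ ∈ L ↔ ∀ i, e i ≠ ℓ) ∧ ThinSeq L P.ones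
  core : ∃ c : Fin d → ℕ, ∀ p ∈ P.ones, ∃ q ∈ P.ones, (∀ i, q (e i) = p (e i)) ∧
    ∀ ℓ, (∀ i, e i ≠ ℓ) → q ℓ = c ℓ

lemma ThinReduction.nonempty {e : Fin t → Fin d} {P : Mat d} {R : Mat t}
    (h : ThinReduction e P R) (hP : P.ones.Nonempty) : R.ones.Nonempty := by
  rw [h.ones_eq]
  exact hP.image _

lemma ThinReduction.core' {e : Fin t → Fin d} {P : Mat d} {R : Mat t}
    (h : ThinReduction e P R) : ∃ c : Fin d → ℕ, ∀ r ∈ R.ones, ∃ q ∈ P.ones,
      (∀ i, q (e i) = r i) ∧ ∀ ℓ ∈ outside e, q ℓ = c ℓ := by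
  obtain ⟨c, hc⟩ := h.core
  refine ⟨c, ?_⟩
  intro r hr
  rw [h.ones_eq, Finset.mem_image] at hr
  obtain ⟨p, hp, rfl⟩ := hr
  obtain ⟨q, hq, h1, h2⟩ := hc p hp
  exact ⟨q, hq, h1, fun ℓ hℓ => h2 ℓ (mem_outside.1 hℓ)⟩

/-- the exact form of the reduction -/
theorem thin_exact {e : Fin t → Fin d} {P : Mat d} {R : Mat t} (h : ThinReduction e P R)
    (hP : P.ones.Nonempty) (n : Fin d → ℕ) :
    maxOnes n P + (∏ ℓ ∈ outside e, (n ℓ + 1 - P.size ℓ)) *
      (∏ i, n (e i) - maxOnes (fun i => n (e i)) R) = ∏ ℓ, n ℓ := by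
  obtain ⟨L, hL, hthin⟩ := h.thin
  obtain ⟨c, hc⟩ := h.core'
  exact le_antisymm (maxOnes_upperL h.inj hP h.size_eq h.ones_eq
    (fun ℓ => (hL ℓ).trans mem_outside.symm) hthin n)
    (maxOnes_lowerT h.inj hP (h.nonempty hP) h.size_eq hc n)

/-- the normalised form of the reduction -/
theorem thin_tendsto {e : Fin t → Fin d} (ht : 0 < t) {P : Mat d} {R : Mat t}
    (h : ThinReduction e P R) (hP : P.ones.Nonempty) :
    Tendsto (fun n : ℕ => (m n P : ℝ) / (n : ℝ) ^ (d - 1) - (m n R : ℝ) / (n : ℝ) ^ (t - 1))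
      atTop (𝓝 (∑ ℓ ∈ outside e, ((P.size ℓ : ℝ) - 1))) := by
  have hR := h.nonempty hP
  refine (cmpVal_sub ht P hR).congr' ?_
  filter_upwards [eventually_gt_atTop 0, eventually_size_le P] with n hn hk
  have hn' : (0 : ℝ) < n := by exact_mod_cast hn
  have h1 := thin_exact h hP (fun _ => n)
  have h2 := cmpVal_eq ht h.inj hR hn (fun ℓ _ => hk ℓ) (P := P)
  have h4 : ∏ _ℓ : Fin d, n = n ^ d := by simp
  rw [h4] at h1
  have h5 : ((maxOnes (fun _ : Fin d => n) P : ℕ) : ℝ) +
      (((∏ ℓ ∈ outside e, (n + 1 - P.size ℓ)) *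
        (∏ _i : Fin t, n - maxOnes (fun _ : Fin t => n) R) : ℕ) : ℝ) = (n : ℝ) ^ d := by
    exact_mod_cast h1
  have hm : (maxOnes (fun _ : Fin d => n) P : ℝ) = (m n P : ℝ) := rfl
  rw [hm] at h5
  have h6 : cmpVal e P R n = (m n P : ℝ) / (n : ℝ) ^ (d - 1) := by
    rw [eq_div_iff (by positivity), h2]
    linarith
  rw [h6]

/-- the exact value when a single direction remains -/
theorem thin_frame {P : Mat d} (hP : P.ones.Nonempty) (ℓ₀ : Fin d)
    (hthin : ∃ L : List (Fin d), (∀ ℓ, ℓ ∈ L ↔ ℓ ≠ ℓ₀) ∧ ThinSeq L P.ones) (n : Fin d → ℕ) :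
    maxOnes n P = ∏ ℓ, n ℓ - ∏ ℓ, (n ℓ + 1 - P.size ℓ) := by
  classical
  apply le_antisymm _ (frame_le hP)
  obtain ⟨L, hL, hseq⟩ := hthin
  set e : Fin 1 → Fin d := fun _ => ℓ₀ with he
  have hinj : Function.Injective e := fun i j _ => Subsingleton.elim i j
  set R : Mat 1 := ⟨fun i => P.size (e i), P.ones.image (fun p i => p (e i)), by
    intro x hx i
    obtain ⟨p, hp, rfl⟩ := Finset.mem_image.1 hx
    exact P.inBox p hp (e i)⟩ with hRdef
  have hR : R.ones.Nonempty := hP.image _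
  have hLe : ∀ ℓ, ℓ ∈ L ↔ ℓ ∈ outside e := by
    intro ℓ
    rw [hL ℓ, mem_outside]
    constructor
    · intro h i hi
      exact h hi.symm
    · intro h hi
      exact h 0 hi.symm
  have h1 := maxOnes_upperL (R := R) hinj hP (fun _ => rfl) rfl hLe hseq n
  have hk : 0 < P.size ℓ₀ := Mat.size_pos hP ℓ₀
  have h2 : maxOnes (fun i => n (e i)) R ≤ P.size ℓ₀ - 1 := by
    apply maxOnes_le hR
    intro S hS hE
    by_contra hcon
    apply hE
    have : R.size 0 ≤ S.card := by
      show P.size ℓ₀ ≤ S.card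
      omega
    exact line_emb (0 : Fin 1) (fun ℓ hℓ => absurd (Subsingleton.elim ℓ 0) hℓ) hk hS
      R.ones_subset this
  have h3 : ∏ ℓ, (n ℓ + 1 - P.size ℓ) =
      (∏ ℓ ∈ outside e, (n ℓ + 1 - P.size ℓ)) * (n ℓ₀ + 1 - P.size ℓ₀) := by
    rw [prod_split hinj (fun ℓ => n ℓ + 1 - P.size ℓ)]
    simp [he]
  have h4 : n ℓ₀ + 1 - P.size ℓ₀ ≤ ∏ i, n (e i) - maxOnes (fun i => n (e i)) R := by
    have : ∏ i, n (e i) = n ℓ₀ := by simp [he]
    rw [this]
    omega
  have h5 := Nat.mul_le_mul_left (∏ ℓ ∈ outside e, (n ℓ + 1 - P.size ℓ)) h4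
  rw [← h3] at h5
  omega

/-- at most three levels: thin -/
lemma thin_of_three {ℓ : Fin d} {P : Finset (Fin d → ℕ)} (hP : P.Nonempty)
    (h : (P.image (fun x => x ℓ)).card ≤ 3) : Thin ℓ P := by
  obtain ⟨v1, v, v3, hv1, hv3, m1, m, m3, hall⟩ := three_levels (hP.image _) h
  obtain ⟨p₀, hp₀, hv⟩ := Finset.mem_image.1 m
  refine ⟨p₀, hp₀, Or.inl ?_, Or.inl ?_⟩
  · have h1 : ∀ p ∈ P.filter (fun p => p ℓ < p₀ ℓ), p ℓ = v1 := by
      intro p hp
      rw [Finset.mem_filter] at hp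
      rcases hall _ (Finset.mem_image_of_mem _ hp.1) with h | h | h <;> omega
    intro p hp q hq
    rw [h1 p hp, h1 q hq]
  · have h1 : ∀ p ∈ P.filter (fun p => p₀ ℓ < p ℓ), p ℓ = v3 := by
      intro p hp
      rw [Finset.mem_filter] at hp
      rcases hall _ (Finset.mem_image_of_mem _ hp.1) with h | h | h <;> omega
    intro p hp q hq
    rw [h1 p hp, h1 q hq]

end

end Pool.Agent.Helper450IM
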