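import Pool.Agent.helper450_im.Criterion

/-!
# Deleting zero cross sections at the boundary of the pattern
-/

namespace Pool.Agent.Helper450IM

open Finset Filter Topology

section

variable {d : ℕ}

/-- the sequence `m(n,P,d) / n^(d-1)` converges -/
def Conv {d : ℕ} (P : Mat d) : Prop :=
  ∃ L : ℝ, Tendsto (fun n : ℕ => (m n P : ℝ) / (n : ℝ) ^ (d - 1)) atTop (𝓝 L)

/-- translation by `r` -/
def shift (r : Fin d → ℕ) (S : Finset (Fin d → ℕ)) : Finset (Fin d → ℕ) :=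
  S.image (fun x => fun ℓ => x ℓ + r ℓ)

lemma card_shift (r : Fin d → ℕ) (S : Finset (Fin d → ℕ)) : (shift r S).card = S.card := by
  apply Finset.card_image_of_injective
  intro x y h
  funext ℓ
  have := congrFun h ℓ
  simpa using this

/-- the inner box after removing `a` low and `b` high cross sections -/
def innerBox (a n : Fin d → ℕ) : Finset (Fin d → ℕ) :=
  Fintype.piFinset (fun ℓ => Finset.Ico (a ℓ) (a ℓ + n ℓ))

lemma innerBox_eq (a n : Fin d → ℕ) : innerBox a n = shift a (box n) := by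
  ext x
  simp only [innerBox, Fintype.mem_piFinset, Finset.mem_Ico, shift, Finset.mem_image]
  constructor
  · intro h
    refine ⟨fun ℓ => x ℓ - a ℓ, mem_box.2 (fun ℓ => ?_), ?_⟩
    · have := h ℓ
      show x ℓ - a ℓ < n ℓ
      omega
    · funext ℓ
      have := h ℓ
      show x ℓ - a ℓ + a ℓ = x ℓ
      omega
  · rintro ⟨y, hy, rfl⟩ ℓ
    have := mem_box.1 hy ℓ
    show a ℓ ≤ y ℓ + a ℓ ∧ y ℓ + a ℓ < a ℓ + n ℓ
    omega

/-- extending the pattern by zero cross sections at the boundary: upper bound -/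
lemma trim_upper {n a b k N K : Fin d → ℕ} {P S : Finset (Fin d → ℕ)}
    (hN : ∀ ℓ, N ℓ = a ℓ + n ℓ + b ℓ) (hK : ∀ ℓ, K ℓ = a ℓ + k ℓ + b ℓ)
    (hE : ¬ Emb N K S (shift a P)) :
    ¬ Emb n k ((box n).filter (fun x => (fun ℓ => x ℓ + a ℓ) ∈ S)) P := by
  rintro ⟨φ, hφ, hP⟩
  apply hE
  refine ⟨fun ℓ i => if i < a ℓ then i else if i < a ℓ + n ℓ then a ℓ + φ ℓ (i - a ℓ)
    else i - n ℓ + k ℓ, ?_, ?_⟩
  · intro ℓ
    have hk := (hφ ℓ).k_le
    have hN' := hN ℓ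
    have hK' := hK ℓ
    refine ⟨?_, ?_, ?_⟩
    · intro i j hij
      show (if i < a ℓ then i else if i < a ℓ + n ℓ then a ℓ + φ ℓ (i - a ℓ)
        else i - n ℓ + k ℓ) ≤ (if j < a ℓ then j else if j < a ℓ + n ℓ then a ℓ + φ ℓ (j - a ℓ)
        else j - n ℓ + k ℓ)
      have h1 : ∀ i, i - a ℓ < n ℓ → φ ℓ (i - a ℓ) < k ℓ := fun i hi => (hφ ℓ).lt _ hi
      have h2 : φ ℓ (i - a ℓ) ≤ φ ℓ (j - a ℓ) := (hφ ℓ).mono (by omega)
      have h3 := h1 i
      split_ifs <;> omega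
    · intro i hi
      show (if i < a ℓ then i else if i < a ℓ + n ℓ then a ℓ + φ ℓ (i - a ℓ)
        else i - n ℓ + k ℓ) < K ℓ
      have h1 : i - a ℓ < n ℓ → φ ℓ (i - a ℓ) < k ℓ := fun hi => (hφ ℓ).lt _ hi
      split_ifs <;> omega
    · intro j hj
      by_cases c1 : j < a ℓ
      · exact ⟨j, by omega, by simp [c1]⟩
      · by_cases c2 : j < a ℓ + k ℓ
        · obtain ⟨i, hi, hi'⟩ := (hφ ℓ).surj (j - a ℓ) (by omega)
          refine ⟨a ℓ + i, by omega, ?_⟩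
          have e1 : ¬ (a ℓ + i < a ℓ) := by omega
          have e2 : a ℓ + i < a ℓ + n ℓ := by omega
          simp only [e1, if_false, e2, if_true]
          have e3 : a ℓ + i - a ℓ = i := by omega
          rw [e3, hi']
          omega
        · refine ⟨j - k ℓ + n ℓ, by omega, ?_⟩
          have e1 : ¬ (j - k ℓ + n ℓ < a ℓ) := by omega
          have e2 : ¬ (j - k ℓ + n ℓ < a ℓ + n ℓ) := by omega
          simp only [e1, if_false, e2]
          omega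
  · intro p hp
    obtain ⟨q, hq, rfl⟩ := Finset.mem_image.1 hp
    obtain ⟨s, hs, hs'⟩ := hP q hq
    rw [Finset.mem_filter, mem_box] at hs
    refine ⟨_, hs.2, ?_⟩
    intro ℓ
    have e1 : ¬ (s ℓ + a ℓ < a ℓ) := by omega
    have e2 : s ℓ + a ℓ < a ℓ + n ℓ := by
      have := hs.1 ℓ
      omega
    simp only [e1, if_false, e2, if_true]
    have e3 : s ℓ + a ℓ - a ℓ = s ℓ := by omega
    rw [e3, hs' ℓ]
    omega

/-- extending the pattern by zero cross sections at the boundary: lower bound -/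
lemma trim_lower {n a b k N K : Fin d → ℕ} {P S : Finset (Fin d → ℕ)} (hspan : Spans k P)
    (hN : ∀ ℓ, N ℓ = a ℓ + n ℓ + b ℓ) (hK : ∀ ℓ, K ℓ = a ℓ + k ℓ + b ℓ)
    (hPk : P ⊆ box k) (hS : S ⊆ box n) (hE : ¬ Emb n k S P) :
    ¬ Emb N K ((box N \ innerBox a n) ∪ shift a S) (shift a P) := by
  rintro ⟨φ, hφ, hP⟩
  apply hE
  have hhost : ∀ p ∈ P, ∃ s ∈ S, ∀ ℓ, φ ℓ (s ℓ + a ℓ) = p ℓ + a ℓ := by
    intro p hp
    obtain ⟨s, hs, hs'⟩ := hP _ (Finset.mem_image_of_mem _ hp)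
    rw [Finset.mem_union] at hs
    rcases hs with hs | hs
    · exfalso
      rw [Finset.mem_sdiff] at hs
      apply hs.2
      simp only [innerBox, Fintype.mem_piFinset, Finset.mem_Ico]
      intro ℓ
      have h1 := mem_box.1 hs.1 ℓ
      have h2 := (hφ ℓ).le _ h1
      have h3 := (hφ ℓ).ge _ h1
      have h4 : φ ℓ (s ℓ) = p ℓ + a ℓ := hs' ℓ
      have h5 := mem_box.1 (hPk hp) ℓ
      have hN' := hN ℓ
      have hK' := hK ℓ
      omega
    · obtain ⟨q, hq, rfl⟩ := Finset.mem_image.1 hs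
      exact ⟨q, hq, hs'⟩
  refine ⟨fun ℓ i => min (φ ℓ (i + a ℓ) - a ℓ) (k ℓ - 1), ?_, ?_⟩
  · intro ℓ
    have hpos := hspan.pos ℓ
    have hstep : ∀ i, i + 1 < n ℓ → min (φ ℓ (i + 1 + a ℓ) - a ℓ) (k ℓ - 1) ≤
        min (φ ℓ (i + a ℓ) - a ℓ) (k ℓ - 1) + 1 := by
      intro i hi
      have h1 := (hφ ℓ).succ_le (i + a ℓ) (by have := hN ℓ; omega)
      have h2 : i + 1 + a ℓ = i + a ℓ + 1 := by ring
      rw [h2]
      omega
    have hzero : min (φ ℓ (0 + a ℓ) - a ℓ) (k ℓ - 1) = 0 := by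
      obtain ⟨p, hp, hp'⟩ := (hspan ℓ).1
      obtain ⟨s, hs, hs'⟩ := hhost p hp
      have h1 := hs' ℓ
      have h2 := (hφ ℓ).mono (show 0 + a ℓ ≤ s ℓ + a ℓ by omega)
      omega
    refine onto_of_steps ?_ hzero hstep ?_ ?_
    · intro i j hij
      have := (hφ ℓ).mono (show i + a ℓ ≤ j + a ℓ by omega)
      show min _ _ ≤ min _ _
      omega
    · obtain ⟨p, hp, hp'⟩ := (hspan ℓ).2
      obtain ⟨s, hs, hs'⟩ := hhost p hp
      refine ⟨s ℓ, mem_box.1 (hS hs) ℓ, ?_⟩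
      have h1 := hs' ℓ
      show min _ _ + 1 = k ℓ
      omega
    · intro i _
      show min _ _ < k ℓ
      omega
  · intro p hp
    obtain ⟨s, hs, hs'⟩ := hhost p hp
    refine ⟨s, hs, ?_⟩
    intro ℓ
    have h1 := hs' ℓ
    have h2 := mem_box.1 (hPk hp) ℓ
    show min _ _ = _
    omega

/-- The pattern `P₀` surrounded by `a` low and `b` high zero cross sections. -/
def pad (a b : Fin d → ℕ) (P₀ : Mat d) : Mat d where
  size := fun ℓ => a ℓ + P₀.size ℓ + b ℓ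
  ones := shift a P₀.ones
  inBox := by
    intro x hx ℓ
    obtain ⟨y, hy, rfl⟩ := Finset.mem_image.1 hx
    have := P₀.inBox y hy ℓ
    show y ℓ + a ℓ < a ℓ + P₀.size ℓ + b ℓ
    omega

lemma pad_nonempty {a b : Fin d → ℕ} {P₀ : Mat d} (h : P₀.ones.Nonempty) :
    (pad a b P₀).ones.Nonempty := h.image _

theorem maxOnes_pad {n a b : Fin d → ℕ} {P₀ : Mat d} (h0 : P₀.ones.Nonempty)
    (hspan : Spans P₀.size P₀.ones) :
    maxOnes (fun ℓ => a ℓ + n ℓ + b ℓ) (pad a b P₀) + ∏ ℓ, n ℓ =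
      ∏ ℓ, (a ℓ + n ℓ + b ℓ) + maxOnes n P₀ := by
  have hsub : innerBox a n ⊆ box (fun ℓ => a ℓ + n ℓ + b ℓ) := by
    intro x hx
    simp only [innerBox, Fintype.mem_piFinset, Finset.mem_Ico] at hx
    rw [mem_box]
    intro ℓ
    have := hx ℓ
    omega
  have hcin : (innerBox a n).card = ∏ ℓ, n ℓ := by
    rw [innerBox_eq, card_shift, card_box]
  have hle : ∏ ℓ, n ℓ ≤ ∏ ℓ, (a ℓ + n ℓ + b ℓ) := by
    apply Finset.prod_le_prod'
    intro ℓ _
    omega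
  apply le_antisymm
  · -- upper bound
    obtain ⟨S, hS, hE, hc⟩ := exists_maxOnes (fun ℓ => a ℓ + n ℓ + b ℓ)
      (pad_nonempty (a := a) (b := b) h0)
    rw [← hc]
    have h1 : S ⊆ (box (fun ℓ => a ℓ + n ℓ + b ℓ) \ innerBox a n) ∪
        shift a ((box n).filter (fun x => (fun ℓ => x ℓ + a ℓ) ∈ S)) := by
      intro x hx
      rw [Finset.mem_union]
      by_cases hxi : x ∈ innerBox a n
      · right
        rw [innerBox_eq] at hxi
        obtain ⟨y, hy, rfl⟩ := Finset.mem_image.1 hxi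
        apply Finset.mem_image_of_mem
        rw [Finset.mem_filter]
        exact ⟨hy, hx⟩
      · left
        rw [Finset.mem_sdiff]
        exact ⟨hS hx, hxi⟩
    have h2 := (Finset.card_le_card h1).trans (Finset.card_union_le _ _)
    rw [Finset.card_sdiff_of_subset hsub, card_box, hcin, card_shift] at h2
    have h3 : ((box n).filter (fun x => (fun ℓ => x ℓ + a ℓ) ∈ S)).card ≤ maxOnes n P₀ :=
      card_le_maxOnes h0 (Finset.filter_subset _ _)
        (trim_upper (b := b) (fun _ => rfl) (fun _ => rfl) hE)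
    omega
  · obtain ⟨S, hS, hE, hc⟩ := exists_maxOnes n h0
    rw [← hc]
    have hE' := trim_lower (a := a) (b := b) (N := fun ℓ => a ℓ + n ℓ + b ℓ)
      (K := fun ℓ => a ℓ + P₀.size ℓ + b ℓ) hspan (fun _ => rfl) (fun _ => rfl)
      P₀.ones_subset hS hE
    have hsub2 : (box (fun ℓ => a ℓ + n ℓ + b ℓ) \ innerBox a n) ∪ shift a S ⊆
        box (fun ℓ => a ℓ + n ℓ + b ℓ) := by
      apply Finset.union_subset Finset.sdiff_subset
      intro x hx
      apply hsub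
      rw [innerBox_eq]
      obtain ⟨y, hy, rfl⟩ := Finset.mem_image.1 hx
      exact Finset.mem_image_of_mem _ (hS hy)
    have h1 := card_le_maxOnes (P := pad a b P₀) (pad_nonempty h0) hsub2 hE'
    have hdisj : Disjoint (box (fun ℓ => a ℓ + n ℓ + b ℓ) \ innerBox a n) (shift a S) := by
      rw [Finset.disjoint_left]
      intro x hx hx'
      rw [Finset.mem_sdiff] at hx
      apply hx.2
      rw [innerBox_eq]
      obtain ⟨y, hy, rfl⟩ := Finset.mem_image.1 hx'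
      exact Finset.mem_image_of_mem _ (hS hy)
    rw [Finset.card_union_of_disjoint hdisj, Finset.card_sdiff_of_subset hsub, card_box, hcin,
      card_shift] at h1
    omega

/-- Convergence is not affected by zero cross sections at the boundary. -/
theorem converges_pad (hd : 0 < d) {a b : Fin d → ℕ} {P₀ : Mat d} (h0 : P₀.ones.Nonempty)
    (hspan : Spans P₀.size P₀.ones) (hconv : Conv P₀) : Conv (pad a b P₀) := by
  obtain ⟨L, hL⟩ := hconv
  obtain ⟨R, hR⟩ : ∃ R, ∀ ℓ, a ℓ + b ℓ ≤ R := by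
    refine ⟨∑ ℓ, (a ℓ + b ℓ), ?_⟩
    intro ℓ
    exact Finset.single_le_sum (f := fun ℓ => a ℓ + b ℓ) (fun _ _ => Nat.zero_le _)
      (Finset.mem_univ ℓ)
  -- the main formula for large `n`
  have hform : ∀ n, R ≤ n → (m n (pad a b P₀) : ℝ) =
      ((n : ℝ) ^ d - ∏ ℓ, ((n : ℝ) - ((a ℓ + b ℓ : ℕ) : ℝ))) +
        (maxOnes (fun ℓ => n - (a ℓ + b ℓ)) P₀ : ℝ) := by
    intro n hn
    have h1 := maxOnes_pad (n := fun ℓ => n - (a ℓ + b ℓ)) (a := a) (b := b) h0 hspan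
    have h2 : (fun ℓ => a ℓ + (n - (a ℓ + b ℓ)) + b ℓ) = (fun _ => n : Fin d → ℕ) := by
      funext ℓ
      have := hR ℓ
      omega
    rw [h2] at h1
    have h3 : ∏ _ℓ : Fin d, n = n ^ d := by simp
    rw [h3] at h1
    have h4 : ((maxOnes (fun _ => n) (pad a b P₀) : ℕ) : ℝ) +
        ∏ ℓ, (((n - (a ℓ + b ℓ) : ℕ)) : ℝ) =
        (n : ℝ) ^ d + (maxOnes (fun ℓ => n - (a ℓ + b ℓ)) P₀ : ℝ) := by
      exact_mod_cast h1
    have h5 : ∏ ℓ, (((n - (a ℓ + b ℓ) : ℕ)) : ℝ) = ∏ ℓ, ((n : ℝ) - ((a ℓ + b ℓ : ℕ) : ℝ)) := by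
      apply Finset.prod_congr rfl
      intro ℓ _
      rw [Nat.cast_sub ((hR ℓ).trans hn)]
    rw [h5] at h4
    rw [m]
    linarith
  -- the first summand
  have hfirst : Tendsto (fun n : ℕ => ((n : ℝ) ^ d - ∏ ℓ, ((n : ℝ) - ((a ℓ + b ℓ : ℕ) : ℝ))) /
      (n : ℝ) ^ (d - 1)) atTop (𝓝 (∑ ℓ, ((a ℓ + b ℓ : ℕ) : ℝ))) := by
    have h := (tendsto_frame_aux (Finset.univ : Finset (Fin d))
      (fun ℓ => ((a ℓ + b ℓ : ℕ) : ℝ))).1
    refine h.congr' ?_
    filter_upwards [eventually_gt_atTop 0] with n hn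
    have hn' : (n : ℝ) ≠ 0 := by positivity
    have hprod : ∏ ℓ, ((n : ℝ) - ((a ℓ + b ℓ : ℕ) : ℝ)) =
        (n : ℝ) ^ d * ∏ ℓ, (1 - ((a ℓ + b ℓ : ℕ) : ℝ) / n) := by
      have : (n : ℝ) ^ d = ∏ _ℓ : Fin d, (n : ℝ) := by simp
      rw [this, ← Finset.prod_mul_distrib]
      apply Finset.prod_congr rfl
      intro ℓ _
      field_simp
    rw [hprod]
    obtain ⟨e, rfl⟩ : ∃ e, d = e + 1 := ⟨d - 1, by omega⟩
    simp only [Nat.add_sub_cancel]
    generalize (∏ ℓ, (1 - ((a ℓ + b ℓ : ℕ) : ℝ) / n)) = t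
    field_simp
    ring
  -- the second summand
  have hratio : Tendsto (fun n : ℕ => (((n - R : ℕ) : ℝ) / n) ^ (d - 1)) atTop (𝓝 1) := by
    have h1 : Tendsto (fun n : ℕ => 1 - (R : ℝ) / n) atTop (𝓝 (1 - 0)) :=
      tendsto_const_nhds.sub (tendsto_const_div_atTop_nhds_zero_nat _)
    rw [sub_zero] at h1
    have h2 : Tendsto (fun n : ℕ => (1 - (R : ℝ) / n) ^ (d - 1)) atTop (𝓝 (1 ^ (d - 1))) :=
      h1.pow _
    rw [one_pow] at h2
    refine h2.congr' ?_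
    filter_upwards [eventually_gt_atTop 0, eventually_ge_atTop R] with n hn hnR
    have hn' : (n : ℝ) ≠ 0 := by positivity
    rw [Nat.cast_sub hnR]
    congr 1
    field_simp
  have hlow : Tendsto (fun n : ℕ => (m (n - R) P₀ : ℝ) / (n : ℝ) ^ (d - 1)) atTop (𝓝 L) := by
    have h1 : Tendsto (fun n : ℕ => (m (n - R) P₀ : ℝ) / (((n - R : ℕ)) : ℝ) ^ (d - 1)) atTop
        (𝓝 L) := hL.comp (tendsto_sub_atTop_nat R)
    have h2 := h1.mul hratio
    rw [mul_one] at h2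
    refine h2.congr' ?_
    filter_upwards [eventually_gt_atTop R] with n hn
    have hn' : (n : ℝ) ≠ 0 := by
      have : 0 < n := by omega
      positivity
    have hn2 : (((n - R : ℕ)) : ℝ) ≠ 0 := by
      have : 0 < n - R := by omega
      positivity
    rw [div_pow]
    field_simp
  have hsecond : Tendsto (fun n : ℕ => (maxOnes (fun ℓ => n - (a ℓ + b ℓ)) P₀ : ℝ) /
      (n : ℝ) ^ (d - 1)) atTop (𝓝 L) := by
    refine tendsto_of_tendsto_of_tendsto_of_le_of_le' hlow hL ?_ ?_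
    · filter_upwards with n
      apply div_le_div_of_nonneg_right _ (by positivity)
      have h1 : m (n - R) P₀ ≤ maxOnes (fun ℓ => n - (a ℓ + b ℓ)) P₀ :=
        maxOnes_mono h0 hspan (fun ℓ => by have := hR ℓ; omega)
      exact_mod_cast h1
    · filter_upwards with n
      apply div_le_div_of_nonneg_right _ (by positivity)
      have h1 : maxOnes (fun ℓ => n - (a ℓ + b ℓ)) P₀ ≤ m n P₀ :=
        maxOnes_mono h0 hspan (fun ℓ => by omega)
      exact_mod_cast h1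
  refine ⟨∑ ℓ, ((a ℓ + b ℓ : ℕ) : ℝ) + L, ?_⟩
  refine (hfirst.add hsecond).congr' ?_
  filter_upwards [eventually_ge_atTop R] with n hn
  rw [hform n hn, add_div]

/-- Every nonzero pattern is a padded spanning pattern. -/
theorem exists_trim {P : Mat d} (hP : P.ones.Nonempty) :
    ∃ (a b : Fin d → ℕ) (P₀ : Mat d), P₀.ones.Nonempty ∧ Spans P₀.size P₀.ones ∧
      P.size = (pad a b P₀).size ∧ P.ones = (pad a b P₀).ones := by
  classical
  have hne : ∀ ℓ, (P.ones.image (fun x => x ℓ)).Nonempty := fun ℓ => hP.image _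
  set lo : Fin d → ℕ := fun ℓ => (P.ones.image (fun x => x ℓ)).min' (hne ℓ) with hlo
  set hi : Fin d → ℕ := fun ℓ => (P.ones.image (fun x => x ℓ)).max' (hne ℓ) with hhi
  have hlo1 : ∀ x ∈ P.ones, ∀ ℓ, lo ℓ ≤ x ℓ := fun x hx ℓ =>
    Finset.min'_le _ _ (Finset.mem_image_of_mem _ hx)
  have hhi1 : ∀ x ∈ P.ones, ∀ ℓ, x ℓ ≤ hi ℓ := fun x hx ℓ =>
    Finset.le_max' _ _ (Finset.mem_image_of_mem (fun x => x ℓ) hx)
  have hlo2 : ∀ ℓ, ∃ x ∈ P.ones, x ℓ = lo ℓ := by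
    intro ℓ
    obtain ⟨x, hx, hx'⟩ := Finset.mem_image.1 (Finset.min'_mem _ (hne ℓ))
    exact ⟨x, hx, hx'⟩
  have hhi2 : ∀ ℓ, ∃ x ∈ P.ones, x ℓ = hi ℓ := by
    intro ℓ
    obtain ⟨x, hx, hx'⟩ := Finset.mem_image.1 (Finset.max'_mem _ (hne ℓ))
    exact ⟨x, hx, hx'⟩
  have hhik : ∀ ℓ, hi ℓ < P.size ℓ := by
    intro ℓ
    obtain ⟨x, hx, hx'⟩ := hhi2 ℓ
    rw [← hx']
    exact P.inBox x hx ℓ
  have hlohi : ∀ ℓ, lo ℓ ≤ hi ℓ := by
    intro ℓ
    obtain ⟨x, hx⟩ := hP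
    exact (hlo1 x hx ℓ).trans (hhi1 x hx ℓ)
  refine ⟨lo, fun ℓ => P.size ℓ - 1 - hi ℓ,
    ⟨fun ℓ => hi ℓ - lo ℓ + 1, P.ones.image (fun x => fun ℓ => x ℓ - lo ℓ), ?_⟩, ?_, ?_, ?_, ?_⟩
  · intro x hx ℓ
    obtain ⟨y, hy, rfl⟩ := Finset.mem_image.1 hx
    have := hhi1 y hy ℓ
    have := hlo1 y hy ℓ
    show y ℓ - lo ℓ < hi ℓ - lo ℓ + 1
    omega
  · exact hP.image _
  · intro ℓ
    constructor
    · obtain ⟨x, hx, hx'⟩ := hlo2 ℓ
      refine ⟨_, Finset.mem_image_of_mem _ hx, ?_⟩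
      show x ℓ - lo ℓ = 0
      omega
    · obtain ⟨x, hx, hx'⟩ := hhi2 ℓ
      refine ⟨_, Finset.mem_image_of_mem _ hx, ?_⟩
      show x ℓ - lo ℓ + 1 = hi ℓ - lo ℓ + 1
      omega
  · funext ℓ
    have := hhik ℓ
    have := hlohi ℓ
    show P.size ℓ = lo ℓ + (hi ℓ - lo ℓ + 1) + (P.size ℓ - 1 - hi ℓ)
    omega
  · show P.ones = shift lo (P.ones.image (fun x => fun ℓ => x ℓ - lo ℓ))
    rw [shift, Finset.image_image]
    ext x
    rw [Finset.mem_image]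
    constructor
    · intro hx
      refine ⟨x, hx, ?_⟩
      funext ℓ
      have := hlo1 x hx ℓ
      show x ℓ - lo ℓ + lo ℓ = x ℓ
      omega
    · rintro ⟨y, hy, rfl⟩
      have : (fun x : Fin d → ℕ => fun ℓ => x ℓ + lo ℓ) ((fun ℓ => y ℓ - lo ℓ)) = y := by
        funext ℓ
        have := hlo1 y hy ℓ
        show y ℓ - lo ℓ + lo ℓ = y ℓ
        omega
      show ((fun x : Fin d → ℕ => fun ℓ => x ℓ + lo ℓ) ((fun ℓ => y ℓ - lo ℓ))) ∈ P.ones
      rw [this]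
      exact hy

end

end Pool.Agent.Helper450IM
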