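import Pool.Agent.helper450_im.Trim

/-!
# Two-dimensional matrices as finite sets of pairs
-/

namespace Pool.Agent.Helper450IM

open Finset Filter Topology

/-- two-dimensional interval minors, in terms of sets of pairs -/
def Emb2 (t w k l : ℕ) (S P : Finset (ℕ × ℕ)) : Prop :=
  ∃ φ ψ : ℕ → ℕ, Onto t k φ ∧ Onto w l ψ ∧ ∀ p ∈ P, ∃ s ∈ S, φ s.1 = p.1 ∧ ψ s.2 = p.2

/-- the `t × w` box -/
def box2 (t w : ℕ) : Finset (ℕ × ℕ) := Finset.range t ×ˢ Finset.range w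

lemma mem_box2 {t w : ℕ} {x : ℕ × ℕ} : x ∈ box2 t w ↔ x.1 < t ∧ x.2 < w := by
  simp [box2]

/-- every boundary row and column of the `k × l` box is hit -/
structure Spans2 (k l : ℕ) (P : Finset (ℕ × ℕ)) : Prop where
  top : ∃ p ∈ P, p.1 = 0
  bot : ∃ p ∈ P, p.1 + 1 = k
  left : ∃ p ∈ P, p.2 = 0
  right : ∃ p ∈ P, p.2 + 1 = l

section

open Classical in
/-- the extremal function for sets of pairs -/
noncomputable def M2 (t w k l : ℕ) (P : Finset (ℕ × ℕ)) : ℕ :=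
  ((box2 t w).powerset.filter (fun S => ¬ Emb2 t w k l S P)).sup Finset.card

lemma le_M2 {t w k l : ℕ} {S P : Finset (ℕ × ℕ)} (hS : S ⊆ box2 t w)
    (h : ¬ Emb2 t w k l S P) : S.card ≤ M2 t w k l P := by
  classical
  apply Finset.le_sup (f := Finset.card)
  rw [Finset.mem_filter, Finset.mem_powerset]
  exact ⟨hS, h⟩

lemma M2_le {t w k l c : ℕ} {P : Finset (ℕ × ℕ)}
    (h : ∀ S ⊆ box2 t w, ¬ Emb2 t w k l S P → S.card ≤ c) : M2 t w k l P ≤ c := by
  classical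
  apply Finset.sup_le
  intro S hS
  rw [Finset.mem_filter, Finset.mem_powerset] at hS
  exact h S hS.1 hS.2

lemma not_emb2_empty {t w k l : ℕ} {P : Finset (ℕ × ℕ)} (hP : P.Nonempty) :
    ¬ Emb2 t w k l ∅ P := by
  rintro ⟨φ, ψ, _, _, h⟩
  obtain ⟨p, hp⟩ := hP
  obtain ⟨s, hs, _⟩ := h p hp
  simp at hs

lemma exists_M2 (t w k l : ℕ) {P : Finset (ℕ × ℕ)} (hP : P.Nonempty) :
    ∃ S ⊆ box2 t w, ¬ Emb2 t w k l S P ∧ S.card = M2 t w k l P := by
  classical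
  have hne : ((box2 t w).powerset.filter (fun S => ¬ Emb2 t w k l S P)).Nonempty := by
    refine ⟨∅, ?_⟩
    rw [Finset.mem_filter, Finset.mem_powerset]
    exact ⟨Finset.empty_subset _, not_emb2_empty hP⟩
  obtain ⟨S, hS, hS'⟩ := Finset.exists_mem_eq_sup _ hne Finset.card
  rw [Finset.mem_filter, Finset.mem_powerset] at hS
  exact ⟨S, hS.1, hS.2, hS'.symm⟩

end

/-! ## The bridge -/

/-- functions on `Fin 2` as pairs -/
def pr (x : Fin 2 → ℕ) : ℕ × ℕ := (x 0, x 1)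

lemma pr_injective : Function.Injective pr := by
  intro x y h
  simp only [pr, Prod.mk.injEq] at h
  funext ℓ
  fin_cases ℓ
  · exact h.1
  · exact h.2

lemma pr_surj (p : ℕ × ℕ) : pr ![p.1, p.2] = p := by
  simp [pr]

lemma emb_iff {n k : Fin 2 → ℕ} {S P : Finset (Fin 2 → ℕ)} :
    Emb n k S P ↔ Emb2 (n 0) (n 1) (k 0) (k 1) (S.image pr) (P.image pr) := by
  constructor
  · rintro ⟨φ, hφ, h⟩
    refine ⟨φ 0, φ 1, hφ 0, hφ 1, ?_⟩
    intro p hp
    obtain ⟨q, hq, rfl⟩ := Finset.mem_image.1 hp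
    obtain ⟨s, hs, hs'⟩ := h q hq
    exact ⟨pr s, Finset.mem_image_of_mem _ hs, hs' 0, hs' 1⟩
  · rintro ⟨φ, ψ, hφ, hψ, h⟩
    refine ⟨![φ, ψ], ?_, ?_⟩
    · intro ℓ
      fin_cases ℓ
      · exact hφ
      · exact hψ
    · intro p hp
      obtain ⟨s, hs, hs1, hs2⟩ := h (pr p) (Finset.mem_image_of_mem _ hp)
      obtain ⟨x, hx, rfl⟩ := Finset.mem_image.1 hs
      refine ⟨x, hx, ?_⟩
      intro ℓ
      fin_cases ℓ
      · exact hs1
      · exact hs2

lemma image_pr_subset {n : Fin 2 → ℕ} {S : Finset (Fin 2 → ℕ)} (hS : S ⊆ box n) :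
    S.image pr ⊆ box2 (n 0) (n 1) := by
  intro x hx
  obtain ⟨y, hy, rfl⟩ := Finset.mem_image.1 hx
  have := mem_box.1 (hS hy)
  exact mem_box2.2 ⟨this 0, this 1⟩

theorem maxOnes_eq_M2 {n : Fin 2 → ℕ} {P : Mat 2} (hP : P.ones.Nonempty) :
    maxOnes n P = M2 (n 0) (n 1) (P.size 0) (P.size 1) (P.ones.image pr) := by
  apply le_antisymm
  · obtain ⟨S, hS, hE, hc⟩ := exists_maxOnes n hP
    rw [← hc, ← Finset.card_image_of_injective S pr_injective]
    apply le_M2 (image_pr_subset hS)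
    rw [← emb_iff]
    exact hE
  · obtain ⟨S, hS, hE, hc⟩ := exists_M2 (n 0) (n 1) (P.size 0) (P.size 1) (hP.image pr)
    rw [← hc]
    have himg : (S.image (fun p : ℕ × ℕ => (![p.1, p.2] : Fin 2 → ℕ))).image pr = S := by
      rw [Finset.image_image]
      have : (pr ∘ fun p : ℕ × ℕ => (![p.1, p.2] : Fin 2 → ℕ)) = id := by
        funext p
        exact pr_surj p
      rw [this, Finset.image_id]
    have hcard : (S.image (fun p : ℕ × ℕ => (![p.1, p.2] : Fin 2 → ℕ))).card = S.card := by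
      rw [← Finset.card_image_of_injective _ pr_injective, himg]
    rw [← hcard]
    apply card_le_maxOnes hP
    · intro x hx
      obtain ⟨p, hp, rfl⟩ := Finset.mem_image.1 hx
      have h1 := mem_box2.1 (hS hp)
      rw [mem_box]
      intro ℓ
      fin_cases ℓ
      · exact h1.1
      · exact h1.2
    · rw [emb_iff, himg]
      exact hE

/-! ## Monotonicity and symmetries -/

lemma emb2_mono {t w t' w' k l : ℕ} {S P : Finset (ℕ × ℕ)} (hsp : Spans2 k l P)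
    (hS : S ⊆ box2 t w) (ht : t ≤ t') (hw : w ≤ w') (h : Emb2 t' w' k l S P) :
    Emb2 t w k l S P := by
  obtain ⟨φ, ψ, hφ, hψ, hP⟩ := h
  have hk : 0 < k := by obtain ⟨p, _, hp⟩ := hsp.bot; omega
  have hl : 0 < l := by obtain ⟨p, _, hp⟩ := hsp.right; omega
  refine ⟨φ, ψ, ?_, ?_, hP⟩
  · refine onto_of_steps hφ.mono (hφ.zero hk) ?_ ?_ ?_
    · intro i hi
      exact hφ.succ_le i (by omega)
    · obtain ⟨p, hp, hp'⟩ := hsp.bot
      obtain ⟨s, hs, hs1, hs2⟩ := hP p hp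
      exact ⟨s.1, (mem_box2.1 (hS hs)).1, by omega⟩
    · intro i hi
      exact hφ.lt i (by omega)
  · refine onto_of_steps hψ.mono (hψ.zero hl) ?_ ?_ ?_
    · intro i hi
      exact hψ.succ_le i (by omega)
    · obtain ⟨p, hp, hp'⟩ := hsp.right
      obtain ⟨s, hs, hs1, hs2⟩ := hP p hp
      exact ⟨s.2, (mem_box2.1 (hS hs)).2, by omega⟩
    · intro i hi
      exact hψ.lt i (by omega)

lemma box2_mono {t w t' w' : ℕ} (ht : t ≤ t') (hw : w ≤ w') : box2 t w ⊆ box2 t' w' := by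
  intro x hx
  rw [mem_box2] at hx ⊢
  omega

lemma M2_mono {t w t' w' k l : ℕ} {P : Finset (ℕ × ℕ)} (hsp : Spans2 k l P)
    (ht : t ≤ t') (hw : w ≤ w') : M2 t w k l P ≤ M2 t' w' k l P :=
  M2_le (fun _ hS hE => le_M2 (hS.trans (box2_mono ht hw))
    (fun h => hE (emb2_mono hsp hS ht hw h)))

lemma Spans2.nonempty {k l : ℕ} {P : Finset (ℕ × ℕ)} (h : Spans2 k l P) : P.Nonempty := by
  obtain ⟨p, hp, _⟩ := h.top
  exact ⟨p, hp⟩

/-- exchanging rows and columns -/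
def swp (S : Finset (ℕ × ℕ)) : Finset (ℕ × ℕ) := S.image Prod.swap

lemma mem_swp {S : Finset (ℕ × ℕ)} {x : ℕ × ℕ} : x ∈ swp S ↔ x.swap ∈ S := by
  rw [swp, Finset.mem_image]
  constructor
  · rintro ⟨y, hy, rfl⟩
    simpa using hy
  · intro h
    exact ⟨_, h, by simp⟩

lemma swp_swp (S : Finset (ℕ × ℕ)) : swp (swp S) = S := by
  ext x
  rw [mem_swp, mem_swp, Prod.swap_swap]

lemma card_swp (S : Finset (ℕ × ℕ)) : (swp S).card = S.card :=
  Finset.card_image_of_injective _ Prod.swap_injective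

lemma emb2_swp {t w k l : ℕ} {S P : Finset (ℕ × ℕ)} (h : Emb2 t w k l S P) :
    Emb2 w t l k (swp S) (swp P) := by
  obtain ⟨φ, ψ, hφ, hψ, hP⟩ := h
  refine ⟨ψ, φ, hψ, hφ, ?_⟩
  intro p hp
  obtain ⟨s, hs, hs1, hs2⟩ := hP _ (mem_swp.1 hp)
  refine ⟨s.swap, ?_, hs2, hs1⟩
  rw [mem_swp, Prod.swap_swap]
  exact hs

lemma swp_subset {t w : ℕ} {S : Finset (ℕ × ℕ)} (h : S ⊆ box2 t w) : swp S ⊆ box2 w t := by
  intro x hx
  have := mem_box2.1 (h (mem_swp.1 hx))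
  exact mem_box2.2 ⟨this.2, this.1⟩

lemma M2_swp_le (t w k l : ℕ) (P : Finset (ℕ × ℕ)) : M2 t w k l P ≤ M2 w t l k (swp P) := by
  apply M2_le
  intro S hS hE
  rw [← card_swp]
  apply le_M2 (swp_subset hS)
  intro h
  apply hE
  have := emb2_swp h
  rwa [swp_swp, swp_swp] at this

lemma M2_swp (t w k l : ℕ) (P : Finset (ℕ × ℕ)) : M2 w t l k (swp P) = M2 t w k l P := by
  apply le_antisymm _ (M2_swp_le t w k l P)
  have := M2_swp_le w t l k (swp P)
  rwa [swp_swp] at this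

/-- reversing the order of the rows -/
def flp (t : ℕ) (S : Finset (ℕ × ℕ)) : Finset (ℕ × ℕ) := S.image (fun x => (t - 1 - x.1, x.2))

lemma onto_flip {t k : ℕ} {φ : ℕ → ℕ} (h : Onto t k φ) :
    Onto t k (fun i => k - 1 - φ (t - 1 - i)) where
  mono := by
    intro i j hij
    have := h.mono (show t - 1 - j ≤ t - 1 - i by omega)
    show k - 1 - _ ≤ k - 1 - _
    omega
  lt := by
    intro i hi
    have := h.lt i hi
    show k - 1 - _ < k
    omega
  surj := by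
    intro j hj
    obtain ⟨i, hi, hi'⟩ := h.surj (k - 1 - j) (by omega)
    refine ⟨t - 1 - i, by omega, ?_⟩
    have : t - 1 - (t - 1 - i) = i := by omega
    show k - 1 - φ (t - 1 - (t - 1 - i)) = j
    rw [this, hi']
    omega

lemma flp_flp {t w : ℕ} {S : Finset (ℕ × ℕ)} (h : S ⊆ box2 t w) : flp t (flp t S) = S := by
  rw [flp, flp, Finset.image_image]
  have : ∀ x ∈ S, ((fun x : ℕ × ℕ => (t - 1 - x.1, x.2)) ∘
      (fun x : ℕ × ℕ => (t - 1 - x.1, x.2))) x = x := by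
    intro x hx
    have := mem_box2.1 (h hx)
    ext
    · show t - 1 - (t - 1 - x.1) = x.1
      omega
    · rfl
  rw [Finset.image_congr (g := id) this, Finset.image_id]

lemma card_flp {t w : ℕ} {S : Finset (ℕ × ℕ)} (h : S ⊆ box2 t w) : (flp t S).card = S.card := by
  apply Finset.card_image_of_injOn
  intro x hx y hy hxy
  simp only [Prod.mk.injEq] at hxy
  have h1 := mem_box2.1 (h hx)
  have h2 := mem_box2.1 (h hy)
  ext
  · omega
  · exact hxy.2

lemma flp_subset {t w : ℕ} {S : Finset (ℕ × ℕ)} (h : S ⊆ box2 t w) : flp t S ⊆ box2 t w := by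
  intro x hx
  obtain ⟨y, hy, rfl⟩ := Finset.mem_image.1 hx
  have := mem_box2.1 (h hy)
  rw [mem_box2]
  show t - 1 - y.1 < t ∧ y.2 < w
  omega

lemma emb2_flp {t w k l : ℕ} {S P : Finset (ℕ × ℕ)} (hS : S ⊆ box2 t w)
    (h : Emb2 t w k l S P) : Emb2 t w k l (flp t S) (flp k P) := by
  obtain ⟨φ, ψ, hφ, hψ, hP⟩ := h
  refine ⟨_, ψ, onto_flip hφ, hψ, ?_⟩
  intro p hp
  obtain ⟨q, hq, rfl⟩ := Finset.mem_image.1 hp
  obtain ⟨s, hs, hs1, hs2⟩ := hP q hq
  refine ⟨(t - 1 - s.1, s.2), Finset.mem_image_of_mem _ hs, ?_, hs2⟩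
  have := mem_box2.1 (hS hs)
  have h2 : t - 1 - (t - 1 - s.1) = s.1 := by omega
  show k - 1 - φ (t - 1 - (t - 1 - s.1)) = k - 1 - q.1
  rw [h2, hs1]

lemma M2_flp_le {t w k l : ℕ} {P : Finset (ℕ × ℕ)} (hP : P ⊆ box2 k l) :
    M2 t w k l P ≤ M2 t w k l (flp k P) := by
  apply M2_le
  intro S hS hE
  rw [← card_flp hS]
  apply le_M2 (flp_subset hS)
  intro h
  apply hE
  have := emb2_flp (flp_subset hS) h
  rwa [flp_flp hS, flp_flp hP] at this

lemma M2_flp {t w k l : ℕ} {P : Finset (ℕ × ℕ)} (hP : P ⊆ box2 k l) :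
    M2 t w k l (flp k P) = M2 t w k l P := by
  apply le_antisymm _ (M2_flp_le hP)
  have := M2_flp_le (t := t) (w := w) (flp_subset hP)
  rwa [flp_flp hP] at this

lemma Spans2.swp {k l : ℕ} {P : Finset (ℕ × ℕ)} (h : Spans2 k l P) : Spans2 l k (swp P) where
  top := by
    obtain ⟨p, hp, hp'⟩ := h.left
    exact ⟨p.swap, mem_swp.2 (by rwa [Prod.swap_swap]), hp'⟩
  bot := by
    obtain ⟨p, hp, hp'⟩ := h.right
    exact ⟨p.swap, mem_swp.2 (by rwa [Prod.swap_swap]), hp'⟩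
  left := by
    obtain ⟨p, hp, hp'⟩ := h.top
    exact ⟨p.swap, mem_swp.2 (by rwa [Prod.swap_swap]), hp'⟩
  right := by
    obtain ⟨p, hp, hp'⟩ := h.bot
    exact ⟨p.swap, mem_swp.2 (by rwa [Prod.swap_swap]), hp'⟩

lemma Spans2.flp {k l : ℕ} {P : Finset (ℕ × ℕ)} (h : Spans2 k l P) : Spans2 k l (flp k P) where
  top := by
    obtain ⟨p, hp, hp'⟩ := h.bot
    refine ⟨_, Finset.mem_image_of_mem _ hp, ?_⟩
    show k - 1 - p.1 = 0
    omega
  bot := by
    obtain ⟨p, hp, hp'⟩ := h.top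
    obtain ⟨q, hq, hq'⟩ := h.bot
    refine ⟨_, Finset.mem_image_of_mem _ hp, ?_⟩
    show k - 1 - p.1 + 1 = k
    omega
  left := by
    obtain ⟨p, hp, hp'⟩ := h.left
    exact ⟨_, Finset.mem_image_of_mem _ hp, hp'⟩
  right := by
    obtain ⟨p, hp, hp'⟩ := h.right
    exact ⟨_, Finset.mem_image_of_mem _ hp, hp'⟩

end Pool.Agent.Helper450IM
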