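import Pool.Agent.helper450_im.TwoLimit
import Pool.Agent.helper450_im.Star

/-!
# Two-dimensional patterns with at most two corner ones
-/

namespace Pool.Agent.Helper450IM

open Finset Filter Topology

/-! ## From pairs to matrices -/

/-- the matrix of a set of pairs -/
def matOf (k l : ℕ) (Q : Finset (ℕ × ℕ)) (hQ : Q ⊆ box2 k l) : Mat 2 :=
  ⟨![k, l], Q.image (fun p => (![p.1, p.2] : Fin 2 → ℕ)), by
    intro x hx ℓ
    obtain ⟨p, hp, rfl⟩ := Finset.mem_image.1 hx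
    have := mem_box2.1 (hQ hp)
    fin_cases ℓ
    · exact this.1
    · exact this.2⟩

lemma matOf_image {k l : ℕ} {Q : Finset (ℕ × ℕ)} (hQ : Q ⊆ box2 k l) :
    (matOf k l Q hQ).ones.image pr = Q := by
  show (Q.image (fun p => (![p.1, p.2] : Fin 2 → ℕ))).image pr = Q
  rw [Finset.image_image]
  have : (pr ∘ fun p : ℕ × ℕ => (![p.1, p.2] : Fin 2 → ℕ)) = id := by
    funext p
    exact pr_surj p
  rw [this, Finset.image_id]

lemma conv2_of_mat {P : Mat 2} (hP : P.ones.Nonempty)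
    (h : ∃ L : ℝ, Tendsto (fun n : ℕ => (m n P : ℝ) / (n : ℝ) ^ (2 - 1)) atTop (𝓝 L)) :
    Conv2 (P.size 0) (P.size 1) (P.ones.image pr) := by
  obtain ⟨L, hL⟩ := h
  refine ⟨L, hL.congr (fun n => ?_)⟩
  rw [m, maxOnes_eq_M2 hP]
  norm_num

lemma mat_of_conv2 {P : Mat 2} (hP : P.ones.Nonempty)
    (h : Conv2 (P.size 0) (P.size 1) (P.ones.image pr)) :
    ∃ L : ℝ, Tendsto (fun n : ℕ => (m n P : ℝ) / (n : ℝ) ^ (2 - 1)) atTop (𝓝 L) := by
  obtain ⟨L, hL⟩ := h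
  refine ⟨L, hL.congr (fun n => ?_)⟩
  rw [m, maxOnes_eq_M2 hP]
  norm_num

lemma spans_matOf {k l : ℕ} {Q : Finset (ℕ × ℕ)} (hQ : Q ⊆ box2 k l) (hsp : Spans2 k l Q) :
    Spans (matOf k l Q hQ).size (matOf k l Q hQ).ones := by
  intro ℓ
  fin_cases ℓ
  · refine ⟨?_, ?_⟩
    · obtain ⟨p, hp, hp'⟩ := hsp.top
      exact ⟨_, Finset.mem_image_of_mem _ hp, hp'⟩
    · obtain ⟨p, hp, hp'⟩ := hsp.bot
      exact ⟨_, Finset.mem_image_of_mem _ hp, hp'⟩
  · refine ⟨?_, ?_⟩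
    · obtain ⟨p, hp, hp'⟩ := hsp.left
      exact ⟨_, Finset.mem_image_of_mem _ hp, hp'⟩
    · obtain ⟨p, hp, hp'⟩ := hsp.right
      exact ⟨_, Finset.mem_image_of_mem _ hp, hp'⟩

/-! ## Indecomposable patterns -/

/-- There is no splitting of `Q` into two nonempty parts, the first one lying weakly above and
weakly to the left of the second one. -/
def Indec (Q : Finset (ℕ × ℕ)) : Prop :=
  ∀ Q₁ Q₂ : Finset (ℕ × ℕ), Q₁ ∪ Q₂ = Q → Q₁.Nonempty → Q₂.Nonempty →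
    ¬ ∀ y ∈ Q₁, ∀ x ∈ Q₂, y.1 ≤ x.1 ∧ y.2 ≤ x.2

/-- the diagonal -/
def dg (s : ℕ) : Finset (Fin 2 → ℕ) := (Finset.range s).image (fun i => fun _ => i)

lemma dg_subset (s : ℕ) : dg s ⊆ box (fun _ => s) := by
  intro x hx
  obtain ⟨i, hi, rfl⟩ := Finset.mem_image.1 hx
  rw [mem_box]
  intro _
  exact Finset.mem_range.1 hi

lemma card_dg (s : ℕ) : (dg s).card = s ^ (2 - 1) := by
  rw [dg, Finset.card_image_of_injective, Finset.card_range]
  · norm_num
  · intro i j h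
    exact congrFun h 0

lemma rigid_dg {P : Finset (Fin 2 → ℕ)} (h : Indec (P.image pr)) (s : ℕ) : Rigid P (dg s) := by
  classical
  intro f hf hmono
  have hdiag : ∀ p ∈ P, f p 0 = f p 1 := by
    intro p hp
    obtain ⟨i, _, hi⟩ := Finset.mem_image.1 (hf p hp)
    rw [← hi]
  -- it suffices to compare first coordinates
  have key : ∀ p ∈ P, ∀ q ∈ P, ¬ f p 0 < f q 0 := by
    intro p hp q hq hlt
    refine h ((P.filter (fun x => f x 0 < f q 0)).image pr)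
      ((P.filter (fun x => ¬ f x 0 < f q 0)).image pr) ?_ ?_ ?_ ?_
    · rw [← Finset.image_union, Finset.filter_union_filter_not_eq]
    · exact ⟨pr p, Finset.mem_image_of_mem _ (Finset.mem_filter.2 ⟨hp, hlt⟩)⟩
    · exact ⟨pr q, Finset.mem_image_of_mem _ (Finset.mem_filter.2 ⟨hq, lt_irrefl _⟩)⟩
    · intro y hy x hx
      obtain ⟨u, hu, rfl⟩ := Finset.mem_image.1 hy
      obtain ⟨v, hv, rfl⟩ := Finset.mem_image.1 hx
      rw [Finset.mem_filter] at hu hv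
      constructor
      · by_contra hcon
        push Not at hcon
        have h1 := hmono v hv.1 u hu.1 0 hcon
        omega
      · by_contra hcon
        push Not at hcon
        have h1 := hmono v hv.1 u hu.1 1 hcon
        rw [← hdiag v hv.1, ← hdiag u hu.1] at h1
        omega
  intro p hp q hq
  have h1 := key p hp q hq
  have h2 := key q hq p hp
  have h3 : f p 0 = f q 0 := by omega
  funext ℓ
  fin_cases ℓ
  · exact h3
  · show f p 1 = f q 1
    rw [← hdiag p hp, ← hdiag q hq, h3]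

lemma conv2_of_indec {k l : ℕ} {Q : Finset (ℕ × ℕ)} (hQ : Q ⊆ box2 k l) (hsp : Spans2 k l Q)
    (h : Indec Q) : Conv2 k l Q := by
  have hne : (matOf k l Q hQ).ones.Nonempty := hsp.nonempty.image _
  have hr : ∀ s, Rigid (matOf k l Q hQ).ones (dg s) := by
    intro s
    apply rigid_dg
    rw [matOf_image]
    exact h
  have h1 := conv2_of_mat hne (tendsto_of_rigid_spans (by norm_num) hne (spans_matOf hQ hsp)
    (le_refl 2) (by norm_num) two_three_independent (dg_subset 2) (card_dg 2) (hr 2)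
    (dg_subset 3) (card_dg 3) (hr 3))
  rw [matOf_image] at h1
  exact h1

/-! ## Crosses -/

lemma conv2_of_cross {k l a b : ℕ} {Q : Finset (ℕ × ℕ)} (hQ : Q ⊆ box2 k l)
    (hsp : Spans2 k l Q) (ha : a < k) (hb : b < l) (h : ∀ x ∈ Q, x.1 = a ∨ x.2 = b) :
    Conv2 k l Q := by
  have hne : (matOf k l Q hQ).ones.Nonempty := hsp.nonempty.image _
  have h1 := conv2_of_mat hne ⟨_, star_tendsto (P := matOf k l Q hQ) (c := ![a, b])
    (by norm_num) hne (by
      intro ℓ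
      fin_cases ℓ
      · exact ha
      · exact hb) (by
      intro p hp
      obtain ⟨x, hx, rfl⟩ := Finset.mem_image.1 hp
      rcases h x hx with h | h
      · refine ⟨1, ?_⟩
        intro j hj
        fin_cases j
        · exact h
        · exact absurd rfl hj
      · refine ⟨0, ?_⟩
        intro j hj
        fin_cases j
        · exact absurd rfl hj
        · exact h)⟩
  rw [matOf_image] at h1
  exact h1

/-! ## The case analysis -/

/-- A decomposable pattern without ones in the upper left and lower right corners has no corner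
ones at all. -/
lemma no_corner {k l : ℕ} {Q : Finset (ℕ × ℕ)} (hQ : Q ⊆ box2 k l) (hsp : Spans2 k l Q)
    (hNW : ∀ p ∈ Q, p.1 = 0 → p.2 ≠ 0) (hSE : ∀ p ∈ Q, p.1 + 1 = k → p.2 + 1 ≠ l)
    (h : ¬ Indec Q) :
    (∀ p ∈ Q, p.1 = 0 → p.2 + 1 ≠ l) ∧ (∀ p ∈ Q, p.1 + 1 = k → p.2 ≠ 0) := by
  unfold Indec at h
  push Not at h
  obtain ⟨Q₁, Q₂, hU, hne1, hne2, hle⟩ := h
  have hb : ∀ p ∈ Q, p.1 < k ∧ p.2 < l := fun p hp => mem_box2.1 (hQ hp)
  have hmem : ∀ p ∈ Q, p ∈ Q₁ ∨ p ∈ Q₂ := by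
    intro p hp
    rw [← hU, Finset.mem_union] at hp
    exact hp
  have h1 : ∀ p ∈ Q₁, p ∈ Q := fun p hp => by rw [← hU]; exact Finset.mem_union_left _ hp
  have h2 : ∀ p ∈ Q₂, p ∈ Q := fun p hp => by rw [← hU]; exact Finset.mem_union_right _ hp
  obtain ⟨u, hu⟩ := hne1
  obtain ⟨v, hv⟩ := hne2
  obtain ⟨pt, hpt, hpt'⟩ := hsp.top
  obtain ⟨pb, hpb, hpb'⟩ := hsp.bot
  obtain ⟨pl, hpl, hpl'⟩ := hsp.left
  obtain ⟨pq, hpq, hpq'⟩ := hsp.right
  constructor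
  · intro p hp hp0 hpl1
    rcases hmem p hp with hp1 | hp2
    · -- `Q₂` is in the last column
      have hcol : ∀ x ∈ Q₂, x.2 + 1 = l := by
        intro x hx
        have := (hle p hp1 x hx).2
        have := (hb x (h2 x hx)).2
        omega
      rcases hmem pb hpb with h3 | h3
      · have h4 := (hle pb h3 v hv).1
        have h5 := (hb v (h2 v hv)).1
        exact hSE v (h2 v hv) (by omega) (hcol v hv)
      · exact hSE pb hpb hpb' (hcol pb h3)
    · have hrow : ∀ x ∈ Q₁, x.1 = 0 := by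
        intro x hx
        have := (hle x hx p hp2).1
        omega
      rcases hmem pl hpl with h3 | h3
      · exact hNW pl hpl (hrow pl h3) hpl'
      · have h4 := (hle u hu pl h3).2
        exact hNW u (h1 u hu) (hrow u hu) (by omega)
  · intro p hp hpk hp0
    rcases hmem p hp with hp1 | hp2
    · have hrow : ∀ x ∈ Q₂, x.1 + 1 = k := by
        intro x hx
        have := (hle p hp1 x hx).1
        have := (hb x (h2 x hx)).1
        omega
      rcases hmem pq hpq with h3 | h3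
      · have h4 := (hle pq h3 v hv).2
        have h5 := (hb v (h2 v hv)).2
        exact hSE v (h2 v hv) (hrow v hv) (by omega)
      · exact hSE pq hpq (hrow pq h3) hpq'
    · have hcol : ∀ x ∈ Q₁, x.2 = 0 := by
        intro x hx
        have := (hle x hx p hp2).2
        omega
      rcases hmem pt hpt with h3 | h3
      · exact hNW pt hpt hpt' (hcol pt h3)
      · have h4 := (hle u hu pt h3).1
        exact hNW u (h1 u hu) (by omega) (hcol u hu)

lemma mem_flp {k l : ℕ} {Q : Finset (ℕ × ℕ)} (hQ : Q ⊆ box2 k l) {x : ℕ × ℕ} (hx : x.1 < k) :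
    x ∈ flp k Q ↔ (k - 1 - x.1, x.2) ∈ Q := by
  constructor
  · intro h
    obtain ⟨y, hy, rfl⟩ := Finset.mem_image.1 h
    have := mem_box2.1 (hQ hy)
    have h1 : k - 1 - (k - 1 - y.1) = y.1 := by omega
    show (k - 1 - (k - 1 - y.1), y.2) ∈ Q
    rw [h1]
    exact hy
  · intro h
    refine Finset.mem_image.2 ⟨_, h, ?_⟩
    ext
    · show k - 1 - (k - 1 - x.1) = x.1
      omega
    · rfl

/-- A pattern without corner ones that can be split in both ways is a cross. -/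
lemma cross_of_splits {k l : ℕ} {Q : Finset (ℕ × ℕ)} (hQ : Q ⊆ box2 k l) (hsp : Spans2 k l Q)
    (hNW : ∀ p ∈ Q, p.1 = 0 → p.2 ≠ 0) (hSE : ∀ p ∈ Q, p.1 + 1 = k → p.2 + 1 ≠ l)
    (hNE : ∀ p ∈ Q, p.1 = 0 → p.2 + 1 ≠ l) (hSW : ∀ p ∈ Q, p.1 + 1 = k → p.2 ≠ 0)
    (h : ¬ Indec Q) (h' : ¬ Indec (flp k Q)) :
    ∃ a b, a < k ∧ b < l ∧ ∀ x ∈ Q, x.1 = a ∨ x.2 = b := by
  unfold Indec at h h'
  push Not at h h'
  obtain ⟨Q₁, Q₂, hU, ⟨u, hu⟩, ⟨v, hv⟩, hle⟩ := h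
  obtain ⟨R₁, R₂, hU', ⟨u', hu'⟩, ⟨v', hv'⟩, hle'⟩ := h'
  have hb : ∀ p ∈ Q, p.1 < k ∧ p.2 < l := fun p hp => mem_box2.1 (hQ hp)
  have hbf : ∀ p ∈ flp k Q, p.1 < k ∧ p.2 < l := fun p hp => mem_box2.1 (flp_subset hQ hp)
  -- the second splitting, in terms of `Q`
  have hmem : ∀ p ∈ Q, p ∈ Q₁ ∨ p ∈ Q₂ := by
    intro p hp
    rw [← hU, Finset.mem_union] at hp
    exact hp
  have h1 : ∀ p ∈ Q₁, p ∈ Q := fun p hp => by rw [← hU]; exact Finset.mem_union_left _ hp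
  have h2 : ∀ p ∈ Q₂, p ∈ Q := fun p hp => by rw [← hU]; exact Finset.mem_union_right _ hp
  have g1 : ∀ p ∈ R₁, p ∈ flp k Q := fun p hp => by
    rw [← hU']; exact Finset.mem_union_left _ hp
  have g2 : ∀ p ∈ R₂, p ∈ flp k Q := fun p hp => by
    rw [← hU']; exact Finset.mem_union_right _ hp
  -- `T₃`: lower left, `T₄`: upper right
  set T : Finset (ℕ × ℕ) := flp k R₁ with hT
  have hmem' : ∀ p ∈ Q, ((k - 1 - p.1, p.2) ∈ R₁) ∨ ((k - 1 - p.1, p.2) ∈ R₂) := by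
    intro p hp
    have h3 : (k - 1 - p.1, p.2) ∈ flp k Q := Finset.mem_image_of_mem _ hp
    rw [← hU', Finset.mem_union] at h3
    exact h3
  have hfl : ∀ x ∈ flp k Q, (k - 1 - x.1, x.2) ∈ Q := by
    intro x hx
    exact (mem_flp hQ (hbf x hx).1).1 hx
  -- membership classes
  have hord : ∀ y ∈ Q, ∀ x ∈ Q, (k - 1 - y.1, y.2) ∈ R₁ → (k - 1 - x.1, x.2) ∈ R₂ →
      x.1 ≤ y.1 ∧ y.2 ≤ x.2 := by
    intro y hy x hx hy' hx'
    have h3 := hle' _ hy' _ hx'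
    have h4 := (hb y hy).1
    have h5 := (hb x hx).1
    simp only at h3
    omega
  -- representatives
  have hU3 : ∃ y ∈ Q, (k - 1 - y.1, y.2) ∈ R₁ := by
    refine ⟨_, hfl u' (g1 u' hu'), ?_⟩
    have h3 := (hbf u' (g1 u' hu')).1
    have h4 : k - 1 - (k - 1 - u'.1) = u'.1 := by omega
    show (k - 1 - (k - 1 - u'.1), u'.2) ∈ R₁
    rw [h4]
    exact hu'
  have hV3 : ∃ y ∈ Q, (k - 1 - y.1, y.2) ∈ R₂ := by
    refine ⟨_, hfl v' (g2 v' hv'), ?_⟩
    have h3 := (hbf v' (g2 v' hv')).1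
    have h4 : k - 1 - (k - 1 - v'.1) = v'.1 := by omega
    show (k - 1 - (k - 1 - v'.1), v'.2) ∈ R₂
    rw [h4]
    exact hv'
  obtain ⟨y₃, hy₃, hy₃'⟩ := hU3
  obtain ⟨y₄, hy₄, hy₄'⟩ := hV3
  obtain ⟨pt, hpt, hpt'⟩ := hsp.top
  obtain ⟨pb, hpb, hpb'⟩ := hsp.bot
  obtain ⟨pl, hpl, hpl'⟩ := hsp.left
  obtain ⟨pq, hpq, hpq'⟩ := hsp.right
  -- classes: `A = Q₁ ∩ R₂`, `B = Q₁ ∩ R₁`, `C = Q₂ ∩ R₂`, `D = Q₂ ∩ R₁`
  set fp : ℕ × ℕ → ℕ × ℕ := fun p => (k - 1 - p.1, p.2) with hfp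
  have hcls : ∀ p ∈ Q, (p ∈ Q₁ ∧ fp p ∈ R₂) ∨ (p ∈ Q₁ ∧ fp p ∈ R₁) ∨ (p ∈ Q₂ ∧ fp p ∈ R₂) ∨
      (p ∈ Q₂ ∧ fp p ∈ R₁) := by
    intro p hp
    have h3 := hmem p hp
    have h4 := hmem' p hp
    tauto
  have hAD : ∀ a ∈ Q₁, fp a ∈ R₂ → ∀ e ∈ Q₂, fp e ∈ R₁ → a.2 = e.2 := by
    intro a ha ha' e he he'
    have h3 := (hle a ha e he).2
    have h4 := (hord e (h2 e he) a (h1 a ha) he' ha').2
    omega
  have hBC : ∀ b ∈ Q₁, fp b ∈ R₁ → ∀ c ∈ Q₂, fp c ∈ R₂ → b.1 = c.1 := by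
    intro b hb1 hb' c hc hc'
    have h3 := (hle b hb1 c hc).1
    have h4 := (hord b (h1 b hb1) c (h2 c hc) hb' hc').1
    omega
  by_cases hA : ∃ a ∈ Q₁, fp a ∈ R₂
  · by_cases hD : ∃ e ∈ Q₂, fp e ∈ R₁
    · obtain ⟨a0, ha0, ha0'⟩ := hA
      obtain ⟨e0, he0, he0'⟩ := hD
      have hcol := hAD a0 ha0 ha0' e0 he0 he0'
      have hba := hb a0 (h1 a0 ha0)
      have hbe := hb e0 (h2 e0 he0)
      by_cases hB : ∃ b ∈ Q₁, fp b ∈ R₁
      · by_cases hC : ∃ c ∈ Q₂, fp c ∈ R₂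
        · obtain ⟨b0, hb0, hb0'⟩ := hB
          obtain ⟨c0, hc0, hc0'⟩ := hC
          have hrow := hBC b0 hb0 hb0' c0 hc0 hc0'
          refine ⟨b0.1, a0.2, (hb b0 (h1 b0 hb0)).1, hba.2, ?_⟩
          intro p hp
          rcases hcls p hp with h3 | h3 | h3 | h3
          · right
            rw [hcol]
            exact hAD p h3.1 h3.2 e0 he0 he0'
          · left
            rw [hrow]
            exact hBC p h3.1 h3.2 c0 hc0 hc0'
          · left
            exact (hBC b0 hb0 hb0' p h3.1 h3.2).symm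
          · right
            exact (hAD a0 ha0 ha0' p h3.1 h3.2).symm
        · -- `C` empty
          exfalso
          push Not at hC
          obtain ⟨b0, hb0, hb0'⟩ := hB
          have hlast : e0.2 + 1 = l := by
            rcases hcls pq hpq with h3 | h3 | h3 | h3
            · have := hAD pq h3.1 h3.2 e0 he0 he0'
              omega
            · have := (hle pq h3.1 e0 he0).2
              omega
            · exact absurd h3.2 (hC pq h3.1)
            · have := hAD a0 ha0 ha0' pq h3.1 h3.2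
              omega
          rcases hcls pb hpb with h3 | h3 | h3 | h3
          · have := (hle pb h3.1 e0 he0).1
            exact hSE e0 (h2 e0 he0) (by omega) hlast
          · have := (hle pb h3.1 e0 he0).1
            exact hSE e0 (h2 e0 he0) (by omega) hlast
          · exact hC pb h3.1 h3.2
          · have := hAD a0 ha0 ha0' pb h3.1 h3.2
            exact hSE pb hpb hpb' (by omega)
      · push Not at hB
        by_cases hC : ∃ c ∈ Q₂, fp c ∈ R₂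
        · exfalso
          have hfirst : a0.2 = 0 := by
            rcases hcls pl hpl with h3 | h3 | h3 | h3
            · have := hAD pl h3.1 h3.2 e0 he0 he0'
              omega
            · exact absurd h3.2 (hB pl h3.1)
            · have := (hle a0 ha0 pl h3.1).2
              omega
            · have := hAD a0 ha0 ha0' pl h3.1 h3.2
              omega
          rcases hcls pt hpt with h3 | h3 | h3 | h3
          · have := hAD pt h3.1 h3.2 e0 he0 he0'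
            exact hNW pt hpt hpt' (by omega)
          · exact hB pt h3.1 h3.2
          · have := (hle a0 ha0 pt h3.1).1
            exact hNW a0 (h1 a0 ha0) (by omega) hfirst
          · have := (hle a0 ha0 pt h3.1).1
            exact hNW a0 (h1 a0 ha0) (by omega) hfirst
        · push Not at hC
          refine ⟨a0.1, a0.2, hba.1, hba.2, ?_⟩
          intro p hp
          right
          rcases hcls p hp with h3 | h3 | h3 | h3
          · rw [hcol]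
            exact hAD p h3.1 h3.2 e0 he0 he0'
          · exact absurd h3.2 (hB p h3.1)
          · exact absurd h3.2 (hC p h3.1)
          · exact (hAD a0 ha0 ha0' p h3.1 h3.2).symm
    · -- `D` empty
      push Not at hD
      have hB : ∃ b ∈ Q₁, fp b ∈ R₁ := by
        rcases hmem y₃ hy₃ with h3 | h3
        · exact ⟨y₃, h3, hy₃'⟩
        · exact absurd hy₃' (hD y₃ h3)
      have hC : ∃ c ∈ Q₂, fp c ∈ R₂ := by
        rcases hmem' v (h2 v hv) with h3 | h3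
        · exact absurd h3 (hD v hv)
        · exact ⟨v, hv, h3⟩
      obtain ⟨a0, ha0, ha0'⟩ := hA
      obtain ⟨b0, hb0, hb0'⟩ := hB
      obtain ⟨c0, hc0, hc0'⟩ := hC
      have hrow := hBC b0 hb0 hb0' c0 hc0 hc0'
      have hbc := hb c0 (h2 c0 hc0)
      exfalso
      have hbot : b0.1 + 1 = k := by
        rcases hcls pb hpb with h3 | h3 | h3 | h3
        · have := (hle pb h3.1 c0 hc0).1
          omega
        · have := hBC pb h3.1 h3.2 c0 hc0 hc0'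
          omega
        · have := hBC b0 hb0 hb0' pb h3.1 h3.2
          omega
        · exact absurd h3.2 (hD pb h3.1)
      rcases hcls pl hpl with h3 | h3 | h3 | h3
      · have := (hord b0 (h1 b0 hb0) pl hpl hb0' h3.2).2
        exact hSW b0 (h1 b0 hb0) hbot (by omega)
      · have := hBC pl h3.1 h3.2 c0 hc0 hc0'
        exact hSW pl hpl (by omega) hpl'
      · have := (hle b0 hb0 pl h3.1).2
        exact hSW b0 (h1 b0 hb0) hbot (by omega)
      · exact absurd h3.2 (hD pl h3.1)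
  · -- `A` empty
    push Not at hA
    have hB : ∃ b ∈ Q₁, fp b ∈ R₁ := by
      rcases hmem' u (h1 u hu) with h3 | h3
      · exact ⟨u, hu, h3⟩
      · exact absurd h3 (hA u hu)
    have hC : ∃ c ∈ Q₂, fp c ∈ R₂ := by
      rcases hmem y₄ hy₄ with h3 | h3
      · exact absurd hy₄' (hA y₄ h3)
      · exact ⟨y₄, h3, hy₄'⟩
    obtain ⟨b0, hb0, hb0'⟩ := hB
    obtain ⟨c0, hc0, hc0'⟩ := hC
    have hrow := hBC b0 hb0 hb0' c0 hc0 hc0'
    have hbb := hb b0 (h1 b0 hb0)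
    have hbc := hb c0 (h2 c0 hc0)
    by_cases hD : ∃ e ∈ Q₂, fp e ∈ R₁
    · obtain ⟨e0, he0, he0'⟩ := hD
      exfalso
      have htop : c0.1 = 0 := by
        rcases hcls pt hpt with h3 | h3 | h3 | h3
        · exact absurd h3.2 (hA pt h3.1)
        · have := hBC pt h3.1 h3.2 c0 hc0 hc0'
          omega
        · have := hBC b0 hb0 hb0' pt h3.1 h3.2
          omega
        · have := (hle b0 hb0 pt h3.1).1
          omega
      rcases hcls pq hpq with h3 | h3 | h3 | h3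
      · exact hA pq h3.1 h3.2
      · have := (hle pq h3.1 c0 hc0).2
        exact hNE c0 (h2 c0 hc0) htop (by omega)
      · have := hBC b0 hb0 hb0' pq h3.1 h3.2
        exact hNE pq hpq (by omega) hpq'
      · have := (hord pq hpq c0 (h2 c0 hc0) h3.2 hc0').2
        exact hNE c0 (h2 c0 hc0) htop (by omega)
    · push Not at hD
      refine ⟨b0.1, b0.2, hbb.1, hbb.2, ?_⟩
      intro p hp
      left
      rcases hcls p hp with h3 | h3 | h3 | h3
      · exact absurd h3.2 (hA p h3.1)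
      · rw [hrow]
        exact hBC p h3.1 h3.2 c0 hc0 hc0'
      · exact (hBC b0 hb0 hb0' p h3.1 h3.2).symm
      · exact absurd h3.2 (hD p h3.1)

/-- Patterns without ones in the upper left and lower right corners. -/
theorem conv2_of_diag {k l : ℕ} {Q : Finset (ℕ × ℕ)} (hQ : Q ⊆ box2 k l) (hsp : Spans2 k l Q)
    (hNW : ∀ p ∈ Q, p.1 = 0 → p.2 ≠ 0) (hSE : ∀ p ∈ Q, p.1 + 1 = k → p.2 + 1 ≠ l) :
    Conv2 k l Q := by
  by_cases h : Indec Q
  · exact conv2_of_indec hQ hsp h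
  · obtain ⟨hNE, hSW⟩ := no_corner hQ hsp hNW hSE h
    by_cases h' : Indec (flp k Q)
    · exact Conv2.of_flp hQ (conv2_of_indec (flp_subset hQ) hsp.flp h')
    · obtain ⟨a, b, ha, hb, hab⟩ := cross_of_splits hQ hsp hNW hSE hNE hSW h h'
      exact conv2_of_cross hQ hsp ha hb hab

/-- Patterns without ones in the upper right and lower left corners. -/
theorem conv2_of_anti {k l : ℕ} {Q : Finset (ℕ × ℕ)} (hQ : Q ⊆ box2 k l) (hsp : Spans2 k l Q)
    (hNE : ∀ p ∈ Q, p.1 = 0 → p.2 + 1 ≠ l) (hSW : ∀ p ∈ Q, p.1 + 1 = k → p.2 ≠ 0) :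
    Conv2 k l Q := by
  apply Conv2.of_flp hQ
  apply conv2_of_diag (flp_subset hQ) hsp.flp
  · intro p hp hp0
    obtain ⟨q, hq, rfl⟩ := Finset.mem_image.1 hp
    have := mem_box2.1 (hQ hq)
    simp only at hp0
    exact hSW q hq (by omega)
  · intro p hp hpk
    obtain ⟨q, hq, rfl⟩ := Finset.mem_image.1 hp
    have := mem_box2.1 (hQ hq)
    simp only at hpk
    exact hNE q hq (by omega)

/-- Two adjacent corner ones: the upper two. -/
theorem conv2_NW_NE {k l : ℕ} {Q : Finset (ℕ × ℕ)} (hQ : Q ⊆ box2 k l) (hsp : Spans2 k l Q)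
    (hNW : ∃ p ∈ Q, p.1 = 0 ∧ p.2 = 0) (hNE : ∃ p ∈ Q, p.1 = 0 ∧ p.2 + 1 = l)
    (hSW : ∀ p ∈ Q, p.1 + 1 = k → p.2 ≠ 0) (hSE : ∀ p ∈ Q, p.1 + 1 = k → p.2 + 1 ≠ l) :
    Conv2 k l Q := by
  obtain ⟨p, hp, hp0, hp1⟩ := hNW
  have : p = (0, 0) := by ext <;> assumption
  rw [this] at hp
  exact conv2_top hsp hQ hp hNE hSW hSE

/-- Two adjacent corner ones: the lower two. -/
theorem conv2_SW_SE {k l : ℕ} {Q : Finset (ℕ × ℕ)} (hQ : Q ⊆ box2 k l) (hsp : Spans2 k l Q)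
    (hSW : ∃ p ∈ Q, p.1 + 1 = k ∧ p.2 = 0) (hSE : ∃ p ∈ Q, p.1 + 1 = k ∧ p.2 + 1 = l)
    (hNW : ∀ p ∈ Q, p.1 = 0 → p.2 ≠ 0) (hNE : ∀ p ∈ Q, p.1 = 0 → p.2 + 1 ≠ l) :
    Conv2 k l Q := by
  apply Conv2.of_flp hQ
  apply conv2_NW_NE (flp_subset hQ) hsp.flp
  · obtain ⟨p, hp, hp0, hp1⟩ := hSW
    refine ⟨_, Finset.mem_image_of_mem _ hp, ?_, hp1⟩
    show k - 1 - p.1 = 0
    omega
  · obtain ⟨p, hp, hp0, hp1⟩ := hSE
    refine ⟨_, Finset.mem_image_of_mem _ hp, ?_, hp1⟩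
    show k - 1 - p.1 = 0
    omega
  · intro p hp hpk
    obtain ⟨q, hq, rfl⟩ := Finset.mem_image.1 hp
    have := mem_box2.1 (hQ hq)
    simp only at hpk
    exact hNW q hq (by omega)
  · intro p hp hpk
    obtain ⟨q, hq, rfl⟩ := Finset.mem_image.1 hp
    have := mem_box2.1 (hQ hq)
    simp only at hpk
    exact hNE q hq (by omega)

/-- Two adjacent corner ones: the left two. -/
theorem conv2_NW_SW {k l : ℕ} {Q : Finset (ℕ × ℕ)} (hQ : Q ⊆ box2 k l) (hsp : Spans2 k l Q)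
    (hNW : ∃ p ∈ Q, p.1 = 0 ∧ p.2 = 0) (hSW : ∃ p ∈ Q, p.1 + 1 = k ∧ p.2 = 0)
    (hNE : ∀ p ∈ Q, p.1 = 0 → p.2 + 1 ≠ l) (hSE : ∀ p ∈ Q, p.1 + 1 = k → p.2 + 1 ≠ l) :
    Conv2 k l Q := by
  apply Conv2.of_swp
  apply conv2_NW_NE (swp_subset hQ) hsp.swp
  · obtain ⟨p, hp, hp0, hp1⟩ := hNW
    exact ⟨p.swap, mem_swp.2 (by rwa [Prod.swap_swap]), hp1, hp0⟩
  · obtain ⟨p, hp, hp0, hp1⟩ := hSW
    exact ⟨p.swap, mem_swp.2 (by rwa [Prod.swap_swap]), hp1, hp0⟩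
  · intro p hp hpk hp0
    exact hNE p.swap (mem_swp.1 hp) hp0 hpk
  · intro p hp hpk hp0
    exact hSE p.swap (mem_swp.1 hp) hp0 hpk

/-- Two adjacent corner ones: the right two. -/
theorem conv2_NE_SE {k l : ℕ} {Q : Finset (ℕ × ℕ)} (hQ : Q ⊆ box2 k l) (hsp : Spans2 k l Q)
    (hNE : ∃ p ∈ Q, p.1 = 0 ∧ p.2 + 1 = l) (hSE : ∃ p ∈ Q, p.1 + 1 = k ∧ p.2 + 1 = l)
    (hNW : ∀ p ∈ Q, p.1 = 0 → p.2 ≠ 0) (hSW : ∀ p ∈ Q, p.1 + 1 = k → p.2 ≠ 0) :
    Conv2 k l Q := by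
  apply Conv2.of_swp
  apply conv2_SW_SE (swp_subset hQ) hsp.swp
  · obtain ⟨p, hp, hp0, hp1⟩ := hNE
    exact ⟨p.swap, mem_swp.2 (by rwa [Prod.swap_swap]), hp1, hp0⟩
  · obtain ⟨p, hp, hp0, hp1⟩ := hSE
    exact ⟨p.swap, mem_swp.2 (by rwa [Prod.swap_swap]), hp1, hp0⟩
  · intro p hp hpk hp0
    exact hNW p.swap (mem_swp.1 hp) hp0 hpk
  · intro p hp hpk hp0
    exact hSW p.swap (mem_swp.1 hp) hp0 hpk

/-- a one is a corner one if each coordinate is extreme among all ones -/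
def IsCornerOne (P : Mat 2) (x : Fin 2 → ℕ) : Prop :=
  x ∈ P.ones ∧ ∀ ℓ, (∀ y ∈ P.ones, x ℓ ≤ y ℓ) ∨ (∀ y ∈ P.ones, y ℓ ≤ x ℓ)

/-- Spanning patterns with at most two corner ones. -/
theorem conv_spans {P : Mat 2} (hP : P.ones.Nonempty) (hsp : Spans P.size P.ones)
    (hc : {x | IsCornerOne P x}.ncard ≤ 2) :
    ∃ L : ℝ, Tendsto (fun n : ℕ => (m n P : ℝ) / (n : ℝ) ^ (2 - 1)) atTop (𝓝 L) := by
  classical
  have hfin : {x | IsCornerOne P x}.Finite := P.ones.finite_toSet.subset (fun x hx => hx.1)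
  -- a row or a column
  by_cases hdeg : P.size 0 ≤ 1 ∨ P.size 1 ≤ 1
  · have key : ∀ ℓ₀ ℓ₁ : Fin 2, ℓ₀ ≠ ℓ₁ → P.size ℓ₁ ≤ 1 →
        ∃ L : ℝ, Tendsto (fun n : ℕ => (m n P : ℝ) / (n : ℝ) ^ (2 - 1)) atTop (𝓝 L) := by
      intro ℓ₀ ℓ₁ hne h1
      have h3 : ∀ ℓ, ℓ ≠ ℓ₀ → (P.ones.image (fun x => x ℓ)).card ≤ 3 := by
        intro ℓ hℓ
        have hℓ1 : ℓ = ℓ₁ := by omega
        subst hℓ1
        have h4 : P.ones.image (fun x => x ℓ) ⊆ {0} := by
          intro v hv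
          obtain ⟨x, hx, rfl⟩ := Finset.mem_image.1 hv
          have := P.inBox x hx ℓ
          rw [Finset.mem_singleton]
          omega
        have h5 := Finset.card_le_card h4
        rw [Finset.card_singleton] at h5
        omega
      refine ⟨∑ ℓ, ((P.size ℓ : ℝ) - 1), ?_⟩
      have h := tendsto_frame (by norm_num : 0 < 2) P.size (Mat.size_pos hP)
      refine h.congr ?_
      intro n
      rw [m, maxOnes_eq hP ℓ₀ h3]
    rcases hdeg with h | h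
    · exact key 1 0 (by decide) h
    · exact key 0 1 (by decide) h
  push Not at hdeg
  obtain ⟨hk, hl⟩ := hdeg
  apply mat_of_conv2 hP
  set k := P.size 0 with hkdef
  set l := P.size 1 with hldef
  set Q := P.ones.image pr with hQdef
  have hQ : Q ⊆ box2 k l := image_pr_subset P.ones_subset
  have hsp2 : Spans2 k l Q := by
    refine ⟨?_, ?_, ?_, ?_⟩
    · obtain ⟨p, hp, hp'⟩ := (hsp 0).1
      exact ⟨_, Finset.mem_image_of_mem _ hp, hp'⟩
    · obtain ⟨p, hp, hp'⟩ := (hsp 0).2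
      exact ⟨_, Finset.mem_image_of_mem _ hp, hp'⟩
    · obtain ⟨p, hp, hp'⟩ := (hsp 1).1
      exact ⟨_, Finset.mem_image_of_mem _ hp, hp'⟩
    · obtain ⟨p, hp, hp'⟩ := (hsp 1).2
      exact ⟨_, Finset.mem_image_of_mem _ hp, hp'⟩
  -- corner ones from elements of `Q`
  have hcorner : ∀ p ∈ Q, (p.1 = 0 ∨ p.1 + 1 = k) → (p.2 = 0 ∨ p.2 + 1 = l) →
      ∃ x, IsCornerOne P x ∧ pr x = p := by
    intro p hp h1 h2
    obtain ⟨x, hx, rfl⟩ := Finset.mem_image.1 hp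
    refine ⟨x, ⟨hx, ?_⟩, rfl⟩
    intro ℓ
    fin_cases ℓ
    · rcases h1 with h1 | h1
      · left
        intro y _
        show x 0 ≤ y 0
        have : x 0 = 0 := h1
        omega
      · right
        intro y hy
        show y 0 ≤ x 0
        have h3 : x 0 + 1 = k := h1
        have h4 := P.inBox y hy 0
        omega
    · rcases h2 with h2 | h2
      · left
        intro y _
        show x 1 ≤ y 1
        have : x 1 = 0 := h2
        omega
      · right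
        intro y hy
        show y 1 ≤ x 1
        have h3 : x 1 + 1 = l := h2
        have h4 := P.inBox y hy 1
        omega
  -- three distinct corner ones are impossible
  have hthree : ∀ p₁ ∈ Q, ∀ p₂ ∈ Q, ∀ p₃ ∈ Q, (p₁.1 = 0 ∨ p₁.1 + 1 = k) →
      (p₁.2 = 0 ∨ p₁.2 + 1 = l) → (p₂.1 = 0 ∨ p₂.1 + 1 = k) → (p₂.2 = 0 ∨ p₂.2 + 1 = l) →
      (p₃.1 = 0 ∨ p₃.1 + 1 = k) → (p₃.2 = 0 ∨ p₃.2 + 1 = l) →
      p₁ ≠ p₂ → p₁ ≠ p₃ → p₂ ≠ p₃ → False := by
    intro p₁ h1 p₂ h2 p₃ h3 a1 b1 a2 b2 a3 b3 n12 n13 n23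
    obtain ⟨x₁, hx₁, e1⟩ := hcorner p₁ h1 a1 b1
    obtain ⟨x₂, hx₂, e2⟩ := hcorner p₂ h2 a2 b2
    obtain ⟨x₃, hx₃, e3⟩ := hcorner p₃ h3 a3 b3
    have hsub : (({x₁, x₂, x₃} : Finset (Fin 2 → ℕ)) : Set (Fin 2 → ℕ)) ⊆
        {x | IsCornerOne P x} := by
      intro x hx
      simp only [Finset.coe_insert, Finset.coe_singleton, Set.mem_insert_iff,
        Set.mem_singleton_iff] at hx
      rcases hx with rfl | rfl | rfl
      · exact hx₁
      · exact hx₂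
      · exact hx₃
    have h5 := Set.ncard_le_ncard hsub hfin
    rw [Set.ncard_coe_finset, Finset.card_eq_three.2 ⟨x₁, x₂, x₃, ?_, ?_, ?_, rfl⟩] at h5
    · omega
    · rintro rfl; exact n12 (e1.symm.trans e2)
    · rintro rfl; exact n13 (e1.symm.trans e3)
    · rintro rfl; exact n23 (e2.symm.trans e3)
  have nNW : (¬ ∃ p ∈ Q, p.1 = 0 ∧ p.2 = 0) → ∀ p ∈ Q, p.1 = 0 → p.2 ≠ 0 :=
    fun h p hp h1 h2 => h ⟨p, hp, h1, h2⟩
  have nNE : (¬ ∃ p ∈ Q, p.1 = 0 ∧ p.2 + 1 = l) → ∀ p ∈ Q, p.1 = 0 → p.2 + 1 ≠ l :=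
    fun h p hp h1 h2 => h ⟨p, hp, h1, h2⟩
  have nSW : (¬ ∃ p ∈ Q, p.1 + 1 = k ∧ p.2 = 0) → ∀ p ∈ Q, p.1 + 1 = k → p.2 ≠ 0 :=
    fun h p hp h1 h2 => h ⟨p, hp, h1, h2⟩
  have nSE : (¬ ∃ p ∈ Q, p.1 + 1 = k ∧ p.2 + 1 = l) → ∀ p ∈ Q, p.1 + 1 = k → p.2 + 1 ≠ l :=
    fun h p hp h1 h2 => h ⟨p, hp, h1, h2⟩
  by_cases cNW : ∃ p ∈ Q, p.1 = 0 ∧ p.2 = 0
  · obtain ⟨p1, hp1, a1, b1⟩ := cNW
    by_cases cNE : ∃ p ∈ Q, p.1 = 0 ∧ p.2 + 1 = l
    · obtain ⟨p2, hp2, a2, b2⟩ := cNE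
      refine conv2_NW_NE hQ hsp2 ⟨p1, hp1, a1, b1⟩ ⟨p2, hp2, a2, b2⟩ (nSW ?_) (nSE ?_)
      · rintro ⟨p3, hp3, a3, b3⟩
        refine hthree p1 hp1 p2 hp2 p3 hp3 (Or.inl a1) (Or.inl b1) (Or.inl a2) (Or.inr b2)
          (Or.inr a3) (Or.inl b3) ?_ ?_ ?_
        · rintro rfl; omega
        · rintro rfl; omega
        · rintro rfl; omega
      · rintro ⟨p3, hp3, a3, b3⟩
        refine hthree p1 hp1 p2 hp2 p3 hp3 (Or.inl a1) (Or.inl b1) (Or.inl a2) (Or.inr b2)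
          (Or.inr a3) (Or.inr b3) ?_ ?_ ?_
        · rintro rfl; omega
        · rintro rfl; omega
        · rintro rfl; omega
    · by_cases cSW : ∃ p ∈ Q, p.1 + 1 = k ∧ p.2 = 0
      · obtain ⟨p2, hp2, a2, b2⟩ := cSW
        refine conv2_NW_SW hQ hsp2 ⟨p1, hp1, a1, b1⟩ ⟨p2, hp2, a2, b2⟩ (nNE cNE) (nSE ?_)
        rintro ⟨p3, hp3, a3, b3⟩
        refine hthree p1 hp1 p2 hp2 p3 hp3 (Or.inl a1) (Or.inl b1) (Or.inr a2) (Or.inl b2)
          (Or.inr a3) (Or.inr b3) ?_ ?_ ?_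
        · rintro rfl; omega
        · rintro rfl; omega
        · rintro rfl; omega
      · exact conv2_of_anti hQ hsp2 (nNE cNE) (nSW cSW)
  · by_cases cSE : ∃ p ∈ Q, p.1 + 1 = k ∧ p.2 + 1 = l
    · obtain ⟨p1, hp1, a1, b1⟩ := cSE
      by_cases cNE : ∃ p ∈ Q, p.1 = 0 ∧ p.2 + 1 = l
      · obtain ⟨p2, hp2, a2, b2⟩ := cNE
        refine conv2_NE_SE hQ hsp2 ⟨p2, hp2, a2, b2⟩ ⟨p1, hp1, a1, b1⟩ (nNW cNW) (nSW ?_)
        rintro ⟨p3, hp3, a3, b3⟩
        refine hthree p1 hp1 p2 hp2 p3 hp3 (Or.inr a1) (Or.inr b1) (Or.inl a2) (Or.inr b2)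
          (Or.inr a3) (Or.inl b3) ?_ ?_ ?_
        · rintro rfl; omega
        · rintro rfl; omega
        · rintro rfl; omega
      · by_cases cSW : ∃ p ∈ Q, p.1 + 1 = k ∧ p.2 = 0
        · obtain ⟨p2, hp2, a2, b2⟩ := cSW
          exact conv2_SW_SE hQ hsp2 ⟨p2, hp2, a2, b2⟩ ⟨p1, hp1, a1, b1⟩ (nNW cNW) (nNE cNE)
        · exact conv2_of_anti hQ hsp2 (nNE cNE) (nSW cSW)
    · exact conv2_of_diag hQ hsp2 (nNW cNW) (nSE cSE)

/-- the zero pattern -/
lemma m_zero_pattern {d : ℕ} {P : Mat d} (hP : ¬ P.ones.Nonempty) {n : ℕ}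
    (hn : ∀ ℓ, P.size ℓ ≤ n) : m n P = 0 := by
  have hset : {s | ∃ A : Mat d, A.size = (fun _ => n) ∧ ¬ ContainsMinor A P ∧ A.ones.card = s} =
      ∅ := by
    rw [Set.eq_empty_iff_forall_notMem]
    rintro s ⟨A, hA, hAP, _⟩
    apply hAP
    refine ⟨A, Relation.ReflTransGen.refl, fun _ i => i, fun _ _ _ h _ => h, ?_, ?_⟩
    · intro ℓ i hi
      rw [hA]
      exact lt_of_lt_of_le hi (hn ℓ)
    · intro x hx
      exact absurd ⟨x, hx⟩ hP
  unfold m maxOnes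
  rw [hset]
  simp

/-- All two-dimensional patterns with at most two corner ones. -/
theorem conv_two_corners (P : Mat 2) (hc : {x | IsCornerOne P x}.ncard ≤ 2) : Conv P := by
  classical
  by_cases hP : P.ones.Nonempty
  · obtain ⟨a, b, P₀, h0, hspan, hsize, hones⟩ := exists_trim hP
    have hPeq : P = pad a b P₀ := by
      cases P
      simp only at hsize hones
      subst hsize
      subst hones
      rfl
    rw [hPeq]
    apply converges_pad (by norm_num) h0 hspan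
    apply conv_spans h0 hspan
    refine le_trans ?_ hc
    have hfin : {x | IsCornerOne P x}.Finite := P.ones.finite_toSet.subset (fun x hx => hx.1)
    refine Set.ncard_le_ncard_of_injOn (fun x => fun ℓ => x ℓ + a ℓ) ?_ ?_ hfin
    · rintro x ⟨hx, hx'⟩
      rw [hPeq]
      refine ⟨Finset.mem_image_of_mem _ hx, ?_⟩
      intro ℓ
      rcases hx' ℓ with h | h
      · left
        intro y hy
        obtain ⟨z, hz, rfl⟩ := Finset.mem_image.1 hy
        have := h z hz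
        show x ℓ + a ℓ ≤ z ℓ + a ℓ
        omega
      · right
        intro y hy
        obtain ⟨z, hz, rfl⟩ := Finset.mem_image.1 hy
        have := h z hz
        show z ℓ + a ℓ ≤ x ℓ + a ℓ
        omega
    · intro x _ y _ hxy
      funext ℓ
      have := congrFun hxy ℓ
      simp only at this
      omega
  · refine ⟨0, ?_⟩
    refine tendsto_const_nhds.congr' ?_
    filter_upwards [eventually_ge_atTop (∑ ℓ, P.size ℓ)] with n hn
    rw [m_zero_pattern hP (fun ℓ => (Finset.single_le_sum (f := P.size)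
      (fun _ _ => Nat.zero_le _) (Finset.mem_univ ℓ)).trans hn)]
    simp

end Pool.Agent.Helper450IM
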