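import Pool.Agent.helper450_im.Zone

/-!
# The limit for two-dimensional patterns with two adjacent corner ones
-/

namespace Pool.Agent.Helper450IM

open Finset Filter Topology

/-- A monotone function of at most linear growth that is superadditive up to a small relative
error has a limiting slope. -/
theorem tendsto_of_almost_super {f : ℕ → ℕ} (hmono : Monotone f) {K r : ℕ}
    (hK : ∀ n, f n ≤ K * n)
    (h : ∀ q, 1 ≤ q → ∃ C, ∀ n j, j * ((q - 1) * (f n - C)) ≤ q * f (j * n + r)) :
    ∃ L : ℝ, Tendsto (fun n : ℕ => (f n : ℝ) / n) atTop (𝓝 L) := by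
  set g : ℕ → ℝ := fun n => (f n : ℝ) / n with hg
  have hg0 : ∀ n, 0 ≤ g n := fun n => by rw [hg]; positivity
  have hgK : ∀ n, g n ≤ K := by
    intro n
    rcases Nat.eq_zero_or_pos n with h0 | h0
    · rw [hg]; subst h0; simp
    · have : (0 : ℝ) < n := by exact_mod_cast h0
      rw [hg]
      simp only
      rw [div_le_iff₀ this]
      exact_mod_cast hK n
  have hbu : IsBoundedUnder (· ≤ ·) atTop g := isBoundedUnder_of ⟨K, hgK⟩
  have hbl : IsCoboundedUnder (· ≤ ·) atTop g :=
    (isBoundedUnder_of ⟨0, hg0⟩ : IsBoundedUnder (· ≥ ·) atTop g).isCoboundedUnder_le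
  refine ⟨limsup g atTop, ?_⟩
  rw [tendsto_order]
  constructor
  · intro a ha
    by_cases ha0 : a < 0
    · filter_upwards with n
      exact lt_of_lt_of_le ha0 (hg0 n)
    push Not at ha0
    obtain ⟨b, hab, hbL⟩ := exists_between ha
    obtain ⟨c, hbc, hcL⟩ := exists_between hbL
    have hb0 : 0 < b := lt_of_le_of_lt ha0 hab
    have hc0 : 0 < c := lt_trans hb0 hbc
    -- choose `q`
    obtain ⟨q, hq⟩ := exists_nat_gt (c / (c - b))
    have hcb : 0 < c - b := by linarith
    have hq1 : 1 ≤ q := by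
      rcases Nat.eq_zero_or_pos q with h0 | h0
      · exfalso
        rw [h0, Nat.cast_zero] at hq
        have : 0 < c / (c - b) := div_pos hc0 hcb
        linarith
      · exact h0
    have hqb : (q : ℝ) * b < (q - 1) * c := by
      rw [div_lt_iff₀ hcb] at hq
      nlinarith
    obtain ⟨C, hC⟩ := h q hq1
    -- choose `n`
    have hfreq : ∃ᶠ n in atTop, c < g n := frequently_lt_of_lt_limsup hbl hcL
    have hgap : 0 < (q - 1) * c - q * b := by linarith
    obtain ⟨n₀, hn₀⟩ := exists_nat_gt (((q : ℝ) - 1) * C / ((q - 1) * c - q * b))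
    obtain ⟨n, hcn, hn⟩ := (hfreq.and_eventually (eventually_ge_atTop (n₀ + 1))).exists
    have hn1 : 0 < n := by omega
    have hnR : (0 : ℝ) < n := by exact_mod_cast hn1
    have hfn : c * n < f n := by
      rw [hg] at hcn
      simp only at hcn
      rwa [lt_div_iff₀ hnR] at hcn
    have hqR : (1 : ℝ) ≤ q := by exact_mod_cast hq1
    have hkey : (q : ℝ) * b * n < (q - 1) * (f n - C) := by
      have h1 : ((q : ℝ) - 1) * C < n * ((q - 1) * c - q * b) := by
        rw [div_lt_iff₀ hgap] at hn₀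
        have h2 : (n₀ : ℝ) ≤ n := by exact_mod_cast (by omega : n₀ ≤ n)
        nlinarith
      have h3 : ((q : ℝ) - 1) * (c * n) ≤ (q - 1) * f n :=
        mul_le_mul_of_nonneg_left hfn.le (by linarith)
      nlinarith
    -- large arguments
    obtain ⟨N₀, hN₀⟩ := exists_nat_gt (b * (r + n) / (b - a))
    filter_upwards [eventually_ge_atTop (N₀ + r + n + 1)] with N hN
    set j := (N - r) / n with hj
    have hjn : j * n ≤ N - r := Nat.div_mul_le_self _ _
    have hjn' : N - r < j * n + n := by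
      have h1 := Nat.div_add_mod (N - r) n
      have h2 := Nat.mod_lt (N - r) hn1
      rw [← hj] at h1
      have h3 : n * j = j * n := Nat.mul_comm _ _
      omega
    have hfN : f (j * n + r) ≤ f N := hmono (by omega)
    have h1 := hC n j
    have hNR : (0 : ℝ) < N := by exact_mod_cast (by omega : 0 < N)
    -- real version of the estimate
    have h2 : (j : ℝ) * (((q : ℝ) - 1) * (f n - C)) ≤ q * f N := by
      have h3 : ((j * ((q - 1) * (f n - C)) : ℕ) : ℝ) ≤ ((q * f (j * n + r) : ℕ) : ℝ) := by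
        exact_mod_cast h1
      push_cast [Nat.cast_sub hq1] at h3
      have h4 : ((f n : ℝ) - C) ≤ ((f n - C : ℕ) : ℝ) := by
        rw [sub_le_iff_le_add]
        exact_mod_cast (by omega : f n ≤ f n - C + C)
      have h5 : (j : ℝ) * (((q : ℝ) - 1) * (f n - C)) ≤
          j * (((q : ℝ) - 1) * ((f n - C : ℕ) : ℝ)) := by
        apply mul_le_mul_of_nonneg_left _ (by positivity)
        exact mul_le_mul_of_nonneg_left h4 (by linarith)
      have h6 : (q : ℝ) * f (j * n + r) ≤ q * f N := by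
        apply mul_le_mul_of_nonneg_left _ (by linarith)
        exact_mod_cast hfN
      linarith
    have h3 : (j : ℝ) * (b * n) ≤ f N := by
      have h4 : (j : ℝ) * (q * b * n) ≤ j * (((q : ℝ) - 1) * (f n - C)) :=
        mul_le_mul_of_nonneg_left hkey.le (by positivity)
      have h5 : (q : ℝ) * (j * (b * n)) ≤ q * f N := by
        calc (q : ℝ) * (j * (b * n)) = j * (q * b * n) := by ring
          _ ≤ _ := h4.trans h2
      exact le_of_mul_le_mul_left h5 (by linarith)
    have h4 : (N : ℝ) - r - n ≤ j * n := by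
      have h5 : (N : ℝ) ≤ ((j * n + n + r : ℕ) : ℝ) := by exact_mod_cast (by omega)
      push_cast at h5
      linarith
    have h5 : a * N < f N := by
      have h6 : b * (r + n) < N * (b - a) := by
        rw [div_lt_iff₀ (by linarith)] at hN₀
        have h7 : (N₀ : ℝ) ≤ N := by exact_mod_cast (by omega : N₀ ≤ N)
        nlinarith
      have h7 : b * ((N : ℝ) - r - n) ≤ b * (j * n) := mul_le_mul_of_nonneg_left h4 hb0.le
      nlinarith
    rw [hg]
    simp only
    rwa [lt_div_iff₀ hNR]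
  · intro a ha
    exact eventually_lt_of_limsup_lt ha hbu

/-- existence of the limit, in terms of sets of pairs -/
def Conv2 (k l : ℕ) (P : Finset (ℕ × ℕ)) : Prop :=
  ∃ L : ℝ, Tendsto (fun n : ℕ => (M2 n n k l P : ℝ) / n) atTop (𝓝 L)

/-- a linear bound for the extremal function -/
lemma exists_bound2 {k l : ℕ} {P : Finset (ℕ × ℕ)} (hP : P ⊆ box2 k l) (h0 : P.Nonempty) :
    ∃ K, ∀ n, M2 n n k l P ≤ K * n := by
  classical
  set Q : Mat 2 := ⟨![k, l], P.image (fun p => (![p.1, p.2] : Fin 2 → ℕ)), by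
    intro x hx ℓ
    obtain ⟨p, hp, rfl⟩ := Finset.mem_image.1 hx
    have := mem_box2.1 (hP hp)
    fin_cases ℓ
    · exact this.1
    · exact this.2⟩ with hQ
  have hQ0 : Q.ones.Nonempty := h0.image _
  have himg : Q.ones.image pr = P := by
    rw [hQ]
    show (P.image (fun p => (![p.1, p.2] : Fin 2 → ℕ))).image pr = P
    rw [Finset.image_image]
    have : (pr ∘ fun p : ℕ × ℕ => (![p.1, p.2] : Fin 2 → ℕ)) = id := by
      funext p
      exact pr_surj p
    rw [this, Finset.image_id]
  obtain ⟨C, hC⟩ := exists_bound (by norm_num : 0 < 2) hQ0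
  refine ⟨C, fun n => ?_⟩
  have h1 := hC n
  rw [m, maxOnes_eq_M2 hQ0, himg] at h1
  have e0 : Q.size 0 = k := rfl
  have e1 : Q.size 1 = l := rfl
  rw [e0, e1] at h1
  simpa using h1

/-- Patterns with ones in both upper corners and zeros in both lower corners. -/
theorem conv2_top {k l : ℕ} {P : Finset (ℕ × ℕ)} (hsp : Spans2 k l P) (hP : P ⊆ box2 k l)
    (hNW : ((0, 0) : ℕ × ℕ) ∈ P) (hNE : ∃ p ∈ P, p.1 = 0 ∧ p.2 + 1 = l)
    (hSW : ∀ p ∈ P, p.1 + 1 = k → p.2 ≠ 0) (hSE : ∀ p ∈ P, p.1 + 1 = k → p.2 + 1 ≠ l) :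
    Conv2 k l P := by
  obtain ⟨K, hK⟩ := exists_bound2 hP hsp.nonempty
  apply tendsto_of_almost_super (f := fun n => M2 n n k l P) (K := K) (r := l - 1) _ hK
  · intro q hq
    refine ⟨k * 2 ^ (l * q) * (l * q), fun n j => ?_⟩
    obtain ⟨S, hS, hE, hc⟩ := exists_M2 n n k l hsp.nonempty
    have h1 := main_estimate hsp hP hNW hNE hsp.bot hSW hSE hS hE hq j
    rw [hc] at h1
    refine h1.trans (Nat.mul_le_mul_left _ ?_)
    apply M2_mono hsp
    · omega
    · omega
  · intro a b hab
    exact M2_mono hsp hab hab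

lemma Conv2.of_swp {k l : ℕ} {P : Finset (ℕ × ℕ)} (h : Conv2 l k (swp P)) : Conv2 k l P := by
  obtain ⟨L, hL⟩ := h
  refine ⟨L, hL.congr (fun n => ?_)⟩
  rw [M2_swp]

lemma Conv2.of_flp {k l : ℕ} {P : Finset (ℕ × ℕ)} (hP : P ⊆ box2 k l)
    (h : Conv2 k l (flp k P)) : Conv2 k l P := by
  obtain ⟨L, hL⟩ := h
  refine ⟨L, hL.congr (fun n => ?_)⟩
  rw [M2_flp hP]

end Pool.Agent.Helper450IM
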