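import Pool.Agent.helper450_im.Insert

/-!
# Preparing an avoiding matrix for insertion
-/

namespace Pool.Agent.Helper450IM

open Finset

/-! ## Iterating the insertion -/

theorem iterate_ins {t w g w₀ k l c z : ℕ} {M N₀ P : Finset (ℕ × ℕ)} (hM : M ⊆ box2 t w)
    (hN : N₀ ⊆ box2 g w₀) (hz : c + z ≤ w)
    (hzone : ∀ x ∈ M, c ≤ x.2 → x.2 < c + z → x.1 = 0)
    (hcnt : l ≤ cntTop M c (c + z))
    (hP : P ⊆ box2 k l)
    (hNW : ((0, 0) : ℕ × ℕ) ∈ P) (hNE : ∃ p ∈ P, p.1 = 0 ∧ p.2 + 1 = l)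
    (hlast : ∃ p ∈ P, p.1 + 1 = k) (hSW : ∀ p ∈ P, p.1 + 1 = k → p.2 ≠ 0)
    (hSE : ∀ p ∈ P, p.1 + 1 = k → p.2 + 1 ≠ l)
    (hMP : ¬ Emb2 t w k l M P) (hNP : ¬ Emb2 g w₀ k l N₀ P) (j : ℕ) :
    ∃ N ⊆ box2 (g + j * t) (w₀ + j * w), ¬ Emb2 (g + j * t) (w₀ + j * w) k l N P ∧
      N.card = N₀.card + j * M.card := by
  induction j with
  | zero => exact ⟨N₀, by simpa using hN, by simpa using hNP, by simp⟩
  | succ j ih =>
    obtain ⟨N, hN1, hN2, hN3⟩ := ih
    refine ⟨ins (g + j * t) (w₀ + j * w) c M N, ?_, ?_, ?_⟩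
    · have h := ins_subset (by omega : c ≤ w) hM hN1
      have e1 : g + (j + 1) * t = g + j * t + t := by ring
      have e2 : w₀ + (j + 1) * w = w₀ + j * w + w := by ring
      rw [e1, e2]
      exact h
    · have h := ins_avoids hM hN1 hz hzone hcnt hP hNW hNE hlast hSW hSE hMP hN2
      have e1 : g + (j + 1) * t = g + j * t + t := by ring
      have e2 : w₀ + (j + 1) * w = w₀ + j * w + w := by ring
      rw [e1, e2]
      exact h
    · rw [card_ins hN1, hN3]
      ring

/-! ## Contracting the first rows -/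

/-- the rows `0, …, h` merged into one -/
def ctr (h : ℕ) (S : Finset (ℕ × ℕ)) : Finset (ℕ × ℕ) := S.image (fun x => (x.1 - h, x.2))

lemma onto_ctr {t h : ℕ} (ht : h < t) : Onto t (t - h) (fun i => i - h) where
  mono := by
    intro i j hij
    show i - h ≤ j - h
    omega
  lt := by
    intro i hi
    show i - h < t - h
    omega
  surj := by
    intro j hj
    exact ⟨j + h, by omega, by omega⟩

lemma ctr_avoids {t w k l h : ℕ} {S P : Finset (ℕ × ℕ)} (ht : h < t)
    (hE : ¬ Emb2 t w k l S P) : ¬ Emb2 (t - h) w k l (ctr h S) P := by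
  rintro ⟨φ, ψ, hφ, hψ, hP⟩
  apply hE
  refine ⟨φ ∘ (fun i => i - h), ψ, (onto_ctr ht).comp hφ, hψ, ?_⟩
  intro p hp
  obtain ⟨s, hs, hs1, hs2⟩ := hP p hp
  obtain ⟨x, hx, rfl⟩ := Finset.mem_image.1 hs
  exact ⟨x, hx, hs1, hs2⟩

lemma ctr_subset {t w h : ℕ} {S : Finset (ℕ × ℕ)} (ht : h < t) (hS : S ⊆ box2 t w) :
    ctr h S ⊆ box2 (t - h) w := by
  intro y hy
  obtain ⟨x, hx, rfl⟩ := Finset.mem_image.1 hy
  have := mem_box2.1 (hS hx)
  rw [mem_box2]
  show x.1 - h < t - h ∧ x.2 < w
  omega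

lemma card_le_ctr (h : ℕ) (S : Finset (ℕ × ℕ)) :
    S.card ≤ (ctr h S).card + (S.filter (fun x => x.1 < h)).card := by
  have h1 : (S.filter (fun x => ¬ x.1 < h)).card ≤ (ctr h S).card := by
    apply Finset.card_le_card_of_injOn (fun x => (x.1 - h, x.2))
    · intro x hx
      exact Finset.mem_image_of_mem _ (Finset.mem_filter.1 hx).1
    · intro x hx y hy hxy
      have h2 := (Finset.mem_filter.1 hx).2
      have h3 := (Finset.mem_filter.1 hy).2
      simp only [Prod.mk.injEq] at hxy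
      ext
      · omega
      · exact hxy.2
  have h2 := Finset.card_filter_add_card_filter_not (s := S) (fun x : ℕ × ℕ => x.1 < h)
  omega

/-! ## Few touched columns -/

/-- the columns touched by the first `h` rows -/
def touched (S : Finset (ℕ × ℕ)) (h : ℕ) : Finset ℕ :=
  (S.filter (fun x => x.1 < h)).image Prod.snd

lemma few_cols {t w k l h ρ : ℕ} {S P : Finset (ℕ × ℕ)} (hS : S ⊆ box2 t w) (hk : 1 ≤ k)
    (hl : 1 ≤ l) (hP : P ⊆ box2 k l) (hE : ¬ Emb2 t w k l S P)
    (hρ : (touched S h).card < ρ) :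
    (S.filter (fun x => x.1 < h)).card ≤ (l - 1) * h + k * 2 ^ ρ * ρ := by
  classical
  set U := touched S h with hU
  set R : ℕ → Finset ℕ := fun i => U.filter (fun j => ((i, j) : ℕ × ℕ) ∈ S) with hR
  -- the ones, row by row
  have hsum : (S.filter (fun x => x.1 < h)).card ≤ ∑ i ∈ Finset.range h, (R i).card := by
    rw [← Finset.card_sigma]
    apply Finset.card_le_card_of_injOn (fun x : ℕ × ℕ => (⟨x.1, x.2⟩ : (_ : ℕ) × ℕ))
    · intro x hx
      simp only [Finset.coe_sigma, Set.mem_sigma_iff, Finset.mem_coe, Finset.mem_range]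
      have hx' := Finset.mem_filter.1 hx
      refine ⟨hx'.2, ?_⟩
      rw [hR, Finset.mem_filter]
      exact ⟨Finset.mem_image_of_mem _ hx, hx'.1⟩
    · intro x _ y _ hxy
      simp only [Sigma.mk.injEq, heq_eq_eq] at hxy
      ext
      · exact hxy.1
      · exact hxy.2
  -- heavy rows
  set H := (Finset.range h).filter (fun i => l ≤ (R i).card) with hH
  have hHc : H.card ≤ k * 2 ^ ρ := by
    have h1 : H.card ≤ k * (H.image R).card := by
      apply Finset.card_le_mul_card_image
      intro A hA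
      obtain ⟨i₀, hi₀, hi₀'⟩ := Finset.mem_image.1 hA
      have hAl : l ≤ A.card := by
        rw [← hi₀']
        exact (Finset.mem_filter.1 hi₀).2
      by_contra hcon
      push Not at hcon
      set I := H.filter (fun i => R i = A) with hI
      have hmem : ∀ i ∈ I, ∀ j ∈ A, ((i, j) : ℕ × ℕ) ∈ S := by
        intro i hi j hj
        have h2 := (Finset.mem_filter.1 hi).2
        rw [← h2, hR, Finset.mem_filter] at hj
        exact hj.2
      have hIt : ∀ i ∈ I, i < t := by
        intro i hi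
        have hAne : A.Nonempty := Finset.card_pos.1 (by omega)
        obtain ⟨j, hj⟩ := hAne
        exact (mem_box2.1 (hS (hmem i hi j hj))).1
      have hAw : ∀ j ∈ A, j < w := by
        intro j hj
        have hIne : I.Nonempty := Finset.card_pos.1 (by omega)
        obtain ⟨i, hi⟩ := hIne
        exact (mem_box2.1 (hS (hmem i hi j hj))).2
      obtain ⟨o1, e1⟩ := onto_count (K := k) hk hIt (by omega)
      obtain ⟨o2, e2⟩ := onto_count (K := l) hl hAw hAl
      apply hE
      refine ⟨_, _, o1, o2, ?_⟩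
      intro p hp
      have hp' := mem_box2.1 (hP hp)
      obtain ⟨i, hi, hi'⟩ := e1 p.1 hp'.1
      obtain ⟨j, hj, hj'⟩ := e2 p.2 hp'.2
      exact ⟨(i, j), hmem i hi j hj, hi', hj'⟩
    have h2 : (H.image R).card ≤ 2 ^ ρ := by
      have h3 : H.image R ⊆ U.powerset := by
        intro A hA
        obtain ⟨i, _, rfl⟩ := Finset.mem_image.1 hA
        rw [Finset.mem_powerset]
        exact Finset.filter_subset _ _
      calc (H.image R).card ≤ U.powerset.card := Finset.card_le_card h3
        _ = 2 ^ U.card := Finset.card_powerset _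
        _ ≤ 2 ^ ρ := Nat.pow_le_pow_right (by norm_num) hρ.le
    exact h1.trans (Nat.mul_le_mul_left _ h2)
  have hbound : ∀ i ∈ Finset.range h, (R i).card ≤ (l - 1) + if i ∈ H then ρ else 0 := by
    intro i hi
    by_cases hiH : i ∈ H
    · rw [if_pos hiH]
      have : (R i).card ≤ U.card := Finset.card_le_card (Finset.filter_subset _ _)
      omega
    · rw [if_neg hiH]
      rw [hH, Finset.mem_filter] at hiH
      push Not at hiH
      have := hiH hi
      omega
  calc (S.filter (fun x => x.1 < h)).card ≤ ∑ i ∈ Finset.range h, (R i).card := hsum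
    _ ≤ ∑ i ∈ Finset.range h, ((l - 1) + if i ∈ H then ρ else 0) := Finset.sum_le_sum hbound
    _ = (l - 1) * h + H.card * ρ := by
        rw [Finset.sum_add_distrib, Finset.sum_const, Finset.card_range, smul_eq_mul,
          Finset.sum_ite_mem, Finset.inter_eq_right.2 (Finset.filter_subset _ _),
          Finset.sum_const, smul_eq_mul]
        ring
    _ ≤ (l - 1) * h + k * 2 ^ ρ * ρ := by
        have := Nat.mul_le_mul_right ρ hHc
        omega

/-! ## Choosing the zone -/

lemma cntTop_add {M : Finset (ℕ × ℕ)} {a b c : ℕ} (hab : a ≤ b) (hbc : b ≤ c) :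
    cntTop M a b + cntTop M b c = cntTop M a c := by
  obtain ⟨e, rfl⟩ := Nat.exists_eq_add_of_le hbc
  induction e with
  | zero => rw [add_zero, cntTop_self, add_zero]
  | succ e ih =>
    have h1 := ih (by omega)
    have h2 : b + (e + 1) = b + e + 1 := by ring
    rw [h2]
    by_cases hm : ((0, b + e) : ℕ × ℕ) ∈ M
    · rw [cntTop_succ_of_mem (by omega) hm, cntTop_succ_of_mem (by omega) hm]
      omega
    · rw [cntTop_succ_of_not_mem (by tauto), cntTop_succ_of_not_mem (by tauto)]
      exact h1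

lemma exists_pos {M : Finset (ℕ × ℕ)} {w r : ℕ} (h : r ≤ cntTop M 0 w) :
    ∃ p, p ≤ w ∧ cntTop M 0 p = r ∧ ∀ j, j < p → cntTop M 0 j < r := by
  classical
  have hex : ∃ j, r ≤ cntTop M 0 j := ⟨w, h⟩
  refine ⟨Nat.find hex, Nat.find_le h, ?_, ?_⟩
  · have h1 := Nat.find_spec hex
    rcases Nat.eq_zero_or_pos (Nat.find hex) with h0 | h0
    · rw [h0] at h1 ⊢
      rw [cntTop_self] at h1 ⊢
      omega
    · have h2 := Nat.find_min hex (Nat.sub_lt h0 Nat.one_pos)
      have h3 := cntTop_succ_le M 0 (Nat.find hex - 1)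
      rw [Nat.sub_add_cancel h0] at h3
      omega
  · intro j hj
    have := Nat.find_min hex hj
    omega

theorem exists_zone {w l q : ℕ} {S : Finset (ℕ × ℕ)} (hl : 1 ≤ l) (hq : 1 ≤ q)
    (h : l * q ≤ cntTop S 0 w) :
    ∃ c z, c + z ≤ w ∧ l ≤ cntTop S c (c + z) ∧
      q * (S.filter (fun x => c ≤ x.2 ∧ x.2 < c + z)).card ≤ S.card := by
  classical
  -- pigeonhole
  obtain ⟨i, hi, hi'⟩ : ∃ i ∈ Finset.range q,
      q * (S.filter (fun x => cntTop S 0 x.2 / l = i)).card ≤ S.card := by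
    by_contra hcon
    push Not at hcon
    have h1 : ∑ i ∈ Finset.range q, (S.filter (fun x => cntTop S 0 x.2 / l = i)).card ≤ S.card := by
      rw [← Finset.card_biUnion]
      · apply Finset.card_le_card
        intro x hx
        obtain ⟨i, _, hx'⟩ := Finset.mem_biUnion.1 hx
        exact (Finset.mem_filter.1 hx').1
      · intro a _ b _ hab
        simp only [Function.onFun]
        rw [Finset.disjoint_left]
        intro x hx hx'
        exact hab ((Finset.mem_filter.1 hx).2.symm.trans (Finset.mem_filter.1 hx').2)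
    have h2 : q * S.card < ∑ i ∈ Finset.range q,
        q * (S.filter (fun x => cntTop S 0 x.2 / l = i)).card := by
      calc q * S.card = ∑ _i ∈ Finset.range q, S.card := by simp
        _ < _ := Finset.sum_lt_sum_of_nonempty (by simpa using (by omega : q ≠ 0)) hcon
    rw [← Finset.mul_sum] at h2
    have h3 := Nat.lt_of_mul_lt_mul_left h2
    omega
  rw [Finset.mem_range] at hi
  have hil : i * l ≤ l * q := by
    calc i * l = l * i := by ring
      _ ≤ l * q := Nat.mul_le_mul_left _ hi.le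
  have hil' : (i + 1) * l ≤ l * q := by
    calc (i + 1) * l = l * (i + 1) := by ring
      _ ≤ l * q := Nat.mul_le_mul_left _ hi
  obtain ⟨c, hc1, hc2, hc3⟩ := exists_pos (hil.trans h)
  obtain ⟨e, he1, he2, he3⟩ := exists_pos (hil'.trans h)
  have hce : c ≤ e := by
    by_contra hcon
    push Not at hcon
    have h1 := hc3 e hcon
    rw [he2, add_mul] at h1
    omega
  refine ⟨c, e - c, by omega, ?_, ?_⟩
  · have h1 := cntTop_add (M := S) (Nat.zero_le c) hce
    rw [show c + (e - c) = e by omega]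
    rw [hc2, he2, add_mul, one_mul] at h1
    omega
  · refine le_trans (Nat.mul_le_mul_left _ (Finset.card_le_card ?_)) hi'
    intro x hx
    rw [Finset.mem_filter] at hx ⊢
    refine ⟨hx.1, ?_⟩
    have h1 : i * l ≤ cntTop S 0 x.2 := by
      rw [← hc2]
      exact cntTop_mono S 0 hx.2.1
    have h2 : cntTop S 0 x.2 < (i + 1) * l := he3 _ (by omega)
    exact Nat.div_eq_of_lt_le h1 h2

/-! ## The full block with `l - 1` columns -/

lemma block_avoids2 {g k l : ℕ} {P : Finset (ℕ × ℕ)} (hl : 1 ≤ l) :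
    ¬ Emb2 g (l - 1) k l (box2 g (l - 1)) P := by
  rintro ⟨φ, ψ, _, hψ, _⟩
  have := hψ.k_le
  omega

lemma card_box2 (t w : ℕ) : (box2 t w).card = t * w := by
  simp [box2]

/-! ## The main estimate -/

theorem main_estimate {t w k l : ℕ} {S P : Finset (ℕ × ℕ)} (hsp : Spans2 k l P)
    (hP : P ⊆ box2 k l)
    (hNW : ((0, 0) : ℕ × ℕ) ∈ P) (hNE : ∃ p ∈ P, p.1 = 0 ∧ p.2 + 1 = l)
    (hlast : ∃ p ∈ P, p.1 + 1 = k) (hSW : ∀ p ∈ P, p.1 + 1 = k → p.2 ≠ 0)
    (hSE : ∀ p ∈ P, p.1 + 1 = k → p.2 + 1 ≠ l)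
    (hS : S ⊆ box2 t w) (hE : ¬ Emb2 t w k l S P) {q : ℕ} (hq : 1 ≤ q) (j : ℕ) :
    j * ((q - 1) * (S.card - k * 2 ^ (l * q) * (l * q))) ≤
      q * M2 (j * t) (l - 1 + j * w) k l P := by
  classical
  have hk : 1 ≤ k := by have := (mem_box2.1 (hP hNW)).1; omega
  have hl : 1 ≤ l := by have := (mem_box2.1 (hP hNW)).2; omega
  have hρ : 1 ≤ l * q := Nat.mul_pos hl hq
  set C := k * 2 ^ (l * q) * (l * q) with hC
  by_cases hcase : ∃ h, h ≤ t ∧ l * q ≤ (touched S h).card
  · have hex : ∃ h, l * q ≤ (touched S h).card := by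
      obtain ⟨h, _, hh⟩ := hcase
      exact ⟨h, hh⟩
    set h := Nat.find hex with hh
    have hh1 : l * q ≤ (touched S h).card := Nat.find_spec hex
    have hht : h ≤ t := by
      obtain ⟨h₀, h1, h2⟩ := hcase
      exact (Nat.find_min' hex h2).trans h1
    have hh0 : 0 < h := by
      rcases Nat.eq_zero_or_pos h with h0 | h0
      · exfalso
        rw [h0] at hh1
        have : touched S 0 = ∅ := by
          rw [touched, Finset.image_eq_empty, Finset.filter_eq_empty_iff]
          intro x _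
          omega
        rw [this, Finset.card_empty] at hh1
        omega
      · exact h0
    have hlt : h - 1 < t := by omega
    have hfew : (touched S (h - 1)).card < l * q := by
      have := Nat.find_min hex (m := h - 1) (by omega)
      omega
    have h1 := few_cols hS hk hl hP hE hfew
    rw [← hC] at h1
    -- contraction
    set S₁ := ctr (h - 1) S with hS₁
    have hS₁b := ctr_subset hlt hS
    have hS₁E := ctr_avoids hlt hE
    rw [← hS₁] at hS₁b hS₁E
    have h2 := card_le_ctr (h - 1) S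
    rw [← hS₁] at h2
    have htop : l * q ≤ cntTop S₁ 0 w := by
      refine hh1.trans ?_
      apply Finset.card_le_card
      intro y hy
      obtain ⟨x, hx, rfl⟩ := Finset.mem_image.1 hy
      rw [Finset.mem_filter] at hx
      rw [Finset.mem_filter, Finset.mem_range]
      refine ⟨(mem_box2.1 (hS hx.1)).2, Nat.zero_le _, ?_⟩
      rw [hS₁, ctr, Finset.mem_image]
      refine ⟨x, hx.1, ?_⟩
      have : x.1 - (h - 1) = 0 := by omega
      rw [this]
    obtain ⟨c, z, hcz, hcnt, hsmall⟩ := exists_zone hl hq htop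
    -- clearing the zone
    set S₂ := S₁.filter (fun x => ¬ ((c ≤ x.2 ∧ x.2 < c + z) ∧ x.1 ≠ 0)) with hS₂
    have hS₂b : S₂ ⊆ box2 (t - (h - 1)) w := (Finset.filter_subset _ _).trans hS₁b
    have hS₂E : ¬ Emb2 (t - (h - 1)) w k l S₂ P := by
      rintro ⟨φ, ψ, hφ, hψ, hemb⟩
      apply hS₁E
      refine ⟨φ, ψ, hφ, hψ, ?_⟩
      intro p hp
      obtain ⟨s, hs, hs'⟩ := hemb p hp
      exact ⟨s, (Finset.mem_filter.1 hs).1, hs'⟩
    have hzone : ∀ x ∈ S₂, c ≤ x.2 → x.2 < c + z → x.1 = 0 := by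
      intro x hx hx1 hx2
      have h3 := (Finset.mem_filter.1 hx).2
      by_contra hcon
      exact h3 ⟨⟨hx1, hx2⟩, hcon⟩
    have hcnt2 : l ≤ cntTop S₂ c (c + z) := by
      refine hcnt.trans ?_
      apply Finset.card_le_card
      intro j hj
      rw [Finset.mem_filter] at hj ⊢
      refine ⟨hj.1, hj.2.1, ?_⟩
      rw [hS₂, Finset.mem_filter]
      exact ⟨hj.2.2, by simp⟩
    have hcard2 : S₁.card ≤ S₂.card + (S₁.filter (fun x => c ≤ x.2 ∧ x.2 < c + z)).card := by
      have h3 : (S₁.filter (fun x => ((c ≤ x.2 ∧ x.2 < c + z) ∧ x.1 ≠ 0))).card + S₂.card =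
          S₁.card := Finset.card_filter_add_card_filter_not (s := S₁)
        (fun x : ℕ × ℕ => ((c ≤ x.2 ∧ x.2 < c + z) ∧ x.1 ≠ 0))
      have h4 : (S₁.filter (fun x => ((c ≤ x.2 ∧ x.2 < c + z) ∧ x.1 ≠ 0))).card ≤
          (S₁.filter (fun x => c ≤ x.2 ∧ x.2 < c + z)).card := by
        apply Finset.card_le_card
        intro x hx
        rw [Finset.mem_filter] at hx ⊢
        exact ⟨hx.1, hx.2.1⟩
      omega
    obtain ⟨N, hN1, hN2, hN3⟩ := iterate_ins (g := j * (h - 1)) (w₀ := l - 1) hS₂b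
      (Finset.Subset.refl _) hcz hzone hcnt2 hP hNW hNE hlast hSW hSE hS₂E
      (block_avoids2 hl) j
    have e1 : j * (h - 1) + j * (t - (h - 1)) = j * t := by
      rw [← Nat.mul_add]
      congr 1
      omega
    rw [e1] at hN1 hN2
    have h5 := le_M2 hN1 hN2
    rw [hN3, card_box2] at h5
    -- arithmetic
    have h6 : q * S₁.card ≤ q * S₂.card + S₁.card := by
      calc q * S₁.card ≤ q * (S₂.card + (S₁.filter (fun x => c ≤ x.2 ∧ x.2 < c + z)).card) :=
            Nat.mul_le_mul_left _ hcard2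
        _ = q * S₂.card + q * (S₁.filter (fun x => c ≤ x.2 ∧ x.2 < c + z)).card := by ring
        _ ≤ _ := by omega
    obtain ⟨q', rfl⟩ : ∃ q', q = q' + 1 := ⟨q - 1, by omega⟩
    simp only [Nat.add_sub_cancel] at *
    have h7 : q' * S₁.card ≤ (q' + 1) * S₂.card := by
      have h8 : (q' + 1) * S₁.card = q' * S₁.card + S₁.card := by ring
      omega
    have h8 : S.card - C ≤ S₁.card + (l - 1) * (h - 1) := by omega
    calc j * (q' * (S.card - C)) ≤ j * (q' * (S₁.card + (l - 1) * (h - 1))) :=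
          Nat.mul_le_mul_left _ (Nat.mul_le_mul_left _ h8)
      _ = j * (q' * S₁.card) + j * (q' * ((l - 1) * (h - 1))) := by ring
      _ ≤ j * ((q' + 1) * S₂.card) + j * ((q' + 1) * ((l - 1) * (h - 1))) := by
          apply Nat.add_le_add
          · exact Nat.mul_le_mul_left _ h7
          · exact Nat.mul_le_mul_left _ (Nat.mul_le_mul_right _ (Nat.le_succ _))
      _ = (q' + 1) * (j * (h - 1) * (l - 1) + j * S₂.card) := by ring
      _ ≤ _ := Nat.mul_le_mul_left _ h5
  · push Not at hcase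
    have h1 := few_cols hS hk hl hP hE (hcase t (le_refl _))
    rw [← hC] at h1
    have h2 : S.filter (fun x => x.1 < t) = S := by
      apply Finset.filter_true_of_mem
      intro x hx
      exact (mem_box2.1 (hS hx)).1
    rw [h2] at h1
    have h3 := le_M2 (P := P) (k := k) (Finset.Subset.refl (box2 (j * t) (l - 1)))
      (block_avoids2 hl)
    have h4 := M2_mono hsp (le_refl (j * t)) (Nat.le_add_right (l - 1) (j * w))
    rw [card_box2] at h3
    calc j * ((q - 1) * (S.card - C)) ≤ j * (q * ((l - 1) * t)) := by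
          apply Nat.mul_le_mul_left
          apply Nat.mul_le_mul (Nat.sub_le _ _)
          omega
      _ = q * (j * t * (l - 1)) := by ring
      _ ≤ _ := Nat.mul_le_mul_left _ (h3.trans h4)

end Pool.Agent.Helper450IM
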